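import Pool.Agent.Lib.MP_8a819d_co.AT.Defs

/-!
# MP_8a819d_co, trees with many non-leaves: the absorber statements (interface with the absorber block of helper72)

`AbsE1` (`t = 1`): the unit hosts `u_i` (`i < ε N`) hang at vertices with prescribed small labels `e i` (odd, decreasing with `i`; `0`
if the parent is not prescribed). The host with index `ι d` gets the label `d ∈ D`, the edge to its parent the label
`d - e (ι d)` (set `Eset`). `F₀`: tiny labels used before.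
`AbsF2` (`t = 2`): `AbsStatement 2` with a set `F₀` of tiny labels used before.
In both cases the labels of the units are larger than `ζ N` (`tiny`; true because `A` contains all the other labels `≤ ζ N`).
-/

set_option autoImplicit false

namespace SSB

open Finset

/-- labels of the edges between the hosts and their prescribed parents -/
def Eset (D : Finset ℕ) (e ι : ℕ → ℕ) : Finset ℕ :=
  (D.filter (fun d => e (ι d) ≠ 0)).image (fun d => d - e (ι d))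

structure AbsEData (N : ℕ) (R F₀ A D : Finset ℕ) (e ι : ℕ → ℕ) (ε ζ β : ℝ) : Prop where
  A_sub : A ⊆ Icc 1 N
  D_sub : D ⊆ Icc 1 N
  lt : ∀ d ∈ D, e (ι d) < d
  ι_inj : Set.InjOn ι D
  ι_lt : ∀ d ∈ D, (ι d : ℝ) < ε * N
  e_inj : Set.InjOn (fun d => d - e (ι d)) (D.filter (fun d => e (ι d) ≠ 0))
  AD : Disjoint A D
  AE : Disjoint A (Eset D e ι)
  DE : Disjoint D (Eset D e ι)
  AR : Disjoint A R
  DR : Disjoint D R
  ER : Disjoint (Eset D e ι) R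
  AF : Disjoint A F₀
  DF : Disjoint D F₀
  EF : Disjoint (Eset D e ι) F₀
  tiny : ∀ d ∈ D, ζ * N < (d : ℝ)
  A_le : (A.card : ℝ) ≤ 2 * ε * N
  D_le : (D.card : ℝ) ≤ ε * N
  gap : (A.card : ℝ) + 2 * β * N ≤ 2 * D.card

def AbsE1 : Prop :=
  ∃ c₀ ε₁ : ℝ, 0 < c₀ ∧ 0 < ε₁ ∧ ∀ ε : ℝ, 0 < ε → ε ≤ ε₁ →
    ∃ ζ β : ℝ, c₀ * ε ≤ ζ ∧ ζ ≤ ε ∧ 0 < β ∧ β ≤ ζ ∧ ∃ N₀ : ℕ, ∀ N : ℕ, N₀ ≤ N →
    ∀ (R F₀ : Finset ℕ) (e : ℕ → ℕ), (∀ x ∈ R, ζ * N < x ∧ x ≤ N) → (R.card : ℝ) ≤ β * N →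
      (∀ x ∈ F₀, 1 ≤ x ∧ (x : ℝ) ≤ ζ * N) → Antitone e →
      (∀ i, e i = 0 ∨ (e i % 2 = 1 ∧ 100 * (e i : ℝ) ≤ ζ * N)) →
      ∃ (A D : Finset ℕ) (ι : ℕ → ℕ), AbsEData N R F₀ A D e ι ε ζ β ∧
        ∀ J : Finset ℕ, J ⊆ Icc 1 N → Disjoint J A → Disjoint J D → Disjoint J (Eset D e ι) →
          Disjoint J F₀ → J.card + A.card = 2 * D.card →
          (∑ x ∈ A, x + ∑ x ∈ J, x + ∑ x ∈ D, x) % 2 = 0 →
          Matchable 1 (D.image (fun d => (d, d))) (A ∪ J)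

def AbsF2 : Prop :=
  ∀ ε : ℝ, 0 < ε → ∃ ζ β : ℝ, 0 < ζ ∧ ζ ≤ ε ∧ 0 < β ∧ β ≤ ζ ∧ ∃ N₀ : ℕ, ∀ N : ℕ, N₀ ≤ N →
    ∀ R F₀ : Finset ℕ, (∀ x ∈ R, ζ * N < x ∧ x ≤ N) → (R.card : ℝ) ≤ β * N →
      (∀ x ∈ F₀, 1 ≤ x ∧ (x : ℝ) ≤ ζ * N) →
      ∃ (A : Finset ℕ) (D : Finset (ℕ × ℕ)), AbsData 2 N R A D ε β ∧ Disjoint A F₀ ∧
        Disjoint (labs D) F₀ ∧ (∀ x ∈ labs D, ζ * N < (x : ℝ)) ∧
        ∀ J : Finset ℕ, J ⊆ Icc 1 N → Disjoint J A → Disjoint J (labs D) → Disjoint J F₀ →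
          J.card + A.card = 3 * D.card → Matchable 2 D (A ∪ J)

end SSB
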