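import Pool.Agent.Lib.MP_8a819d_co.AT.AbX
import Pool.Agent.Lib.MP_8a819d_co.AT.AbsSt

/-!
# MP_8a819d_co: absorbers with shadows, 7. The absorber theorem for t = 1

The index of the host with the label `d` is `d / m`, with `m` of the order `1 / ε`.
-/

set_option autoImplicit false

namespace SSB

open Finset

/-- injectivity of the slots on a union -/
private theorem slot_union {m : ℕ} {X Y : Finset ℕ} (h1 : Set.InjOn (fun x => x / m) (X : Set ℕ))
    (h2 : Set.InjOn (fun x => x / m) (Y : Set ℕ)) (h : ∀ y ∈ Y, y / m ∉ X.image (fun x => x / m)) :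
    Set.InjOn (fun x => x / m) ((X ∪ Y : Finset ℕ) : Set ℕ) := by
  intro x hx y hy hxy
  rw [mem_coe, mem_union] at hx hy
  change x / m = y / m at hxy
  rcases hx with hx | hx <;> rcases hy with hy | hy
  · exact h1 (mem_coe.2 hx) (mem_coe.2 hy) hxy
  · exact absurd (mem_image.2 ⟨x, hx, hxy⟩) (h y hy)
  · exact absurd (mem_image.2 ⟨y, hy, hxy.symm⟩) (h x hx)
  · exact h2 (mem_coe.2 hx) (mem_coe.2 hy) hxy

/-- a set of units `(d, d)` -/
private theorem unit_image {D : Finset (ℕ × ℕ)} (h : UnitOK 1 D) :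
    (labs D).image (fun d => (d, d)) = D := by
  have h1 := h.1 rfl
  ext p
  constructor
  · intro hp
    obtain ⟨d, hd, rfl⟩ := mem_image.1 hp
    obtain ⟨q, hq, hdq⟩ := mem_labs.1 hd
    have h2 := h1 q hq
    have h3 : q = (d, d) := by
      rcases hdq with h4 | h4
      · exact Prod.ext h4.symm (h2.symm.trans h4.symm)
      · exact Prod.ext (h2.trans h4.symm) h4.symm
    rw [← h3]
    exact hq
  · intro hp
    refine mem_image.2 ⟨p.1, mem_labs.2 ⟨p, hp, Or.inl rfl⟩, ?_⟩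
    exact Prod.ext rfl (h1 p hp)

theorem absE1 : AbsE1 := by
  obtain ⟨C, K, hK, htm⟩ := tmodE
  have hKr : (1 : ℝ) ≤ K := by exact_mod_cast hK
  have hC0 : (0 : ℝ) ≤ C := Nat.cast_nonneg C
  obtain ⟨B, eB⟩ : ∃ B : ℝ, B = 10 ^ 8 * ((K : ℝ) * ((C : ℝ) + 1)) := ⟨_, rfl⟩
  have hKC1 : (1 : ℝ) ≤ (K : ℝ) * ((C : ℝ) + 1) := by nlinarith
  have hKC2 : (C : ℝ) + 1 ≤ (K : ℝ) * ((C : ℝ) + 1) := le_mul_of_one_le_left (by linarith) hKr
  have hB1 : 10 ^ 8 ≤ B := by
    rw [eB]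
    linarith
  have hB0 : 0 < B := by linarith
  refine ⟨1 / (2 * B), 1, by positivity, one_pos, fun ε hε hε1 => ?_⟩
  obtain ⟨k, ek⟩ : ∃ k : ℕ, k = ⌈B / ε⌉₊ := ⟨_, rfl⟩
  have hk1 : B / ε ≤ k := by
    rw [ek]
    exact Nat.le_ceil _
  have hBε : 1 ≤ B / ε := by
    rw [le_div_iff₀ hε]
    linarith
  have hk2 : (k : ℝ) ≤ 2 * (B / ε) := by
    have h1 : (k : ℝ) < B / ε + 1 := by
      rw [ek]
      exact Nat.ceil_lt_add_one (by positivity)
    linarith
  have hkB : B ≤ k := by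
    have h1 : B ≤ B / ε := by
      rw [le_div_iff₀ hε]
      nlinarith
    linarith
  have hk1000 : 1000 ≤ k := by
    have h1 : (1000 : ℝ) ≤ k := by linarith
    exact_mod_cast h1
  have hk100 : 100 ≤ k := by omega
  have hk0 : (0 : ℝ) < k := by linarith
  obtain ⟨m, em⟩ : ∃ m : ℕ, m = ⌈2 / ε⌉₊ := ⟨_, rfl⟩
  have hm2 : 2 / ε ≤ m := by
    rw [em]
    exact Nat.le_ceil _
  have h1ε : 1 ≤ 1 / ε := by
    rw [le_div_iff₀ hε]
    linarith
  have h2ε : 2 / ε = 2 * (1 / ε) := by ring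
  have hm3 : (m : ℝ) ≤ 3 * (1 / ε) := by
    have h1 : (m : ℝ) < 2 / ε + 1 := by
      rw [em]
      exact Nat.ceil_lt_add_one (by positivity)
    linarith
  have hm1 : 1 ≤ m := by
    have h1 : (1 : ℝ) ≤ m := by linarith
    exact_mod_cast h1
  have hBε' : B / ε = B * (1 / ε) := by ring
  have hmk : m ≤ 200 * k := by
    have h1 : 3 * (1 / ε) ≤ B * (1 / ε) := mul_le_mul_of_nonneg_right (by linarith) (by linarith)
    have h2 : (m : ℝ) ≤ 200 * k := by linarith
    exact_mod_cast h2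
  -- the product of `m` and `1 / k`
  have hζε : 1 / (k : ℝ) ≤ ε / B := by
    rw [div_le_div_iff₀ hk0 hB0]
    rw [div_le_iff₀ hε] at hk1
    linarith
  have hζε2 : B * (1 / (k : ℝ)) ≤ ε := by
    have h1 := mul_le_mul_of_nonneg_left hζε hB0.le
    have h2 : B * (ε / B) = ε := by field_simp
    linarith
  have hmζ : 10 ^ 5 * ((K : ℝ) * ((C : ℝ) + 1) * ((m : ℝ) * (1 / k))) ≤ 1 := by
    have h0 : 0 ≤ 1 / (k : ℝ) := by positivity
    have h1 : (m : ℝ) * (1 / k) ≤ 3 * (1 / ε) * (1 / k) := mul_le_mul_of_nonneg_right hm3 h0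
    have h2 : (K : ℝ) * ((C : ℝ) + 1) * ((m : ℝ) * (1 / k)) ≤
        (K : ℝ) * ((C : ℝ) + 1) * (3 * (1 / ε) * (1 / k)) :=
      mul_le_mul_of_nonneg_left h1 (by linarith)
    have h3 : 10 ^ 8 * ((K : ℝ) * ((C : ℝ) + 1) * (3 * (1 / ε) * (1 / k))) =
        3 * (1 / ε) * (B * (1 / k)) := by
      rw [eB]
      ring
    have h4 : 3 * (1 / ε) * (B * (1 / k)) ≤ 3 * (1 / ε) * ε :=
      mul_le_mul_of_nonneg_left hζε2 (by linarith)
    have h5 : 3 * (1 / ε) * ε = 3 := by field_simp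
    linarith
  have hζ0 : 0 < 1 / (k : ℝ) := by positivity
  have hk2r : (1 : ℝ) ≤ (k : ℝ) ^ 2 := by nlinarith
  have hβζ : 1 / (10 ^ 5 * (k : ℝ) ^ 2) ≤ 1 / k := by
    rw [div_le_div_iff₀ (by positivity) hk0]
    nlinarith
  have hβ0 : 0 < 1 / (10 ^ 5 * (k : ℝ) ^ 2) := by positivity
  refine ⟨1 / k, 1 / (10 ^ 5 * (k : ℝ) ^ 2) / 3, ?_, ?_, by positivity, by linarith,
    10 ^ 7 * k ^ 2 * m, ?_⟩
  · rw [div_mul_eq_mul_div, one_mul, div_le_div_iff₀ (by positivity) hk0]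
    have h1 := mul_le_mul_of_nonneg_left hk2 hε.le
    have h2 : ε * (2 * (B / ε)) = 2 * B := by field_simp
    linarith
  · have h1 : 1 / (k : ℝ) ≤ B * (1 / k) := le_mul_of_one_le_left hζ0.le (by linarith)
    linarith
  intro N hN R F₀ e hR hRc hF₀ hanti hpe
  have hpar : ∀ i, e i = 0 ∨ e i % 2 = 1 := fun i => (hpe i).imp id fun h => h.1
  have hele : ∀ i, 100 * (e i : ℝ) ≤ 1 / (k : ℝ) * N := fun i => by
    rcases hpe i with h | h
    · rw [h, Nat.cast_zero, mul_zero]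
      positivity
    · exact h.2
  obtain ⟨τ, eτ⟩ : ∃ τ, τ = N / (100 * k) := ⟨_, rfl⟩
  have hk1n : 1 ≤ k := by omega
  have hkk : k ≤ k ^ 2 := by nlinarith
  have hN1 : 10 ^ 7 * k ^ 2 ≤ N := (Nat.le_mul_of_pos_right _ (by omega)).trans hN
  have hN2 : 10 ^ 7 * (k * m) ≤ N := by
    have h1 : 10 ^ 7 * (k * m) ≤ 10 ^ 7 * k ^ 2 * m := by
      have h2 : k * m ≤ k ^ 2 * m := Nat.mul_le_mul_right _ hkk
      have h3 : 10 ^ 7 * k ^ 2 * m = 10 ^ 7 * (k ^ 2 * m) := by ring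
      rw [h3]
      exact Nat.mul_le_mul_left _ h2
    exact h1.trans hN
  have hN6 : 10 ^ 6 ≤ N := by nlinarith
  have hN0 : (0 : ℝ) < N := by
    have h1 : 0 < N := by omega
    exact_mod_cast h1
  have hkτ : 100 * (k * τ) ≤ N := by
    have h1 := Nat.div_mul_le_self N (100 * k)
    rw [← eτ] at h1
    calc 100 * (k * τ) = τ * (100 * k) := by ring
      _ ≤ N := h1
  have hτ5 : 10 ^ 5 * τ ≤ N := by
    have h1 : 1000 * τ ≤ k * τ := Nat.mul_le_mul_right _ hk1000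
    omega
  have he : EOK m τ e := by
    refine ⟨hm1, ?_, hanti, hpar, fun i => ?_⟩
    · rw [eτ, Nat.le_div_iff_mul_le (by omega)]
      calc m * (100 * k) = 100 * (k * m) := by ring
        _ ≤ 10 ^ 7 * (k * m) := Nat.mul_le_mul_right _ (by norm_num)
        _ ≤ N := hN2
    · rw [eτ, Nat.le_div_iff_mul_le (by omega)]
      have h1 := hele i
      have h2 : (k : ℝ) * (100 * (e i : ℝ)) ≤ k * (1 / k * N) :=
        mul_le_mul_of_nonneg_left h1 hk0.le
      have h3 : (k : ℝ) * (1 / k * N) = N := by field_simp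
      have h4 : ((e i * (100 * k) : ℕ) : ℝ) ≤ N := by
        push_cast
        linarith
      exact_mod_cast h4
  have hRc3 : 2 * (R.card : ℝ) ≤ 1 / (10 ^ 5 * (k : ℝ) ^ 2) * N := by
    have h1 : 1 / (10 ^ 5 * (k : ℝ) ^ 2) / 3 * N = (1 / (10 ^ 5 * (k : ℝ) ^ 2) * N) / 3 := by ring
    rw [h1] at hRc
    have h2 : (0 : ℝ) ≤ R.card := Nat.cast_nonneg _
    linarith
  obtain ⟨DG, Z1, z1, sys, hG⟩ := sys1E hk100 hN1 (le_refl (1 / (k : ℝ))) he hmk hkτ R hRc3
  obtain ⟨ζ, eζ⟩ : ∃ ζ : ℝ, ζ = 1 / (k : ℝ) := ⟨_, rfl⟩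
  obtain ⟨β, eβ⟩ : ∃ β : ℝ, β = 1 / (10 ^ 5 * (k : ℝ) ^ 2) := ⟨_, rfl⟩
  rw [← eζ, ← eβ] at sys
  rw [← eζ] at hF₀ hR hele hζ0 hζε2 hmζ
  rw [← eβ] at hβ0 hRc3
  rw [← eζ, ← eβ] at hβζ
  rw [← eβ] at hRc
  rw [← eβ]
  have hζN100 : 100 * (ζ * N) ≤ N := by
    have h1 : B * ζ ≤ 1 := by linarith
    have h2 : 100 * ζ ≤ 1 := by nlinarith
    have h3 := mul_le_mul_of_nonneg_right h2 hN0.le
    linarith
  have hζN0 : 0 ≤ ζ * N := by positivity
  -- sizes
  have hβN : 1 ≤ β * N := by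
    rw [eβ, div_mul_eq_mul_div, one_mul, le_div_iff₀ (by positivity), one_mul]
    have h1 : ((10 ^ 7 * k ^ 2 : ℕ) : ℝ) ≤ N := by exact_mod_cast hN1
    push_cast at h1
    have h2 : 0 ≤ (k : ℝ) ^ 2 := by positivity
    linarith
  have hβN' : β * N ≤ ζ * N := mul_le_mul_of_nonneg_right hβζ hN0.le
  have hF₀N : F₀ ⊆ Icc 1 ⌊ζ * N⌋₊ := by
    intro x hx
    exact mem_Icc.2 ⟨(hF₀ x hx).1, Nat.le_floor (hF₀ x hx).2⟩
  have hfl : ∀ X : Finset ℕ, X ⊆ Icc 1 ⌊ζ * N⌋₊ → (X.card : ℝ) ≤ ζ * N := by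
    intro X hX
    have h2 := card_le_card hX
    rw [Nat.card_Icc, Nat.add_sub_cancel] at h2
    have h3 : (X.card : ℝ) ≤ (⌊ζ * N⌋₊ : ℝ) := by exact_mod_cast h2
    exact h3.trans (Nat.floor_le (by positivity))
  have hF₀c := hfl F₀ hF₀N
  obtain ⟨T, eT⟩ : ∃ T, T = (Icc 1 N).filter (fun x : ℕ => (x : ℝ) ≤ ζ * N ∧ x ∉ F₀) := ⟨_, rfl⟩
  have hTm : ∀ x, x ∈ T ↔ x ∈ Icc 1 N ∧ (x : ℝ) ≤ ζ * N ∧ x ∉ F₀ := fun x => by
    rw [eT, mem_filter]
  have hTN : T ⊆ Icc 1 N := fun x hx => ((hTm x).1 hx).1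
  have hTζ : ∀ x ∈ T, (x : ℝ) ≤ ζ * N := fun x hx => ((hTm x).1 hx).2.1
  have hTc : (T.card : ℝ) ≤ ζ * N := hfl T fun x hx =>
    mem_Icc.2 ⟨(mem_Icc.1 (hTN hx)).1, Nat.le_floor (hTζ x hx)⟩
  have hT100 : ∀ x ∈ T, 100 * x ≤ N := fun x hx => by
    have h1 := hTζ x hx
    have h2 : ((100 * x : ℕ) : ℝ) ≤ N := by
      push_cast
      linarith
    exact_mod_cast h2
  -- the shadows of the flexible units are big
  have hbigE : ∀ y ∈ ES e m (labs DG), ζ * N < y := by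
    intro y hy
    obtain ⟨x, hx, -, rfl⟩ := mem_ES.1 hy
    obtain ⟨d, hd, hxd⟩ := mem_labs.1 hx
    obtain ⟨h1, h2, -⟩ := sys.DG_big d hd
    have h3 : 3 * N ≤ 10 * x := by
      rcases hxd with rfl | rfl
      · exact h1
      · rw [(h2 rfl).1]
        exact h1
    have h4 := eE_le he (hG.big x hx)
    have h5 : N ≤ 10 * eE e m x := by omega
    have h6 : (N : ℝ) ≤ 10 * (eE e m x : ℝ) := by exact_mod_cast h5
    linarith
  obtain ⟨R', eR'⟩ : ∃ R', R' = R ∪ F₀ ∪ ES e m (labs DG) := ⟨_, rfl⟩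
  have hbF : ∀ X : Finset ℕ, (∀ x ∈ X, ζ * N < x) → Disjoint X F₀ := by
    intro X hX
    rw [disjoint_left]
    intro x hx hxF
    exact absurd (hF₀ x hxF).2 (not_le.2 (hX x hx))
  have sys' : Sys 1 2 N R' DG Z1 z1 ζ β ζ := by
    refine sys.newR ?_ ?_
    · rw [eR']
      exact disjoint_union_right.2 ⟨disjoint_union_right.2 ⟨sys.DG_R, hbF _ sys.DG_lab⟩, hG.eD.symm⟩
    · intro σ hσ
      rw [eR']
      refine disjoint_union_right.2 ⟨disjoint_union_right.2 ⟨sys.Z1_R σ hσ,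
        hbF _ (sys.Z1_big σ hσ)⟩, (disjoint_of_subset_right ?_ hG.eA).symm⟩
      have h2 : σ = 0 ∨ σ = 1 := by omega
      rcases h2 with rfl | rfl
      · exact subset_union_left
      · exact subset_union_right
  have hDGζ := sys.DG_le
  have hz1ζ := sys.z1_le
  have hR'c : (R'.card : ℝ) ≤ 3 * (ζ * N) := by
    have h1 : R'.card ≤ R.card + F₀.card + DG.card := by
      rw [eR']
      have h2 := card_union_le (R ∪ F₀) (ES e m (labs DG))
      have h3 := card_union_le R F₀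
      have h4 := ES_card (e := e) (m := m) (labs DG)
      have h5 := sys.DG_ok.2
      rw [one_mul] at h5
      omega
    have h2 : (R'.card : ℝ) ≤ R.card + F₀.card + DG.card := by exact_mod_cast h1
    have h3 : (0 : ℝ) ≤ R.card := Nat.cast_nonneg _
    linarith
  have cTR : Disjoint T R' := by
    rw [eR']
    refine disjoint_union_right.2 ⟨disjoint_union_right.2 ⟨?_, ?_⟩, ?_⟩
    · rw [disjoint_left]
      intro x hx hxR
      exact absurd (hTζ x hx) (not_le.2 (hR x hxR).1)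
    · rw [disjoint_left]
      intro x hx
      exact ((hTm x).1 hx).2.2
    · rw [disjoint_left]
      intro x hx hxE
      exact absurd (hTζ x hx) (not_le.2 (hbigE x hxE))
  have hcond : 10 ^ 5 * ((K : ℝ) * ((C : ℝ) + 1) * ((m : ℝ) * (ζ * N))) ≤ N := by
    have h1 := mul_le_mul_of_nonneg_right hmζ hN0.le
    have h2 : 10 ^ 5 * ((K : ℝ) * ((C : ℝ) + 1) * ((m : ℝ) * ζ)) * N =
        10 ^ 5 * ((K : ℝ) * ((C : ℝ) + 1) * ((m : ℝ) * (ζ * N))) := by ring
    linarith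
  obtain ⟨AT, DT, π, P, A', D', h, M, c, b2, b3, b4, b5, x1, x2, x3, x4, x5, x6, x7, x8, x9, x10⟩ :=
    abE_exists he sys' hβ0 hβζ (le_refl ζ) (by omega) hτ5 hK hcond hβN hR'c T hTN hTζ hT100 hTc cTR
      (fun σ M Z F Sl => htm N m τ e hN6 he hτ5 σ M Z F Sl)
  obtain ⟨d1, d2, d3⟩ := abE_dis c
  obtain ⟨s1, s2⟩ := abE_sub c
  have hunit := abE_unit c
  have hmatch := abE_match c
  have h2c := abE_2card c
  have h2r : 2 * ((abE_D DT DG D').card : ℝ) = (abE_A T AT Z1 P A').card + 2 * h := by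
    exact_mod_cast h2c
  have hAc : ((abE_A T AT Z1 P A').card : ℝ) ≤ (8 + 8 * (C : ℝ)) * (ζ * N) := by
    have e1 := abE_cardA c
    have e2 : ((abE_A T AT Z1 P A').card : ℝ) = T.card + AT.card + (z1 + 2 * DG.card) +
        (z1 + 2 * DG.card) + (A' 0).card + (A' 1).card := by exact_mod_cast e1
    have e3 : (AT.card : ℝ) = T.card := by exact_mod_cast c.AT_card
    have e4 : ((A' 0).card : ℝ) ≤ C * M := by exact_mod_cast b4
    have e5 : ((A' 1).card : ℝ) ≤ C * M := by exact_mod_cast b5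
    have e6 : (C : ℝ) * M ≤ C * (4 * (ζ * N)) := mul_le_mul_of_nonneg_left b3 (Nat.cast_nonneg C)
    rw [e2, e3]
    linarith
  have hlc : (labs (abE_D DT DG D')).card = (abE_D DT DG D').card := by
    have h1 := hunit.2
    rwa [one_mul] at h1
  have hlcr : ((labs (abE_D DT DG D')).card : ℝ) = (abE_D DT DG D').card := by
    exact_mod_cast hlc
  have hCζ0 : 0 ≤ (C : ℝ) * (ζ * N) := by positivity
  have hεN : 10 ^ 8 * ((C : ℝ) * (ζ * N)) + 10 ^ 8 * (ζ * N) ≤ ε * N := by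
    have h1 : 10 ^ 8 * ((C : ℝ) + 1) ≤ B := by
      rw [eB]
      linarith
    have h2 : 10 ^ 8 * ((C : ℝ) + 1) * (ζ * N) ≤ B * (ζ * N) := mul_le_mul_of_nonneg_right h1 hζN0
    have h3 := mul_le_mul_of_nonneg_right hζε2 hN0.le
    have h4 : B * ζ * N = B * (ζ * N) := by ring
    have h5 : 10 ^ 8 * ((C : ℝ) + 1) * (ζ * N) =
        10 ^ 8 * ((C : ℝ) * (ζ * N)) + 10 ^ 8 * (ζ * N) := by ring
    linarith
  have hAc' : ((abE_A T AT Z1 P A').card : ℝ) ≤ 8 * (ζ * N) + 8 * ((C : ℝ) * (ζ * N)) := by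
    linarith
  -- the shadows
  obtain ⟨E, eE'⟩ : ∃ E, E = ES e m (labs DT) ∪ ES e m (labs (D' 0)) ∪ ES e m (labs (D' 1)) :=
    ⟨_, rfl⟩
  rw [← eE'] at d2 d3
  have hES : ES e m (labs (abE_D DT DG D')) = ES e m (labs DT) ∪ ES e m (labs DG) ∪
      ES e m (labs (D' 0)) ∪ ES e m (labs (D' 1)) := by
    rw [abE_labs, ES_union, ES_union, ES_union]
  have hESsub : ES e m (labs (abE_D DT DG D')) ⊆ R' ∪ E := by
    rw [hES, eR', eE']
    refine union_subset (union_subset (union_subset ?_ ?_) ?_) ?_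
    · exact (subset_union_left.trans subset_union_left).trans subset_union_right
    · exact subset_union_right.trans subset_union_left
    · exact (subset_union_right.trans subset_union_left).trans subset_union_right
    · exact subset_union_right.trans subset_union_right
  have hRR' : R ⊆ R' := by
    rw [eR']
    exact subset_union_left.trans subset_union_left
  have hFR' : F₀ ⊆ R' := by
    rw [eR']
    exact subset_union_right.trans subset_union_left
  have hR'E : R' ⊆ R' ∪ E := subset_union_left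
  have hbig : ∀ x ∈ labs (abE_D DT DG D'), τ < x := by
    intro x hx
    rw [abE_labs] at hx
    rcases mem_union.1 hx with hx | hx
    · rcases mem_union.1 hx with hx | hx
      · rcases mem_union.1 hx with hx | hx
        · exact x4 x (mem_union_left _ (mem_union_left _ hx))
        · exact hG.big x hx
      · exact x4 x (mem_union_left _ (mem_union_right _ hx))
    · exact x4 x (mem_union_right _ hx)
  have hER : Disjoint (ES e m (labs (abE_D DT DG D'))) R := by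
    rw [hES]
    exact disjoint_union_left.2 ⟨disjoint_union_left.2 ⟨disjoint_union_left.2
      ⟨disjoint_of_subset_right hRR' x1, hG.eF⟩, disjoint_of_subset_right hRR' x2⟩,
      disjoint_of_subset_right hRR' x3⟩
  have hEF : Disjoint (ES e m (labs (abE_D DT DG D'))) F₀ := by
    rw [hES]
    exact disjoint_union_left.2 ⟨disjoint_union_left.2 ⟨disjoint_union_left.2
      ⟨disjoint_of_subset_right hFR' x1, hbF _ hbigE⟩, disjoint_of_subset_right hFR' x2⟩,
      disjoint_of_subset_right hFR' x3⟩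
  have hslot : Set.InjOn (fun x => x / m) ((labs (abE_D DT DG D') : Finset ℕ) : Set ℕ) := by
    rw [abE_labs]
    refine slot_union (slot_union (slot_union x5 hG.slot ?_) x6 ?_) x7 ?_
    · intro y hy hyT
      obtain ⟨z, hz, hzy⟩ := mem_image.1 hyT
      exact x8 z hz (mem_image.2 ⟨y, hy, hzy.symm⟩)
    · intro y hy hyT
      refine x9 y hy ?_
      rw [← image_union, union_comm]
      exact hyT
    · intro y hy hyT
      refine x10 y hy ?_
      rw [← image_union, ← image_union, union_comm (labs DG) (labs DT)]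
      exact hyT
  have hTA : T ⊆ abE_A T AT Z1 P A' := by
    intro u huT
    unfold abE_A
    simp only [mem_union]
    exact Or.inl (Or.inl (Or.inl (Or.inl (Or.inl huT))))
  have htiny : ∀ d ∈ labs (abE_D DT DG D'), ζ * N < (d : ℝ) := by
    intro d hd
    by_contra hle
    have hle' : (d : ℝ) ≤ ζ * N := not_lt.1 hle
    have hdF : d ∉ F₀ := disjoint_left.1 (disjoint_of_subset_right (hFR'.trans hR'E) d3) hd
    have hdT : d ∈ T := (hTm d).2 ⟨s2 hd, hle', hdF⟩
    exact disjoint_left.1 d1 (hTA hdT) hd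
  have hEs : Eset (labs (abE_D DT DG D')) e (fun x => x / m) = ES e m (labs (abE_D DT DG D')) := rfl
  refine ⟨abE_A T AT Z1 P A', labs (abE_D DT DG D'), fun x => x / m, ?_, ?_⟩
  · refine ⟨s1, s2, ?_, hslot, ?_, ?_, d1, ?_, ?_, disjoint_of_subset_right (hRR'.trans hR'E) d2,
      disjoint_of_subset_right (hRR'.trans hR'E) d3, ?_,
      disjoint_of_subset_right (hFR'.trans hR'E) d2,
      disjoint_of_subset_right (hFR'.trans hR'E) d3, ?_, (by rw [← eζ]; exact htiny), by linarith, by linarith, ?_⟩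
    · intro d hd
      have h1 := he.le (d / m)
      have h2 := hbig d hd
      omega
    · intro d hd
      have h1 := (mem_Icc.1 (s2 hd)).2
      have h2 : d / m * m ≤ N := (Nat.div_mul_le_self d m).trans h1
      have h3 : ((d / m : ℕ) : ℝ) * m ≤ N := by exact_mod_cast h2
      have h4 : ((d / m : ℕ) : ℝ) * (2 / ε) ≤ ((d / m : ℕ) : ℝ) * m :=
        mul_le_mul_of_nonneg_left hm2 (Nat.cast_nonneg _)
      have h5 : ((d / m : ℕ) : ℝ) * (2 / ε) * ε = 2 * ((d / m : ℕ) : ℝ) := by field_simp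
      have h6 : ((d / m : ℕ) : ℝ) * (2 / ε) * ε ≤ N * ε :=
        mul_le_mul_of_nonneg_right (h4.trans h3) hε.le
      have h7 : 0 < N * ε := by positivity
      linarith
    · intro x hx y hy hxy
      have h1 := hbig x (mem_filter.1 (mem_coe.1 hx)).1
      have h2 := hbig y (mem_filter.1 (mem_coe.1 hy)).1
      rcases lt_trichotomy x y with h3 | h3 | h3
      · exact absurd hxy (eE_lt he h1 h3).ne
      · exact h3
      · exact absurd hxy (eE_lt he h2 h3).ne'
    · rw [hEs]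
      exact disjoint_of_subset_right hESsub d2
    · rw [hEs]
      exact disjoint_of_subset_right hESsub d3
    · rw [hEs]
      exact hER
    · rw [hEs]
      exact hEF
    · rw [hlcr]
      have h1 := c.h_ge
      have h3 : 2 * (β / 3) * (N : ℝ) = 2 / 3 * (β * N) := by ring
      have h4 : 0 ≤ β * N := by positivity
      linarith
  · intro J hJ hJA hJD hJE hJF hc hp
    rw [unit_image hunit]
    refine hmatch J hJ (fun u hu => ?_) hJA (by omega) hp
    by_contra hle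
    have hle' : (u : ℝ) ≤ ζ * N := not_lt.1 hle
    have huT : u ∈ T := (hTm u).2 ⟨hJ hu, hle', disjoint_left.1 hJF hu⟩
    exact disjoint_left.1 hJA hu (hTA huT)

end SSB
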