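import Pool.Agent.Lib.MP_8a819d_co.AT.AbS

/-!
# MP_8a819d_co: absorbers with shadows, 6. The configuration exists
-/

set_option autoImplicit false

namespace SSB

open Finset

private theorem stp {Y' Y E : Finset ℕ} (S : Finset ℕ) (h : Y' ⊆ Y ∪ E) : Y' ∪ S ⊆ Y ∪ S ∪ E := by
  intro x hx
  rcases mem_union.1 hx with hx | hx
  · rcases mem_union.1 (h hx) with h1 | h1
    · exact mem_union_left _ (mem_union_left _ h1)
    · exact mem_union_right _ h1
  · exact mem_union_left _ (mem_union_right _ hx)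

private theorem dstp {X Y' Y E : Finset ℕ} (h : Y' ⊆ Y ∪ E) (h1 : Disjoint X Y) (h2 : Disjoint X E) :
    Disjoint X Y' := disjoint_of_subset_right h (disjoint_union_right.2 ⟨h1, h2⟩)

theorem Sys.newR {t s N : ℕ} {R R' : Finset ℕ} {DG : Finset (ℕ × ℕ)} {Z1 : ℕ → Finset ℕ} {z1 : ℕ}
    {ζ β ε : ℝ} (h : Sys t s N R DG Z1 z1 ζ β ε) (h1 : Disjoint (labs DG) R')
    (h2 : ∀ σ < s, Disjoint (Z1 σ) R') : Sys t s N R' DG Z1 z1 ζ β ε :=
  { DG_sub := h.DG_sub
    DG_ok := h.DG_ok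
    DG_R := h1
    DG_big := h.DG_big
    Z1_sub := h.Z1_sub
    Z1_cls := h.Z1_cls
    Z1_card := h.Z1_card
    Z1_R := h2
    Z1_DG := h.Z1_DG
    Z1_big := h.Z1_big
    DG_lab := h.DG_lab
    DG_le := h.DG_le
    z1_le := h.z1_le
    z1_pos := h.z1_pos
    DG_z1 := h.DG_z1
    DG_ge := h.DG_ge
    junk := h.junk }

section abEx

variable {N : ℕ} {R : Finset ℕ} {DG : Finset (ℕ × ℕ)} {Z1 : ℕ → Finset ℕ} {z1 : ℕ} {ζ β ε : ℝ}

theorem abE_exists {C K m τ : ℕ} {e : ℕ → ℕ} (he : EOK m τ e)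
    (sys : Sys 1 2 N R DG Z1 z1 ζ β ε) (hβ : 0 < β)
    (hβζ : β ≤ ζ) (hζε : ζ ≤ ε) (hN : 10 ^ 5 ≤ N) (hτ : 10 ^ 5 * τ ≤ N) (hK : 1 ≤ K)
    (hε1 : 10 ^ 5 * ((K : ℝ) * ((C : ℝ) + 1) * ((m : ℝ) * (ε * N))) ≤ N) (hβN : 1 ≤ β * N)
    (hR : (R.card : ℝ) ≤ 3 * (ε * N)) (T : Finset ℕ) (hTN : T ⊆ Icc 1 N)
    (hTζ : ∀ x ∈ T, (x : ℝ) ≤ ζ * N) (hT100 : ∀ x ∈ T, 100 * x ≤ N)
    (hTc : (T.card : ℝ) ≤ ε * N) (cTR : Disjoint T R)
    (htm : ∀ (σ M : ℕ) (Z F Sl : Finset ℕ), 1 ≤ M → K * (m * M) ≤ N → K * F.card ≤ N →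
      K * (Sl.card * m) ≤ N → Z ⊆ F → Z ⊆ Icc 1 N → (∀ z ∈ Z, cls 1 z = σ) → Z.Nonempty →
      Z.card ≤ 2 * M →
      ∃ (A : Finset ℕ) (D : Finset (ℕ × ℕ)), A ⊆ Icc 1 N ∧ labs D ⊆ Icc 1 N ∧ Disjoint A (labs D) ∧
        Disjoint A F ∧ Disjoint (labs D) F ∧ UnitOK 1 D ∧ A.card ≤ C * M ∧ D.card ≤ C * M ∧
        (1 + 1) * D.card = A.card + M ∧ (∀ Z' ⊆ Z, Z'.card = M → Matchable 1 D (A ∪ Z')) ∧
        EGood m τ e F Sl A (labs D)) :
    ∃ (AT : Finset ℕ) (DT : Finset (ℕ × ℕ)) (π : ℕ → ℕ × ℕ → Finset ℕ) (P A' : ℕ → Finset ℕ)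
      (D' : ℕ → Finset (ℕ × ℕ)) (h M : ℕ),
      abECfg N (R ∪ (ES e m (labs DT) ∪ ES e m (labs (D' 0)) ∪ ES e m (labs (D' 1)))) T AT DT DG Z1 π
        P A' D' z1 h M ζ β ε ∧
      (h : ℝ) ≤ 2 * (ε * N) ∧ (M : ℝ) ≤ 4 * (ε * N) ∧ (A' 0).card ≤ C * M ∧ (A' 1).card ≤ C * M ∧
      Disjoint (ES e m (labs DT)) R ∧ Disjoint (ES e m (labs (D' 0))) R ∧
      Disjoint (ES e m (labs (D' 1))) R ∧
      (∀ x ∈ labs DT ∪ labs (D' 0) ∪ labs (D' 1), τ < x) ∧
      Set.InjOn (fun x => x / m) ((labs DT : Finset ℕ) : Set ℕ) ∧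
      Set.InjOn (fun x => x / m) ((labs (D' 0) : Finset ℕ) : Set ℕ) ∧
      Set.InjOn (fun x => x / m) ((labs (D' 1) : Finset ℕ) : Set ℕ) ∧
      (∀ x ∈ labs DT, x / m ∉ (labs DG).image (fun x => x / m)) ∧
      (∀ x ∈ labs (D' 0), x / m ∉ (labs DG).image (fun x => x / m) ∪
        (labs DT).image (fun x => x / m)) ∧
      (∀ x ∈ labs (D' 1), x / m ∉ (labs DG).image (fun x => x / m) ∪
        (labs DT).image (fun x => x / m) ∪ (labs (D' 0)).image (fun x => x / m)) := by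
  have hN0 : (0 : ℝ) < N := by
    have h1 : 0 < N := by omega
    exact_mod_cast h1
  have hζ0 : 0 < ζ := lt_of_lt_of_le hβ hβζ
  have hε0 : 0 < ε := lt_of_lt_of_le hζ0 hζε
  have hm1 := he.m_pos
  have hm1r : (1 : ℝ) ≤ m := by exact_mod_cast hm1
  have hK1r : (1 : ℝ) ≤ K := by exact_mod_cast hK
  have hεN0 : 0 ≤ ε * N := by positivity
  have hC0 : (0 : ℝ) ≤ C := Nat.cast_nonneg C
  have hmε0 : 0 ≤ (m : ℝ) * (ε * N) := by positivity
  have hKC1 : (1 : ℝ) ≤ (K : ℝ) * ((C : ℝ) + 1) := by nlinarith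
  have hεm : 10 ^ 5 * ((m : ℝ) * (ε * N)) ≤ N := by
    have h1 : (m : ℝ) * (ε * N) ≤ (K : ℝ) * ((C : ℝ) + 1) * ((m : ℝ) * (ε * N)) :=
      le_mul_of_one_le_left hmε0 hKC1
    linarith
  obtain ⟨AT, DT, π, P, a3, a4, a5, a6, a7, a8, a9, a10, a11, a12, a13, a14, c3, c4,
    c5, c6, c7, c8, c9, gT, pT⟩ := abE_stage he sys hβ hβζ hζε hN hτ hεm hR T hTN hTζ hT100 hTc
  have hζN : ζ * N ≤ ε * N := mul_le_mul_of_nonneg_right hζε hN0.le
  have hβN' : β * N ≤ ζ * N := mul_le_mul_of_nonneg_right hβζ hN0.le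
  have he1 : 1 ≤ ε * N := by linarith
  obtain ⟨h, eh⟩ : ∃ h, h = ⌈β * N⌉₊ := ⟨_, rfl⟩
  have h_ge : β * N ≤ h := by
    rw [eh]
    exact Nat.le_ceil _
  have h_le : (h : ℝ) ≤ β * N + 1 := by
    rw [eh]
    exact (Nat.ceil_lt_add_one (by positivity)).le
  obtain ⟨M, eM⟩ : ∃ M, M = DG.card + z1 + h := ⟨_, rfl⟩
  have hMr : (M : ℝ) = DG.card + z1 + h := by
    rw [eM]
    push_cast
    ring
  have hg := sys.DG_le
  have hz := sys.z1_le
  have hgg := sys.DG_ge
  have hM4 : (M : ℝ) ≤ 4 * (ε * N) := by linarith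
  have h3h : 3 * h ≤ DG.card := by
    have h1 : (((3 * h : ℕ)) : ℝ) ≤ DG.card := by
      push_cast
      linarith
    exact_mod_cast h1
  have hM1 : 1 ≤ M := by
    have h1 := sys.z1_pos
    omega
  have hCM : (C : ℝ) * M ≤ 4 * ((C : ℝ) * (ε * N)) := by
    have h1 := mul_le_mul_of_nonneg_left hM4 hC0
    linarith
  -- a general bound
  have hbd : ∀ x : ℝ, x ≤ 1000 * (((C : ℝ) + 1) * (ε * N)) → (K : ℝ) * (x * m) ≤ N := by
    intro x hx
    have h1 : (K : ℝ) * (x * m) ≤ K * (1000 * (((C : ℝ) + 1) * (ε * N)) * m) :=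
      mul_le_mul_of_nonneg_left (mul_le_mul_of_nonneg_right hx (by linarith)) (by linarith)
    have h2 : (K : ℝ) * (1000 * (((C : ℝ) + 1) * (ε * N)) * m) =
        1000 * ((K : ℝ) * ((C : ℝ) + 1) * ((m : ℝ) * (ε * N))) := by ring
    have h3 : 0 ≤ (K : ℝ) * ((C : ℝ) + 1) * ((m : ℝ) * (ε * N)) := by positivity
    linarith
  have hbd1 : ∀ x : ℝ, 0 ≤ x → x ≤ 1000 * (((C : ℝ) + 1) * (ε * N)) → (K : ℝ) * x ≤ N := by
    intro x hx0 hx
    have h1 : (K : ℝ) * x ≤ (K : ℝ) * (x * m) :=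
      mul_le_mul_of_nonneg_left (le_mul_of_one_le_right hx0 hm1r) (by linarith)
    exact h1.trans (hbd x hx)
  have hCe : ((C : ℝ) + 1) * (ε * N) = C * (ε * N) + ε * N := by ring
  have hCe0 : 0 ≤ (C : ℝ) * (ε * N) := by positivity
  have hKM : K * (m * M) ≤ N := by
    have h1 := hbd M (by rw [hCe]; linarith)
    have h2 : ((K * (m * M) : ℕ) : ℝ) ≤ N := by
      push_cast
      have h3 : (K : ℝ) * (m * M) = K * (M * m) := by ring
      rw [h3]
      exact h1
    exact_mod_cast h2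
  have cP0 := a14 0 (by norm_num)
  have cP1 := a14 1 (by norm_num)
  have cZ0 := sys.Z1_card 0 (by norm_num)
  have cZ1 := sys.Z1_card 1 (by norm_num)
  have cLG : (labs DG).card = DG.card := by
    have h1 := sys.DG_ok.2
    rwa [one_mul] at h1
  obtain ⟨F2, eF2⟩ : ∃ F2, F2 = R ∪ T ∪ labs DG ∪ Z1 0 ∪ Z1 1 ∪ AT ∪ labs DT ∪ P 0 ∪ P 1 := ⟨_, rfl⟩
  have hF2 : F2.card ≤ R.card + T.card + DG.card + z1 + z1 + T.card + T.card + 2 * DG.card +
      2 * DG.card := by
    rw [eF2]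
    have t1 := card_union_le (R ∪ T ∪ labs DG ∪ Z1 0 ∪ Z1 1 ∪ AT ∪ labs DT ∪ P 0) (P 1)
    have t2 := card_union_le (R ∪ T ∪ labs DG ∪ Z1 0 ∪ Z1 1 ∪ AT ∪ labs DT) (P 0)
    have t3 := card_union_le (R ∪ T ∪ labs DG ∪ Z1 0 ∪ Z1 1 ∪ AT) (labs DT)
    have t4 := card_union_le (R ∪ T ∪ labs DG ∪ Z1 0 ∪ Z1 1) AT
    have t5 := card_union_le (R ∪ T ∪ labs DG ∪ Z1 0) (Z1 1)
    have t6 := card_union_le (R ∪ T ∪ labs DG) (Z1 0)
    have t7 := card_union_le (R ∪ T) (labs DG)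
    have t8 := card_union_le R T
    linarith
  have hF2r : (F2.card : ℝ) ≤ 13 * (ε * N) := by
    have h1 : (F2.card : ℝ) ≤ R.card + T.card + DG.card + z1 + z1 + T.card + T.card + 2 * DG.card +
      2 * DG.card := by exact_mod_cast hF2
    linarith
  -- the forbidden set for the first robust absorber
  obtain ⟨F3, eF3⟩ : ∃ F3, F3 = F2 ∪ ES e m (labs DT) := ⟨_, rfl⟩
  have hF3r : (F3.card : ℝ) ≤ 14 * (ε * N) := by
    have h1 : F3.card ≤ F2.card + T.card := by
      rw [eF3]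
      have h2 := card_union_le F2 (ES e m (labs DT))
      have h3 := ES_card (e := e) (m := m) (labs DT)
      omega
    have h4 : (F3.card : ℝ) ≤ F2.card + T.card := by exact_mod_cast h1
    linarith
  obtain ⟨Sl2, eSl2⟩ : ∃ Sl2, Sl2 = (labs DG).image (fun x => x / m) ∪
    (labs DT).image (fun x => x / m) := ⟨_, rfl⟩
  have hSl2r : (Sl2.card : ℝ) ≤ 2 * (ε * N) := by
    have h1 : Sl2.card ≤ DG.card + T.card := by
      rw [eSl2]
      have h2 := card_union_le ((labs DG).image (fun x => x / m)) ((labs DT).image (fun x => x / m))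
      have h3 : ((labs DG).image (fun x => x / m)).card ≤ (labs DG).card := card_image_le
      have h4 : ((labs DT).image (fun x => x / m)).card ≤ (labs DT).card := card_image_le
      omega
    have h4 : (Sl2.card : ℝ) ≤ DG.card + T.card := by exact_mod_cast h1
    linarith
  have sZ2' : ∀ σ < 2, Z1 σ ∪ P σ ⊆ F2 := by
    intro σ hσ
    rw [eF2]
    intro x hx
    simp only [mem_union] at hx ⊢
    have h1 : σ = 0 ∨ σ = 1 := by omega
    rcases h1 with rfl | rfl
    · rcases hx with hx | hx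
      · exact Or.inl (Or.inl (Or.inl (Or.inl (Or.inl (Or.inr hx)))))
      · exact Or.inl (Or.inr hx)
    · rcases hx with hx | hx
      · exact Or.inl (Or.inl (Or.inl (Or.inl (Or.inr hx))))
      · exact Or.inr hx
  have sF23 : F2 ⊆ F3 := by
    rw [eF3]
    exact subset_union_left
  have sZ : ∀ σ < 2, Z1 σ ∪ P σ ⊆ F3 := fun σ hσ => (sZ2' σ hσ).trans sF23
  have sZN : ∀ σ < 2, Z1 σ ∪ P σ ⊆ Icc 1 N := fun σ hσ => union_subset (sys.Z1_sub σ hσ) (a13 σ hσ)
  have sZc : ∀ σ < 2, ∀ z ∈ Z1 σ ∪ P σ, cls 1 z = σ := by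
    intro σ hσ z hz'
    rcases mem_union.1 hz' with hz' | hz'
    · exact sys.Z1_cls σ hσ z hz'
    · rw [a12 σ hσ] at hz'
      obtain ⟨d, hd, hz'⟩ := mem_biUnion.1 hz'
      exact a11 σ hσ d hd z hz'
  have sZ1 : ∀ σ < 2, (Z1 σ ∪ P σ).Nonempty := by
    intro σ hσ
    have h1 : (Z1 σ).Nonempty := by
      rw [← card_pos, sys.Z1_card σ hσ]
      exact sys.z1_pos
    exact h1.mono subset_union_left
  have sZ2 : ∀ σ < 2, (Z1 σ ∪ P σ).card ≤ 2 * M := by
    intro σ hσ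
    refine (card_union_le _ _).trans ?_
    have h1 := a14 σ hσ
    have h2 := sys.Z1_card σ hσ
    omega
  have kF3 : K * F3.card ≤ N := by
    have h1 := hbd1 F3.card (Nat.cast_nonneg _) (by rw [hCe]; linarith)
    exact_mod_cast h1
  have kS2 : K * (Sl2.card * m) ≤ N := by
    have h1 := hbd Sl2.card (by rw [hCe]; linarith)
    exact_mod_cast h1
  obtain ⟨A0, D0, f1, f2, f3, f4, f5, f6, f7, f8, f9, f10, f11⟩ := htm 0 M (Z1 0 ∪ P 0) F3 Sl2 hM1
    hKM kF3 kS2 (sZ 0 (by norm_num)) (sZN 0 (by norm_num)) (sZc 0 (by norm_num))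
    (sZ1 0 (by norm_num)) (sZ2 0 (by norm_num))
  have cL0 : (labs D0).card = D0.card := by
    have h1 := f6.2
    rwa [one_mul] at h1
  obtain ⟨F4, eF4⟩ : ∃ F4, F4 = F3 ∪ A0 ∪ labs D0 ∪ ES e m (labs D0) := ⟨_, rfl⟩
  have hF4r : (F4.card : ℝ) ≤ 14 * (ε * N) + 12 * ((C : ℝ) * (ε * N)) := by
    have h1 : F4.card ≤ F3.card + C * M + C * M + C * M := by
      rw [eF4]
      have h2 := card_union_le (F3 ∪ A0 ∪ labs D0) (ES e m (labs D0))
      have h3 := card_union_le (F3 ∪ A0) (labs D0)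
      have h4 := card_union_le F3 A0
      have h5 := ES_card (e := e) (m := m) (labs D0)
      linarith
    have h4 : (F4.card : ℝ) ≤ F3.card + C * M + C * M + C * M := by exact_mod_cast h1
    linarith
  obtain ⟨Sl3, eSl3⟩ : ∃ Sl3, Sl3 = Sl2 ∪ (labs D0).image (fun x => x / m) := ⟨_, rfl⟩
  have hSl3r : (Sl3.card : ℝ) ≤ 2 * (ε * N) + 4 * ((C : ℝ) * (ε * N)) := by
    have h1 : Sl3.card ≤ Sl2.card + C * M := by
      rw [eSl3]
      have h2 := card_union_le Sl2 ((labs D0).image (fun x => x / m))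
      have h3 : ((labs D0).image (fun x => x / m)).card ≤ (labs D0).card := card_image_le
      omega
    have h4 : (Sl3.card : ℝ) ≤ Sl2.card + C * M := by exact_mod_cast h1
    linarith
  have kF4 : K * F4.card ≤ N := by
    have h1 := hbd1 F4.card (Nat.cast_nonneg _) (by rw [hCe]; linarith)
    exact_mod_cast h1
  have kS3 : K * (Sl3.card * m) ≤ N := by
    have h1 := hbd Sl3.card (by rw [hCe]; linarith)
    exact_mod_cast h1
  have sF34 : F3 ⊆ F4 := by
    rw [eF4]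
    exact (subset_union_left.trans subset_union_left).trans subset_union_left
  obtain ⟨A1, D1, g1, g2, g3, g4, g5, g6, g7, g8, g9, g10, g11⟩ := htm 1 M (Z1 1 ∪ P 1)
    F4 Sl3 hM1 hKM kF4 kS3 ((sZ 1 (by norm_num)).trans sF34) (sZN 1 (by norm_num))
    (sZc 1 (by norm_num)) (sZ1 1 (by norm_num)) (sZ2 1 (by norm_num))
  have hcases : ∀ (p : ℕ → Prop), p 0 → p 1 → ∀ σ < 2, p σ := by
    intro p h0 h1 σ hσ
    have h2 : σ = 0 ∨ σ = 1 := by omega
    rcases h2 with rfl | rfl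
    · exact h0
    · exact h1
  -- subsets of F2
  have u1 : R ∪ T ⊆ F2 := by
    rw [eF2]
    exact (((((((subset_union_left (s₁ := R ∪ T) (s₂ := labs DG)).trans subset_union_left).trans
      subset_union_left).trans subset_union_left).trans subset_union_left).trans
      subset_union_left).trans subset_union_left)
  have uR : R ⊆ F2 := subset_union_left.trans u1
  have uT : T ⊆ F2 := subset_union_right.trans u1
  have uDG : labs DG ⊆ F2 := by
    rw [eF2]
    exact ((((((subset_union_right (s₁ := R ∪ T) (s₂ := labs DG)).trans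
      subset_union_left).trans subset_union_left).trans subset_union_left).trans
      subset_union_left).trans subset_union_left).trans subset_union_left
  have uZ0 : Z1 0 ⊆ F2 := subset_union_left.trans (sZ2' 0 (by norm_num))
  have uZ1 : Z1 1 ⊆ F2 := subset_union_left.trans (sZ2' 1 (by norm_num))
  have uP0 : P 0 ⊆ F2 := subset_union_right.trans (sZ2' 0 (by norm_num))
  have uP1 : P 1 ⊆ F2 := subset_union_right.trans (sZ2' 1 (by norm_num))
  have uAT : AT ⊆ F2 := by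
    rw [eF2]
    exact ((subset_union_right.trans
      subset_union_left).trans subset_union_left).trans subset_union_left
  have uDT : labs DT ⊆ F2 := by
    rw [eF2]
    exact (subset_union_right.trans
      subset_union_left).trans subset_union_left
  obtain ⟨F0, eF0⟩ : ∃ F0, F0 = R ∪ T ∪ labs DG ∪ Z1 0 ∪ Z1 1 := ⟨_, rfl⟩
  rw [← eF0] at gT
  have w1 : R ∪ T ⊆ F0 := by
    rw [eF0]
    exact ((subset_union_left (s₁ := R ∪ T) (s₂ := labs DG)).trans subset_union_left).trans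
      subset_union_left
  have wR : R ⊆ F0 := subset_union_left.trans w1
  have wT : T ⊆ F0 := subset_union_right.trans w1
  have wDG : labs DG ⊆ F0 := by
    rw [eF0]
    exact (subset_union_right.trans subset_union_left).trans subset_union_left
  have wZ0 : Z1 0 ⊆ F0 := by
    rw [eF0]
    exact subset_union_right.trans subset_union_left
  have wZ1 : Z1 1 ⊆ F0 := by
    rw [eF0]
    exact subset_union_right
  -- the shadows
  obtain ⟨E, eE'⟩ : ∃ E, E = ES e m (labs DT) ∪ ES e m (labs D0) ∪ ES e m (labs D1) := ⟨_, rfl⟩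
  have e0F3 : ES e m (labs DT) ⊆ F3 := by
    rw [eF3]
    exact subset_union_right
  have e0F4 : ES e m (labs DT) ⊆ F4 := e0F3.trans sF34
  have e1F4 : ES e m (labs D0) ⊆ F4 := by
    rw [eF4]
    exact subset_union_right
  have sF24 : F2 ⊆ F4 := sF23.trans sF34
  have hE : ∀ X, Disjoint X (ES e m (labs DT)) → Disjoint X (ES e m (labs D0)) →
      Disjoint X (ES e m (labs D1)) → Disjoint X E := fun X h1 h2 h3 => by
    rw [eE']
    exact disjoint_union_right.2 ⟨disjoint_union_right.2 ⟨h1, h2⟩, h3⟩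
  have hF2E : ∀ X, X ⊆ F2 → Disjoint X (ES e m (labs DT)) → Disjoint X E := fun X hX h1 =>
    hE X h1 (disjoint_of_subset_right (hX.trans sF23) f11.eF).symm
      (disjoint_of_subset_right (hX.trans sF24) g11.eF).symm
  have qT : Disjoint T E := hF2E T uT (disjoint_of_subset_right wT gT.eF).symm
  have qDG : Disjoint (labs DG) E := hF2E _ uDG (disjoint_of_subset_right wDG gT.eF).symm
  have qZ0 : Disjoint (Z1 0) E := hF2E _ uZ0 (disjoint_of_subset_right wZ0 gT.eF).symm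
  have qZ1 : Disjoint (Z1 1) E := hF2E _ uZ1 (disjoint_of_subset_right wZ1 gT.eF).symm
  have qAT : Disjoint AT E := hF2E _ uAT gT.eA.symm
  have qDT : Disjoint (labs DT) E := hF2E _ uDT gT.eD.symm
  have qP0 : Disjoint (P 0) E := hF2E _ uP0 (pT 0 (by norm_num))
  have qP1 : Disjoint (P 1) E := hF2E _ uP1 (pT 1 (by norm_num))
  have sA0 : A0 ⊆ F4 := by
    rw [eF4]
    exact (subset_union_right.trans subset_union_left).trans subset_union_left
  have sD0 : labs D0 ⊆ F4 := by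
    rw [eF4]
    exact subset_union_right.trans subset_union_left
  have qA0 : Disjoint A0 E := hE _ (disjoint_of_subset_right e0F3 f4) f11.eA.symm
    (disjoint_of_subset_right sA0 g11.eF).symm
  have qD0 : Disjoint (labs D0) E := hE _ (disjoint_of_subset_right e0F3 f5) f11.eD.symm
    (disjoint_of_subset_right sD0 g11.eF).symm
  have qA1 : Disjoint A1 E := hE _ (disjoint_of_subset_right e0F4 g4)
    (disjoint_of_subset_right e1F4 g4) g11.eA.symm
  have qD1 : Disjoint (labs D1) E := hE _ (disjoint_of_subset_right e0F4 g5)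
    (disjoint_of_subset_right e1F4 g5) g11.eD.symm
  -- the chain of unions
  have s0 : R ∪ E ⊆ R ∪ E := Subset.refl _
  have s1 := stp T s0
  have s2 := stp (labs DG) s1
  have s3 := stp (Z1 0) s2
  have s4 := stp (Z1 1) s3
  have s5 := stp AT s4
  have s6 := stp (labs DT) s5
  have s7 := stp (P 0) s6
  have s8 := stp (P 1) s7
  have s9 := stp A0 s8
  have s10 := stp (labs D0) s9
  have s11 := stp A1 s10
  have f4' : Disjoint A0 F2 := disjoint_of_subset_right sF23 f4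
  have f5' : Disjoint (labs D0) F2 := disjoint_of_subset_right sF23 f5
  have sF2A : F2 ∪ A0 ∪ labs D0 ⊆ F4 := union_subset (union_subset sF24 sA0) sD0
  have g4' : Disjoint A1 (F2 ∪ A0 ∪ labs D0) := disjoint_of_subset_right sF2A g4
  have g5' : Disjoint (labs D1) (F2 ∪ A0 ∪ labs D0) := disjoint_of_subset_right sF2A g5
  have sysR : Sys 1 2 N (R ∪ E) DG Z1 z1 ζ β ε := by
    refine sys.newR (disjoint_union_right.2 ⟨sys.DG_R, qDG⟩) (hcases _ ?_ ?_)
    · exact disjoint_union_right.2 ⟨sys.Z1_R 0 (by norm_num), qZ0⟩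
    · exact disjoint_union_right.2 ⟨sys.Z1_R 1 (by norm_num), qZ1⟩
  refine ⟨AT, DT, π, P, fun σ => Nat.casesOn (motive := fun _ => Finset ℕ) σ A0 fun _ => A1,
    fun σ => Nat.casesOn (motive := fun _ => Finset (ℕ × ℕ)) σ D0 fun _ => D1, h, M, ?_,
    by linarith, hM4, f7, g7, disjoint_of_subset_right wR gT.eF,
    disjoint_of_subset_right (uR.trans sF23) f11.eF, disjoint_of_subset_right (uR.trans sF24) g11.eF,
    ?_, gT.slot, f11.slot, g11.slot, gT.slF, ?_, ?_⟩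
  · show abECfg N (R ∪ (ES e m (labs DT) ∪ ES e m (labs D0) ∪ ES e m (labs D1))) T AT DT DG Z1 π
        P _ _ z1 h M ζ β ε
    rw [← eE']
    exact
    { sys := sysR
      T_sub := hTN
      DT_m := a3
      DT_ok := a4
      AT_card := a5
      AT_sub := a6
      DT_sub := a7
      π_blk := a9
      π_dis := a10
      π_cls := a11
      P_eq := a12
      P_sub := a13
      A_sub := hcases _ f1 g1
      D_sub := hcases _ f2 g2
      D_ok := hcases _ f6 g6
      D_card := hcases _ f9 g9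
      D_m := hcases _ f10 g10
      M_eq := eM
      h_ge := h_ge
      h_le := h3h
      h_le' := by linarith
      c1 := dstp s0 cTR qT
      c2 := dstp s1 c3 qDG
      c3 := dstp s2 c4 qZ0
      c4 := dstp s3 c5 qZ1
      c5 := dstp s4 c6 qAT
      c6 := dstp s5 c7 qDT
      c7 := dstp s6 c8 qP0
      c8 := dstp s7 c9 qP1
      c9 := by
        refine dstp s8 ?_ qA0
        rw [← eF2]
        exact f4'
      c10 := by
        refine dstp s9 ?_ qD0
        rw [← eF2]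
        exact disjoint_union_right.2 ⟨f5', f3.symm⟩
      c11 := by
        refine dstp s10 ?_ qA1
        rw [← eF2]
        exact g4'
      c12 := by
        refine dstp s11 ?_ qD1
        rw [← eF2]
        exact disjoint_union_right.2 ⟨g5', g3.symm⟩ }
  · intro x hx
    rcases mem_union.1 hx with hx | hx
    · rcases mem_union.1 hx with hx | hx
      · exact gT.big x hx
      · exact f11.big x hx
    · exact g11.big x hx
  · intro x hx
    have h1 := f11.slF x hx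
    rw [eSl2] at h1
    exact h1
  · intro x hx
    have h1 := g11.slF x hx
    rw [eSl3, eSl2] at h1
    exact h1

end abEx

end SSB
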