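import Pool.Agent.Lib.MP_8a819d_co.BD.Ab
import Pool.Agent.Lib.MP_8a819d_co.AT.AbX
import Pool.Agent.Lib.MP_8a819d_co.AT.AbsSt

/-!
# MP_8a819d_co: the absorber theorem for t = 2 with forbidden tiny labels

The proof of `abs2` in `BD.Ab` with `T = [1, ζ N] \ FF` instead of `T = [1, ζ N]`.
-/

set_option autoImplicit false

namespace SSB

open Finset

private theorem ab2F_T {N : ℕ} (hN : 10 ^ 5 ≤ N) (T F : Finset ℕ) (hT : T ⊆ Icc 1 N) (hTF : T ⊆ F)
    (hF : 1000 * (F.card + T.card * 4) ≤ N) :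
    ∃ (A : Finset ℕ) (D : Finset (ℕ × ℕ)), T ⊆ A ∧ A ⊆ Icc 1 N ∧ labs D ⊆ Icc 1 N ∧ UnitOK 2 D ∧
      Disjoint A (labs D) ∧ Disjoint (A \ T) F ∧ Disjoint (labs D) F ∧ Matchable 2 D A ∧
      D.card = T.card := by
  obtain ⟨o, ho1, ho2, ho3, ho4⟩ := greedy (ι := ℕ) (Obj := (ℕ × ℕ) × Finset ℕ)
    (fun o => o.2 ∪ labs {o.1})
    (fun u o => o.2.card = 2 ∧ u ∉ o.2 ∧ IsBlock 2 o.1 (insert u o.2) ∧ o.2 ⊆ Icc 1 N ∧
      labs {o.1} ⊆ Icc 1 N ∧ UnitOK 2 {o.1} ∧ Disjoint (insert u o.2) (labs {o.1}))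
    4 (F.card + T.card * 4) F T (by
      intro u hu F' hFF' hF'
      obtain ⟨d, s, h1, h2, h3, h4, h5, h6, h7, h8, h9⟩ :=
        tiny (t := 2) (Or.inr rfl) hN (hT hu) F' (by omega)
      refine ⟨(d, s), ⟨h1, h2, h3, h4, h5, h6, h9⟩, ?_, ?_⟩
      · exact Finset.disjoint_union_left.2 ⟨h7, h8⟩
      · have h10 : (labs {d}).card = 2 := by rw [h6.2, card_singleton]
        have h11 := card_union_le s (labs {d})
        change (s ∪ labs {d}).card ≤ 4
        omega) le_rfl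
  have hl : ∀ u ∈ T, Disjoint (labs {(o u).1}) F := fun u hu =>
    (Finset.disjoint_union_left.1 (ho2 u hu)).2
  have hs : ∀ u ∈ T, Disjoint (o u).2 F := fun u hu =>
    (Finset.disjoint_union_left.1 (ho2 u hu)).1
  have hll : ∀ u ∈ T, ∀ v ∈ T, u ≠ v → Disjoint (labs {(o u).1}) (labs {(o v).1}) :=
    fun u hu v hv huv => Finset.disjoint_of_subset_left subset_union_right
      (Finset.disjoint_of_subset_right subset_union_right (ho3 u hu v hv huv))
  have hss : ∀ u ∈ T, ∀ v ∈ T, u ≠ v → Disjoint (o u).2 (o v).2 :=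
    fun u hu v hv huv => Finset.disjoint_of_subset_left subset_union_left
      (Finset.disjoint_of_subset_right subset_union_left (ho3 u hu v hv huv))
  have hsl : ∀ u ∈ T, ∀ v ∈ T, u ≠ v → Disjoint (o u).2 (labs {(o v).1}) :=
    fun u hu v hv huv => Finset.disjoint_of_subset_left subset_union_left
      (Finset.disjoint_of_subset_right subset_union_right (ho3 u hu v hv huv))
  refine ⟨T.biUnion (fun u => insert u (o u).2), T.biUnion (fun u => {(o u).1}), ?_, ?_, ?_, ?_, ?_,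
    ?_, ?_, ?_, ?_⟩
  · exact fun u hu => mem_biUnion.2 ⟨u, hu, mem_insert_self _ _⟩
  · exact biUnion_subset.2 fun u hu => insert_subset (hT hu) (ho1 u hu).2.2.2.1
  · rw [labs_biUnion]
    exact biUnion_subset.2 fun u hu => (ho1 u hu).2.2.2.2.1
  · exact unitOK_biUnion T _ (fun u hu => (ho1 u hu).2.2.2.2.2.1) hll
  · rw [labs_biUnion, disjoint_biUnion_left]
    intro u hu
    rw [disjoint_biUnion_right]
    intro v hv
    by_cases huv : u = v
    · subst huv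
      exact (ho1 u hu).2.2.2.2.2.2
    · exact disjoint_insert_left.2
        ⟨fun hx => Finset.disjoint_left.1 (hl v hv) hx (hTF hu), hsl u hu v hv huv⟩
  · rw [Finset.disjoint_left]
    intro x hx hxF
    obtain ⟨hx1, hx2⟩ := mem_sdiff.1 hx
    obtain ⟨u, hu, hxu⟩ := mem_biUnion.1 hx1
    rcases mem_insert.1 hxu with h | h
    · exact hx2 (h ▸ hu)
    · exact Finset.disjoint_left.1 (hs u hu) h hxF
  · rw [labs_biUnion, disjoint_biUnion_left]
    exact hl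
  · exact matchable_biUnion T _ _ (fun u hu => matchable_single (ho1 u hu).2.2.1)
      (fun u hu v hv huv => disjoint_of_labs (hll u hu v hv huv))
      (fun u hu v hv huv => disjoint_insert_left.2
        ⟨fun hx => (mem_insert.1 hx).elim huv
          (fun hx => Finset.disjoint_left.1 (hs v hv) hx (hTF hu)),
        disjoint_insert_right.2
          ⟨fun hx => Finset.disjoint_left.1 (hs u hu) hx (hTF hv), hss u hu v hv huv⟩⟩)
  · rw [card_biUnion (fun u hu v hv huv => disjoint_of_labs (hll u hu v hv huv))]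
    simp

private theorem ab2F_pi {N : ℕ} (hN : 1000 ≤ N) (DG : Finset (ℕ × ℕ)) (F : Finset ℕ)
    (hDG : labs DG ⊆ Icc 1 N) (hDG2 : ∀ d ∈ DG, 3 * N ≤ 10 * d.1 ∧ d.2 = d.1 + 1)
    (hF : 100 * (F.card + DG.card * 3) ≤ N) :
    ∃ π : ℕ × ℕ → Finset ℕ, (∀ d ∈ DG, π d ⊆ Icc 1 N ∧ IsBlock 2 d (π d) ∧ Disjoint (π d) F) ∧
      ∀ d ∈ DG, ∀ d' ∈ DG, d ≠ d' → Disjoint (π d) (π d') := by
  obtain ⟨o, ho1, ho2, ho3, ho4⟩ := greedy (ι := ℕ × ℕ) (Obj := Finset ℕ) (fun s => s)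
    (fun d s => s ⊆ Icc 1 N ∧ IsBlock 2 d s) 3 (F.card + DG.card * 3) F DG (by
      intro d hd F' hFF' hF'
      obtain ⟨c, c'⟩ := d
      obtain ⟨h1, h2⟩ := hDG2 _ hd
      simp only at h1 h2
      subst h2
      have h3 : c + 1 ∈ labs DG := mem_labs.2 ⟨_, hd, Or.inr rfl⟩
      obtain ⟨s, h4, h5, h6⟩ := dflt2 hN h1 (mem_Icc.1 (hDG h3)).2 F' (by omega)
      exact ⟨s, ⟨h4, h5⟩, h6, h5.choose_spec.2.2.le⟩) le_rfl
  exact ⟨o, fun d hd => ⟨(ho1 d hd).1, (ho1 d hd).2, ho2 d hd⟩, ho3⟩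

private theorem ab2F_fin {N : ℕ} {R : Finset ℕ} {DG : Finset (ℕ × ℕ)} {Z1 : ℕ → Finset ℕ} {z1 : ℕ}
    {ζ β ε : ℝ} (h : Sys 2 1 N R DG Z1 z1 ζ β ε) {A₀ AT : Finset ℕ} {D₀ DT : Finset (ℕ × ℕ)}
    {π : ℕ × ℕ → Finset ℕ} {M j : ℕ}
    (hπ : ∀ d ∈ DG, IsBlock 2 d (π d))
    (hπ2 : ∀ d ∈ DG, ∀ d' ∈ DG, d ≠ d' → Disjoint (π d) (π d'))
    (hπZ : ∀ d ∈ DG, Disjoint (π d) (Z1 0))
    (hM : M = z1 + j)
    (hT : Matchable 2 DT AT)
    (h0 : ∀ Z' ⊆ Z1 0 ∪ DG.biUnion π, Z'.card = M → Matchable 2 D₀ (A₀ ∪ Z'))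
    (hd1 : Disjoint DT DG) (hd2 : Disjoint DT D₀) (hd3 : Disjoint DG D₀)
    (ha1 : Disjoint AT (Z1 0 ∪ DG.biUnion π)) (ha2 : Disjoint AT A₀)
    (ha3 : Disjoint A₀ (Z1 0 ∪ DG.biUnion π))
    (J : Finset ℕ) (hJ : J ⊆ Icc 1 N) (hlT : ∀ x ∈ J, ζ * N < x) (hJA : Disjoint J (AT ∪ (Z1 0 ∪ DG.biUnion π) ∪ A₀))
    (hJc : J.card = j) (hJ3 : (3 : ℝ) * j ≤ 8 * β * N) :
    Matchable 2 (DT ∪ DG ∪ D₀) (AT ∪ (Z1 0 ∪ DG.biUnion π) ∪ A₀ ∪ J) := by
  have hJA' := Finset.disjoint_left.1 hJA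
  obtain ⟨d, z, hd, hdi, hz, hzd⟩ := junk_assign h J hJ hlT
    (by rw [hJc]; push_cast; linarith)
  have hcls : ∀ u, cls 2 u = 0 := fun u => by simp [cls]
  have hzZ : ∀ u ∈ J, z u ⊆ Z1 0 := fun u hu => by
    have h1 := (hz u hu).1
    rwa [hcls] at h1
  have hJZ : ∀ u ∈ J, u ∉ Z1 0 := fun u hu hx =>
    hJA' hu (mem_union_left _ (mem_union_right _ (mem_union_left _ hx)))
  have hzs : J.biUnion z ⊆ Z1 0 := biUnion_subset.2 hzZ
  have hDJd : ∀ u ∈ J, ∀ v ∈ J, u ≠ v → Disjoint ({d u} : Finset (ℕ × ℕ)) {d v} :=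
    fun u hu v hv huv => disjoint_singleton.2 (hdi u hu v hv huv)
  have hDJs : J.biUnion (fun u => {d u}) ⊆ DG :=
    biUnion_subset.2 fun u hu => singleton_subset_iff.2 (hd u hu)
  have hDJc : (J.biUnion (fun u => ({d u} : Finset (ℕ × ℕ)))).card = j := by
    rw [card_biUnion hDJd, ← hJc]
    simp
  have hmJ : Matchable 2 (J.biUnion (fun u => {d u})) (J.biUnion (fun u => insert u (z u))) :=
    matchable_biUnion J _ _ (fun u hu => matchable_single (hz u hu).2.2.2) hDJd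
      (fun u hu v hv huv => disjoint_insert_left.2
        ⟨fun hx => (mem_insert.1 hx).elim huv (fun hx => hJZ u hu (hzZ v hv hx)),
        disjoint_insert_right.2 ⟨fun hx => hJZ v hv (hzZ u hu hx), hzd u hu v hv huv⟩⟩)
  have eJ : J.biUnion (fun u => insert u (z u)) = J ∪ J.biUnion z := by
    ext x
    simp only [mem_biUnion, mem_insert, mem_union]
    constructor
    · rintro ⟨u, hu, rfl | hx⟩
      · exact Or.inl hu
      · exact Or.inr ⟨u, hu, hx⟩
    · rintro (hx | ⟨u, hu, hx⟩)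
      · exact ⟨x, hx, Or.inl rfl⟩
      · exact ⟨u, hu, Or.inr hx⟩
  rw [eJ] at hmJ
  have hmS : ∀ S ⊆ DG, Matchable 2 S (S.biUnion π) := by
    intro S hS
    have h1 := matchable_biUnion S (fun d => ({d} : Finset (ℕ × ℕ))) π
      (fun d hd => matchable_single (hπ d (hS hd)))
      (fun d _ d' _ hdd => disjoint_singleton.2 hdd)
      (fun d hd d' hd' hdd => hπ2 d (hS hd) d' (hS hd') hdd)
    have h2 : S.biUnion (fun d => ({d} : Finset (ℕ × ℕ))) = S := by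
      ext x
      simp
    rwa [h2] at h1
  set DJ := J.biUnion (fun u => ({d u} : Finset (ℕ × ℕ))) with hDJ
  have hmG := hmS (DG \ DJ) sdiff_subset
  have hGsub : (DG \ DJ).biUnion π ⊆ DG.biUnion π := biUnion_subset_biUnion_of_subset_left _ sdiff_subset
  have hZP : ∀ S ⊆ DG, Disjoint (Z1 0) (S.biUnion π) := fun S hS =>
    (disjoint_biUnion_right _ _ _).2 fun d hd => (hπZ d (hS hd)).symm
  have hZ1c : (Z1 0).card = z1 := h.Z1_card 0 (by norm_num)
  have hZZc : (Z1 0 ∪ DG.biUnion π).card = z1 + 3 * DG.card := by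
    rw [card_union_of_disjoint (hZP DG (Subset.refl _)), block_card (hmS DG (Subset.refl _)), hZ1c]
  have hzc : (J.biUnion z).card = 2 * j := by
    rw [card_biUnion hzd, sum_congr rfl (fun u hu => (hz u hu).2.1), sum_const, hJc, smul_eq_mul,
      mul_comm]
  have hGc : (DG \ DJ).card + j = DG.card := by
    rw [← hDJc]
    exact card_sdiff_add_card_eq_card hDJs
  have hsub : J.biUnion z ∪ (DG \ DJ).biUnion π ⊆ Z1 0 ∪ DG.biUnion π :=
    union_subset_union hzs hGsub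
  have hcc : (J.biUnion z ∪ (DG \ DJ).biUnion π).card = 2 * j + 3 * (DG \ DJ).card := by
    rw [card_union_of_disjoint (Finset.disjoint_of_subset_left hzs (hZP _ sdiff_subset)), hzc,
      block_card hmG]
  have hZ'c : ((Z1 0 ∪ DG.biUnion π) \ (J.biUnion z ∪ (DG \ DJ).biUnion π)).card = M := by
    have h1 := card_sdiff_add_card_eq_card hsub
    omega
  have hm0 := h0 _ sdiff_subset hZ'c
  have e1 : DT ∪ DG ∪ D₀ = DT ∪ (DJ ∪ (DG \ DJ)) ∪ D₀ := by rw [union_sdiff_of_subset hDJs]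
  have e2 : AT ∪ (Z1 0 ∪ DG.biUnion π) ∪ A₀ ∪ J = AT ∪ ((J ∪ J.biUnion z) ∪ (DG \ DJ).biUnion π) ∪
      (A₀ ∪ (Z1 0 ∪ DG.biUnion π) \ (J.biUnion z ∪ (DG \ DJ).biUnion π)) := by
    ext x
    have h1 := @hsub x
    simp only [mem_union, mem_sdiff] at h1 ⊢
    tauto
  rw [e1, e2]
  have hJ1 : Disjoint J AT := Finset.disjoint_of_subset_right
    (subset_union_left.trans subset_union_left) hJA
  have hJ2 : Disjoint J (Z1 0 ∪ DG.biUnion π) := Finset.disjoint_of_subset_right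
    (subset_union_right.trans subset_union_left) hJA
  have hJ3 : Disjoint J A₀ := Finset.disjoint_of_subset_right subset_union_right hJA
  have hzs' : J.biUnion z ⊆ Z1 0 ∪ DG.biUnion π := hzs.trans subset_union_left
  have hGsub' : (DG \ DJ).biUnion π ⊆ Z1 0 ∪ DG.biUnion π := hGsub.trans subset_union_right
  refine matchable_union (matchable_union hT (matchable_union hmJ hmG disjoint_sdiff ?_) ?_ ?_) hm0
    ?_ ?_
  · exact Finset.disjoint_union_left.2 ⟨Finset.disjoint_of_subset_right hGsub' hJ2,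
      Finset.disjoint_of_subset_left hzs (hZP _ sdiff_subset)⟩
  · rw [union_sdiff_of_subset hDJs]
    exact hd1
  · exact Finset.disjoint_union_right.2 ⟨Finset.disjoint_union_right.2 ⟨hJ1.symm,
      Finset.disjoint_of_subset_right hzs' ha1⟩, Finset.disjoint_of_subset_right hGsub' ha1⟩
  · rw [union_sdiff_of_subset hDJs]
    exact Finset.disjoint_union_left.2 ⟨hd2, hd3⟩
  · refine Finset.disjoint_union_right.2 ⟨?_, ?_⟩
    · exact Finset.disjoint_union_left.2 ⟨ha2, Finset.disjoint_union_left.2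
        ⟨Finset.disjoint_union_left.2 ⟨hJ3, (Finset.disjoint_of_subset_right hzs' ha3).symm⟩,
        (Finset.disjoint_of_subset_right hGsub' ha3).symm⟩⟩
    · refine Finset.disjoint_union_left.2 ⟨Finset.disjoint_of_subset_right sdiff_subset ha1,
        Finset.disjoint_union_left.2 ⟨Finset.disjoint_union_left.2
        ⟨Finset.disjoint_of_subset_right sdiff_subset hJ2, ?_⟩, ?_⟩⟩
      · exact Finset.disjoint_of_subset_left subset_union_left disjoint_sdiff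
      · exact Finset.disjoint_of_subset_left subset_union_right disjoint_sdiff

theorem absF2 : AbsF2 := by
  intro ε hε
  obtain ⟨C, ε₁, hε₁, N₁, hT⟩ := tmod (t := 2) (ug := 8) (by norm_num) gadget2
  have hC0 : (0 : ℝ) ≤ C := Nat.cast_nonneg C
  have hmin : 0 < min (min ε ε₁) 1 := lt_min (lt_min hε hε₁) one_pos
  obtain ⟨ε', hε'0, hε'C⟩ : ∃ ε' : ℝ, 0 < ε' ∧ 10 ^ 4 * (C + 1) * ε' = min (min ε ε₁) 1 :=
    ⟨min (min ε ε₁) 1 / (10 ^ 4 * (C + 1)), by positivity, by field_simp⟩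
  have hC1 : 10 ^ 4 * (C + 1) * ε' ≤ ε := hε'C.trans_le ((min_le_left _ _).trans (min_le_left _ _))
  have hC2 : 10 ^ 4 * (C + 1) * ε' ≤ ε₁ := hε'C.trans_le ((min_le_left _ _).trans (min_le_right _ _))
  have hC3 : 10 ^ 4 * (C + 1) * ε' ≤ 1 := hε'C.trans_le (min_le_right _ _)
  have hCE : 0 ≤ C * ε' := by positivity
  obtain ⟨ζ, β, hζ, hζε, hβ, hβζ, N₂, hS⟩ := sys2 ε' hε'0
  refine ⟨ζ, β, hζ, by nlinarith, hβ, hβζ, max (max N₁ N₂) (max (10 ^ 5) ⌈3 / β⌉₊), ?_⟩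
  intro N hN R0 FF hR0 hRc hFF
  have hN1 : N₁ ≤ N := (le_max_left _ _).trans ((le_max_left _ _).trans hN)
  have hN2 : N₂ ≤ N := (le_max_right _ _).trans ((le_max_left _ _).trans hN)
  have hN3 : 10 ^ 5 ≤ N := (le_max_left _ _).trans ((le_max_right _ _).trans hN)
  have hN4 : ⌈3 / β⌉₊ ≤ N := (le_max_right _ _).trans ((le_max_right _ _).trans hN)
  have hβN : 3 ≤ β * N := by
    have h1 : 3 / β ≤ N := (Nat.le_ceil _).trans (by exact_mod_cast hN4)
    rwa [div_le_iff₀ hβ, mul_comm] at h1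
  obtain ⟨DG, Z1, z1, hSys0⟩ := hS N hN2 R0 hR0 hRc
  have hNpos : (0 : ℝ) ≤ N := Nat.cast_nonneg N
  obtain ⟨E, hE⟩ : ∃ E : ℝ, E = ε' * N := ⟨_, rfl⟩
  have hζE : ζ * N ≤ E := hE ▸ mul_le_mul_of_nonneg_right hζε hNpos
  have hβE : β * N ≤ E := hE ▸ mul_le_mul_of_nonneg_right (hβζ.trans hζε) hNpos
  have hgE : (DG.card : ℝ) ≤ E := hE ▸ hSys0.DG_le
  have hzE : (z1 : ℝ) ≤ E := hE ▸ hSys0.z1_le
  have hE0 : 3 ≤ E := hβN.trans hβE
  have hCE0 : 0 ≤ C * E := mul_nonneg hC0 (by linarith)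
  have hEε : 10 ^ 4 * (C + 1) * E ≤ ε * N := by
    have h1 := mul_le_mul_of_nonneg_right hC1 hNpos
    rw [hE]
    linarith
  have hEε₁ : 10 ^ 4 * (C + 1) * E ≤ ε₁ * N := by
    have h1 := mul_le_mul_of_nonneg_right hC2 hNpos
    rw [hE]
    linarith
  have hE1 : 10 ^ 4 * (C + 1) * E ≤ N := by
    have h1 := mul_le_mul_of_nonneg_right hC3 hNpos
    rw [hE]
    linarith
  have hEN : 10 ^ 4 * E ≤ N := by nlinarith
  obtain ⟨j, hj⟩ : ∃ j : ℕ, j = 2 * ⌈β * N⌉₊ := ⟨_, rfl⟩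
  have hj1 : 2 * β * N ≤ j := by
    have h1 := Nat.le_ceil (β * N)
    rw [hj]
    push_cast
    linarith
  have hj2 : (j : ℝ) ≤ 2 * (β * N) + 2 := by
    have h1 := Nat.ceil_lt_add_one (a := β * N) (by linarith)
    rw [hj]
    push_cast
    linarith
  obtain ⟨Ta, hTa⟩ : ∃ Ta : Finset ℕ, Ta = Icc 1 ⌊ζ * N⌋₊ := ⟨_, rfl⟩
  have hTam : ∀ x, x ∈ Ta ↔ 1 ≤ x ∧ (x : ℝ) ≤ ζ * N := by
    intro x
    rw [hTa, mem_Icc, Nat.le_floor_iff (by positivity)]
  have hTac : (Ta.card : ℝ) ≤ E := by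
    rw [hTa, Nat.card_Icc, Nat.add_sub_cancel]
    exact (Nat.floor_le (by positivity)).trans hζE
  have hFTa : FF ⊆ Ta := fun x hx => (hTam x).2 (hFF x hx)
  obtain ⟨T, hTd⟩ : ∃ T : Finset ℕ, T = Ta \ FF := ⟨_, rfl⟩
  have hTmem' : ∀ x, x ∈ T ↔ (1 ≤ x ∧ (x : ℝ) ≤ ζ * N) ∧ x ∉ FF := by
    intro x
    rw [hTd, mem_sdiff, hTam]
  have hTmem : ∀ x, x ∈ T → 1 ≤ x ∧ (x : ℝ) ≤ ζ * N := fun x hx => ((hTmem' x).1 hx).1
  have hTTa : T ⊆ Ta := by
    rw [hTd]
    exact sdiff_subset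
  have hTc : (T.card : ℝ) ≤ E := by
    have h1 : (T.card : ℝ) ≤ Ta.card := by exact_mod_cast card_le_card hTTa
    exact h1.trans hTac
  have hbF : ∀ X : Finset ℕ, (∀ x ∈ X, ζ * N < x) → Disjoint X FF := by
    intro X hX
    rw [Finset.disjoint_left]
    intro x hx hxF
    exact absurd (hFF x hxF).2 (not_le.2 (hX x hx))
  obtain ⟨R, hRR⟩ : ∃ R, R = R0 ∪ FF := ⟨_, rfl⟩
  have hSys : Sys 2 1 N R DG Z1 z1 ζ β ε' := by
    rw [hRR]
    exact hSys0.newR (Finset.disjoint_union_right.2 ⟨hSys0.DG_R, hbF _ hSys0.DG_lab⟩)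
      (fun σ hσ => Finset.disjoint_union_right.2 ⟨hSys0.Z1_R σ hσ, hbF _ (hSys0.Z1_big σ hσ)⟩)
  have hζN : ζ * N ≤ N := hζE.trans (by linarith)
  have hTN : T ⊆ Icc 1 N := by
    intro x hx
    obtain ⟨h1, h2⟩ := hTmem x hx
    exact mem_Icc.2 ⟨h1, by exact_mod_cast h2.trans hζN⟩
  have hlabc : (labs DG).card = 2 * DG.card := hSys.DG_ok.2
  have hZ1c : (Z1 0).card = z1 := hSys.Z1_card 0 (by norm_num)
  have hRE : (R.card : ℝ) ≤ 2 * E := by
    have h1 : R.card ≤ R0.card + Ta.card := by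
      rw [hRR]
      exact (card_union_le _ _).trans (Nat.add_le_add_left (card_le_card hFTa) _)
    have h2 : (R.card : ℝ) ≤ R0.card + Ta.card := by exact_mod_cast h1
    linarith
  -- the first forbidden set
  obtain ⟨F₀, hF₀⟩ : ∃ F₀ : Finset ℕ, F₀ = R ∪ T ∪ labs DG ∪ Z1 0 := ⟨_, rfl⟩
  have hF₀c : (F₀.card : ℝ) ≤ 6 * E := by
    have h1 := card_union_le (R ∪ T ∪ labs DG) (Z1 0)
    have h2 := card_union_le (R ∪ T) (labs DG)
    have h3 := card_union_le R T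
    have h4 : F₀.card ≤ R.card + T.card + 2 * DG.card + z1 := by
      rw [hF₀]
      omega
    have h5 : (F₀.card : ℝ) ≤ R.card + T.card + 2 * DG.card + z1 := by exact_mod_cast h4
    linarith
  have hF₀R : R ⊆ F₀ := by rw [hF₀]; intro x hx; simp [hx]
  have hF₀T : T ⊆ F₀ := by rw [hF₀]; intro x hx; simp [hx]
  have hF₀G : labs DG ⊆ F₀ := by rw [hF₀]; intro x hx; simp [hx]
  have hF₀Z : Z1 0 ⊆ F₀ := by rw [hF₀]; intro x hx; simp [hx]
  obtain ⟨AT, DT, hAT1, hAT2, hAT3, hAT4, hAT5, hAT6, hAT7, hAT8, hAT9⟩ := ab2F_T hN3 T F₀ hTN hF₀T (by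
    have h1 : (1000 : ℝ) * (F₀.card + T.card * 4) ≤ N := by linarith
    exact_mod_cast h1)
  have hATc : AT.card = 3 * T.card := by rw [block_card hAT8, hAT9]
  have hDTl : (labs DT).card = 2 * T.card := by rw [hAT4.2, hAT9]
  -- the second forbidden set
  obtain ⟨F₁, hF₁⟩ : ∃ F₁ : Finset ℕ, F₁ = F₀ ∪ AT ∪ labs DT := ⟨_, rfl⟩
  have hF₁c : (F₁.card : ℝ) ≤ 11 * E := by
    have h1 := card_union_le (F₀ ∪ AT) (labs DT)
    have h2 := card_union_le F₀ AT
    have h4 : F₁.card ≤ F₀.card + 5 * T.card := by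
      rw [hF₁]
      omega
    have h5 : (F₁.card : ℝ) ≤ F₀.card + 5 * T.card := by exact_mod_cast h4
    linarith
  have hF₁0 : F₀ ⊆ F₁ := by rw [hF₁]; intro x hx; simp [hx]
  have hF₁A : AT ⊆ F₁ := by rw [hF₁]; intro x hx; simp [hx]
  have hF₁D : labs DT ⊆ F₁ := by rw [hF₁]; intro x hx; simp [hx]
  obtain ⟨π, hπ1, hπ2⟩ := ab2F_pi (by omega) DG F₁ hSys.DG_sub
    (fun d hd => ⟨(hSys.DG_big d hd).1, (hSys.DG_big d hd).2.2 rfl⟩) (by
    have h1 : (100 : ℝ) * (F₁.card + DG.card * 3) ≤ N := by linarith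
    exact_mod_cast h1)
  have hPF : Disjoint (DG.biUnion π) F₁ := (disjoint_biUnion_left _ _ _).2 fun d hd => (hπ1 d hd).2.2
  have hPN : DG.biUnion π ⊆ Icc 1 N := biUnion_subset.2 fun d hd => (hπ1 d hd).1
  have hPm : Matchable 2 DG (DG.biUnion π) := by
    have h1 := matchable_biUnion DG (fun d => ({d} : Finset (ℕ × ℕ))) π
      (fun d hd => matchable_single (hπ1 d hd).2.1)
      (fun d _ d' _ hdd => disjoint_singleton.2 hdd) hπ2
    have h2 : DG.biUnion (fun d => ({d} : Finset (ℕ × ℕ))) = DG := by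
      ext x
      simp
    rwa [h2] at h1
  have hPc : (DG.biUnion π).card = 3 * DG.card := block_card hPm
  obtain ⟨ZZ, hZZ⟩ : ∃ ZZ : Finset ℕ, ZZ = Z1 0 ∪ DG.biUnion π := ⟨_, rfl⟩
  have hZZc : ZZ.card = z1 + 3 * DG.card := by
    rw [hZZ, card_union_of_disjoint (Finset.disjoint_of_subset_left (hF₀Z.trans hF₁0) hPF.symm),
      hZ1c, hPc]
  have hZ1N : Z1 0 ⊆ Icc 1 N := hSys.Z1_sub 0 (by norm_num)
  have hZZN : ZZ ⊆ Icc 1 N := by rw [hZZ]; exact union_subset hZ1N hPN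
  -- the third forbidden set
  obtain ⟨F₂, hF₂⟩ : ∃ F₂ : Finset ℕ, F₂ = F₁ ∪ DG.biUnion π := ⟨_, rfl⟩
  have hF₂1 : F₁ ⊆ F₂ := by rw [hF₂]; exact subset_union_left
  have hF₂Z : ZZ ⊆ F₂ := by
    rw [hZZ, hF₂]
    exact union_subset_union (hF₀Z.trans hF₁0) (Subset.refl _)
  have hF₂c : (F₂.card : ℝ) ≤ 14 * E := by
    have h1 := card_union_le F₁ (DG.biUnion π)
    have h4 : F₂.card ≤ F₁.card + 3 * DG.card := by
      rw [hF₂]
      omega
    have h5 : (F₂.card : ℝ) ≤ F₁.card + 3 * DG.card := by exact_mod_cast h4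
    linarith
  have hMc : ((z1 + j : ℕ) : ℝ) ≤ 4 * E := by
    push_cast
    linarith
  have hz1 := hSys.z1_pos
  have h3g := hSys.DG_z1
  obtain ⟨A₀, D₀, hA1, hA2, hA3, hA4, hA5, hA6, hA7, hA8, hA9, hA10⟩ := hT N hN1 0 (z1 + j) ZZ F₂
    (by omega) (hMc.trans (by nlinarith)) (hF₂c.trans (by nlinarith)) hF₂Z hZZN
    (fun z _ => by simp [cls]) (card_pos.1 (by omega)) (by omega)
  have hA7' : (A₀.card : ℝ) ≤ 4 * (C * E) := by
    have h1 : (A₀.card : ℝ) ≤ C * ((z1 + j : ℕ) : ℝ) := by exact_mod_cast hA7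
    have h2 := mul_le_mul_of_nonneg_left hMc hC0
    linarith
  have hA8' : (D₀.card : ℝ) ≤ 4 * (C * E) := by
    have h1 : (D₀.card : ℝ) ≤ C * ((z1 + j : ℕ) : ℝ) := by exact_mod_cast hA8
    have h2 := mul_le_mul_of_nonneg_left hMc hC0
    linarith
  -- disjointness
  have hTG : Disjoint T (labs DG) := by
    rw [Finset.disjoint_left]
    intro x hx hx'
    have h1 := (hTmem x hx).2
    have h2 := hSys.DG_lab x hx'
    linarith
  have hTR : Disjoint T R := by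
    rw [Finset.disjoint_left]
    intro x hx hx'
    have h1 := (hTmem x hx).2
    rw [hRR] at hx'
    rcases mem_union.1 hx' with h3 | h3
    · have h2 := (hR0 x h3).1
      linarith
    · exact ((hTmem' x).1 hx).2 h3
  have hTZ : Disjoint T (Z1 0) := by
    rw [Finset.disjoint_left]
    intro x hx hx'
    have h1 := (hTmem x hx).2
    have h2 := hSys.Z1_big 0 (by norm_num) x hx'
    linarith
  have hATF : ∀ S : Finset ℕ, S ⊆ F₀ → Disjoint T S → Disjoint AT S := by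
    intro S hS hTS
    rw [Finset.disjoint_left]
    intro x hx hx'
    by_cases hxT : x ∈ T
    · exact Finset.disjoint_left.1 hTS hxT hx'
    · exact Finset.disjoint_left.1 hAT6 (mem_sdiff.2 ⟨hx, hxT⟩) (hS hx')
  have dAZ : Disjoint AT ZZ := by
    rw [hZZ]
    exact Finset.disjoint_union_right.2 ⟨hATF _ hF₀Z hTZ,
      Finset.disjoint_of_subset_left hF₁A hPF.symm⟩
  have dA0 : Disjoint AT A₀ := (Finset.disjoint_of_subset_right (hF₁A.trans hF₂1) hA4).symm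
  have dZ0 : Disjoint A₀ ZZ := Finset.disjoint_of_subset_right hF₂Z hA4
  have dTG : Disjoint (labs DT) (labs DG) := Finset.disjoint_of_subset_right hF₀G hAT7
  have dT0 : Disjoint (labs DT) (labs D₀) :=
    (Finset.disjoint_of_subset_right (hF₁D.trans hF₂1) hA5).symm
  have dG0 : Disjoint (labs DG) (labs D₀) :=
    (Finset.disjoint_of_subset_right ((hF₀G.trans hF₁0).trans hF₂1) hA5).symm
  have dTG' := disjoint_of_labs dTG
  have dT0' := disjoint_of_labs dT0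
  have dG0' := disjoint_of_labs dG0
  have hAc : (AT ∪ ZZ ∪ A₀).card = 3 * T.card + (z1 + 3 * DG.card) + A₀.card := by
    rw [card_union_of_disjoint (Finset.disjoint_union_left.2 ⟨dA0, dZ0.symm⟩),
      card_union_of_disjoint dAZ, hATc, hZZc]
  have hDc : (DT ∪ DG ∪ D₀).card = T.card + DG.card + D₀.card := by
    rw [card_union_of_disjoint (Finset.disjoint_union_left.2 ⟨dT0', dG0'⟩),
      card_union_of_disjoint dTG', hAT9]
  have hkey : (2 + 1) * (DT ∪ DG ∪ D₀).card = (AT ∪ ZZ ∪ A₀).card + j := by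
    rw [hAc, hDc]
    omega
  have hR0R : R0 ⊆ R := by
    rw [hRR]
    exact subset_union_left
  have hFFR : FF ⊆ R := by
    rw [hRR]
    exact subset_union_right
  have hAR : Disjoint (AT ∪ ZZ ∪ A₀) R := by
    have hZR : Disjoint ZZ R := by
      rw [hZZ]
      exact Finset.disjoint_union_left.2 ⟨hSys.Z1_R 0 (by norm_num),
        Finset.disjoint_of_subset_right (hF₀R.trans hF₁0) hPF⟩
    exact Finset.disjoint_union_left.2 ⟨Finset.disjoint_union_left.2 ⟨hATF _ hF₀R hTR, hZR⟩,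
      Finset.disjoint_of_subset_right ((hF₀R.trans hF₁0).trans hF₂1) hA4⟩
  have hDR : Disjoint (labs (DT ∪ DG ∪ D₀)) R := by
    rw [labs_union, labs_union]
    exact Finset.disjoint_union_left.2 ⟨Finset.disjoint_union_left.2
      ⟨Finset.disjoint_of_subset_right hF₀R hAT7, hSys.DG_R⟩,
      Finset.disjoint_of_subset_right ((hF₀R.trans hF₁0).trans hF₂1) hA5⟩
  have hADl : Disjoint AT (labs (DT ∪ DG ∪ D₀)) := by
    rw [labs_union, labs_union]
    exact Finset.disjoint_union_right.2 ⟨Finset.disjoint_union_right.2 ⟨hAT5, hATF _ hF₀G hTG⟩,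
      (Finset.disjoint_of_subset_right (hF₁A.trans hF₂1) hA5).symm⟩
  have hDNl : labs (DT ∪ DG ∪ D₀) ⊆ Icc 1 N := by
    rw [labs_union, labs_union]
    exact union_subset (union_subset hAT3 hSys.DG_sub) hA2
  have htiny : ∀ x ∈ labs (DT ∪ DG ∪ D₀), ζ * N < (x : ℝ) := by
    intro x hx
    by_contra hle
    have hxT : x ∈ T := (hTmem' x).2 ⟨⟨(mem_Icc.1 (hDNl hx)).1, not_lt.1 hle⟩,
      Finset.disjoint_left.1 (Finset.disjoint_of_subset_right hFFR hDR) hx⟩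
    exact Finset.disjoint_left.1 hADl (hAT1 hxT) hx
  refine ⟨AT ∪ ZZ ∪ A₀, DT ∪ DG ∪ D₀, ?_, Finset.disjoint_of_subset_right hFFR hAR,
    Finset.disjoint_of_subset_right hFFR hDR, htiny, ?_⟩
  · refine ⟨?_, ?_, ?_, Finset.disjoint_of_subset_right hR0R hAR,
      Finset.disjoint_of_subset_right hR0R hDR, ?_, ?_, ?_, ?_⟩
    · exact union_subset (union_subset hAT2 hZZN) hA1
    · rw [labs_union, labs_union]
      exact union_subset (union_subset hAT3 hSys.DG_sub) hA2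
    · rw [labs_union, labs_union]
      have hZG : Disjoint ZZ (labs DG) := by
        rw [hZZ]
        exact Finset.disjoint_union_left.2 ⟨hSys.Z1_DG 0 (by norm_num),
          Finset.disjoint_of_subset_right (hF₀G.trans hF₁0) hPF⟩
      have hZT : Disjoint ZZ (labs DT) := by
        rw [hZZ]
        exact Finset.disjoint_union_left.2 ⟨(Finset.disjoint_of_subset_right hF₀Z hAT7).symm,
          Finset.disjoint_of_subset_right hF₁D hPF⟩
      refine Finset.disjoint_union_right.2 ⟨Finset.disjoint_union_right.2 ⟨?_, ?_⟩, ?_⟩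
      · exact Finset.disjoint_union_left.2 ⟨Finset.disjoint_union_left.2 ⟨hAT5, hZT⟩,
          Finset.disjoint_of_subset_right (hF₁D.trans hF₂1) hA4⟩
      · exact Finset.disjoint_union_left.2 ⟨Finset.disjoint_union_left.2 ⟨hATF _ hF₀G hTG, hZG⟩,
          Finset.disjoint_of_subset_right ((hF₀G.trans hF₁0).trans hF₂1) hA4⟩
      · exact Finset.disjoint_union_left.2 ⟨Finset.disjoint_union_left.2
          ⟨(Finset.disjoint_of_subset_right (hF₁A.trans hF₂1) hA5).symm,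
          (Finset.disjoint_of_subset_right hF₂Z hA5).symm⟩, hA3⟩
    · refine unitOK_union (unitOK_union hAT4 hSys.DG_ok dTG) hA6 ?_
      rw [labs_union]
      exact Finset.disjoint_union_left.2 ⟨dT0, dG0⟩
    · rw [hAc]
      push_cast
      nlinarith
    · rw [hDc]
      push_cast
      nlinarith
    · have h1 : ((2 + 1 : ℕ) : ℝ) * (DT ∪ DG ∪ D₀).card = (AT ∪ ZZ ∪ A₀).card + j := by
        exact_mod_cast hkey
      push_cast at h1 ⊢
      linarith
  · intro J hJ hJA hJD hJF hJc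
    have hJj : J.card = j := by
      omega
    subst hZZ
    exact ab2F_fin hSys (fun d hd => (hπ1 d hd).2.1) hπ2
      (fun d hd => Finset.disjoint_of_subset_right (hF₀Z.trans hF₁0) (hπ1 d hd).2.2) rfl hAT8
      hA10 dTG' dT0' dG0' dAZ dA0 dZ0 J hJ (fun x hx => by
        by_contra hc
        have hxT : x ∈ T := (hTmem' x).2 ⟨⟨(mem_Icc.1 (hJ hx)).1, not_lt.1 hc⟩,
          Finset.disjoint_left.1 hJF hx⟩
        exact Finset.disjoint_left.1 hJA hx (mem_union_left _ (mem_union_left _ (hAT1 hxT))))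
      hJA hJj (by linarith)

end SSB
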