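import Pool.Agent.Lib.MP_8a819d_co.BD.TMd

/-!
# MP_8a819d_co: absorbers with shadows, 0. The shadow of a unit

Every label `d` of a unit of the absorber belongs to a host vertex; the host with the index `i` has a parent with the (prescribed)
label `e i`, so that the edge between them has the label `d - e i`, the shadow of `d` (`e i = 0`: the label of the parent is not
prescribed, there is no shadow). The labels are distributed in slots of the length `m`, the host of `d` has the index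
`d / m`. As `e` is antitone the shadow `eE e m d = d - e (d / m)` is strictly increasing in `d`.
-/

set_option autoImplicit false

namespace SSB

open Finset

/-- the label of the edge from the host with the label `x` to its parent -/
def eE (e : ℕ → ℕ) (m x : ℕ) : ℕ := x - e (x / m)

/-- the shadows of the labels in `X` -/
def ES (e : ℕ → ℕ) (m : ℕ) (X : Finset ℕ) : Finset ℕ :=
  (X.filter (fun x => e (x / m) ≠ 0)).image (eE e m)

theorem mem_ES {e : ℕ → ℕ} {m : ℕ} {X : Finset ℕ} {y : ℕ} :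
    y ∈ ES e m X ↔ ∃ x ∈ X, e (x / m) ≠ 0 ∧ eE e m x = y := by
  unfold ES
  simp only [mem_image, mem_filter, and_assoc]

theorem ES_union {e : ℕ → ℕ} {m : ℕ} (X Y : Finset ℕ) : ES e m (X ∪ Y) = ES e m X ∪ ES e m Y := by
  unfold ES
  rw [filter_union, image_union]

theorem ES_mono {e : ℕ → ℕ} {m : ℕ} {X Y : Finset ℕ} (h : X ⊆ Y) : ES e m X ⊆ ES e m Y := by
  intro y hy
  obtain ⟨x, hx, h1, h2⟩ := mem_ES.1 hy
  exact mem_ES.2 ⟨x, h hx, h1, h2⟩

theorem ES_card {e : ℕ → ℕ} {m : ℕ} (X : Finset ℕ) : (ES e m X).card ≤ X.card :=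
  card_image_le.trans (card_filter_le _ _)

theorem ES_biUnion {ι : Type} [DecidableEq ι] {e : ℕ → ℕ} {m : ℕ} (S : Finset ι) (X : ι → Finset ℕ) :
    ES e m (S.biUnion X) = S.biUnion (fun i => ES e m (X i)) := by
  ext y
  simp only [mem_ES, mem_biUnion]
  constructor
  · rintro ⟨x, ⟨i, hi, hx⟩, h1, h2⟩
    exact ⟨i, hi, x, hx, h1, h2⟩
  · rintro ⟨i, hi, x, hx, h1, h2⟩
    exact ⟨x, ⟨i, hi, hx⟩, h1, h2⟩

/-- the conditions on `e` -/
structure EOK (m τ : ℕ) (e : ℕ → ℕ) : Prop where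
  m_pos : 1 ≤ m
  mτ : m ≤ τ
  anti : Antitone e
  par : ∀ i, e i = 0 ∨ e i % 2 = 1
  le : ∀ i, e i ≤ τ

theorem eE_lt {m τ : ℕ} {e : ℕ → ℕ} (h : EOK m τ e) {x y : ℕ} (hx : τ < x) (hxy : x < y) :
    eE e m x < eE e m y := by
  have h1 : x / m ≤ y / m := Nat.div_le_div_right hxy.le
  have h2 := h.anti h1
  have h3 := h.le (x / m)
  unfold eE
  omega

theorem eE_le {m τ : ℕ} {e : ℕ → ℕ} (h : EOK m τ e) {x : ℕ} (hx : τ < x) :
    1 ≤ eE e m x ∧ eE e m x ≤ x ∧ x ≤ eE e m x + τ := by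
  have h3 := h.le (x / m)
  unfold eE
  omega

/-- the labels whose shadow is in `F` are at most `|F|` -/
theorem eE_pre {m τ : ℕ} {e : ℕ → ℕ} (h : EOK m τ e) (N : ℕ) (F : Finset ℕ) :
    ∃ G : Finset ℕ, G.card ≤ F.card ∧ ∀ x, τ < x → x ≤ N → eE e m x ∈ F → x ∈ G := by
  refine ⟨(Icc 1 N).filter (fun x => τ < x ∧ eE e m x ∈ F), ?_, fun x h1 h2 h3 => ?_⟩
  · refine card_le_card_of_injOn (eE e m) (fun x hx => ?_) (fun x hx y hy hxy => ?_)
    · exact (mem_filter.1 hx).2.2
    · have h1 := (mem_filter.1 hx).2.1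
      have h2 := (mem_filter.1 hy).2.1
      rcases lt_trichotomy x y with h3 | h3 | h3
      · exact absurd hxy (eE_lt h h1 h3).ne
      · exact h3
      · exact absurd hxy (eE_lt h h2 h3).ne'
  · rw [mem_filter, mem_Icc]
    exact ⟨⟨by omega, h2⟩, h1, h3⟩

/-- the labels in forbidden slots -/
theorem slot_card {m : ℕ} (hm : 1 ≤ m) (Sl : Finset ℕ) :
    ∃ G : Finset ℕ, G.card ≤ Sl.card * m ∧ ∀ x, x / m ∈ Sl → x ∈ G := by
  refine ⟨Sl.biUnion (fun s => (range m).image (fun r => s * m + r)), ?_, fun x hx => ?_⟩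
  · refine card_biUnion_le_card_mul _ _ _ fun s _ => ?_
    refine card_image_le.trans ?_
    rw [card_range]
  · refine mem_biUnion.2 ⟨x / m, hx, mem_image.2 ⟨x % m, mem_range.2 (Nat.mod_lt _ (by omega)), ?_⟩⟩
    rw [mul_comm]
    exact Nat.div_add_mod x m

/-- all the labels of a unit label which are forbidden: the label, its shadow or its slot is forbidden -/
theorem bad_card {m τ : ℕ} {e : ℕ → ℕ} (h : EOK m τ e) (N : ℕ) (F Sl : Finset ℕ) :
    ∃ G : Finset ℕ, F ⊆ G ∧ G.card ≤ 2 * F.card + Sl.card * m ∧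
      ∀ x, τ < x → x ≤ N → x ∉ G → x ∉ F ∧ eE e m x ∉ F ∧ x / m ∉ Sl := by
  obtain ⟨G1, h1, h2⟩ := eE_pre h N F
  obtain ⟨G2, h3, h4⟩ := slot_card h.m_pos Sl
  refine ⟨F ∪ G1 ∪ G2, subset_union_left.trans subset_union_left, ?_, fun x hx1 hx2 hx => ?_⟩
  · have h5 := card_union_le (F ∪ G1) G2
    have h6 := card_union_le F G1
    omega
  · rw [mem_union, mem_union, not_or, not_or] at hx
    exact ⟨hx.1.1, fun hc => hx.1.2 (h2 x hx1 hx2 hc), fun hc => hx.2 (h4 x hc)⟩

/-- the labels `A` and the unit labels `D`: the shadows of `D` are not in `F`, `A`, `D`; the slots are different and not in `Sl` -/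
structure EGood (m τ : ℕ) (e : ℕ → ℕ) (F Sl A D : Finset ℕ) : Prop where
  big : ∀ x ∈ D, τ < x
  slot : Set.InjOn (fun x => x / m) (D : Set ℕ)
  slF : ∀ x ∈ D, x / m ∉ Sl
  eF : Disjoint (ES e m D) F
  eA : Disjoint (ES e m D) A
  eD : Disjoint (ES e m D) D

/-- the labels and the unit labels are separated: no label is just below a unit label -/
def Sepd (τ : ℕ) (A D : Finset ℕ) : Prop :=
  (∀ d ∈ D, τ < d) ∧ ∀ d ∈ D, ∀ x ∈ A ∪ D, x < d → x + τ < d

/-- separated labels outside the bad set are good -/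
theorem sepd_good {m τ N : ℕ} {e : ℕ → ℕ} (h : EOK m τ e) {F Sl G A D : Finset ℕ}
    (hG : ∀ x, τ < x → x ≤ N → x ∉ G → x ∉ F ∧ eE e m x ∉ F ∧ x / m ∉ Sl)
    (hD : D ⊆ Icc 1 N) (hDG : Disjoint D G) (hs : Sepd τ A D) : EGood m τ e F Sl A D := by
  obtain ⟨s1, s2⟩ := hs
  have h1 : ∀ x ∈ D, x ∉ F ∧ eE e m x ∉ F ∧ x / m ∉ Sl := fun x hx =>
    hG x (s1 x hx) (mem_Icc.1 (hD hx)).2 (disjoint_left.1 hDG hx)
  have h2 : ∀ x ∈ D, e (x / m) ≠ 0 → ∀ y ∈ A ∪ D, eE e m x ≠ y := by
    intro x hx he y hy hxy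
    have h3 := eE_le h (s1 x hx)
    have h4 : eE e m x < x := by
      have h5 := h.le (x / m)
      have h6 := s1 x hx
      unfold eE
      omega
    have h5 := s2 x hx y hy (by omega)
    omega
  refine ⟨s1, ?_, fun x hx => (h1 x hx).2.2, ?_, ?_, ?_⟩
  · intro x hx y hy hxy
    change x / m = y / m at hxy
    have hm := h.m_pos
    have hmτ := h.mτ
    have e1 := Nat.div_add_mod x m
    have e2 := Nat.div_add_mod y m
    have e3 := Nat.mod_lt x (by omega : m > 0)
    have e4 := Nat.mod_lt y (by omega : m > 0)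
    rw [hxy] at e1
    rcases lt_trichotomy x y with h3 | h3 | h3
    · have h4 := s2 y (mem_coe.1 hy) x (mem_union_right _ (mem_coe.1 hx)) h3
      omega
    · exact h3
    · have h4 := s2 x (mem_coe.1 hx) y (mem_union_right _ (mem_coe.1 hy)) h3
      omega
  · rw [disjoint_left]
    intro y hy hyF
    obtain ⟨x, hx, -, h4⟩ := mem_ES.1 hy
    exact (h1 x hx).2.1 (h4 ▸ hyF)
  · rw [disjoint_left]
    intro y hy hyA
    obtain ⟨x, hx, h3, h4⟩ := mem_ES.1 hy
    exact h2 x hx h3 y (mem_union_left _ hyA) h4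
  · rw [disjoint_left]
    intro y hy hyD
    obtain ⟨x, hx, h3, h4⟩ := mem_ES.1 hy
    exact h2 x hx h3 y (mem_union_right _ hyD) h4

theorem EGood.nil {m τ : ℕ} {e : ℕ → ℕ} {F Sl A : Finset ℕ} : EGood m τ e F Sl A ∅ := by
  refine ⟨?_, ?_, ?_, ?_, ?_, ?_⟩
  · exact fun x hx => absurd hx (notMem_empty x)
  · rw [coe_empty]
    exact Set.injOn_empty _
  · exact fun x hx => absurd hx (notMem_empty x)
  all_goals simp [ES]

/-- more labels `A` -/
theorem EGood.add {m τ : ℕ} {e : ℕ → ℕ} {F Sl A D B : Finset ℕ} (h : EGood m τ e F Sl A D)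
    (hB : Disjoint B (ES e m D)) : EGood m τ e F Sl (A ∪ B) D :=
  ⟨h.big, h.slot, h.slF, h.eF, disjoint_union_right.2 ⟨h.eA, hB.symm⟩, h.eD⟩

/-- two parts, the second one chosen after the first one -/
theorem EGood.union {m τ : ℕ} {e : ℕ → ℕ} {F Sl A D A' D' F' Sl' : Finset ℕ}
    (h : EGood m τ e F Sl A D) (h' : EGood m τ e F' Sl' A' D') (hF : F ∪ A ∪ D ∪ ES e m D ⊆ F')
    (hS : Sl ∪ D.image (fun x => x / m) ⊆ Sl') (hA : Disjoint A' (ES e m D))
    (hD : Disjoint D' (ES e m D)) : EGood m τ e F Sl (A ∪ A') (D ∪ D') := by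
  have hF1 : F ⊆ F' := fun x hx => hF (by simp [hx])
  have hF2 : A ⊆ F' := fun x hx => hF (by simp [hx])
  have hF3 : D ⊆ F' := fun x hx => hF (by simp [hx])
  refine ⟨?_, ?_, ?_, ?_, ?_, ?_⟩
  · intro x hx
    rcases mem_union.1 hx with h1 | h1
    · exact h.big x h1
    · exact h'.big x h1
  · intro x hx y hy hxy
    rw [mem_coe, mem_union] at hx hy
    rcases hx with hx | hx <;> rcases hy with hy | hy
    · exact h.slot (mem_coe.2 hx) (mem_coe.2 hy) hxy
    · refine absurd (hS (mem_union_right _ (mem_image.2 ⟨x, hx, rfl⟩))) ?_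
      change x / m = y / m at hxy
      rw [hxy]
      exact h'.slF y hy
    · refine absurd (hS (mem_union_right _ (mem_image.2 ⟨y, hy, rfl⟩))) ?_
      change x / m = y / m at hxy
      rw [← hxy]
      exact h'.slF x hx
    · exact h'.slot (mem_coe.2 hx) (mem_coe.2 hy) hxy
  · intro x hx hxS
    rcases mem_union.1 hx with h1 | h1
    · exact h.slF x h1 hxS
    · exact h'.slF x h1 (hS (mem_union_left _ hxS))
  · rw [ES_union, disjoint_union_left]
    exact ⟨h.eF, disjoint_of_subset_right hF1 h'.eF⟩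
  · rw [ES_union, disjoint_union_left, disjoint_union_right, disjoint_union_right]
    exact ⟨⟨h.eA, hA.symm⟩, disjoint_of_subset_right hF2 h'.eF, h'.eA⟩
  · rw [ES_union, disjoint_union_left, disjoint_union_right, disjoint_union_right]
    exact ⟨⟨h.eD, hD.symm⟩, disjoint_of_subset_right hF3 h'.eF, h'.eD⟩

/-- the shadows of the second part are not shadows of the first part -/
theorem EGood.sh {m τ : ℕ} {e : ℕ → ℕ} {F Sl A D F' Sl' A' D' : Finset ℕ}
    (_ : EGood m τ e F Sl A D) (h' : EGood m τ e F' Sl' A' D') (hF : ES e m D ⊆ F') :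
    Disjoint (ES e m D') (ES e m D) := disjoint_of_subset_right hF h'.eF

/-- greedy choice with labels `fp` and slots `sp` -/
theorem greedyE {ι Obj : Type} [DecidableEq ι] [Nonempty Obj] (fp sp : Obj → Finset ℕ)
    (P : ι → Obj → Prop) (b : ℕ) (S : Finset ι)
    (h : ∀ i ∈ S, ∀ F' Sl' : Finset ℕ, F'.card ≤ S.card * b → Sl'.card ≤ S.card * b →
      ∃ o, P i o ∧ Disjoint (fp o) F' ∧ Disjoint (sp o) Sl' ∧ (fp o).card + (sp o).card ≤ b) :
    ∃ o : ι → Obj, (∀ i ∈ S, P i (o i)) ∧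
      (∀ i ∈ S, ∀ j ∈ S, i ≠ j → Disjoint (fp (o i)) (fp (o j)) ∧ Disjoint (sp (o i)) (sp (o j))) ∧
      ∀ i ∈ S, (fp (o i)).card + (sp (o i)).card ≤ b := by
  have i2 : Function.Injective (fun x : ℕ => 2 * x) := fun a b hab => by
    change 2 * a = 2 * b at hab
    omega
  have i3 : Function.Injective (fun x : ℕ => 2 * x + 1) := fun a b hab => by
    change 2 * a + 1 = 2 * b + 1 at hab
    omega
  obtain ⟨o, o1, -, o3, o4⟩ := greedy (ι := ι) (Obj := Obj)
    (fun o => (fp o).image (fun x => 2 * x) ∪ (sp o).image (fun x => 2 * x + 1))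
    (fun i o => P i o ∧ (fp o).card + (sp o).card ≤ b) b (S.card * b) ∅ S
    (fun i hi F' _ hF' => by
      have hc : ∀ (f : ℕ → ℕ) (hf : Function.Injective f),
          (F'.preimage f (Set.injOn_of_injective hf)).card ≤ F'.card := fun f hf => by
        rw [← card_image_of_injective _ hf]
        refine card_le_card fun x hx => ?_
        obtain ⟨y, hy, rfl⟩ := mem_image.1 hx
        exact mem_preimage.1 hy
      obtain ⟨o, p1, p2, p3, p4⟩ := h i hi (F'.preimage (fun x => 2 * x) (Set.injOn_of_injective i2))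
        (F'.preimage (fun x => 2 * x + 1) (Set.injOn_of_injective i3)) ((hc _ i2).trans hF')
        ((hc _ i3).trans hF')
      refine ⟨o, ⟨p1, p4⟩, ?_, ?_⟩
      · rw [disjoint_union_left, disjoint_left, disjoint_left]
        refine ⟨fun x hx hxF => ?_, fun x hx hxF => ?_⟩
        · obtain ⟨y, hy, rfl⟩ := mem_image.1 hx
          exact disjoint_left.1 p2 hy (mem_preimage.2 hxF)
        · obtain ⟨y, hy, rfl⟩ := mem_image.1 hx
          exact disjoint_left.1 p3 hy (mem_preimage.2 hxF)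
      · refine (card_union_le _ _).trans ?_
        rw [card_image_of_injective _ i2, card_image_of_injective _ i3]
        exact p4)
    (by rw [card_empty]; omega)
  refine ⟨o, fun i hi => (o1 i hi).1, fun i hi j hj hij => ?_, fun i hi => (o1 i hi).2⟩
  have h1 := o3 i hi j hj hij
  rw [disjoint_union_left, disjoint_union_right, disjoint_union_right] at h1
  refine ⟨?_, ?_⟩
  · rw [disjoint_left]
    intro x hx hx'
    exact disjoint_left.1 h1.1.1 (mem_image_of_mem _ hx) (mem_image_of_mem _ hx')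
  · rw [disjoint_left]
    intro x hx hx'
    exact disjoint_left.1 h1.2.2 (mem_image_of_mem _ hx) (mem_image_of_mem _ hx')

end SSB
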