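import Pool.Agent.Lib.MP_8a819d_co.BD.Sy
import Pool.Agent.Lib.MP_8a819d_co.AT.EsA

/-!
# MP_8a819d_co: absorbers with shadows, 1. The junk system

`sys1K`: the construction of `sys1` in `BD/Sy.lean` (same proof) with an explicit parameter `k` and a gap `τ` between the labels of
`Z1` and the unit labels. `sys1E`: with shadows; apply `sys1K` to `R` and the labels whose shadow is in `R`.
-/

set_option autoImplicit false

namespace SSB

open Finset

private theorem syk_mult {m : ℕ} (hm : 0 < m) (x y : ℕ) :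
    ((Ioc x y).filter (fun c => m ∣ c)).card = y / m - x / m := by
  have h1 : (Ioc x y).filter (fun c => m ∣ c) = (Ioc (x / m) (y / m)).image (fun i => m * i) := by
    ext c
    simp only [mem_filter, mem_Ioc, mem_image]
    constructor
    · rintro ⟨⟨h1, h2⟩, i, rfl⟩
      refine ⟨i, ⟨?_, ?_⟩, rfl⟩
      · rw [Nat.div_lt_iff_lt_mul hm, mul_comm]
        exact h1
      · rw [Nat.le_div_iff_mul_le hm, mul_comm]
        exact h2
    · rintro ⟨i, ⟨h1, h2⟩, rfl⟩
      rw [Nat.div_lt_iff_lt_mul hm, mul_comm] at h1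
      rw [Nat.le_div_iff_mul_le hm, mul_comm] at h2
      exact ⟨⟨h1, h2⟩, dvd_mul_right _ _⟩
  rw [h1, Finset.card_image_of_injective _ (fun a b h => Nat.eq_of_mul_eq_mul_left hm h),
    Nat.card_Ioc]

private theorem syk_par (a w σ : ℕ) (hσ : σ < 2) :
    ((Ioc a (a + w)).filter (fun x => x % 2 = σ)).card = (a + w + σ) / 2 - (a + σ) / 2 := by
  induction w with
  | zero => simp
  | succ w ih =>
    have h1 : Ioc a (a + (w + 1)) = insert (a + (w + 1)) (Ioc a (a + w)) := by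
      ext x
      simp only [mem_Ioc, mem_insert]
      omega
    rw [h1, filter_insert]
    split_ifs with h
    · rw [card_insert_of_notMem (by simp), ih]
      omega
    · rw [ih]
      omega

private theorem syk_pick {C R T FZ : Finset ℕ} {FD : Finset (ℕ × ℕ)} {zf : ℕ → ℕ} {u : ℕ}
    (hinj : Set.InjOn zf C)
    (hcard : R.card + T.card + FD.card + FZ.card + 1 < C.card) :
    ∃ c ∈ C, c ∉ R ∧ zf c ∉ T ∧ (c, c) ∉ FD ∧ zf c ∉ FZ ∧ zf c ≠ u := by
  by_contra hcon
  have hsub : C ⊆ R ∪ (C.filter (fun c => zf c ∈ T)) ∪ (C.filter (fun c => (c, c) ∈ FD)) ∪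
      (C.filter (fun c => zf c ∈ FZ)) ∪ (C.filter (fun c => zf c ∈ ({u} : Finset ℕ))) := by
    intro c hc
    by_contra h
    simp only [mem_union, mem_filter, mem_singleton, not_or, not_and] at h
    obtain ⟨⟨⟨⟨h1, h2⟩, h3⟩, h4⟩, h5⟩ := h
    exact hcon ⟨c, hc, h1, h2 hc, h3 hc, h4 hc, h5 hc⟩
  have hT : ∀ T' : Finset ℕ, (C.filter (fun c => zf c ∈ T')).card ≤ T'.card := by
    intro T'
    refine Finset.card_le_card_of_injOn zf (fun c hc => (mem_filter.1 hc).2) ?_
    intro a ha b hb hab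
    exact hinj (mem_filter.1 ha).1 (mem_filter.1 hb).1 hab
  have hD : (C.filter (fun c => (c, c) ∈ FD)).card ≤ FD.card := by
    refine Finset.card_le_card_of_injOn (fun c => (c, c)) (fun c hc => (mem_filter.1 hc).2) ?_
    intro a _ b _ hab
    exact (Prod.mk.inj hab).1
  have h1 := Finset.card_le_card hsub
  have h2 := Finset.card_union_le (R ∪ (C.filter (fun c => zf c ∈ T)) ∪
    (C.filter (fun c => (c, c) ∈ FD)) ∪ (C.filter (fun c => zf c ∈ FZ)))
    (C.filter (fun c => zf c ∈ ({u} : Finset ℕ)))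
  have h3 := Finset.card_union_le (R ∪ (C.filter (fun c => zf c ∈ T)) ∪
    (C.filter (fun c => (c, c) ∈ FD))) (C.filter (fun c => zf c ∈ FZ))
  have h4 := Finset.card_union_le (R ∪ (C.filter (fun c => zf c ∈ T)))
    (C.filter (fun c => (c, c) ∈ FD))
  have h5 := Finset.card_union_le R (C.filter (fun c => zf c ∈ T))
  have h6 := hT T
  have h7 := hT FZ
  have h8 := hT {u}
  rw [card_singleton] at h8
  omega

/-- numerical facts -/
private theorem syk_num {k N τ : ℕ} (hk : 100 ≤ k) (hN : 10 ^ 5 * k ^ 2 ≤ N)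
    (hτ : 100 * (k * τ) ≤ N) :
    ∃ X Y : ℝ, 1000 ≤ X ∧ 10000 * X ≤ Y ∧ 100 * Y ≤ N ∧ Y = 1 / (k : ℝ) * N ∧
      1 / (10 ^ 5 * (k : ℝ) ^ 2) * N = X / 1000 ∧
      ((N / (10 ^ 5 * k ^ 2) : ℕ) : ℝ) ≤ X / 1000 ∧
      Y - 1 < ((N / k : ℕ) : ℝ) ∧ ((N / k : ℕ) : ℝ) ≤ Y ∧
      X / 2 - 2 < ((N / k / (200 * k) : ℕ) : ℝ) ∧
      ((N / (200 * k) : ℕ) : ℝ) ≤ Y / 200 ∧ Y / 200 - 1 < ((N / (200 * k) : ℕ) : ℝ) ∧
      (((3 * N / 10 + N / k) / (200 * k) : ℕ) : ℝ) ≤ 31 / 100 * Y / 200 ∧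
      100 * ((τ / (200 * k) : ℕ) : ℝ) ≤ X / 2 ∧ 100 * τ ≤ N / k := by
  have hk0 : (0 : ℝ) < k := by
    have : 0 < k := by omega
    exact_mod_cast this
  have hk1 : (100 : ℝ) ≤ k := by exact_mod_cast hk
  have hN1 : (10 : ℝ) ^ 5 * (k : ℝ) ^ 2 ≤ N := by exact_mod_cast hN
  have hN0 : (0 : ℝ) ≤ N := Nat.cast_nonneg N
  have hY1 : ((N / k : ℕ) : ℝ) ≤ 1 / (k : ℝ) * N := by
    have := Nat.cast_div_le (m := N) (n := k) (α := ℝ)
    rw [one_div, inv_mul_eq_div]
    exact this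
  have hY2 : 1 / (k : ℝ) * N - 1 < ((N / k : ℕ) : ℝ) := by
    have h1 : N < k * (N / k + 1) := Nat.lt_mul_div_succ N (by omega)
    have h2 : (N : ℝ) < k * (((N / k : ℕ) : ℝ) + 1) := by exact_mod_cast h1
    have h3 : 1 / (k : ℝ) * N < ((N / k : ℕ) : ℝ) + 1 := by
      rw [one_div, inv_mul_lt_iff₀ hk0]
      exact h2
    linarith
  have hXY : (N : ℝ) / (100 * (k : ℝ) ^ 2) = (1 / (k : ℝ) * N) / (100 * k) := by
    field_simp
  refine ⟨N / (100 * (k : ℝ) ^ 2), 1 / (k : ℝ) * N, ?_, ?_, ?_, rfl, ?_, ?_, hY2, hY1, ?_, ?_, ?_,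
    ?_, ?_, ?_⟩
  · rw [le_div_iff₀ (by positivity)]
    linarith
  · rw [hXY, mul_div_assoc', div_le_iff₀ (by positivity)]
    have h1 : 0 ≤ 1 / (k : ℝ) * N := by positivity
    nlinarith
  · rw [one_div, ← mul_assoc, mul_comm (100 : ℝ), mul_assoc, inv_mul_le_iff₀ hk0]
    nlinarith
  · field_simp
    ring
  · have := Nat.cast_div_le (m := N) (n := 10 ^ 5 * k ^ 2) (α := ℝ)
    refine this.trans (le_of_eq ?_)
    push_cast
    field_simp
    ring
  · have h1 : N / k < (200 * k) * (N / k / (200 * k) + 1) := Nat.lt_mul_div_succ _ (by omega)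
    have h2 : ((N / k : ℕ) : ℝ) < (200 * k) * (((N / k / (200 * k) : ℕ) : ℝ) + 1) := by
      exact_mod_cast h1
    have h3 : (1 / (k : ℝ) * N - 1) / (200 * k) < ((N / k / (200 * k) : ℕ) : ℝ) + 1 := by
      rw [div_lt_iff₀ (by positivity)]
      linarith
    have h4 : (1 / (k : ℝ) * N - 1) / (200 * k) =
        N / (100 * (k : ℝ) ^ 2) / 2 - 1 / (200 * k) := by
      field_simp
      ring
    have h5 : 1 / (200 * (k : ℝ)) ≤ 1 := by
      rw [div_le_one (by positivity)]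
      linarith
    linarith
  · have := Nat.cast_div_le (m := N) (n := 200 * k) (α := ℝ)
    refine this.trans (le_of_eq ?_)
    push_cast
    field_simp
  · have h1 : N < (200 * k) * (N / (200 * k) + 1) := Nat.lt_mul_div_succ _ (by omega)
    have h2 : (N : ℝ) < (200 * k) * (((N / (200 * k) : ℕ) : ℝ) + 1) := by exact_mod_cast h1
    have h3 : (N : ℝ) / (200 * k) < ((N / (200 * k) : ℕ) : ℝ) + 1 := by
      rw [div_lt_iff₀ (by positivity)]
      linarith
    have h4 : (N : ℝ) / (200 * k) = 1 / (k : ℝ) * N / 200 := by field_simp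
    linarith
  · have h1 := Nat.cast_div_le (m := 3 * N / 10 + N / k) (n := 200 * k) (α := ℝ)
    refine h1.trans ?_
    have h2 : ((3 * N / 10 + N / k : ℕ) : ℝ) ≤ 31 / 100 * N := by
      have h3 : ((3 * N / 10 : ℕ) : ℝ) ≤ 3 * N / 10 := by
        have := Nat.cast_div_le (m := 3 * N) (n := 10) (α := ℝ)
        push_cast at this
        exact this
      have h4 : 1 / (k : ℝ) * N ≤ 1 / 100 * N := by
        refine mul_le_mul_of_nonneg_right ?_ hN0
        exact one_div_le_one_div_of_le (by norm_num) hk1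
      push_cast
      linarith
    have h3 : 31 / 100 * (1 / (k : ℝ) * N) / 200 = 31 / 100 * N / (200 * k) := by field_simp
    rw [h3]
    push_cast
    push_cast at h2
    exact div_le_div_of_nonneg_right h2 (by positivity)
  · have h1 := Nat.cast_div_le (m := τ) (n := 200 * k) (α := ℝ)
    have h2 : (100 : ℝ) * (k * τ) ≤ N := by exact_mod_cast hτ
    have h3 : 100 * ((τ : ℝ) / ((200 * k : ℕ) : ℝ)) ≤ N / (100 * (k : ℝ) ^ 2) / 2 := by
      push_cast
      rw [mul_div_assoc', div_div, div_le_div_iff₀ (by positivity) (by positivity)]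
      have h4 : 200 * (k : ℝ) * (100 * (k * τ)) ≤ 200 * k * N :=
        mul_le_mul_of_nonneg_left h2 (by positivity)
      have h5 : 100 * (τ : ℝ) * (100 * (k : ℝ) ^ 2 * 2) = 200 * (k : ℝ) * (100 * (k * τ)) := by ring
      rw [h5]
      linarith
    linarith
  · rw [Nat.le_div_iff_mul_le (by omega)]
    calc 100 * τ * k = 100 * (k * τ) := by ring
      _ ≤ N := hτ

theorem sys1K {k N τ : ℕ} (hk : 100 ≤ k) (hN : 10 ^ 5 * k ^ 2 ≤ N) {ε : ℝ} (hkε : 1 / (k : ℝ) ≤ ε)
    (hτ : 100 * (k * τ) ≤ N)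
    (R : Finset ℕ) (hRc : (R.card : ℝ) ≤ 1 / (10 ^ 5 * (k : ℝ) ^ 2) * N) :
    ∃ (DG : Finset (ℕ × ℕ)) (Z1 : ℕ → Finset ℕ) (z1 : ℕ),
      Sys 1 2 N R DG Z1 z1 (1 / k) (1 / (10 ^ 5 * (k : ℝ) ^ 2)) ε ∧
      (∀ x ∈ labs DG, 200 * k ∣ x ∧ 3 * N / 10 + N / k + τ < x ∧ x ≤ N) ∧
      ∀ σ < 2, ∀ x ∈ Z1 σ, x ≤ 3 * N / 10 + N / k := by
  have hkr : (0 : ℝ) < k := by
    have : 0 < k := by omega
    exact_mod_cast this
  have hk1 : (100 : ℝ) ≤ k := by exact_mod_cast hk
  obtain ⟨X, Y, hX, hXY, hYN, hY, hβ, hρ, hw1, hw2, hW, hD1, hD1', hD2, hτ1, hτ2⟩ :=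
    syk_num hk hN hτ
  set ρ : ℕ := N / (10 ^ 5 * k ^ 2) with hρdef
  set w : ℕ := N / k with hwdef
  set b : ℕ := 3 * N / 10 with hbdef
  have hN0 : (0 : ℝ) ≤ N := Nat.cast_nonneg N
  -- cardinality of R
  have hRρ : R.card ≤ ρ := by
    rw [hρdef, Nat.le_div_iff_mul_le (by positivity)]
    have h1 : (R.card : ℝ) * (10 ^ 5 * (k : ℝ) ^ 2) ≤ N := by
      rw [one_div, inv_mul_eq_div, le_div_iff₀ (by positivity)] at hRc
      exact hRc
    exact_mod_cast h1
  have hwN : 100 * w ≤ N := by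
    have h1 : (100 : ℝ) * w ≤ N := by linarith
    exact_mod_cast h1
  have hb1 : 10 * b ≤ 3 * N := by omega
  have hb2 : 3 * N < 10 * b + 10 := by omega
  have hkey : 3 * (N / (200 * k)) + ρ ≤ w / 2 := by
    have h1 : ((w : ℕ) : ℝ) ≤ 2 * ((w / 2 : ℕ) : ℝ) + 1 := by
      have : w ≤ 2 * (w / 2) + 1 := by omega
      exact_mod_cast this
    have h2 : (3 * ((N / (200 * k) : ℕ) : ℝ) + (ρ : ℝ)) ≤ ((w / 2 : ℕ) : ℝ) := by linarith
    exact_mod_cast h2
  -- the sets
  have hZex : ∀ σ : ℕ, ∃ Z : Finset ℕ, σ < 2 →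
      (Z ⊆ (Ioc b (b + w)).filter (fun x => x % 2 = σ ∧ x ∉ R) ∧ Z.card = w / 2 - ρ) := by
    intro σ
    by_cases hσ : σ < 2
    · have h1 := syk_par b w σ hσ
      have h2 : (Ioc b (b + w)).filter (fun x => x % 2 = σ) ⊆
          (Ioc b (b + w)).filter (fun x => x % 2 = σ ∧ x ∉ R) ∪ R := by
        intro x hx
        rw [mem_filter] at hx
        rw [mem_union, mem_filter]
        by_cases hxR : x ∈ R
        · exact Or.inr hxR
        · exact Or.inl ⟨hx.1, hx.2, hxR⟩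
      have h3 := (Finset.card_le_card h2).trans (Finset.card_union_le _ _)
      have h4 : w / 2 - ρ ≤ ((Ioc b (b + w)).filter (fun x => x % 2 = σ ∧ x ∉ R)).card := by
        omega
      obtain ⟨Z, hZ1, hZ2⟩ := Finset.exists_subset_card_eq h4
      exact ⟨Z, fun _ => ⟨hZ1, hZ2⟩⟩
    · exact ⟨∅, fun h => absurd h hσ⟩
  choose Z1 hZ1 using hZex
  set Dc : Finset ℕ := (Ioc (b + w + τ) N).filter (fun c => 200 * k ∣ c ∧ c ∉ R) with hDc
  have hinjD : Function.Injective (fun c : ℕ => (c, c)) := fun a b h => (Prod.mk.inj h).1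
  have hlabs : labs (Dc.image fun c => (c, c)) = Dc := by
    ext x
    rw [mem_labs]
    constructor
    · rintro ⟨d, hd, h⟩
      obtain ⟨c, hc, rfl⟩ := mem_image.1 hd
      rcases h with rfl | rfl
      · exact hc
      · exact hc
    · intro hx
      exact ⟨(x, x), mem_image.2 ⟨x, hx, rfl⟩, Or.inl rfl⟩
  have hDcard : (Dc.image fun c => (c, c)).card = Dc.card := card_image_of_injective _ hinjD
  have hDc_mem : ∀ c ∈ Dc, b + w < c ∧ c ≤ N ∧ c % 2 = 0 ∧ c ∉ R := by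
    intro c hc
    rw [hDc, mem_filter, mem_Ioc] at hc
    obtain ⟨⟨h1, h2⟩, ⟨i, hi⟩, h4⟩ := hc
    refine ⟨by omega, h2, ?_, h4⟩
    have : c = 2 * (100 * k * i) := by rw [hi]; ring
    omega
  have hDup : Dc.card ≤ N / (200 * k) := by
    have h1 : Dc ⊆ (Ioc (b + w + τ) N).filter (fun c => 200 * k ∣ c) := by
      intro c hc
      rw [hDc, mem_filter] at hc
      rw [mem_filter]
      exact ⟨hc.1, hc.2.1⟩
    have h2 := Finset.card_le_card h1
    rw [syk_mult (by omega)] at h2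
    exact h2.trans (Nat.sub_le _ _)
  have hDlow : N / (200 * k) - (b + w + τ) / (200 * k) ≤ Dc.card + R.card := by
    have h1 : (Ioc (b + w + τ) N).filter (fun c => 200 * k ∣ c) ⊆ Dc ∪ R := by
      intro c hc
      rw [mem_filter] at hc
      rw [mem_union]
      by_cases hcR : c ∈ R
      · exact Or.inr hcR
      · refine Or.inl ?_
        rw [hDc, mem_filter]
        exact ⟨hc.1, hc.2, hcR⟩
    have h2 := (Finset.card_le_card h1).trans (Finset.card_union_le _ _)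
    rw [syk_mult (by omega)] at h2
    exact h2
  have hτd : (b + w + τ) / (200 * k) ≤ (b + w) / (200 * k) + τ / (200 * k) + 1 := by
    have h2 := Nat.add_div (a := b + w) (b := τ) (c := 200 * k) (by omega)
    split_ifs at h2 <;> omega
  have hDlow' : (N / (200 * k) : ℕ) ≤ Dc.card + ρ + (b + w) / (200 * k) + τ / (200 * k) + 1 := by
    omega
  have hDlowR : ((N / (200 * k) : ℕ) : ℝ) ≤ Dc.card + ρ + (((b + w) / (200 * k) : ℕ) : ℝ) +
      ((τ / (200 * k) : ℕ) : ℝ) + 1 := by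
    exact_mod_cast hDlow'
  have hz1 : w / 2 - ρ + ρ = w / 2 := by omega
  have hZmem : ∀ σ < 2, ∀ x ∈ Z1 σ, b < x ∧ x ≤ b + w ∧ x % 2 = σ ∧ x ∉ R := by
    intro σ hσ x hx
    have h1 := (hZ1 σ hσ).1 hx
    rw [mem_filter, mem_Ioc] at h1
    exact ⟨h1.1.1, h1.1.2, h1.2.1, h1.2.2⟩
  have hbig : ∀ x : ℕ, b < x → 1 / (k : ℝ) * N < x := by
    intro x hx
    rw [← hY]
    have h1 : (3 * (N : ℝ)) < 10 * x := by
      have : 3 * N < 10 * x := by omega
      exact_mod_cast this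
    linarith
  refine ⟨Dc.image fun c => (c, c), Z1, w / 2 - ρ, ?_, ?_, fun σ hσ x hx => (hZmem σ hσ x hx).2.1⟩
  rotate_left
  · rw [hlabs]
    intro x hx
    rw [hDc, mem_filter, mem_Ioc] at hx
    exact ⟨hx.2.1, hx.1.1, hx.1.2⟩
  constructor
  · -- DG_sub
    rw [hlabs]
    intro c hc
    obtain ⟨h1, h2, _, _⟩ := hDc_mem c hc
    rw [mem_Icc]
    omega
  · -- DG_ok
    refine ⟨fun _ d hd => ?_, ?_⟩
    · obtain ⟨c, _, rfl⟩ := mem_image.1 hd
      rfl
    · rw [hlabs, hDcard, one_mul]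
  · -- DG_R
    rw [hlabs, Finset.disjoint_left]
    intro c hc
    exact (hDc_mem c hc).2.2.2
  · -- DG_big
    intro d hd
    obtain ⟨c, hc, rfl⟩ := mem_image.1 hd
    obtain ⟨h1, h2, h3, _⟩ := hDc_mem c hc
    refine ⟨?_, fun _ => ⟨rfl, h3⟩, fun h => ?_⟩
    · show 3 * N ≤ 10 * c
      omega
    · omega
  · -- Z1_sub
    intro σ hσ x hx
    obtain ⟨h1, h2, _, _⟩ := hZmem σ hσ x hx
    rw [mem_Icc]
    omega
  · -- Z1_cls
    intro σ hσ x hx
    have h1 : cls 1 x = x % 2 := if_pos rfl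
    rw [h1]
    exact (hZmem σ hσ x hx).2.2.1
  · intro σ hσ
    exact (hZ1 σ hσ).2
  · intro σ hσ
    rw [Finset.disjoint_left]
    intro x hx
    exact (hZmem σ hσ x hx).2.2.2
  · intro σ hσ
    rw [hlabs, Finset.disjoint_left]
    intro x hx hx'
    have h1 := (hZmem σ hσ x hx).2.1
    have h2 := (hDc_mem x hx').1
    omega
  · intro σ hσ x hx
    exact hbig x (hZmem σ hσ x hx).1
  · rw [hlabs]
    intro x hx
    refine hbig x ?_
    have h2 := (hDc_mem x hx).1
    omega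
  · -- DG_le
    rw [hDcard]
    have h1 : (Dc.card : ℝ) ≤ ((N / (200 * k) : ℕ) : ℝ) := by exact_mod_cast hDup
    have h2 : Y ≤ ε * N := by
      rw [hY]
      exact mul_le_mul_of_nonneg_right hkε hN0
    linarith
  · -- z1_le
    have h1 : ((w / 2 - ρ : ℕ) : ℝ) ≤ w := by
      have : w / 2 - ρ ≤ w := by omega
      exact_mod_cast this
    have h2 : Y ≤ ε * N := by
      rw [hY]
      exact mul_le_mul_of_nonneg_right hkε hN0
    linarith
  · -- z1_pos
    have h1 : (1 : ℝ) + (ρ : ℝ) ≤ ((w / 2 : ℕ) : ℝ) := by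
      have h2 : ((w : ℕ) : ℝ) ≤ 2 * ((w / 2 : ℕ) : ℝ) + 1 := by
        have : w ≤ 2 * (w / 2) + 1 := by omega
        exact_mod_cast this
      linarith
    have h2 : 1 + ρ ≤ w / 2 := by exact_mod_cast h1
    omega
  · -- DG_z1
    rw [hDcard]
    omega
  · -- DG_ge
    rw [hDcard]
    have h1 : 10 * (1 / (10 ^ 5 * (k : ℝ) ^ 2)) * N = X / 100 := by
      have h2 : 10 * (1 / (10 ^ 5 * (k : ℝ) ^ 2)) * N =
          10 * (1 / (10 ^ 5 * (k : ℝ) ^ 2) * N) := by ring
      rw [h2, hβ]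
      ring
    rw [h1]
    linarith
  · -- junk
    intro u hu hζu FD FZ hFD hF
    rw [mem_Icc] at hu
    have hcls : cls 1 u = u % 2 := if_pos rfl
    rw [hcls]
    have hσ : u % 2 < 2 := Nat.mod_lt _ (by norm_num)
    have huw : w < u := by
      have h1 : (w : ℝ) < u := by
        rw [← hY] at hζu
        linarith
      exact_mod_cast h1
    set T : Finset ℕ := (Ioc b (b + w)).filter (fun x => x % 2 = u % 2) \ Z1 (u % 2) with hT
    have hZT : Z1 (u % 2) ⊆ (Ioc b (b + w)).filter (fun x => x % 2 = u % 2) := by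
      intro x hx
      obtain ⟨h1, h2, h3, _⟩ := hZmem _ hσ x hx
      rw [mem_filter, mem_Ioc]
      exact ⟨⟨h1, h2⟩, h3⟩
    have hTc : T.card ≤ ρ + 1 := by
      rw [hT, card_sdiff_of_subset hZT, (hZ1 _ hσ).2, syk_par b w _ hσ]
      omega
    have hFr : (FD.card : ℝ) + FZ.card ≤ 8 * X / 1000 := by
      have h2 : 8 * (1 / (10 ^ 5 * (k : ℝ) ^ 2)) * N =
          8 * (1 / (10 ^ 5 * (k : ℝ) ^ 2) * N) := by ring
      rw [h2, hβ] at hF
      linarith
    have hcount : ∀ lo : ℕ, R.card + T.card + FD.card + FZ.card + 1 <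
        ((Ioc (lo + τ) (lo + w)).filter (fun c => 200 * k ∣ c)).card := by
      intro lo
      rw [syk_mult (by omega)]
      have h1 : lo / (200 * k) + w / (200 * k) ≤ (lo + w) / (200 * k) := Nat.div_add_div_le_add_div
      have h1' : (lo + τ) / (200 * k) ≤ lo / (200 * k) + τ / (200 * k) + 1 := by
        have h2 := Nat.add_div (a := lo) (b := τ) (c := 200 * k) (by omega)
        split_ifs at h2 <;> omega
      have h2 : (R.card : ℝ) + T.card + FD.card + FZ.card + 1 + (((τ / (200 * k) : ℕ) : ℝ) + 1) <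
          ((w / (200 * k) : ℕ) : ℝ) := by
        have h3 : (R.card : ℝ) ≤ ρ := by exact_mod_cast hRρ
        have h4 : (T.card : ℝ) ≤ ρ + 1 := by exact_mod_cast hTc
        linarith
      have h3 : R.card + T.card + FD.card + FZ.card + 1 + (τ / (200 * k) + 1) < w / (200 * k) := by
        exact_mod_cast h2
      omega
    -- finishing
    have hfin : ∀ (c z : ℕ), b + w + τ < c → c ≤ N → 200 * k ∣ c → c ∉ R → b < z → z ≤ b + w →
        z % 2 = u % 2 → z ∉ T → (c, c) ∉ FD → z ∉ FZ → z ≠ u → dd u c = z →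
        ∃ d ∈ (Dc.image fun c => (c, c)) \ FD, ∃ z ⊆ Z1 (u % 2) \ FZ, z.card = 1 ∧ u ∉ z ∧
          IsBlock 1 d (insert u z) := by
      intro c z h1 h2 h3 h4 h5 h6 h7 h8 h9 h10 h11 h12
      refine ⟨(c, c), mem_sdiff.2 ⟨mem_image.2 ⟨c, ?_, rfl⟩, h9⟩, {z}, ?_, card_singleton z, ?_, ?_⟩
      · rw [hDc, mem_filter, mem_Ioc]
        exact ⟨⟨h1, h2⟩, h3, h4⟩
      · rw [singleton_subset_iff, mem_sdiff]
        refine ⟨?_, h10⟩
        by_contra hz
        refine h8 ?_
        rw [hT, mem_sdiff, mem_filter, mem_Ioc]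
        exact ⟨⟨⟨h5, h6⟩, h7⟩, hz⟩
      · rw [mem_singleton]
        exact h11.symm
      · refine ⟨u, ?_, ?_, ?_⟩
        · show ({u, z} : Finset ℕ) = {u, dd u c, dd u c}
          rw [h12, pair_eq_singleton]
        · rw [mem_insert, mem_singleton]
          omega
        · rw [card_pair h11.symm]
    by_cases hcase : 20 * u ≤ 13 * N
    · obtain ⟨c, hc, h1, h2, h3, h4, h5⟩ := syk_pick (C := (Ioc (u + b + τ) (u + b + w)).filter
        (fun c => 200 * k ∣ c)) (R := R) (T := T) (FZ := FZ) (FD := FD)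
        (zf := fun c => c - u) (u := u) (by
          intro x hx y hy hxy
          have hx1 := (mem_filter.1 hx).1
          have hy1 := (mem_filter.1 hy).1
          rw [mem_Ioc] at hx1 hy1
          dsimp only at hxy
          omega) (hcount (u + b))
      rw [mem_filter, mem_Ioc] at hc
      obtain ⟨⟨hc1, hc2⟩, hc3⟩ := hc
      have hc4 : c % 2 = 0 := by
        obtain ⟨i, hi⟩ := hc3
        have : c = 2 * (100 * k * i) := by rw [hi]; ring
        omega
      refine hfin c (c - u) (by omega) (by omega) hc3 h1 (by omega) (by omega) (by omega) h2 h3 h4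
        h5 ?_
      unfold dd
      omega
    · obtain ⟨c, hc, h1, h2, h3, h4, h5⟩ := syk_pick
        (C := (Ioc (u - b - w - 1 + τ) (u - b - w - 1 + w)).filter
        (fun c => 200 * k ∣ c)) (R := R) (T := T) (FZ := FZ) (FD := FD)
        (zf := fun c => u - c) (u := u) (by
          intro x hx y hy hxy
          have hx1 := (mem_filter.1 hx).1
          have hy1 := (mem_filter.1 hy).1
          rw [mem_Ioc] at hx1 hy1
          dsimp only at hxy
          omega) (hcount (u - b - w - 1))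
      rw [mem_filter, mem_Ioc] at hc
      obtain ⟨⟨hc1, hc2⟩, hc3⟩ := hc
      have hc4 : c % 2 = 0 := by
        obtain ⟨i, hi⟩ := hc3
        have : c = 2 * (100 * k * i) := by rw [hi]; ring
        omega
      refine hfin c (u - c) (by omega) (by omega) hc3 h1 (by omega) (by omega) (by omega) h2 h3 h4
        h5 ?_
      unfold dd
      omega

theorem sys1E {k N m τ : ℕ} (hk : 100 ≤ k) (hN : 10 ^ 7 * k ^ 2 ≤ N) {ε : ℝ} (hkε : 1 / (k : ℝ) ≤ ε)
    {e : ℕ → ℕ} (he : EOK m τ e) (hm : m ≤ 200 * k) (hτ : 100 * (k * τ) ≤ N)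
    (R : Finset ℕ) (hRc : 2 * (R.card : ℝ) ≤ 1 / (10 ^ 5 * (k : ℝ) ^ 2) * N) :
    ∃ (DG : Finset (ℕ × ℕ)) (Z1 : ℕ → Finset ℕ) (z1 : ℕ),
      Sys 1 2 N R DG Z1 z1 (1 / k) (1 / (10 ^ 5 * (k : ℝ) ^ 2)) ε ∧
      EGood m τ e R ∅ (Z1 0 ∪ Z1 1) (labs DG) := by
  classical
  have hk0 : 0 < k := by omega
  have hkr : (0 : ℝ) < k := by exact_mod_cast hk0
  obtain ⟨G1, g1, g2⟩ := eE_pre he N R
  have hRR : ((R ∪ G1).card : ℝ) ≤ 1 / (10 ^ 5 * (k : ℝ) ^ 2) * N := by
    have h1 : (R ∪ G1).card ≤ R.card + G1.card := card_union_le _ _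
    have h2 : (R ∪ G1).card ≤ 2 * R.card := by omega
    have h3 : ((R ∪ G1).card : ℝ) ≤ 2 * R.card := by exact_mod_cast h2
    linarith
  obtain ⟨DG, Z1, z1, sys, s1, s2⟩ := sys1K hk (by nlinarith) hkε hτ (R ∪ G1) hRR
  refine ⟨DG, Z1, z1, ?_, ?_⟩
  · exact { sys with
      DG_R := disjoint_of_subset_right subset_union_left sys.DG_R
      Z1_R := fun σ hσ => disjoint_of_subset_right subset_union_left (sys.Z1_R σ hσ) }
  · have hτb : ∀ x ∈ labs DG, τ < x := by
      intro x hx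
      have h1 := (s1 x hx).2.1
      have h2 := Nat.zero_le (N / k)
      have h3 := Nat.zero_le (3 * N / 10)
      omega
    have hpar : ∀ x ∈ labs DG, x % 2 = 0 := by
      intro x hx
      obtain ⟨i, hi⟩ := (s1 x hx).1
      have : x = 2 * (100 * k * i) := by rw [hi]; ring
      omega
    have hZn : ∀ x ∈ labs DG, e (x / m) ≠ 0 → ∀ σ < 2, eE e m x ∉ Z1 σ := by
      intro x hx hex σ hσ hz
      have h1 := eE_le he (hτb x hx)
      have h2 := s2 σ hσ _ hz
      have h3 := s1 x hx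
      omega
    refine ⟨hτb, ?_, fun x _ => notMem_empty _, ?_, ?_, ?_⟩
    · intro x hx y hy hxy
      change x / m = y / m at hxy
      have hm0 := he.m_pos
      obtain ⟨i, hi⟩ := (s1 x (mem_coe.1 hx)).1
      obtain ⟨j, hj⟩ := (s1 y (mem_coe.1 hy)).1
      have e1 := Nat.div_add_mod x m
      have e2 := Nat.div_add_mod y m
      have e3 := Nat.mod_lt x (by omega : m > 0)
      have e4 := Nat.mod_lt y (by omega : m > 0)
      rw [hxy] at e1
      rcases lt_trichotomy i j with h3 | h3 | h3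
      · have h4 : 200 * k * (i + 1) ≤ 200 * k * j := Nat.mul_le_mul_left _ h3
        rw [mul_add, mul_one] at h4
        omega
      · rw [hi, hj, h3]
      · have h4 : 200 * k * (j + 1) ≤ 200 * k * i := Nat.mul_le_mul_left _ h3
        rw [mul_add, mul_one] at h4
        omega
    · rw [disjoint_left]
      intro y hy hyR
      obtain ⟨x, hx, -, h4⟩ := mem_ES.1 hy
      refine disjoint_left.1 sys.DG_R hx (mem_union_right _ ?_)
      exact g2 x (hτb x hx) (s1 x hx).2.2 (h4 ▸ hyR)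
    · rw [disjoint_left]
      intro y hy hyZ
      obtain ⟨x, hx, h3, h4⟩ := mem_ES.1 hy
      rw [← h4] at hyZ
      rcases mem_union.1 hyZ with h5 | h5
      · exact hZn x hx h3 0 (by norm_num) h5
      · exact hZn x hx h3 1 (by norm_num) h5
    · rw [disjoint_left]
      intro y hy hyD
      obtain ⟨x, hx, h3, h4⟩ := mem_ES.1 hy
      have h5 := hpar x hx
      have h6 := hpar y hyD
      have h7 := he.par (x / m)
      have h8 := he.le (x / m)
      have h9 := hτb x hx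
      unfold eE at h4
      omega

end SSB
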