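import Pool.Agent.Lib.MP_8a819d_co.AT.AfE
import Pool.Agent.Lib.MP_8a819d_co.AT.EsA

/-!
# MP_8a819d_co: absorbers with shadows, 3. Gadgets with separated labels

The gadget of `BD/G1.lean` (same labels `s - c, s + c, s, 3s, 3s + 2c, s - 2c, m0, m1, m2` and units `2s + c, p0, p1, p2, c`); now the units are larger than `τ`
and no label is at a distance `≤ τ` below a unit. The numbers `c` and `s` are chosen with `affine_far` (15 forms: the 13 forms of `BD/G1.lean`, `c` and `0`). The pairs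
`(p_i, m_i)` are exempt: `m_i > p_i`.
-/

set_option autoImplicit false

namespace SSB

open Finset

/-- the labels `0, ..., 8`, the units `9, ..., 12`, the unit `c` and the number `0` -/
private def gE_x (w0 w1 w2 s c : ℕ) : Fin 15 → ℕ :=
  ![s - c, s + c, s, 3 * s, 3 * s + 2 * c, s - 2 * c, (w0 + 3 * s) / 2, (w1 + (3 * s + 2 * c)) / 2,
    (w2 + (s - 2 * c)) / 2, 2 * s + c, dd w0 (3 * s) / 2, dd w1 (3 * s + 2 * c) / 2,
    dd w2 (s - 2 * c) / 2, c, 0]

private def gE_α : Fin 15 → ℤ := ![2, 2, 2, 6, 6, 2, 3, 3, 1, 4, 3, 3, 1, 0, 0]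

private def gE_β (w0 w1 w2 c : ℕ) : Fin 15 → ℤ :=
  ![-2 * c, 2 * c, 0, 0, 4 * c, -4 * c, w0, w1 + 2 * c, w2 - 2 * c, 2 * c, -w0, 2 * c - w1,
    -2 * c - w2, 2 * c, 0]

/-- the pairs (unit, other label), without the pairs `(p_i, m_i)` -/
private def gE_P (i j : Fin 15) : Prop :=
  9 ≤ (i : ℕ) ∧ (i : ℕ) ≤ 13 ∧ i ≠ j ∧ ¬ ((i : ℕ) = 10 ∧ (j : ℕ) = 6) ∧ ¬ ((i : ℕ) = 11 ∧ (j : ℕ) = 7) ∧
    ¬ ((i : ℕ) = 12 ∧ (j : ℕ) = 8)

private theorem gE_abs {a : ℕ} {z : ℤ} (h : z = 2 * a ∨ z = -(2 * a)) : ((2 * a : ℕ) : ℤ) = |z| := by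
  rcases h with h | h
  · rw [h, abs_of_nonneg (by positivity)]
    push_cast
    rfl
  · rw [h, abs_neg, abs_of_nonneg (by positivity)]
    push_cast
    rfl

private theorem gE_val {w0 w1 w2 s c : ℕ} (h1 : w0 % 2 = s % 2) (h2 : w1 % 2 = s % 2)
    (h3 : w2 % 2 = s % 2) (hc : 2 * c ≤ s) (i : Fin 15) :
    ((2 * gE_x w0 w1 w2 s c i : ℕ) : ℤ) = |gE_α i * (s : ℤ) + gE_β w0 w1 w2 c i| := by
  apply gE_abs
  fin_cases i <;>
    simp only [gE_x, gE_α, gE_β, dd, Fin.zero_eta, Fin.mk_one, Fin.reduceFinMk, Matrix.cons_val] <;>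
    omega

private theorem gE_ne {w0 w1 w2 c : ℕ} (h0 : 1 ≤ w0) (h1 : 1 ≤ w1) (h2 : 1 ≤ w2) (hc : 1 ≤ c)
    (hc1 : 2 * c ≠ dd w0 w1) (hc2 : 2 * c ≠ w0 + w1) (i j : Fin 15) (hij : i ≠ j) :
    (gE_α i = gE_α j → gE_β w0 w1 w2 c i ≠ gE_β w0 w1 w2 c j) ∧
      (gE_α i = -gE_α j → gE_β w0 w1 w2 c i ≠ -gE_β w0 w1 w2 c j) := by
  unfold dd at hc1
  fin_cases i <;> fin_cases j <;>
    first
    | exact absurd rfl hij
    | (constructor <;>
       (intro h
        simp only [gE_α, gE_β, Fin.zero_eta, Fin.mk_one, Fin.reduceFinMk, Matrix.cons_val] at h ⊢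
        omega))

private theorem gE_lt {T : ℕ} {z : ℤ} (h : (T : ℤ) < z ∨ z < -(T : ℤ)) : (T : ℤ) < |z| := by
  rcases h with h | h
  · exact lt_of_lt_of_le h (le_abs_self z)
  · have h1 := neg_le_abs z
    omega

private theorem gE_far {w0 w1 w2 c τ : ℕ} (h0 : 1 ≤ w0) (h1 : 1 ≤ w1) (h2 : 1 ≤ w2) (hc : τ < c)
    (hc1 : 2 * c + 2 * τ < dd w0 w1 ∨ dd w0 w1 + 2 * τ < 2 * c)
    (hc2 : 2 * c + 2 * τ < w0 + w1 ∨ w0 + w1 + 2 * τ < 2 * c) (i j : Fin 15)
    (hij : gE_P i j) :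
    (gE_α i = gE_α j → ((2 * τ : ℕ) : ℤ) < |gE_β w0 w1 w2 c i - gE_β w0 w1 w2 c j|) ∧
      (gE_α i = -gE_α j → ((2 * τ : ℕ) : ℤ) < |gE_β w0 w1 w2 c i + gE_β w0 w1 w2 c j|) := by
  unfold dd at hc1
  obtain ⟨e1, e2, e3, e4, e5, e6⟩ := hij
  fin_cases i <;> fin_cases j <;>
    first
    | exact absurd rfl e3
    | (exfalso; simp at e1 e2 e4 e5 e6; done)
    | (constructor <;>
       (intro h
        apply gE_lt
        simp only [gE_α, gE_β, Fin.zero_eta, Fin.mk_one, Fin.reduceFinMk, Matrix.cons_val] at h ⊢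
        omega))

private theorem gE_core (N τ w0 w1 w2 : ℕ) (hN : 10 ^ 6 ≤ N) (hτ : 10 ^ 5 * τ ≤ N) (h0 : 1 ≤ w0)
    (h1 : 1 ≤ w1)
    (h2 : 1 ≤ w2) (h01 : w0 % 2 = w1 % 2) (h02 : w0 % 2 = w2 % 2) (F : Finset ℕ)
    (hF : 1000 * F.card ≤ N) :
    ∃ s c : ℕ, 1 ≤ c ∧ 60 * c ≤ N ∧ N ≤ 10 * s ∧ 5 * s ≤ N ∧ w0 % 2 = s % 2 ∧ c ∉ F ∧
      Function.Injective (gE_x w0 w1 w2 s c) ∧
      (∀ i : Fin 15, (i : ℕ) < 13 → gE_x w0 w1 w2 s c i ∉ F) ∧
      ∀ i j : Fin 15, 9 ≤ (i : ℕ) → (i : ℕ) ≤ 13 → gE_x w0 w1 w2 s c j < gE_x w0 w1 w2 s c i →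
        gE_x w0 w1 w2 s c j + τ < gE_x w0 w1 w2 s c i := by
  -- the choice of `c`
  obtain ⟨B, hB⟩ : ∃ B : Finset ℕ, B = Icc (dd w0 w1 / 2 - (τ + 1)) (dd w0 w1 / 2 + (τ + 1)) ∪
      Icc ((w0 + w1) / 2 - (τ + 1)) ((w0 + w1) / 2 + (τ + 1)) ∪ F := ⟨_, rfl⟩
  have hBc : B.card ≤ 4 * τ + 6 + F.card := by
    rw [hB]
    refine (card_union_le _ _).trans (Nat.add_le_add_right ?_ _)
    refine (card_union_le _ _).trans ?_
    rw [Nat.card_Icc, Nat.card_Icc]
    omega
  obtain ⟨c, hcI, hcB⟩ : ∃ c ∈ Icc (N / 120) (N / 60), c ∉ B := by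
    apply Finset.exists_mem_notMem_of_card_lt_card
    rw [Nat.card_Icc]
    omega
  rw [Finset.mem_Icc] at hcI
  rw [hB, mem_union, mem_union, not_or, not_or, mem_Icc, mem_Icc] at hcB
  obtain ⟨⟨hcB1, hcB2⟩, hcF⟩ := hcB
  have hcτ : τ < c := by omega
  have hc1 : 2 * c + 2 * τ < dd w0 w1 ∨ dd w0 w1 + 2 * τ < 2 * c := by omega
  have hc2 : 2 * c + 2 * τ < w0 + w1 ∨ w0 + w1 + 2 * τ < 2 * c := by omega
  -- the choice of `s`
  have hI : 2 * 15 * F.card + 2 * 15 ^ 2 + 2 * 15 ^ 2 * (2 * (2 * τ) + 1) <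
      ((Icc (N / 20 + 1) (N / 10 - 1)).image (fun k => 2 * k + w0 % 2)).card := by
    rw [Finset.card_image_of_injective _ (fun a b h => by
      have h' : 2 * a + w0 % 2 = 2 * b + w0 % 2 := h
      omega), Nat.card_Icc]
    omega
  obtain ⟨s, hs, hs1, hs2, hs3⟩ := affine_far 2 (2 * τ) gE_α (gE_β w0 w1 w2 c) gE_P
    (gE_ne h0 h1 h2 (by omega) (by omega) (by omega)) (gE_far h0 h1 h2 hcτ hc1 hc2) _ F hI
  rw [Finset.mem_image] at hs
  obtain ⟨m, hm, hms⟩ := hs
  rw [Finset.mem_Icc] at hm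
  have hsc : 2 * c ≤ s := by omega
  have hval := gE_val (w0 := w0) (w1 := w1) (w2 := w2) (s := s) (c := c) (by omega) (by omega)
    (by omega) hsc
  refine ⟨s, c, by omega, by omega, by omega, by omega, by omega, hcF, ?_, ?_, ?_⟩
  · intro i j hij
    by_contra hne
    refine hs2 i j hne ?_
    rw [← hval i, ← hval j, hij]
  · intro i hi h
    refine hs1 i ?_ _ h (hval i)
    fin_cases i <;> simp [gE_α] at hi ⊢
  · intro i j hi1 hi2 hlt
    by_cases hP : gE_P i j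
    · have h3 := hs3 i j hP
      rw [← hval i, ← hval j] at h3
      rcases abs_cases ((((2 * gE_x w0 w1 w2 s c i : ℕ) : ℤ)) -
        ((2 * gE_x w0 w1 w2 s c j : ℕ) : ℤ)) with h4 | h4
      · rw [h4.1] at h3
        push_cast at h3
        omega
      · rw [h4.1] at h3
        push_cast at h3
        omega
    · exfalso
      unfold gE_P at hP
      have hij : i ≠ j := by
        rintro rfl
        exact lt_irrefl _ hlt
      have h5 : ((i : ℕ) = 10 ∧ (j : ℕ) = 6) ∨ ((i : ℕ) = 11 ∧ (j : ℕ) = 7) ∨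
          ((i : ℕ) = 12 ∧ (j : ℕ) = 8) := by
        by_contra hc
        push Not at hc
        exact hP ⟨hi1, hi2, hij, fun h => hc.1 h.1 h.2, fun h => hc.2.1 h.1 h.2,
          fun h => hc.2.2 h.1 h.2⟩
      rcases h5 with ⟨h5, h6⟩ | ⟨h5, h6⟩ | ⟨h5, h6⟩
      · have e1 : i = 10 := Fin.ext h5
        have e2 : j = 6 := Fin.ext h6
        rw [e1, e2] at hlt
        simp only [gE_x, dd, Matrix.cons_val] at hlt
        omega
      · have e1 : i = 11 := Fin.ext h5
        have e2 : j = 7 := Fin.ext h6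
        rw [e1, e2] at hlt
        simp only [gE_x, dd, Matrix.cons_val] at hlt
        omega
      · have e1 : i = 12 := Fin.ext h5
        have e2 : j = 8 := Fin.ext h6
        rw [e1, e2] at hlt
        simp only [gE_x, dd, Matrix.cons_val] at hlt
        omega

/-- the labels `0, ..., 8` and the units `9, ..., 12` -/
private def gE_y (w0 w1 w2 s c : ℕ) : Fin 13 → ℕ :=
  ![s - c, s + c, s, 3 * s, 3 * s + 2 * c, s - 2 * c, (w0 + 3 * s) / 2, (w1 + (3 * s + 2 * c)) / 2,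
    (w2 + (s - 2 * c)) / 2, 2 * s + c, dd w0 (3 * s) / 2, dd w1 (3 * s + 2 * c) / 2,
    dd w2 (s - 2 * c) / 2]

private theorem gE_match {y : Fin 10 → ℕ} (hy : Function.Injective y) (hy0 : ∀ j, y j ≠ 0)
    {u : Fin 5 → ℕ} (hu : Function.Injective u) (a b : Fin 5 → Fin 10) (hab : ∀ j, a j ≠ b j)
    (hdisj : ∀ j j', j ≠ j' → a j ≠ a j' ∧ a j ≠ b j' ∧ b j ≠ a j' ∧ b j ≠ b j')
    (hun : ∀ z, ∃ j, z = a j ∨ z = b j) (hd : ∀ j, dd (y (a j)) (u j) = y (b j) ∨ dd (y (b j)) (u j) = y (a j)) :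
    Matchable 1 (Finset.univ.image (fun j : Fin 5 => (u j, u j))) (Finset.univ.image y) := by
  have h1 : Matchable 1 ((Finset.univ : Finset (Fin 5)).biUnion (fun j => {(u j, u j)}))
      ((Finset.univ : Finset (Fin 5)).biUnion (fun j => {y (a j), y (b j)})) := by
    refine matchable_biUnion _ _ _ ?_ ?_ ?_
    · intro j _
      have q1 : (0 : ℕ) ∉ ({y (a j), y (b j)} : Finset ℕ) := by
        rw [Finset.mem_insert, Finset.mem_singleton]
        rintro (h | h)
        · exact hy0 _ h.symm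
        · exact hy0 _ h.symm
      have q2 : ({y (a j), y (b j)} : Finset ℕ).card = 1 + 1 := by
        rw [Finset.card_pair (hy.ne (hab j))]
      rcases hd j with h | h
      · refine matchable_single ⟨y (a j), ?_, q1, q2⟩
        change ({y (a j), y (b j)} : Finset ℕ) = {y (a j), dd (y (a j)) (u j), dd (y (a j)) (u j)}
        rw [h, Finset.pair_eq_singleton]
      · refine matchable_single ⟨y (b j), ?_, q1, q2⟩
        change ({y (a j), y (b j)} : Finset ℕ) = {y (b j), dd (y (b j)) (u j), dd (y (b j)) (u j)}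
        rw [h, Finset.pair_eq_singleton, Finset.pair_comm]
    · intro i _ j _ hij
      rw [Finset.disjoint_singleton]
      intro h
      exact hij (hu (Prod.ext_iff.mp h).1)
    · intro i _ j _ hij
      obtain ⟨e1, e2, e3, e4⟩ := hdisj i j hij
      rw [Finset.disjoint_insert_left, Finset.disjoint_singleton_left, Finset.mem_insert,
        Finset.mem_singleton, Finset.mem_insert, Finset.mem_singleton]
      refine ⟨?_, ?_⟩
      · rintro (h | h)
        · exact e1 (hy h)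
        · exact e2 (hy h)
      · rintro (h | h)
        · exact e3 (hy h)
        · exact e4 (hy h)
  have e1 : (Finset.univ : Finset (Fin 5)).biUnion (fun j => {(u j, u j)}) =
      Finset.univ.image (fun j : Fin 5 => (u j, u j)) := Finset.biUnion_singleton
  have e2 : (Finset.univ : Finset (Fin 5)).biUnion (fun j => {y (a j), y (b j)}) =
      Finset.univ.image y := by
    ext z
    simp only [Finset.mem_biUnion, Finset.mem_univ, true_and, Finset.mem_insert,
      Finset.mem_singleton, Finset.mem_image]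
    constructor
    · rintro ⟨j, rfl | rfl⟩
      · exact ⟨_, rfl⟩
      · exact ⟨_, rfl⟩
    · rintro ⟨i, rfl⟩
      obtain ⟨j, hj | hj⟩ := hun i
      · exact ⟨j, Or.inl (by rw [hj])⟩
      · exact ⟨j, Or.inr (by rw [hj])⟩
  rw [e1, e2] at h1
  exact h1

theorem gadget1E {N τ : ℕ} (hN : 10 ^ 6 ≤ N) (hτ : 10 ^ 5 * τ ≤ N) (w : Fin 3 → ℕ)
    (hw : ∀ i, w i ∈ Icc 1 N) (hcls : ∀ i j, cls 1 (w i) = cls 1 (w j)) (F : Finset ℕ)
    (hFc : 1000 * F.card ≤ N) (hwF : ∀ i, w i ∈ F) :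
    ∃ (L : Finset ℕ) (D : Finset (ℕ × ℕ)), L ⊆ Icc 1 N ∧ labs D ⊆ Icc 1 N ∧ Disjoint L (labs D) ∧
      Disjoint L F ∧ Disjoint (labs D) F ∧ UnitOK 1 D ∧ D.card = 5 ∧ L.card + 1 = (1 + 1) * 5 ∧
      (∀ i, Matchable 1 D (insert (w i) L)) ∧ Sepd τ L (labs D) := by
  have hcl : ∀ i j, w i % 2 = w j % 2 := by
    intro i j
    have h := hcls i j
    unfold cls at h
    rw [if_pos rfl, if_pos rfl] at h
    exact h
  have hw1 : ∀ i, 1 ≤ w i ∧ w i ≤ N := fun i => Finset.mem_Icc.mp (hw i)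
  obtain ⟨s, c, hc1, hcN, hsN, hsN', hpar, hcF, hinjE, hxE, hsep⟩ := gE_core N τ (w 0) (w 1) (w 2)
    hN hτ (hw1 0).1 (hw1 1).1 (hw1 2).1 (hcl 0 1) (hcl 0 2) F hFc
  have hcast : ∀ i : Fin 13, gE_y (w 0) (w 1) (w 2) s c i =
      gE_x (w 0) (w 1) (w 2) s c (Fin.castLE (by omega) i) := by
    intro i
    fin_cases i <;> rfl
  have hinj : Function.Injective (gE_y (w 0) (w 1) (w 2) s c) := by
    intro a b hab
    rw [hcast, hcast] at hab
    exact Fin.castLE_injective _ (hinjE hab)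
  have hx : ∀ i, gE_y (w 0) (w 1) (w 2) s c i ∉ F ∧ gE_y (w 0) (w 1) (w 2) s c i ≠ c ∧
      gE_y (w 0) (w 1) (w 2) s c i ≠ 0 := by
    intro i
    rw [hcast]
    refine ⟨hxE _ (by rw [Fin.val_castLE]; exact i.2), fun h => ?_, fun h => ?_⟩
    · have h1 : gE_x (w 0) (w 1) (w 2) s c (Fin.castLE (by omega) i) =
          gE_x (w 0) (w 1) (w 2) s c 13 := h
      have h2 := congrArg Fin.val (hinjE h1)
      rw [Fin.val_castLE] at h2
      have h3 := i.2
      change (i : ℕ) = 13 at h2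
      omega
    · have h1 : gE_x (w 0) (w 1) (w 2) s c (Fin.castLE (by omega) i) =
          gE_x (w 0) (w 1) (w 2) s c 14 := h
      have h2 := congrArg Fin.val (hinjE h1)
      rw [Fin.val_castLE] at h2
      have h3 := i.2
      change (i : ℕ) = 14 at h2
      omega
  have b0 := hw1 0
  have b1 := hw1 1
  have b2 := hw1 2
  have p1 := hcl 0 1
  have p2 := hcl 0 2
  have hxN : ∀ i, gE_y (w 0) (w 1) (w 2) s c i ≤ N := by
    intro i
    fin_cases i <;>
      simp only [gE_y, dd, Fin.zero_eta, Fin.mk_one, Fin.reduceFinMk, Matrix.cons_val] <;> omega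
  -- the labels and the units
  let xl : Fin 9 → ℕ := fun j => gE_y (w 0) (w 1) (w 2) s c (Fin.castLE (by omega) j)
  let xu : Fin 4 → ℕ := fun j => gE_y (w 0) (w 1) (w 2) s c (Fin.natAdd 9 j)
  have hxl : Function.Injective xl := fun a b h => Fin.castLE_injective _ (hinj h)
  have hxu : Function.Injective xu := fun a b h => Fin.natAdd_injective 4 9 (hinj h)
  have hlu : ∀ a b, xl a ≠ xu b := by
    intro a b h
    have h1 := hinj h
    have h2 := congrArg Fin.val h1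
    rw [Fin.val_castLE, Fin.val_natAdd] at h2
    omega
  let u : Fin 5 → ℕ := Fin.cons c xu
  have hu : Function.Injective u := by
    refine Fin.cons_injective_iff.mpr ⟨?_, hxu⟩
    rintro ⟨j, hj⟩
    exact (hx _).2.1 hj
  have hlabs : labs (Finset.univ.image (fun j : Fin 5 => (u j, u j))) = Finset.univ.image u := by
    ext z
    rw [mem_labs, Finset.mem_image]
    constructor
    · rintro ⟨d, hd, h⟩
      obtain ⟨j, _, rfl⟩ := Finset.mem_image.mp hd
      exact ⟨j, Finset.mem_univ j, by rcases h with h | h <;> exact h.symm⟩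
    · rintro ⟨j, _, rfl⟩
      exact ⟨(u j, u j), Finset.mem_image_of_mem _ (Finset.mem_univ j), Or.inl rfl⟩
  have huinj : Function.Injective (fun j : Fin 5 => (u j, u j)) := by
    intro a b h
    exact hu (Prod.ext_iff.mp h).1
  have humem : ∀ j, u j ∉ F ∧ 1 ≤ u j ∧ u j ≤ N := by
    intro j
    refine Fin.cases ?_ (fun j => ?_) j
    · exact ⟨hcF, hc1, by
        change c ≤ N
        omega⟩
    · exact ⟨(hx (Fin.natAdd 9 j)).1, Nat.one_le_iff_ne_zero.mpr (hx (Fin.natAdd 9 j)).2.2,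
        hxN (Fin.natAdd 9 j)⟩
  have hlu' : ∀ a j, xl a ≠ u j := by
    intro a j
    refine Fin.cases ?_ (fun j => ?_) j
    · exact (hx _).2.1
    · exact hlu a j
  refine ⟨Finset.univ.image xl, Finset.univ.image (fun j : Fin 5 => (u j, u j)), ?_, ?_, ?_, ?_, ?_,
    ?_, ?_, ?_, ?_, ?_⟩
  · intro z hz
    obtain ⟨j, _, rfl⟩ := Finset.mem_image.mp hz
    exact Finset.mem_Icc.mpr ⟨Nat.one_le_iff_ne_zero.mpr (hx _).2.2, hxN _⟩
  · rw [hlabs]
    intro z hz
    obtain ⟨j, _, rfl⟩ := Finset.mem_image.mp hz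
    exact Finset.mem_Icc.mpr (humem j).2
  · rw [hlabs, Finset.disjoint_left]
    intro z hz hz'
    obtain ⟨a, _, rfl⟩ := Finset.mem_image.mp hz
    obtain ⟨j, _, hj⟩ := Finset.mem_image.mp hz'
    exact hlu' a j hj.symm
  · rw [Finset.disjoint_left]
    intro z hz
    obtain ⟨a, _, rfl⟩ := Finset.mem_image.mp hz
    exact (hx _).1
  · rw [hlabs, Finset.disjoint_left]
    intro z hz
    obtain ⟨j, _, rfl⟩ := Finset.mem_image.mp hz
    exact (humem j).1
  · refine ⟨fun _ d hd => ?_, ?_⟩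
    · obtain ⟨j, _, rfl⟩ := Finset.mem_image.mp hd
      rfl
    · rw [hlabs, Finset.card_image_of_injective _ hu, Finset.card_image_of_injective _ huinj, one_mul]
  · rw [Finset.card_image_of_injective _ huinj, Finset.card_univ, Fintype.card_fin]
  · rw [Finset.card_image_of_injective _ hxl, Finset.card_univ, Fintype.card_fin]
  -- the matchings
  · intro i
    have hy : Function.Injective (Fin.cons (w i) xl : Fin 10 → ℕ) := by
      refine Fin.cons_injective_iff.mpr ⟨?_, hxl⟩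
      rintro ⟨j, hj⟩
      exact (hx _).1 (hj ▸ hwF i)
    have hy0 : ∀ j, (Fin.cons (w i) xl : Fin 10 → ℕ) j ≠ 0 := by
      intro j
      refine Fin.cases ?_ (fun j => ?_) j
      · have := (hw1 i).1
        change w i ≠ 0
        omega
      · exact (hx (Fin.castLE (by omega) j)).2.2
    have himg : insert (w i) (Finset.univ.image xl) =
        Finset.univ.image (Fin.cons (w i) xl : Fin 10 → ℕ) := by
      ext z
      rw [Finset.mem_insert, Finset.mem_image, Finset.mem_image]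
      constructor
      · rintro (rfl | ⟨j, _, rfl⟩)
        · exact ⟨0, Finset.mem_univ _, rfl⟩
        · exact ⟨j.succ, Finset.mem_univ _, rfl⟩
      · rintro ⟨j, _, rfl⟩
        refine Fin.cases ?_ (fun j => ?_) j
        · exact Or.inl rfl
        · exact Or.inr ⟨j, Finset.mem_univ _, rfl⟩
    rw [himg]
    fin_cases i
    · -- port 0
      refine gE_match hy hy0 hu ![1 + 1, 3 + 1, 6 + 1, 7 + 1, 8 + 1] ![2 + 1, 0 + 1, 0, 4 + 1, 5 + 1]
        (by decide) (by decide) (by decide) ?_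
      intro j
      fin_cases j
      · change dd (s + c) c = s ∨ dd s c = (s + c)
        unfold dd
        omega
      · change dd (3 * s) (2 * s + c) = (s - c) ∨ dd (s - c) (2 * s + c) = (3 * s)
        unfold dd
        omega
      · change dd ((w 0 + 3 * s) / 2) (dd (w 0) (3 * s) / 2) = (w 0) ∨ dd (w 0) (dd (w 0) (3 * s) / 2) = ((w 0 + 3 * s) / 2)
        unfold dd
        omega
      · change dd ((w 1 + (3 * s + 2 * c)) / 2) (dd (w 1) (3 * s + 2 * c) / 2) = (3 * s + 2 * c) ∨ dd (3 * s + 2 * c) (dd (w 1) (3 * s + 2 * c) / 2) = ((w 1 + (3 * s + 2 * c)) / 2)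
        unfold dd
        omega
      · change dd ((w 2 + (s - 2 * c)) / 2) (dd (w 2) (s - 2 * c) / 2) = (s - 2 * c) ∨ dd (s - 2 * c) (dd (w 2) (s - 2 * c) / 2) = ((w 2 + (s - 2 * c)) / 2)
        unfold dd
        omega
    · -- port 1
      refine gE_match hy hy0 hu ![2 + 1, 4 + 1, 6 + 1, 7 + 1, 8 + 1] ![0 + 1, 1 + 1, 3 + 1, 0, 5 + 1]
        (by decide) (by decide) (by decide) ?_
      intro j
      fin_cases j
      · change dd s c = (s - c) ∨ dd (s - c) c = s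
        unfold dd
        omega
      · change dd (3 * s + 2 * c) (2 * s + c) = (s + c) ∨ dd (s + c) (2 * s + c) = (3 * s + 2 * c)
        unfold dd
        omega
      · change dd ((w 0 + 3 * s) / 2) (dd (w 0) (3 * s) / 2) = (3 * s) ∨ dd (3 * s) (dd (w 0) (3 * s) / 2) = ((w 0 + 3 * s) / 2)
        unfold dd
        omega
      · change dd ((w 1 + (3 * s + 2 * c)) / 2) (dd (w 1) (3 * s + 2 * c) / 2) = (w 1) ∨ dd (w 1) (dd (w 1) (3 * s + 2 * c) / 2) = ((w 1 + (3 * s + 2 * c)) / 2)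
        unfold dd
        omega
      · change dd ((w 2 + (s - 2 * c)) / 2) (dd (w 2) (s - 2 * c) / 2) = (s - 2 * c) ∨ dd (s - 2 * c) (dd (w 2) (s - 2 * c) / 2) = ((w 2 + (s - 2 * c)) / 2)
        unfold dd
        omega
    · -- port 2
      refine gE_match hy hy0 hu ![0 + 1, 2 + 1, 6 + 1, 7 + 1, 8 + 1] ![5 + 1, 1 + 1, 3 + 1, 4 + 1, 0]
        (by decide) (by decide) (by decide) ?_
      intro j
      fin_cases j
      · change dd (s - c) c = (s - 2 * c) ∨ dd (s - 2 * c) c = (s - c)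
        unfold dd
        omega
      · change dd s (2 * s + c) = (s + c) ∨ dd (s + c) (2 * s + c) = s
        unfold dd
        omega
      · change dd ((w 0 + 3 * s) / 2) (dd (w 0) (3 * s) / 2) = (3 * s) ∨ dd (3 * s) (dd (w 0) (3 * s) / 2) = ((w 0 + 3 * s) / 2)
        unfold dd
        omega
      · change dd ((w 1 + (3 * s + 2 * c)) / 2) (dd (w 1) (3 * s + 2 * c) / 2) = (3 * s + 2 * c) ∨ dd (3 * s + 2 * c) (dd (w 1) (3 * s + 2 * c) / 2) = ((w 1 + (3 * s + 2 * c)) / 2)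
        unfold dd
        omega
      · change dd ((w 2 + (s - 2 * c)) / 2) (dd (w 2) (s - 2 * c) / 2) = (w 2) ∨ dd (w 2) (dd (w 2) (s - 2 * c) / 2) = ((w 2 + (s - 2 * c)) / 2)
        unfold dd
        omega
  -- separation
  · have hxl' : ∀ j : Fin 9, ∃ i : Fin 15, xl j = gE_x (w 0) (w 1) (w 2) s c i := fun j =>
      ⟨_, hcast _⟩
    have hu' : ∀ j : Fin 5, ∃ i : Fin 15, 9 ≤ (i : ℕ) ∧ (i : ℕ) ≤ 13 ∧
        u j = gE_x (w 0) (w 1) (w 2) s c i := by
      intro j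
      refine Fin.cases ?_ (fun j => ?_) j
      · exact ⟨13, by decide, by decide, rfl⟩
      · refine ⟨Fin.castLE (by omega) (Fin.natAdd 9 j : Fin 13), ?_, ?_, ?_⟩
        · rw [Fin.val_castLE, Fin.val_natAdd]
          omega
        · rw [Fin.val_castLE, Fin.val_natAdd]
          omega
        · show xu j = _
          exact hcast (Fin.natAdd 9 j)
    rw [hlabs]
    refine ⟨fun d hd => ?_, fun d hd x hxm hlt => ?_⟩
    · obtain ⟨j, _, rfl⟩ := Finset.mem_image.mp hd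
      obtain ⟨i, hi1, hi2, hi3⟩ := hu' j
      rw [hi3]
      have h1 := hsep i 14 hi1 hi2
      have h2 : gE_x (w 0) (w 1) (w 2) s c 14 = 0 := rfl
      rw [h2] at h1
      have h3 := (humem j).2.1
      rw [hi3] at h3
      have h4 := h1 h3
      omega
    · obtain ⟨j, _, rfl⟩ := Finset.mem_image.mp hd
      obtain ⟨i, hi1, hi2, hi3⟩ := hu' j
      obtain ⟨i', hi'⟩ : ∃ i' : Fin 15, x = gE_x (w 0) (w 1) (w 2) s c i' := by
        rcases Finset.mem_union.1 hxm with h | h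
        · obtain ⟨a, _, rfl⟩ := Finset.mem_image.mp h
          exact hxl' a
        · obtain ⟨a, _, rfl⟩ := Finset.mem_image.mp h
          obtain ⟨i', -, -, h3⟩ := hu' a
          exact ⟨i', h3⟩
      rw [hi3, hi'] at hlt ⊢
      exact hsep i i' hi1 hi2 hlt

end SSB
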