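import Pool.Agent.Lib.MP_8a819d_co.AT.EsA
import Pool.Agent.Lib.MP_8a819d_co.AT.G1E

/-!
# MP_8a819d_co: absorbers with shadows, 3. Robust absorbers from gadgets and the template

The theorem `tmod` of `BD.TMd` (t = 1) with shadows: the gadgets are chosen (`greedyE`) such that the shadows of all the unit
labels are different from all the labels and the slots of all the unit labels are different.
-/

set_option autoImplicit false

namespace SSB

open Finset

/-- enumeration of `Z` by a part of `Fin (2 M)` -/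
private theorem tme_enum {M : ℕ} {Z : Finset ℕ} (hZ : Z.Nonempty) (hc : Z.card ≤ 2 * M) :
    ∃ wz : Fin (2 * M) → ℕ, (∀ b, wz b ∈ Z) ∧ ∀ Z' ⊆ Z, Z'.card = M →
      ∃ Zf : Finset (Fin (2 * M)), Zf.card = M ∧ (∀ b ∈ Zf, wz b ∈ Z') ∧
        ∀ b ∈ Zf, ∀ b' ∈ Zf, wz b = wz b' → b = b' := by
  obtain ⟨z0, hz0⟩ := hZ
  let wz : Fin (2 * M) → ℕ := fun b =>
    if h : (b : ℕ) < Z.card then Z.orderEmbOfFin rfl ⟨b, h⟩ else z0
  have hwz : ∀ (b : Fin (2 * M)) (h : (b : ℕ) < Z.card), wz b = Z.orderEmbOfFin rfl ⟨b, h⟩ := by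
    intro b h
    simp only [wz, h, dif_pos]
  refine ⟨wz, ?_, ?_⟩
  · intro b
    by_cases h : (b : ℕ) < Z.card
    · rw [hwz b h]
      exact Z.orderEmbOfFin_mem rfl _
    · simp only [wz, h]
      exact hz0
  · intro Z' hZ' hM
    have hinj : ∀ b b' : Fin (2 * M), (b : ℕ) < Z.card → (b' : ℕ) < Z.card → wz b = wz b' →
        b = b' := by
      intro b b' hb hb' he
      rw [hwz b hb, hwz b' hb'] at he
      have h2 := (Z.orderEmbOfFin rfl).injective he
      have h3 : (b : ℕ) = (b' : ℕ) := by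
        have := congrArg (fun q : Fin Z.card => (q : ℕ)) h2
        exact this
      exact Fin.ext h3
    refine ⟨univ.filter (fun b => (b : ℕ) < Z.card ∧ wz b ∈ Z'), ?_, ?_, ?_⟩
    · have him : (univ.filter (fun b : Fin (2 * M) => (b : ℕ) < Z.card ∧ wz b ∈ Z')).image wz
          = Z' := by
        ext z
        rw [mem_image]
        constructor
        · rintro ⟨b, hb, rfl⟩
          exact (mem_filter.1 hb).2.2
        · intro hz
          have hzZ := hZ' hz
          have : z ∈ Set.range (Z.orderEmbOfFin (k := Z.card) rfl) := by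
            rw [Finset.range_orderEmbOfFin]
            exact hzZ
          obtain ⟨q, hq⟩ := this
          have hq2 : (q : ℕ) < 2 * M := lt_of_lt_of_le q.2 hc
          have hw : wz ⟨q, hq2⟩ = z := by
            rw [hwz ⟨q, hq2⟩ q.2]
            exact hq
          refine ⟨⟨q, hq2⟩, mem_filter.2 ⟨mem_univ _, q.2, ?_⟩, hw⟩
          rw [hw]
          exact hz
      have hio : Set.InjOn wz
          (univ.filter (fun b : Fin (2 * M) => (b : ℕ) < Z.card ∧ wz b ∈ Z')) := by
        intro b hb b' hb' he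
        have hb1 := (mem_filter.1 (mem_coe.1 hb)).2.1
        have hb1' := (mem_filter.1 (mem_coe.1 hb')).2.1
        exact hinj b b' hb1 hb1' he
      have hcc := card_image_of_injOn hio
      rw [him] at hcc
      exact hcc.symm.trans hM
    · intro b hb
      exact (mem_filter.1 hb).2.2
    · intro b hb b' hb' he
      exact hinj b b' (mem_filter.1 hb).2.1 (mem_filter.1 hb').2.1 he

/-- combinatorial core: the absorber from chosen gadgets -/
private theorem tme_core {t ug M y N : ℕ} {Z F : Finset ℕ} {Y : Fin y → ℕ}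
    (hY : Function.Injective Y) (hYN : ∀ i, Y i ∈ Icc 1 N) (hYF : ∀ i, Y i ∉ F) (hZF : Z ⊆ F)
    {nb : Fin (y + M) → Fin 3 → Fin y ⊕ Fin (2 * M)}
    (hnb : ∀ Zf : Finset (Fin (2 * M)), Zf.card = M →
      ∃ c : Fin (y + M) → Fin 3, Function.Injective (fun x => nb x (c x)) ∧
        ∀ x z, nb x (c x) = Sum.inr z → z ∈ Zf)
    {wz : Fin (2 * M) → ℕ} (hwz : ∀ b, wz b ∈ Z)
    (hwz2 : ∀ Z' ⊆ Z, Z'.card = M →
      ∃ Zf : Finset (Fin (2 * M)), Zf.card = M ∧ (∀ b ∈ Zf, wz b ∈ Z') ∧
        ∀ b ∈ Zf, ∀ b' ∈ Zf, wz b = wz b' → b = b')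
    (L : Fin (y + M) → Finset ℕ) (D : Fin (y + M) → Finset (ℕ × ℕ))
    (hL : ∀ x, L x ⊆ Icc 1 N) (hD : ∀ x, labs (D x) ⊆ Icc 1 N)
    (hLD : ∀ x, Disjoint (L x) (labs (D x))) (hU : ∀ x, UnitOK t (D x))
    (hDc : ∀ x, (D x).card = ug) (hLc : ∀ x, (L x).card + 1 = (t + 1) * ug)
    (hm : ∀ x i, Matchable t (D x) (insert (Sum.elim Y wz (nb x i)) (L x)))
    (hF : ∀ x, Disjoint (L x ∪ labs (D x)) (F ∪ univ.image Y))
    (hdis : ∀ x x', x ≠ x' → Disjoint (L x ∪ labs (D x)) (L x' ∪ labs (D x'))) :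
    ∃ (A : Finset ℕ) (D' : Finset (ℕ × ℕ)), A = univ.image Y ∪ univ.biUnion L ∧
      D' = univ.biUnion D ∧ A ⊆ Icc 1 N ∧ labs D' ⊆ Icc 1 N ∧ Disjoint A (labs D') ∧
      Disjoint A F ∧ Disjoint (labs D') F ∧ UnitOK t D' ∧ A.card ≤ y + (y + M) * ((t + 1) * ug) ∧
      D'.card ≤ (y + M) * ug ∧
      (t + 1) * D'.card = A.card + M ∧ ∀ Z' ⊆ Z, Z'.card = M → Matchable t D' (A ∪ Z') := by
  have dLL : ∀ x x', x ≠ x' → Disjoint (L x) (L x') := fun x x' h =>
    Disjoint.mono subset_union_left subset_union_left (hdis x x' h)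
  have dDD : ∀ x x', x ≠ x' → Disjoint (labs (D x)) (labs (D x')) := fun x x' h =>
    Disjoint.mono subset_union_right subset_union_right (hdis x x' h)
  have dLD : ∀ x x', Disjoint (L x) (labs (D x')) := by
    intro x x'
    by_cases h : x = x'
    · subst h; exact hLD x
    · exact Disjoint.mono subset_union_left subset_union_right (hdis x x' h)
  have dLF : ∀ x, Disjoint (L x) F := fun x =>
    Disjoint.mono subset_union_left subset_union_left (hF x)
  have dLY : ∀ x, Disjoint (L x) (univ.image Y) := fun x =>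
    Disjoint.mono subset_union_left subset_union_right (hF x)
  have dDF : ∀ x, Disjoint (labs (D x)) F := fun x =>
    Disjoint.mono subset_union_right subset_union_left (hF x)
  have dDY : ∀ x, Disjoint (labs (D x)) (univ.image Y) := fun x =>
    Disjoint.mono subset_union_right subset_union_right (hF x)
  have dYF : Disjoint (univ.image Y) F := by
    rw [disjoint_left]
    intro a ha haF
    obtain ⟨i, -, rfl⟩ := mem_image.1 ha
    exact hYF i haF
  have dD : ∀ x x', x ≠ x' → Disjoint (D x) (D x') := fun x x' h => disjoint_of_labs (dDD x x' h)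
  have hDcard : (univ.biUnion D).card = (y + M) * ug := by
    rw [card_biUnion (fun x _ x' _ h => dD x x' h), sum_congr rfl (fun x _ => hDc x)]
    simp
  have hLcard : (univ.biUnion L).card + (y + M) = (y + M) * ((t + 1) * ug) := by
    rw [card_biUnion (fun x _ x' _ h => dLL x x' h)]
    have h1 : ∑ x : Fin (y + M), ((L x).card + 1) = (y + M) * ((t + 1) * ug) := by
      rw [sum_congr rfl (fun x _ => hLc x)]
      simp
    rw [sum_add_distrib] at h1
    simpa using h1
  have hYL : Disjoint (univ.image Y) (univ.biUnion L) := by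
    rw [disjoint_biUnion_right]
    exact fun x _ => (dLY x).symm
  have hYc : (univ.image Y).card = y := by
    rw [card_image_of_injective _ hY]
    simp
  have hAcard : (univ.image Y ∪ univ.biUnion L).card + (y + M) = y + (y + M) * ((t + 1) * ug) := by
    rw [card_union_of_disjoint hYL, hYc, ← hLcard]
    ring
  refine ⟨univ.image Y ∪ univ.biUnion L, univ.biUnion D, rfl, rfl, ?_, ?_, ?_, ?_, ?_, ?_, ?_, ?_, ?_, ?_⟩
  · refine union_subset ?_ ?_
    · intro a ha
      obtain ⟨i, -, rfl⟩ := mem_image.1 ha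
      exact hYN i
    · exact biUnion_subset.2 (fun x _ => hL x)
  · rw [labs_biUnion]
    exact biUnion_subset.2 (fun x _ => hD x)
  · rw [labs_biUnion, disjoint_union_left, disjoint_biUnion_right, disjoint_biUnion_left]
    refine ⟨fun x _ => (dDY x).symm, fun x _ => ?_⟩
    rw [disjoint_biUnion_right]
    exact fun x' _ => dLD x x'
  · rw [disjoint_union_left, disjoint_biUnion_left]
    exact ⟨dYF, fun x _ => dLF x⟩
  · rw [labs_biUnion, disjoint_biUnion_left]
    exact fun x _ => dDF x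
  · exact unitOK_biUnion univ D (fun x _ => hU x) (fun x _ x' _ h => dDD x x' h)
  · omega
  · exact hDcard.le
  · rw [hDcard]
    have : (t + 1) * ((y + M) * ug) = (y + M) * ((t + 1) * ug) := by ring
    rw [this]
    omega
  · intro Z' hZ' hM
    obtain ⟨Zf, hZfc, hZf1, hZf2⟩ := hwz2 Z' hZ' hM
    obtain ⟨c, hc1, hc2⟩ := hnb Zf hZfc
    have hw : ∀ x, Sum.elim Y wz (nb x (c x)) ∈ univ.image Y ∪ Z' := by
      intro x
      rcases h : nb x (c x) with a | b
      · exact mem_union_left _ (mem_image_of_mem Y (mem_univ a))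
      · exact mem_union_right _ (hZf1 b (hc2 x b h))
    have hwi : Function.Injective (fun x => Sum.elim Y wz (nb x (c x))) := by
      intro x x' he
      simp only at he
      apply hc1
      show nb x (c x) = nb x' (c x')
      rcases h : nb x (c x) with a | b <;> rcases h' : nb x' (c x') with a' | b'
      · rw [h, h'] at he
        simp only [Sum.elim_inl] at he
        rw [hY he]
      · rw [h, h'] at he
        simp only [Sum.elim_inl, Sum.elim_inr] at he
        exact absurd (hZF (hwz b')) (he ▸ hYF a)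
      · rw [h, h'] at he
        simp only [Sum.elim_inl, Sum.elim_inr] at he
        exact absurd (hZF (hwz b)) (he.symm ▸ hYF a')
      · rw [h, h'] at he
        simp only [Sum.elim_inr] at he
        rw [hZf2 b (hc2 x b h) b' (hc2 x' b' h') he]
    have hYZ : Disjoint (univ.image Y) Z' := Disjoint.mono_right (hZ'.trans hZF) dYF
    have himg : univ.image (fun x => Sum.elim Y wz (nb x (c x))) = univ.image Y ∪ Z' := by
      apply eq_of_subset_of_card_le
      · intro a ha
        obtain ⟨x, -, rfl⟩ := mem_image.1 ha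
        exact hw x
      · rw [card_union_of_disjoint hYZ, hYc, hM, card_image_of_injective _ hwi]
        simp
    have hAZ : (univ.image Y ∪ univ.biUnion L) ∪ Z' =
        univ.biUnion (fun x => insert (Sum.elim Y wz (nb x (c x))) (L x)) := by
      have h1 : univ.biUnion (fun x => insert (Sum.elim Y wz (nb x (c x))) (L x)) =
          univ.image (fun x => Sum.elim Y wz (nb x (c x))) ∪ univ.biUnion L := by
        ext a
        simp only [mem_biUnion, mem_union, mem_image, mem_insert, mem_univ, true_and]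
        constructor
        · rintro ⟨x, rfl | hx⟩
          · exact Or.inl ⟨x, rfl⟩
          · exact Or.inr ⟨x, hx⟩
        · rintro (⟨x, rfl⟩ | ⟨x, hx⟩)
          · exact ⟨x, Or.inl rfl⟩
          · exact ⟨x, Or.inr hx⟩
      rw [h1, himg]
      ext a
      simp only [mem_union]
      tauto
    rw [hAZ]
    refine matchable_biUnion univ D _ (fun x _ => hm x (c x)) (fun x _ x' _ h => dD x x' h) ?_
    intro x _ x' _ h
    have hne : ∀ x x', Sum.elim Y wz (nb x (c x)) ∉ L x' := by
      intro x x' hx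
      rcases mem_union.1 (hw x) with h1 | h1
      · exact (disjoint_left.1 (dLY x') hx) h1
      · exact (disjoint_left.1 (dLF x') hx) (hZF (hZ' h1))
    rw [disjoint_insert_left, disjoint_insert_right]
    refine ⟨?_, hne x' x, dLL x x' h⟩
    rw [mem_insert]
    rintro (h1 | h1)
    · exact h (hwi h1)
    · exact hne x x' h1


theorem tmodE : ∃ C K : ℕ, 1 ≤ K ∧ ∀ (N m τ : ℕ) (e : ℕ → ℕ), 10 ^ 6 ≤ N → EOK m τ e →
    10 ^ 5 * τ ≤ N → ∀ (σ M : ℕ) (Z F Sl : Finset ℕ), 1 ≤ M → K * (m * M) ≤ N → K * F.card ≤ N →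
    K * (Sl.card * m) ≤ N → Z ⊆ F → Z ⊆ Icc 1 N → (∀ z ∈ Z, cls 1 z = σ) → Z.Nonempty →
    Z.card ≤ 2 * M →
    ∃ (A : Finset ℕ) (D : Finset (ℕ × ℕ)), A ⊆ Icc 1 N ∧ labs D ⊆ Icc 1 N ∧ Disjoint A (labs D) ∧
      Disjoint A F ∧ Disjoint (labs D) F ∧ UnitOK 1 D ∧ A.card ≤ C * M ∧ D.card ≤ C * M ∧
      (1 + 1) * D.card = A.card + M ∧ (∀ Z' ⊆ Z, Z'.card = M → Matchable 1 D (A ∪ Z')) ∧
      EGood m τ e F Sl A (labs D) := by
  obtain ⟨C₀, hC₀⟩ := template3
  refine ⟨C₀ + (C₀ + 1) * ((1 + 1) * 5), 1000 * (4 + 2 * C₀ + 72 * (C₀ + 1)), by omega, ?_⟩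
  intro N m τ e hN he hτ σ M Z F Sl hM hMN hFN hSN hZF hZN hcl hZne hZc
  obtain ⟨y, nb, hy, hnb⟩ := hC₀ M hM
  obtain ⟨wz, hwz, hwz2⟩ := tme_enum hZne hZc
  have hm1 := he.m_pos
  -- sizes
  have hMm : M ≤ m * M := Nat.le_mul_of_pos_left M (by omega)
  have hyM : y + M ≤ (C₀ + 1) * M := by nlinarith
  have hymm : m * (y + M) ≤ (C₀ + 1) * (m * M) := by
    calc m * (y + M) ≤ m * ((C₀ + 1) * M) := Nat.mul_le_mul_left _ hyM
      _ = (C₀ + 1) * (m * M) := by ring
  have hCM : C₀ * M ≤ C₀ * (m * M) := Nat.mul_le_mul_left _ hMm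
  have hyMm : y + M ≤ (C₀ + 1) * (m * M) := hyM.trans (Nat.mul_le_mul_left _ hMm)
  -- all the sizes in one inequality
  have hall : 1000 * (2 * (F.card + y + (y + M) * 24) + Sl.card * m + (m * (y + M)) * 24) ≤ N := by
    have e1 : 2 * (F.card + y + (y + M) * 24) + Sl.card * m + (m * (y + M)) * 24 ≤
        2 * F.card + 2 * C₀ * (m * M) + 72 * ((C₀ + 1) * (m * M)) + Sl.card * m := by
      have := hy
      have h2 : 2 * C₀ * (m * M) = 2 * (C₀ * (m * M)) := by ring
      rw [h2]
      generalize m * (y + M) = q1 at *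
      generalize (C₀ + 1) * (m * M) = q2 at *
      generalize C₀ * (m * M) = q3 at *
      generalize Sl.card * m = q4 at *
      generalize C₀ * M = q5 at *
      omega
    have e2 : (4 + 2 * C₀ + 72 * (C₀ + 1)) * (2 * F.card + 2 * C₀ * (m * M) +
        72 * ((C₀ + 1) * (m * M)) + Sl.card * m) * 1000 ≤ (4 + 2 * C₀ + 72 * (C₀ + 1)) * N := by
      have f1 : 2 * (1000 * (4 + 2 * C₀ + 72 * (C₀ + 1)) * F.card) ≤ 2 * N := Nat.mul_le_mul_left _ hFN
      have f2 : (2 * C₀ + 72 * (C₀ + 1)) * (1000 * (4 + 2 * C₀ + 72 * (C₀ + 1)) * (m * M)) ≤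
          (2 * C₀ + 72 * (C₀ + 1)) * N := Nat.mul_le_mul_left _ hMN
      have f3 := hSN
      calc (4 + 2 * C₀ + 72 * (C₀ + 1)) * (2 * F.card + 2 * C₀ * (m * M) +
            72 * ((C₀ + 1) * (m * M)) + Sl.card * m) * 1000
          = 2 * (1000 * (4 + 2 * C₀ + 72 * (C₀ + 1)) * F.card) +
            (2 * C₀ + 72 * (C₀ + 1)) * (1000 * (4 + 2 * C₀ + 72 * (C₀ + 1)) * (m * M)) +
            1000 * (4 + 2 * C₀ + 72 * (C₀ + 1)) * (Sl.card * m) := by ring
        _ ≤ 2 * N + (2 * C₀ + 72 * (C₀ + 1)) * N + N := by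
            exact add_le_add (add_le_add f1 f2) f3
        _ ≤ (4 + 2 * C₀ + 72 * (C₀ + 1)) * N := by nlinarith
    have e3 : (2 * F.card + 2 * C₀ * (m * M) + 72 * ((C₀ + 1) * (m * M)) + Sl.card * m) * 1000 ≤ N := by
      have h4 : 0 < 4 + 2 * C₀ + 72 * (C₀ + 1) := by omega
      refine Nat.le_of_mul_le_mul_left ?_ h4
      rw [← mul_assoc]
      exact e2
    omega
  have hfr : 2 * (y + F.card + 2) ≤ N := by
    generalize m * (y + M) = q1 at *
    generalize Sl.card * m = q4 at *
    omega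
  obtain ⟨z0, hz0⟩ := hZne
  obtain ⟨Y, hYi, hYp⟩ := fresh (t := 1) (y := y) (σ := σ) (F := F) ⟨z0, hZN hz0, hcl z0 hz0⟩ hfr
  have hYc : (univ.image Y).card ≤ y := by
    refine card_image_le.trans ?_
    simp
  have hport : ∀ q, Sum.elim Y wz q ∈ Icc 1 N ∧ cls 1 (Sum.elim Y wz q) = σ ∧
      Sum.elim Y wz q ∈ F ∪ univ.image Y := by
    intro q
    rcases q with a | q
    · exact ⟨(hYp a).1, (hYp a).2.2, mem_union_right _ (mem_image_of_mem Y (mem_univ a))⟩
    · exact ⟨hZN (hwz q), hcl _ (hwz q), mem_union_left _ (hZF (hwz q))⟩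
  obtain ⟨o, ho1, ho3, -⟩ := greedyE (ι := Fin (y + M)) (Obj := Finset ℕ × Finset (ℕ × ℕ))
    (fun o => o.1 ∪ labs o.2 ∪ ES e m (labs o.2)) (fun o => (labs o.2).image (fun x => x / m))
    (fun x o => o.1 ⊆ Icc 1 N ∧ labs o.2 ⊆ Icc 1 N ∧ Disjoint o.1 (labs o.2) ∧ UnitOK 1 o.2 ∧
      o.2.card = 5 ∧ o.1.card + 1 = (1 + 1) * 5 ∧
      (∀ i, Matchable 1 o.2 (insert (Sum.elim Y wz (nb x i)) o.1)) ∧
      Disjoint (o.1 ∪ labs o.2) (F ∪ univ.image Y) ∧
      EGood m τ e (F ∪ univ.image Y) Sl o.1 (labs o.2)) 24 univ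
    (by
      intro x _ F' Sl' hF'c hSl'c
      have e2 : (univ : Finset (Fin (y + M))).card = y + M := by simp
      rw [e2] at hF'c hSl'c
      obtain ⟨G, hG1, hG2, hG3⟩ := bad_card he N (F ∪ univ.image Y ∪ F') (Sl ∪ Sl')
      have hGc : 1000 * G.card ≤ N := by
        have k1 := card_union_le (F ∪ univ.image Y) F'
        have k2 := card_union_le F (univ.image Y)
        have k3 := card_union_le Sl Sl'
        have k4 : (Sl ∪ Sl').card * m ≤ Sl.card * m + (m * (y + M)) * 24 := by
          calc (Sl ∪ Sl').card * m ≤ (Sl.card + (y + M) * 24) * m :=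
                Nat.mul_le_mul_right _ (k3.trans (Nat.add_le_add_left hSl'c _))
            _ = Sl.card * m + (m * (y + M)) * 24 := by ring
        generalize m * (y + M) = q1 at *
        generalize Sl.card * m = q4 at *
        generalize (Sl ∪ Sl').card * m = q5 at *
        omega
      obtain ⟨L, D, h1, h2, h3, h4, h5, h6, h7, h8, h9, h10⟩ := gadget1E hN hτ
        (fun i => Sum.elim Y wz (nb x i)) (fun i => (hport _).1)
        (fun i j => by rw [(hport (nb x i)).2.1, (hport (nb x j)).2.1]) G hGc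
        (fun i => hG1 (mem_union_left _ (hport _).2.2))
      have hEG : EGood m τ e (F ∪ univ.image Y ∪ F') (Sl ∪ Sl') L (labs D) :=
        sepd_good he hG3 h2 h5 h10
      have h4' : Disjoint L (F ∪ univ.image Y ∪ F') := disjoint_of_subset_right hG1 h4
      have h5' : Disjoint (labs D) (F ∪ univ.image Y ∪ F') := disjoint_of_subset_right hG1 h5
      refine ⟨(L, D), ⟨h1, h2, h3, h6, h7, h8, h9, ?_, ?_⟩, ?_, ?_, ?_⟩
      · exact disjoint_union_left.2 ⟨disjoint_of_subset_right subset_union_left h4',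
          disjoint_of_subset_right subset_union_left h5'⟩
      · exact ⟨hEG.big, hEG.slot, fun z hz hzS => hEG.slF z hz (mem_union_left _ hzS),
          disjoint_of_subset_right subset_union_left hEG.eF, hEG.eA, hEG.eD⟩
      · refine disjoint_union_left.2 ⟨disjoint_union_left.2
          ⟨disjoint_of_subset_right subset_union_right h4',
            disjoint_of_subset_right subset_union_right h5'⟩,
          disjoint_of_subset_right subset_union_right hEG.eF⟩
      · rw [disjoint_left]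
        intro z hz hzS
        obtain ⟨d, hd, rfl⟩ := mem_image.1 hz
        exact hEG.slF d hd (mem_union_right _ hzS)
      · have c1 : (labs D).card = D.card := by
          have h := h6.2
          rwa [one_mul] at h
        have c2 := card_union_le L (labs D)
        have c3 := card_union_le (L ∪ labs D) (ES e m (labs D))
        have c4 := ES_card (e := e) (m := m) (labs D)
        have c5 : ((labs D).image (fun x => x / m)).card ≤ (labs D).card := card_image_le
        show (L ∪ labs D ∪ ES e m (labs D)).card + ((labs D).image (fun x => x / m)).card ≤ 24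
        omega)
  obtain ⟨A, D, gA, gD, g1, g2, g3, g4, g5, g6, g7, g8, g9, g10⟩ := tme_core (t := 1) (ug := 5) (N := N)
    (Z := Z) (F := F) hYi (fun i => (hYp i).1) (fun i => (hYp i).2.1) hZF hnb hwz hwz2
    (fun x => (o x).1) (fun x => (o x).2)
    (fun x => (ho1 x (mem_univ x)).1) (fun x => (ho1 x (mem_univ x)).2.1)
    (fun x => (ho1 x (mem_univ x)).2.2.1) (fun x => (ho1 x (mem_univ x)).2.2.2.1)
    (fun x => (ho1 x (mem_univ x)).2.2.2.2.1) (fun x => (ho1 x (mem_univ x)).2.2.2.2.2.1)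
    (fun x => (ho1 x (mem_univ x)).2.2.2.2.2.2.1)
    (fun x => (ho1 x (mem_univ x)).2.2.2.2.2.2.2.1)
    (fun x x' h => Disjoint.mono subset_union_left subset_union_left
      (ho3 x (mem_univ x) x' (mem_univ x') h).1)
  have hE : ∀ x, EGood m τ e (F ∪ univ.image Y) Sl (o x).1 (labs (o x).2) := fun x =>
    (ho1 x (mem_univ x)).2.2.2.2.2.2.2.2
  have hdis : ∀ x x', x ≠ x' → Disjoint (ES e m (labs (o x).2)) ((o x').1 ∪ labs (o x').2) :=
    fun x x' h => Disjoint.mono subset_union_right subset_union_left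
      (ho3 x (mem_univ x) x' (mem_univ x') h).1
  refine ⟨A, D, g1, g2, g3, g4, g5, g6, ?_, ?_, g9, g10, ?_⟩
  · refine g7.trans ?_
    have e1 : (y + M) * ((1 + 1) * 5) ≤ (C₀ + 1) * M * ((1 + 1) * 5) :=
      Nat.mul_le_mul_right _ hyM
    have e2 : (C₀ + (C₀ + 1) * ((1 + 1) * 5)) * M = C₀ * M + (C₀ + 1) * M * ((1 + 1) * 5) := by
      ring
    omega
  · refine g8.trans ?_
    have e1 : (y + M) * 5 ≤ (C₀ + 1) * M * 5 :=
      Nat.mul_le_mul_right _ hyM
    have e2 : (C₀ + 1) * M * 5 ≤ (C₀ + 1) * M * ((1 + 1) * 5) := by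
      apply Nat.mul_le_mul_left
      norm_num
    have e3 : (C₀ + (C₀ + 1) * ((1 + 1) * 5)) * M = C₀ * M + (C₀ + 1) * M * ((1 + 1) * 5) := by
      ring
    omega
  · have hlab : labs D = univ.biUnion (fun x => labs (o x).2) := by
      rw [gD, labs_biUnion]
    rw [hlab, gA]
    refine ⟨?_, ?_, ?_, ?_, ?_, ?_⟩
    · intro z hz
      obtain ⟨x, -, hz⟩ := mem_biUnion.1 hz
      exact (hE x).big z hz
    · intro z hz z' hz' hzz
      obtain ⟨x, -, hz⟩ := mem_biUnion.1 (mem_coe.1 hz)
      obtain ⟨x', -, hz'⟩ := mem_biUnion.1 (mem_coe.1 hz')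
      by_cases h : x = x'
      · subst h
        exact (hE x).slot (mem_coe.2 hz) (mem_coe.2 hz') hzz
      · have h2 := (ho3 x (mem_univ x) x' (mem_univ x') h).2
        change z / m = z' / m at hzz
        refine absurd (mem_image.2 ⟨z', hz', hzz.symm⟩) (disjoint_left.1 h2 (mem_image.2 ⟨z, hz, rfl⟩))
    · intro z hz
      obtain ⟨x, -, hz⟩ := mem_biUnion.1 hz
      exact (hE x).slF z hz
    · rw [ES_biUnion, disjoint_biUnion_left]
      exact fun x _ => disjoint_of_subset_right subset_union_left (hE x).eF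
    · rw [ES_biUnion, disjoint_biUnion_left]
      intro x _
      rw [disjoint_union_right, disjoint_biUnion_right]
      refine ⟨disjoint_of_subset_right subset_union_right (hE x).eF, fun x' _ => ?_⟩
      by_cases h : x = x'
      · subst h
        exact (hE x).eA
      · exact disjoint_of_subset_right subset_union_left (hdis x x' h)
    · rw [ES_biUnion, disjoint_biUnion_left]
      intro x _
      rw [disjoint_biUnion_right]
      intro x' _
      by_cases h : x = x'
      · subst h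
        exact (hE x).eD
      · exact disjoint_of_subset_right subset_union_right (hdis x x' h)

end SSB
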