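import Pool.Agent.Lib.MP_8a819d_co.BD.Ab
import Pool.Agent.Lib.MP_8a819d_co.AT.SyK
import Pool.Agent.Lib.MP_8a819d_co.AT.TME

/-!
# MP_8a819d_co: absorbers with shadows, 4. The absorber theorem for t = 1, the combinatorial part

This is the first part of `BD.Ab` (the configuration and the matching) for a set `T` of tiny labels which is not the set of all
the tiny labels.
-/

set_option autoImplicit false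

namespace SSB

open Finset

/-- the construction for `t = 1` -/
structure abECfg (N : ℕ) (R T AT : Finset ℕ) (DT DG : Finset (ℕ × ℕ)) (Z1 : ℕ → Finset ℕ)
    (π : ℕ → ℕ × ℕ → Finset ℕ) (P A' : ℕ → Finset ℕ) (D' : ℕ → Finset (ℕ × ℕ)) (z1 h M : ℕ)
    (ζ β ε : ℝ) : Prop where
  sys : Sys 1 2 N R DG Z1 z1 ζ β ε
  T_sub : T ⊆ Icc 1 N
  DT_m : Matchable 1 DT (T ∪ AT)
  DT_ok : UnitOK 1 DT
  AT_card : AT.card = T.card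
  AT_sub : AT ⊆ Icc 1 N
  DT_sub : labs DT ⊆ Icc 1 N
  π_blk : ∀ σ < 2, ∀ d ∈ DG, IsBlock 1 d (π σ d)
  π_dis : ∀ σ < 2, ∀ d ∈ DG, ∀ d' ∈ DG, d ≠ d' → Disjoint (π σ d) (π σ d')
  π_cls : ∀ σ < 2, ∀ d ∈ DG, ∀ x ∈ π σ d, cls 1 x = σ
  P_eq : ∀ σ < 2, P σ = DG.biUnion (π σ)
  P_sub : ∀ σ < 2, P σ ⊆ Icc 1 N
  A_sub : ∀ σ < 2, A' σ ⊆ Icc 1 N
  D_sub : ∀ σ < 2, labs (D' σ) ⊆ Icc 1 N
  D_ok : ∀ σ < 2, UnitOK 1 (D' σ)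
  D_card : ∀ σ < 2, 2 * (D' σ).card = (A' σ).card + M
  D_m : ∀ σ < 2, ∀ Z' ⊆ Z1 σ ∪ P σ, Z'.card = M → Matchable 1 (D' σ) (A' σ ∪ Z')
  M_eq : M = DG.card + z1 + h
  h_ge : β * N ≤ h
  h_le : 3 * h ≤ DG.card
  h_le' : 4 * (h : ℝ) ≤ 8 * β * N
  c1 : Disjoint (T) (R)
  c2 : Disjoint (labs DG) (R ∪ T)
  c3 : Disjoint (Z1 0) (R ∪ T ∪ labs DG)
  c4 : Disjoint (Z1 1) (R ∪ T ∪ labs DG ∪ Z1 0)
  c5 : Disjoint (AT) (R ∪ T ∪ labs DG ∪ Z1 0 ∪ Z1 1)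
  c6 : Disjoint (labs DT) (R ∪ T ∪ labs DG ∪ Z1 0 ∪ Z1 1 ∪ AT)
  c7 : Disjoint (P 0) (R ∪ T ∪ labs DG ∪ Z1 0 ∪ Z1 1 ∪ AT ∪ labs DT)
  c8 : Disjoint (P 1) (R ∪ T ∪ labs DG ∪ Z1 0 ∪ Z1 1 ∪ AT ∪ labs DT ∪ P 0)
  c9 : Disjoint (A' 0) (R ∪ T ∪ labs DG ∪ Z1 0 ∪ Z1 1 ∪ AT ∪ labs DT ∪ P 0 ∪ P 1)
  c10 : Disjoint (labs (D' 0)) (R ∪ T ∪ labs DG ∪ Z1 0 ∪ Z1 1 ∪ AT ∪ labs DT ∪ P 0 ∪ P 1 ∪ A' 0)
  c11 : Disjoint (A' 1) (R ∪ T ∪ labs DG ∪ Z1 0 ∪ Z1 1 ∪ AT ∪ labs DT ∪ P 0 ∪ P 1 ∪ A' 0 ∪ labs (D' 0))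
  c12 : Disjoint (labs (D' 1)) (R ∪ T ∪ labs DG ∪ Z1 0 ∪ Z1 1 ∪ AT ∪ labs DT ∪ P 0 ∪ P 1 ∪ A' 0 ∪ labs (D' 0) ∪ A' 1)

/-- all the labels of the absorber -/
def abE_A (T AT : Finset ℕ) (Z1 P A' : ℕ → Finset ℕ) : Finset ℕ :=
  T ∪ AT ∪ (Z1 0 ∪ P 0) ∪ (Z1 1 ∪ P 1) ∪ A' 0 ∪ A' 1

/-- all the units of the absorber -/
def abE_D (DT DG : Finset (ℕ × ℕ)) (D' : ℕ → Finset (ℕ × ℕ)) : Finset (ℕ × ℕ) :=
  DT ∪ DG ∪ D' 0 ∪ D' 1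

theorem abE_cls (x : ℕ) : cls 1 x = x % 2 := if_pos rfl

theorem abE_par {X : Finset ℕ} {σ : ℕ} (h : ∀ x ∈ X, cls 1 x = σ) :
    (∑ x ∈ X, x) % 2 = (σ * X.card) % 2 := by
  rw [Finset.sum_nat_mod]
  have h1 : ∑ x ∈ X, x % 2 = X.card * σ := by
    rw [sum_congr rfl (fun x hx => (abE_cls x).symm.trans (h x hx)), sum_const, smul_eq_mul]
  rw [h1, mul_comm]

section abE

variable {N : ℕ} {R T AT : Finset ℕ} {DT DG : Finset (ℕ × ℕ)} {Z1 : ℕ → Finset ℕ}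
  {π : ℕ → ℕ × ℕ → Finset ℕ} {P A' : ℕ → Finset ℕ} {D' : ℕ → Finset (ℕ × ℕ)} {z1 h M : ℕ}
  {ζ β ε : ℝ}

theorem abE_sing (E : Finset (ℕ × ℕ)) : E.biUnion (fun d => {d}) = E := by
  ext d
  simp

theorem abE_E (c : abECfg N R T AT DT DG Z1 π P A' D' z1 h M ζ β ε) {σ : ℕ} (hσ : σ < 2)
    {E : Finset (ℕ × ℕ)} (hE : E ⊆ DG) : Matchable 1 E (E.biUnion (π σ)) ∧
      (E.biUnion (π σ)).card = 2 * E.card ∧ E.biUnion (π σ) ⊆ P σ := by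
  have h1 : Matchable 1 (E.biUnion (fun d => {d})) (E.biUnion (π σ)) := by
    refine matchable_biUnion E _ _ (fun d hd => matchable_single (c.π_blk σ hσ d (hE hd))) ?_ ?_
    · intro d _ d' _ hne
      exact disjoint_singleton.2 hne
    · intro d hd d' hd' hne
      exact c.π_dis σ hσ d (hE hd) d' (hE hd') hne
  rw [abE_sing] at h1
  refine ⟨h1, block_card h1, ?_⟩
  rw [c.P_eq σ hσ]
  exact biUnion_subset_biUnion_of_subset_left _ hE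

theorem abE_P (c : abECfg N R T AT DT DG Z1 π P A' D' z1 h M ζ β ε) {σ : ℕ} (hσ : σ < 2) :
    (P σ).card = 2 * DG.card ∧ ∀ x ∈ P σ, cls 1 x = σ := by
  have h1 := abE_E c hσ (Subset.refl DG)
  rw [← c.P_eq σ hσ] at h1
  refine ⟨h1.2.1, fun x hx => ?_⟩
  rw [c.P_eq σ hσ] at hx
  obtain ⟨d, hd, hx⟩ := mem_biUnion.1 hx
  exact c.π_cls σ hσ d hd x hx

/-- the cardinality of the set of labels -/
theorem abE_cardA (c : abECfg N R T AT DT DG Z1 π P A' D' z1 h M ζ β ε) :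
    (abE_A T AT Z1 P A').card = T.card + AT.card + (z1 + 2 * DG.card) + (z1 + 2 * DG.card) +
      (A' 0).card + (A' 1).card := by
  have d_T_R := c.c1
  have cc2 := c.c2
  simp only [disjoint_union_right] at cc2
  obtain ⟨d_LG_R, d_LG_T⟩ := cc2
  have cc3 := c.c3
  simp only [disjoint_union_right] at cc3
  obtain ⟨⟨d_Z0_R, d_Z0_T⟩, d_Z0_LG⟩ := cc3
  have cc4 := c.c4
  simp only [disjoint_union_right] at cc4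
  obtain ⟨⟨⟨d_Z1_R, d_Z1_T⟩, d_Z1_LG⟩, d_Z1_Z0⟩ := cc4
  have cc5 := c.c5
  simp only [disjoint_union_right] at cc5
  obtain ⟨⟨⟨⟨d_AT_R, d_AT_T⟩, d_AT_LG⟩, d_AT_Z0⟩, d_AT_Z1⟩ := cc5
  have cc6 := c.c6
  simp only [disjoint_union_right] at cc6
  obtain ⟨⟨⟨⟨⟨d_LT_R, d_LT_T⟩, d_LT_LG⟩, d_LT_Z0⟩, d_LT_Z1⟩, d_LT_AT⟩ := cc6
  have cc7 := c.c7
  simp only [disjoint_union_right] at cc7
  obtain ⟨⟨⟨⟨⟨⟨d_P0_R, d_P0_T⟩, d_P0_LG⟩, d_P0_Z0⟩, d_P0_Z1⟩, d_P0_AT⟩, d_P0_LT⟩ := cc7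
  have cc8 := c.c8
  simp only [disjoint_union_right] at cc8
  obtain ⟨⟨⟨⟨⟨⟨⟨d_P1_R, d_P1_T⟩, d_P1_LG⟩, d_P1_Z0⟩, d_P1_Z1⟩, d_P1_AT⟩, d_P1_LT⟩, d_P1_P0⟩ := cc8
  have cc9 := c.c9
  simp only [disjoint_union_right] at cc9
  obtain ⟨⟨⟨⟨⟨⟨⟨⟨d_A0_R, d_A0_T⟩, d_A0_LG⟩, d_A0_Z0⟩, d_A0_Z1⟩, d_A0_AT⟩, d_A0_LT⟩, d_A0_P0⟩, d_A0_P1⟩ := cc9
  have cc10 := c.c10
  simp only [disjoint_union_right] at cc10
  obtain ⟨⟨⟨⟨⟨⟨⟨⟨⟨d_L0_R, d_L0_T⟩, d_L0_LG⟩, d_L0_Z0⟩, d_L0_Z1⟩, d_L0_AT⟩, d_L0_LT⟩, d_L0_P0⟩, d_L0_P1⟩, d_L0_A0⟩ := cc10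
  have cc11 := c.c11
  simp only [disjoint_union_right] at cc11
  obtain ⟨⟨⟨⟨⟨⟨⟨⟨⟨⟨d_A1_R, d_A1_T⟩, d_A1_LG⟩, d_A1_Z0⟩, d_A1_Z1⟩, d_A1_AT⟩, d_A1_LT⟩, d_A1_P0⟩, d_A1_P1⟩, d_A1_A0⟩, d_A1_L0⟩ := cc11
  have cc12 := c.c12
  simp only [disjoint_union_right] at cc12
  obtain ⟨⟨⟨⟨⟨⟨⟨⟨⟨⟨⟨d_L1_R, d_L1_T⟩, d_L1_LG⟩, d_L1_Z0⟩, d_L1_Z1⟩, d_L1_AT⟩, d_L1_LT⟩, d_L1_P0⟩, d_L1_P1⟩, d_L1_A0⟩, d_L1_L0⟩, d_L1_A1⟩ := cc12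
  unfold abE_A
  rw [card_union_of_disjoint (disjoint_union_left.2 ⟨(disjoint_union_left.2 ⟨(disjoint_union_left.2 ⟨(disjoint_union_left.2 ⟨d_A1_T.symm, d_A1_AT.symm⟩), (disjoint_union_left.2 ⟨d_A1_Z0.symm, d_A1_P0.symm⟩)⟩), (disjoint_union_left.2 ⟨d_A1_Z1.symm, d_A1_P1.symm⟩)⟩), d_A1_A0.symm⟩),
    card_union_of_disjoint (disjoint_union_left.2 ⟨(disjoint_union_left.2 ⟨(disjoint_union_left.2 ⟨d_A0_T.symm, d_A0_AT.symm⟩), (disjoint_union_left.2 ⟨d_A0_Z0.symm, d_A0_P0.symm⟩)⟩), (disjoint_union_left.2 ⟨d_A0_Z1.symm, d_A0_P1.symm⟩)⟩),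
    card_union_of_disjoint (disjoint_union_left.2 ⟨(disjoint_union_left.2 ⟨(disjoint_union_right.2 ⟨d_Z1_T.symm, d_P1_T.symm⟩), (disjoint_union_right.2 ⟨d_AT_Z1, d_P1_AT.symm⟩)⟩), (disjoint_union_left.2 ⟨(disjoint_union_right.2 ⟨d_Z1_Z0.symm, d_P1_Z0.symm⟩), (disjoint_union_right.2 ⟨d_P0_Z1, d_P1_P0.symm⟩)⟩)⟩),
    card_union_of_disjoint (disjoint_union_left.2 ⟨(disjoint_union_right.2 ⟨d_Z0_T.symm, d_P0_T.symm⟩), (disjoint_union_right.2 ⟨d_AT_Z0, d_P0_AT.symm⟩)⟩),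
    card_union_of_disjoint d_AT_T.symm,
    card_union_of_disjoint d_P0_Z0.symm,
    card_union_of_disjoint d_P1_Z1.symm,
    (abE_P c (σ := 0) (by norm_num)).1, (abE_P c (σ := 1) (by norm_num)).1,
    c.sys.Z1_card 0 (by norm_num), c.sys.Z1_card 1 (by norm_num)]

theorem abE_disD (c : abECfg N R T AT DT DG Z1 π P A' D' z1 h M ζ β ε) :
    Disjoint DT DG ∧ Disjoint (DT ∪ DG) (D' 0) ∧ Disjoint (DT ∪ DG ∪ D' 0) (D' 1) ∧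
    Disjoint DT (D' 0) ∧ Disjoint DT (D' 1) ∧ Disjoint DG (D' 0) ∧ Disjoint DG (D' 1) ∧
    Disjoint (D' 0) (D' 1) := by
  have d_T_R := c.c1
  have cc2 := c.c2
  simp only [disjoint_union_right] at cc2
  obtain ⟨d_LG_R, d_LG_T⟩ := cc2
  have cc3 := c.c3
  simp only [disjoint_union_right] at cc3
  obtain ⟨⟨d_Z0_R, d_Z0_T⟩, d_Z0_LG⟩ := cc3
  have cc4 := c.c4
  simp only [disjoint_union_right] at cc4
  obtain ⟨⟨⟨d_Z1_R, d_Z1_T⟩, d_Z1_LG⟩, d_Z1_Z0⟩ := cc4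
  have cc5 := c.c5
  simp only [disjoint_union_right] at cc5
  obtain ⟨⟨⟨⟨d_AT_R, d_AT_T⟩, d_AT_LG⟩, d_AT_Z0⟩, d_AT_Z1⟩ := cc5
  have cc6 := c.c6
  simp only [disjoint_union_right] at cc6
  obtain ⟨⟨⟨⟨⟨d_LT_R, d_LT_T⟩, d_LT_LG⟩, d_LT_Z0⟩, d_LT_Z1⟩, d_LT_AT⟩ := cc6
  have cc7 := c.c7
  simp only [disjoint_union_right] at cc7
  obtain ⟨⟨⟨⟨⟨⟨d_P0_R, d_P0_T⟩, d_P0_LG⟩, d_P0_Z0⟩, d_P0_Z1⟩, d_P0_AT⟩, d_P0_LT⟩ := cc7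
  have cc8 := c.c8
  simp only [disjoint_union_right] at cc8
  obtain ⟨⟨⟨⟨⟨⟨⟨d_P1_R, d_P1_T⟩, d_P1_LG⟩, d_P1_Z0⟩, d_P1_Z1⟩, d_P1_AT⟩, d_P1_LT⟩, d_P1_P0⟩ := cc8
  have cc9 := c.c9
  simp only [disjoint_union_right] at cc9
  obtain ⟨⟨⟨⟨⟨⟨⟨⟨d_A0_R, d_A0_T⟩, d_A0_LG⟩, d_A0_Z0⟩, d_A0_Z1⟩, d_A0_AT⟩, d_A0_LT⟩, d_A0_P0⟩, d_A0_P1⟩ := cc9
  have cc10 := c.c10
  simp only [disjoint_union_right] at cc10
  obtain ⟨⟨⟨⟨⟨⟨⟨⟨⟨d_L0_R, d_L0_T⟩, d_L0_LG⟩, d_L0_Z0⟩, d_L0_Z1⟩, d_L0_AT⟩, d_L0_LT⟩, d_L0_P0⟩, d_L0_P1⟩, d_L0_A0⟩ := cc10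
  have cc11 := c.c11
  simp only [disjoint_union_right] at cc11
  obtain ⟨⟨⟨⟨⟨⟨⟨⟨⟨⟨d_A1_R, d_A1_T⟩, d_A1_LG⟩, d_A1_Z0⟩, d_A1_Z1⟩, d_A1_AT⟩, d_A1_LT⟩, d_A1_P0⟩, d_A1_P1⟩, d_A1_A0⟩, d_A1_L0⟩ := cc11
  have cc12 := c.c12
  simp only [disjoint_union_right] at cc12
  obtain ⟨⟨⟨⟨⟨⟨⟨⟨⟨⟨⟨d_L1_R, d_L1_T⟩, d_L1_LG⟩, d_L1_Z0⟩, d_L1_Z1⟩, d_L1_AT⟩, d_L1_LT⟩, d_L1_P0⟩, d_L1_P1⟩, d_L1_A0⟩, d_L1_L0⟩, d_L1_A1⟩ := cc12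
  have e1 := disjoint_of_labs d_LT_LG
  have e2 := disjoint_of_labs d_L0_LT.symm
  have e3 := disjoint_of_labs d_L1_LT.symm
  have e4 := disjoint_of_labs d_L0_LG.symm
  have e5 := disjoint_of_labs d_L1_LG.symm
  have e6 := disjoint_of_labs d_L1_L0.symm
  exact ⟨e1, disjoint_union_left.2 ⟨e2, e4⟩, disjoint_union_left.2 ⟨disjoint_union_left.2 ⟨e3, e5⟩, e6⟩,
    e2, e3, e4, e5, e6⟩

theorem abE_cardD (c : abECfg N R T AT DT DG Z1 π P A' D' z1 h M ζ β ε) :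
    (abE_D DT DG D').card = DT.card + DG.card + (D' 0).card + (D' 1).card ∧
    T.card + AT.card = 2 * DT.card := by
  have d_T_R := c.c1
  have cc2 := c.c2
  simp only [disjoint_union_right] at cc2
  obtain ⟨d_LG_R, d_LG_T⟩ := cc2
  have cc3 := c.c3
  simp only [disjoint_union_right] at cc3
  obtain ⟨⟨d_Z0_R, d_Z0_T⟩, d_Z0_LG⟩ := cc3
  have cc4 := c.c4
  simp only [disjoint_union_right] at cc4
  obtain ⟨⟨⟨d_Z1_R, d_Z1_T⟩, d_Z1_LG⟩, d_Z1_Z0⟩ := cc4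
  have cc5 := c.c5
  simp only [disjoint_union_right] at cc5
  obtain ⟨⟨⟨⟨d_AT_R, d_AT_T⟩, d_AT_LG⟩, d_AT_Z0⟩, d_AT_Z1⟩ := cc5
  have cc6 := c.c6
  simp only [disjoint_union_right] at cc6
  obtain ⟨⟨⟨⟨⟨d_LT_R, d_LT_T⟩, d_LT_LG⟩, d_LT_Z0⟩, d_LT_Z1⟩, d_LT_AT⟩ := cc6
  have cc7 := c.c7
  simp only [disjoint_union_right] at cc7
  obtain ⟨⟨⟨⟨⟨⟨d_P0_R, d_P0_T⟩, d_P0_LG⟩, d_P0_Z0⟩, d_P0_Z1⟩, d_P0_AT⟩, d_P0_LT⟩ := cc7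
  have cc8 := c.c8
  simp only [disjoint_union_right] at cc8
  obtain ⟨⟨⟨⟨⟨⟨⟨d_P1_R, d_P1_T⟩, d_P1_LG⟩, d_P1_Z0⟩, d_P1_Z1⟩, d_P1_AT⟩, d_P1_LT⟩, d_P1_P0⟩ := cc8
  have cc9 := c.c9
  simp only [disjoint_union_right] at cc9
  obtain ⟨⟨⟨⟨⟨⟨⟨⟨d_A0_R, d_A0_T⟩, d_A0_LG⟩, d_A0_Z0⟩, d_A0_Z1⟩, d_A0_AT⟩, d_A0_LT⟩, d_A0_P0⟩, d_A0_P1⟩ := cc9
  have cc10 := c.c10
  simp only [disjoint_union_right] at cc10
  obtain ⟨⟨⟨⟨⟨⟨⟨⟨⟨d_L0_R, d_L0_T⟩, d_L0_LG⟩, d_L0_Z0⟩, d_L0_Z1⟩, d_L0_AT⟩, d_L0_LT⟩, d_L0_P0⟩, d_L0_P1⟩, d_L0_A0⟩ := cc10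
  have cc11 := c.c11
  simp only [disjoint_union_right] at cc11
  obtain ⟨⟨⟨⟨⟨⟨⟨⟨⟨⟨d_A1_R, d_A1_T⟩, d_A1_LG⟩, d_A1_Z0⟩, d_A1_Z1⟩, d_A1_AT⟩, d_A1_LT⟩, d_A1_P0⟩, d_A1_P1⟩, d_A1_A0⟩, d_A1_L0⟩ := cc11
  have cc12 := c.c12
  simp only [disjoint_union_right] at cc12
  obtain ⟨⟨⟨⟨⟨⟨⟨⟨⟨⟨⟨d_L1_R, d_L1_T⟩, d_L1_LG⟩, d_L1_Z0⟩, d_L1_Z1⟩, d_L1_AT⟩, d_L1_LT⟩, d_L1_P0⟩, d_L1_P1⟩, d_L1_A0⟩, d_L1_L0⟩, d_L1_A1⟩ := cc12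
  obtain ⟨e1, e2, e3, -⟩ := abE_disD c
  refine ⟨?_, ?_⟩
  · unfold abE_D
    rw [card_union_of_disjoint e3, card_union_of_disjoint e2, card_union_of_disjoint e1]
  · have h1 := block_card c.DT_m
    rw [card_union_of_disjoint d_AT_T.symm] at h1
    omega

theorem abE_2card (c : abECfg N R T AT DT DG Z1 π P A' D' z1 h M ζ β ε) :
    2 * (abE_D DT DG D').card = (abE_A T AT Z1 P A').card + 2 * h := by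
  obtain ⟨h1, h2⟩ := abE_cardD c
  have h3 := abE_cardA c
  have h4 := c.D_card 0 (by norm_num)
  have h5 := c.D_card 1 (by norm_num)
  have h6 := c.M_eq
  omega

theorem abE_labs (DT DG : Finset (ℕ × ℕ)) (D' : ℕ → Finset (ℕ × ℕ)) :
    labs (abE_D DT DG D') = labs DT ∪ labs DG ∪ labs (D' 0) ∪ labs (D' 1) := by
  unfold abE_D
  rw [labs_union, labs_union, labs_union]

theorem abE_unit (c : abECfg N R T AT DT DG Z1 π P A' D' z1 h M ζ β ε) :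
    UnitOK 1 (abE_D DT DG D') := by
  have d_T_R := c.c1
  have cc2 := c.c2
  simp only [disjoint_union_right] at cc2
  obtain ⟨d_LG_R, d_LG_T⟩ := cc2
  have cc3 := c.c3
  simp only [disjoint_union_right] at cc3
  obtain ⟨⟨d_Z0_R, d_Z0_T⟩, d_Z0_LG⟩ := cc3
  have cc4 := c.c4
  simp only [disjoint_union_right] at cc4
  obtain ⟨⟨⟨d_Z1_R, d_Z1_T⟩, d_Z1_LG⟩, d_Z1_Z0⟩ := cc4
  have cc5 := c.c5
  simp only [disjoint_union_right] at cc5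
  obtain ⟨⟨⟨⟨d_AT_R, d_AT_T⟩, d_AT_LG⟩, d_AT_Z0⟩, d_AT_Z1⟩ := cc5
  have cc6 := c.c6
  simp only [disjoint_union_right] at cc6
  obtain ⟨⟨⟨⟨⟨d_LT_R, d_LT_T⟩, d_LT_LG⟩, d_LT_Z0⟩, d_LT_Z1⟩, d_LT_AT⟩ := cc6
  have cc7 := c.c7
  simp only [disjoint_union_right] at cc7
  obtain ⟨⟨⟨⟨⟨⟨d_P0_R, d_P0_T⟩, d_P0_LG⟩, d_P0_Z0⟩, d_P0_Z1⟩, d_P0_AT⟩, d_P0_LT⟩ := cc7
  have cc8 := c.c8
  simp only [disjoint_union_right] at cc8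
  obtain ⟨⟨⟨⟨⟨⟨⟨d_P1_R, d_P1_T⟩, d_P1_LG⟩, d_P1_Z0⟩, d_P1_Z1⟩, d_P1_AT⟩, d_P1_LT⟩, d_P1_P0⟩ := cc8
  have cc9 := c.c9
  simp only [disjoint_union_right] at cc9
  obtain ⟨⟨⟨⟨⟨⟨⟨⟨d_A0_R, d_A0_T⟩, d_A0_LG⟩, d_A0_Z0⟩, d_A0_Z1⟩, d_A0_AT⟩, d_A0_LT⟩, d_A0_P0⟩, d_A0_P1⟩ := cc9
  have cc10 := c.c10
  simp only [disjoint_union_right] at cc10
  obtain ⟨⟨⟨⟨⟨⟨⟨⟨⟨d_L0_R, d_L0_T⟩, d_L0_LG⟩, d_L0_Z0⟩, d_L0_Z1⟩, d_L0_AT⟩, d_L0_LT⟩, d_L0_P0⟩, d_L0_P1⟩, d_L0_A0⟩ := cc10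
  have cc11 := c.c11
  simp only [disjoint_union_right] at cc11
  obtain ⟨⟨⟨⟨⟨⟨⟨⟨⟨⟨d_A1_R, d_A1_T⟩, d_A1_LG⟩, d_A1_Z0⟩, d_A1_Z1⟩, d_A1_AT⟩, d_A1_LT⟩, d_A1_P0⟩, d_A1_P1⟩, d_A1_A0⟩, d_A1_L0⟩ := cc11
  have cc12 := c.c12
  simp only [disjoint_union_right] at cc12
  obtain ⟨⟨⟨⟨⟨⟨⟨⟨⟨⟨⟨d_L1_R, d_L1_T⟩, d_L1_LG⟩, d_L1_Z0⟩, d_L1_Z1⟩, d_L1_AT⟩, d_L1_LT⟩, d_L1_P0⟩, d_L1_P1⟩, d_L1_A0⟩, d_L1_L0⟩, d_L1_A1⟩ := cc12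
  unfold abE_D
  refine unitOK_union (unitOK_union (unitOK_union c.DT_ok c.sys.DG_ok ?_) (c.D_ok 0 (by norm_num)) ?_)
    (c.D_ok 1 (by norm_num)) ?_
  · exact d_LT_LG
  · rw [labs_union]
    exact (disjoint_union_left.2 ⟨d_L0_LT.symm, d_L0_LG.symm⟩)
  · rw [labs_union, labs_union]
    exact (disjoint_union_left.2 ⟨(disjoint_union_left.2 ⟨d_L1_LT.symm, d_L1_LG.symm⟩), d_L1_L0.symm⟩)

theorem abE_dis (c : abECfg N R T AT DT DG Z1 π P A' D' z1 h M ζ β ε) :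
    Disjoint (abE_A T AT Z1 P A') (labs (abE_D DT DG D')) ∧ Disjoint (abE_A T AT Z1 P A') R ∧
      Disjoint (labs (abE_D DT DG D')) R := by
  have d_T_R := c.c1
  have cc2 := c.c2
  simp only [disjoint_union_right] at cc2
  obtain ⟨d_LG_R, d_LG_T⟩ := cc2
  have cc3 := c.c3
  simp only [disjoint_union_right] at cc3
  obtain ⟨⟨d_Z0_R, d_Z0_T⟩, d_Z0_LG⟩ := cc3
  have cc4 := c.c4
  simp only [disjoint_union_right] at cc4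
  obtain ⟨⟨⟨d_Z1_R, d_Z1_T⟩, d_Z1_LG⟩, d_Z1_Z0⟩ := cc4
  have cc5 := c.c5
  simp only [disjoint_union_right] at cc5
  obtain ⟨⟨⟨⟨d_AT_R, d_AT_T⟩, d_AT_LG⟩, d_AT_Z0⟩, d_AT_Z1⟩ := cc5
  have cc6 := c.c6
  simp only [disjoint_union_right] at cc6
  obtain ⟨⟨⟨⟨⟨d_LT_R, d_LT_T⟩, d_LT_LG⟩, d_LT_Z0⟩, d_LT_Z1⟩, d_LT_AT⟩ := cc6
  have cc7 := c.c7
  simp only [disjoint_union_right] at cc7
  obtain ⟨⟨⟨⟨⟨⟨d_P0_R, d_P0_T⟩, d_P0_LG⟩, d_P0_Z0⟩, d_P0_Z1⟩, d_P0_AT⟩, d_P0_LT⟩ := cc7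
  have cc8 := c.c8
  simp only [disjoint_union_right] at cc8
  obtain ⟨⟨⟨⟨⟨⟨⟨d_P1_R, d_P1_T⟩, d_P1_LG⟩, d_P1_Z0⟩, d_P1_Z1⟩, d_P1_AT⟩, d_P1_LT⟩, d_P1_P0⟩ := cc8
  have cc9 := c.c9
  simp only [disjoint_union_right] at cc9
  obtain ⟨⟨⟨⟨⟨⟨⟨⟨d_A0_R, d_A0_T⟩, d_A0_LG⟩, d_A0_Z0⟩, d_A0_Z1⟩, d_A0_AT⟩, d_A0_LT⟩, d_A0_P0⟩, d_A0_P1⟩ := cc9
  have cc10 := c.c10
  simp only [disjoint_union_right] at cc10
  obtain ⟨⟨⟨⟨⟨⟨⟨⟨⟨d_L0_R, d_L0_T⟩, d_L0_LG⟩, d_L0_Z0⟩, d_L0_Z1⟩, d_L0_AT⟩, d_L0_LT⟩, d_L0_P0⟩, d_L0_P1⟩, d_L0_A0⟩ := cc10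
  have cc11 := c.c11
  simp only [disjoint_union_right] at cc11
  obtain ⟨⟨⟨⟨⟨⟨⟨⟨⟨⟨d_A1_R, d_A1_T⟩, d_A1_LG⟩, d_A1_Z0⟩, d_A1_Z1⟩, d_A1_AT⟩, d_A1_LT⟩, d_A1_P0⟩, d_A1_P1⟩, d_A1_A0⟩, d_A1_L0⟩ := cc11
  have cc12 := c.c12
  simp only [disjoint_union_right] at cc12
  obtain ⟨⟨⟨⟨⟨⟨⟨⟨⟨⟨⟨d_L1_R, d_L1_T⟩, d_L1_LG⟩, d_L1_Z0⟩, d_L1_Z1⟩, d_L1_AT⟩, d_L1_LT⟩, d_L1_P0⟩, d_L1_P1⟩, d_L1_A0⟩, d_L1_L0⟩, d_L1_A1⟩ := cc12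
  rw [abE_labs]
  unfold abE_A
  exact ⟨(disjoint_union_left.2 ⟨(disjoint_union_left.2 ⟨(disjoint_union_left.2 ⟨(disjoint_union_left.2 ⟨(disjoint_union_left.2 ⟨(disjoint_union_right.2 ⟨(disjoint_union_right.2 ⟨(disjoint_union_right.2 ⟨d_LT_T.symm, d_LG_T.symm⟩), d_L0_T.symm⟩), d_L1_T.symm⟩), (disjoint_union_right.2 ⟨(disjoint_union_right.2 ⟨(disjoint_union_right.2 ⟨d_LT_AT.symm, d_AT_LG⟩), d_L0_AT.symm⟩), d_L1_AT.symm⟩)⟩), (disjoint_union_left.2 ⟨(disjoint_union_right.2 ⟨(disjoint_union_right.2 ⟨(disjoint_union_right.2 ⟨d_LT_Z0.symm, d_Z0_LG⟩), d_L0_Z0.symm⟩), d_L1_Z0.symm⟩), (disjoint_union_right.2 ⟨(disjoint_union_right.2 ⟨(disjoint_union_right.2 ⟨d_P0_LT, d_P0_LG⟩), d_L0_P0.symm⟩), d_L1_P0.symm⟩)⟩)⟩), (disjoint_union_left.2 ⟨(disjoint_union_right.2 ⟨(disjoint_union_right.2 ⟨(disjoint_union_right.2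 ⟨d_LT_Z1.symm, d_Z1_LG⟩), d_L0_Z1.symm⟩), d_L1_Z1.symm⟩), (disjoint_union_right.2 ⟨(disjoint_union_right.2 ⟨(disjoint_union_right.2 ⟨d_P1_LT, d_P1_LG⟩), d_L0_P1.symm⟩), d_L1_P1.symm⟩)⟩)⟩), (disjoint_union_right.2 ⟨(disjoint_union_right.2 ⟨(disjoint_union_right.2 ⟨d_A0_LT, d_A0_LG⟩), d_L0_A0.symm⟩), d_L1_A0.symm⟩)⟩), (disjoint_union_right.2 ⟨(disjoint_union_right.2 ⟨(disjoint_union_right.2 ⟨d_A1_LT, d_A1_LG⟩), d_A1_L0⟩), d_L1_A1.symm⟩)⟩),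
    (disjoint_union_left.2 ⟨(disjoint_union_left.2 ⟨(disjoint_union_left.2 ⟨(disjoint_union_left.2 ⟨(disjoint_union_left.2 ⟨d_T_R, d_AT_R⟩), (disjoint_union_left.2 ⟨d_Z0_R, d_P0_R⟩)⟩), (disjoint_union_left.2 ⟨d_Z1_R, d_P1_R⟩)⟩), d_A0_R⟩), d_A1_R⟩),
    (disjoint_union_left.2 ⟨(disjoint_union_left.2 ⟨(disjoint_union_left.2 ⟨d_LT_R, d_LG_R⟩), d_L0_R⟩), d_L1_R⟩)⟩

theorem abE_sub (c : abECfg N R T AT DT DG Z1 π P A' D' z1 h M ζ β ε) :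
    abE_A T AT Z1 P A' ⊆ Icc 1 N ∧ labs (abE_D DT DG D') ⊆ Icc 1 N := by
  rw [abE_labs]
  unfold abE_A
  refine ⟨union_subset (union_subset (union_subset (union_subset (union_subset ?_ c.AT_sub)
    (union_subset (c.sys.Z1_sub 0 (by norm_num)) (c.P_sub 0 (by norm_num))))
    (union_subset (c.sys.Z1_sub 1 (by norm_num)) (c.P_sub 1 (by norm_num))))
    (c.A_sub 0 (by norm_num))) (c.A_sub 1 (by norm_num)),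
    union_subset (union_subset (union_subset c.DT_sub c.sys.DG_sub) (c.D_sub 0 (by norm_num)))
      (c.D_sub 1 (by norm_num))⟩
  exact c.T_sub

/-- parity of the robust absorbers -/
theorem abE_parD (c : abECfg N R T AT DT DG Z1 π P A' D' z1 h M ζ β ε) {σ : ℕ} (hσ : σ < 2)
    (hd : Disjoint (A' σ) (Z1 σ ∪ P σ)) (hd' : Disjoint (Z1 σ) (P σ)) :
    (∑ x ∈ A' σ, x + ∑ x ∈ labs (D' σ), x + σ * M) % 2 = 0 := by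
  have h1 : M ≤ (Z1 σ ∪ P σ).card := by
    rw [card_union_of_disjoint hd', (abE_P c hσ).1, c.sys.Z1_card σ hσ]
    have h2 := c.M_eq
    have h3 := c.h_le
    omega
  obtain ⟨Z', hZ', hc⟩ := exists_subset_card_eq h1
  have h2 := block_parity (c.D_ok σ hσ) (c.D_m σ hσ Z' hZ' hc)
  rw [sum_union (hd.mono_right hZ')] at h2
  have h3 : (∑ x ∈ Z', x) % 2 = (σ * Z'.card) % 2 := by
    refine abE_par fun x hx => ?_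
    rcases mem_union.1 (hZ' hx) with hx | hx
    · exact c.sys.Z1_cls σ hσ x hx
    · exact (abE_P c hσ).2 x hx
  rw [hc] at h3
  generalize σ * M = q at h3 ⊢
  omega

/-- parity of the numbers of odd and even elements of `J` -/
theorem abE_parJ (c : abECfg N R T AT DT DG Z1 π P A' D' z1 h M ζ β ε) (J : Finset ℕ)
    (hpar : (∑ x ∈ abE_A T AT Z1 P A', x + ∑ x ∈ J, x + ∑ x ∈ labs (abE_D DT DG D'), x) % 2 = 0) :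
    ((J.filter (fun u => cls 1 u = 1)).card + DG.card + h) % 2 = 0 := by
  have d_T_R := c.c1
  have cc2 := c.c2
  simp only [disjoint_union_right] at cc2
  obtain ⟨d_LG_R, d_LG_T⟩ := cc2
  have cc3 := c.c3
  simp only [disjoint_union_right] at cc3
  obtain ⟨⟨d_Z0_R, d_Z0_T⟩, d_Z0_LG⟩ := cc3
  have cc4 := c.c4
  simp only [disjoint_union_right] at cc4
  obtain ⟨⟨⟨d_Z1_R, d_Z1_T⟩, d_Z1_LG⟩, d_Z1_Z0⟩ := cc4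
  have cc5 := c.c5
  simp only [disjoint_union_right] at cc5
  obtain ⟨⟨⟨⟨d_AT_R, d_AT_T⟩, d_AT_LG⟩, d_AT_Z0⟩, d_AT_Z1⟩ := cc5
  have cc6 := c.c6
  simp only [disjoint_union_right] at cc6
  obtain ⟨⟨⟨⟨⟨d_LT_R, d_LT_T⟩, d_LT_LG⟩, d_LT_Z0⟩, d_LT_Z1⟩, d_LT_AT⟩ := cc6
  have cc7 := c.c7
  simp only [disjoint_union_right] at cc7
  obtain ⟨⟨⟨⟨⟨⟨d_P0_R, d_P0_T⟩, d_P0_LG⟩, d_P0_Z0⟩, d_P0_Z1⟩, d_P0_AT⟩, d_P0_LT⟩ := cc7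
  have cc8 := c.c8
  simp only [disjoint_union_right] at cc8
  obtain ⟨⟨⟨⟨⟨⟨⟨d_P1_R, d_P1_T⟩, d_P1_LG⟩, d_P1_Z0⟩, d_P1_Z1⟩, d_P1_AT⟩, d_P1_LT⟩, d_P1_P0⟩ := cc8
  have cc9 := c.c9
  simp only [disjoint_union_right] at cc9
  obtain ⟨⟨⟨⟨⟨⟨⟨⟨d_A0_R, d_A0_T⟩, d_A0_LG⟩, d_A0_Z0⟩, d_A0_Z1⟩, d_A0_AT⟩, d_A0_LT⟩, d_A0_P0⟩, d_A0_P1⟩ := cc9
  have cc10 := c.c10
  simp only [disjoint_union_right] at cc10
  obtain ⟨⟨⟨⟨⟨⟨⟨⟨⟨d_L0_R, d_L0_T⟩, d_L0_LG⟩, d_L0_Z0⟩, d_L0_Z1⟩, d_L0_AT⟩, d_L0_LT⟩, d_L0_P0⟩, d_L0_P1⟩, d_L0_A0⟩ := cc10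
  have cc11 := c.c11
  simp only [disjoint_union_right] at cc11
  obtain ⟨⟨⟨⟨⟨⟨⟨⟨⟨⟨d_A1_R, d_A1_T⟩, d_A1_LG⟩, d_A1_Z0⟩, d_A1_Z1⟩, d_A1_AT⟩, d_A1_LT⟩, d_A1_P0⟩, d_A1_P1⟩, d_A1_A0⟩, d_A1_L0⟩ := cc11
  have cc12 := c.c12
  simp only [disjoint_union_right] at cc12
  obtain ⟨⟨⟨⟨⟨⟨⟨⟨⟨⟨⟨d_L1_R, d_L1_T⟩, d_L1_LG⟩, d_L1_Z0⟩, d_L1_Z1⟩, d_L1_AT⟩, d_L1_LT⟩, d_L1_P0⟩, d_L1_P1⟩, d_L1_A0⟩, d_L1_L0⟩, d_L1_A1⟩ := cc12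
  have p0 := abE_parD c (σ := 0) (by norm_num) (disjoint_union_right.2 ⟨d_A0_Z0, d_A0_P0⟩) d_P0_Z0.symm
  have p1 := abE_parD c (σ := 1) (by norm_num) (disjoint_union_right.2 ⟨d_A1_Z1, d_A1_P1⟩) d_P1_Z1.symm
  have pT := block_parity c.DT_ok c.DT_m
  rw [sum_union d_AT_T.symm] at pT
  have pG : (∑ x ∈ labs DG, x) % 2 = (0 * (labs DG).card) % 2 := by
    refine abE_par fun x hx => ?_
    obtain ⟨d, hd, hx⟩ := mem_labs.1 hx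
    have h1 := (c.sys.DG_big d hd).2.1 rfl
    rw [abE_cls]
    rcases hx with rfl | rfl
    · exact h1.2
    · rw [h1.1]
      exact h1.2
  have pz0 := abE_par (c.sys.Z1_cls 0 (by norm_num))
  have pz1 := abE_par (c.sys.Z1_cls 1 (by norm_num))
  have pp0 := abE_par (abE_P c (σ := 0) (by norm_num)).2
  have pp1 := abE_par (abE_P c (σ := 1) (by norm_num)).2
  rw [c.sys.Z1_card 0 (by norm_num)] at pz0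
  rw [c.sys.Z1_card 1 (by norm_num)] at pz1
  rw [(abE_P c (σ := 0) (by norm_num)).1] at pp0
  rw [(abE_P c (σ := 1) (by norm_num)).1] at pp1
  have pJ : (∑ x ∈ J, x) % 2 = (J.filter (fun u => cls 1 u = 1)).card % 2 := by
    rw [← sum_filter_add_sum_filter_not J (fun u => cls 1 u = 1)]
    have h1 := abE_par (X := J.filter (fun u => cls 1 u = 1)) (σ := 1) fun x hx => (mem_filter.1 hx).2
    have h2 := abE_par (X := J.filter (fun u => ¬ cls 1 u = 1)) (σ := 0) fun x hx => by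
      have h3 := (mem_filter.1 hx).2
      rw [abE_cls] at h3 ⊢
      omega
    rw [one_mul] at h1
    rw [zero_mul] at h2
    omega
  rw [abE_labs] at hpar
  unfold abE_A at hpar
  rw [sum_union (disjoint_union_left.2 ⟨(disjoint_union_left.2 ⟨(disjoint_union_left.2 ⟨(disjoint_union_left.2 ⟨d_A1_T.symm, d_A1_AT.symm⟩), (disjoint_union_left.2 ⟨d_A1_Z0.symm, d_A1_P0.symm⟩)⟩), (disjoint_union_left.2 ⟨d_A1_Z1.symm, d_A1_P1.symm⟩)⟩), d_A1_A0.symm⟩),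
    sum_union (disjoint_union_left.2 ⟨(disjoint_union_left.2 ⟨(disjoint_union_left.2 ⟨d_A0_T.symm, d_A0_AT.symm⟩), (disjoint_union_left.2 ⟨d_A0_Z0.symm, d_A0_P0.symm⟩)⟩), (disjoint_union_left.2 ⟨d_A0_Z1.symm, d_A0_P1.symm⟩)⟩),
    sum_union (disjoint_union_left.2 ⟨(disjoint_union_left.2 ⟨(disjoint_union_right.2 ⟨d_Z1_T.symm, d_P1_T.symm⟩), (disjoint_union_right.2 ⟨d_AT_Z1, d_P1_AT.symm⟩)⟩), (disjoint_union_left.2 ⟨(disjoint_union_right.2 ⟨d_Z1_Z0.symm, d_P1_Z0.symm⟩), (disjoint_union_right.2 ⟨d_P0_Z1, d_P1_P0.symm⟩)⟩)⟩),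
    sum_union (disjoint_union_left.2 ⟨(disjoint_union_right.2 ⟨d_Z0_T.symm, d_P0_T.symm⟩), (disjoint_union_right.2 ⟨d_AT_Z0, d_P0_AT.symm⟩)⟩),
    sum_union d_AT_T.symm,
    sum_union d_P0_Z0.symm,
    sum_union d_P1_Z1.symm,
    sum_union (disjoint_union_left.2 ⟨(disjoint_union_left.2 ⟨d_L1_LT.symm, d_L1_LG.symm⟩), d_L1_L0.symm⟩),
    sum_union (disjoint_union_left.2 ⟨d_L0_LT.symm, d_L0_LG.symm⟩),
    sum_union d_LT_LG] at hpar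
  have hM := c.M_eq
  generalize ∑ x ∈ T, x = s1 at *
  generalize ∑ x ∈ AT, x = s2 at *
  generalize ∑ x ∈ labs DT, x = s3 at *
  generalize ∑ x ∈ labs DG, x = s4 at *
  generalize ∑ x ∈ Z1 0, x = s5 at *
  generalize ∑ x ∈ Z1 1, x = s6 at *
  generalize ∑ x ∈ P 0, x = s7 at *
  generalize ∑ x ∈ P 1, x = s8 at *
  generalize ∑ x ∈ A' 0, x = s9 at *
  generalize ∑ x ∈ A' 1, x = s10 at *
  generalize ∑ x ∈ labs (D' 0), x = s11 at *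
  generalize ∑ x ∈ labs (D' 1), x = s12 at *
  generalize ∑ x ∈ J, x = s13 at *
  generalize (J.filter (fun u => cls 1 u = 1)).card = j1 at *
  have q0 : (s9 + s11) % 2 = 0 := by rw [zero_mul, add_zero] at p0; exact p0
  have q1 : (s10 + s12 + M) % 2 = 0 := by rw [one_mul] at p1; exact p1
  have q2 : s5 % 2 = 0 := by rw [zero_mul] at pz0; exact pz0
  have q3 : s7 % 2 = 0 := by rw [zero_mul] at pp0; exact pp0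
  have q4 : s4 % 2 = 0 := by rw [zero_mul] at pG; exact pG
  have q5 : s6 % 2 = z1 % 2 := by rw [one_mul] at pz1; exact pz1
  have q6 : s8 % 2 = 0 := by
    rw [one_mul] at pp1
    omega
  have q7 : (s1 + s2 + s3 + (s5 + s7) + (s6 + s8) + (s9 + s11) + (s10 + s12) + s4 + s13) % 2 = 0 := by
    clear p0 p1 pz0 pz1 pp0 pp1 pG q0 q1 q2 q3 q4 q5 q6 pJ pT
    omega
  have q8 : (s5 + s7) % 2 = 0 := by clear q7 hpar; omega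
  have q9 : (s6 + s8) % 2 = z1 % 2 := by clear q7 hpar; omega
  clear hpar p0 p1 pz0 pz1 pp0 pp1 pG q2 q3 q5 q6
  generalize s5 + s7 = a1 at *
  generalize s6 + s8 = a2 at *
  generalize s9 + s11 = a3 at *
  generalize s10 + s12 = a4 at *
  generalize s1 + s2 + s3 = a5 at *
  omega


theorem abE_match (c : abECfg N R T AT DT DG Z1 π P A' D' z1 h M ζ β ε) (J : Finset ℕ)
    (hJ : J ⊆ Icc 1 N) (hJb : ∀ u ∈ J, ζ * N < u) (hJA : Disjoint J (abE_A T AT Z1 P A'))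
    (hcard : J.card + (abE_A T AT Z1 P A').card = 2 * (abE_D DT DG D').card)
    (hpar : (∑ x ∈ abE_A T AT Z1 P A', x + ∑ x ∈ J, x + ∑ x ∈ labs (abE_D DT DG D'), x) % 2 = 0) :
    Matchable 1 (abE_D DT DG D') (abE_A T AT Z1 P A' ∪ J) := by
  have d_T_R := c.c1
  have cc2 := c.c2
  simp only [disjoint_union_right] at cc2
  obtain ⟨d_LG_R, d_LG_T⟩ := cc2
  have cc3 := c.c3
  simp only [disjoint_union_right] at cc3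
  obtain ⟨⟨d_Z0_R, d_Z0_T⟩, d_Z0_LG⟩ := cc3
  have cc4 := c.c4
  simp only [disjoint_union_right] at cc4
  obtain ⟨⟨⟨d_Z1_R, d_Z1_T⟩, d_Z1_LG⟩, d_Z1_Z0⟩ := cc4
  have cc5 := c.c5
  simp only [disjoint_union_right] at cc5
  obtain ⟨⟨⟨⟨d_AT_R, d_AT_T⟩, d_AT_LG⟩, d_AT_Z0⟩, d_AT_Z1⟩ := cc5
  have cc6 := c.c6
  simp only [disjoint_union_right] at cc6
  obtain ⟨⟨⟨⟨⟨d_LT_R, d_LT_T⟩, d_LT_LG⟩, d_LT_Z0⟩, d_LT_Z1⟩, d_LT_AT⟩ := cc6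
  have cc7 := c.c7
  simp only [disjoint_union_right] at cc7
  obtain ⟨⟨⟨⟨⟨⟨d_P0_R, d_P0_T⟩, d_P0_LG⟩, d_P0_Z0⟩, d_P0_Z1⟩, d_P0_AT⟩, d_P0_LT⟩ := cc7
  have cc8 := c.c8
  simp only [disjoint_union_right] at cc8
  obtain ⟨⟨⟨⟨⟨⟨⟨d_P1_R, d_P1_T⟩, d_P1_LG⟩, d_P1_Z0⟩, d_P1_Z1⟩, d_P1_AT⟩, d_P1_LT⟩, d_P1_P0⟩ := cc8
  have cc9 := c.c9
  simp only [disjoint_union_right] at cc9
  obtain ⟨⟨⟨⟨⟨⟨⟨⟨d_A0_R, d_A0_T⟩, d_A0_LG⟩, d_A0_Z0⟩, d_A0_Z1⟩, d_A0_AT⟩, d_A0_LT⟩, d_A0_P0⟩, d_A0_P1⟩ := cc9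
  have cc10 := c.c10
  simp only [disjoint_union_right] at cc10
  obtain ⟨⟨⟨⟨⟨⟨⟨⟨⟨d_L0_R, d_L0_T⟩, d_L0_LG⟩, d_L0_Z0⟩, d_L0_Z1⟩, d_L0_AT⟩, d_L0_LT⟩, d_L0_P0⟩, d_L0_P1⟩, d_L0_A0⟩ := cc10
  have cc11 := c.c11
  simp only [disjoint_union_right] at cc11
  obtain ⟨⟨⟨⟨⟨⟨⟨⟨⟨⟨d_A1_R, d_A1_T⟩, d_A1_LG⟩, d_A1_Z0⟩, d_A1_Z1⟩, d_A1_AT⟩, d_A1_LT⟩, d_A1_P0⟩, d_A1_P1⟩, d_A1_A0⟩, d_A1_L0⟩ := cc11
  have cc12 := c.c12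
  simp only [disjoint_union_right] at cc12
  obtain ⟨⟨⟨⟨⟨⟨⟨⟨⟨⟨⟨d_L1_R, d_L1_T⟩, d_L1_LG⟩, d_L1_Z0⟩, d_L1_Z1⟩, d_L1_AT⟩, d_L1_LT⟩, d_L1_P0⟩, d_L1_P1⟩, d_L1_A0⟩, d_L1_L0⟩, d_L1_A1⟩ := cc12
  have hJ2h : J.card = 2 * h := by
    have h1 := abE_2card c
    omega
  have hJA' := hJA
  unfold abE_A at hJA'
  simp only [disjoint_union_right] at hJA'
  obtain ⟨⟨⟨⟨⟨dJ_T, dJ_AT⟩, dJ_Z0, dJ_P0⟩, dJ_Z1, dJ_P1⟩, dJ_A0⟩, dJ_A1⟩ := hJA'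
  obtain ⟨dj, zj, k1, k2, k3, k4⟩ := junk_assign c.sys J hJ hJb (by
      rw [hJ2h]
      have h1 := c.h_le'
      push_cast
      linarith)
  have hcl : ∀ u, cls 1 u = 0 ∨ cls 1 u = 1 := fun u => by
    rw [abE_cls]
    omega
  have hzJ : ∀ u ∈ J, ∀ v ∈ J, u ∉ zj v := by
    intro u hu v hv huv
    have h1 := (k3 v hv).1 huv
    rcases hcl v with h2 | h2
    · rw [h2] at h1
      exact disjoint_left.1 dJ_Z0 hu h1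
    · rw [h2] at h1
      exact disjoint_left.1 dJ_Z1 hu h1
  obtain ⟨J0, hJ0⟩ : ∃ J0, J0 = J.filter (fun u => cls 1 u = 0) := ⟨_, rfl⟩
  obtain ⟨J1, hJ1⟩ : ∃ J1, J1 = J.filter (fun u => cls 1 u = 1) := ⟨_, rfl⟩
  have hJ0s : J0 ⊆ J := by
    rw [hJ0]
    exact filter_subset _ _
  have hJ1s : J1 ⊆ J := by
    rw [hJ1]
    exact filter_subset _ _
  have hj01 : J0.card + J1.card = 2 * h := by
    rw [← hJ2h, hJ0, hJ1, ← card_filter_add_card_filter_not (s := J) (fun u => cls 1 u = 0)]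
    congr 2
    refine filter_congr fun u _ => ?_
    rcases hcl u with h1 | h1 <;> rw [h1] <;> norm_num
  have hcd : ∀ X ⊆ J, (X.biUnion zj).card = X.card := by
    intro X hX
    rw [card_biUnion]
    · rw [sum_congr rfl fun u hu => (k3 u (hX hu)).2.1, sum_const, smul_eq_mul, mul_one]
    · intro u hu v hv huv
      exact k4 u (hX hu) v (hX hv) huv
  obtain ⟨W0, eW0⟩ : ∃ W0, W0 = J0.biUnion zj := ⟨_, rfl⟩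
  obtain ⟨W1, eW1⟩ : ∃ W1, W1 = J1.biUnion zj := ⟨_, rfl⟩
  have cW0 : W0.card = J0.card := by
    rw [eW0]
    exact hcd J0 hJ0s
  have cW1 : W1.card = J1.card := by
    rw [eW1]
    exact hcd J1 hJ1s
  have hW0 : W0 ⊆ Z1 0 := by
    rw [eW0]
    refine biUnion_subset.2 fun u hu => ?_
    have h1 := (k3 u (hJ0s hu)).1
    rw [hJ0] at hu
    rwa [(mem_filter.1 hu).2] at h1
  have hW1 : W1 ⊆ Z1 1 := by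
    rw [eW1]
    refine biUnion_subset.2 fun u hu => ?_
    have h1 := (k3 u (hJ1s hu)).1
    rw [hJ1] at hu
    rwa [(mem_filter.1 hu).2] at h1
  obtain ⟨DJ, eDJ⟩ : ∃ DJ : Finset (ℕ × ℕ), DJ = J.biUnion (fun u => {dj u}) := ⟨_, rfl⟩
  have hDJ : DJ ⊆ DG := by
    rw [eDJ]
    exact biUnion_subset.2 fun u hu => singleton_subset_iff.2 (k1 u hu)
  have mJ : Matchable 1 DJ (J ∪ W0 ∪ W1) := by
    have h1 : Matchable 1 (J.biUnion (fun u => {dj u})) (J.biUnion (fun u => insert u (zj u))) := by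
      refine matchable_biUnion J _ _ (fun u hu => matchable_single (k3 u hu).2.2.2) ?_ ?_
      · intro u hu v hv huv
        exact disjoint_singleton.2 (k2 u hu v hv huv)
      · intro u hu v hv huv
        rw [disjoint_insert_left, disjoint_insert_right, mem_insert]
        exact ⟨fun h2 => h2.elim huv (hzJ u hu v hv), hzJ v hv u hu, k4 u hu v hv huv⟩
    have h2 : J.biUnion (fun u => insert u (zj u)) = J ∪ W0 ∪ W1 := by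
      ext x
      simp only [mem_biUnion, mem_insert, mem_union, eW0, eW1, hJ0, hJ1, mem_filter]
      constructor
      · rintro ⟨u, hu, rfl | hx⟩
        · exact Or.inl (Or.inl hu)
        · rcases hcl u with h3 | h3
          · exact Or.inl (Or.inr ⟨u, ⟨hu, h3⟩, hx⟩)
          · exact Or.inr ⟨u, ⟨hu, h3⟩, hx⟩
      · rintro ((hx | ⟨u, ⟨hu, -⟩, hx⟩) | ⟨u, ⟨hu, -⟩, hx⟩)
        · exact ⟨x, hx, Or.inl rfl⟩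
        · exact ⟨u, hu, Or.inr hx⟩
        · exact ⟨u, hu, Or.inr hx⟩
    rw [← eDJ, h2] at h1
    exact h1
  have cDJ : DJ.card = 2 * h := by
    have h1 := block_card mJ
    rw [card_union_of_disjoint (disjoint_union_left.2 ⟨(dJ_Z1.mono_right hW1), ((d_Z1_Z0.symm).mono hW0 hW1)⟩), card_union_of_disjoint (dJ_Z0.mono_right hW0), cW0, cW1] at h1
    omega
  have hp := abE_parJ c J hpar
  rw [← hJ1] at hp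
  have hle := c.h_le
  have cDR : (DG \ DJ).card = DG.card - 2 * h := by rw [card_sdiff_of_subset hDJ, cDJ]
  obtain ⟨y0, hy0⟩ : ∃ y0, 2 * y0 + J0.card = DG.card - h :=
    ⟨(DG.card - h - J0.card) / 2, by omega⟩
  obtain ⟨E0, hE0R, cE0⟩ := exists_subset_card_eq (show y0 ≤ (DG \ DJ).card by omega)
  obtain ⟨E1, eE1⟩ : ∃ E1, E1 = (DG \ DJ) \ E0 := ⟨_, rfl⟩
  have cE1 : E1.card = DG.card - 2 * h - y0 := by rw [eE1, card_sdiff_of_subset hE0R, cDR, cE0]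
  have hE1R : E1 ⊆ DG \ DJ := by
    rw [eE1]
    exact sdiff_subset
  have hE0 : E0 ⊆ DG := hE0R.trans sdiff_subset
  have hE1 : E1 ⊆ DG := hE1R.trans sdiff_subset
  have hJE0 : Disjoint DJ E0 := disjoint_sdiff.mono_right hE0R
  have hJE1 : Disjoint DJ E1 := disjoint_sdiff.mono_right hE1R
  have hE01 : Disjoint E0 E1 := by
    rw [eE1]
    exact disjoint_sdiff
  obtain ⟨m0, cQ0, hQ0⟩ := abE_E c (σ := 0) (by norm_num) hE0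
  obtain ⟨m1, cQ1, hQ1⟩ := abE_E c (σ := 1) (by norm_num) hE1
  obtain ⟨Q0, eQ0⟩ : ∃ Q0, Q0 = E0.biUnion (π 0) := ⟨_, rfl⟩
  obtain ⟨Q1, eQ1⟩ : ∃ Q1, Q1 = E1.biUnion (π 1) := ⟨_, rfl⟩
  rw [← eQ0] at m0 cQ0 hQ0
  rw [← eQ1] at m1 cQ1 hQ1
  have cZ0 := c.sys.Z1_card 0 (by norm_num)
  have cZ1 := c.sys.Z1_card 1 (by norm_num)
  have cP0 := (abE_P c (σ := 0) (by norm_num)).1
  have cP1 := (abE_P c (σ := 1) (by norm_num)).1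
  have hM := c.M_eq
  have hz1 := c.sys.DG_z1
  have lW0 := card_le_card hW0
  have lW1 := card_le_card hW1
  have mV0 : Matchable 1 (D' 0) (A' 0 ∪ (Z1 0 \ W0 ∪ P 0 \ Q0)) := by
    refine c.D_m 0 (by norm_num) _ (union_subset_union sdiff_subset sdiff_subset) ?_
    rw [card_union_of_disjoint (d_P0_Z0.symm.mono sdiff_subset sdiff_subset),
      card_sdiff_of_subset hW0, card_sdiff_of_subset hQ0, cZ0, cP0, cQ0, cW0, cE0, hM]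
    omega
  have mV1 : Matchable 1 (D' 1) (A' 1 ∪ (Z1 1 \ W1 ∪ P 1 \ Q1)) := by
    refine c.D_m 1 (by norm_num) _ (union_subset_union sdiff_subset sdiff_subset) ?_
    rw [card_union_of_disjoint (d_P1_Z1.symm.mono sdiff_subset sdiff_subset),
      card_sdiff_of_subset hW1, card_sdiff_of_subset hQ1, cZ1, cP1, cQ1, cW1, cE1, hM]
    omega
  obtain ⟨e1, -, -, e2, e3, e4, e5, e6⟩ := abE_disD c
  have n1 := matchable_union c.DT_m mJ (e1.mono_right hDJ)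
    (disjoint_union_left.2 ⟨(disjoint_union_right.2 ⟨(disjoint_union_right.2 ⟨(dJ_T.symm.mono_left (Subset.refl _)), ((d_Z0_T.symm).mono (Subset.refl _) hW0)⟩), ((d_Z1_T.symm).mono (Subset.refl _) hW1)⟩), (disjoint_union_right.2 ⟨(disjoint_union_right.2 ⟨(dJ_AT.symm.mono_left (Subset.refl _)), ((d_AT_Z0).mono (Subset.refl _) hW0)⟩), ((d_AT_Z1).mono (Subset.refl _) hW1)⟩)⟩)
  have n2 := matchable_union n1 m0 (disjoint_union_left.2 ⟨(e1.mono_right hE0), hJE0⟩)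
    (disjoint_union_left.2 ⟨(disjoint_union_left.2 ⟨((d_P0_T.symm).mono (Subset.refl _) hQ0), ((d_P0_AT.symm).mono (Subset.refl _) hQ0)⟩), (disjoint_union_left.2 ⟨(disjoint_union_left.2 ⟨(dJ_P0.mono_right hQ0), ((d_P0_Z0.symm).mono hW0 hQ0)⟩), ((d_P0_Z1.symm).mono hW1 hQ0)⟩)⟩)
  have n3 := matchable_union n2 m1 (disjoint_union_left.2 ⟨(disjoint_union_left.2 ⟨(e1.mono_right hE1), hJE1⟩), hE01⟩)
    (disjoint_union_left.2 ⟨(disjoint_union_left.2 ⟨(disjoint_union_left.2 ⟨((d_P1_T.symm).mono (Subset.refl _) hQ1), ((d_P1_AT.symm).mono (Subset.refl _) hQ1)⟩), (disjoint_union_left.2 ⟨(disjoint_union_left.2 ⟨(dJ_P1.mono_right hQ1), ((d_P1_Z0.symm).mono hW0 hQ1)⟩), ((d_P1_Z1.symm).mono hW1 hQ1)⟩)⟩), ((d_P1_P0.symm).mono hQ0 hQ1)⟩)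
  have n4 := matchable_union n3 mV0 (disjoint_union_left.2 ⟨(disjoint_union_left.2 ⟨(disjoint_union_left.2 ⟨e2, (e4.mono_left hDJ)⟩), (e4.mono_left hE0)⟩), (e4.mono_left hE1)⟩)
    (disjoint_union_left.2 ⟨(disjoint_union_left.2 ⟨(disjoint_union_left.2 ⟨(disjoint_union_left.2 ⟨(disjoint_union_right.2 ⟨((d_A0_T.symm).mono (Subset.refl _) (Subset.refl _)), (disjoint_union_right.2 ⟨((d_Z0_T.symm).mono (Subset.refl _) sdiff_subset), ((d_P0_T.symm).mono (Subset.refl _) sdiff_subset)⟩)⟩), (disjoint_union_right.2 ⟨((d_A0_AT.symm).mono (Subset.refl _) (Subset.refl _)), (disjoint_union_right.2 ⟨((d_AT_Z0).mono (Subset.refl _) sdiff_subset), ((d_P0_AT.symm).mono (Subset.refl _) sdiff_subset)⟩)⟩)⟩), (disjoint_union_left.2 ⟨(disjoint_union_left.2 ⟨(disjoint_union_right.2 ⟨(dJ_A0.mono_right (Subset.refl _)),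 (disjoint_union_right.2 ⟨(dJ_Z0.mono_right sdiff_subset), (dJ_P0.mono_right sdiff_subset)⟩)⟩), (disjoint_union_right.2 ⟨((d_A0_Z0.symm).mono hW0 (Subset.refl _)), (disjoint_union_right.2 ⟨disjoint_sdiff, ((d_P0_Z0.symm).mono hW0 sdiff_subset)⟩)⟩)⟩), (disjoint_union_right.2 ⟨((d_A0_Z1.symm).mono hW1 (Subset.refl _)), (disjoint_union_right.2 ⟨((d_Z1_Z0).mono hW1 sdiff_subset), ((d_P0_Z1.symm).mono hW1 sdiff_subset)⟩)⟩)⟩)⟩), (disjoint_union_right.2 ⟨((d_A0_P0.symm).mono hQ0 (Subset.refl _)), (disjoint_union_right.2 ⟨((d_P0_Z0).mono hQ0 sdiff_subset), disjoint_sdiff⟩)⟩)⟩), (disjoint_union_right.2 ⟨((d_A0_P1.symm).mono hQ1 (Subset.refl _)), (disjoint_union_right.2 ⟨((d_P1_Z0).mono hQ1 sdiff_subset), ((d_P1_P0).mono hQ1 sdiff_subset)⟩)⟩)⟩)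
  have n5 := matchable_union n4 mV1 (disjoint_union_left.2 ⟨(disjoint_union_left.2 ⟨(disjoint_union_left.2 ⟨(disjoint_union_left.2 ⟨e3, (e5.mono_left hDJ)⟩), (e5.mono_left hE0)⟩), (e5.mono_left hE1)⟩), e6⟩)
    (disjoint_union_left.2 ⟨(disjoint_union_left.2 ⟨(disjoint_union_left.2 ⟨(disjoint_union_left.2 ⟨(disjoint_union_left.2 ⟨(disjoint_union_right.2 ⟨((d_A1_T.symm).mono (Subset.refl _) (Subset.refl _)), (disjoint_union_right.2 ⟨((d_Z1_T.symm).mono (Subset.refl _) sdiff_subset), ((d_P1_T.symm).mono (Subset.refl _) sdiff_subset)⟩)⟩), (disjoint_union_right.2 ⟨((d_A1_AT.symm).mono (Subset.refl _) (Subset.refl _)), (disjoint_union_right.2 ⟨((d_AT_Z1).mono (Subset.refl _) sdiff_subset), ((d_P1_AT.symm).mono (Subset.refl _) sdiff_subset)⟩)⟩)⟩), (disjoint_union_left.2 ⟨(disjoint_union_left.2 ⟨(disjoint_union_right.2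 ⟨(dJ_A1.mono_right (Subset.refl _)), (disjoint_union_right.2 ⟨(dJ_Z1.mono_right sdiff_subset), (dJ_P1.mono_right sdiff_subset)⟩)⟩), (disjoint_union_right.2 ⟨((d_A1_Z0.symm).mono hW0 (Subset.refl _)), (disjoint_union_right.2 ⟨((d_Z1_Z0.symm).mono hW0 sdiff_subset), ((d_P1_Z0.symm).mono hW0 sdiff_subset)⟩)⟩)⟩), (disjoint_union_right.2 ⟨((d_A1_Z1.symm).mono hW1 (Subset.refl _)), (disjoint_union_right.2 ⟨disjoint_sdiff, ((d_P1_Z1.symm).mono hW1 sdiff_subset)⟩)⟩)⟩)⟩), (disjoint_union_right.2 ⟨((d_A1_P0.symm).mono hQ0 (Subset.refl _)), (disjoint_union_right.2 ⟨((d_P0_Z1).mono hQ0 sdiff_subset), ((d_P1_P0.symm).mono hQ0 sdiff_subset)⟩)⟩)⟩), (disjoint_union_right.2 ⟨((d_A1_P1.symm).mono hQ1 (Subset.refl _)), (disjoint_union_right.2 ⟨((d_P1_Z1).mono hQ1 sdiff_subset), disjoint_sdiff⟩)⟩)⟩), (disjoint_union_left.2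 ⟨(disjoint_union_right.2 ⟨((d_A1_A0.symm).mono (Subset.refl _) (Subset.refl _)), (disjoint_union_right.2 ⟨((d_A0_Z1).mono (Subset.refl _) sdiff_subset), ((d_A0_P1).mono (Subset.refl _) sdiff_subset)⟩)⟩), (disjoint_union_left.2 ⟨(disjoint_union_right.2 ⟨((d_A1_Z0.symm).mono sdiff_subset (Subset.refl _)), (disjoint_union_right.2 ⟨((d_Z1_Z0.symm).mono sdiff_subset sdiff_subset), ((d_P1_Z0.symm).mono sdiff_subset sdiff_subset)⟩)⟩), (disjoint_union_right.2 ⟨((d_A1_P0.symm).mono sdiff_subset (Subset.refl _)), (disjoint_union_right.2 ⟨((d_P0_Z1).mono sdiff_subset sdiff_subset), ((d_P1_P0.symm).mono sdiff_subset sdiff_subset)⟩)⟩)⟩)⟩)⟩)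
  have hDeq : DT ∪ DJ ∪ E0 ∪ E1 ∪ D' 0 ∪ D' 1 = abE_D DT DG D' := by
    unfold abE_D
    have h1 : DJ ∪ E0 ∪ E1 = DG := by
      rw [eE1, union_assoc, union_sdiff_of_subset hE0R, union_sdiff_of_subset hDJ]
    rw [← h1]
    simp only [union_assoc]
  have hWeq : T ∪ AT ∪ (J ∪ W0 ∪ W1) ∪ Q0 ∪ Q1 ∪ (A' 0 ∪ (Z1 0 \ W0 ∪ P 0 \ Q0)) ∪
      (A' 1 ∪ (Z1 1 \ W1 ∪ P 1 \ Q1)) = abE_A T AT Z1 P A' ∪ J := by
    unfold abE_A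
    ext x
    have i1 : x ∈ W0 → x ∈ Z1 0 := fun hx => hW0 hx
    have i2 : x ∈ W1 → x ∈ Z1 1 := fun hx => hW1 hx
    have i3 : x ∈ Q0 → x ∈ P 0 := fun hx => hQ0 hx
    have i4 : x ∈ Q1 → x ∈ P 1 := fun hx => hQ1 hx
    simp only [mem_union, mem_sdiff]
    generalize (x ∈ W0) = w0 at *
    generalize (x ∈ W1) = w1 at *
    generalize (x ∈ Q0) = q0 at *
    generalize (x ∈ Q1) = q1 at *
    generalize (x ∈ Z1 0) = a0 at *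
    generalize (x ∈ Z1 1) = a1 at *
    generalize (x ∈ P 0) = b0 at *
    generalize (x ∈ P 1) = b1 at *
    generalize (x ∈ T) = t0 at *
    generalize (x ∈ AT) = t1 at *
    generalize (x ∈ J) = t2 at *
    generalize (x ∈ A' 0) = t3 at *
    generalize (x ∈ A' 1) = t4 at *
    clear * - i1 i2 i3 i4
    by_cases u1 : w0 <;> by_cases u2 : w1 <;> by_cases u3 : q0 <;> by_cases u4 : q1 <;>
      simp only [u1, u2, u3, u4, true_imp_iff, not_true, not_false_eq_true, and_true,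
        and_false, or_false, false_or, or_true, true_or] at * <;> tauto
  rw [hDeq, hWeq] at n5
  exact n5

end abE



end SSB
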