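import Pool.Agent.Lib.MP_8a819d_co.AT.AbM

/-!
# MP_8a819d_co: absorbers with shadows, 5. The blocks of the tiny labels and the default blocks
-/

set_option autoImplicit false

namespace SSB

open Finset

/-- the block of a tiny label `u`: a label `b`, the unit label `d = b - u` -/
theorem tinyE {N m τ : ℕ} {e : ℕ → ℕ} (he : EOK m τ e) (hN : 10 ^ 5 ≤ N) (hτ : 10 ^ 5 * τ ≤ N)
    {u : ℕ} (hu : 1 ≤ u) (hu' : 100 * u ≤ N) (F Sl : Finset ℕ) (hF : 1000 * F.card ≤ N)
    (hSl : 1000 * (Sl.card * m) ≤ N) :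
    ∃ b d : ℕ, b = d + u ∧ N ≤ 4 * d ∧ b ≤ N ∧ b ∉ F ∧ d ∉ F ∧ EGood m τ e F Sl {b} {d} := by
  obtain ⟨G, hG1, hG2, hG3⟩ := bad_card he N F Sl
  have hex : ∃ b ∈ Icc (N / 2 + 1) N, b ∉ F ∪ G.image (fun x => x + u) := by
    by_contra hcon
    push Not at hcon
    have h1 : Icc (N / 2 + 1) N ⊆ F ∪ G.image (fun x => x + u) := hcon
    have h2 := card_le_card h1
    have h3 := card_union_le F (G.image (fun x => x + u))
    have h4 : (G.image (fun x => x + u)).card ≤ G.card := card_image_le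
    rw [Nat.card_Icc] at h2
    generalize Sl.card * m = q at *
    omega
  obtain ⟨b, hb, hbF⟩ := hex
  rw [mem_Icc] at hb
  rw [mem_union, not_or] at hbF
  obtain ⟨d, hd⟩ : ∃ d, d = b - u := ⟨_, rfl⟩
  have hbd : b = d + u := by omega
  have hdG : d ∉ G := fun h => hbF.2 (mem_image.2 ⟨d, h, hbd.symm⟩)
  have hdτ : τ < d := by omega
  refine ⟨b, d, hbd, by omega, hb.2, hbF.1, fun h => hdG (hG1 h), ?_⟩
  refine sepd_good he hG3 ?_ ?_ ⟨?_, ?_⟩
  · intro x hx
    rw [mem_singleton] at hx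
    rw [hx, mem_Icc]
    omega
  · rw [disjoint_singleton_left]
    exact hdG
  · intro x hx
    rw [mem_singleton] at hx
    rw [hx]
    exact hdτ
  · intro x hx y hy hyx
    rw [mem_singleton] at hx
    rw [mem_union, mem_singleton, mem_singleton] at hy
    omega

theorem labs_one (d : ℕ) : labs {(d, d)} = {d} := by
  unfold labs
  rw [image_singleton, image_singleton, union_self]

section abEe

variable {N : ℕ} {R : Finset ℕ} {DG : Finset (ℕ × ℕ)} {Z1 : ℕ → Finset ℕ} {z1 : ℕ} {ζ β ε : ℝ}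

/-- the first stages: the tiny labels and the default blocks -/
theorem abE_stage {m τ : ℕ} {e : ℕ → ℕ} (he : EOK m τ e) (sys : Sys 1 2 N R DG Z1 z1 ζ β ε)
    (hβ : 0 < β) (hβζ : β ≤ ζ) (hζε : ζ ≤ ε) (hN : 10 ^ 5 ≤ N) (hτ : 10 ^ 5 * τ ≤ N)
    (hεN : 10 ^ 5 * ((m : ℝ) * (ε * N)) ≤ N) (hR : (R.card : ℝ) ≤ 3 * (ε * N))
    (T : Finset ℕ) (hTN : T ⊆ Icc 1 N) (hTζ : ∀ x ∈ T, (x : ℝ) ≤ ζ * N) (hT100 : ∀ x ∈ T, 100 * x ≤ N)
    (hTc : (T.card : ℝ) ≤ ε * N) :
    ∃ (AT : Finset ℕ) (DT : Finset (ℕ × ℕ)) (π : ℕ → ℕ × ℕ → Finset ℕ) (P : ℕ → Finset ℕ),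
      Matchable 1 DT (T ∪ AT) ∧ UnitOK 1 DT ∧ AT.card = T.card ∧ AT ⊆ Icc 1 N ∧
      labs DT ⊆ Icc 1 N ∧ (labs DT).card ≤ T.card ∧
      (∀ σ < 2, ∀ d ∈ DG, IsBlock 1 d (π σ d)) ∧
      (∀ σ < 2, ∀ d ∈ DG, ∀ d' ∈ DG, d ≠ d' → Disjoint (π σ d) (π σ d')) ∧
      (∀ σ < 2, ∀ d ∈ DG, ∀ x ∈ π σ d, cls 1 x = σ) ∧
      (∀ σ < 2, P σ = DG.biUnion (π σ)) ∧ (∀ σ < 2, P σ ⊆ Icc 1 N) ∧
      (∀ σ < 2, (P σ).card ≤ 2 * DG.card) ∧
      Disjoint (labs DG) (R ∪ T) ∧ Disjoint (Z1 0) (R ∪ T ∪ labs DG) ∧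
      Disjoint (Z1 1) (R ∪ T ∪ labs DG ∪ Z1 0) ∧
      Disjoint AT (R ∪ T ∪ labs DG ∪ Z1 0 ∪ Z1 1) ∧
      Disjoint (labs DT) (R ∪ T ∪ labs DG ∪ Z1 0 ∪ Z1 1 ∪ AT) ∧
      Disjoint (P 0) (R ∪ T ∪ labs DG ∪ Z1 0 ∪ Z1 1 ∪ AT ∪ labs DT) ∧
      Disjoint (P 1) (R ∪ T ∪ labs DG ∪ Z1 0 ∪ Z1 1 ∪ AT ∪ labs DT ∪ P 0) ∧
      EGood m τ e (R ∪ T ∪ labs DG ∪ Z1 0 ∪ Z1 1) ((labs DG).image (fun x => x / m)) AT (labs DT) ∧
      (∀ σ < 2, Disjoint (P σ) (ES e m (labs DT))) := by
  have hζ0 : 0 < ζ := lt_of_lt_of_le hβ hβζ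
  have hε0 : 0 < ε := lt_of_lt_of_le hζ0 hζε
  have hN0 : (0 : ℝ) < N := by
    have h1 : 0 < N := by omega
    exact_mod_cast h1
  have hm1 := he.m_pos
  have hm1r : (1 : ℝ) ≤ m := by exact_mod_cast hm1
  have hεN0 : 0 ≤ ε * N := by positivity
  have hεN' : 10 ^ 5 * (ε * N) ≤ N := by
    have h1 : ε * N ≤ (m : ℝ) * (ε * N) := le_mul_of_one_le_left hεN0 hm1r
    linarith
  have hbig : ∀ X : Finset ℕ, (∀ x ∈ X, ζ * N < x) → Disjoint X T := by
    intro X hX
    rw [disjoint_left]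
    intro x hx hxT
    exact absurd (hTζ x hxT) (not_le.2 (hX x hx))
  have cG : Disjoint (labs DG) (R ∪ T) := disjoint_union_right.2 ⟨sys.DG_R, hbig _ sys.DG_lab⟩
  have cZ0 : Disjoint (Z1 0) (R ∪ T ∪ labs DG) :=
    disjoint_union_right.2 ⟨disjoint_union_right.2 ⟨sys.Z1_R 0 (by norm_num),
      hbig _ (sys.Z1_big 0 (by norm_num))⟩, sys.Z1_DG 0 (by norm_num)⟩
  have cZ1 : Disjoint (Z1 1) (R ∪ T ∪ labs DG ∪ Z1 0) := by
    refine disjoint_union_right.2 ⟨disjoint_union_right.2 ⟨disjoint_union_right.2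
      ⟨sys.Z1_R 1 (by norm_num), hbig _ (sys.Z1_big 1 (by norm_num))⟩,
      sys.Z1_DG 1 (by norm_num)⟩, ?_⟩
    rw [disjoint_left]
    intro x hx hx'
    have h1 := sys.Z1_cls 1 (by norm_num) x hx
    have h2 := sys.Z1_cls 0 (by norm_num) x hx'
    omega
  have cLG : (labs DG).card = DG.card := by
    have h1 := sys.DG_ok.2
    rwa [one_mul] at h1
  obtain ⟨F0, eF0⟩ : ∃ F0, F0 = R ∪ T ∪ labs DG ∪ Z1 0 ∪ Z1 1 := ⟨_, rfl⟩
  have hF0 : F0.card ≤ R.card + T.card + DG.card + z1 + z1 := by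
    rw [eF0, ← cLG, ← sys.Z1_card 0 (by norm_num)]
    refine (card_union_le _ _).trans ?_
    have h5 := sys.Z1_card 1 (by norm_num)
    have h6 := sys.Z1_card 0 (by norm_num)
    have h1 := card_union_le (R ∪ T ∪ labs DG) (Z1 0)
    have h2 := card_union_le (R ∪ T) (labs DG)
    have h3 := card_union_le R T
    omega
  have hDGε := sys.DG_le
  have hF0r : (F0.card : ℝ) ≤ 7 * (ε * N) := by
    have h1 : (F0.card : ℝ) ≤ R.card + T.card + DG.card + z1 + z1 := by exact_mod_cast hF0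
    have h3 := sys.z1_le
    linarith
  obtain ⟨Sl0, eS0⟩ : ∃ Sl0, Sl0 = (labs DG).image (fun x => x / m) := ⟨_, rfl⟩
  have hS0 : Sl0.card ≤ DG.card := by
    rw [eS0, ← cLG]
    exact card_image_le
  have hB1 : 1000 * (F0.card + T.card * 4) ≤ N := by
    have h1 : ((1000 * (F0.card + T.card * 4) : ℕ) : ℝ) ≤ N := by
      push_cast
      linarith
    exact_mod_cast h1
  have hB1s : 1000 * ((Sl0.card + T.card * 4) * m) ≤ N := by
    have h0 : (Sl0.card : ℝ) ≤ DG.card := by exact_mod_cast hS0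
    have h1 : ((Sl0.card : ℝ) + T.card * 4) ≤ 5 * (ε * N) := by linarith
    have h2 : ((Sl0.card : ℝ) + T.card * 4) * m ≤ 5 * (ε * N) * m :=
      mul_le_mul_of_nonneg_right h1 (by linarith)
    have h3 : ((1000 * ((Sl0.card + T.card * 4) * m) : ℕ) : ℝ) ≤ N := by
      push_cast
      have h4 : 5 * (ε * N) * m = 5 * ((m : ℝ) * (ε * N)) := by ring
      have h5 : 0 ≤ (m : ℝ) * (ε * N) := by positivity
      linarith
    exact_mod_cast h3
  obtain ⟨o, o1, o3, -⟩ := greedyE (ι := ℕ) (Obj := (ℕ × ℕ) × Finset ℕ)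
    (fun o => o.2 ∪ labs {o.1} ∪ ES e m (labs {o.1})) (fun o => (labs {o.1}).image (fun x => x / m))
    (fun u o => o.2.card = 1 ∧ u ∉ o.2 ∧ IsBlock 1 o.1 (insert u o.2) ∧ o.2 ⊆ Icc 1 N ∧
      labs {o.1} ⊆ Icc 1 N ∧ UnitOK 1 {o.1} ∧ Disjoint (insert u o.2) (labs {o.1}) ∧
      Disjoint (o.2 ∪ labs {o.1}) F0 ∧ EGood m τ e F0 Sl0 o.2 (labs {o.1})) 4 T
    (fun u hu F' Sl' hF' hSl' => by
      have huT := mem_Icc.1 (hTN hu)
      have hFc : 1000 * (F0 ∪ F').card ≤ N := by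
        have h1 := card_union_le F0 F'
        omega
      have hSc : 1000 * ((Sl0 ∪ Sl').card * m) ≤ N := by
        have h1 := card_union_le Sl0 Sl'
        have h2 : (Sl0 ∪ Sl').card * m ≤ (Sl0.card + T.card * 4) * m :=
          Nat.mul_le_mul_right _ (h1.trans (Nat.add_le_add_left hSl' _))
        exact (Nat.mul_le_mul_left _ h2).trans hB1s
      obtain ⟨b, d, hbd, hd4, hbN, hbF, hdF, hE⟩ := tinyE he hN hτ huT.1 (hT100 u hu) (F0 ∪ F')
        (Sl0 ∪ Sl') hFc hSc
      rw [mem_union, not_or] at hbF hdF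
      have hEL : EGood m τ e (F0 ∪ F') (Sl0 ∪ Sl') {b} (labs {(d, d)}) := by
        rw [labs_one]
        exact hE
      have hu100 := hT100 u hu
      refine ⟨((d, d), {b}), ⟨card_singleton b, ?_, ?_, ?_, ?_, ⟨fun _ x hx => ?_, ?_⟩, ?_, ?_, ?_⟩,
        ?_, ?_, ?_⟩
      · rw [mem_singleton]
        omega
      · refine ⟨b, ?_, ?_, ?_⟩
        · have e3 : dd b d = u := by
            unfold dd
            omega
          show ({u, b} : Finset ℕ) = {b, dd b d, dd b d}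
          rw [e3, pair_eq_singleton, pair_comm]
        · intro h
          rw [mem_insert, mem_singleton] at h
          omega
        · exact card_pair (by omega)
      · intro z hz
        rw [mem_singleton] at hz
        rw [mem_Icc]
        omega
      · show labs {(d, d)} ⊆ Icc 1 N
        rw [labs_one]
        intro z hz
        rw [mem_singleton] at hz
        rw [mem_Icc]
        omega
      · rw [mem_singleton] at hx
        rw [hx]
      · show (labs {(d, d)}).card = 1 * ({(d, d)} : Finset (ℕ × ℕ)).card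
        rw [labs_one, card_singleton, card_singleton]
      · show Disjoint (insert u {b}) (labs {(d, d)})
        rw [labs_one, disjoint_singleton_right, mem_insert, mem_singleton]
        omega
      · show Disjoint ({b} ∪ labs {(d, d)}) F0
        rw [labs_one, disjoint_union_left, disjoint_singleton_left, disjoint_singleton_left]
        exact ⟨hbF.1, hdF.1⟩
      · exact ⟨hEL.big, hEL.slot, fun z hz hzS => hEL.slF z hz (mem_union_left _ hzS),
          disjoint_of_subset_right subset_union_left hEL.eF, hEL.eA, hEL.eD⟩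
      · show Disjoint ({b} ∪ labs {(d, d)} ∪ ES e m (labs {(d, d)})) F'
        refine disjoint_union_left.2 ⟨?_, disjoint_of_subset_right subset_union_right hEL.eF⟩
        rw [labs_one, disjoint_union_left, disjoint_singleton_left, disjoint_singleton_left]
        exact ⟨hbF.2, hdF.2⟩
      · rw [disjoint_left]
        intro z hz hzS
        obtain ⟨x, hx, rfl⟩ := mem_image.1 hz
        exact hEL.slF x hx (mem_union_right _ hzS)
      · show ({b} ∪ labs {(d, d)} ∪ ES e m (labs {(d, d)})).card +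
          ((labs {(d, d)}).image (fun x => x / m)).card ≤ 4
        have c2 := card_union_le {b} (labs {(d, d)})
        have c3 := card_union_le ({b} ∪ labs {(d, d)}) (ES e m (labs {(d, d)}))
        have c4 := ES_card (e := e) (m := m) (labs {(d, d)})
        have c5 : ((labs {(d, d)}).image (fun x => x / m)).card ≤ (labs {(d, d)}).card :=
          card_image_le
        have c6 : (labs {(d, d)}).card = 1 := by rw [labs_one, card_singleton]
        have c7 : ({b} : Finset ℕ).card = 1 := card_singleton b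
        omega)
  obtain ⟨AT, eAT⟩ : ∃ AT, AT = T.biUnion (fun u => (o u).2) := ⟨_, rfl⟩
  obtain ⟨DT, eDT⟩ : ∃ DT : Finset (ℕ × ℕ), DT = T.biUnion (fun u => {(o u).1}) := ⟨_, rfl⟩
  have eLT : labs DT = T.biUnion (fun u => labs {(o u).1}) := by rw [eDT, labs_biUnion]
  have hTF : T ⊆ F0 := by
    rw [eF0]
    intro x hx
    simp only [mem_union]
    exact Or.inl (Or.inl (Or.inl (Or.inr hx)))
  have o2a : ∀ u ∈ T, Disjoint (o u).2 F0 := fun u hu =>
    (disjoint_union_left.1 (o1 u hu).2.2.2.2.2.2.2.1).1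
  have o2b : ∀ u ∈ T, Disjoint (labs {(o u).1}) F0 := fun u hu =>
    (disjoint_union_left.1 (o1 u hu).2.2.2.2.2.2.2.1).2
  have oE : ∀ u ∈ T, EGood m τ e F0 Sl0 (o u).2 (labs {(o u).1}) := fun u hu =>
    (o1 u hu).2.2.2.2.2.2.2.2
  have o3a : ∀ u ∈ T, ∀ v ∈ T, u ≠ v → Disjoint (o u).2 (o v).2 := fun u hu v hv huv =>
    (o3 u hu v hv huv).1.mono (subset_union_left.trans subset_union_left)
      (subset_union_left.trans subset_union_left)
  have o3b : ∀ u ∈ T, ∀ v ∈ T, u ≠ v → Disjoint (labs {(o u).1}) (labs {(o v).1}) :=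
    fun u hu v hv huv => (o3 u hu v hv huv).1.mono (subset_union_right.trans subset_union_left)
      (subset_union_right.trans subset_union_left)
  have o3c : ∀ u ∈ T, ∀ v ∈ T, Disjoint (labs {(o u).1}) (o v).2 := by
    intro u hu v hv
    by_cases huv : u = v
    · rw [← huv]
      exact ((o1 u hu).2.2.2.2.2.2.1.mono_left (subset_insert _ _)).symm
    · exact (o3 u hu v hv huv).1.mono (subset_union_right.trans subset_union_left)
        (subset_union_left.trans subset_union_left)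
  have o3e : ∀ u ∈ T, ∀ v ∈ T, u ≠ v →
      Disjoint (ES e m (labs {(o u).1})) ((o v).2 ∪ labs {(o v).1}) := fun u hu v hv huv =>
    (o3 u hu v hv huv).1.mono subset_union_right subset_union_left
  have mT : Matchable 1 DT (T ∪ AT) := by
    have h1 : Matchable 1 (T.biUnion (fun u => {(o u).1})) (T.biUnion (fun u => insert u (o u).2)) := by
      refine matchable_biUnion T _ _ (fun u hu => matchable_single (o1 u hu).2.2.1) ?_ ?_
      · intro u hu v hv huv
        exact disjoint_of_labs (o3b u hu v hv huv)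
      · intro u hu v hv huv
        rw [disjoint_insert_left, disjoint_insert_right, mem_insert]
        refine ⟨fun h2 => h2.elim huv fun h3 => ?_, fun h3 => ?_, o3a u hu v hv huv⟩
        · exact disjoint_left.1 (o2a v hv) h3 (hTF hu)
        · exact disjoint_left.1 (o2a u hu) h3 (hTF hv)
    have h2 : T.biUnion (fun u => insert u (o u).2) = T ∪ AT := by
      ext x
      simp only [mem_biUnion, mem_insert, mem_union, eAT]
      constructor
      · rintro ⟨u, hu, rfl | hx⟩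
        · exact Or.inl hu
        · exact Or.inr ⟨u, hu, hx⟩
      · rintro (hx | ⟨u, hu, hx⟩)
        · exact ⟨x, hx, Or.inl rfl⟩
        · exact ⟨u, hu, Or.inr hx⟩
    rw [← eDT, h2] at h1
    exact h1
  have okT : UnitOK 1 DT := by
    rw [eDT]
    exact unitOK_biUnion T _ (fun u hu => (o1 u hu).2.2.2.2.2.1) o3b
  have cAT : AT.card = T.card := by
    rw [eAT, card_biUnion]
    · rw [sum_congr rfl fun u hu => (o1 u hu).1, sum_const, smul_eq_mul, mul_one]
    · intro u hu v hv huv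
      exact o3a u hu v hv huv
  have sAT : AT ⊆ Icc 1 N := by
    rw [eAT]
    exact biUnion_subset.2 fun u hu => (o1 u hu).2.2.2.1
  have sLT : labs DT ⊆ Icc 1 N := by
    rw [eLT]
    exact biUnion_subset.2 fun u hu => (o1 u hu).2.2.2.2.1
  have cLT : (labs DT).card ≤ T.card := by
    have h1 := okT.2
    rw [one_mul] at h1
    rw [h1, eDT]
    have h2 := card_biUnion_le_card_mul T (fun u => ({(o u).1} : Finset (ℕ × ℕ))) 1
      (fun u _ => (card_singleton _).le)
    rwa [mul_one] at h2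
  have c5 : Disjoint AT F0 := by
    rw [eAT]
    exact (disjoint_biUnion_left _ _ _).2 o2a
  have c6 : Disjoint (labs DT) (F0 ∪ AT) := by
    rw [eLT]
    refine (disjoint_biUnion_left _ _ _).2 fun u hu => disjoint_union_right.2 ⟨o2b u hu, ?_⟩
    rw [eAT]
    exact (disjoint_biUnion_right _ _ _).2 fun v hv => o3c u hu v hv
  have hEG : EGood m τ e F0 Sl0 AT (labs DT) := by
    rw [eLT, eAT]
    refine ⟨?_, ?_, ?_, ?_, ?_, ?_⟩
    · intro z hz
      obtain ⟨u, hu, hz⟩ := mem_biUnion.1 hz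
      exact (oE u hu).big z hz
    · intro z hz z' hz' hzz
      obtain ⟨u, hu, hz⟩ := mem_biUnion.1 (mem_coe.1 hz)
      obtain ⟨u', hu', hz'⟩ := mem_biUnion.1 (mem_coe.1 hz')
      by_cases h : u = u'
      · subst h
        exact (oE u hu).slot (mem_coe.2 hz) (mem_coe.2 hz') hzz
      · have h2 := (o3 u hu u' hu' h).2
        change z / m = z' / m at hzz
        refine absurd (mem_image.2 ⟨z', hz', hzz.symm⟩) (disjoint_left.1 h2 (mem_image.2 ⟨z, hz, rfl⟩))
    · intro z hz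
      obtain ⟨u, hu, hz⟩ := mem_biUnion.1 hz
      exact (oE u hu).slF z hz
    · rw [ES_biUnion, disjoint_biUnion_left]
      exact fun u hu => (oE u hu).eF
    · rw [ES_biUnion, disjoint_biUnion_left]
      intro u hu
      rw [disjoint_biUnion_right]
      intro u' hu'
      by_cases h : u = u'
      · subst h
        exact (oE u hu).eA
      · exact disjoint_of_subset_right subset_union_left (o3e u hu u' hu' h)
    · rw [ES_biUnion, disjoint_biUnion_left]
      intro u hu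
      rw [disjoint_biUnion_right]
      intro u' hu'
      by_cases h : u = u'
      · subst h
        exact (oE u hu).eD
      · exact disjoint_of_subset_right subset_union_right (o3e u hu u' hu' h)
  obtain ⟨F1, eF1⟩ : ∃ F1, F1 = F0 ∪ AT ∪ labs DT ∪ ES e m (labs DT) := ⟨_, rfl⟩
  have hF1r : (F1.card : ℝ) ≤ 10 * (ε * N) := by
    have h1 : F1.card ≤ F0.card + T.card + T.card + T.card := by
      rw [eF1]
      have h2 := card_union_le (F0 ∪ AT ∪ labs DT) (ES e m (labs DT))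
      have h3 := card_union_le (F0 ∪ AT) (labs DT)
      have h4 := card_union_le F0 AT
      have h5 := ES_card (e := e) (m := m) (labs DT)
      omega
    have h4 : (F1.card : ℝ) ≤ F0.card + T.card + T.card + T.card := by exact_mod_cast h1
    linarith
  have hB2 : F1.card + (range 2 ×ˢ DG).card * 2 ≤ N / 100 := by
    rw [Nat.le_div_iff_mul_le (by norm_num), card_product, card_range]
    have h1 : (((F1.card + 2 * DG.card * 2) * 100 : ℕ) : ℝ) ≤ N := by
      push_cast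
      linarith
    exact_mod_cast h1
  obtain ⟨q, q1, q2, q3, q4⟩ := greedy (ι := ℕ × (ℕ × ℕ)) (Obj := Finset ℕ)
    (fun s => s)
    (fun i s => s ⊆ Icc 1 N ∧ IsBlock 1 i.2 s ∧ ∀ x ∈ s, cls 1 x = i.1) 2 (N / 100) F1
    (range 2 ×ˢ DG)
    (fun i hi F' _ hF' => by
      obtain ⟨h1, h2⟩ := mem_product.1 hi
      obtain ⟨h3, h4, -⟩ := sys.DG_big i.2 h2
      obtain ⟨h5, h6⟩ := h4 rfl
      have h7 : i.2.1 ≤ N := (mem_Icc.1 (sys.DG_sub (mem_labs.2 ⟨i.2, h2, Or.inl rfl⟩))).2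
      obtain ⟨s, s1, s2, s3, s4⟩ := dflt1 (by omega) h3 h7 h6 (mem_range.1 h1) F'
        (by rw [Nat.le_div_iff_mul_le (by norm_num)] at hF'; linarith)
      have h8 : i.2 = (i.2.1, i.2.1) := Prod.ext rfl h5
      rw [← h8] at s2
      exact ⟨s, ⟨s1, s2, s4⟩, s3, s2.choose_spec.2.2.le⟩)
    hB2
  have hq : ∀ σ < 2, ∀ d ∈ DG, (σ, d) ∈ range 2 ×ˢ DG := fun σ hσ d hd =>
    mem_product.2 ⟨mem_range.2 hσ, hd⟩
  obtain ⟨P, eP⟩ : ∃ P : ℕ → Finset ℕ, P = fun σ => DG.biUnion (fun d => q (σ, d)) := ⟨_, rfl⟩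
  have eP' : ∀ σ, P σ = DG.biUnion (fun d => q (σ, d)) := fun σ => by rw [eP]
  have c7 : ∀ σ < 2, Disjoint (P σ) F1 := fun σ hσ => by
    rw [eP']
    exact (disjoint_biUnion_left _ _ _).2 fun d hd => q2 _ (hq σ hσ d hd)
  have c7a : ∀ σ < 2, Disjoint (P σ) (F0 ∪ AT ∪ labs DT) := fun σ hσ => by
    have h := c7 σ hσ
    rw [eF1] at h
    exact (disjoint_union_right.1 h).1
  have c7b : ∀ σ < 2, Disjoint (P σ) (ES e m (labs DT)) := fun σ hσ => by
    have h := c7 σ hσ
    rw [eF1] at h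
    exact (disjoint_union_right.1 h).2
  have c8 : Disjoint (P 1) (P 0) := by
    rw [eP', eP']
    refine (disjoint_biUnion_left _ _ _).2 fun d hd => (disjoint_biUnion_right _ _ _).2
      fun d' hd' => q3 _ (hq 1 (by norm_num) d hd) _ (hq 0 (by norm_num) d' hd') fun he => ?_
    exact absurd (congrArg Prod.fst he) (by norm_num)
  refine ⟨AT, DT, fun σ d => q (σ, d), P, mT, okT, cAT, sAT, sLT, cLT,
    fun σ hσ d hd => (q1 _ (hq σ hσ d hd)).2.1,
    fun σ hσ d hd d' hd' hne => q3 _ (hq σ hσ d hd) _ (hq σ hσ d' hd') fun he =>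
      hne (congrArg Prod.snd he),
    fun σ hσ d hd => (q1 _ (hq σ hσ d hd)).2.2, fun σ _ => eP' σ,
    fun σ hσ => by
      rw [eP']
      exact biUnion_subset.2 fun d hd => (q1 _ (hq σ hσ d hd)).1,
    fun σ hσ => by
      rw [eP']
      have h1 := card_biUnion_le_card_mul DG (fun d => q (σ, d)) 2
        (fun d hd => q4 _ (hq σ hσ d hd))
      linarith,
    cG, cZ0, cZ1, ?_, ?_, ?_, ?_, ?_, c7b⟩
  · rw [← eF0]
    exact c5
  · rw [← eF0]
    exact c6
  · rw [← eF0]
    exact c7a 0 (by norm_num)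
  · rw [← eF0]
    exact disjoint_union_right.2 ⟨c7a 1 (by norm_num), c8⟩
  · rw [← eF0, ← eS0]
    exact hEG

end abEe

end SSB
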