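import Pool.Agent.Lib.MP_8a819d_co.BD.Af

/-!
# MP_8a819d_co: absorbers with shadows, 2. Affine forms with values far apart

As `affine_avoid` in `BD/Af.lean`; in addition the values of the pairs of forms in `Pr` differ by more than `T`.
-/

set_option autoImplicit false

namespace SSB

open Finset

private theorem afe_far (a b : ℤ) (T : ℕ) (ha : a = 0 → (T : ℤ) < |b|) (I : Finset ℕ) :
    (I.filter fun s : ℕ => |a * (s : ℤ) + b| ≤ T).card ≤ 2 * T + 1 := by
  rcases eq_or_ne a 0 with h0 | h0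
  · rw [filter_eq_empty_iff.2, card_empty]
    · omega
    · intro s _ h
      rw [h0, zero_mul, zero_add] at h
      have := ha h0
      omega
  · rcases (I.filter fun s : ℕ => |a * (s : ℤ) + b| ≤ T).eq_empty_or_nonempty with h1 | h1
    · rw [h1, card_empty]
      omega
    · obtain ⟨s0, hs0, hmin⟩ : ∃ s0 ∈ (I.filter fun s : ℕ => |a * (s : ℤ) + b| ≤ T),
          ∀ s ∈ (I.filter fun s : ℕ => |a * (s : ℤ) + b| ≤ T), s0 ≤ s :=
        ⟨_, min'_mem _ h1, fun s hs => min'_le _ s hs⟩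
      have h2 : (I.filter fun s : ℕ => |a * (s : ℤ) + b| ≤ T) ⊆ Icc s0 (s0 + 2 * T) := by
        intro s hs
        have h3 := hmin s hs
        rw [mem_Icc]
        refine ⟨h3, ?_⟩
        have h4 := (mem_filter.1 hs).2
        have h5 := (mem_filter.1 hs0).2
        rw [abs_le] at h4 h5
        by_contra hc
        have h6 : (s0 : ℤ) + 2 * T < s := by
          push Not at hc
          exact_mod_cast hc
        rcases lt_or_gt_of_ne h0 with h7 | h7
        · nlinarith [h4.1, h4.2, h5.1, h5.2]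
        · nlinarith [h4.1, h4.2, h5.1, h5.2]
      refine (card_le_card h2).trans ?_
      rw [Nat.card_Icc]
      omega

private theorem afe_one (a b : ℤ) (hab : a = 0 → b ≠ 0) (I : Finset ℕ) :
    (I.filter fun s : ℕ => a * (s : ℤ) + b = 0).card ≤ 1 := by
  have h1 := afe_far a b 0 (fun h => by
    rw [Nat.cast_zero]
    exact abs_pos.2 (hab h)) I
  refine le_trans (card_le_card fun s hs => ?_) h1
  rw [mem_filter] at hs ⊢
  refine ⟨hs.1, ?_⟩
  rw [hs.2, abs_zero, Nat.cast_zero]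

theorem affine_far {m : ℕ} (c T : ℕ) (α β : Fin m → ℤ) (Pr : Fin m → Fin m → Prop)
    (hne : ∀ i j, i ≠ j → (α i = α j → β i ≠ β j) ∧ (α i = -α j → β i ≠ -β j))
    (hfar : ∀ i j, Pr i j → (α i = α j → (T : ℤ) < |β i - β j|) ∧ (α i = -α j → (T : ℤ) < |β i + β j|))
    (I F : Finset ℕ) (hI : 2 * m * F.card + 2 * m ^ 2 + 2 * m ^ 2 * (2 * T + 1) < I.card) :
    ∃ s ∈ I, (∀ i, α i ≠ 0 → ∀ v ∈ F, ((c * v : ℕ) : ℤ) ≠ |α i * s + β i|) ∧
      (∀ i j, i ≠ j → |α i * (s : ℤ) + β i| ≠ |α j * s + β j|) ∧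
      ∀ i j, Pr i j → (T : ℤ) < |(|α i * (s : ℤ) + β i| - |α j * s + β j|)| := by
  classical
  obtain ⟨B1, hB1⟩ : ∃ B1 : Finset ℕ, B1 = ((univ.filter (fun i => α i ≠ 0)) ×ˢ F).biUnion
      (fun p : Fin m × ℕ => (I.filter fun s : ℕ => α p.1 * (s : ℤ) + (β p.1 - ((c * p.2 : ℕ) : ℤ)) = 0) ∪
      (I.filter fun s : ℕ => α p.1 * (s : ℤ) + (β p.1 + ((c * p.2 : ℕ) : ℤ)) = 0)) := ⟨_, rfl⟩
  obtain ⟨B2, hB2⟩ : ∃ B2 : Finset ℕ, B2 =
      ((univ ×ˢ univ : Finset (Fin m × Fin m)).filter (fun p => p.1 ≠ p.2)).biUnion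
      (fun p : Fin m × Fin m =>
      (I.filter fun s : ℕ => (α p.1 - α p.2) * (s : ℤ) + (β p.1 - β p.2) = 0) ∪
      (I.filter fun s : ℕ => (α p.1 + α p.2) * (s : ℤ) + (β p.1 + β p.2) = 0)) := ⟨_, rfl⟩
  obtain ⟨B3, hB3⟩ : ∃ B3 : Finset ℕ, B3 =
      ((univ ×ˢ univ : Finset (Fin m × Fin m)).filter (fun p => Pr p.1 p.2)).biUnion
      (fun p : Fin m × Fin m =>
      (I.filter fun s : ℕ => |(α p.1 - α p.2) * (s : ℤ) + (β p.1 - β p.2)| ≤ T) ∪
      (I.filter fun s : ℕ => |(α p.1 + α p.2) * (s : ℤ) + (β p.1 + β p.2)| ≤ T)) := ⟨_, rfl⟩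
  have c1 : B1.card ≤ m * F.card * 2 := by
    rw [hB1]
    refine (card_biUnion_le_card_mul _ _ 2 fun p hp => ?_).trans ?_
    · have hp' : α p.1 ≠ 0 := (mem_filter.1 (mem_product.1 hp).1).2
      exact (card_union_le _ _).trans (Nat.add_le_add
        (afe_one _ _ (fun h => absurd h hp') I) (afe_one _ _ (fun h => absurd h hp') I))
    · refine Nat.mul_le_mul_right _ ?_
      rw [card_product]
      refine Nat.mul_le_mul_right _ ?_
      refine (card_filter_le _ _).trans ?_
      rw [card_univ, Fintype.card_fin]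
  have c2 : B2.card ≤ m ^ 2 * 2 := by
    rw [hB2]
    refine (card_biUnion_le_card_mul _ _ 2 fun p hp => ?_).trans ?_
    · have hp' : p.1 ≠ p.2 := (mem_filter.1 hp).2
      refine (card_union_le _ _).trans (Nat.add_le_add
        (afe_one _ _ (fun h h' => ?_) I) (afe_one _ _ (fun h h' => ?_) I))
      · exact (hne p.1 p.2 hp').1 (by linarith) (by linarith)
      · exact (hne p.1 p.2 hp').2 (by linarith) (by linarith)
    · refine Nat.mul_le_mul_right _ ?_
      refine (card_filter_le _ _).trans ?_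
      rw [card_product, card_univ, Fintype.card_fin]
      exact (sq m).ge
  have c3 : B3.card ≤ m ^ 2 * (2 * (2 * T + 1)) := by
    rw [hB3]
    refine (card_biUnion_le_card_mul _ _ (2 * (2 * T + 1)) fun p hp => ?_).trans ?_
    · have hp' : Pr p.1 p.2 := (mem_filter.1 hp).2
      refine (card_union_le _ _).trans ?_
      have d1 := afe_far (α p.1 - α p.2) (β p.1 - β p.2) T
        (fun h => (hfar p.1 p.2 hp').1 (by linarith)) I
      have d2 := afe_far (α p.1 + α p.2) (β p.1 + β p.2) T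
        (fun h => (hfar p.1 p.2 hp').2 (by linarith)) I
      omega
    · refine Nat.mul_le_mul_right _ ?_
      refine (card_filter_le _ _).trans ?_
      rw [card_product, card_univ, Fintype.card_fin]
      exact (sq m).ge
  have hBc : (B1 ∪ B2 ∪ B3).card < I.card := by
    have e1 := card_union_le (B1 ∪ B2) B3
    have e2 := card_union_le B1 B2
    have e3 : m * F.card * 2 = 2 * m * F.card := by ring
    have e4 : m ^ 2 * (2 * (2 * T + 1)) = 2 * m ^ 2 * (2 * T + 1) := by ring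
    omega
  obtain ⟨s, hs, hsB⟩ := exists_mem_notMem_of_card_lt_card hBc
  rw [mem_union, mem_union, not_or, not_or] at hsB
  obtain ⟨⟨n1, n2⟩, n3⟩ := hsB
  refine ⟨s, hs, fun i hi v hv he => ?_, fun i j hij he => ?_, fun i j hij => ?_⟩
  · apply n1
    rw [hB1]
    refine mem_biUnion.2 ⟨(i, v), mem_product.2 ⟨mem_filter.2 ⟨mem_univ _, hi⟩, hv⟩, ?_⟩
    rcases abs_choice (α i * (s : ℤ) + β i) with h | h
    · rw [h] at he
      refine mem_union_left _ (mem_filter.2 ⟨hs, ?_⟩)
      show α i * (s : ℤ) + (β i - ((c * v : ℕ) : ℤ)) = 0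
      rw [he]
      ring
    · rw [h] at he
      refine mem_union_right _ (mem_filter.2 ⟨hs, ?_⟩)
      show α i * (s : ℤ) + (β i + ((c * v : ℕ) : ℤ)) = 0
      rw [he]
      ring
  · apply n2
    rw [hB2]
    refine mem_biUnion.2 ⟨(i, j), mem_filter.2 ⟨mem_product.2 ⟨mem_univ _, mem_univ _⟩, hij⟩, ?_⟩
    rcases abs_eq_abs.1 he with h | h
    · refine mem_union_left _ (mem_filter.2 ⟨hs, ?_⟩)
      show (α i - α j) * (s : ℤ) + (β i - β j) = 0
      linear_combination h
    · refine mem_union_right _ (mem_filter.2 ⟨hs, ?_⟩)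
      show (α i + α j) * (s : ℤ) + (β i + β j) = 0
      linear_combination h
  · by_contra hc
    push Not at hc
    apply n3
    rw [hB3]
    refine mem_biUnion.2 ⟨(i, j), mem_filter.2 ⟨mem_product.2 ⟨mem_univ _, mem_univ _⟩, hij⟩, ?_⟩
    rw [mem_union, mem_filter, mem_filter]
    have e1 : (α i - α j) * (s : ℤ) + (β i - β j) = (α i * s + β i) - (α j * s + β j) := by ring
    have e2 : (α i + α j) * (s : ℤ) + (β i + β j) = (α i * s + β i) + (α j * s + β j) := by ring
    show (s ∈ I ∧ |(α i - α j) * (s : ℤ) + (β i - β j)| ≤ T) ∨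
      (s ∈ I ∧ |(α i + α j) * (s : ℤ) + (β i + β j)| ≤ T)
    rw [e1, e2]
    generalize α i * (s : ℤ) + β i = A at hc ⊢
    generalize α j * (s : ℤ) + β j = B at hc ⊢
    have key : |A - B| ≤ T ∨ |A + B| ≤ T := by
      rcases abs_cases A with h1 | h1 <;> rcases abs_cases B with h2 | h2 <;>
        rw [h1.1, h2.1] at hc
      · exact Or.inl hc
      · refine Or.inr ?_
        rwa [sub_neg_eq_add] at hc
      · refine Or.inr ?_
        have e3 : -A - B = -(A + B) := by ring
        rwa [e3, abs_neg] at hc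
      · refine Or.inl ?_
        have e3 : -A - -B = -(A - B) := by ring
        rwa [e3, abs_neg] at hc
    rcases key with h | h
    · exact Or.inl ⟨hs, h⟩
    · exact Or.inr ⟨hs, h⟩

end SSB
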