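import Pool.Agent.Lib.MP_8a819d_co.AT.BaseL2

/-!
# MP_8a819d_co, trees with many non-leaves: the base laws, 4. Lower bounds

JOB BaseL4 (all of this file).

`low_R`: `par v ∉ H`, type R. Root (`par v ∉ Z`): the denominator is `≤ 1` (`nr_bd`). `par v ∈ Z`: the denominators are `≤ 1`, so
`mu v y ≥ vv y ∑ (x ≤ N, dd x y ∈ Q) mu (par v) x ≥ vv y (1 - (4/N) (2 s N + 2)) ≥ vv y (1 - 10 s)` (labels `x` with `dd x y ∉ Q`: the
difference is in `[0, N] \ Q`, at most `s N + 1` differences with two `x` each; `mu ≤ 4/N`; `8/N ≤ s`).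
`low_O`: `par v ∉ H`, not of type R, so `par v ∈ Z`, `bnb v = ∅`, `par (par v) ∉ H`. Claim `mu v y ≥ (1 - 10 s)(1 - 10 s m) vv y` for all `y ≤ N`, by
strong induction. The parent `w = par v`:
* `w` of type O: `mu w x ≥ a vv x` for all `x ≤ N`, so `mu v y ≥ a ∑ x vv x PP x y = a vv y`.
* `w` of type R: `mu w x ≥ (1 - 10 s) vv x` unless some `b ∈ bnb w` has `dd (f₀ b) x ∉ Q` (for `x ∉ Q`: `vv x = 0`); these exceptional `x` are at
  most `2 (s N + 1)`, and their contribution is `∑ vv x PP x y = ∑ kk x y / Zn ≤ 2 (s N + 1)(2/N)/Zn`. If `vv y ≠ 0` then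
  `vv y ≥ (1/m)/Zn`, so this is `≤ 4 (s + 1/N) m vv y ≤ 5 s m vv y`. So `mu v y ≥ (1 - 10 s)(vv y - 5 s m vv y)`.
`krR`: the denominator is `≤ 1`.
-/

set_option autoImplicit false

namespace SSB

open Finset

variable {n N m : ℕ} {par : ℕ → ℕ} {H B Z Q : Finset ℕ} {f₀ : ℕ → ℕ} {Dom : ℕ → Finset ℕ} {s : ℝ}

/-- the labels with a bad difference to `c` -/
private theorem bl4_cnt (hQ : Q ⊆ Icc 1 N) (hc : (N : ℝ) - Q.card ≤ s * N) {c : ℕ} (hcN : c ≤ N) :
    (((range (N + 1)).filter (fun x => dd c x ∉ Q)).card : ℝ) ≤ 2 * (s * N + 1) := by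
  have h1 : ((range (N + 1)).filter (fun x => dd c x ∉ Q)).card ≤ 2 * (range (N + 1) \ Q).card := by
    have hsub : (range (N + 1)).filter (fun x => dd c x ∉ Q) ⊆
        (range (N + 1) \ Q).image (fun z => c - z) ∪ (range (N + 1) \ Q).image (fun z => c + z) := by
      intro x hx
      rw [mem_filter, mem_range] at hx
      have hd : dd c x ∈ range (N + 1) \ Q := by
        rw [mem_sdiff, mem_range]
        refine ⟨?_, hx.2⟩
        unfold dd; omega
      rcases le_total x c with h | h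
      · refine mem_union_left _ (mem_image.2 ⟨dd c x, hd, ?_⟩)
        unfold dd; omega
      · refine mem_union_right _ (mem_image.2 ⟨dd c x, hd, ?_⟩)
        unfold dd; omega
    have h0 := (card_le_card hsub).trans (card_union_le _ _)
    have ha := card_image_le (s := range (N + 1) \ Q) (f := fun z => c - z)
    have hb := card_image_le (s := range (N + 1) \ Q) (f := fun z => c + z)
    omega
  have h2 : (range (N + 1) \ Q).card + Q.card = N + 1 := by
    rw [card_sdiff_add_card_eq_card, card_range]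
    intro x hx
    have := mem_Icc.1 (hQ hx)
    exact mem_range.2 (by omega)
  have h3 : ((range (N + 1) \ Q).card : ℝ) + Q.card = N + 1 := by exact_mod_cast h2
  have h4 : (((range (N + 1)).filter (fun x => dd c x ∉ Q)).card : ℝ) ≤ 2 * (range (N + 1) \ Q).card := by
    exact_mod_cast h1
  linarith

private theorem bl4_s (hk : KB N m Q s) : s ≤ 1 / 10 ^ 6 ∧ 10 * s * m ≤ 1 / 100 := by
  have h1 : (1000 : ℝ) ≤ m := by exact_mod_cast hk.m_ge
  have h2 := hk.s_nn
  have h3 := hk.sm
  constructor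
  · have h4 := mul_le_mul_of_nonneg_right h1 h2
    linarith
  · linarith

private theorem bl4_kr (h : BCfg n N par H B Z Q f₀ Dom s) (hk : KB N m Q s) (hs : 12 ≤ s * N) {v : ℕ}
    (hv : v ∈ Z) (hR : isR n par H B Z v) {x y : ℕ} (hx : x ≤ N) (hy : y ∈ AllS n par B Q f₀ v)
    (hxy : dd x y ∈ Q) : vv N m Q y ≤ krB n N m par H B Z Q f₀ v x y := by
  have hA : y ∈ Axy n par B Q f₀ v x := mem_filter.2 ⟨hy, hxy⟩
  have hE : Axy n par B Q f₀ v x ⊆ Q := (filter_subset _ _).trans (filter_subset _ _)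
  obtain ⟨d1, d2⟩ := nr_bd hk hs hE (Axy_card h hv hx)
  have hs1 := (bl4_s hk).1
  unfold krB
  rw [if_pos hR, if_pos hA, le_div_iff₀ (by linarith)]
  exact mul_le_of_le_one_right (vv_nn hk y) d2

private theorem bl4_R (h : BCfg n N par H B Z Q f₀ Dom s) (hk : KB N m Q s) (hs : 12 ≤ s * N) {v : ℕ}
    (hv : v ∈ Z) (hR : isR n par H B Z v) (hp : par v ∉ H) {y : ℕ} (hy : y ∈ Q)
    (hb : ∀ b ∈ bnb n par B v, dd (f₀ b) y ∈ Q) :
    (1 - 10 * s) * vv N m Q y ≤ muB n N m par H B Z Q f₀ Dom v y := by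
  obtain ⟨hs1, hs2⟩ := bl4_s hk
  have hs0 := hk.s_nn
  have hv0 := vv_nn hk y
  have hNpos : (0 : ℝ) < N := by
    by_contra hneg
    have : s * N ≤ 0 := mul_nonpos_of_nonneg_of_nonpos hs0 (not_lt.1 hneg)
    linarith
  have hyA : y ∈ AllS n par B Q f₀ v := mem_filter.2 ⟨hy, hb⟩
  have hyN : y ≤ N := (mem_Icc.1 (hk.sub hy)).2
  by_cases hpZ : par v ∈ Z
  · have e := muR_par (N := N) h.isP h.Zsub h.Z0 (rtB n N m par H B Q f₀ Dom) (krB n N m par H B Z Q f₀) hv hpZ y
    change _ = ∑ x ∈ range (N + 1), muB n N m par H B Z Q f₀ Dom (par v) x * krB n N m par H B Z Q f₀ v x y at e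
    change muB n N m par H B Z Q f₀ Dom v y = _ at e
    rw [e]
    have hL := base_law h hk hs
    have hsum := hL.mu_sum (par v) hpZ
    have hmu0 : ∀ x, 0 ≤ muB n N m par H B Z Q f₀ Dom (par v) x := mu_nnB h hk (par v)
    have hmu4 : ∀ x, muB n N m par H B Z Q f₀ Dom (par v) x ≤ 4 / N := mu_le4 h hk hs hpZ
    have hsplit := sum_filter_add_sum_filter_not (range (N + 1)) (fun x => dd y x ∉ Q)
      (fun x => muB n N m par H B Z Q f₀ Dom (par v) x)
    rw [hsum] at hsplit
    have hbad : ∑ x ∈ (range (N + 1)).filter (fun x => dd y x ∉ Q), muB n N m par H B Z Q f₀ Dom (par v) x ≤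
        2 * (s * N + 1) * (4 / N) := by
      have h1 := sum_le_card_nsmul ((range (N + 1)).filter (fun x => dd y x ∉ Q))
        (fun x => muB n N m par H B Z Q f₀ Dom (par v) x) (4 / (N : ℝ)) (fun x _ => hmu4 x)
      rw [nsmul_eq_mul] at h1
      refine h1.trans (mul_le_mul_of_nonneg_right (bl4_cnt hk.sub hk.card hyN) (by positivity))
    have hbad2 : 2 * (s * N + 1) * (4 / N) ≤ 10 * s := by
      rw [mul_div_assoc', div_le_iff₀ hNpos]
      nlinarith
    have hlow : vv N m Q y * ∑ x ∈ (range (N + 1)).filter (fun x => ¬ dd y x ∉ Q),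
        muB n N m par H B Z Q f₀ Dom (par v) x ≤
        ∑ x ∈ range (N + 1), muB n N m par H B Z Q f₀ Dom (par v) x * krB n N m par H B Z Q f₀ v x y := by
      rw [mul_sum]
      refine le_trans (sum_le_sum (g := fun x => muB n N m par H B Z Q f₀ Dom (par v) x *
        krB n N m par H B Z Q f₀ v x y) ?_) (sum_le_sum_of_subset_of_nonneg (filter_subset _ _) ?_)
      · intro x hx
        rw [mem_filter, mem_range, not_not] at hx
        have hx1 : x ≤ N := by omega
        have hx2 : dd x y ∈ Q := by rw [dd_comm]; exact hx.2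
        have := bl4_kr h hk hs hv hR hx1 hyA hx2
        rw [mul_comm]
        exact mul_le_mul_of_nonneg_left this (hmu0 x)
      · intro x _ _
        by_cases h0 : muB n N m par H B Z Q f₀ Dom (par v) x = 0
        · rw [h0, zero_mul]
        · exact mul_nonneg (hmu0 x) (hL.kr_nn v hv hpZ x y)
    refine le_trans ?_ hlow
    rw [mul_comm]
    refine mul_le_mul_of_nonneg_left ?_ hv0
    linarith
  · have e := muR_root (N := N) (rtB n N m par H B Q f₀ Dom) (krB n N m par H B Z Q f₀) hpZ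
    change muB n N m par H B Z Q f₀ Dom v = _ at e
    rw [e]
    have hE : AllS n par B Q f₀ v ⊆ Q := filter_subset _ _
    have hc := AllS_card h hv
    obtain ⟨d1, d2⟩ := nr_bd hk hs hE (by nlinarith)
    unfold rtB
    rw [if_neg hp, if_pos hyA, le_div_iff₀ (by linarith)]
    have h1 : (1 - 10 * s) * vv N m Q y * ∑ w ∈ AllS n par B Q f₀ v, vv N m Q w ≤
        (1 - 10 * s) * vv N m Q y := mul_le_of_le_one_right (mul_nonneg (by linarith) hv0) d2
    nlinarith

private theorem bl4_O (h : BCfg n N par H B Z Q f₀ Dom s) (hk : KB N m Q s) (hs : 12 ≤ s * N) (v : ℕ) :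
    v ∈ Z → par v ∉ H → ¬ isR n par H B Z v → ∀ y ≤ N,
    (1 - 10 * s) * (1 - 10 * s * m) * vv N m Q y ≤ muB n N m par H B Z Q f₀ Dom v y := by
  induction v using Nat.strong_induction_on with
  | _ v ih =>
  intro hv hp hO y hyN
  obtain ⟨hs1, hs2⟩ := bl4_s hk
  have hs0 := hk.s_nn
  have hv0 := vv_nn hk y
  have hNpos : (0 : ℝ) < N := by
    by_contra hneg
    have : s * N ≤ 0 := mul_nonpos_of_nonneg_of_nonpos hs0 (not_lt.1 hneg)
    linarith
  have hm0 : (0 : ℝ) ≤ m := Nat.cast_nonneg m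
  have hsm0 : 0 ≤ 10 * s * m := by positivity
  have hpZ : par v ∈ Z := by
    by_contra hc
    exact hO (Or.inl hc)
  have hpp : par (par v) ∉ H := fun hc => hO (Or.inr (Or.inr hc))
  have hv1 : 1 ≤ v := by
    rcases Nat.eq_zero_or_pos v with h0 | h0
    · exact absurd (h0 ▸ hv) h.Z0
    · exact h0
  have hlt : par v < v := h.isP v hv1 (mem_range.1 (h.Zsub hv))
  have e := muR_par (N := N) h.isP h.Zsub h.Z0 (rtB n N m par H B Q f₀ Dom) (krB n N m par H B Z Q f₀) hv hpZ y
  change _ = ∑ x ∈ range (N + 1), muB n N m par H B Z Q f₀ Dom (par v) x * krB n N m par H B Z Q f₀ v x y at e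
  change muB n N m par H B Z Q f₀ Dom v y = _ at e
  rw [e]
  have hkr : ∀ x, krB n N m par H B Z Q f₀ v x y = PP N m Q x y := by
    intro x
    unfold krB
    rw [if_neg hO]
  have hmu0 : ∀ x, 0 ≤ muB n N m par H B Z Q f₀ Dom (par v) x := mu_nnB h hk (par v)
  by_cases hR : isR n par H B Z (par v)
  · classical
    set w := par v with hw
    -- the exceptional labels
    set E := (range (N + 1)).filter (fun x => ¬ ∀ b ∈ bnb n par B w, dd (f₀ b) x ∈ Q) with hE
    have hEc : (E.card : ℝ) ≤ 2 * (s * N + 1) := by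
      rcases (bnb n par B w).eq_empty_or_nonempty with h0 | ⟨b, hb⟩
      · have : E = ∅ := by
          rw [hE, filter_eq_empty_iff]
          intro x _ hx
          apply hx
          intro b hb
          rw [h0] at hb
          exact absurd hb (notMem_empty b)
        rw [this, card_empty]
        push_cast
        positivity
      · have hbB : b ∈ B := (mem_filter.1 hb).1
        have huniq : ∀ b' ∈ bnb n par B w, b' = b := fun b' hb' => card_le_one.1 (h.one w hpZ) b' hb' b hb
        have hsub : E ⊆ (range (N + 1)).filter (fun x => dd (f₀ b) x ∉ Q) := by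
          intro x hx
          rw [hE, mem_filter] at hx
          refine mem_filter.2 ⟨hx.1, fun hc => hx.2 ?_⟩
          intro b' hb'
          rw [huniq b' hb']
          exact hc
        have h1 : (E.card : ℝ) ≤ (((range (N + 1)).filter (fun x => dd (f₀ b) x ∉ Q)).card : ℝ) := by
          exact_mod_cast card_le_card hsub
        exact h1.trans (bl4_cnt hk.sub hk.card (h.fB b hbB))
    have hgood : ∀ x, x ∉ E → x ≤ N → (1 - 10 * s) * vv N m Q x ≤ muB n N m par H B Z Q f₀ Dom w x := by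
      intro x hx hxN
      by_cases hxQ : x ∈ Q
      · refine bl4_R h hk hs hpZ hR hpp hxQ ?_
        by_contra hc
        exact hx (mem_filter.2 ⟨mem_range.2 (by omega), hc⟩)
      · have : vv N m Q x = 0 := by
          by_contra hc
          exact hxQ (vv_ne hk hc).1
        rw [this, mul_zero]
        exact hmu0 x
    have hZp : 0 < Zn N m Q := lt_of_lt_of_le (by positivity) (Zn_pos hk)
    have hexc : ∑ x ∈ E, vv N m Q x * PP N m Q x y ≤ 2 * (s * N + 1) * (2 / N / Zn N m Q) := by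
      have h1 := sum_le_card_nsmul E (fun x => vv N m Q x * PP N m Q x y) (2 / (N : ℝ) / Zn N m Q) (by
        intro x _
        rw [vv_PP hk]
        exact div_le_div_of_nonneg_right (kk_le x y) hZp.le)
      rw [nsmul_eq_mul] at h1
      exact h1.trans (mul_le_mul_of_nonneg_right hEc (by positivity))
    have hsplit := sum_filter_add_sum_filter_not (range (N + 1))
      (fun x => ¬ ∀ b ∈ bnb n par B w, dd (f₀ b) x ∈ Q) (fun x => vv N m Q x * PP N m Q x y)
    rw [stat hk hyN, ← hE] at hsplit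
    have hlow : (1 - 10 * s) * ∑ x ∈ (range (N + 1)).filter
        (fun x => ¬ ¬ ∀ b ∈ bnb n par B w, dd (f₀ b) x ∈ Q), vv N m Q x * PP N m Q x y ≤
        ∑ x ∈ range (N + 1), muB n N m par H B Z Q f₀ Dom w x * krB n N m par H B Z Q f₀ v x y := by
      rw [mul_sum]
      refine le_trans (sum_le_sum (g := fun x => muB n N m par H B Z Q f₀ Dom w x *
        krB n N m par H B Z Q f₀ v x y) ?_) (sum_le_sum_of_subset_of_nonneg (filter_subset _ _) ?_)
      · intro x hx
        rw [mem_filter, mem_range] at hx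
        have hxE : x ∉ E := fun hc => hx.2 (mem_filter.1 hc).2
        rw [hkr x, ← mul_assoc]
        exact mul_le_mul_of_nonneg_right (hgood x hxE (by omega)) (PP_nn x y)
      · intro x _ _
        rw [hkr x]
        exact mul_nonneg (hmu0 x) (PP_nn x y)
    refine le_trans ?_ hlow
    rw [mul_assoc]
    refine mul_le_mul_of_nonneg_left ?_ (by linarith)
    by_cases hvy : vv N m Q y = 0
    · rw [hvy, mul_zero]
      exact sum_nonneg fun x _ => mul_nonneg (vv_nn hk x) (PP_nn x y)
    · have hV : 1 / (m : ℝ) ≤ V0 N m Q y := (V0_ne hk (vv_ne hk hvy).2).2.2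
      have hmpos : (0 : ℝ) < m := by
        have : (1000 : ℝ) ≤ m := by exact_mod_cast hk.m_ge
        linarith
      have h3 : 1 / Zn N m Q ≤ m * vv N m Q y := by
        unfold vv
        rw [mul_div_assoc']
        refine div_le_div_of_nonneg_right ?_ hZp.le
        rw [div_le_iff₀ hmpos] at hV
        linarith
      have h4 : 2 * (s * N + 1) * (2 / N / Zn N m Q) = 4 * (s + 1 / N) * (1 / Zn N m Q) := by
        field_simp
        ring
      have h5 : 1 / (N : ℝ) ≤ s / 12 := by
        rw [div_le_div_iff₀ hNpos (by norm_num)]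
        linarith
      have h6 : 4 * (s + 1 / N) * (1 / Zn N m Q) ≤ 5 * s * (m * vv N m Q y) := by
        refine mul_le_mul (by linarith) h3 (by positivity) (by positivity)
      have h7 : 0 ≤ s * (m * vv N m Q y) := by positivity
      nlinarith
  · have hi := ih (par v) hlt hpZ hpp hR
    rw [← stat hk hyN, mul_sum]
    refine sum_le_sum fun x hx => ?_
    rw [hkr x, ← mul_assoc]
    exact mul_le_mul_of_nonneg_right (hi x (Nat.lt_succ_iff.1 (mem_range.1 hx))) (PP_nn x y)

theorem mu_low (h : BCfg n N par H B Z Q f₀ Dom s) (hk : KB N m Q s) (hs : 12 ≤ s * N) {v : ℕ}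
    (hv : v ∈ Z) (hp : par v ∉ H) {y : ℕ} (hy : y ∈ Q)
    (hb : ∀ b ∈ bnb n par B v, dd (f₀ b) y ∈ Q) :
    (1 - 10 * s) * (1 - 10 * s * m) * vv N m Q y ≤ muB n N m par H B Z Q f₀ Dom v y := by
  by_cases hR : isR n par H B Z v
  · refine le_trans ?_ (bl4_R h hk hs hv hR hp hy hb)
    obtain ⟨hs1, hs2⟩ := bl4_s hk
    have hs0 := hk.s_nn
    have hm0 : (0 : ℝ) ≤ m := Nat.cast_nonneg m
    have hsm0 : 0 ≤ 10 * s * m := by positivity
    refine mul_le_mul_of_nonneg_right ?_ (vv_nn hk y)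
    exact mul_le_of_le_one_right (by linarith) (by linarith)
  · exact bl4_O h hk hs v hv hp hR y (mem_Icc.1 (hk.sub hy)).2

theorem krR_low (h : BCfg n N par H B Z Q f₀ Dom s) (hk : KB N m Q s) (hs : 12 ≤ s * N) {v : ℕ}
    (hv : v ∈ Z) (hp : par v ∈ Z) (hb : bnb n par B v = ∅) (hpp : par (par v) ∈ H) {x y : ℕ}
    (hx : x ∈ Q) (hy : y ∈ Q) (hxy : dd x y ∈ Q) :
    vv N m Q y ≤ krB n N m par H B Z Q f₀ v x y := by
  refine bl4_kr h hk hs hv (Or.inr (Or.inr hpp)) (mem_Icc.1 (hk.sub hx)).2 ?_ hxy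
  refine mem_filter.2 ⟨hy, ?_⟩
  intro b hb'
  rw [hb] at hb'
  exact absurd hb' (notMem_empty b)

end SSB
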