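import Pool.Agent.Lib.MP_8a819d_co.AT.BaseL3
import Pool.Agent.Lib.MP_8a819d_co.AT.BaseL4

/-!
# MP_8a819d_co, trees with many non-leaves: the base laws

BLOCK D2. JOB BaseL: `base_laws` from BaseL1-BaseL4: choose `m = ⌈1000/s'⌉` (`≥ 1000`), `s = min (s'/(100 m)) (1/(1000 m))`, `N₀ ≥ 12/s, 1000 m, 1000/s'`;
`mu = muB`, `kr = krB`, `C = 4 m`; all the fields are given by BaseL2-BaseL4 (`Zn ≥ (1 - 12 s - 4/m - 6/N) N`). The rest of this text
explains the construction and the estimates of BaseL1-BaseL4.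

SETTING (`BCfg`). `B` numbered by `f₀`, `H ⊆ B` (the vertices of high degree and their closure, with small labels),
`Z` the vertices to be packed, every `v ∈ Z` has at most one neighbour in `B`. For `h ∈ H` a domain `Dom h` of labels
`y` with `y, y - f₀ h ∈ Q`, containing nearly all labels.

LAWS. For `v ∈ Z`:
* `par v ∈ H` (type U): `mu v` uniform on `Dom (par v)`.
* otherwise, if `par v ∉ Z` or `v` has a neighbour in `B` or `par (par v) ∈ H` (type R): reset to `vv`, conditioned: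
  `All v = {y ∈ Q : dd (f₀ b) y ∈ Q for b ∈ bnb v}`;
  if `par v ∉ Z`: `mu v y = vv y / nr` for `y ∈ All v`, `nr = ∑ y ∈ All v, vv y`;
  if `par v ∈ Z`: `kr v x y = vv y / nr x` for `y ∈ All v`, `dd x y ∈ Q`, `nr x = ∑ (such y) vv y`.
* otherwise (type O; `par v ∈ Z` is of type R or O, `v` has no neighbour in `B`): `kr v x y = PP x y`.
`mu v y = ∑ x, mu (par v) x * kr v x y` if `par v ∈ Z` (recursion, `par v < v`).

ESTIMATES (`N` large; `s' ` is given, `m` large, then `s` small; all `O(.)` are explicit multiples).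
(a) `nr`, `nr x ≥ 1 - 20 s` (excluded `y`: at most `s N + 2 (s N + 1) + 2 (s N + 1)`, each `vv ≤ 3/N`), and `≤ 1`.
(b) types R, O: `mu v y ≤ (1 + 25 s) vv y`: R: clear. O: by induction `∑ x, (1 + 25 s) vv x PP x y = (1 + 25 s) vv y`. In particular
    `mu v x ≠ 0` implies `vv x ≠ 0`, `V0 x ≠ 0`, so `PP x` is a probability; type U: `mu ≤ 1/((1-s) N)`. So `mu ≤ 4/N` always.
(c) `LawV` with `C = 4 m` (`kr ≤ 4/N` for R, `≤ 2m/N` for O). `rule`: R by construction, O by `kk_spec` (`usv v x y = {y, dd x y}`),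
    U: `bnb v = {par v}` (at most one element), `dd (f₀ h) y = y - f₀ h ∈ Q`.
(d) `reg`: type U: `y = z` or `y - f₀ h = z`: `2/|Dom|`. `par v ∉ Z`, no neighbour in `B`: `mu v z ≤ (1 + 25 s) 2 z/(N Zn)`.
    `regE`, type R with `par (par v) ∈ H`, `bnb v = ∅`: `mu v z ≤ (1+25s) 2z/(N Zn)`, and
    `∑ x mu (par v) x (kr v x (x+z) + kr v x (x-z)) ≤ (1+25s)/((1-s) N) (∑ y > z, 2y/(N Zn) + ∑ y ≤ N-z, 2y/(N Zn))
     = (1+25s)/((1-s)N) (N-z)(2N+2)/(N Zn)`; sum `≤ (1 + O(s)) 2 (N+1)/(N Zn)`.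
    `regE`, type O: `(1+25s) (2z/(N Zn) + edge_le/Zn) ≤ (1+25s) 2 (N+2)/(N Zn)`. With `Zn ≥ (1 - 12 s - 4/m - 6/N) N`.
    `reg` for `par v ∈ Z` follows from `regE` (`usv v x y = {y, dd x y}`).
(e) `irr` (type R with a neighbour `b` in `B`): vertex `4/N`, edge to `b`: two values `y`: `8/N`, edge to the parent: for every `x` two
    values `y`: `8/N`. The other types: `≤ 3/N` by (d).
(f) `low`: type R, `par v ∉ Z`: `mu v y ≥ vv y` on `All v`. R, `par v ∈ Z`: `mu v y ≥ vv y ∑ (x : dd x y ∈ Q) mu (par v) x ≥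
    vv y (1 - (4/N) (2 s N + 2 + ...)) ≥ (1 - 10 s) vv y`. Type O: by induction `mu v y ≥ a vv y` on all of `Q` with
    `a = (1 - 10 s)(1 - 10 s m)`: if the parent is of type O or is of type R without a neighbour in `B`: `∑ x a vv x PP x y = a vv y`
    (the bound for the parent holds for all `x` with `vv x ≠ 0`); if the parent has a neighbour `b` in `B`, its bound fails on at
    most `2 s N + 2` labels `x` (`dd (f₀ b) x ∉ Q`), whose contribution `∑ vv x PP x y ≤ (2 s N + 2) (2/N)/Zn ≤ 5 s / Zn ≤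
    5 s m vv y` (if `vv y ≠ 0` then `V0 y ≥ 1/m`).
(g) `krR`: `nr x ≤ 1`.
-/

set_option autoImplicit false

namespace SSB

open Finset

structure BaseLaws (n N m : ℕ) (par : ℕ → ℕ) (H B Z Q : Finset ℕ) (f₀ : ℕ → ℕ) (Dom : ℕ → Finset ℕ)
    (s' C : ℝ) (mu : ℕ → ℕ → ℝ) (kr : ℕ → ℕ → ℕ → ℝ) : Prop where
  law : LawV n N par B Z Q f₀ C mu kr
  unif : ∀ v ∈ Z, par v ∈ H → ∀ y,
    mu v y = if y ∈ Dom (par v) then 1 / ((Dom (par v)).card : ℝ) else 0
  up : ∀ v ∈ Z, par v ∉ H → ∀ y ≤ N, mu v y ≤ (1 + s') * vv N m Q y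
  reg : ∀ v ∈ Z, (par v ∈ H ∨ bnb n par B v = ∅) → ∀ z ∈ Q,
    loadv n N par B Z f₀ mu kr v z ≤ (1 + s') * (2 / N)
  regE : ∀ v ∈ Z, par v ∈ Z → bnb n par B v = ∅ → ∀ z ∈ Q,
    mu v z + ∑ x ∈ range (N + 1), ∑ y ∈ range (N + 1),
      (if dd x y = z then mu (par v) x * kr v x y else 0) ≤ (1 + s') * (2 / N)
  irr : ∀ v ∈ Z, ∀ z ∈ Q, loadv n N par B Z f₀ mu kr v z ≤ 25 / N
  low : ∀ v ∈ Z, par v ∉ H → ∀ y ∈ Q, (∀ b ∈ bnb n par B v, dd (f₀ b) y ∈ Q) →
    (1 - s') * vv N m Q y ≤ mu v y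
  krO : ∀ v ∈ Z, par v ∈ Z → bnb n par B v = ∅ → par (par v) ∉ H → ∀ x y, kr v x y = PP N m Q x y
  krR : ∀ v ∈ Z, par v ∈ Z → bnb n par B v = ∅ → par (par v) ∈ H →
    ∀ x ∈ Q, ∀ y ∈ Q, dd x y ∈ Q → vv N m Q y ≤ kr v x y

theorem base_laws (s' : ℝ) (hs' : 0 < s') : ∃ m : ℕ, 1000 ≤ m ∧ ∃ s C : ℝ, 0 < s ∧ s ≤ s' ∧
    1000 * m * s ≤ 1 ∧ 0 < C ∧ ∃ N₀ : ℕ, 1000 * m ≤ N₀ ∧ ∀ (n N : ℕ) (par : ℕ → ℕ)
      (H B Z Q : Finset ℕ) (f₀ : ℕ → ℕ) (Dom : ℕ → Finset ℕ), N₀ ≤ N →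
      BCfg n N par H B Z Q f₀ Dom s →
      ∃ (mu : ℕ → ℕ → ℝ) (kr : ℕ → ℕ → ℕ → ℝ), BaseLaws n N m par H B Z Q f₀ Dom s' C mu kr := by
  obtain ⟨m₁, hm₁⟩ := exists_nat_ge (1000 / s')
  obtain ⟨m, hm, hms'⟩ : ∃ m : ℕ, 1000 ≤ m ∧ 1000 ≤ s' * m := by
    refine ⟨max 1000 m₁, le_max_left _ _, ?_⟩
    have h1 : (m₁ : ℝ) ≤ ((max 1000 m₁ : ℕ) : ℝ) := by exact_mod_cast le_max_right 1000 m₁
    have h2 : 1000 / s' ≤ ((max 1000 m₁ : ℕ) : ℝ) := hm₁.trans h1
    rw [div_le_iff₀ hs'] at h2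
    linarith
  have hmR : (1000 : ℝ) ≤ m := by exact_mod_cast hm
  have hm0 : (0 : ℝ) < m := by linarith
  obtain ⟨s, hs0, hs1, hs2⟩ : ∃ s : ℝ, 0 < s ∧ 100 * m * s ≤ s' ∧ 1000 * m * s ≤ 1 := by
    refine ⟨min (s' / (100 * m)) (1 / (1000 * m)), lt_min (by positivity) (by positivity), ?_, ?_⟩
    · have h1 : min (s' / (100 * m)) (1 / (1000 * m)) ≤ s' / (100 * m) := min_le_left _ _
      have h2 : (0 : ℝ) < 100 * m := by positivity
      calc 100 * m * min (s' / (100 * m)) (1 / (1000 * m)) ≤ 100 * m * (s' / (100 * m)) :=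
            mul_le_mul_of_nonneg_left h1 h2.le
        _ = s' := by field_simp
    · have h1 : min (s' / (100 * m)) (1 / (1000 * m)) ≤ 1 / (1000 * m) := min_le_right _ _
      have h2 : (0 : ℝ) < 1000 * m := by positivity
      calc 1000 * m * min (s' / (100 * m)) (1 / (1000 * m)) ≤ 1000 * m * (1 / (1000 * m)) :=
            mul_le_mul_of_nonneg_left h1 h2.le
        _ = 1 := by field_simp
  have hms_ge : 1000 * s ≤ m * s := mul_le_mul_of_nonneg_right hmR hs0.le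
  have hsA : 100000 * s ≤ s' := by nlinarith
  have hsB : 1000000 * s ≤ 1 := by nlinarith
  have hss' : s ≤ s' := by linarith
  obtain ⟨N₁, hN₁⟩ := exists_nat_ge (12 / s)
  obtain ⟨N₂, hN₂⟩ := exists_nat_ge (1000 / s')
  refine ⟨m, hm, s, 4 * m, hs0, hss', hs2, by positivity, max (1000 * m) (max N₁ N₂),
    le_max_left _ _, ?_⟩
  intro n N par H B Z Q f₀ Dom hN h
  have hNm : 1000 * m ≤ N := (le_max_left _ _).trans hN
  have hNN1 : N₁ ≤ N := (le_max_left _ _).trans ((le_max_right _ _).trans hN)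
  have hNN2 : N₂ ≤ N := (le_max_right _ _).trans ((le_max_right _ _).trans hN)
  have hN1R : 12 ≤ s * N := by
    have h1 : (N₁ : ℝ) ≤ N := by exact_mod_cast hNN1
    have h2 : 12 / s ≤ N := hN₁.trans h1
    rw [div_le_iff₀ hs0] at h2
    linarith
  have hN2R : 1000 ≤ s' * N := by
    have h1 : (N₂ : ℝ) ≤ N := by exact_mod_cast hNN2
    have h2 : 1000 / s' ≤ N := hN₂.trans h1
    rw [div_le_iff₀ hs'] at h2
    linarith
  have hNmR : 1000 * (m : ℝ) ≤ N := by exact_mod_cast hNm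
  have hNR : (1000000 : ℝ) ≤ N := by linarith
  have hN0 : (0 : ℝ) < N := by linarith
  have hk : KB N m Q s := kb_of h hm hNm hs0.le hs2
  -- the constant e
  obtain ⟨e, he0, he1, hes, hem, heN, hess⟩ : ∃ e : ℝ, 0 < e ∧ e ≤ 1 ∧ e ≤ s' ∧ 1000 ≤ e * m ∧
      1000 ≤ e * N ∧ 100000 * s ≤ e := by
    refine ⟨min s' 1, lt_min hs' one_pos, min_le_right _ _, min_le_left _ _, ?_, ?_, ?_⟩
    · rcases min_cases s' (1 : ℝ) with ⟨h1, _⟩ | ⟨h1, _⟩
      · rw [h1]; exact hms'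
      · rw [h1]; linarith
    · rcases min_cases s' (1 : ℝ) with ⟨h1, _⟩ | ⟨h1, _⟩
      · rw [h1]; exact hN2R
      · rw [h1]; linarith
    · exact le_min hsA (by linarith)
  have h4m : 4 / (m : ℝ) ≤ 4 * e / 1000 := by
    rw [div_le_div_iff₀ hm0 (by norm_num)]
    nlinarith
  have h6N : 6 / (N : ℝ) ≤ 6 * e / 1000 := by
    rw [div_le_div_iff₀ hN0 (by norm_num)]
    nlinarith
  have hZ := Zn_ge hk
  have hZ1 : (1 - 11 * e / 1000) * N ≤ Zn N m Q := by
    refine le_trans ?_ hZ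
    apply mul_le_mul_of_nonneg_right _ hN0.le
    have : 12 * s ≤ 12 * e / 100000 := by linarith
    linarith
  have hZpos : 0 < Zn N m Q := by
    have := Zn_pos hk
    linarith
  have h1s : (0 : ℝ) < 1 - s := by linarith
  -- the main numerical inequality
  have hnum : (1 + 20 * s) * (N + 2) ≤ (1 - s) * ((1 + s') * Zn N m Q) := by
    have hN2 : (N : ℝ) + 2 ≤ (1 + 2 * e / 1000) * N := by nlinarith
    have h20 : 1 + 20 * s ≤ 1 + 20 * e / 100000 := by linarith
    have hA : (1 + 20 * s) * (N + 2) ≤ (1 + 20 * e / 100000) * ((1 + 2 * e / 1000) * N) :=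
      mul_le_mul h20 hN2 (by positivity) (by positivity)
    have hB : (1 + e) * ((1 - 11 * e / 1000) * N) ≤ (1 + s') * Zn N m Q := by
      refine mul_le_mul (by linarith) hZ1 ?_ (by linarith)
      apply mul_nonneg _ hN0.le
      linarith
    have hC : (1 - e / 100000) * ((1 + e) * ((1 - 11 * e / 1000) * N)) ≤
        (1 - s) * ((1 + s') * Zn N m Q) := by
      refine mul_le_mul (by linarith) hB ?_ h1s.le
      apply mul_nonneg (by linarith)
      apply mul_nonneg _ hN0.le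
      linarith
    refine hA.trans (le_trans ?_ hC)
    have hD : (1 + 20 * e / 100000) * (1 + 2 * e / 1000) ≤
        (1 - e / 100000) * ((1 + e) * (1 - 11 * e / 1000)) := by
      nlinarith [mul_pos he0 he0, mul_pos (mul_pos he0 he0) he0, mul_nonneg he0.le (sub_nonneg.2 he1),
        mul_nonneg (mul_pos he0 he0).le (sub_nonneg.2 he1)]
    have := mul_le_mul_of_nonneg_right hD hN0.le
    linarith
  have hfinO : (1 + 20 * s) * (2 * (N + 2) / (N * Zn N m Q)) ≤ (1 + s') * (2 / N) := by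
    have h1 : (1 + 20 * s) * (N + 2) ≤ (1 + s') * Zn N m Q := by
      refine hnum.trans ?_
      have : 0 ≤ (1 + s') * Zn N m Q := by positivity
      nlinarith
    have h2 : (1 + 20 * s) * (2 * (N + 2) / (N * Zn N m Q)) =
        ((1 + 20 * s) * (N + 2)) * (2 / (N * Zn N m Q)) := by ring
    have h3 : (1 + s') * (2 / N) = ((1 + s') * Zn N m Q) * (2 / (N * Zn N m Q)) := by
      field_simp
    rw [h2, h3]
    exact mul_le_mul_of_nonneg_right h1 (by positivity)
  have hfinR : (1 + 20 * s) / (1 - s) * (2 * (N + 1) / (N * Zn N m Q)) ≤ (1 + s') * (2 / N) := by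
    have h1 : (1 + 20 * s) / (1 - s) * (N + 1) ≤ (1 + s') * Zn N m Q := by
      rw [div_mul_eq_mul_div, div_le_iff₀ h1s]
      have : (1 + 20 * s) * (N + 1) ≤ (1 + 20 * s) * (N + 2) := by nlinarith
      linarith
    have h2 : (1 + 20 * s) / (1 - s) * (2 * (N + 1) / (N * Zn N m Q)) =
        ((1 + 20 * s) / (1 - s) * (N + 1)) * (2 / (N * Zn N m Q)) := by ring
    have h3 : (1 + s') * (2 / N) = ((1 + s') * Zn N m Q) * (2 / (N * Zn N m Q)) := by
      field_simp
    rw [h2, h3]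
    exact mul_le_mul_of_nonneg_right h1 (by positivity)
  have hregE : ∀ v ∈ Z, par v ∈ Z → bnb n par B v = ∅ → ∀ z ∈ Q,
      loadE N par (muB n N m par H B Z Q f₀ Dom) (krB n N m par H B Z Q f₀) v z ≤
        (1 + s') * (2 / N) := by
    intro v hv hp hb z hz
    by_cases hpp : par (par v) ∈ H
    · exact (loadE_R h hk hN1R hv hp hb hpp hz).trans hfinR
    · exact (loadE_O h hk hN1R hv hp hb hpp hz).trans hfinO
  refine ⟨muB n N m par H B Z Q f₀ Dom, krB n N m par H B Z Q f₀, ?_⟩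
  refine ⟨base_law h hk hN1R, fun v hv hp y => mu_U h hv hp y, ?_, ?_, hregE, fun v hv z hz => load_irr h hk hN1R hv hz,
    ?_, ?_, fun v hv hp hb hpp x hx y hy hxy => krR_low h hk hN1R hv hp hb hpp hx hy hxy⟩
  · -- up
    intro v hv hp y hy
    refine (mu_up h hk hN1R hv hp hy).trans ?_
    exact mul_le_mul_of_nonneg_right (by linarith) (vv_nn hk y)
  · -- reg
    intro v hv hor z hz
    by_cases hpH : par v ∈ H
    · refine (load_U h hk hv hpH hz).trans ?_
      rw [div_le_iff₀ (by positivity)]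
      have h1 : (1 + s') * (2 / N) * ((1 - s) * N) = 2 * ((1 + s') * (1 - s)) := by
        field_simp
      rw [h1]
      nlinarith
    · have hb : bnb n par B v = ∅ := by
        rcases hor with h1 | h1
        · exact absurd h1 hpH
        · exact h1
      by_cases hpZ : par v ∈ Z
      · exact (load_le_E h hk hN1R hv hpZ hb hz).trans (hregE v hv hpZ hb z hz)
      · refine (load_root h hk hN1R hv hpH hpZ hb hz).trans (le_trans ?_ hfinO)
        have h2 : (1 + 20 * s) * (2 * (N + 2) / (N * Zn N m Q)) =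
            ((1 + 20 * s) * 2 / Zn N m Q) * ((N + 2) / N) := by
          field_simp
        rw [h2]
        have h3 : (1 : ℝ) ≤ (N + 2) / N := by
          rw [le_div_iff₀ hN0]
          linarith
        have h4 : 0 ≤ (1 + 20 * s) * 2 / Zn N m Q := by positivity
        exact le_mul_of_one_le_right h4 h3
  · -- low
    intro v hv hp y hy hb
    refine le_trans ?_ (mu_low h hk hN1R hv hp hy hb)
    apply mul_le_mul_of_nonneg_right _ (vv_nn hk y)
    have h1 : 0 ≤ s * (s * m) := by positivity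
    nlinarith
  · -- krO
    intro v hv hp hb hpp x y
    have hR : ¬ isR n par H B Z v := by
      rintro (h1 | h1 | h1)
      · exact h1 hp
      · rw [hb] at h1
        exact Finset.not_nonempty_empty h1
      · exact hpp h1
    unfold krB
    rw [if_neg hR]

end SSB
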