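import Pool.Agent.Lib.MP_8a819d_co.AT.KBase

/-!
# MP_8a819d_co, trees with many non-leaves: the base laws, 1. Definitions

JOB BaseL1 (all of this file).

The configuration `BCfg`, laws defined recursively from root laws `rt` and kernels `kr` (`muR`), and the root laws
`rtB` and kernels `krB` of the base laws (see the docstring of BaseL.lean for the meaning).

`muR_par`, `muR_root`: unfold the recursion (`par v < v` for `v ∈ Z` by `IsPar`, `v ≠ 0`).
`muR_nn`, `muR_sum`: strong induction on `v`.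
`AllS_card`: the excluded labels are outside `Q` (at most `s N`) or have `dd (f₀ b) y ∉ Q` for the at most one `b ∈ bnb v`: as `f₀ b ≤ N`,
`y ≤ N`, the difference is in `[0, N] \ Q`, a set of at most `s N + 1` elements, and every difference comes from at most two `y`.
`Axy_card`: additionally `dd x y ∉ Q`, again at most `2 (s N + 1)` labels (`x ≤ N`).
`nr_bd`: `∑ y ∈ E, vv y ≤ (3/N) |E|` for the excluded labels `E ⊆ Icc 1 N`, and `∑ vv = 1`; `vv y = 0` outside `Q`. So the sum over the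
complement is `≥ 1 - (3/N) (5 s N + 4) ≥ 1 - 16 s` if `12/N ≤ s`.
-/

set_option autoImplicit false

namespace SSB

open Finset

/-- the configuration: numbered set `B ⊇ H`, set `Z` to be packed, free labels `Q`, domains `Dom` -/
structure BCfg (n N : ℕ) (par : ℕ → ℕ) (H B Z Q : Finset ℕ) (f₀ : ℕ → ℕ) (Dom : ℕ → Finset ℕ)
    (s : ℝ) : Prop where
  isP : IsPar n par
  N_eq : N = 2 * n - 1
  HB : H ⊆ B
  Bsub : B ⊆ range n
  Zsub : Z ⊆ range n
  BZ : Disjoint B Z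
  Z0 : 0 ∉ Z
  QN : Q ⊆ Icc 1 N
  Qc : (N : ℝ) - Q.card ≤ s * N
  one : ∀ v ∈ Z, (bnb n par B v).card ≤ 1
  fB : ∀ b ∈ B, f₀ b ≤ N
  dom : ∀ h ∈ H, ∀ y ∈ Dom h, y ∈ Q ∧ f₀ h < y ∧ y - f₀ h ∈ Q
  domc : ∀ h ∈ H, (1 - s) * N ≤ ((Dom h).card : ℝ)

/-- laws defined recursively by root laws and kernels -/
noncomputable def muR (N : ℕ) (par : ℕ → ℕ) (Z : Finset ℕ) (rt : ℕ → ℕ → ℝ) (kr : ℕ → ℕ → ℕ → ℝ)
    (v : ℕ) : ℕ → ℝ :=
  if h : par v ∈ Z ∧ par v < v then
    fun y => ∑ x ∈ range (N + 1), muR N par Z rt kr (par v) x * kr v x y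
  else rt v
termination_by v
decreasing_by exact h.2

theorem muR_par {n N : ℕ} {par : ℕ → ℕ} (hpar : IsPar n par) {Z : Finset ℕ} (hZ : Z ⊆ range n)
    (h0 : 0 ∉ Z) (rt : ℕ → ℕ → ℝ) (kr : ℕ → ℕ → ℕ → ℝ) {v : ℕ} (hv : v ∈ Z) (hp : par v ∈ Z) (y : ℕ) :
    muR N par Z rt kr v y = ∑ x ∈ range (N + 1), muR N par Z rt kr (par v) x * kr v x y := by
  have h1 : 1 ≤ v := by
    rcases Nat.eq_zero_or_pos v with h | h
    · exact absurd (h ▸ hv) h0
    · exact h
  have h2 : par v < v := hpar v h1 (mem_range.1 (hZ hv))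
  rw [muR, dif_pos ⟨hp, h2⟩]

theorem muR_root {N : ℕ} {par : ℕ → ℕ} {Z : Finset ℕ} (rt : ℕ → ℕ → ℝ) (kr : ℕ → ℕ → ℕ → ℝ)
    {v : ℕ} (hp : par v ∉ Z) : muR N par Z rt kr v = rt v := by
  rw [muR, dif_neg fun h => hp h.1]

/-- admissible labels of `v` with respect to its neighbours in `B` -/
def AllS (n : ℕ) (par : ℕ → ℕ) (B Q : Finset ℕ) (f₀ : ℕ → ℕ) (v : ℕ) : Finset ℕ :=
  Q.filter (fun y => ∀ b ∈ bnb n par B v, dd (f₀ b) y ∈ Q)

/-- admissible labels of `v` if the parent (in `Z`) has the label `x` -/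
def Axy (n : ℕ) (par : ℕ → ℕ) (B Q : Finset ℕ) (f₀ : ℕ → ℕ) (v x : ℕ) : Finset ℕ :=
  (AllS n par B Q f₀ v).filter (fun y => dd x y ∈ Q)

/-- type R (for `par v ∉ H`) -/
def isR (n : ℕ) (par : ℕ → ℕ) (H B Z : Finset ℕ) (v : ℕ) : Prop :=
  par v ∉ Z ∨ (bnb n par B v).Nonempty ∨ par (par v) ∈ H

open Classical in
/-- kernels of the base laws -/
noncomputable def krB (n N m : ℕ) (par : ℕ → ℕ) (H B Z Q : Finset ℕ) (f₀ : ℕ → ℕ) (v x y : ℕ) : ℝ :=
  if isR n par H B Z v then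
    (if y ∈ Axy n par B Q f₀ v x then vv N m Q y / ∑ w ∈ Axy n par B Q f₀ v x, vv N m Q w else 0)
  else PP N m Q x y

/-- root laws of the base laws -/
noncomputable def rtB (n N m : ℕ) (par : ℕ → ℕ) (H B Q : Finset ℕ) (f₀ : ℕ → ℕ) (Dom : ℕ → Finset ℕ)
    (v y : ℕ) : ℝ :=
  if par v ∈ H then (if y ∈ Dom (par v) then 1 / ((Dom (par v)).card : ℝ) else 0)
  else (if y ∈ AllS n par B Q f₀ v then vv N m Q y / ∑ w ∈ AllS n par B Q f₀ v, vv N m Q w else 0)

/-- the base laws -/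
noncomputable def muB (n N m : ℕ) (par : ℕ → ℕ) (H B Z Q : Finset ℕ) (f₀ : ℕ → ℕ) (Dom : ℕ → Finset ℕ) :
    ℕ → ℕ → ℝ :=
  muR N par Z (rtB n N m par H B Q f₀ Dom) (krB n N m par H B Z Q f₀)

variable {n N m : ℕ} {par : ℕ → ℕ} {H B Z Q : Finset ℕ} {f₀ : ℕ → ℕ} {Dom : ℕ → Finset ℕ} {s : ℝ}

private theorem bad_card {N a : ℕ} {Q E : Finset ℕ} (ha : a ≤ N) (hQ : Q ⊆ Icc 1 N)
    (hE : E ⊆ Icc 1 N) :
    ((E.filter (fun y => ¬ dd a y ∈ Q)).card : ℝ) ≤ 2 * ((N : ℝ) - Q.card + 1) := by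
  have h1 : (E.filter (fun y => ¬ dd a y ∈ Q)).card ≤
      2 * ((E.filter (fun y => ¬ dd a y ∈ Q)).image (fun y => dd a y)).card := by
    apply card_le_mul_card_image
    intro d _
    apply le_trans (card_le_card (t := {a - d, a + d}) ?_) card_le_two
    intro y hy
    have h2 := (mem_filter.1 hy).2
    rw [mem_insert, mem_singleton]
    unfold dd at h2
    omega
  have h3 : (E.filter (fun y => ¬ dd a y ∈ Q)).image (fun y => dd a y) ⊆ range (N + 1) \ Q := by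
    intro d hd
    obtain ⟨y, hy, rfl⟩ := mem_image.1 hd
    obtain ⟨hy1, hy2⟩ := mem_filter.1 hy
    have h4 := mem_Icc.1 (hE hy1)
    refine mem_sdiff.2 ⟨?_, hy2⟩
    rw [mem_range]
    unfold dd
    omega
  have h5 : Q ⊆ range (N + 1) := by
    intro y hy
    have h6 := mem_Icc.1 (hQ hy)
    rw [mem_range]
    omega
  have h6 : (range (N + 1) \ Q).card + Q.card = N + 1 := by
    rw [card_sdiff_add_card_eq_card h5, card_range]
  have h7 := card_le_card h3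
  have h8 : ((E.filter (fun y => ¬ dd a y ∈ Q)).card : ℝ) ≤
      2 * (((E.filter (fun y => ¬ dd a y ∈ Q)).image (fun y => dd a y)).card : ℝ) := by
    exact_mod_cast h1
  have h9 : (((E.filter (fun y => ¬ dd a y ∈ Q)).image (fun y => dd a y)).card : ℝ) ≤
      ((range (N + 1) \ Q).card : ℝ) := by exact_mod_cast h7
  have h10 : ((range (N + 1) \ Q).card : ℝ) + Q.card = N + 1 := by exact_mod_cast h6
  linarith

private theorem good_card {N a : ℕ} {Q E : Finset ℕ} (ha : a ≤ N) (hQ : Q ⊆ Icc 1 N)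
    (hE : E ⊆ Icc 1 N) :
    (E.card : ℝ) ≤ ((E.filter (fun y => dd a y ∈ Q)).card : ℝ) + 2 * ((N : ℝ) - Q.card + 1) := by
  have h1 := bad_card ha hQ hE
  have h2 : (E.filter (fun y => dd a y ∈ Q)).card + (E.filter (fun y => ¬ dd a y ∈ Q)).card =
      E.card := card_filter_add_card_filter_not _
  have h3 : ((E.filter (fun y => dd a y ∈ Q)).card : ℝ) +
      ((E.filter (fun y => ¬ dd a y ∈ Q)).card : ℝ) = E.card := by exact_mod_cast h2
  linarith

private theorem cfg_nn (h : BCfg n N par H B Z Q f₀ Dom s) : 0 ≤ s * N := by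
  have h1 := card_le_card h.QN
  rw [Nat.card_Icc] at h1
  have h2 : (Q.card : ℝ) ≤ N := by
    exact_mod_cast (by omega : Q.card ≤ N)
  linarith [h.Qc]

theorem AllS_card (h : BCfg n N par H B Z Q f₀ Dom s) {v : ℕ} (hv : v ∈ Z) :
    (N : ℝ) - (AllS n par B Q f₀ v).card ≤ 3 * s * N + 2 := by
  have hc := h.Qc
  have hnn := cfg_nn h
  rcases Nat.le_one_iff_eq_zero_or_eq_one.1 (h.one v hv) with h0 | h1
  · have h2 : AllS n par B Q f₀ v = Q := by
      unfold AllS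
      rw [card_eq_zero.1 h0]
      simp
    rw [h2]
    nlinarith
  · obtain ⟨b, hb⟩ := card_eq_one.1 h1
    have h2 : AllS n par B Q f₀ v = Q.filter (fun y => dd (f₀ b) y ∈ Q) := by
      unfold AllS
      rw [hb]
      simp
    have h3 : b ∈ bnb n par B v := by
      rw [hb]
      exact mem_singleton_self b
    have h4 := h.fB b (mem_filter.1 h3).1
    have h5 := good_card h4 h.QN h.QN
    rw [h2]
    nlinarith

theorem Axy_card (h : BCfg n N par H B Z Q f₀ Dom s) {v x : ℕ} (hv : v ∈ Z) (hx : x ≤ N) :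
    (N : ℝ) - (Axy n par B Q f₀ v x).card ≤ 5 * s * N + 4 := by
  have hc := h.Qc
  have h1 := AllS_card h hv
  have h2 : AllS n par B Q f₀ v ⊆ Icc 1 N := fun y hy => h.QN (mem_filter.1 hy).1
  have h3 := good_card hx h.QN h2
  unfold Axy
  nlinarith

/-- sums of `vv` over subsets of `Q` that miss few labels -/
theorem nr_bd (h : KB N m Q s) (hs : 12 ≤ s * N) {E : Finset ℕ} (hE : E ⊆ Q)
    (hc : (N : ℝ) - E.card ≤ 5 * s * N + 4) :
    1 - 16 * s ≤ ∑ w ∈ E, vv N m Q w ∧ ∑ w ∈ E, vv N m Q w ≤ 1 := by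
  have hN : (0 : ℝ) < N := by
    have h1 := h.m_ge
    have h2 := h.N_ge
    exact_mod_cast (by omega : 0 < N)
  have hEN : E ⊆ range (N + 1) := by
    intro y hy
    have h6 := mem_Icc.1 (h.sub (hE hy))
    rw [mem_range]
    omega
  have hEI : E ⊆ Icc 1 N := fun y hy => h.sub (hE hy)
  have h1 : ∑ w ∈ range (N + 1) \ E, vv N m Q w + ∑ w ∈ E, vv N m Q w = 1 := by
    rw [sum_sdiff hEN, vv_sum h]
  have h2 : 0 ≤ ∑ w ∈ range (N + 1) \ E, vv N m Q w := sum_nonneg fun w _ => vv_nn h w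
  refine ⟨?_, by linarith⟩
  have h3 : ∑ w ∈ range (N + 1) \ E, vv N m Q w = ∑ w ∈ Icc 1 N \ E, vv N m Q w := by
    symm
    apply sum_subset
    · apply sdiff_subset_sdiff _ (subset_refl _)
      intro y hy
      have h6 := mem_Icc.1 hy
      rw [mem_range]
      omega
    · intro y hy hy2
      by_contra h4
      have h5 := (vv_ne h h4).1
      exact hy2 (mem_sdiff.2 ⟨h.sub h5, (mem_sdiff.1 hy).2⟩)
  have h4 : ∑ w ∈ Icc 1 N \ E, vv N m Q w ≤ ∑ _w ∈ Icc 1 N \ E, (3 / N : ℝ) := by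
    apply sum_le_sum
    intro w hw
    exact (vv_le h (mem_Icc.1 (mem_sdiff.1 hw).1).2).2
  rw [sum_const, nsmul_eq_mul] at h4
  have h5 : (Icc 1 N \ E).card + E.card = N := by
    rw [card_sdiff_add_card_eq_card hEI, Nat.card_Icc]
    omega
  have h6 : ((Icc 1 N \ E).card : ℝ) + E.card = N := by exact_mod_cast h5
  have h7 : ((Icc 1 N \ E).card : ℝ) ≤ 5 * s * N + 4 := by linarith
  have h8 : ((Icc 1 N \ E).card : ℝ) * (3 / N) ≤ (5 * s * N + 4) * (3 / N) :=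
    mul_le_mul_of_nonneg_right h7 (by positivity)
  have h9 : (5 * s * N + 4) * (3 / N) ≤ 16 * s := by
    rw [mul_div_assoc', div_le_iff₀ hN]
    linarith
  linarith

end SSB
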