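import Pool.Agent.Lib.MP_8a819d_co.AT.BaseL1

/-!
# MP_8a819d_co, trees with many non-leaves: the base laws, 2. Upper bounds and `LawV`

JOB BaseL2 (all of this file).

`BL s`: the standing numerical hypotheses. `mu_up`: strong induction on `v` (`par v ∉ H`):
* `par v ∉ Z`: root law, `vv y / nr ≤ vv y / (1 - 16 s) ≤ (1 + 20 s) vv y` (`nr_bd`, `32 s ≤ ...`, `s ≤ 1/1000`), `0` outside `AllS`;
* `par v ∈ Z`, type R: `∑ x mu (par v) x * kr v x y ≤ ∑ x mu (par v) x (1 + 20 s) vv y = (1 + 20 s) vv y`;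
* `par v ∈ Z`, type O: then `par (par v) ∉ H` and `∑ x (1 + 20 s) vv x PP x y = (1 + 20 s) vv y` (`stat`).
`mu_U`: for `par v ∈ H` (`par v ∉ Z` as `H ⊆ B`) `mu v y = 1/|Dom|` or `0`, `|Dom| ≥ (1 - s) N`.
`mu_le4`: `≤ 4/N` (`(1 + 20 s) 3/N` or `1/((1-s) N)`).
`mu_V0`: `par v ∉ H`, `mu v x ≠ 0`, `x ≤ N` gives `vv x ≠ 0`, hence `V0 x ≠ 0`.
`base_law`: fields of `LawV` with `C = 4 m`:
* `mu_nn`, `kr_nn`: clear (induction). `mu_sum`: induction (`kr_sum`), the root laws have sum `1` (`vv = 0` outside `Q ⊆ range (N+1)`).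
* `kr_le`: type R: `(1 + 20 s) vv y ≤ 4/N` for `y ≤ N` (and `0` for `y > N`); type O: `PP_le`.
* `kr_sum`: type R: the denominator is `≥ 1 - 16 s > 0` for every `x ≤ N`; type O: `V0 x ≠ 0` by `mu_V0` for `par v` (type O means `par (par v) ∉ H`),
  `PP_sum`.
* `cons`: `muR_par`. `rule_root`: `par v ∉ Z`: `usv v 0 y = {y} ∪ {dd (f₀ b) y : b ∈ bnb v}`: for `par v ∈ H` the only element of `bnb v` is
  `par v` (`one`; `par v ∈ bnb v` since `v ≥ 1`) and `dd (f₀ h) y = y - f₀ h ∈ Q`; otherwise `y ∈ AllS v`.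
  `rule`: type R: `y ∈ Axy v x`; type O: `bnb v = ∅`, `kk x y ≠ 0`, `kk_spec`.
-/

set_option autoImplicit false

namespace SSB

open Finset

variable {n N m : ℕ} {par : ℕ → ℕ} {H B Z Q : Finset ℕ} {f₀ : ℕ → ℕ} {Dom : ℕ → Finset ℕ} {s : ℝ}

theorem kb_of (h : BCfg n N par H B Z Q f₀ Dom s) (hm : 1000 ≤ m) (hN : 1000 * m ≤ N) (hs : 0 ≤ s)
    (hms : 1000 * m * s ≤ 1) : KB N m Q s := by
  exact ⟨hm, hN, h.QN, hs, h.Qc, hms⟩

private theorem basel2_s (hk : KB N m Q s) : s ≤ 1 / 1000000 := by
  have hm : (1000 : ℝ) ≤ m := by exact_mod_cast hk.m_ge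
  have hs := hk.sm
  have hsn := hk.s_nn
  nlinarith

private theorem basel2_N (hk : KB N m Q s) : (0 : ℝ) < N := by
  have := hk.m_ge
  have := hk.N_ge
  exact_mod_cast (by omega : 0 < N)

private theorem basel2_vvN (hk : KB N m Q s) {y : ℕ} (hy : vv N m Q y ≠ 0) : y ∈ Q := (vv_ne hk hy).1

private theorem basel2_div (hk : KB N m Q s) {S w : ℝ} (hS : 1 - 16 * s ≤ S) (hw : 0 ≤ w) :
    w / S ≤ (1 + 20 * s) * w := by
  have h1 := basel2_s hk
  have h0 := hk.s_nn
  have hSp : 0 < S := by linarith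
  rw [div_le_iff₀ hSp]
  have h2 : 1 ≤ (1 + 20 * s) * S := by
    have : (1 + 20 * s) * (1 - 16 * s) ≤ (1 + 20 * s) * S :=
      mul_le_mul_of_nonneg_left hS (by linarith)
    nlinarith
  nlinarith [mul_le_mul_of_nonneg_left h2 hw]

private theorem basel2_AllS_sub (v : ℕ) : AllS n par B Q f₀ v ⊆ Q := filter_subset _ _

private theorem basel2_Axy_sub (v x : ℕ) : Axy n par B Q f₀ v x ⊆ Q :=
  (filter_subset _ _).trans (filter_subset _ _)

private theorem basel2_Axy_nr (h : BCfg n N par H B Z Q f₀ Dom s) (hk : KB N m Q s) (hs : 12 ≤ s * N)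
    {v : ℕ} (hv : v ∈ Z) {x : ℕ} (hx : x ≤ N) :
    1 - 16 * s ≤ ∑ w ∈ Axy n par B Q f₀ v x, vv N m Q w :=
  (nr_bd hk hs (basel2_Axy_sub v x) (Axy_card h hv hx)).1

private theorem basel2_AllS_nr (h : BCfg n N par H B Z Q f₀ Dom s) (hk : KB N m Q s) (hs : 12 ≤ s * N)
    {v : ℕ} (hv : v ∈ Z) : 1 - 16 * s ≤ ∑ w ∈ AllS n par B Q f₀ v, vv N m Q w := by
  refine (nr_bd hk hs (basel2_AllS_sub v) ?_).1
  have h1 := AllS_card h hv
  have h2 := hk.s_nn
  have h3 := basel2_N hk
  nlinarith [mul_nonneg h2 h3.le]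

theorem krB_up (h : BCfg n N par H B Z Q f₀ Dom s) (hk : KB N m Q s) (hs : 12 ≤ s * N) {v : ℕ}
    (hv : v ∈ Z) (hR : isR n par H B Z v) {x : ℕ} (hx : x ≤ N) (y : ℕ) :
    krB n N m par H B Z Q f₀ v x y ≤ (1 + 20 * s) * vv N m Q y := by
  unfold krB
  rw [if_pos hR]
  split_ifs with hy
  · exact basel2_div hk (basel2_Axy_nr h hk hs hv hx) (vv_nn hk y)
  · have := vv_nn hk y
    have := hk.s_nn
    positivity

private theorem basel2_kr_nn (hk : KB N m Q s) (v x y : ℕ) : 0 ≤ krB n N m par H B Z Q f₀ v x y := by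
  unfold krB
  split_ifs
  · exact div_nonneg (vv_nn hk y) (Finset.sum_nonneg (fun i _ => vv_nn hk i))
  · exact le_refl _
  · exact PP_nn x y

private theorem basel2_rt_nn (hk : KB N m Q s) (v y : ℕ) : 0 ≤ rtB n N m par H B Q f₀ Dom v y := by
  unfold rtB
  split_ifs
  · positivity
  · exact le_refl _
  · exact div_nonneg (vv_nn hk y) (Finset.sum_nonneg (fun i _ => vv_nn hk i))
  · exact le_refl _

private theorem basel2_kr_N (hk : KB N m Q s) (v x : ℕ) {y : ℕ} (hy : N < y) :
    krB n N m par H B Z Q f₀ v x y = 0 := by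
  have hyQ : y ∉ Q := by
    intro hyQ
    have := mem_Icc.1 (hk.sub hyQ)
    omega
  unfold krB
  split_ifs with h1 h2
  · exact absurd (basel2_Axy_sub v x h2) hyQ
  · rfl
  · unfold PP
    rcases kk_spec hk x y with hh | hh
    · exact absurd hh.2.2.1 hyQ
    · rw [hh.1, zero_div]

private theorem basel2_mu_N (h : BCfg n N par H B Z Q f₀ Dom s) (hk : KB N m Q s) (v : ℕ) {y : ℕ}
    (hy : N < y) : muB n N m par H B Z Q f₀ Dom v y = 0 := by
  have hyQ : y ∉ Q := by
    intro hyQ
    have := mem_Icc.1 (hk.sub hyQ)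
    omega
  unfold muB
  rw [muR]
  split_ifs with h1
  · apply Finset.sum_eq_zero
    intro x _
    rw [basel2_kr_N hk v x hy, mul_zero]
  · unfold rtB
    split_ifs with h2 h3 h4
    · exact absurd (h.dom _ h2 _ h3).1 hyQ
    · rfl
    · exact absurd (basel2_AllS_sub v h4) hyQ
    · rfl

private theorem basel2_kr_sumR (h : BCfg n N par H B Z Q f₀ Dom s) (hk : KB N m Q s)
    (hs : 12 ≤ s * N) {v : ℕ} (hv : v ∈ Z) (hR : isR n par H B Z v) {x : ℕ} (hx : x ≤ N) :
    ∑ y ∈ range (N + 1), krB n N m par H B Z Q f₀ v x y = 1 := by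
  have h1 := basel2_Axy_nr h hk hs hv hx
  have h2 := basel2_s hk
  have h3 : 0 < ∑ w ∈ Axy n par B Q f₀ v x, vv N m Q w := by linarith
  unfold krB
  simp only [if_pos hR]
  rw [← Finset.sum_filter, ← Finset.sum_div]
  have e : (range (N + 1)).filter (fun y => y ∈ Axy n par B Q f₀ v x) = Axy n par B Q f₀ v x := by
    ext y
    simp only [mem_filter, mem_range, and_iff_right_iff_imp]
    intro hy
    have := mem_Icc.1 (hk.sub (basel2_Axy_sub v x hy))
    omega
  rw [e]
  exact div_self h3.ne'

private theorem basel2_rt_sum (h : BCfg n N par H B Z Q f₀ Dom s) (hk : KB N m Q s)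
    (hs : 12 ≤ s * N) {v : ℕ} (hv : v ∈ Z) :
    ∑ y ∈ range (N + 1), rtB n N m par H B Q f₀ Dom v y = 1 := by
  have h2 := basel2_s hk
  have hN := basel2_N hk
  unfold rtB
  by_cases hp : par v ∈ H
  · simp only [if_pos hp]
    rw [← Finset.sum_filter]
    have e : (range (N + 1)).filter (fun y => y ∈ Dom (par v)) = Dom (par v) := by
      ext y
      simp only [mem_filter, mem_range, and_iff_right_iff_imp]
      intro hy
      have := mem_Icc.1 (hk.sub (h.dom _ hp _ hy).1)
      omega
    rw [e, Finset.sum_const, nsmul_eq_mul]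
    have hc := h.domc _ hp
    have hpos : 0 < ((Dom (par v)).card : ℝ) := by
      refine lt_of_lt_of_le ?_ hc
      have : 0 < 1 - s := by linarith
      positivity
    field_simp
  · simp only [if_neg hp]
    have h1 := basel2_AllS_nr h hk hs hv
    have h3 : 0 < ∑ w ∈ AllS n par B Q f₀ v, vv N m Q w := by linarith
    rw [← Finset.sum_filter, ← Finset.sum_div]
    have e : (range (N + 1)).filter (fun y => y ∈ AllS n par B Q f₀ v) = AllS n par B Q f₀ v := by
      ext y
      simp only [mem_filter, mem_range, and_iff_right_iff_imp]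
      intro hy
      have := mem_Icc.1 (hk.sub (basel2_AllS_sub v hy))
      omega
    rw [e]
    exact div_self h3.ne'

theorem mu_nnB (h : BCfg n N par H B Z Q f₀ Dom s) (hk : KB N m Q s) (v y : ℕ) :
    0 ≤ muB n N m par H B Z Q f₀ Dom v y := by
  unfold muB
  induction v using Nat.strong_induction_on generalizing y with
  | _ v ih =>
    rw [muR]
    split_ifs with h1
    · apply Finset.sum_nonneg
      intro x _
      exact mul_nonneg (ih _ h1.2 x) (basel2_kr_nn hk v x y)
    · exact basel2_rt_nn hk v y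

theorem mu_U (h : BCfg n N par H B Z Q f₀ Dom s) {v : ℕ} (hv : v ∈ Z) (hp : par v ∈ H) (y : ℕ) :
    muB n N m par H B Z Q f₀ Dom v y =
      if y ∈ Dom (par v) then 1 / ((Dom (par v)).card : ℝ) else 0 := by
  unfold muB
  have hpZ : par v ∉ Z := fun hz => (Finset.disjoint_left.1 h.BZ (h.HB hp)) hz
  rw [muR_root _ _ hpZ]
  unfold rtB
  rw [if_pos hp]

private theorem basel2_kr_sum (h : BCfg n N par H B Z Q f₀ Dom s) (hk : KB N m Q s)
    (hs : 12 ≤ s * N) {v : ℕ} (hv : v ∈ Z) (hp : par v ∈ Z)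
    (hup : par (par v) ∉ H → ∀ y ≤ N, muB n N m par H B Z Q f₀ Dom (par v) y ≤
      (1 + 20 * s) * vv N m Q y) {x : ℕ} (hx : x ≤ N)
    (hm : muB n N m par H B Z Q f₀ Dom (par v) x ≠ 0) :
    ∑ y ∈ range (N + 1), krB n N m par H B Z Q f₀ v x y = 1 := by
  by_cases hR : isR n par H B Z v
  · exact basel2_kr_sumR h hk hs hv hR hx
  · have hpp : par (par v) ∉ H := fun hh => hR (Or.inr (Or.inr hh))
    have hvx : vv N m Q x ≠ 0 := by
      intro h0
      have h1 := hup hpp x hx
      rw [h0, mul_zero] at h1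
      exact hm (le_antisymm h1 (mu_nnB h hk _ _))
    unfold krB
    simp only [if_neg hR]
    exact PP_sum x (vv_ne hk hvx).2

private theorem basel2_main (h : BCfg n N par H B Z Q f₀ Dom s) (hk : KB N m Q s) (hs : 12 ≤ s * N)
    (v : ℕ) : v ∈ Z → (∑ y ∈ range (N + 1), muB n N m par H B Z Q f₀ Dom v y = 1) ∧
      (par v ∉ H → ∀ y ≤ N, muB n N m par H B Z Q f₀ Dom v y ≤ (1 + 20 * s) * vv N m Q y) := by
  induction v using Nat.strong_induction_on with
  | _ v ih =>
    intro hv
    have hs0 := hk.s_nn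
    by_cases hp : par v ∈ Z
    · have hlt : par v < v := by
        apply h.isP v
        · rcases Nat.eq_zero_or_pos v with h0 | h0
          · exact absurd (h0 ▸ hv) h.Z0
          · exact h0
        · exact mem_range.1 (h.Zsub hv)
      obtain ⟨ih1, ih2⟩ := ih _ hlt hp
      have e : ∀ y, muB n N m par H B Z Q f₀ Dom v y = ∑ x ∈ range (N + 1),
          muB n N m par H B Z Q f₀ Dom (par v) x * krB n N m par H B Z Q f₀ v x y :=
        fun y => muR_par h.isP h.Zsub h.Z0 _ _ hv hp y
      refine ⟨?_, ?_⟩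
      · simp_rw [e]
        rw [Finset.sum_comm]
        rw [← ih1]
        apply Finset.sum_congr rfl
        intro x hx
        rw [← Finset.mul_sum]
        by_cases hm : muB n N m par H B Z Q f₀ Dom (par v) x = 0
        · rw [hm, zero_mul]
        · rw [basel2_kr_sum h hk hs hv hp (fun hpp => ih2 hpp) (Nat.lt_succ_iff.1 (mem_range.1 hx)) hm,
            mul_one]
      · intro hpH y hy
        rw [e]
        by_cases hR : isR n par H B Z v
        · calc ∑ x ∈ range (N + 1), muB n N m par H B Z Q f₀ Dom (par v) x *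
                krB n N m par H B Z Q f₀ v x y
              ≤ ∑ x ∈ range (N + 1), muB n N m par H B Z Q f₀ Dom (par v) x *
                ((1 + 20 * s) * vv N m Q y) := by
                apply Finset.sum_le_sum
                intro x hx
                exact mul_le_mul_of_nonneg_left
                  (krB_up h hk hs hv hR (Nat.lt_succ_iff.1 (mem_range.1 hx)) y) (mu_nnB h hk _ _)
            _ = (1 + 20 * s) * vv N m Q y := by
                rw [← Finset.sum_mul, ih1, one_mul]
        · have hpp : par (par v) ∉ H := fun hh => hR (Or.inr (Or.inr hh))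
          calc ∑ x ∈ range (N + 1), muB n N m par H B Z Q f₀ Dom (par v) x *
                krB n N m par H B Z Q f₀ v x y
              ≤ ∑ x ∈ range (N + 1), (1 + 20 * s) * (vv N m Q x * PP N m Q x y) := by
                apply Finset.sum_le_sum
                intro x hx
                unfold krB
                rw [if_neg hR, ← mul_assoc]
                exact mul_le_mul_of_nonneg_right
                  (ih2 hpp x (Nat.lt_succ_iff.1 (mem_range.1 hx))) (PP_nn x y)
            _ = (1 + 20 * s) * vv N m Q y := by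
                rw [← Finset.mul_sum, stat hk hy]
    · have e : muB n N m par H B Z Q f₀ Dom v = rtB n N m par H B Q f₀ Dom v := muR_root _ _ hp
      rw [e]
      refine ⟨basel2_rt_sum h hk hs hv, ?_⟩
      intro hpH y hy
      unfold rtB
      rw [if_neg hpH]
      split_ifs
      · exact basel2_div hk (basel2_AllS_nr h hk hs hv) (vv_nn hk y)
      · have := vv_nn hk y
        positivity

private theorem basel2_le4 (h : BCfg n N par H B Z Q f₀ Dom s) (hk : KB N m Q s) (hs : 12 ≤ s * N) {v : ℕ}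
    (hv : v ∈ Z) (y : ℕ) : muB n N m par H B Z Q f₀ Dom v y ≤ 4 / N := by
  have hN := basel2_N hk
  have hs1 := basel2_s hk
  have hs0 := hk.s_nn
  by_cases hp : par v ∈ H
  · rw [mu_U h hv hp]
    split_ifs
    · have hc := h.domc _ hp
      have h1 : (N : ℝ) / 4 ≤ ((Dom (par v)).card : ℝ) := by nlinarith
      have h2 : 1 / ((Dom (par v)).card : ℝ) ≤ 1 / ((N : ℝ) / 4) :=
        one_div_le_one_div_of_le (by positivity) h1
      refine le_trans h2 (le_of_eq ?_)
      field_simp
    · positivity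
  · by_cases hy : y ≤ N
    · refine le_trans ((basel2_main h hk hs v hv).2 hp y hy) ?_
      have h1 := (vv_le hk hy).2
      have h2 := vv_nn hk y
      have h3 : (1 + 20 * s) * vv N m Q y ≤ (1 + 20 * s) * (3 / N) :=
        mul_le_mul_of_nonneg_left h1 (by linarith)
      refine le_trans h3 ?_
      have h4 : 0 < 1 / (N : ℝ) := by positivity
      have e1 : 3 / (N : ℝ) = 3 * (1 / N) := by ring
      have e2 : 4 / (N : ℝ) = 4 * (1 / N) := by ring
      rw [e1, e2]
      nlinarith
    · rw [basel2_mu_N h hk v (by omega)]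
      positivity

theorem base_law (h : BCfg n N par H B Z Q f₀ Dom s) (hk : KB N m Q s) (hs : 12 ≤ s * N) :
    LawV n N par B Z Q f₀ (4 * m) (muB n N m par H B Z Q f₀ Dom) (krB n N m par H B Z Q f₀) := by
  have hN := basel2_N hk
  have hs0 := hk.s_nn
  have hs1 := basel2_s hk
  have hm1 : (1 : ℝ) ≤ m := by
    have := hk.m_ge
    exact_mod_cast (by omega : 1 ≤ m)
  have h4 : (4 : ℝ) / N ≤ 4 * m / N := by
    apply div_le_div_of_nonneg_right _ hN.le
    linarith
  refine ⟨fun v _ y => mu_nnB h hk v y, fun v hv y => (basel2_le4 h hk hs hv y).trans h4,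
    fun v hv => (basel2_main h hk hs v hv).1, fun v _ _ x y => basel2_kr_nn hk v x y, ?_, ?_, ?_, ?_, ?_⟩
  · intro v hv hp x y hm
    have hx : x ≤ N := by
      by_contra hx
      exact hm (basel2_mu_N h hk _ (by omega))
    by_cases hR : isR n par H B Z v
    · by_cases hy : y ≤ N
      · refine le_trans (krB_up h hk hs hv hR hx y) ?_
        have h1 := (vv_le hk hy).2
        have h3 : (1 + 20 * s) * vv N m Q y ≤ (1 + 20 * s) * (3 / N) :=
          mul_le_mul_of_nonneg_left h1 (by linarith)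
        refine le_trans h3 (le_trans ?_ h4)
        have h4 : 0 < 1 / (N : ℝ) := by positivity
        have e1 : 3 / (N : ℝ) = 3 * (1 / N) := by ring
        have e2 : 4 / (N : ℝ) = 4 * (1 / N) := by ring
        rw [e1, e2]
        nlinarith
      · rw [basel2_kr_N hk v x (by omega)]
        positivity
    · unfold krB
      rw [if_neg hR]
      refine le_trans (PP_le hk x y) ?_
      apply div_le_div_of_nonneg_right _ hN.le
      linarith
  · intro v hv hp x hx hm
    exact basel2_kr_sum h hk hs hv hp (basel2_main h hk hs _ hp).2 hx hm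
  · intro v hv hp y hy
    exact (muR_par h.isP h.Zsub h.Z0 _ _ hv hp y).symm
  · intro v hv hp y hy hm
    have e : muB n N m par H B Z Q f₀ Dom v = rtB n N m par H B Q f₀ Dom v := muR_root _ _ hp
    rw [e] at hm
    unfold usv
    rw [if_neg hp, union_empty]
    by_cases hH : par v ∈ H
    · unfold rtB at hm
      rw [if_pos hH] at hm
      have hyD : y ∈ Dom (par v) := by
        by_contra hyD
        rw [if_neg hyD] at hm
        exact hm rfl
      obtain ⟨d1, d2, d3⟩ := h.dom _ hH _ hyD
      have hv1 : 1 ≤ v := by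
        rcases Nat.eq_zero_or_pos v with h0 | h0
        · exact absurd (h0 ▸ hv) h.Z0
        · exact h0
      have hvn := mem_range.1 (h.Zsub hv)
      have hmem : par v ∈ bnb n par B v := by
        unfold bnb
        rw [mem_filter]
        exact ⟨h.HB hH, Or.inl ⟨hv1, hvn, rfl⟩⟩
      intro z hz
      rw [mem_insert, mem_image] at hz
      rcases hz with rfl | ⟨b, hb, rfl⟩
      · exact d1
      · have : b = par v := Finset.card_le_one.1 (h.one v hv) _ hb _ hmem
        subst this
        have e2 : dd (f₀ (par v)) y = y - f₀ (par v) := by unfold dd; omega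
        rw [e2]
        exact d3
    · unfold rtB at hm
      rw [if_neg hH] at hm
      have hyD : y ∈ AllS n par B Q f₀ v := by
        by_contra hyD
        rw [if_neg hyD] at hm
        exact hm rfl
      unfold AllS at hyD
      rw [mem_filter] at hyD
      intro z hz
      rw [mem_insert, mem_image] at hz
      rcases hz with rfl | ⟨b, hb, rfl⟩
      · exact hyD.1
      · exact hyD.2 b hb
  · intro v hv hp x hx y hy hm
    have hkr := right_ne_zero_of_mul hm
    unfold usv
    rw [if_pos hp]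
    by_cases hR : isR n par H B Z v
    · unfold krB at hkr
      rw [if_pos hR] at hkr
      have hyD : y ∈ Axy n par B Q f₀ v x := by
        by_contra hyD
        rw [if_neg hyD] at hkr
        exact hkr rfl
      unfold Axy AllS at hyD
      rw [mem_filter, mem_filter] at hyD
      intro z hz
      rw [mem_union, mem_insert, mem_image, mem_singleton] at hz
      rcases hz with (rfl | ⟨b, hb, rfl⟩) | rfl
      · exact hyD.1.1
      · exact hyD.1.2 b hb
      · exact hyD.2
    · unfold krB at hkr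
      rw [if_neg hR] at hkr
      have hb0 : bnb n par B v = ∅ := by
        by_contra hb
        exact hR (Or.inr (Or.inl (Finset.nonempty_iff_ne_empty.2 hb)))
      have hkk : kk N m Q x y ≠ 0 := by
        intro h0
        apply hkr
        unfold PP
        rw [h0, zero_div]
      rcases kk_spec hk x y with hh | hh
      · intro z hz
        rw [hb0, image_empty, mem_union, mem_insert, mem_singleton] at hz
        rcases hz with (rfl | hz) | rfl
        · exact hh.2.2.1
        · exact absurd hz (notMem_empty _)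
        · exact hh.2.2.2.1
      · exact absurd hh.1 hkk

theorem mu_up (h : BCfg n N par H B Z Q f₀ Dom s) (hk : KB N m Q s) (hs : 12 ≤ s * N) {v : ℕ}
    (hv : v ∈ Z) (hp : par v ∉ H) {y : ℕ} (hy : y ≤ N) :
    muB n N m par H B Z Q f₀ Dom v y ≤ (1 + 20 * s) * vv N m Q y := by
  exact (basel2_main h hk hs v hv).2 hp y hy

theorem mu_le4 (h : BCfg n N par H B Z Q f₀ Dom s) (hk : KB N m Q s) (hs : 12 ≤ s * N) {v : ℕ}
    (hv : v ∈ Z) (y : ℕ) : muB n N m par H B Z Q f₀ Dom v y ≤ 4 / N := by
  exact basel2_le4 h hk hs hv y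

end SSB
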