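import Pool.Agent.Lib.MP_8a819d_co.AT.BaseL2

/-!
# MP_8a819d_co, trees with many non-leaves: the base laws, 3. Loads

JOB BaseL3 (all of this file).

Let `μ = muB ..`, `κ = krB ..`, `e = (N + 2)/Zn - 1`, so that `2 (N + 2)/(N Zn) = (1 + e) 2/N`; the bounds are stated with
`Zn N m Q`. Everything from `mu_up`, `krB_up`, `mu_U`, `edge_le`, `vv_le`, `kk_spec`.

* `load_U`: `par v ∈ H`: `par v ∉ Z`, `bnb v = {par v}`; `z ∈ usv v 0 y` and `y ∈ Dom` imply `y = z` or `y = z + f₀ (par v)`: at most two `y`.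
* `load_root`: `par v ∉ H`, `par v ∉ Z`, `bnb v = ∅`: `usv v 0 y = {y}`; load `= μ v z ≤ (1 + 20 s) vv z ≤ (1 + 20 s) 2 z/(N Zn)`.
* `loadE_R`: `par v ∈ Z`, `bnb v = ∅`, `par (par v) ∈ H`: `μ v z ≤ (1+20s) 2 z/(N Zn)`; the double sum over `dd x y = z`: `y = x + z` or
  `y = x - z` (`z ≥ 1`): `≤ ∑ x ≤ N, (1/((1-s)N)) (1+20s) (vv (x+z) [x + z ≤ N] + vv (x-z) [x ≥ z])`
  `≤ (1+20s)/((1-s)N) (∑ y ∈ (z, N], 2 y/(N Zn) + ∑ y ∈ [0, N-z], 2y/(N Zn)) = (1+20s)/((1-s)N) * (N - z)(2N + 2)/(N Zn)`
  [`N(N+1) - z(z+1) + (N-z)(N-z+1) = (N - z)(2 N + 2)`]. Sum of both: `≤ (1+20s)/(1-s) * 2 (N+1)/(N Zn)`.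
* `loadE_O`: `par v ∈ Z`, `bnb v = ∅`, `par (par v) ∉ H`: not of type R, so `κ v x y = PP x y`; `μ (par v) x ≤ (1+20s) vv x`;
  `vv x PP x y = kk x y/Zn`; `edge_le`: `(1+20s) (2 z/(N Zn) + (2/N)(N - z + 2)/Zn) = (1+20s) 2 (N+2)/(N Zn)`.
* `load_le_E`: for `par v ∈ Z`, `bnb v = ∅`: `usv v x y = {y, dd x y}`, so `loadv v z ≤ μ v z + (double sum over dd x y = z)`
  (`[z ∈ {y, dd x y}] ≤ [y = z] + [dd x y = z]`, `cons`).
* `load_irr`: `loadv v z ≤ 25/N` always: if `par v ∉ Z`: `y = z` or `dd (f₀ b) y = z` (two values `y`): `3 * 4/N`; if `par v ∈ Z`, type R: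
  `y = z`: `μ v z ≤ 4/N`, `dd (f₀ b) y = z`: `8/N`, `dd x y = z`: for every `x` two `y`, `κ ≤ 4/N` (`(1 + 20 s) 3/N`): `8/N`; type O: by `loadE_O`
  (`≤ 3/N`).
-/

set_option autoImplicit false

namespace SSB

open Finset

variable {n N m : ℕ} {par : ℕ → ℕ} {H B Z Q : Finset ℕ} {f₀ : ℕ → ℕ} {Dom : ℕ → Finset ℕ} {s : ℝ}

private theorem bl3a_num (hk : KB N m Q s) : s ≤ 1 / 1000000 ∧ (1000000 : ℝ) ≤ N ∧ 0 < Zn N m Q := by
  have hm : (1000 : ℝ) ≤ m := by exact_mod_cast hk.m_ge
  have hN : (1000 : ℝ) * m ≤ N := by exact_mod_cast hk.N_ge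
  have hs := hk.s_nn
  have hms := hk.sm
  have h1 : (1000 : ℝ) * 1000 * s ≤ 1000 * m * s := by
    apply mul_le_mul_of_nonneg_right _ hs
    linarith
  have hN' : (1000000 : ℝ) ≤ N := by linarith
  refine ⟨by linarith, hN', ?_⟩
  have := Zn_pos hk
  linarith

private theorem bl3a_vt (h : BCfg n N par H B Z Q f₀ Dom s) {v : ℕ} (hv : v ∈ Z) : 1 ≤ v ∧ v < n := by
  constructor
  · rcases Nat.eq_zero_or_pos v with h0 | h0
    · exact absurd (h0 ▸ hv) h.Z0
    · exact h0
  · exact mem_range.1 (h.Zsub hv)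

private theorem bl3a_cnt {E : Finset ℕ} {g : ℕ → ℝ} {c : ℝ} {P : ℕ → Prop} [DecidablePred P]
    (hP : ∀ y, P y → y ∈ E) (h0 : 0 ≤ c) (hg : ∀ y ≤ N, g y ≤ c) :
    ∑ y ∈ range (N + 1), (if P y then g y else 0) ≤ E.card * c := by
  rw [← Finset.sum_filter]
  calc ∑ y ∈ (range (N + 1)).filter P, g y ≤ ∑ y ∈ (range (N + 1)).filter P, c := by
        refine Finset.sum_le_sum fun y hy => hg y ?_
        have := mem_range.1 (Finset.mem_filter.1 hy).1
        omega
    _ = ((range (N + 1)).filter P).card * c := by rw [Finset.sum_const, nsmul_eq_mul]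
    _ ≤ E.card * c := by
        refine mul_le_mul_of_nonneg_right ?_ h0
        exact_mod_cast Finset.card_le_card fun y hy => hP y (Finset.mem_filter.1 hy).2

private theorem bl3a_dd {a y z : ℕ} (h : dd a y = z) : y = a + z ∨ y = a - z := by
  unfold dd at h
  omega

/-- expected number of uses of `z` by `v` with a parent in `Z`, counted with multiplicity -/
noncomputable def loadE (N : ℕ) (par : ℕ → ℕ) (mu : ℕ → ℕ → ℝ) (kr : ℕ → ℕ → ℕ → ℝ) (v z : ℕ) : ℝ :=
  mu v z + ∑ x ∈ range (N + 1), ∑ y ∈ range (N + 1), if dd x y = z then mu (par v) x * kr v x y else 0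

theorem load_U (h : BCfg n N par H B Z Q f₀ Dom s) (hk : KB N m Q s) {v : ℕ} (hv : v ∈ Z)
    (hp : par v ∈ H) {z : ℕ} (hz : z ∈ Q) :
    loadv n N par B Z f₀ (muB n N m par H B Z Q f₀ Dom) (krB n N m par H B Z Q f₀) v z ≤
      2 / ((1 - s) * N) := by
  obtain ⟨hs1, hN1, -⟩ := bl3a_num hk
  have hs0 := hk.s_nn
  obtain ⟨hv1, hvn⟩ := bl3a_vt h hv
  have hpZ : par v ∉ Z := fun hz' => (Finset.disjoint_left.1 h.BZ) (h.HB hp) hz'
  have hmem : par v ∈ bnb n par B v := by
    unfold bnb
    exact Finset.mem_filter.2 ⟨h.HB hp, Or.inl ⟨hv1, hvn, rfl⟩⟩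
  have hone : ∀ b ∈ bnb n par B v, b = par v := by
    intro b hb
    exact (Finset.card_le_one.1 (h.one v hv)) b hb (par v) hmem
  have hD : (1 - s) * N ≤ ((Dom (par v)).card : ℝ) := h.domc _ hp
  have hpos : 0 < (1 - s) * N := by
    apply mul_pos <;> linarith
  have hDpos : (0 : ℝ) < (Dom (par v)).card := lt_of_lt_of_le hpos hD
  unfold loadv
  rw [if_neg hpZ]
  have key : ∀ y, (if z ∈ usv n par B Z f₀ v 0 y then muB n N m par H B Z Q f₀ Dom v y else 0) ≤
      if (y ∈ Dom (par v) ∧ z ∈ usv n par B Z f₀ v 0 y) then 1 / ((Dom (par v)).card : ℝ) else 0 := by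
    intro y
    by_cases hy : z ∈ usv n par B Z f₀ v 0 y
    · rw [if_pos hy, mu_U h hv hp]
      by_cases hyD : y ∈ Dom (par v)
      · rw [if_pos hyD, if_pos ⟨hyD, hy⟩]
      · rw [if_neg hyD, if_neg (fun h' => hyD h'.1)]
    · rw [if_neg hy, if_neg (fun h' => hy h'.2)]
  refine (Finset.sum_le_sum fun y _ => key y).trans ?_
  have hc := bl3a_cnt (N := N) (E := {z, z + f₀ (par v)}) (g := fun _ => 1 / ((Dom (par v)).card : ℝ))
    (c := 1 / ((Dom (par v)).card : ℝ))
    (P := fun y => y ∈ Dom (par v) ∧ z ∈ usv n par B Z f₀ v 0 y) (by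
      rintro y ⟨hyD, hy⟩
      have hd := h.dom _ hp y hyD
      unfold usv at hy
      rw [if_neg hpZ, Finset.union_empty, Finset.mem_insert, Finset.mem_image] at hy
      rcases hy with hy | ⟨b, hb, hy⟩
      · simp [hy]
      · rw [hone b hb] at hy
        unfold dd at hy
        have : y = z + f₀ (par v) := by omega
        simp [this]) (by positivity) (fun _ _ => le_rfl)
  refine hc.trans ?_
  have hcard : (({z, z + f₀ (par v)} : Finset ℕ).card : ℝ) ≤ 2 := by
    exact_mod_cast Finset.card_le_two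
  calc (({z, z + f₀ (par v)} : Finset ℕ).card : ℝ) * (1 / ((Dom (par v)).card : ℝ))
      ≤ 2 * (1 / ((Dom (par v)).card : ℝ)) := by
        refine mul_le_mul_of_nonneg_right hcard (by positivity)
    _ = 2 / ((Dom (par v)).card : ℝ) := by ring
    _ ≤ 2 / ((1 - s) * N) := by
        apply div_le_div_of_nonneg_left (by norm_num) hpos hD

theorem load_root (h : BCfg n N par H B Z Q f₀ Dom s) (hk : KB N m Q s) (hs : 12 ≤ s * N) {v : ℕ}
    (hv : v ∈ Z) (hp : par v ∉ H) (hp' : par v ∉ Z) (hb : bnb n par B v = ∅) {z : ℕ} (hz : z ∈ Q) :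
    loadv n N par B Z f₀ (muB n N m par H B Z Q f₀ Dom) (krB n N m par H B Z Q f₀) v z ≤
      (1 + 20 * s) * 2 / Zn N m Q := by
  obtain ⟨hs1, hN1, hZn⟩ := bl3a_num hk
  have hs0 := hk.s_nn
  have hzN := Finset.mem_Icc.1 (hk.sub hz)
  unfold loadv
  rw [if_neg hp']
  have key : ∀ y, (if z ∈ usv n par B Z f₀ v 0 y then muB n N m par H B Z Q f₀ Dom v y else 0) =
      if z = y then muB n N m par H B Z Q f₀ Dom v y else 0 := by
    intro y
    unfold usv
    rw [if_neg hp', hb]
    simp
  rw [Finset.sum_congr rfl fun y _ => key y, Finset.sum_ite_eq, if_pos (by rw [mem_range]; omega)]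
  refine (mu_up h hk hs hv hp hzN.2).trans ?_
  have h1 : vv N m Q z ≤ 2 / Zn N m Q := by
    refine (vv_le hk hzN.2).1.trans ?_
    have hz' : (z : ℝ) ≤ N := by exact_mod_cast hzN.2
    rw [div_le_div_iff₀ (by positivity) hZn]
    nlinarith [mul_le_mul_of_nonneg_right hz' hZn.le]
  calc (1 + 20 * s) * vv N m Q z ≤ (1 + 20 * s) * (2 / Zn N m Q) :=
        mul_le_mul_of_nonneg_left h1 (by linarith)
    _ = (1 + 20 * s) * 2 / Zn N m Q := by ring

private theorem baseL3b_id (z k : ℕ) :
    ∑ x ∈ range k, ((x : ℝ) + 1 + z) + ∑ y ∈ range (k + 1), (y : ℝ) = (k : ℝ) * (z + k + 1) := by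
  induction k with
  | zero => simp
  | succ k ih =>
    rw [Finset.sum_range_succ, Finset.sum_range_succ _ (k + 1)]
    push_cast
    linarith

private theorem baseL3b_sum (N z : ℕ) (hz : 1 ≤ z) (hzN : z ≤ N) (K : ℝ) :
    (∑ x ∈ range (N + 1), ∑ y ∈ range (N + 1),
      ((if y = x + z ∧ 1 ≤ x then K * (y : ℝ) else 0) + (if x = y + z then K * (y : ℝ) else 0))) ≤
      K * (((N : ℝ) - z) * (N + 1)) := by
  obtain ⟨k, rfl⟩ : ∃ k, N = z + k := ⟨N - z, by omega⟩
  have hA : (∑ x ∈ range (z + k + 1), ∑ y ∈ range (z + k + 1),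
      (if y = x + z ∧ 1 ≤ x then K * (y : ℝ) else 0)) = K * ∑ x ∈ range k, ((x : ℝ) + 1 + z) := by
    have h1 : ∀ x ∈ range (z + k + 1), (∑ y ∈ range (z + k + 1),
        (if y = x + z ∧ 1 ≤ x then K * (y : ℝ) else 0)) =
        if x ∈ Finset.Icc 1 k then K * ((x : ℝ) + z) else 0 := by
      intro x _
      by_cases hx : x ∈ Finset.Icc 1 k
      · rw [if_pos hx]
        rw [Finset.mem_Icc] at hx
        rw [Finset.sum_eq_single (x + z)]
        · rw [if_pos ⟨rfl, hx.1⟩]
          push_cast
          ring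
        · intro b _ hb
          rw [if_neg]
          exact fun hh => hb hh.1
        · intro hh
          exact absurd (Finset.mem_range.2 (by omega)) hh
      · rw [if_neg hx]
        apply Finset.sum_eq_zero
        intro y hy
        rw [if_neg]
        rintro ⟨h1, h2⟩
        apply hx
        rw [Finset.mem_Icc]
        have := Finset.mem_range.1 hy
        omega
    rw [Finset.sum_congr rfl h1, ← Finset.sum_filter]
    have h2 : (range (z + k + 1)).filter (fun x => x ∈ Finset.Icc 1 k) =
        (range k).image (fun x => x + 1) := by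
      ext a
      simp only [Finset.mem_filter, Finset.mem_range, Finset.mem_Icc, Finset.mem_image]
      constructor
      · rintro ⟨_, h3, h4⟩
        exact ⟨a - 1, by omega, by omega⟩
      · rintro ⟨b, hb, rfl⟩
        omega
    rw [h2, Finset.sum_image (by intro a _ b _ hab; simpa using hab), Finset.mul_sum]
    apply Finset.sum_congr rfl
    intro x _
    push_cast
    ring
  have hB : (∑ x ∈ range (z + k + 1), ∑ y ∈ range (z + k + 1),
      (if x = y + z then K * (y : ℝ) else 0)) = K * ∑ y ∈ range (k + 1), (y : ℝ) := by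
    rw [Finset.sum_comm]
    have h1 : ∀ y ∈ range (z + k + 1), (∑ x ∈ range (z + k + 1),
        (if x = y + z then K * (y : ℝ) else 0)) =
        if y ∈ range (k + 1) then K * (y : ℝ) else 0 := by
      intro y _
      rw [Finset.sum_ite_eq']
      by_cases hy : y ∈ range (k + 1)
      · rw [if_pos hy, if_pos]
        rw [Finset.mem_range] at hy ⊢
        omega
      · rw [if_neg hy, if_neg]
        rw [Finset.mem_range] at hy ⊢
        omega
    rw [Finset.sum_congr rfl h1, ← Finset.sum_filter]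
    have h2 : (range (z + k + 1)).filter (fun x => x ∈ range (k + 1)) = range (k + 1) := by
      ext a
      simp only [Finset.mem_filter, Finset.mem_range]
      omega
    rw [h2, Finset.mul_sum]
  simp only [Finset.sum_add_distrib]
  rw [hA, hB, ← mul_add, baseL3b_id]
  push_cast
  apply le_of_eq
  ring

theorem loadE_R (h : BCfg n N par H B Z Q f₀ Dom s) (hk : KB N m Q s) (hs : 12 ≤ s * N) {v : ℕ}
    (hv : v ∈ Z) (hp : par v ∈ Z) (hb : bnb n par B v = ∅) (hpp : par (par v) ∈ H) {z : ℕ} (hz : z ∈ Q) :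
    loadE N par (muB n N m par H B Z Q f₀ Dom) (krB n N m par H B Z Q f₀) v z ≤
      (1 + 20 * s) / (1 - s) * (2 * (N + 1) / (N * Zn N m Q)) := by
  have hpH : par v ∉ H := fun hh => (Finset.disjoint_left.1 h.BZ) (h.HB hh) hp
  have hm0 : (1000 : ℝ) ≤ m := by exact_mod_cast hk.m_ge
  have hN0 : (1000 : ℝ) * m ≤ N := by exact_mod_cast hk.N_ge
  have hs0 := hk.s_nn
  have hs1 : s ≤ 1 / 1000 := by
    have := hk.sm
    nlinarith
  have hNpos : (0 : ℝ) < N := by linarith
  have hZpos : 0 < Zn N m Q := by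
    have := Zn_pos hk
    nlinarith
  have hz1 := Finset.mem_Icc.1 (h.QN hz)
  have hz1' : (1 : ℝ) ≤ z := by exact_mod_cast hz1.1
  have hz2' : (z : ℝ) ≤ N := by exact_mod_cast hz1.2
  have hmu : muB n N m par H B Z Q f₀ Dom v z ≤ (1 + 20 * s) * (2 * z / (N * Zn N m Q)) :=
    le_trans (mu_up h hk hs hv hpH hz1.2)
      (mul_le_mul_of_nonneg_left (vv_le hk hz1.2).1 (by linarith))
  have hR : isR n par H B Z v := Or.inr (Or.inr hpp)
  set K : ℝ := (1 + 20 * s) / ((1 - s) * N) * (2 / (N * Zn N m Q)) with hK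
  have h1s : (0 : ℝ) < 1 - s := by linarith
  have hK0 : 0 ≤ K := by positivity
  -- the weights
  have hw : ∀ x ∈ range (N + 1), ∀ y ∈ range (N + 1),
      (if dd x y = z then muB n N m par H B Z Q f₀ Dom (par v) x * krB n N m par H B Z Q f₀ v x y
        else 0) ≤ (if y = x + z ∧ 1 ≤ x then K * y else 0) + (if x = y + z then K * y else 0) := by
    intro x hx y hy
    have hx' : x ≤ N := Nat.lt_succ_iff.1 (Finset.mem_range.1 hx)
    have hy' : y ≤ N := Nat.lt_succ_iff.1 (Finset.mem_range.1 hy)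
    have hmuU := mu_U (m := m) h hp hpp x
    have hkr : krB n N m par H B Z Q f₀ v x y ≤ (1 + 20 * s) * (2 * y / (N * Zn N m Q)) :=
      le_trans (krB_up h hk hs hv hR hx' y)
        (mul_le_mul_of_nonneg_left (vv_le hk hy').1 (by linarith))
    have hb1 : muB n N m par H B Z Q f₀ Dom (par v) x * krB n N m par H B Z Q f₀ v x y ≤ K * y := by
      have hmle : muB n N m par H B Z Q f₀ Dom (par v) x ≤ 1 / ((1 - s) * N) := by
        rw [hmuU]
        split_ifs with hxd
        · exact one_div_le_one_div_of_le (by positivity) (h.domc _ hpp)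
        · positivity
      have hmnn := mu_nnB h hk (par v) x
      calc muB n N m par H B Z Q f₀ Dom (par v) x * krB n N m par H B Z Q f₀ v x y
          ≤ muB n N m par H B Z Q f₀ Dom (par v) x * ((1 + 20 * s) * (2 * y / (N * Zn N m Q))) :=
            mul_le_mul_of_nonneg_left hkr hmnn
        _ ≤ 1 / ((1 - s) * N) * ((1 + 20 * s) * (2 * y / (N * Zn N m Q))) :=
            mul_le_mul_of_nonneg_right hmle (by positivity)
        _ = K * y := by
            rw [hK]
            field_simp
    have hA : (0 : ℝ) ≤ (if y = x + z ∧ 1 ≤ x then K * y else 0) := by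
      split_ifs
      · positivity
      · exact le_refl _
    have hB : (0 : ℝ) ≤ (if x = y + z then K * y else 0) := by
      split_ifs
      · positivity
      · exact le_refl _
    by_cases hd : dd x y = z
    · rw [if_pos hd]
      by_cases hxy : x = y + z
      · rw [if_pos hxy]
        linarith
      · have hyx : y = x + z := by
          unfold dd at hd
          omega
        by_cases hx0 : 1 ≤ x
        · rw [if_pos ⟨hyx, hx0⟩]
          linarith
        · have hx00 : x = 0 := by omega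
          have : muB n N m par H B Z Q f₀ Dom (par v) x = 0 := by
            rw [hmuU, if_neg]
            intro hxd
            have := (h.dom _ hpp x hxd).2.1
            omega
          rw [this, zero_mul]
          linarith
    · rw [if_neg hd]
      linarith
  have hsum : (∑ x ∈ range (N + 1), ∑ y ∈ range (N + 1), if dd x y = z then
      muB n N m par H B Z Q f₀ Dom (par v) x * krB n N m par H B Z Q f₀ v x y else 0) ≤
      K * ((N - z) * (N + 1)) := by
    refine le_trans (Finset.sum_le_sum fun x hx => Finset.sum_le_sum (hw x hx)) ?_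
    exact baseL3b_sum N z hz1.1 hz1.2 K
  have hfin : (1 + 20 * s) * (2 * z / (N * Zn N m Q)) + K * ((N - z) * (N + 1)) ≤
      (1 + 20 * s) / (1 - s) * (2 * (N + 1) / (N * Zn N m Q)) := by
    have e1 : (1 + 20 * s) * (2 * z / (N * Zn N m Q)) + K * ((N - z) * (N + 1)) =
        (1 + 20 * s) / (1 - s) * (2 / (N * Zn N m Q)) *
          (((1 - s) * N * z + (N - z) * (N + 1)) / N) := by
      rw [hK]
      field_simp
    have e2 : (1 + 20 * s) / (1 - s) * (2 * (N + 1) / (N * Zn N m Q)) =
        (1 + 20 * s) / (1 - s) * (2 / (N * Zn N m Q)) * (N + 1) := by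
      field_simp
    rw [e1, e2]
    apply mul_le_mul_of_nonneg_left _ (by positivity)
    rw [div_le_iff₀ hNpos]
    nlinarith [mul_nonneg (mul_nonneg hs0 hNpos.le) (by linarith : (0 : ℝ) ≤ z)]
  unfold loadE
  linarith

theorem loadE_O (h : BCfg n N par H B Z Q f₀ Dom s) (hk : KB N m Q s) (hs : 12 ≤ s * N) {v : ℕ}
    (hv : v ∈ Z) (hp : par v ∈ Z) (hb : bnb n par B v = ∅) (hpp : par (par v) ∉ H) {z : ℕ} (hz : z ∈ Q) :
    loadE N par (muB n N m par H B Z Q f₀ Dom) (krB n N m par H B Z Q f₀) v z ≤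
      (1 + 20 * s) * (2 * (N + 2) / (N * Zn N m Q)) := by
  have hpH : par v ∉ H := fun hh => (Finset.disjoint_left.1 h.BZ) (h.HB hh) hp
  have hm0 : (1000 : ℝ) ≤ m := by exact_mod_cast hk.m_ge
  have hN0 : (1000 : ℝ) * m ≤ N := by exact_mod_cast hk.N_ge
  have hs0 := hk.s_nn
  have hNpos : (0 : ℝ) < N := by linarith
  have hZpos : 0 < Zn N m Q := by
    have := Zn_pos hk
    nlinarith
  have hz1 := Finset.mem_Icc.1 (h.QN hz)
  have hmu : muB n N m par H B Z Q f₀ Dom v z ≤ (1 + 20 * s) * (2 * z / (N * Zn N m Q)) :=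
    le_trans (mu_up h hk hs hv hpH hz1.2)
      (mul_le_mul_of_nonneg_left (vv_le hk hz1.2).1 (by linarith))
  have hnR : ¬ isR n par H B Z v := by
    unfold isR
    rintro (h1 | h1 | h1)
    · exact h1 hp
    · rw [hb] at h1
      exact Finset.not_nonempty_empty h1
    · exact hpp h1
  have hkr : ∀ x y, krB n N m par H B Z Q f₀ v x y = PP N m Q x y := by
    intro x y
    unfold krB
    rw [if_neg hnR]
  have hw : ∀ x ∈ range (N + 1), ∀ y ∈ range (N + 1),
      (if dd x y = z then muB n N m par H B Z Q f₀ Dom (par v) x * krB n N m par H B Z Q f₀ v x y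
        else 0) ≤ (1 + 20 * s) / Zn N m Q * (if dd x y = z then kk N m Q x y else 0) := by
    intro x hx y hy
    have hx' : x ≤ N := Nat.lt_succ_iff.1 (Finset.mem_range.1 hx)
    by_cases hd : dd x y = z
    · rw [if_pos hd, if_pos hd, hkr]
      calc muB n N m par H B Z Q f₀ Dom (par v) x * PP N m Q x y
          ≤ (1 + 20 * s) * vv N m Q x * PP N m Q x y :=
            mul_le_mul_of_nonneg_right (mu_up h hk hs hp hpp hx') (PP_nn x y)
        _ = (1 + 20 * s) * (vv N m Q x * PP N m Q x y) := by ring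
        _ = (1 + 20 * s) / Zn N m Q * kk N m Q x y := by
            rw [vv_PP hk]
            ring
    · rw [if_neg hd, if_neg hd, mul_zero]
  have hsum : (∑ x ∈ range (N + 1), ∑ y ∈ range (N + 1), if dd x y = z then
      muB n N m par H B Z Q f₀ Dom (par v) x * krB n N m par H B Z Q f₀ v x y else 0) ≤
      (1 + 20 * s) / Zn N m Q * (2 / N * (N - z + 2)) := by
    refine le_trans (Finset.sum_le_sum fun x hx => Finset.sum_le_sum (hw x hx)) ?_
    simp only [← Finset.mul_sum]
    exact mul_le_mul_of_nonneg_left (edge_le hk hz1.2) (by positivity)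
  have hfin : (1 + 20 * s) * (2 * z / (N * Zn N m Q)) +
      (1 + 20 * s) / Zn N m Q * (2 / N * (N - z + 2)) =
      (1 + 20 * s) * (2 * (N + 2) / (N * Zn N m Q)) := by
    field_simp
    ring
  unfold loadE
  linarith

theorem load_le_E (h : BCfg n N par H B Z Q f₀ Dom s) (hk : KB N m Q s) (hs : 12 ≤ s * N) {v : ℕ}
    (hv : v ∈ Z) (hp : par v ∈ Z) (hb : bnb n par B v = ∅) {z : ℕ} (hz : z ∈ Q) :
    loadv n N par B Z f₀ (muB n N m par H B Z Q f₀ Dom) (krB n N m par H B Z Q f₀) v z ≤
      loadE N par (muB n N m par H B Z Q f₀ Dom) (krB n N m par H B Z Q f₀) v z := by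
  have hL := base_law h hk hs
  have hzN := Finset.mem_Icc.1 (hk.sub hz)
  unfold loadv loadE
  rw [if_pos hp]
  rw [← hL.cons v hv hp z hzN.2, ← Finset.sum_add_distrib]
  refine Finset.sum_le_sum fun x _ => ?_
  have hmz : ∑ y ∈ range (N + 1), (if y = z then
      muB n N m par H B Z Q f₀ Dom (par v) x * krB n N m par H B Z Q f₀ v x y else 0) =
      muB n N m par H B Z Q f₀ Dom (par v) x * krB n N m par H B Z Q f₀ v x z := by
    rw [Finset.sum_ite_eq', if_pos (by rw [mem_range]; omega)]
  rw [← hmz, ← Finset.sum_add_distrib]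
  refine Finset.sum_le_sum fun y _ => ?_
  have hnn : 0 ≤ muB n N m par H B Z Q f₀ Dom (par v) x * krB n N m par H B Z Q f₀ v x y :=
    mul_nonneg (hL.mu_nn _ hp x) (hL.kr_nn v hv hp x y)
  by_cases hy : z ∈ usv n par B Z f₀ v x y
  · rw [if_pos hy]
    have hy' : z = y ∨ z = dd x y := by
      unfold usv at hy
      rw [if_pos hp, hb] at hy
      simpa using hy
    rcases hy' with hy' | hy'
    · rw [if_pos hy'.symm]
      have : (0 : ℝ) ≤ if dd x y = z then
          muB n N m par H B Z Q f₀ Dom (par v) x * krB n N m par H B Z Q f₀ v x y else 0 := by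
        split_ifs
        · exact hnn
        · exact le_rfl
      linarith
    · rw [if_pos hy'.symm]
      have : (0 : ℝ) ≤ if y = z then
          muB n N m par H B Z Q f₀ Dom (par v) x * krB n N m par H B Z Q f₀ v x y else 0 := by
        split_ifs
        · exact hnn
        · exact le_rfl
      linarith
  · rw [if_neg hy]
    apply add_nonneg
    · split_ifs
      · exact hnn
      · exact le_rfl
    · split_ifs
      · exact hnn
      · exact le_rfl

theorem load_irr (h : BCfg n N par H B Z Q f₀ Dom s) (hk : KB N m Q s) (hs : 12 ≤ s * N) {v : ℕ}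
    (hv : v ∈ Z) {z : ℕ} (hz : z ∈ Q) :
    loadv n N par B Z f₀ (muB n N m par H B Z Q f₀ Dom) (krB n N m par H B Z Q f₀) v z ≤ 25 / N := by
  obtain ⟨hs1, hN1, hZn⟩ := bl3a_num hk
  have hs0 := hk.s_nn
  have hL := base_law h hk hs
  have hzN := Finset.mem_Icc.1 (hk.sub hz)
  have hNpos : (0 : ℝ) < N := by linarith
  have h4 : (0 : ℝ) ≤ 4 / N := by positivity
  obtain ⟨E, hE⟩ : ∃ E : Finset ℕ, E = insert z ((bnb n par B v).biUnion
    fun b => ({f₀ b + z, f₀ b - z} : Finset ℕ)) := ⟨_, rfl⟩
  have hEc : (E.card : ℝ) ≤ 3 := by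
    have h1 : E.card ≤ 3 := by
      rw [hE]
      refine (Finset.card_insert_le _ _).trans ?_
      have h2 : ((bnb n par B v).biUnion fun b => ({f₀ b + z, f₀ b - z} : Finset ℕ)).card ≤
          (bnb n par B v).card * 2 := Finset.card_biUnion_le_card_mul _ _ _ fun b _ => Finset.card_le_two
      have h3 := h.one v hv
      omega
    exact_mod_cast h1
  have hEmem : ∀ y, (z = y ∨ ∃ b ∈ bnb n par B v, dd (f₀ b) y = z) → y ∈ E := by
    intro y hy
    rw [hE]
    rcases hy with hy | ⟨b, hb, hy⟩
    · rw [hy]; exact Finset.mem_insert_self _ _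
    · refine Finset.mem_insert_of_mem (Finset.mem_biUnion.2 ⟨b, hb, ?_⟩)
      rcases bl3a_dd hy with h1 | h1
      · rw [h1]; simp
      · rw [h1]; simp
  by_cases hpZ : par v ∈ Z
  swap
  · unfold loadv
    rw [if_neg hpZ]
    have hc := bl3a_cnt (N := N) (E := E) (g := fun y => muB n N m par H B Z Q f₀ Dom v y)
      (c := 4 / N) (P := fun y => z ∈ usv n par B Z f₀ v 0 y) (by
        intro y hy
        unfold usv at hy
        rw [if_neg hpZ, Finset.union_empty, Finset.mem_insert, Finset.mem_image] at hy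
        exact hEmem y hy) h4 (fun y _ => mu_le4 h hk hs hv y)
    refine hc.trans ?_
    calc (E.card : ℝ) * (4 / N) ≤ 3 * (4 / N) := mul_le_mul_of_nonneg_right hEc h4
      _ ≤ 25 / N := by
        rw [← mul_div_assoc]
        exact div_le_div_of_nonneg_right (by norm_num) hNpos.le
  by_cases hR : isR n par H B Z v
  swap
  · -- type O
    have hb : bnb n par B v = ∅ := by
      rw [← Finset.not_nonempty_iff_eq_empty]
      exact fun h' => hR (Or.inr (Or.inl h'))
    have hpp : par (par v) ∉ H := fun h' => hR (Or.inr (Or.inr h'))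
    refine (load_le_E h hk hs hv hpZ hb hz).trans ((loadE_O h hk hs hv hpZ hb hpp hz).trans ?_)
    have hZ9 := Zn_pos hk
    have hA : 2 * ((N : ℝ) + 2) / (N * Zn N m Q) ≤ 3 / N := by
      rw [div_le_div_iff₀ (by positivity) hNpos]
      nlinarith [mul_le_mul_of_nonneg_left hZ9 hNpos.le]
    calc (1 + 20 * s) * (2 * ((N : ℝ) + 2) / (N * Zn N m Q)) ≤ 2 * (3 / N) := by
          apply mul_le_mul (by linarith) hA (by positivity) (by norm_num)
      _ ≤ 25 / N := by
        rw [← mul_div_assoc]
        exact div_le_div_of_nonneg_right (by norm_num) hNpos.le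
  · -- type R
    unfold loadv
    rw [if_pos hpZ]
    have hnn : ∀ x y, 0 ≤ muB n N m par H B Z Q f₀ Dom (par v) x * krB n N m par H B Z Q f₀ v x y :=
      fun x y => mul_nonneg (hL.mu_nn _ hpZ x) (hL.kr_nn v hv hpZ x y)
    have hstep : ∑ x ∈ range (N + 1), ∑ y ∈ range (N + 1), (if z ∈ usv n par B Z f₀ v x y then
        muB n N m par H B Z Q f₀ Dom (par v) x * krB n N m par H B Z Q f₀ v x y else 0) ≤
        (∑ x ∈ range (N + 1), ∑ y ∈ range (N + 1), (if y ∈ E then
          muB n N m par H B Z Q f₀ Dom (par v) x * krB n N m par H B Z Q f₀ v x y else 0)) +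
        ∑ x ∈ range (N + 1), ∑ y ∈ range (N + 1), (if dd x y = z then
          muB n N m par H B Z Q f₀ Dom (par v) x * krB n N m par H B Z Q f₀ v x y else 0) := by
      rw [← Finset.sum_add_distrib]
      refine Finset.sum_le_sum fun x _ => ?_
      rw [← Finset.sum_add_distrib]
      refine Finset.sum_le_sum fun y _ => ?_
      have hn := hnn x y
      by_cases hy : z ∈ usv n par B Z f₀ v x y
      · rw [if_pos hy]
        have hy' : y ∈ E ∨ dd x y = z := by
          unfold usv at hy
          rw [if_pos hpZ, Finset.mem_union, Finset.mem_insert, Finset.mem_image,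
            Finset.mem_singleton] at hy
          rcases hy with hy | hy
          · exact Or.inl (hEmem y hy)
          · exact Or.inr hy.symm
        rcases hy' with hy' | hy'
        · rw [if_pos hy']
          have : (0 : ℝ) ≤ if dd x y = z then
              muB n N m par H B Z Q f₀ Dom (par v) x * krB n N m par H B Z Q f₀ v x y else 0 := by
            split_ifs
            · exact hn
            · exact le_rfl
          linarith
        · rw [if_pos hy']
          have : (0 : ℝ) ≤ if y ∈ E then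
              muB n N m par H B Z Q f₀ Dom (par v) x * krB n N m par H B Z Q f₀ v x y else 0 := by
            split_ifs
            · exact hn
            · exact le_rfl
          linarith
      · rw [if_neg hy]
        apply add_nonneg
        · split_ifs
          · exact hn
          · exact le_rfl
        · split_ifs
          · exact hn
          · exact le_rfl
    have h1 : ∑ x ∈ range (N + 1), ∑ y ∈ range (N + 1), (if y ∈ E then
          muB n N m par H B Z Q f₀ Dom (par v) x * krB n N m par H B Z Q f₀ v x y else 0) ≤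
        3 * (4 / N) := by
      rw [Finset.sum_comm]
      have hc := bl3a_cnt (N := N) (E := E) (g := fun y => muB n N m par H B Z Q f₀ Dom v y)
        (c := 4 / N) (P := fun y => y ∈ E) (fun y hy => hy) h4 (fun y _ => mu_le4 h hk hs hv y)
      refine le_trans (le_of_eq ?_) (hc.trans (mul_le_mul_of_nonneg_right hEc h4))
      refine Finset.sum_congr rfl fun y hy => ?_
      by_cases hyE : y ∈ E
      · simp only [if_pos hyE]
        exact hL.cons v hv hpZ y (by have := mem_range.1 hy; omega)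
      · simp only [if_neg hyE]
        simp
    have hkr : ∀ x ≤ N, ∀ y ≤ N, krB n N m par H B Z Q f₀ v x y ≤ 4 / N := by
      intro x hx y hy
      refine (krB_up h hk hs hv hR hx y).trans ?_
      have h3 := (vv_le hk hy).2
      calc (1 + 20 * s) * vv N m Q y ≤ (1 + 20 * s) * (3 / N) :=
            mul_le_mul_of_nonneg_left h3 (by linarith)
        _ ≤ (4 / 3) * (3 / N) := mul_le_mul_of_nonneg_right (by linarith) (by positivity)
        _ = 4 / N := by ring
    have h2 : ∑ x ∈ range (N + 1), ∑ y ∈ range (N + 1), (if dd x y = z then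
          muB n N m par H B Z Q f₀ Dom (par v) x * krB n N m par H B Z Q f₀ v x y else 0) ≤
        8 / N := by
      calc ∑ x ∈ range (N + 1), ∑ y ∈ range (N + 1), (if dd x y = z then
          muB n N m par H B Z Q f₀ Dom (par v) x * krB n N m par H B Z Q f₀ v x y else 0)
          ≤ ∑ x ∈ range (N + 1), muB n N m par H B Z Q f₀ Dom (par v) x * (8 / N) := by
            refine Finset.sum_le_sum fun x hx => ?_
            have hxN : x ≤ N := by have := mem_range.1 hx; omega
            have hmx := hL.mu_nn _ hpZ x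
            have hc := bl3a_cnt (N := N) (E := {x + z, x - z})
              (g := fun y => muB n N m par H B Z Q f₀ Dom (par v) x * krB n N m par H B Z Q f₀ v x y)
              (c := muB n N m par H B Z Q f₀ Dom (par v) x * (4 / N))
              (P := fun y => dd x y = z) (by
                intro y hy
                rcases bl3a_dd hy with h1 | h1
                · rw [h1]; simp
                · rw [h1]; simp) (mul_nonneg hmx h4)
              (fun y hy => mul_le_mul_of_nonneg_left (hkr x hxN y hy) hmx)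
            refine hc.trans ?_
            have hcard : (({x + z, x - z} : Finset ℕ).card : ℝ) ≤ 2 := by
              exact_mod_cast Finset.card_le_two
            calc (({x + z, x - z} : Finset ℕ).card : ℝ) *
                  (muB n N m par H B Z Q f₀ Dom (par v) x * (4 / N))
                ≤ 2 * (muB n N m par H B Z Q f₀ Dom (par v) x * (4 / N)) :=
                  mul_le_mul_of_nonneg_right hcard (mul_nonneg hmx h4)
              _ = muB n N m par H B Z Q f₀ Dom (par v) x * (8 / N) := by ring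
        _ = 8 / N := by rw [← Finset.sum_mul, hL.mu_sum _ hpZ, one_mul]
    calc _ ≤ 3 * (4 / (N : ℝ)) + 8 / N := hstep.trans (add_le_add h1 h2)
      _ = 20 / N := by ring
      _ ≤ 25 / N := div_le_div_of_nonneg_right (by norm_num) hNpos.le

end SSB
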