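import Pool.Agent.Lib.MP_8a819d_co.AT.Defs

/-!
# MP_8a819d_co, trees with many non-leaves: closed sets

JOB CloE (all of this file).

`clo_exists`: every `X` is contained in a smallest closed set `M`, and `|M| ≤ 2 |X|`.
PROOF. For `W ⊆ range n` let `e W = #{w ∈ W : 1 ≤ w, par w ∈ W}` and `c W = |W| - e W` (`e W ≤ |W|`, so `c W ≥ 0` as an integer). Consider the sets
`W` with `X ⊆ W ⊆ range n`, `|W| + c W ≤ |X| + c X` and `W ⊆ H` for every closed `H ⊇ X`; `X` is one; let `M` be one of maximal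
cardinality. If `M` is not closed, there is `v < n`, `v ∉ M` with `|bnb M v| ≥ 2`. For `W = insert v M`: `e W = e M + |bnb M v|` (the edges
between `v` and `M`: `inr v` if `par v ∈ M`, `v ≥ 1`; `inr b` for the `b ∈ M`, `b ≥ 1` with `par b = v`), so `c W ≤ c M - 1` and
`|W| + c W ≤ |M| + c M`; and `v ∈ H` for every closed `H ⊇ X` (`bnb M v ⊆ bnb H v`, as `M ⊆ H`). This contradicts the maximality. So `M` is
closed, `|M| ≤ |X| + c X ≤ 2 |X|`.
`bnb_mono`, `mem_bnb`: clear from the definition.
-/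

set_option autoImplicit false

namespace SSB

open Finset

theorem mem_bnb {n : ℕ} {par : ℕ → ℕ} {B : Finset ℕ} {v b : ℕ} : b ∈ bnb n par B v ↔
    b ∈ B ∧ ((1 ≤ v ∧ v < n ∧ par v = b) ∨ (1 ≤ b ∧ b < n ∧ par b = v)) := by
  simp [bnb]

theorem bnb_mono {n : ℕ} {par : ℕ → ℕ} {B B' : Finset ℕ} (h : B ⊆ B') (v : ℕ) :
    bnb n par B v ⊆ bnb n par B' v :=
  Finset.filter_subset_filter _ h

/-- `bnb` of the whole set has `pdeg` elements -/
theorem bnb_card_le {n : ℕ} {par : ℕ → ℕ} (hpar : IsPar n par) {B : Finset ℕ} {v : ℕ} :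
    (bnb n par B v).card ≤ pdeg n par v := by
  have h1 : bnb n par B v ⊆ chs n par v ∪ (if v = 0 then ∅ else {par v}) := by
    intro b hb
    rw [mem_bnb] at hb
    rw [mem_union]
    rcases hb.2 with ⟨h2, h3, h4⟩ | ⟨h2, h3, h4⟩
    · right
      rw [if_neg (by omega), mem_singleton]
      exact h4.symm
    · left
      unfold chs
      rw [mem_filter, mem_range]
      exact ⟨h3, h2, h4⟩
  refine (card_le_card h1).trans ((card_union_le _ _).trans ?_)
  unfold pdeg
  apply Nat.add_le_add_left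
  split_ifs
  · simp
  · simp

private theorem cloE_e {n : ℕ} {par : ℕ → ℕ} (M : Finset ℕ) {v : ℕ}
    (hv : v ∉ M) :
    (M.filter (fun w => 1 ≤ w ∧ par w ∈ M)).card + (bnb n par M v).card ≤
      ((insert v M).filter (fun w => 1 ≤ w ∧ par w ∈ insert v M)).card := by
  have hA : M.filter (fun w => 1 ≤ w ∧ par w ∈ M) ⊆
      (insert v M).filter (fun w => 1 ≤ w ∧ par w ∈ insert v M) := by
    intro w hw
    rw [mem_filter] at hw ⊢
    exact ⟨mem_insert_of_mem hw.1, hw.2.1, mem_insert_of_mem hw.2.2⟩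
  have hB : (bnb n par M v).filter (fun b => 1 ≤ b ∧ par b = v) ⊆
      (insert v M).filter (fun w => 1 ≤ w ∧ par w ∈ insert v M) := by
    intro w hw
    rw [mem_filter, mem_bnb] at hw
    rw [mem_filter]
    exact ⟨mem_insert_of_mem hw.1.1, hw.2.1, by rw [hw.2.2]; exact mem_insert_self _ _⟩
  have hC : (if 1 ≤ v ∧ v < n ∧ par v ∈ M then ({v} : Finset ℕ) else ∅) ⊆
      (insert v M).filter (fun w => 1 ≤ w ∧ par w ∈ insert v M) := by
    split_ifs with hc
    · intro w hw
      rw [mem_singleton] at hw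
      subst hw
      rw [mem_filter]
      exact ⟨mem_insert_self _ _, hc.1, mem_insert_of_mem hc.2.2⟩
    · exact empty_subset _
  have hAB : Disjoint (M.filter (fun w => 1 ≤ w ∧ par w ∈ M))
      ((bnb n par M v).filter (fun b => 1 ≤ b ∧ par b = v)) := by
    rw [disjoint_left]
    intro w hw hw'
    rw [mem_filter] at hw hw'
    apply hv
    rw [← hw'.2.2]
    exact hw.2.2
  have hABC : Disjoint (M.filter (fun w => 1 ≤ w ∧ par w ∈ M) ∪
      (bnb n par M v).filter (fun b => 1 ≤ b ∧ par b = v))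
      (if 1 ≤ v ∧ v < n ∧ par v ∈ M then ({v} : Finset ℕ) else ∅) := by
    rw [disjoint_left]
    intro w hw hw'
    split_ifs at hw' with hc
    · rw [mem_singleton] at hw'
      subst hw'
      rw [mem_union] at hw
      rcases hw with hw | hw
      · exact hv (mem_filter.mp hw).1
      · exact hv (mem_bnb.mp (mem_filter.mp hw).1).1
    · simp at hw'
  have h1 := card_le_card (union_subset (union_subset hA hB) hC)
  rw [card_union_of_disjoint hABC, card_union_of_disjoint hAB] at h1
  have h2 : bnb n par M v ⊆ (bnb n par M v).filter (fun b => 1 ≤ b ∧ par b = v) ∪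
      (if 1 ≤ v ∧ v < n ∧ par v ∈ M then ({par v} : Finset ℕ) else ∅) := by
    intro b hb
    have hb' := mem_bnb.mp hb
    rw [mem_union]
    rcases hb'.2 with ⟨h2, h3, h4⟩ | ⟨h2, h3, h4⟩
    · right
      rw [if_pos ⟨h2, h3, by rw [h4]; exact hb'.1⟩, mem_singleton]
      exact h4.symm
    · left
      rw [mem_filter]
      exact ⟨hb, h2, h4⟩
  have h3 := (card_le_card h2).trans (card_union_le _ _)
  have h4 : (if 1 ≤ v ∧ v < n ∧ par v ∈ M then ({par v} : Finset ℕ) else ∅).card =
      (if 1 ≤ v ∧ v < n ∧ par v ∈ M then ({v} : Finset ℕ) else ∅).card := by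
    split_ifs <;> simp
  rw [h4] at h3
  omega

theorem clo_exists {n : ℕ} {par : ℕ → ℕ} (hpar : IsPar n par) (X : Finset ℕ) (hX : X ⊆ range n) :
    ∃ M : Finset ℕ, X ⊆ M ∧ M ⊆ range n ∧ Clo n par M ∧ M.card ≤ 2 * X.card ∧
      ∀ H : Finset ℕ, X ⊆ H → Clo n par H → M ⊆ H := by
  classical
  obtain ⟨M, hM, hmax⟩ := exists_max_image ((range n).powerset.filter (fun W => X ⊆ W ∧
    2 * W.card + (X.filter (fun w => 1 ≤ w ∧ par w ∈ X)).card ≤
      2 * X.card + (W.filter (fun w => 1 ≤ w ∧ par w ∈ W)).card ∧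
    ∀ H : Finset ℕ, X ⊆ H → Clo n par H → W ⊆ H)) card
    ⟨X, by
      rw [mem_filter, mem_powerset]
      exact ⟨hX, Subset.refl _, le_refl _, fun H h _ => h⟩⟩
  rw [mem_filter, mem_powerset] at hM
  obtain ⟨hMn, hXM, hcard, hleast⟩ := hM
  refine ⟨M, hXM, hMn, ?_, ?_, hleast⟩
  · by_contra hcon
    unfold Clo at hcon
    push Not at hcon
    obtain ⟨v, hvn, hvM, hv2⟩ := hcon
    have h1 := cloE_e (n := n) (par := par) M hvM
    have h2 : (insert v M).card = M.card + 1 := card_insert_of_notMem hvM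
    have h3 := hmax (insert v M) (by
      rw [mem_filter, mem_powerset]
      refine ⟨?_, hXM.trans (subset_insert _ _), ?_, ?_⟩
      · intro w hw
        rw [mem_insert] at hw
        rcases hw with rfl | hw
        · exact mem_range.mpr hvn
        · exact hMn hw
      · rw [h2]
        omega
      · intro H hH hcl
        have hMH := hleast H hH hcl
        apply insert_subset _ hMH
        by_contra hvH
        have h4 := hcl v hvn hvH
        have h5 := card_le_card (bnb_mono (n := n) (par := par) hMH v)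
        omega)
    rw [h2] at h3
    omega
  · have h1 : (M.filter (fun w => 1 ≤ w ∧ par w ∈ M)).card ≤ M.card := card_filter_le _ _
    omega

end SSB
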