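import Pool.Agent.Lib.MP_8a819d_co.AT.Defs

/-!
# MP_8a819d_co, trees with many non-leaves: counting items

JOB Cnt (all of this file).

* `items_mono`, `items_le`: `items par W = W.image inl ∪ (...).image inr`.
* `items_card`: the items of `B ∪ Z` which are not items of `B`: `inl v` (`v ∈ Z`), `inr v` with `v ∈ Z`, `par v ∈ Z` or `par v ∈ B`, and
  `inr c` with `c ∈ B`, `c ≥ 1`, `par c = v ∈ Z`; for `v ∈ Z` (`v ≥ 1`): `bnb n par B v` is `{par v}` if `par v ∈ B` together with these `c`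
  (`par v ≠ c` since `par v < v`, `c > v`). Induction on `Z` or a bijection.
* `items_rm`: as in BD/Zf.lean (`zf2` lemmas, `SSP_of`): copy.
* `val_items`: the value of an item of `W` depends only on the labels of `W`.
* `deg_sum`: as in BD/Zf.lean: `∑ pdeg + 2 = 2 n`.
-/

set_option autoImplicit false

namespace SSB

open Finset

/-- the items which disappear with `v` -/
private def cnt_X (n : ℕ) (par : ℕ → ℕ) (v : ℕ) : Finset (ℕ ⊕ ℕ) :=
  insert (Sum.inl v) (insert (Sum.inr v) ((chs n par v).image Sum.inr))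

private theorem cnt_inl {n : ℕ} {par : ℕ → ℕ} {v i : ℕ} : Sum.inl i ∈ cnt_X n par v ↔ i = v := by
  simp [cnt_X]

private theorem cnt_inr {n : ℕ} {par : ℕ → ℕ} {v i : ℕ} :
    Sum.inr i ∈ cnt_X n par v ↔ i = v ∨ i ∈ chs n par v := by
  simp [cnt_X]

private theorem cnt_card_X {n : ℕ} {par : ℕ → ℕ} (hpar : IsPar n par) {v : ℕ} (h1 : 1 ≤ v)
    (hv : v < n) : (cnt_X n par v).card = pdeg n par v + 1 := by
  unfold cnt_X pdeg
  rw [card_insert_of_notMem, card_insert_of_notMem, card_image_of_injective _ Sum.inr_injective,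
    if_neg (by omega)]
  · intro h
    rw [mem_image] at h
    obtain ⟨c, hc, hcv⟩ := h
    have h2 : c = v := Sum.inr_injective hcv
    rw [h2] at hc
    have h3 := (mem_chs.1 hc).2.2
    have h4 := hpar v h1 hv
    omega
  · simp

private theorem cnt_card_items {n : ℕ} {par : ℕ → ℕ} (hn : 1 ≤ n) (hpar : IsPar n par) :
    (items par (range n)).card = 2 * n - 1 := by
  unfold items
  rw [card_union_of_disjoint, card_image_of_injective _ Sum.inl_injective,
    card_image_of_injective _ Sum.inr_injective, card_range]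
  · have h1 : (range n).filter (fun i => 1 ≤ i ∧ par i ∈ range n) = (range n).erase 0 := by
      ext i
      simp only [mem_filter, mem_range, mem_erase]
      constructor
      · rintro ⟨h1, h2, -⟩
        exact ⟨by omega, h1⟩
      · rintro ⟨h1, h2⟩
        have h3 := hpar i (by omega) h2
        exact ⟨h2, by omega, by omega⟩
    rw [h1, card_erase_of_mem (mem_range.2 hn), card_range]
    omega
  · rw [disjoint_left]
    intro x hx hy
    rw [mem_image] at hx hy
    obtain ⟨i, -, rfl⟩ := hx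
    obtain ⟨j, -, hj⟩ := hy
    exact absurd hj (by simp)

private theorem cnt_split {n : ℕ} {par : ℕ → ℕ} {Λ : Finset ℕ} {t : ℕ} (hpar : IsPar n par)
    (hΛ : Λ ⊆ range n)
    (hv : ∀ v ∈ Λ, 1 ≤ v ∧ pdeg n par v = t ∧ par v ∉ Λ ∧ ∀ c ∈ chs n par v, c ∉ Λ) :
    items par (range n) = items par (range n \ Λ) ∪ Λ.biUnion (cnt_X n par) := by
  ext x
  rw [mem_union, mem_biUnion]
  cases x with
  | inl i =>
    simp only [mem_items_inl, cnt_inl, mem_sdiff]
    constructor
    · intro h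
      by_cases hi : i ∈ Λ
      · exact Or.inr ⟨i, hi, rfl⟩
      · exact Or.inl ⟨h, hi⟩
    · rintro (h | ⟨v, hvΛ, rfl⟩)
      · exact h.1
      · exact hΛ hvΛ
  | inr i =>
    simp only [mem_items_inr, cnt_inr, mem_sdiff]
    constructor
    · rintro ⟨h1, h2, h3⟩
      by_cases hi : i ∈ Λ
      · exact Or.inr ⟨i, hi, Or.inl rfl⟩
      · by_cases hp : par i ∈ Λ
        · exact Or.inr ⟨par i, hp, Or.inr (mem_chs.2 ⟨mem_range.1 h1, h2, rfl⟩)⟩
        · exact Or.inl ⟨⟨h1, hi⟩, h2, h3, hp⟩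
    · rintro (⟨⟨h1, -⟩, h2, h3, -⟩ | ⟨v, hvΛ, rfl | hc⟩)
      · exact ⟨h1, h2, h3⟩
      · have h4 := mem_range.1 (hΛ hvΛ)
        have h5 := hpar i (hv i hvΛ).1 h4
        exact ⟨hΛ hvΛ, (hv i hvΛ).1, mem_range.2 (by omega)⟩
      · obtain ⟨h4, h5, h6⟩ := mem_chs.1 hc
        exact ⟨mem_range.2 h4, h5, by rw [h6]; exact hΛ hvΛ⟩

private theorem cnt_disj1 {n : ℕ} {par : ℕ → ℕ} {Λ : Finset ℕ} :
    Disjoint (items par (range n \ Λ)) (Λ.biUnion (cnt_X n par)) := by
  rw [disjoint_left]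
  intro x hx hy
  rw [mem_biUnion] at hy
  obtain ⟨v, hvΛ, hy⟩ := hy
  cases x with
  | inl i =>
    rw [mem_items_inl, mem_sdiff] at hx
    rw [cnt_inl] at hy
    rw [hy] at hx
    exact hx.2 hvΛ
  | inr i =>
    rw [mem_items_inr, mem_sdiff, mem_sdiff] at hx
    rw [cnt_inr] at hy
    rcases hy with hy | hy
    · rw [hy] at hx
      exact hx.1.2 hvΛ
    · rw [(mem_chs.1 hy).2.2] at hx
      exact hx.2.2.2 hvΛ

private theorem cnt_disj2 {n : ℕ} {par : ℕ → ℕ} {Λ : Finset ℕ} {t : ℕ}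
    (hv : ∀ v ∈ Λ, 1 ≤ v ∧ pdeg n par v = t ∧ par v ∉ Λ ∧ ∀ c ∈ chs n par v, c ∉ Λ) :
    ∀ v ∈ Λ, ∀ w ∈ Λ, v ≠ w → Disjoint (cnt_X n par v) (cnt_X n par w) := by
  intro v hvΛ w hwΛ hne
  rw [disjoint_left]
  intro x hx hy
  cases x with
  | inl i =>
    rw [cnt_inl] at hx hy
    exact hne (hx.symm.trans hy)
  | inr i =>
    rw [cnt_inr] at hx hy
    rcases hx with hx | hx <;> rcases hy with hy | hy
    · exact hne (hx.symm.trans hy)
    · rw [hx] at hy
      exact (hv w hwΛ).2.2.2 v hy hvΛ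
    · rw [hy] at hx
      exact (hv v hvΛ).2.2.2 w hx hwΛ
    · exact hne ((mem_chs.1 hx).2.2.symm.trans (mem_chs.1 hy).2.2)

private theorem cnt_count {n : ℕ} {par : ℕ → ℕ} {Λ : Finset ℕ} {t : ℕ} (hn : 1 ≤ n) (hpar : IsPar n par)
    (hΛ : Λ ⊆ range n)
    (hv : ∀ v ∈ Λ, 1 ≤ v ∧ pdeg n par v = t ∧ par v ∉ Λ ∧ ∀ c ∈ chs n par v, c ∉ Λ) :
    (items par (range n \ Λ)).card + (t + 1) * Λ.card = 2 * n - 1 := by
  rw [← cnt_card_items hn hpar, cnt_split hpar hΛ hv, card_union_of_disjoint cnt_disj1,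
    card_biUnion (fun v hvΛ w hwΛ hne => cnt_disj2 hv v hvΛ w hwΛ hne)]
  congr 1
  have h1 : ∀ v ∈ Λ, (cnt_X n par v).card = t + 1 := by
    intro v hvΛ
    rw [cnt_card_X hpar (hv v hvΛ).1 (mem_range.1 (hΛ hvΛ)), (hv v hvΛ).2.1]
  rw [Finset.sum_congr rfl h1, Finset.sum_const, smul_eq_mul, mul_comm]


private theorem cnt_dsum (n : ℕ) (par : ℕ → ℕ) (hn : 1 ≤ n) (hpar : IsPar n par) :
    ∑ i ∈ range n, pdeg n par i + 2 = 2 * n := by
  have h1 : ((range n).filter (fun c => 1 ≤ c)).card = ∑ i ∈ range n, (chs n par i).card := by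
    have h := card_eq_sum_card_fiberwise (s := (range n).filter (fun c => 1 ≤ c)) (t := range n)
      (f := par) (by
        intro c hc
        rw [mem_coe, mem_filter, mem_range] at hc
        rw [mem_coe, mem_range]
        exact lt_trans (hpar c hc.2 hc.1) hc.1)
    rw [h]
    refine sum_congr rfl fun i _ => ?_
    unfold chs
    rw [filter_filter]
  have h2 : ((range n).filter (fun c => 1 ≤ c)).card + 1 = n := by
    have h3 : (range n).filter (fun c => 1 ≤ c) = (range n).erase 0 := by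
      ext c
      rw [mem_filter, mem_erase]
      constructor
      · rintro ⟨h4, h5⟩
        exact ⟨by omega, h4⟩
      · rintro ⟨h4, h5⟩
        exact ⟨h5, by omega⟩
    rw [h3, card_erase_of_mem (mem_range.2 (by omega)), card_range]
    omega
  have h3 : ∑ i ∈ range n, (if i = 0 then 0 else 1) + 1 = n := by
    obtain ⟨m, rfl⟩ : ∃ m, n = m + 1 := ⟨n - 1, by omega⟩
    rw [sum_range_succ']
    have h4 : ∑ k ∈ range m, (if k + 1 = 0 then 0 else 1) = m := by
      rw [sum_congr rfl (g := fun _ => 1) (fun k _ => if_neg (by omega)), sum_const, card_range,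
        smul_eq_mul, mul_one]
    rw [h4, if_pos rfl]
  unfold pdeg
  rw [sum_add_distrib, ← h1]
  omega

private theorem cnt_cardW (par : ℕ → ℕ) (W : Finset ℕ) :
    (items par W).card = W.card + (W.filter (fun i => 1 ≤ i ∧ par i ∈ W)).card := by
  unfold items
  rw [card_union_of_disjoint, card_image_of_injective _ Sum.inl_injective,
    card_image_of_injective _ Sum.inr_injective]
  rw [disjoint_left]
  intro x hx hy
  rw [mem_image] at hx hy
  obtain ⟨i, -, rfl⟩ := hx
  obtain ⟨j, -, hj⟩ := hy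
  exact absurd hj (by simp)

theorem items_mono {par : ℕ → ℕ} {W W' : Finset ℕ} (h : W ⊆ W') : items par W ⊆ items par W' := by
  intro x hx
  cases x with
  | inl i => exact mem_items_inl.2 (h (mem_items_inl.1 hx))
  | inr i =>
    obtain ⟨h1, h2, h3⟩ := mem_items_inr.1 hx
    exact mem_items_inr.2 ⟨h h1, h2, h h3⟩

theorem items_le (par : ℕ → ℕ) (W : Finset ℕ) : (items par W).card ≤ 2 * W.card := by
  rw [cnt_cardW]
  have h1 := card_filter_le W (fun i => 1 ≤ i ∧ par i ∈ W)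
  omega

theorem items_card {n : ℕ} {par : ℕ → ℕ} (hpar : IsPar n par) {B Z : Finset ℕ} (hB : B ⊆ range n)
    (hZ : Z ⊆ range n) (hd : Disjoint B Z) (h0 : 0 ∉ Z) :
    (items par (B ∪ Z)).card = (items par B).card +
      ∑ v ∈ Z, (1 + (bnb n par B v).card + (if par v ∈ Z then 1 else 0)) := by
  have hZ1 : ∀ v ∈ Z, 1 ≤ v := by
    intro v hv
    rcases Nat.eq_zero_or_pos v with h | h
    · rw [h] at hv
      exact absurd hv h0
    · exact h
  have h1 : ∀ v ∈ Z, (bnb n par B v).card =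
      (if par v ∈ B then 1 else 0) + (B.filter (fun b => 1 ≤ b ∧ par b = v)).card := by
    intro v hv
    have hv1 := hZ1 v hv
    have hvn := mem_range.1 (hZ hv)
    have h2 : bnb n par B v = (B.filter (fun b => par v = b)) ∪ (B.filter (fun b => 1 ≤ b ∧ par b = v)) := by
      ext b
      unfold bnb
      rw [mem_union, mem_filter, mem_filter, mem_filter]
      constructor
      · rintro ⟨hb, ⟨-, -, h3⟩ | ⟨h3, -, h4⟩⟩
        · exact Or.inl ⟨hb, h3⟩
        · exact Or.inr ⟨hb, h3, h4⟩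
      · rintro (⟨hb, h3⟩ | ⟨hb, h3, h4⟩)
        · exact ⟨hb, Or.inl ⟨hv1, hvn, h3⟩⟩
        · exact ⟨hb, Or.inr ⟨h3, mem_range.1 (hB hb), h4⟩⟩
    have h3 : Disjoint (B.filter (fun b => par v = b)) (B.filter (fun b => 1 ≤ b ∧ par b = v)) := by
      rw [disjoint_left]
      intro b hb hb'
      have h4 := (mem_filter.1 hb).2
      have h5 := (mem_filter.1 hb').2
      have h6 := hpar v hv1 hvn
      have h7 := hpar b h5.1 (mem_range.1 (hB (mem_filter.1 hb).1))
      omega
    rw [h2, card_union_of_disjoint h3, filter_eq]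
    congr 1
    split_ifs <;> rfl
  have h2 : ∑ v ∈ Z, (B.filter (fun b => 1 ≤ b ∧ par b = v)).card =
      (B.filter (fun b => 1 ≤ b ∧ par b ∈ Z)).card := by
    have h3 := card_eq_sum_card_fiberwise (s := B.filter (fun b => 1 ≤ b ∧ par b ∈ Z)) (t := Z)
      (f := par) (by
        intro b hb
        rw [mem_coe, mem_filter] at hb
        exact hb.2.2)
    rw [h3]
    refine sum_congr rfl fun v hv => ?_
    congr 1
    ext b
    rw [mem_filter, mem_filter, mem_filter]
    constructor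
    · rintro ⟨hb, h4, h5⟩
      exact ⟨⟨hb, h4, by rw [h5]; exact hv⟩, h5⟩
    · rintro ⟨⟨hb, h4, -⟩, h5⟩
      exact ⟨hb, h4, h5⟩
  have h3 : ∀ S : Finset ℕ, ∑ v ∈ Z, (if par v ∈ S then 1 else 0) = (Z.filter (fun v => 1 ≤ v ∧ par v ∈ S)).card := by
    intro S
    rw [← card_filter]
    congr 1
    exact filter_congr fun v hv => ⟨fun h => ⟨hZ1 v hv, h⟩, fun h => h.2⟩
  have hsplit : ∀ W : Finset ℕ, (W.filter (fun i => 1 ≤ i ∧ par i ∈ B ∪ Z)).card =
      (W.filter (fun i => 1 ≤ i ∧ par i ∈ B)).card + (W.filter (fun i => 1 ≤ i ∧ par i ∈ Z)).card := by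
    intro W
    rw [← card_union_of_disjoint]
    · congr 1
      ext i
      rw [mem_union, mem_filter, mem_filter, mem_filter, mem_union]
      tauto
    · rw [disjoint_left]
      intro i hi hi'
      exact disjoint_left.1 hd (mem_filter.1 hi).2.2 (mem_filter.1 hi').2.2
  rw [cnt_cardW, cnt_cardW, card_union_of_disjoint hd, filter_union,
    card_union_of_disjoint (disjoint_filter_filter hd), hsplit, hsplit, sum_add_distrib, sum_add_distrib,
    sum_congr rfl h1, sum_add_distrib, h2, h3 B, h3 Z, sum_const, smul_eq_mul, mul_one]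
  omega

theorem items_rm {n t : ℕ} {par : ℕ → ℕ} (hpar : IsPar n par) (hn : 1 ≤ n) {Λ : Finset ℕ}
    (hΛ : Λ ⊆ range n)
    (hv : ∀ v ∈ Λ, 1 ≤ v ∧ pdeg n par v = t ∧ par v ∉ Λ ∧ ∀ c ∈ chs n par v, c ∉ Λ) :
    (items par (range n \ Λ)).card + (t + 1) * Λ.card = 2 * n - 1 := by
  exact cnt_count hn hpar hΛ hv

theorem val_items {par f f' : ℕ → ℕ} {W : Finset ℕ} (h : ∀ i ∈ W, f' i = f i) {x : ℕ ⊕ ℕ}
    (hx : x ∈ items par W) : val par f' x = val par f x := by
  cases x with
  | inl i => exact h i (mem_items_inl.1 hx)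
  | inr i =>
    obtain ⟨h1, -, h3⟩ := mem_items_inr.1 hx
    rw [val_inr, val_inr, h i h1, h _ h3]

theorem deg_sum {n : ℕ} {par : ℕ → ℕ} (hpar : IsPar n par) (hn : 1 ≤ n) :
    ∑ i ∈ range n, pdeg n par i + 2 = 2 * n := by
  exact cnt_dsum n par hn hpar

/-- few vertices of high degree -/
theorem high_card {n D : ℕ} {par : ℕ → ℕ} (hpar : IsPar n par) (hn : 1 ≤ n) :
    D * ((range n).filter (fun v => D ≤ pdeg n par v)).card ≤ 2 * n := by
  have h1 := deg_sum hpar hn
  have h2 : ((range n).filter (fun v => D ≤ pdeg n par v)).card * D ≤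
      ∑ v ∈ (range n).filter (fun v => D ≤ pdeg n par v), pdeg n par v := by
    have h3 := card_nsmul_le_sum ((range n).filter (fun v => D ≤ pdeg n par v)) (fun v => pdeg n par v) D
      (fun v hv => (mem_filter.1 hv).2)
    rwa [smul_eq_mul] at h3
  have h4 : ∑ v ∈ (range n).filter (fun v => D ≤ pdeg n par v), pdeg n par v ≤
      ∑ v ∈ range n, pdeg n par v :=
    sum_le_sum_of_subset (filter_subset _ _)
  rw [mul_comm]
  omega

end SSB
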