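import Pool.Agent.Lib.MP_8a819d_co.AT.Cnt

/-!
# MP_8a819d_co, trees with many non-leaves: greedy numbering

JOB GreedyN (all of this file).

PROOF. Induction on `|X|`. Let `x` be the largest element of `X`, `X' = X \ {x}`; number `W ∪ X'` by the induction hypothesis (`f₁`). The
neighbours of `x` in `W ∪ X'`: `par x` (if `x ≥ 1` and `par x ∈ W ∪ X'`) and the children of `x` in `W` (at most one); the children of `x` are
larger than `x`, so not in `X'`. So there are at most two neighbours, with labels `a` (and `a'`, `a ≠ a'`) in `[1, N]`. Let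
`F' = F ∪ (values of items par (W ∪ X'))`, `|F'| ≤ |F| + |items par W| + 3 |X'|` (the induction hypothesis should include
`|items par (W ∪ X')| ≤ |items par W| + 3 |X'|`, or use `items_card` with `|bnb| ≤ ..`; simplest: every new vertex adds at most `3` items).
Choose `y ∈ P` with: `y ∉ F'`; for each neighbour label `a`: `dd y a ∉ F'` (at most `2 |F'|` bad `y`), `y ≠ a`, `dd y a ≠ y` (`a ≠ 2 y`: one bad `y`);
`dd y a ≠ dd y a'` (`2 y ≠ a + a'`: one bad `y`). At most `5 |F'| + 5 < |P|` bad values. Put `f' x = y`. All values of the new items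
(`inl x`; `inr x` if `par x` is a neighbour; `inr c` for the child `c ∈ W`) are distinct, not in `F'`, in `[1, N]`.
-/

set_option autoImplicit false

namespace SSB

open Finset

/-- the edge item joining `x` and its neighbour `b` -/
private def greedyn_eg (x b : ℕ) : ℕ ⊕ ℕ := if b < x then Sum.inr x else Sum.inr b

/-- the neighbours of `x` in `Y`, `C` being the set of its children in `Y` -/
private def greedyn_nb (par : ℕ → ℕ) (Y C : Finset ℕ) (x : ℕ) : Finset ℕ :=
  (if 1 ≤ x ∧ par x ∈ Y then {par x} else ∅) ∪ C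

private theorem greedyn_mem_nb {par : ℕ → ℕ} {Y C : Finset ℕ} {x b : ℕ} :
    b ∈ greedyn_nb par Y C x ↔ (b = par x ∧ 1 ≤ x ∧ par x ∈ Y) ∨ b ∈ C := by
  unfold greedyn_nb
  rw [mem_union]
  split_ifs with h
  · rw [mem_singleton]
    constructor
    · rintro (h1 | h1)
      · exact Or.inl ⟨h1, h⟩
      · exact Or.inr h1
    · rintro (h1 | h1)
      · exact Or.inl h1.1
      · exact Or.inr h1
  · constructor
    · rintro (h1 | h1)
      · exact absurd h1 (notMem_empty _)
      · exact Or.inr h1
    · rintro (h1 | h1)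
      · exact absurd h1.2 h
      · exact Or.inr h1

private theorem greedyn_nb_card {par : ℕ → ℕ} {Y C : Finset ℕ} {x : ℕ} (hC : C.card ≤ 1) :
    (greedyn_nb par Y C x).card ≤ 2 := by
  unfold greedyn_nb
  refine le_trans (card_union_le _ _) ?_
  have h1 : (if 1 ≤ x ∧ par x ∈ Y then ({par x} : Finset ℕ) else ∅).card ≤ 1 := by
    split_ifs
    · rw [card_singleton]
    · rw [card_empty]
      exact Nat.zero_le _
  omega

/-- the items of `insert x Y` -/
private theorem greedyn_items {n : ℕ} {par : ℕ → ℕ} {Y C : Finset ℕ} {x : ℕ}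
    (hpar : IsPar n par) (hxn : x < n) (hY : Y ⊆ range n)
    (hC : ∀ c ∈ Y, 1 ≤ c → par c = x → c ∈ C) {z : ℕ ⊕ ℕ}
    (hz : z ∈ items par (insert x Y)) :
    z ∈ items par Y ∨ z = Sum.inl x ∨ ∃ b ∈ greedyn_nb par Y C x, z = greedyn_eg x b := by
  cases z with
  | inl i =>
    rw [mem_items_inl, mem_insert] at hz
    rcases hz with rfl | hz
    · exact Or.inr (Or.inl rfl)
    · exact Or.inl (mem_items_inl.2 hz)
  | inr i =>
    rw [mem_items_inr, mem_insert, mem_insert] at hz
    obtain ⟨h1, h2, h3⟩ := hz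
    have hin : i < n := by
      rcases h1 with rfl | h1
      · exact hxn
      · exact mem_range.1 (hY h1)
    have hlt := hpar i h2 hin
    rcases h1 with rfl | h1
    · rcases h3 with h3 | h3
      · omega
      · refine Or.inr (Or.inr ⟨par i, greedyn_mem_nb.2 (Or.inl ⟨rfl, h2, h3⟩), ?_⟩)
        unfold greedyn_eg
        rw [if_pos hlt]
    · rcases h3 with h3 | h3
      · refine Or.inr (Or.inr ⟨i, greedyn_mem_nb.2 (Or.inr (hC i h1 h2 h3)), ?_⟩)
        unfold greedyn_eg
        rw [if_neg (by omega)]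
      · exact Or.inl (mem_items_inr.2 ⟨h1, h2, h3⟩)

private theorem greedyn_card {n : ℕ} {par : ℕ → ℕ} {Y C : Finset ℕ} {x : ℕ}
    (hpar : IsPar n par) (hxn : x < n) (hY : Y ⊆ range n)
    (hC : ∀ c ∈ Y, 1 ≤ c → par c = x → c ∈ C) (hC1 : C.card ≤ 1) :
    (items par (insert x Y)).card ≤ (items par Y).card + 3 := by
  have h1 : items par (insert x Y) ⊆ items par Y ∪
      insert (Sum.inl x) ((greedyn_nb par Y C x).image (greedyn_eg x)) := by
    intro z hz
    rw [mem_union, mem_insert, mem_image]
    rcases greedyn_items hpar hxn hY hC hz with h | h | ⟨b, hb, h⟩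
    · exact Or.inl h
    · exact Or.inr (Or.inl h)
    · exact Or.inr (Or.inr ⟨b, hb, h.symm⟩)
  have h2 := card_le_card h1
  have h3 := card_union_le (items par Y)
    (insert (Sum.inl x) ((greedyn_nb par Y C x).image (greedyn_eg x)))
  have h4 := card_insert_le (Sum.inl x : ℕ ⊕ ℕ) ((greedyn_nb par Y C x).image (greedyn_eg x))
  have h5 := card_image_le (s := greedyn_nb par Y C x) (f := greedyn_eg x)
  have h6 := greedyn_nb_card (par := par) (Y := Y) (x := x) hC1
  omega

/-- choice of a label -/
private theorem greedyn_choice {G P nb : Finset ℕ} {g : ℕ → ℕ} (hnb : nb.card ≤ 2)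
    (hg : Set.InjOn g nb) (hg1 : ∀ b ∈ nb, 1 ≤ g b) (hgG : ∀ b ∈ nb, g b ∈ G)
    (hcard : 5 * G.card + 3 < P.card) :
    ∃ y ∈ P, y ∉ G ∧ (∀ b ∈ nb, dd y (g b) ∉ G ∧ 1 ≤ dd y (g b) ∧ dd y (g b) ≠ y) ∧
      ∀ b ∈ nb, ∀ b' ∈ nb, dd y (g b) = dd y (g b') → b = b' := by
  set Bad : Finset ℕ := (G ∪ nb.biUnion (fun b => (G.image (fun z => g b + z) ∪
    G.image (fun z => g b - z)) ∪ {g b / 2})) ∪ {(∑ b ∈ nb, g b) / 2} with hBad
  have h1 : Bad.card ≤ 5 * G.card + 3 := by
    have a1 := card_union_le (G ∪ nb.biUnion (fun b => (G.image (fun z => g b + z) ∪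
      G.image (fun z => g b - z)) ∪ {g b / 2})) {(∑ b ∈ nb, g b) / 2}
    have a2 := card_union_le G (nb.biUnion (fun b => (G.image (fun z => g b + z) ∪
      G.image (fun z => g b - z)) ∪ {g b / 2}))
    have a3 : (nb.biUnion (fun b => (G.image (fun z => g b + z) ∪
      G.image (fun z => g b - z)) ∪ {g b / 2})).card ≤ nb.card * (2 * G.card + 1) := by
      refine card_biUnion_le_card_mul _ _ _ fun b _ => ?_
      have b1 := card_union_le (G.image (fun z => g b + z) ∪ G.image (fun z => g b - z)) {g b / 2}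
      have b2 := card_union_le (G.image (fun z => g b + z)) (G.image (fun z => g b - z))
      have b3 := card_image_le (s := G) (f := fun z => g b + z)
      have b4 := card_image_le (s := G) (f := fun z => g b - z)
      rw [card_singleton] at b1
      omega
    have a4 : nb.card * (2 * G.card + 1) ≤ 2 * (2 * G.card + 1) := Nat.mul_le_mul_right _ hnb
    rw [card_singleton, ← hBad] at a1
    omega
  have h2 : ∃ y ∈ P, y ∉ Bad := by
    by_contra hcon
    push Not at hcon
    have h3 : P ⊆ Bad := fun y hy => hcon y hy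
    have h4 := card_le_card h3
    omega
  obtain ⟨y, hyP, hy⟩ := h2
  rw [hBad, mem_union, mem_union, mem_biUnion, mem_singleton] at hy
  push Not at hy
  obtain ⟨⟨hyG, hyb⟩, hys⟩ := hy
  have key : ∀ b ∈ nb, dd y (g b) ∉ G ∧ 1 ≤ dd y (g b) ∧ dd y (g b) ≠ y := by
    intro b hb
    have h3 := hyb b hb
    rw [mem_union, mem_union, mem_image, mem_image, mem_singleton] at h3
    push Not at h3
    obtain ⟨⟨c1, c2⟩, c3⟩ := h3
    refine ⟨?_, ?_, ?_⟩
    · intro h4
      rcases le_total (g b) y with h5 | h5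
      · apply c1 _ h4
        unfold dd
        omega
      · apply c2 _ h4
        unfold dd
        omega
    · have h4 : y ≠ g b := by
        rintro rfl
        exact hyG (hgG b hb)
      unfold dd
      omega
    · have h4 := hg1 b hb
      unfold dd
      omega
  refine ⟨y, hyP, hyG, key, ?_⟩
  intro b hb b' hb' h3
  by_contra hne
  have h4 : g b ≠ g b' := fun h => hne (hg hb hb' h)
  have h5 : 2 * y = g b + g b' := by
    unfold dd at h3
    omega
  have h6 : nb = {b, b'} := by
    refine (eq_of_subset_of_card_le ?_ ?_).symm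
    · intro z hz
      rw [mem_insert, mem_singleton] at hz
      rcases hz with rfl | rfl
      · exact hb
      · exact hb'
    · rw [card_pair hne]
      exact hnb
  rw [h6, sum_pair hne] at hys
  omega

private theorem greedyn_main {n N : ℕ} {par : ℕ → ℕ} (hpar : IsPar n par) {W F P : Finset ℕ}
    {f : ℕ → ℕ} (hW : W ⊆ range n) (hinj : Set.InjOn (val par f) (items par W))
    (hval : ∀ x ∈ items par W, 1 ≤ val par f x ∧ val par f x ≤ N) (hP : P ⊆ Icc 1 N)
    (X : Finset ℕ) : X ⊆ range n → Disjoint W X →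
    (∀ x ∈ X, ((chs n par x).filter (· ∈ W)).card ≤ 1) →
    5 * (F.card + (items par W).card + 3 * X.card) + 10 ≤ P.card →
    (items par (W ∪ X)).card ≤ (items par W).card + 3 * X.card ∧
    ∃ f' : ℕ → ℕ, (∀ i ∈ W, f' i = f i) ∧ Set.InjOn (val par f') (items par (W ∪ X)) ∧
      (∀ x ∈ X, f' x ∈ P) ∧
      (∀ x ∈ items par (W ∪ X), 1 ≤ val par f' x ∧ val par f' x ≤ N) ∧
      (∀ x ∈ items par (W ∪ X), x ∉ items par W → val par f' x ∉ F) := by
  induction X using Finset.induction_on_max with
  | empty =>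
    intro _ _ _ _
    rw [union_empty]
    refine ⟨by omega, f, fun i _ => rfl, hinj, ?_, hval, ?_⟩
    · intro x hx
      exact absurd hx (notMem_empty _)
    · intro x hx hx'
      exact absurd hx hx'
  | insert x X' hmax ih =>
    intro hX hd hch hcard
    have hxX' : x ∉ X' := fun h => lt_irrefl _ (hmax x h)
    have hxn : x < n := mem_range.1 (hX (mem_insert_self x X'))
    have hX'n : X' ⊆ range n := fun z hz => hX (mem_insert_of_mem hz)
    have hd' : Disjoint W X' := disjoint_of_subset_right (subset_insert x X') hd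
    have hxW : x ∉ W := fun h => (disjoint_left.1 hd) h (mem_insert_self x X')
    have hci : (insert x X').card = X'.card + 1 := card_insert_of_notMem hxX'
    rw [hci] at hcard
    obtain ⟨hc1, f₁, hf1, hinj1, hP1, hval1, hF1⟩ :=
      ih hX'n hd' (fun z hz => hch z (mem_insert_of_mem hz)) (by omega)
    set Y := W ∪ X' with hY
    set C := (chs n par x).filter (· ∈ W) with hC
    have hYn : Y ⊆ range n := union_subset hW hX'n
    have hxY : x ∉ Y := by
      rw [hY, mem_union]
      rintro (h | h)
      · exact hxW h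
      · exact hxX' h
    have hCard : C.card ≤ 1 := hch x (mem_insert_self x X')
    have hCY : ∀ c ∈ Y, 1 ≤ c → par c = x → c ∈ C := by
      intro c hc h1 h2
      have hcn : c < n := mem_range.1 (hYn hc)
      have hlt := hpar c h1 hcn
      rw [hY, mem_union] at hc
      rw [hC, mem_filter, mem_chs]
      rcases hc with hc | hc
      · exact ⟨⟨hcn, h1, h2⟩, hc⟩
      · have := hmax c hc
        omega
    have hCsub : ∀ c ∈ C, c ∈ Y ∧ 1 ≤ c ∧ par c = x ∧ x < c := by
      intro c hc
      rw [hC, mem_filter, mem_chs] at hc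
      obtain ⟨⟨h1, h2, h3⟩, h4⟩ := hc
      have hlt := hpar c h2 h1
      exact ⟨by rw [hY, mem_union]; exact Or.inl h4, h2, h3, by omega⟩
    have hunion : W ∪ insert x X' = insert x Y := by
      rw [hY, union_insert]
    rw [hunion]
    have hcardY := greedyn_card hpar hxn hYn hCY hCard
    set nb := greedyn_nb par Y C x with hnb
    have hnbY : ∀ b ∈ nb, b ∈ Y := by
      intro b hb
      rcases greedyn_mem_nb.1 hb with ⟨rfl, _, h⟩ | h
      · exact h
      · exact (hCsub b h).1
    set G := F ∪ (items par Y).image (val par f₁) with hG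
    have hGcard : G.card ≤ F.card + (items par Y).card := by
      refine le_trans (card_union_le _ _) ?_
      have := card_image_le (s := items par Y) (f := val par f₁)
      omega
    have hmemG : ∀ z ∈ items par Y, val par f₁ z ∈ G := by
      intro z hz
      rw [hG, mem_union]
      exact Or.inr (mem_image_of_mem _ hz)
    have hinl : ∀ b ∈ nb, Sum.inl b ∈ items par Y := fun b hb => mem_items_inl.2 (hnbY b hb)
    obtain ⟨y, hyP, hyG, hyb, hyi⟩ := greedyn_choice (G := G) (P := P) (nb := nb) (g := f₁)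
      (greedyn_nb_card hCard)
      (fun b hb b' hb' h => Sum.inl.inj (hinj1 (hinl b hb) (hinl b' hb') h))
      (fun b hb => (hval1 _ (hinl b hb)).1) (fun b hb => hmemG _ (hinl b hb)) (by omega)
    refine ⟨by omega, Function.update f₁ x y, ?_⟩
    set f' := Function.update f₁ x y with hf'
    have hf'x : f' x = y := Function.update_self x y f₁
    have hf'Y : ∀ i ∈ Y, f' i = f₁ i := by
      intro i hi
      refine Function.update_of_ne ?_ y f₁
      rintro rfl
      exact hxY hi
    have hvY : ∀ z ∈ items par Y, val par f' z = val par f₁ z :=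
      fun z hz => val_items hf'Y hz
    have hvx : val par f' (Sum.inl x) = y := hf'x
    have hvb : ∀ b ∈ nb, val par f' (greedyn_eg x b) = dd y (f₁ b) := by
      intro b hb
      rcases greedyn_mem_nb.1 hb with ⟨rfl, h1, h2⟩ | h
      · have hlt := hpar x h1 hxn
        unfold greedyn_eg
        rw [if_pos hlt, val_inr, hf'x, hf'Y _ h2]
      · obtain ⟨h1, h2, h3, h4⟩ := hCsub b h
        unfold greedyn_eg
        rw [if_neg (by omega), val_inr, h3, hf'x, hf'Y _ h1, dd_comm]
    have hyN : 1 ≤ y ∧ y ≤ N := mem_Icc.1 (hP hyP)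
    have hcl : ∀ z ∈ items par (insert x Y),
        z ∈ items par Y ∨ z = Sum.inl x ∨ ∃ b ∈ nb, z = greedyn_eg x b :=
      fun z hz => greedyn_items hpar hxn hYn hCY hz
    refine ⟨?_, ?_, ?_, ?_, ?_⟩
    · intro i hi
      rw [hf'Y i (by rw [hY, mem_union]; exact Or.inl hi), hf1 i hi]
    · intro z hz z' hz' h
      rcases hcl z hz with h1 | h1 | ⟨b, hb, h1⟩
      · rcases hcl z' hz' with h2 | h2 | ⟨b', hb', h2⟩
        · rw [hvY z h1, hvY z' h2] at h
          exact hinj1 h1 h2 h
        · rw [hvY z h1, h2, hvx] at h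
          exact absurd (h ▸ hmemG z h1) hyG
        · rw [hvY z h1, h2, hvb b' hb'] at h
          exact absurd (h ▸ hmemG z h1) (hyb b' hb').1
      · rcases hcl z' hz' with h2 | h2 | ⟨b', hb', h2⟩
        · rw [hvY z' h2, h1, hvx] at h
          exact absurd (h ▸ hmemG z' h2) hyG
        · rw [h1, h2]
        · rw [h1, h2, hvx, hvb b' hb'] at h
          exact absurd h.symm (hyb b' hb').2.2
      · rcases hcl z' hz' with h2 | h2 | ⟨b', hb', h2⟩
        · rw [hvY z' h2, h1, hvb b hb] at h
          exact absurd (h ▸ hmemG z' h2) (hyb b hb).1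
        · rw [h1, h2, hvx, hvb b hb] at h
          exact absurd h (hyb b hb).2.2
        · rw [h1, h2, hvb b hb, hvb b' hb'] at h
          rw [h1, h2, hyi b hb b' hb' h]
    · intro z hz
      rw [mem_insert] at hz
      rcases hz with rfl | hz
      · rw [hf'x]
        exact hyP
      · rw [hf'Y z (by rw [hY, mem_union]; exact Or.inr hz)]
        exact hP1 z hz
    · intro z hz
      rcases hcl z hz with h1 | h1 | ⟨b, hb, h1⟩
      · rw [hvY z h1]
        exact hval1 z h1
      · rw [h1, hvx]
        exact hyN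
      · rw [h1, hvb b hb]
        refine ⟨(hyb b hb).2.1, ?_⟩
        have h3 := hval1 _ (hinl b hb)
        rw [val_inl] at h3
        unfold dd
        omega
    · intro z hz hzW
      rcases hcl z hz with h1 | h1 | ⟨b, hb, h1⟩
      · rw [hvY z h1]
        exact hF1 z h1 hzW
      · rw [h1, hvx]
        exact fun h => hyG (by rw [hG, mem_union]; exact Or.inl h)
      · rw [h1, hvb b hb]
        exact fun h => (hyb b hb).1 (by rw [hG, mem_union]; exact Or.inl h)

theorem greedy_num {n N : ℕ} {par : ℕ → ℕ} (hpar : IsPar n par) {W X F P : Finset ℕ} {f : ℕ → ℕ}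
    (hW : W ⊆ range n) (hX : X ⊆ range n) (hd : Disjoint W X)
    (hch : ∀ x ∈ X, ((chs n par x).filter (· ∈ W)).card ≤ 1)
    (hinj : Set.InjOn (val par f) (items par W))
    (hval : ∀ x ∈ items par W, 1 ≤ val par f x ∧ val par f x ≤ N) (hP : P ⊆ Icc 1 N)
    (hcard : 5 * (F.card + (items par W).card + 3 * X.card) + 10 ≤ P.card) :
    ∃ f' : ℕ → ℕ, (∀ i ∈ W, f' i = f i) ∧ Set.InjOn (val par f') (items par (W ∪ X)) ∧
      (∀ x ∈ X, f' x ∈ P) ∧
      (∀ x ∈ items par (W ∪ X), 1 ≤ val par f' x ∧ val par f' x ≤ N) ∧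
      (∀ x ∈ items par (W ∪ X), x ∉ items par W → val par f' x ∉ F) :=
  (greedyn_main hpar hW hinj hval hP X hX hd hch hcard).2

/-- the number of odd numbers in an interval -/
theorem odd_card (a b : ℕ) : b ≤ 2 * ((Icc (a + 1) b).filter (fun x => x % 2 = 1)).card + a + 1 := by
  -- the odd numbers `2 i + 1` with `a ≤ 2 i`, `2 i + 1 ≤ b`
  have h1 : (Icc ((a + 1) / 2) ((b - 1) / 2)).image (fun i => 2 * i + 1) ⊆
      (Icc (a + 1) b).filter (fun x => x % 2 = 1) ∨ b ≤ a + 1 := by
    by_cases hb : b ≤ a + 1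
    · exact Or.inr hb
    · left
      intro z hz
      rw [mem_image] at hz
      obtain ⟨i, hi, rfl⟩ := hz
      rw [mem_Icc] at hi
      rw [mem_filter, mem_Icc]
      omega
  rcases h1 with h1 | h1
  · have h2 := card_le_card h1
    rw [card_image_of_injective _ (fun i j h => by
      have h' : 2 * i + 1 = 2 * j + 1 := h
      omega), Nat.card_Icc] at h2
    omega
  · omega

end SSB
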