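import Pool.Agent.Lib.MP_8a819d_co.AT.F1

/-!
# MP_8a819d_co, trees with many non-leaves: the symmetric kernel with a large target (Lemma F extended)

BLOCK C3 (helper88).

`lemmaF` (BD/Ker.lean) gives a symmetric kernel with the exact load `T` if `|T - 1| ≤ s₀` everywhere. Here `T` may be
large (up to `C`) on a thin set: `T ≥ 1 - s₁` and `∑ Q T ≤ (1 + s₁) N`.

PROOF. `s₁ ≤ s₀²/(100 (C+1))²` small. Let `Ξ = {z ∈ Q : T z > 1 + √s₁}`; `∑ Q (T - 1 + s₁) ≤ (1 + s₁) N - (1 - s₁) |Q| ≤ 3 s₁ N`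
(`|Q| ≥ (1 - s₁) N`), so `|Ξ| ≤ 3 √s₁ N`. For `z ∈ Ξ` let `τ z = T z - 1 ∈ (0, C]` and add to the kernel:
* `z ≤ 0.3 N`: pairs `{x, x + z}`, `x ∈ R z = {x ∈ [0.6 N, 0.7 N] : x, x + z ∈ Q}` (at least `N/20` values `x`), weight
  `k x (x+z) = k (x+z) x = τ z / |R z|` each: load `τ z` at `z` (edge) and at most `(ω/2) * 2 * τ z / |R z| ≤ 21 C / N` at each
  label `x` or `x + z`;
* `z > 0.3 N`: pairs `{z, y}`, `y ∈ R z = {y ∈ Q ∩ [0.75 N, N] : y ≠ z, |z - y| ∈ Q}` (at least `N/10` values; `z + y > N`),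
  weight `(2/ω) τ z / |R z|`: load exactly `τ z` at `z` from the vertex term; every label gets (as a `y` or as a
  difference `|z - y|`) at most `C'/N` from each element of `Ξ`.
  [For `0.3 N < z < 0.6 N` the vertex `z` of the pair is not `≥ 0.6 N`: here the degree `∑ y k z y` of `z` is at least
  `(2/ω) τ z ≥ √s₁` by the new kernel alone, which is a positive constant, so the lower bound of the degree
  holds at `z` with the constant `min (1/C₀) √s₁`.]
So `k_X ≥ 0`, symmetric, `≤ C'/N`, supported by admissible pairs, with load `τ z + O(C' |Ξ|/N)` at `z ∈ Ξ` and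
`O(C' |Ξ| / N) = O(C' √s₁)` elsewhere. Apply `lemmaF` to `T' = T - load(k_X)`, `|T' - 1| ≤ s₀`: kernel `k_F`;
`k = k_F + k_X`. All the properties: the degree of `x` in `k` is `≥` that in `k_F`; if it is not `0` in `k_F` it is
`≥ 1/C₀`; if it is `0` in `k_F`, then `x < 0.6 N` (rows `≥ 0.6 N` have `k_F x y ≥ 1/N` for many `y`), so `x` gets weight of
`k_X` only as an element `z ∈ Ξ`, `z > 0.3 N`, and then its degree is `≥ (2/ω) √s₁`.
-/

set_option autoImplicit false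

namespace SSB

open Finset

theorem lemF2 (C : ℝ) (hC : 1 ≤ C) : ∃ s₁ C₂ : ℝ, 0 < s₁ ∧ s₁ < 1 / 100 ∧ 1 ≤ C₂ ∧ ∃ N₀ : ℕ,
    ∀ N : ℕ, N₀ ≤ N → ∀ Q : Finset ℕ, Q ⊆ Icc 1 N → (N : ℝ) - Q.card ≤ s₁ * N →
    ∀ ω : ℝ, |ω - 1| ≤ s₁ → ∀ T : ℕ → ℝ, (∀ a ∈ Q, 1 - s₁ ≤ T a ∧ T a ≤ C) →
      ∑ a ∈ Q, T a ≤ (1 + s₁) * N →
    ∃ k : ℕ → ℕ → ℝ,
      (∀ x y, 0 ≤ k x y) ∧ (∀ x y, k x y = k y x) ∧
      (∀ x y, k x y ≠ 0 → x ∈ Q ∧ y ∈ Q ∧ x ≠ y ∧ dd x y ∈ Q) ∧
      (∀ x y, k x y ≤ C₂ / N) ∧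
      (∀ x ∈ Q, (∑ y ∈ Q, k x y) ≠ 0 → 1 / C₂ ≤ ∑ y ∈ Q, k x y) ∧
      (∀ a ∈ Q, (ω / 2) * (∑ y ∈ Q, k a y) +
        (1 / 2) * (∑ x ∈ Q, ∑ y ∈ Q, if dd x y = a then k x y else 0) = T a) := by
  obtain ⟨s₀, C₀, hs₀, hs₀', hC₀, N₁, hF⟩ := lemmaF
  obtain ⟨r, hr⟩ : ∃ r, r = s₀ / (400 * C) := ⟨_, rfl⟩
  have hC0 : 0 < C := by linarith
  have hr0 : 0 < r := by rw [hr]; positivity
  have hrC : 400 * C * r = s₀ := by rw [hr]; field_simp
  have hr1 : 400 * r ≤ s₀ := by nlinarith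
  have hr2 : r ≤ 1 / 40000 := by linarith
  have hrr : r ^ 2 ≤ r / 40000 := by nlinarith
  have hr6 : r ^ 2 ≤ 1 / 10 ^ 6 := by nlinarith
  refine ⟨r ^ 2, C₀ + 300 * C + 1 / r, by positivity, by linarith, ?_, max N₁ (10 ^ 9), ?_⟩
  · have : 0 < 1 / r := by positivity
    linarith
  intro N hN Q hQ hs ω hω T hT hTs
  have hN1 : N₁ ≤ N := (le_max_left _ _).trans hN
  have hN2 : 10 ^ 9 ≤ N := (le_max_right _ _).trans hN
  have hNr : (10 : ℝ) ^ 9 ≤ N := by exact_mod_cast hN2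
  have hNpos : (0 : ℝ) < N := by linarith
  have hKH : KH N Q := ⟨hN2, hQ, hs.trans (mul_le_mul_of_nonneg_right hr6 hNpos.le)⟩
  have hω' : |ω - 1| ≤ 1 / 100 := hω.trans (by linarith)
  -- the large labels
  obtain ⟨Ξ, hΞ⟩ : ∃ Ξ : Finset ℕ, Ξ = Q.filter (fun z => r < T z - 1) := ⟨_, rfl⟩
  have hΞQ : Ξ ⊆ Q := by rw [hΞ]; exact filter_subset _ _
  have hΞz : ∀ z ∈ Ξ, r < T z - 1 := by
    intro z hz
    rw [hΞ, mem_filter] at hz
    exact hz.2
  have hΞC : ∀ z ∈ Ξ, T z - 1 ≤ C := by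
    intro z hz
    have := (hT z (hΞQ hz)).2
    linarith
  have hΞc : (Ξ.card : ℝ) ≤ 3 * r * N := by
    have h1 : (Ξ.card : ℝ) * r ≤ ∑ z ∈ Ξ, (T z - 1 + r ^ 2) := by
      rw [← nsmul_eq_mul]
      exact card_nsmul_le_sum _ _ _ fun z hz => by
        have := hΞz z hz
        have h2 : 0 ≤ r ^ 2 := by positivity
        linarith
    have h2 : ∑ z ∈ Ξ, (T z - 1 + r ^ 2) ≤ ∑ z ∈ Q, (T z - 1 + r ^ 2) := by
      refine sum_le_sum_of_subset_of_nonneg hΞQ fun z hz _ => ?_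
      have := (hT z hz).1
      linarith
    have h3 : ∑ z ∈ Q, (T z - 1 + r ^ 2) = ∑ z ∈ Q, T z - (1 - r ^ 2) * Q.card := by
      rw [sum_add_distrib, sum_sub_distrib, sum_const, sum_const, nsmul_eq_mul, nsmul_eq_mul]
      ring
    have h4 : (1 - r ^ 2) * ((N : ℝ) - r ^ 2 * N) ≤ (1 - r ^ 2) * Q.card := by
      refine mul_le_mul_of_nonneg_left (by linarith) (by linarith)
    have h5 : (Ξ.card : ℝ) * r ≤ 3 * r * N * r := by
      have h6 : 0 ≤ r ^ 2 * (r ^ 2 * N) := by positivity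
      nlinarith
    exact le_of_mul_le_mul_right h5 hr0
  -- the kernels
  have hone : ∀ z, ∃ k : ℕ → ℕ → ℝ, z ∈ Q → OneK N Q ω z k := by
    intro z
    by_cases hz : z ∈ Q
    · obtain ⟨k, hk⟩ := oneK hKH hω' hz
      exact ⟨k, fun _ => hk⟩
    · exact ⟨fun _ _ => 0, fun h => absurd h hz⟩
  choose kz hkz using hone
  have hk : ∀ z ∈ Ξ, OneK N Q ω z (kz z) := fun z hz => hkz z (hΞQ hz)
  obtain ⟨kX, hkX⟩ : ∃ kX : ℕ → ℕ → ℝ, kX = fun x y => ∑ z ∈ Ξ, (T z - 1) * kz z x y := ⟨_, rfl⟩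
  have hkXe : ∀ x y, kX x y = ∑ z ∈ Ξ, (T z - 1) * kz z x y := fun x y => by rw [hkX]
  have hkX0 : ∀ x y, 0 ≤ kX x y := by
    intro x y
    rw [hkXe]
    exact sum_nonneg fun z hz => mul_nonneg (hr0.le.trans (hΞz z hz).le) ((hk z hz).nn x y)
  have hldS : ∀ a, ldS Q ω kX a = ∑ z ∈ Ξ, (T z - 1) * ldS Q ω (kz z) a := by
    intro a
    unfold ldS
    have e1 : ∑ y ∈ Q, kX a y = ∑ z ∈ Ξ, (T z - 1) * ∑ y ∈ Q, kz z a y := by
      rw [sum_congr rfl fun y _ => hkXe a y, sum_comm]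
      exact sum_congr rfl fun z _ => (mul_sum _ _ _).symm
    have e2 : (∑ x ∈ Q, ∑ y ∈ Q, if dd x y = a then kX x y else 0) =
        ∑ z ∈ Ξ, (T z - 1) * ∑ x ∈ Q, ∑ y ∈ Q, if dd x y = a then kz z x y else 0 := by
      have e3 : ∀ x y, (if dd x y = a then kX x y else 0) =
          ∑ z ∈ Ξ, (T z - 1) * (if dd x y = a then kz z x y else 0) := by
        intro x y
        split_ifs
        · exact hkXe x y
        · simp
      rw [sum_congr rfl fun x _ => sum_congr rfl fun y _ => e3 x y]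
      rw [sum_congr rfl fun x _ => sum_comm, sum_comm]
      refine sum_congr rfl fun z _ => ?_
      rw [mul_sum]
      exact sum_congr rfl fun x _ => (mul_sum _ _ _).symm
    rw [e1, e2, mul_sum, mul_sum, ← sum_add_distrib]
    refine sum_congr rfl fun z _ => ?_
    ring
  have hΞN : ∑ z ∈ Ξ, (T z - 1) * (100 / N) ≤ 300 * C * r := by
    have h1 : ∑ z ∈ Ξ, (T z - 1) * (100 / (N : ℝ)) ≤ Ξ.card • (C * (100 / (N : ℝ))) :=
      sum_le_card_nsmul _ _ _ fun z hz => mul_le_mul_of_nonneg_right (hΞC z hz) (by positivity)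
    refine h1.trans ?_
    rw [nsmul_eq_mul]
    have h2 : (Ξ.card : ℝ) * (C * (100 / N)) ≤ 3 * r * N * (C * (100 / N)) :=
      mul_le_mul_of_nonneg_right hΞc (by positivity)
    refine h2.trans (le_of_eq ?_)
    field_simp
    ring
  have hld : ∀ a ∈ Q, |ldS Q ω kX a - (if a ∈ Ξ then T a - 1 else 0)| ≤ 300 * C * r := by
    intro a ha
    have e1 : (if a ∈ Ξ then T a - 1 else 0) = ∑ z ∈ Ξ, (T z - 1) * (if a = z then 1 else 0) := by
      rw [← sum_ite_eq Ξ a (fun z => T z - 1)]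
      refine sum_congr rfl fun z _ => ?_
      split_ifs <;> ring
    rw [hldS, e1, ← sum_sub_distrib]
    refine (abs_sum_le_sum_abs _ _).trans (le_trans (sum_le_sum fun z hz => ?_) hΞN)
    rw [← mul_sub, abs_mul, abs_of_pos (hr0.trans (hΞz z hz))]
    exact mul_le_mul_of_nonneg_left ((hk z hz).load a ha) (hr0.trans (hΞz z hz)).le
  obtain ⟨kF, hF1, hF2, hF3, hF4, hF5, hF6, hF7⟩ := hF N hN1 Q hQ
    (hs.trans (mul_le_mul_of_nonneg_right (by linarith) hNpos.le)) ω (hω.trans (by linarith))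
    (fun a => T a - ldS Q ω kX a) (by
      intro a ha
      have h1 := hld a ha
      have h2 : r ^ 2 ≤ r := by linarith
      have h3 := (hT a ha).1
      have h4 : 300 * C * r + r ≤ s₀ := by nlinarith
      by_cases h5 : a ∈ Ξ
      · rw [if_pos h5] at h1
        have h6 : T a - ldS Q ω kX a - 1 = -(ldS Q ω kX a - (T a - 1)) := by ring
        rw [h6, abs_neg]
        linarith
      · rw [if_neg h5, sub_zero] at h1
        have h6 : T a - 1 ≤ r := by
          by_contra h7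
          apply h5
          rw [hΞ, mem_filter]
          exact ⟨ha, not_le.1 h7⟩
        have h8 := abs_le.1 h1
        rw [abs_le]
        constructor <;> linarith [h8.1, h8.2])
  have hdegX : ∀ x, ∑ y ∈ Q, kX x y = ∑ z ∈ Ξ, (T z - 1) * ∑ y ∈ Q, kz z x y := by
    intro x
    rw [sum_congr rfl fun y _ => hkXe x y, sum_comm]
    exact sum_congr rfl fun z _ => (mul_sum _ _ _).symm
  have hXne : ∀ x y, kX x y ≠ 0 → ∃ z ∈ Ξ, kz z x y ≠ 0 := by
    intro x y hxy
    rw [hkXe] at hxy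
    obtain ⟨z, hz, hz'⟩ := exists_ne_zero_of_sum_ne_zero hxy
    exact ⟨z, hz, right_ne_zero_of_mul hz'⟩
  have h1r : 0 < 1 / r := by positivity
  refine ⟨fun x y => kF x y + kX x y, fun x y => add_nonneg (hF1 x y) (hkX0 x y), ?_, ?_, ?_, ?_, ?_⟩
  · intro x y
    change kF x y + kX x y = kF y x + kX y x
    rw [hF2 x y, hkXe x y, hkXe y x]
    congr 1
    refine sum_congr rfl fun z hz => ?_
    rw [(hk z hz).symm x y]
  · intro x y hxy
    by_cases h1 : kF x y = 0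
    · have h2 : kX x y ≠ 0 := by
        intro h3
        apply hxy
        change kF x y + kX x y = 0
        rw [h1, h3, add_zero]
      obtain ⟨z, hz, hz'⟩ := hXne x y h2
      exact (hk z hz).supp x y hz'
    · exact hF3 x y h1
  · intro x y
    change kF x y + kX x y ≤ (C₀ + 300 * C + 1 / r) / N
    have h1 : kX x y ≤ 300 * C / N := by
      have h2 : ∀ z ∈ Ξ, z ∉ ({dd x y, x, y} : Finset ℕ) → (T z - 1) * kz z x y = 0 := by
        intro z hz hz'
        have h3 : kz z x y = 0 := by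
          by_contra h4
          apply hz'
          rw [mem_insert, mem_insert, mem_singleton]
          exact (hk z hz).at_z x y h4
        rw [h3, mul_zero]
      have h3 : kX x y ≤ ∑ z ∈ Ξ.filter (fun z => z ∈ ({dd x y, x, y} : Finset ℕ)),
          (T z - 1) * kz z x y := by
        rw [hkXe]
        refine le_of_eq ?_
        rw [sum_filter]
        refine sum_congr rfl fun z hz => ?_
        split_ifs with h4
        · rfl
        · exact h2 z hz h4
      have h4 : ∑ z ∈ Ξ.filter (fun z => z ∈ ({dd x y, x, y} : Finset ℕ)),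
          (T z - 1) * kz z x y ≤
          (Ξ.filter (fun z => z ∈ ({dd x y, x, y} : Finset ℕ))).card • (C * (100 / (N : ℝ))) := by
        refine sum_le_card_nsmul _ _ _ fun z hz => ?_
        have hz' := (mem_filter.1 hz).1
        exact mul_le_mul (hΞC z hz') ((hk z hz').le x y) ((hk z hz').nn x y) hC0.le
      have h5 : (Ξ.filter (fun z => z ∈ ({dd x y, x, y} : Finset ℕ))).card ≤ 3 := by
        have h6 : Ξ.filter (fun z => z ∈ ({dd x y, x, y} : Finset ℕ)) ⊆ {dd x y, x, y} := by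
          intro z hz
          exact (mem_filter.1 hz).2
        exact (card_le_card h6).trans card_le_three
      have h6 : (((Ξ.filter (fun z => z ∈ ({dd x y, x, y} : Finset ℕ))).card : ℕ) : ℝ) ≤ 3 := by
        exact_mod_cast h5
      refine h3.trans (h4.trans ?_)
      rw [nsmul_eq_mul]
      refine (mul_le_mul_of_nonneg_right h6 (by positivity)).trans (le_of_eq ?_)
      ring
    have h2 := hF4 x y
    have h3 : (C₀ + 300 * C + 1 / r) / (N : ℝ) = C₀ / N + 300 * C / N + 1 / r / N := by ring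
    have h4 : 0 < 1 / r / (N : ℝ) := by positivity
    rw [h3]
    linarith
  · intro x hx hne
    change (∑ y ∈ Q, (kF x y + kX x y)) ≠ 0 at hne
    change 1 / (C₀ + 300 * C + 1 / r) ≤ ∑ y ∈ Q, (kF x y + kX x y)
    rw [sum_add_distrib] at hne ⊢
    have h1 : 0 ≤ ∑ y ∈ Q, kF x y := sum_nonneg fun y _ => hF1 x y
    have h2 : 0 ≤ ∑ y ∈ Q, kX x y := sum_nonneg fun y _ => hkX0 x y
    by_cases h3 : (∑ y ∈ Q, kF x y) = 0
    · have h4 : 5 * x < 3 * N := by
        by_contra h5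
        obtain ⟨y, hy, hyx, hd, hy5⟩ := ex_row hKH hx
        have h6 := hF5 x y hx hy (Ne.symm hyx) hd (not_lt.1 h5) hy5
        have h7 : kF x y = 0 := (sum_eq_zero_iff_of_nonneg fun y _ => hF1 x y).1 h3 y hy
        rw [h7] at h6
        have h8 : (0 : ℝ) < 1 / N := by positivity
        linarith
      rw [h3, zero_add] at hne ⊢
      rw [hdegX] at hne ⊢
      obtain ⟨z, hz, hz'⟩ := exists_ne_zero_of_sum_ne_zero hne
      have h5 : r * 1 ≤ (T z - 1) * ∑ y ∈ Q, kz z x y :=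
        mul_le_mul (hΞz z hz).le ((hk z hz).deg x h4 (right_ne_zero_of_mul hz')) (by norm_num)
          (hr0.trans (hΞz z hz)).le
      have h6 : (T z - 1) * ∑ y ∈ Q, kz z x y ≤ ∑ z ∈ Ξ, (T z - 1) * ∑ y ∈ Q, kz z x y :=
        single_le_sum (f := fun z => (T z - 1) * ∑ y ∈ Q, kz z x y)
          (fun z hz => mul_nonneg (hr0.trans (hΞz z hz)).le
            (sum_nonneg fun y _ => (hk z hz).nn x y)) hz
      have h7 : 1 / (C₀ + 300 * C + 1 / r) ≤ r := by
        rw [div_le_iff₀ (by positivity)]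
        have h8 : r * (C₀ + 300 * C + 1 / r) = r * C₀ + r * (300 * C) + 1 := by
          field_simp
        rw [h8]
        have : 0 ≤ r * C₀ := by positivity
        have : 0 ≤ r * (300 * C) := by positivity
        linarith
      linarith
    · have h4 := hF6 x hx h3
      have h5 : 1 / (C₀ + 300 * C + 1 / r) ≤ 1 / C₀ :=
        one_div_le_one_div_of_le (by linarith) (by linarith)
      linarith
  · intro a ha
    have h1 := hF7 a ha
    have h2 : ldS Q ω kX a = (ω / 2) * (∑ y ∈ Q, kX a y) +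
        (1 / 2) * (∑ x ∈ Q, ∑ y ∈ Q, if dd x y = a then kX x y else 0) := rfl
    have h3 : (∑ x ∈ Q, ∑ y ∈ Q, if dd x y = a then (kF x y + kX x y) else 0) =
        (∑ x ∈ Q, ∑ y ∈ Q, if dd x y = a then kF x y else 0) +
          ∑ x ∈ Q, ∑ y ∈ Q, if dd x y = a then kX x y else 0 := by
      rw [← sum_add_distrib]
      refine sum_congr rfl fun x _ => ?_
      rw [← sum_add_distrib]
      refine sum_congr rfl fun y _ => ?_
      split_ifs <;> ring
    change (ω / 2) * (∑ y ∈ Q, (kF a y + kX a y)) +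
        (1 / 2) * (∑ x ∈ Q, ∑ y ∈ Q, if dd x y = a then (kF x y + kX x y) else 0) = T a
    rw [sum_add_distrib, h3]
    linarith

end SSB
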