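import Pool.Agent.Lib.MP_8a819d_co.AT.BaseL
import Pool.Agent.Lib.MP_8a819d_co.AT.FExt

/-!
# MP_8a819d_co, trees with many non-leaves: the laws with many long bare paths

BLOCK D4. JOB LawsA.

`Zc ⊆ Z` : the vertices of the compensation segments (components of `Z` without neighbours in `B`); few of them are
roots of components (`par v ∉ Z`). Almost all the other vertices of `Z` have their parent in `H`.

PROOF. Given `δ` let `s₁, C₂` be given by `lemF2 (2/δ)`; `s` small with respect to `s₁ δ`.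
Laws outside `Zc`: `par v ∈ H`: uniform on `Dom (par v)`. `par v ∉ H` (few, at most `s N`): uniform on the admissible labels:
`kr v x y = 1/|A_x|` on `A_x = {y ∈ Q : dd (f₀ b) y ∈ Q (b ∈ bnb v), dd x y ∈ Q}` (`|A_x| ≥ N - 6 s N - 6 ≥ N/2`) if `par v ∈ Z` (then
`par v ∉ Zc`, since `v ∉ Zc`), `mu v` uniform on `{y ∈ Q : dd (f₀ b) y ∈ Q}` if `par v ∉ Z`; recursively `mu v y = ∑ x mu (par v) x kr v x y ≤ 2/N`.
Loads: `≤ 2/((1-s) N)` if `par v ∈ H` (`y = z` or `y - f₀ h = z`), `≤ 2/N + 4/N + 4/N` otherwise. So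
`L¹ z = ∑ v ∈ Z \ Zc, loadv v z ≤ (n - |Zc|) 2/((1-s) N) + 10 s`, and `g z = 1 - L¹ z ≥ 2 |Zc|/N - 20 s` (`2 n = N + 1`).
Let `M` be the number of roots in `Zc`, `E = 2 |Zc| - M` (number of items used by `Zc`); `E ≥ |Zc| ≥ δ N`. As in LawsB
`∑ z ∈ Q, loadv v z ≤ 1 + |bnb v| + [par v ∈ Z]`, so by the hypothesis `∑ Q g ≥ |Q| - ∑ v ∈ Z \ Zc, (...) ≥ E`.
Let `lo = (1 - s₁) E/N ≤ g` (`E/N ≤ 2|Zc|/N`, `s₁ E/N ≥ s₁ δ ≥ 20 s`); `∑ Q lo ≤ E`; so `g' = (1-λ) lo + λ g` has `∑ Q g' = E` for some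
`λ ∈ [0,1]`; `lo ≤ g' ≤ g ≤ 1`. `T = g' N/E`: `1 - s₁ ≤ T ≤ 1/δ`, `∑ Q T = N`. `ω = |Zc|/(|Zc| - M)`, `|ω - 1| ≤ 2 M/|Zc| ≤ 2 s/δ ≤ s₁`.
`lemF2`: kernel `k`, degrees `V x = ∑ y ∈ Q, k x y`, `Zk = ∑ x ∈ Q, V x`. Summing the load identity over `Q`: `N = ∑ T = (ω/2) Zk + (1/2) Zk`
(every pair with `k x y ≠ 0` has `dd x y ∈ Q`). Laws on `Zc`: `mu v y = V y/Zk` (`y ∈ Q`), `kr v x y = k x y / V x`: stationary. Bounds:
`k x y/V x ≤ C₂²/N`, `V y/Zk ≤ C₂/(N/2)...`. Load of `Zc` at `z ∈ Q`: at most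
`|Zc| V z/Zk + (|Zc| - M) (1/Zk) ∑ ∑ [dd x y = z] k x y = (2 (|Zc| - M)/Zk) T z = (|Zc| - M)(ω + 1) T z/N = E T z/N = g' z ≤ g z`.
`LawV` (`C` = maximum of the constants): `rule` on `Zc`: `bnb v = ∅`, `usv v x y = {y, dd x y}` (`k x y ≠ 0` gives `y, dd x y ∈ Q`), roots
`{y}`, `y ∈ Q`. `cons`, `kr_sum` (`mu (par v) x ≠ 0` gives `V x ≠ 0`) as usual.
-/

set_option autoImplicit false

namespace SSB

open Finset

private noncomputable def lawsaU (S : Finset ℕ) (y : ℕ) : ℝ := if y ∈ S then 1 / (S.card : ℝ) else 0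

private theorem lawsaU_nn (S : Finset ℕ) (y : ℕ) : 0 ≤ lawsaU S y := by
  unfold lawsaU
  split_ifs
  · positivity
  · exact le_refl _

private theorem lawsaU_le {S : Finset ℕ} {c : ℝ} (hc : 0 < c) (h : c ≤ S.card) (y : ℕ) :
    lawsaU S y ≤ 1 / c := by
  unfold lawsaU
  split_ifs
  · exact one_div_le_one_div_of_le hc h
  · positivity

private theorem lawsaU_mem {S : Finset ℕ} {y : ℕ} (h : lawsaU S y ≠ 0) : y ∈ S := by
  unfold lawsaU at h
  by_contra hy
  rw [if_neg hy] at h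
  exact h rfl

private theorem lawsaU_sum {S : Finset ℕ} {N : ℕ} (hN : ∀ y ∈ S, y ≤ N) (h : 0 < (S.card : ℝ)) :
    ∑ y ∈ range (N + 1), lawsaU S y = 1 := by
  unfold lawsaU
  rw [← Finset.sum_filter]
  have e : (range (N + 1)).filter (fun y => y ∈ S) = S := by
    ext y
    simp only [mem_filter, mem_range, and_iff_right_iff_imp]
    intro hy
    have := hN y hy
    omega
  rw [e, Finset.sum_const, nsmul_eq_mul]
  field_simp

private noncomputable def lawsaMu (n N : ℕ) (par : ℕ → ℕ) (H B Z Q : Finset ℕ) (f₀ : ℕ → ℕ)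
    (Dom : ℕ → Finset ℕ) : ℕ → ℕ → ℝ :=
  muR N par Z (fun v => if par v ∈ H then lawsaU (Dom (par v)) else lawsaU (AllS n par B Q f₀ v))
    (fun v x => lawsaU (Axy n par B Q f₀ v x))

private theorem lawsa_mem_usv {n : ℕ} {par : ℕ → ℕ} {B Z : Finset ℕ} {f₀ : ℕ → ℕ} {v x y z : ℕ} :
    z ∈ usv n par B Z f₀ v x y ↔
      y = z ∨ (∃ b ∈ bnb n par B v, dd (f₀ b) y = z) ∨ (par v ∈ Z ∧ dd x y = z) := by
  unfold usv
  rw [mem_union, mem_insert, mem_image]
  by_cases hp : par v ∈ Z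
  · rw [if_pos hp, mem_singleton]
    constructor
    · rintro ((h | h) | h)
      · exact Or.inl h.symm
      · exact Or.inr (Or.inl h)
      · exact Or.inr (Or.inr ⟨hp, h.symm⟩)
    · rintro (h | h | h)
      · exact Or.inl (Or.inl h.symm)
      · exact Or.inl (Or.inr h)
      · exact Or.inr h.2.symm
  · rw [if_neg hp]
    constructor
    · rintro ((h | h) | h)
      · exact Or.inl h.symm
      · exact Or.inr (Or.inl h)
      · exact absurd h (notMem_empty _)
    · rintro (h | h | h)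
      · exact Or.inl (Or.inl h.symm)
      · exact Or.inl (Or.inr h)
      · exact absurd h.1 hp

private theorem lawsa_card5 {n : ℕ} {par : ℕ → ℕ} {B Z : Finset ℕ} {f₀ : ℕ → ℕ} {v : ℕ} (N : ℕ)
    (one : (bnb n par B v).card ≤ 1) (x z : ℕ) :
    ((range (N + 1)).filter (fun y => z ∈ usv n par B Z f₀ v x y)).card ≤ 5 := by
  classical
  obtain ⟨c, hc⟩ : ∃ c, ∀ b ∈ bnb n par B v, b = c := by
    rcases (bnb n par B v).eq_empty_or_nonempty with he | ⟨c, hc⟩
    · refine ⟨0, ?_⟩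
      intro b hb
      rw [he] at hb
      exact absurd hb (notMem_empty _)
    · exact ⟨c, fun b hb => Finset.card_le_one.1 one _ hb _ hc⟩
  have hsub : (range (N + 1)).filter (fun y => z ∈ usv n par B Z f₀ v x y) ⊆
      {z, f₀ c + z, f₀ c - z, x + z, x - z} := by
    intro y hy
    rw [mem_filter, lawsa_mem_usv] at hy
    simp only [mem_insert, mem_singleton]
    rcases hy.2 with h | ⟨b, hb, h⟩ | ⟨_, h⟩
    · exact Or.inl h
    · rw [hc b hb] at h
      unfold dd at h
      omega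
    · unfold dd at h
      omega
  exact (card_le_card hsub).trans Finset.card_le_five

private theorem lawsa_mono {n N : ℕ} {par : ℕ → ℕ} {B Z Q : Finset ℕ} {f₀ : ℕ → ℕ} {C C' : ℝ}
    {mu : ℕ → ℕ → ℝ} {kr : ℕ → ℕ → ℕ → ℝ} (l : LawV n N par B Z Q f₀ C mu kr) (h : C ≤ C') :
    LawV n N par B Z Q f₀ C' mu kr := by
  have hh : C / N ≤ C' / N := div_le_div_of_nonneg_right h (Nat.cast_nonneg _)
  exact { l with
    mu_le := fun v hv y => (l.mu_le v hv y).trans hh
    kr_le := fun v hv hp x y hm => (l.kr_le v hv hp x y hm).trans hh }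

/-- sum of a function over the labels `y` for which `z` is used -/
private theorem lawsa_five {n : ℕ} {par : ℕ → ℕ} {B Z : Finset ℕ} {f₀ : ℕ → ℕ} {v : ℕ} {N : ℕ}
    (one : (bnb n par B v).card ≤ 1) (x z : ℕ) (w : ℕ → ℝ) {c : ℝ} (hc : 0 ≤ c) (hw : ∀ y, w y ≤ c) :
    (∑ y ∈ range (N + 1), if z ∈ usv n par B Z f₀ v x y then w y else 0) ≤ 5 * c := by
  rw [← Finset.sum_filter]
  refine le_trans (Finset.sum_le_card_nsmul _ _ c (fun y _ => hw y)) ?_
  rw [nsmul_eq_mul]
  apply mul_le_mul_of_nonneg_right _ hc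
  exact_mod_cast lawsa_card5 N one x z

private theorem lawsa_load {n N : ℕ} {par : ℕ → ℕ} {B Z Q : Finset ℕ} {f₀ : ℕ → ℕ} {C : ℝ}
    {mu : ℕ → ℕ → ℝ} {kr : ℕ → ℕ → ℕ → ℝ} (l : LawV n N par B Z Q f₀ C mu kr) (hC : 0 ≤ C)
    (one : ∀ v ∈ Z, (bnb n par B v).card ≤ 1) {v : ℕ} (hv : v ∈ Z) (z : ℕ) :
    loadv n N par B Z f₀ mu kr v z ≤ 5 * (C / N) := by
  have hc : 0 ≤ C / (N : ℝ) := div_nonneg hC (Nat.cast_nonneg _)
  unfold loadv
  by_cases hp : par v ∈ Z
  · rw [if_pos hp]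
    have h1 : ∀ x ∈ range (N + 1), (∑ y ∈ range (N + 1),
        if z ∈ usv n par B Z f₀ v x y then mu (par v) x * kr v x y else 0) ≤
        mu (par v) x * (5 * (C / N)) := by
      intro x _
      by_cases hm : mu (par v) x = 0
      · rw [hm, zero_mul]
        apply le_of_eq
        apply Finset.sum_eq_zero
        intro y _
        rw [zero_mul, ite_self]
      · have e : (∑ y ∈ range (N + 1),
            if z ∈ usv n par B Z f₀ v x y then mu (par v) x * kr v x y else 0) =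
            mu (par v) x * ∑ y ∈ range (N + 1), if z ∈ usv n par B Z f₀ v x y then kr v x y else 0 := by
          rw [Finset.mul_sum]
          apply Finset.sum_congr rfl
          intro y _
          split_ifs
          · rfl
          · rw [mul_zero]
        rw [e]
        apply mul_le_mul_of_nonneg_left _ (l.mu_nn _ hp x)
        exact lawsa_five (one v hv) x z _ hc (fun y => l.kr_le v hv hp x y hm)
    refine le_trans (Finset.sum_le_sum h1) ?_
    rw [← Finset.sum_mul, l.mu_sum _ hp, one_mul]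
  · rw [if_neg hp]
    exact lawsa_five (one v hv) 0 z _ hc (fun y => l.mu_le v hv y)

private theorem lawsa_load_nn {n N : ℕ} {par : ℕ → ℕ} {B Z Q : Finset ℕ} {f₀ : ℕ → ℕ} {C : ℝ}
    {mu : ℕ → ℕ → ℝ} {kr : ℕ → ℕ → ℕ → ℝ} (l : LawV n N par B Z Q f₀ C mu kr) {v : ℕ} (hv : v ∈ Z)
    (z : ℕ) : 0 ≤ loadv n N par B Z f₀ mu kr v z := by
  unfold loadv
  split_ifs with hp
  · apply Finset.sum_nonneg
    intro x _
    apply Finset.sum_nonneg
    intro y _
    split_ifs
    · exact mul_nonneg (l.mu_nn _ hp x) (l.kr_nn v hv hp x y)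
    · exact le_refl _
  · apply Finset.sum_nonneg
    intro y _
    split_ifs
    · exact l.mu_nn v hv y
    · exact le_refl _

private theorem lawsa_loadsum {n N : ℕ} {par : ℕ → ℕ} {B Z Q : Finset ℕ} {f₀ : ℕ → ℕ} {C : ℝ}
    {mu : ℕ → ℕ → ℝ} {kr : ℕ → ℕ → ℕ → ℝ} (l : LawV n N par B Z Q f₀ C mu kr) {v : ℕ} (hv : v ∈ Z) :
    ∑ z ∈ Q, loadv n N par B Z f₀ mu kr v z ≤
      ((1 + (bnb n par B v).card + (if par v ∈ Z then 1 else 0) : ℕ) : ℝ) := by
  set K : ℕ := 1 + (bnb n par B v).card + (if par v ∈ Z then 1 else 0) with hK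
  have hcard : ∀ x y, (usv n par B Z f₀ v x y).card ≤ K := by
    intro x y
    unfold usv
    refine le_trans (card_union_le _ _) ?_
    rw [hK]
    have h1 := card_insert_le y ((bnb n par B v).image (fun b => dd (f₀ b) y))
    have h2 : ((bnb n par B v).image (fun b => dd (f₀ b) y)).card ≤ (bnb n par B v).card :=
      card_image_le
    by_cases hp : par v ∈ Z
    · rw [if_pos hp, if_pos hp, card_singleton]
      omega
    · rw [if_neg hp, if_neg hp, card_empty]
      omega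
  have hone : ∀ x y (w : ℝ), 0 ≤ w → (∑ z ∈ Q, if z ∈ usv n par B Z f₀ v x y then w else 0) ≤ K * w := by
    intro x y w hw
    rw [← Finset.sum_filter, Finset.sum_const, nsmul_eq_mul]
    apply mul_le_mul_of_nonneg_right _ hw
    have : (Q.filter (fun z => z ∈ usv n par B Z f₀ v x y)).card ≤ (usv n par B Z f₀ v x y).card := by
      apply card_le_card
      intro z hz
      exact (mem_filter.1 hz).2
    exact_mod_cast this.trans (hcard x y)
  unfold loadv
  by_cases hp : par v ∈ Z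
  · simp only [if_pos hp]
    rw [Finset.sum_comm]
    have h1 : ∀ x ∈ range (N + 1), (∑ z ∈ Q, ∑ y ∈ range (N + 1),
        if z ∈ usv n par B Z f₀ v x y then mu (par v) x * kr v x y else 0) ≤ K * mu (par v) x := by
      intro x hx
      rw [Finset.sum_comm]
      refine le_trans (Finset.sum_le_sum (fun y _ => hone x y _
        (mul_nonneg (l.mu_nn _ hp x) (l.kr_nn v hv hp x y)))) ?_
      rw [← Finset.mul_sum, ← Finset.mul_sum]
      by_cases hm : mu (par v) x = 0
      · rw [hm, zero_mul]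
      · rw [l.kr_sum v hv hp x (Nat.lt_succ_iff.1 (mem_range.1 hx)) hm, mul_one]
    refine le_trans (Finset.sum_le_sum h1) ?_
    rw [← Finset.mul_sum, l.mu_sum _ hp, mul_one]
  · simp only [if_neg hp]
    rw [Finset.sum_comm]
    refine le_trans (Finset.sum_le_sum (fun y _ => hone 0 y _ (l.mu_nn v hv y))) ?_
    rw [← Finset.mul_sum, l.mu_sum _ hv, mul_one]

private theorem lawsa_glue {n N : ℕ} {par : ℕ → ℕ} {B Z₁ Z₂ Q : Finset ℕ} {f₀ : ℕ → ℕ} {C : ℝ}
    {mu₁ mu₂ : ℕ → ℕ → ℝ} {kr₁ kr₂ : ℕ → ℕ → ℕ → ℝ} (hd : Disjoint Z₁ Z₂)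
    (h12 : ∀ v ∈ Z₁, par v ∉ Z₂) (h21 : ∀ v ∈ Z₂, par v ∉ Z₁)
    (l₁ : LawV n N par B Z₁ Q f₀ C mu₁ kr₁) (l₂ : LawV n N par B Z₂ Q f₀ C mu₂ kr₂) :
    LawV n N par B (Z₁ ∪ Z₂) Q f₀ C (fun v => if v ∈ Z₂ then mu₂ v else mu₁ v)
        (fun v => if v ∈ Z₂ then kr₂ v else kr₁ v) ∧
      (∀ v ∈ Z₁, ∀ z, loadv n N par B (Z₁ ∪ Z₂) f₀ (fun v => if v ∈ Z₂ then mu₂ v else mu₁ v)
        (fun v => if v ∈ Z₂ then kr₂ v else kr₁ v) v z = loadv n N par B Z₁ f₀ mu₁ kr₁ v z) ∧
      (∀ v ∈ Z₂, ∀ z, loadv n N par B (Z₁ ∪ Z₂) f₀ (fun v => if v ∈ Z₂ then mu₂ v else mu₁ v)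
        (fun v => if v ∈ Z₂ then kr₂ v else kr₁ v) v z = loadv n N par B Z₂ f₀ mu₂ kr₂ v z) := by
  have n1 : ∀ v ∈ Z₁, v ∉ Z₂ := fun v hv => Finset.disjoint_left.1 hd hv
  have p1 : ∀ v ∈ Z₁, (par v ∈ Z₁ ∪ Z₂ ↔ par v ∈ Z₁) := by
    intro v hv
    rw [mem_union]
    exact ⟨fun h => h.resolve_right (h12 v hv), Or.inl⟩
  have p2 : ∀ v ∈ Z₂, (par v ∈ Z₁ ∪ Z₂ ↔ par v ∈ Z₂) := by
    intro v hv
    rw [mem_union]
    exact ⟨fun h => h.resolve_left (h21 v hv), Or.inr⟩
  have u1 : ∀ v ∈ Z₁, ∀ x y, usv n par B (Z₁ ∪ Z₂) f₀ v x y = usv n par B Z₁ f₀ v x y := by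
    intro v hv x y
    unfold usv
    simp only [p1 v hv]
  have u2 : ∀ v ∈ Z₂, ∀ x y, usv n par B (Z₁ ∪ Z₂) f₀ v x y = usv n par B Z₂ f₀ v x y := by
    intro v hv x y
    unfold usv
    simp only [p2 v hv]
  refine ⟨⟨?_, ?_, ?_, ?_, ?_, ?_, ?_, ?_, ?_⟩, ?_, ?_⟩
  · intro v hv y
    rcases mem_union.1 hv with h | h
    · simp only [if_neg (n1 v h)]
      exact l₁.mu_nn v h y
    · simp only [if_pos h]
      exact l₂.mu_nn v h y
  · intro v hv y
    rcases mem_union.1 hv with h | h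
    · simp only [if_neg (n1 v h)]
      exact l₁.mu_le v h y
    · simp only [if_pos h]
      exact l₂.mu_le v h y
  · intro v hv
    rcases mem_union.1 hv with h | h
    · simp only [if_neg (n1 v h)]
      exact l₁.mu_sum v h
    · simp only [if_pos h]
      exact l₂.mu_sum v h
  · intro v hv hp x y
    rcases mem_union.1 hv with h | h
    · simp only [if_neg (n1 v h)]
      exact l₁.kr_nn v h ((p1 v h).1 hp) x y
    · simp only [if_pos h]
      exact l₂.kr_nn v h ((p2 v h).1 hp) x y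
  · intro v hv hp x y
    rcases mem_union.1 hv with h | h
    · have hp' := (p1 v h).1 hp
      simp only [if_neg (n1 v h), if_neg (n1 _ hp')]
      exact l₁.kr_le v h hp' x y
    · have hp' := (p2 v h).1 hp
      simp only [if_pos h, if_pos hp']
      exact l₂.kr_le v h hp' x y
  · intro v hv hp x hx
    rcases mem_union.1 hv with h | h
    · have hp' := (p1 v h).1 hp
      simp only [if_neg (n1 v h), if_neg (n1 _ hp')]
      exact l₁.kr_sum v h hp' x hx
    · have hp' := (p2 v h).1 hp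
      simp only [if_pos h, if_pos hp']
      exact l₂.kr_sum v h hp' x hx
  · intro v hv hp y hy
    rcases mem_union.1 hv with h | h
    · have hp' := (p1 v h).1 hp
      simp only [if_neg (n1 v h), if_neg (n1 _ hp')]
      exact l₁.cons v h hp' y hy
    · have hp' := (p2 v h).1 hp
      simp only [if_pos h, if_pos hp']
      exact l₂.cons v h hp' y hy
  · intro v hv hp y hy
    rcases mem_union.1 hv with h | h
    · have hp' : par v ∉ Z₁ := fun h' => hp ((p1 v h).2 h')
      simp only [if_neg (n1 v h)]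
      rw [u1 v h]
      exact l₁.rule_root v h hp' y hy
    · have hp' : par v ∉ Z₂ := fun h' => hp ((p2 v h).2 h')
      simp only [if_pos h]
      rw [u2 v h]
      exact l₂.rule_root v h hp' y hy
  · intro v hv hp x hx y hy
    rcases mem_union.1 hv with h | h
    · have hp' := (p1 v h).1 hp
      simp only [if_neg (n1 v h), if_neg (n1 _ hp')]
      rw [u1 v h]
      exact l₁.rule v h hp' x hx y hy
    · have hp' := (p2 v h).1 hp
      simp only [if_pos h, if_pos hp']
      rw [u2 v h]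
      exact l₂.rule v h hp' x hx y hy
  · intro v h z
    unfold loadv
    simp only [u1 v h, if_neg (n1 v h)]
    by_cases hp : par v ∈ Z₁
    · rw [if_pos ((p1 v h).2 hp), if_pos hp]
      simp only [if_neg (n1 _ hp)]
    · rw [if_neg (fun h' => hp ((p1 v h).1 h')), if_neg hp]
  · intro v h z
    unfold loadv
    simp only [u2 v h, if_pos h]
    by_cases hp : par v ∈ Z₂
    · rw [if_pos ((p2 v h).2 hp), if_pos hp]
      simp only [if_pos hp]
    · rw [if_neg (fun h' => hp ((p2 v h).1 h')), if_neg hp]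

section
variable {n N : ℕ} {par : ℕ → ℕ} {H B Z Q : Finset ℕ} {f₀ : ℕ → ℕ} {Dom : ℕ → Finset ℕ} {s : ℝ}

private theorem lawsa_AllS_le (h : BCfg n N par H B Z Q f₀ Dom s) (v : ℕ) :
    ∀ y ∈ AllS n par B Q f₀ v, y ≤ N := by
  intro y hy
  unfold AllS at hy
  exact (mem_Icc.1 (h.QN (mem_filter.1 hy).1)).2

private theorem lawsa_Axy_le (h : BCfg n N par H B Z Q f₀ Dom s) (v x : ℕ) :
    ∀ y ∈ Axy n par B Q f₀ v x, y ≤ N := by
  intro y hy
  unfold Axy at hy
  exact lawsa_AllS_le h v y (mem_filter.1 hy).1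

private theorem lawsa_Dom_le (h : BCfg n N par H B Z Q f₀ Dom s) {v : ℕ} (hv : par v ∈ H) :
    ∀ y ∈ Dom (par v), y ≤ N := fun y hy => (mem_Icc.1 (h.QN (h.dom _ hv y hy).1)).2

private theorem lawsa_half (hs0 : 0 ≤ s) (hs : s ≤ 1 / 100) (hN : 100 ≤ N) {c : ℝ}
    (hc : (N : ℝ) - c ≤ 5 * s * N + 4) : (N : ℝ) / 2 ≤ c := by
  have hN' : (100 : ℝ) ≤ N := by exact_mod_cast hN
  nlinarith [mul_le_mul_of_nonneg_right hs (by linarith : (0 : ℝ) ≤ N)]

private theorem lawsa_AllS_c (h : BCfg n N par H B Z Q f₀ Dom s) (hs0 : 0 ≤ s) (hs : s ≤ 1 / 100)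
    (hN : 100 ≤ N) {v : ℕ} (hv : v ∈ Z) : (N : ℝ) / 2 ≤ (AllS n par B Q f₀ v).card := by
  apply lawsa_half hs0 hs hN
  have h1 := AllS_card h hv
  have : 0 ≤ s * N := mul_nonneg hs0 (Nat.cast_nonneg _)
  nlinarith

private theorem lawsa_Axy_c (h : BCfg n N par H B Z Q f₀ Dom s) (hs0 : 0 ≤ s) (hs : s ≤ 1 / 100)
    (hN : 100 ≤ N) {v x : ℕ} (hv : v ∈ Z) (hx : x ≤ N) :
    (N : ℝ) / 2 ≤ (Axy n par B Q f₀ v x).card :=
  lawsa_half hs0 hs hN (Axy_card h hv hx)

private theorem lawsa_law1 (h : BCfg n N par H B Z Q f₀ Dom s) (hs0 : 0 ≤ s) (hs : s ≤ 1 / 100)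
    (hN : 100 ≤ N) : LawV n N par B Z Q f₀ 2 (lawsaMu n N par H B Z Q f₀ Dom)
      (fun v x => lawsaU (Axy n par B Q f₀ v x)) := by
  have hN' : (100 : ℝ) ≤ N := by exact_mod_cast hN
  have hNp : (0 : ℝ) < N := by linarith
  have hh : (0 : ℝ) < N / 2 := by positivity
  have e2 : 1 / ((N : ℝ) / 2) = 2 / N := by field_simp
  have hD : ∀ v, par v ∈ H → (N : ℝ) / 2 ≤ (Dom (par v)).card := by
    intro v hp
    have := h.domc _ hp
    nlinarith
  have mroot : ∀ v ∈ Z, par v ∉ Z → lawsaMu n N par H B Z Q f₀ Dom v =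
      (if par v ∈ H then lawsaU (Dom (par v)) else lawsaU (AllS n par B Q f₀ v)) := by
    intro v _ hp
    exact muR_root _ _ hp
  have mpar : ∀ v ∈ Z, par v ∈ Z → ∀ y, lawsaMu n N par H B Z Q f₀ Dom v y =
      ∑ x ∈ range (N + 1), lawsaMu n N par H B Z Q f₀ Dom (par v) x *
        lawsaU (Axy n par B Q f₀ v x) y := by
    intro v hv hp y
    exact muR_par h.isP h.Zsub h.Z0 _ _ hv hp y
  have nn : ∀ v y, 0 ≤ lawsaMu n N par H B Z Q f₀ Dom v y := by
    intro v
    induction v using Nat.strong_induction_on with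
    | _ v ih =>
      intro y
      unfold lawsaMu
      rw [muR]
      split_ifs with h1 h2
      · apply Finset.sum_nonneg
        intro x _
        exact mul_nonneg (ih _ h1.2 x) (lawsaU_nn _ _)
      · exact lawsaU_nn _ _
      · exact lawsaU_nn _ _
  have hlt : ∀ v ∈ Z, par v < v := by
    intro v hv
    apply h.isP v
    · rcases Nat.eq_zero_or_pos v with h0 | h0
      · exact absurd (h0 ▸ hv) h.Z0
      · exact h0
    · exact mem_range.1 (h.Zsub hv)
  have krs : ∀ v ∈ Z, ∀ x ≤ N, ∑ y ∈ range (N + 1), lawsaU (Axy n par B Q f₀ v x) y = 1 := by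
    intro v hv x hx
    exact lawsaU_sum (lawsa_Axy_le h v x) (lt_of_lt_of_le hh (lawsa_Axy_c h hs0 hs hN hv hx))
  have krl : ∀ v ∈ Z, ∀ x ≤ N, ∀ y, lawsaU (Axy n par B Q f₀ v x) y ≤ 2 / N := by
    intro v hv x hx y
    rw [← e2]
    exact lawsaU_le hh (lawsa_Axy_c h hs0 hs hN hv hx) y
  have sm : ∀ v ∈ Z, ∑ y ∈ range (N + 1), lawsaMu n N par H B Z Q f₀ Dom v y = 1 := by
    intro v
    induction v using Nat.strong_induction_on with
    | _ v ih =>
      intro hv
      by_cases hp : par v ∈ Z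
      · simp_rw [mpar v hv hp]
        rw [Finset.sum_comm]
        rw [← ih _ (hlt v hv) hp]
        apply Finset.sum_congr rfl
        intro x hx
        rw [← Finset.mul_sum, krs v hv x (Nat.lt_succ_iff.1 (mem_range.1 hx)), mul_one]
      · rw [mroot v hv hp]
        split_ifs with hH
        · exact lawsaU_sum (lawsa_Dom_le h hH) (lt_of_lt_of_le hh (hD v hH))
        · exact lawsaU_sum (lawsa_AllS_le h v) (lt_of_lt_of_le hh (lawsa_AllS_c h hs0 hs hN hv))
  have mN : ∀ v ∈ Z, ∀ y, lawsaMu n N par H B Z Q f₀ Dom v y ≠ 0 → y ≤ N := by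
    intro v hv y hy
    by_cases hp : par v ∈ Z
    · rw [mpar v hv hp] at hy
      obtain ⟨x, _, hx⟩ := Finset.exists_ne_zero_of_sum_ne_zero hy
      exact lawsa_Axy_le h v x y (lawsaU_mem (right_ne_zero_of_mul hx))
    · rw [mroot v hv hp] at hy
      split_ifs at hy with hH
      · exact lawsa_Dom_le h hH y (lawsaU_mem hy)
      · exact lawsa_AllS_le h v y (lawsaU_mem hy)
  refine ⟨fun v _ y => nn v y, ?_, sm, fun v _ _ x y => lawsaU_nn _ _, ?_, ?_, ?_, ?_, ?_⟩
  · intro v hv y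
    by_cases hp : par v ∈ Z
    · rw [mpar v hv hp]
      calc ∑ x ∈ range (N + 1), lawsaMu n N par H B Z Q f₀ Dom (par v) x *
            lawsaU (Axy n par B Q f₀ v x) y
          ≤ ∑ x ∈ range (N + 1), lawsaMu n N par H B Z Q f₀ Dom (par v) x * (2 / N) := by
            apply Finset.sum_le_sum
            intro x hx
            exact mul_le_mul_of_nonneg_left (krl v hv x (Nat.lt_succ_iff.1 (mem_range.1 hx)) y)
              (nn _ _)
        _ = 2 / N := by rw [← Finset.sum_mul, sm _ hp, one_mul]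
    · rw [mroot v hv hp, ← e2]
      split_ifs with hH
      · exact lawsaU_le hh (hD v hH) y
      · exact lawsaU_le hh (lawsa_AllS_c h hs0 hs hN hv) y
  · intro v hv hp x y hm
    exact krl v hv x (mN _ hp x hm) y
  · intro v hv _ x hx _
    exact krs v hv x hx
  · intro v hv hp y _
    exact (mpar v hv hp y).symm
  · intro v hv hp y _ hm z hz
    rw [mroot v hv hp] at hm
    rw [lawsa_mem_usv] at hz
    split_ifs at hm with hH
    · obtain ⟨d1, d2, d3⟩ := h.dom _ hH _ (lawsaU_mem hm)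
      have hv1 : 1 ≤ v := by
        have := hlt v hv
        omega
      have hvn := mem_range.1 (h.Zsub hv)
      have hmem : par v ∈ bnb n par B v := by
        unfold bnb
        rw [mem_filter]
        exact ⟨h.HB hH, Or.inl ⟨hv1, hvn, rfl⟩⟩
      rcases hz with rfl | ⟨b, hb, rfl⟩ | ⟨hz, _⟩
      · exact d1
      · have : b = par v := Finset.card_le_one.1 (h.one v hv) _ hb _ hmem
        subst this
        have e2 : dd (f₀ (par v)) y = y - f₀ (par v) := by unfold dd; omega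
        rw [e2]
        exact d3
      · exact absurd hz hp
    · have hm' := lawsaU_mem hm
      unfold AllS at hm'
      rw [mem_filter] at hm'
      rcases hz with rfl | ⟨b, hb, rfl⟩ | ⟨hz, _⟩
      · exact hm'.1
      · exact hm'.2 b hb
      · exact absurd hz hp
  · intro v hv hp x _ y _ hm z hz
    have hm' := lawsaU_mem (right_ne_zero_of_mul hm)
    unfold Axy AllS at hm'
    rw [mem_filter, mem_filter] at hm'
    rw [lawsa_mem_usv] at hz
    rcases hz with rfl | ⟨b, hb, rfl⟩ | ⟨_, rfl⟩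
    · exact hm'.1.1
    · exact hm'.1.2 b hb
    · exact hm'.2

private theorem lawsa_unif (h : BCfg n N par H B Z Q f₀ Dom s) {v : ℕ} (hp : par v ∈ H) (y : ℕ) :
    lawsaMu n N par H B Z Q f₀ Dom v y = if y ∈ Dom (par v) then 1 / ((Dom (par v)).card : ℝ) else 0 := by
  have hpZ : par v ∉ Z := fun hz => (Finset.disjoint_left.1 h.BZ (h.HB hp)) hz
  have e : lawsaMu n N par H B Z Q f₀ Dom v =
      (if par v ∈ H then lawsaU (Dom (par v)) else lawsaU (AllS n par B Q f₀ v)) := muR_root _ _ hpZ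
  rw [e, if_pos hp]
  rfl

private theorem lawsa_loadU (h : BCfg n N par H B Z Q f₀ Dom s) (hs : s ≤ 1 / 100)
    (hN : 100 ≤ N) {v : ℕ} (hv : v ∈ Z) (hp : par v ∈ H) (z : ℕ) :
    loadv n N par B Z f₀ (lawsaMu n N par H B Z Q f₀ Dom)
      (fun v x => lawsaU (Axy n par B Q f₀ v x)) v z ≤ 2 / ((1 - s) * N) := by
  have hN' : (100 : ℝ) ≤ N := by exact_mod_cast hN
  have hNp : (0 : ℝ) < N := by linarith
  have hpZ : par v ∉ Z := fun hz => (Finset.disjoint_left.1 h.BZ (h.HB hp)) hz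
  have hlt : par v < v := by
    apply h.isP v
    · rcases Nat.eq_zero_or_pos v with h0 | h0
      · exact absurd (h0 ▸ hv) h.Z0
      · exact h0
    · exact mem_range.1 (h.Zsub hv)
  have hvn := mem_range.1 (h.Zsub hv)
  have hmem : par v ∈ bnb n par B v := by
    unfold bnb
    rw [mem_filter]
    exact ⟨h.HB hp, Or.inl ⟨by omega, hvn, rfl⟩⟩
  have hb1 : ∀ b ∈ bnb n par B v, b = par v :=
    fun b hb => Finset.card_le_one.1 (h.one v hv) _ hb _ hmem
  unfold loadv
  rw [if_neg hpZ]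
  have hcp : (0 : ℝ) < (1 - s) * N := by
    have : 0 < 1 - s := by linarith
    positivity
  have hdc := h.domc _ hp
  have hle : ∀ y, lawsaMu n N par H B Z Q f₀ Dom v y ≤ 1 / ((1 - s) * N) := by
    intro y
    rw [lawsa_unif h hp]
    split_ifs
    · exact one_div_le_one_div_of_le hcp hdc
    · positivity
  have e1 : (∑ y ∈ range (N + 1), if z ∈ usv n par B Z f₀ v 0 y then
      lawsaMu n N par H B Z Q f₀ Dom v y else 0) ≤
      ∑ y ∈ ({z, z + f₀ (par v)} : Finset ℕ), 1 / ((1 - s) * N) := by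
    have e2 : (∑ y ∈ range (N + 1), if z ∈ usv n par B Z f₀ v 0 y then
        lawsaMu n N par H B Z Q f₀ Dom v y else 0) ≤
        ∑ y ∈ (range (N + 1)).filter (fun y => y = z ∨ y = z + f₀ (par v)), 1 / ((1 - s) * N) := by
      rw [Finset.sum_filter]
      apply Finset.sum_le_sum
      intro y _
      by_cases hc : y = z ∨ y = z + f₀ (par v)
      · rw [if_pos hc]
        split_ifs
        · exact hle y
        · positivity
      · rw [if_neg hc]
        split_ifs with hu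
        · rw [lawsa_unif h hp]
          split_ifs with hD
          · exfalso
            rw [lawsa_mem_usv] at hu
            obtain ⟨d1, d2, d3⟩ := h.dom _ hp _ hD
            rcases hu with hu | ⟨b, hb, hu⟩ | ⟨hu, _⟩
            · exact hc (Or.inl hu)
            · rw [hb1 b hb] at hu
              unfold dd at hu
              exact hc (Or.inr (by omega))
            · exact hpZ hu
          · exact le_refl _
        · exact le_refl _
    refine le_trans e2 ?_
    apply Finset.sum_le_sum_of_subset_of_nonneg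
    · intro y hy
      rw [mem_filter] at hy
      rw [mem_insert, mem_singleton]
      exact hy.2
    · intro y _ _
      positivity
  refine le_trans e1 ?_
  rw [Finset.sum_const, nsmul_eq_mul]
  have h2 : ((({z, z + f₀ (par v)} : Finset ℕ).card : ℕ) : ℝ) ≤ 2 := by
    exact_mod_cast Finset.card_le_two
  calc ((({z, z + f₀ (par v)} : Finset ℕ).card : ℕ) : ℝ) * (1 / ((1 - s) * N))
      ≤ 2 * (1 / ((1 - s) * N)) := mul_le_mul_of_nonneg_right h2 (by positivity)
    _ = 2 / ((1 - s) * N) := by ring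

end

private theorem lawsa_lawc {n N : ℕ} {par : ℕ → ℕ} {B Zc Q : Finset ℕ} {f₀ : ℕ → ℕ} {C₂ : ℝ}
    (hC₂ : 1 ≤ C₂) (hN : 0 < N) (hQ : Q ⊆ Icc 1 N) (hb : ∀ v ∈ Zc, bnb n par B v = ∅)
    (k : ℕ → ℕ → ℝ) (k0 : ∀ x y, 0 ≤ k x y) (ks : ∀ x y, k x y = k y x)
    (kq : ∀ x y, k x y ≠ 0 → x ∈ Q ∧ y ∈ Q ∧ x ≠ y ∧ dd x y ∈ Q) (kl : ∀ x y, k x y ≤ C₂ / N)
    (kd : ∀ x ∈ Q, (∑ y ∈ Q, k x y) ≠ 0 → 1 / C₂ ≤ ∑ y ∈ Q, k x y) (Zk : ℝ)
    (hZ : Zk = ∑ x ∈ Q, ∑ y ∈ Q, k x y) (hZN : (N : ℝ) / 2 ≤ Zk) :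
    LawV n N par B Zc Q f₀ (2 * C₂ ^ 2) (fun _ y => (∑ w ∈ Q, k y w) / Zk)
        (fun _ x y => k x y / (∑ w ∈ Q, k x w)) ∧
      ∀ v ∈ Zc, ∀ z, loadv n N par B Zc f₀ (fun _ y => (∑ w ∈ Q, k y w) / Zk)
        (fun _ x y => k x y / (∑ w ∈ Q, k x w)) v z ≤
        (∑ w ∈ Q, k z w) / Zk + (if par v ∈ Zc then
          (∑ x ∈ Q, ∑ y ∈ Q, if dd x y = z then k x y else 0) / Zk else 0) := by
  obtain ⟨V, hV⟩ : ∃ V : ℕ → ℝ, ∀ x, V x = ∑ w ∈ Q, k x w := ⟨_, fun _ => rfl⟩
  simp only [← hV] at kd ⊢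
  have hZ' : Zk = ∑ x ∈ Q, V x := by
    rw [hZ]
    exact Finset.sum_congr rfl (fun x _ => (hV x).symm)
  have hNp : (0 : ℝ) < N := by exact_mod_cast hN
  have hZp : 0 < Zk := lt_of_lt_of_le (by positivity) hZN
  have hQr : Q ⊆ range (N + 1) := by
    intro y hy
    have := mem_Icc.1 (hQ hy)
    rw [mem_range]
    omega
  have Vr : ∀ x, ∑ y ∈ range (N + 1), k x y = V x := by
    intro x
    rw [hV]
    symm
    apply Finset.sum_subset hQr
    intro y _ hy
    by_contra hk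
    exact hy (kq x y hk).2.1
  have Vnn : ∀ x, 0 ≤ V x := fun x => by
    rw [hV]
    exact Finset.sum_nonneg (fun y _ => k0 x y)
  have kV : ∀ x, V x = 0 → ∀ y, k x y = 0 := by
    intro x hx y
    by_contra hk
    have h1 := (kq x y hk).2.1
    have h2 : k x y ≤ V x := by
      rw [hV]
      exact Finset.single_le_sum (f := fun w => k x w) (fun i _ => k0 x i) h1
    rw [hx] at h2
    exact hk (le_antisymm h2 (k0 x y))
  have VQ : ∀ x, V x ≠ 0 → x ∈ Q := by
    intro x hx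
    rw [hV] at hx
    obtain ⟨y, _, hy⟩ := Finset.exists_ne_zero_of_sum_ne_zero hx
    exact (kq x y hy).1
  have VrQ : ∑ y ∈ range (N + 1), V y = Zk := by
    rw [hZ']
    symm
    apply Finset.sum_subset hQr
    intro y _ hy
    by_contra hk
    exact hy (VQ y hk)
  have hQc : (Q.card : ℝ) ≤ N := by
    have := card_le_card hQ
    rw [Nat.card_Icc, Nat.add_sub_cancel] at this
    exact_mod_cast this
  have Vle : ∀ y, V y ≤ C₂ := by
    intro y
    rw [hV]
    refine le_trans (Finset.sum_le_card_nsmul Q _ (C₂ / N) (fun w _ => kl y w)) ?_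
    rw [nsmul_eq_mul]
    calc (Q.card : ℝ) * (C₂ / N) ≤ N * (C₂ / N) :=
          mul_le_mul_of_nonneg_right hQc (by positivity)
      _ = C₂ := by field_simp
  have mk : ∀ x y, V x / Zk * (k x y / V x) = k x y / Zk := by
    intro x y
    by_cases hx : V x = 0
    · rw [kV x hx y, hx]
      simp
    · rw [div_mul_div_comm, mul_comm Zk, mul_div_mul_left _ _ hx]
  have cons : ∀ y, ∑ x ∈ range (N + 1), V x / Zk * (k x y / V x) = V y / Zk := by
    intro y
    simp_rw [mk]
    rw [← Finset.sum_div]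
    congr 1
    rw [← Vr y]
    exact Finset.sum_congr rfl (fun x _ => ks x y)
  have hcc : C₂ ≤ C₂ ^ 2 := by nlinarith
  refine ⟨⟨?_, ?_, ?_, ?_, ?_, ?_, ?_, ?_, ?_⟩, ?_⟩
  · intro v _ y
    exact div_nonneg (Vnn y) hZp.le
  · intro v _ y
    show V y / Zk ≤ _
    calc V y / Zk ≤ C₂ / Zk := div_le_div_of_nonneg_right (Vle y) hZp.le
      _ ≤ C₂ / ((N : ℝ) / 2) := div_le_div_of_nonneg_left (by linarith) (by positivity) hZN
      _ = 2 * C₂ / N := by field_simp
      _ ≤ 2 * C₂ ^ 2 / N := div_le_div_of_nonneg_right (by linarith) hNp.le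
  · intro v _
    show ∑ y ∈ range (N + 1), V y / Zk = 1
    rw [← Finset.sum_div, VrQ]
    exact div_self hZp.ne'
  · intro v _ _ x y
    exact div_nonneg (k0 x y) (Vnn x)
  · intro v _ _ x y hm
    have hVx : V x ≠ 0 := by
      intro h0
      apply hm
      show V x / Zk = 0
      rw [h0, zero_div]
    have h1 := kd x (VQ x hVx) hVx
    have hVp : 0 < V x := lt_of_lt_of_le (by positivity) h1
    show k x y / V x ≤ _
    rw [div_le_iff₀ hVp]
    calc k x y ≤ C₂ / N := kl x y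
      _ ≤ 2 * C₂ / N := div_le_div_of_nonneg_right (by linarith) hNp.le
      _ = 2 * C₂ ^ 2 / N * (1 / C₂) := by field_simp
      _ ≤ 2 * C₂ ^ 2 / N * V x := mul_le_mul_of_nonneg_left h1 (by positivity)
  · intro v _ _ x _ hm
    have hVx : V x ≠ 0 := by
      intro h0
      apply hm
      show V x / Zk = 0
      rw [h0, zero_div]
    show ∑ y ∈ range (N + 1), k x y / V x = 1
    rw [← Finset.sum_div, Vr]
    exact div_self hVx
  · intro v _ _ y _
    exact cons y
  · intro v hv hp y _ hm z hz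
    rw [lawsa_mem_usv, hb v hv] at hz
    rcases hz with rfl | ⟨b, hb', _⟩ | ⟨hz, _⟩
    · apply VQ
      intro h0
      apply hm
      show V y / Zk = 0
      rw [h0, zero_div]
    · exact absurd hb' (notMem_empty _)
    · exact absurd hz hp
  · intro v hv _ x _ y _ hm z hz
    have hk : k x y ≠ 0 := by
      intro h0
      apply hm
      show V x / Zk * (k x y / V x) = 0
      rw [mk, h0, zero_div]
    rw [lawsa_mem_usv, hb v hv] at hz
    rcases hz with rfl | ⟨b, hb', _⟩ | ⟨_, rfl⟩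
    · exact (kq x y hk).2.1
    · exact absurd hb' (notMem_empty _)
    · exact (kq x y hk).2.2.2
  · intro v hv z
    have one : ∀ w : ℕ → ℝ, (∀ y, 0 ≤ w y) →
        (∑ y ∈ range (N + 1), if y = z then w y else 0) ≤ w z := by
      intro w hw
      rw [Finset.sum_ite_eq' (range (N + 1)) z w]
      split_ifs
      · exact le_refl _
      · exact hw z
    unfold loadv
    by_cases hp : par v ∈ Zc
    · rw [if_pos hp, if_pos hp]
      have h1 : (∑ x ∈ range (N + 1), ∑ y ∈ range (N + 1), if z ∈ usv n par B Zc f₀ v x y then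
          V x / Zk * (k x y / V x) else 0) ≤
          (∑ x ∈ range (N + 1), ∑ y ∈ range (N + 1), if y = z then V x / Zk * (k x y / V x) else 0) +
          ∑ x ∈ range (N + 1), ∑ y ∈ range (N + 1), if dd x y = z then k x y / Zk else 0 := by
        rw [← Finset.sum_add_distrib]
        apply Finset.sum_le_sum
        intro x _
        rw [← Finset.sum_add_distrib]
        apply Finset.sum_le_sum
        intro y _
        rw [mk]
        have hkn : 0 ≤ k x y / Zk := div_nonneg (k0 x y) hZp.le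
        by_cases hu : z ∈ usv n par B Zc f₀ v x y
        · rw [if_pos hu]
          rw [lawsa_mem_usv, hb v hv] at hu
          rcases hu with hu | ⟨b, hb', _⟩ | ⟨_, hu⟩
          · rw [if_pos hu]
            have : 0 ≤ (if dd x y = z then k x y / Zk else 0) := by
              split_ifs
              · exact hkn
              · exact le_refl _
            linarith
          · exact absurd hb' (notMem_empty _)
          · rw [if_pos hu]
            have : 0 ≤ (if y = z then k x y / Zk else 0) := by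
              split_ifs
              · exact hkn
              · exact le_refl _
            linarith
        · rw [if_neg hu]
          have h1 : 0 ≤ (if dd x y = z then k x y / Zk else 0) := by
            split_ifs
            · exact hkn
            · exact le_refl _
          have h2 : 0 ≤ (if y = z then k x y / Zk else 0) := by
            split_ifs
            · exact hkn
            · exact le_refl _
          linarith
      refine le_trans h1 ?_
      apply add_le_add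
      · rw [Finset.sum_comm]
        have e : ∀ y ∈ range (N + 1), (∑ x ∈ range (N + 1), if y = z then V x / Zk * (k x y / V x) else 0) =
            if y = z then V y / Zk else 0 := by
          intro y _
          by_cases hy : y = z
          · simp only [if_pos hy]
            exact cons y
          · simp only [if_neg hy, Finset.sum_const_zero]
        rw [Finset.sum_congr rfl e]
        exact one (fun y => V y / Zk) (fun y => div_nonneg (Vnn y) hZp.le)
      · have e1 : ∀ x, (∑ y ∈ Q, if dd x y = z then k x y else 0) =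
            ∑ y ∈ range (N + 1), if dd x y = z then k x y else 0 := by
          intro x
          apply Finset.sum_subset hQr
          intro y _ hy
          split_ifs
          · by_contra hk
            exact hy (kq x y hk).2.1
          · rfl
        have e2 : (∑ x ∈ Q, ∑ y ∈ Q, if dd x y = z then k x y else 0) =
            ∑ x ∈ range (N + 1), ∑ y ∈ range (N + 1), if dd x y = z then k x y else 0 := by
          simp_rw [e1]
          apply Finset.sum_subset hQr
          intro x _ hx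
          apply Finset.sum_eq_zero
          intro y _
          split_ifs
          · by_contra hk
            exact hx (kq x y hk).1
          · rfl
        rw [e2, Finset.sum_div]
        apply Finset.sum_le_sum
        intro x _
        rw [Finset.sum_div]
        apply Finset.sum_le_sum
        intro y _
        split_ifs
        · exact le_refl _
        · rw [zero_div]
    · rw [if_neg hp, if_neg hp, add_zero]
      refine le_trans ?_ (one (fun y => V y / Zk) (fun y => div_nonneg (Vnn y) hZp.le))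
      apply Finset.sum_le_sum
      intro y _
      by_cases hu : z ∈ usv n par B Zc f₀ v 0 y
      · rw [if_pos hu]
        rw [lawsa_mem_usv, hb v hv] at hu
        rcases hu with hu | ⟨b, hb', _⟩ | ⟨hu, _⟩
        · rw [if_pos hu]
        · exact absurd hb' (notMem_empty _)
        · exact absurd hu hp
      · rw [if_neg hu]
        split_ifs
        · exact div_nonneg (Vnn y) hZp.le
        · exact le_refl _

theorem lawsA (δ : ℝ) (hδ : 0 < δ) : ∃ s C : ℝ, 0 < s ∧ 0 < C ∧ ∃ N₀ : ℕ,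
    ∀ (n N : ℕ) (par : ℕ → ℕ) (H B Z Q Zc : Finset ℕ) (f₀ : ℕ → ℕ) (Dom : ℕ → Finset ℕ), N₀ ≤ N →
      BCfg n N par H B Z Q f₀ Dom s →
      Zc ⊆ Z → (∀ v ∈ Zc, bnb n par B v = ∅ ∧ (par v ∈ Zc ∨ par v ∉ Z)) →
      (∀ v ∈ Z, par v ∈ Zc → v ∈ Zc) → δ * N ≤ (Zc.card : ℝ) →
      ((Zc.filter (fun v => par v ∉ Z)).card : ℝ) ≤ s * N →
      (((Z \ Zc).filter (fun v => par v ∉ H)).card : ℝ) ≤ s * N →
      ∑ v ∈ Z, (1 + (bnb n par B v).card + (if par v ∈ Z then 1 else 0)) ≤ Q.card →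
      ∃ (mu : ℕ → ℕ → ℝ) (kr : ℕ → ℕ → ℕ → ℝ), LawV n N par B Z Q f₀ C mu kr ∧
        (∀ z ∈ Q, ∑ v ∈ Z, loadv n N par B Z f₀ mu kr v z ≤ 1) ∧
        (∀ v ∈ Z, par v ∈ H → ∀ y,
          mu v y = if y ∈ Dom (par v) then 1 / ((Dom (par v)).card : ℝ) else 0) := by
  classical
  obtain ⟨s₁, C₂, hs₁, hs₁', hC₂, N₁, hF⟩ := lemF2 (1 + 1 / δ) (by
    have : 0 < 1 / δ := by positivity
    linarith)
  obtain ⟨s, hs0, hsa, hsb, hsc⟩ : ∃ s : ℝ, 0 < s ∧ s ≤ 1 / 100 ∧ s ≤ s₁ / 20 ∧ s ≤ s₁ * δ / 20 :=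
    ⟨min (1 / 100) (min (s₁ / 20) (s₁ * δ / 20)), by positivity, min_le_left _ _,
      (min_le_right _ _).trans (min_le_left _ _), (min_le_right _ _).trans (min_le_right _ _)⟩
  refine ⟨s, 2 * C₂ ^ 2, hs0, by positivity, max (max N₁ 100) ⌈1 / s⌉₊, ?_⟩
  intro n N par H B Z Q Zc f₀ Dom hN h hZc hZc1 hZc2 hδc hM hF1 hQs
  have hN1 : N₁ ≤ N := le_trans (le_trans (le_max_left _ _) (le_max_left _ _)) hN
  have hN100 : 100 ≤ N := le_trans (le_trans (le_max_right _ _) (le_max_left _ _)) hN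
  have hNs : 1 / s ≤ N := (Nat.le_ceil _).trans (by exact_mod_cast le_trans (le_max_right _ _) hN)
  have hN100' : (100 : ℝ) ≤ N := by exact_mod_cast hN100
  have hNp : (0 : ℝ) < N := by linarith
  have hsN : 1 ≤ s * N := by
    rw [div_le_iff₀ hs0] at hNs
    linarith
  obtain ⟨Z₁, hZ₁⟩ : ∃ Z₁, Z₁ = Z \ Zc := ⟨_, rfl⟩
  rw [← hZ₁] at hF1
  have hZ₁s : Z₁ ⊆ Z := hZ₁ ▸ sdiff_subset
  have h1 : BCfg n N par H B Z₁ Q f₀ Dom s :=
    { h with
      Zsub := hZ₁s.trans h.Zsub
      BZ := Finset.disjoint_of_subset_right hZ₁s h.BZ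
      Z0 := fun hh => h.Z0 (hZ₁s hh)
      one := fun v hv => h.one v (hZ₁s hv) }
  have l1 := lawsa_law1 h1 hs0.le hsa hN100
  have hlU := fun v hv hp z => lawsa_loadU (v := v) h1 hsa hN100 hv hp z
  have hun := fun v hp y => lawsa_unif (v := v) h1 hp y
  obtain ⟨mu1, hmu1⟩ : ∃ mu1, mu1 = lawsaMu n N par H B Z₁ Q f₀ Dom := ⟨_, rfl⟩
  obtain ⟨kr1, hkr1⟩ : ∃ kr1 : ℕ → ℕ → ℕ → ℝ, kr1 = fun v x => lawsaU (Axy n par B Q f₀ v x) :=
    ⟨_, rfl⟩
  rw [← hmu1, ← hkr1] at l1
  simp only [← hmu1] at hun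
  simp only [← hmu1, ← hkr1] at hlU
  have hd : Disjoint Z₁ Zc := hZ₁ ▸ sdiff_disjoint
  have hu : Z₁ ∪ Zc = Z := hZ₁ ▸ sdiff_union_of_subset hZc
  have h12 : ∀ v ∈ Z₁, par v ∉ Zc := by
    intro v hv hp
    exact (Finset.disjoint_left.1 hd hv) (hZc2 v (hZ₁s hv) hp)
  have h21 : ∀ v ∈ Zc, par v ∉ Z₁ := by
    intro v hv hp
    rcases (hZc1 v hv).2 with h' | h'
    · exact (Finset.disjoint_left.1 hd hp) h'
    · exact h' (hZ₁s hp)
  have p1 : ∀ v ∈ Z₁, (par v ∈ Z ↔ par v ∈ Z₁) := by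
    intro v hv
    rw [← hu, mem_union]
    exact ⟨fun h => h.resolve_right (h12 v hv), Or.inl⟩
  have p2 : ∀ v ∈ Zc, (par v ∈ Z ↔ par v ∈ Zc) := by
    intro v hv
    rw [← hu, mem_union]
    exact ⟨fun h => h.resolve_left (h21 v hv), Or.inr⟩
  obtain ⟨L, hL⟩ : ∃ L : ℕ → ℝ, ∀ z, L z = ∑ v ∈ Z₁, loadv n N par B Z₁ f₀ mu1 kr1 v z :=
    ⟨_, fun _ => rfl⟩
  have Lnn : ∀ z, 0 ≤ L z := by
    intro z
    rw [hL]
    exact Finset.sum_nonneg (fun v hv => lawsa_load_nn l1 hv z)
  have hsp : 0 < (1 - s) * (N : ℝ) := mul_pos (by linarith) hNp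
  have Lle : ∀ z, L z ≤ Z₁.card * (2 / ((1 - s) * N)) + 10 * s := by
    intro z
    rw [hL, ← Finset.sum_filter_add_sum_filter_not Z₁ (fun v => par v ∉ H)]
    have a1 : ∑ v ∈ Z₁.filter (fun v => par v ∉ H), loadv n N par B Z₁ f₀ mu1 kr1 v z ≤ 10 * s := by
      refine le_trans (Finset.sum_le_card_nsmul _ _ (5 * (2 / (N : ℝ))) (fun v hv =>
        lawsa_load l1 (by norm_num) h1.one (mem_filter.1 hv).1 z)) ?_
      rw [nsmul_eq_mul]
      calc ((Z₁.filter (fun v => par v ∉ H)).card : ℝ) * (5 * (2 / (N : ℝ)))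
          ≤ (s * N) * (5 * (2 / (N : ℝ))) := mul_le_mul_of_nonneg_right hF1 (by positivity)
        _ = 10 * s := by
            field_simp
            norm_num
    have a2 : ∑ v ∈ Z₁.filter (fun v => ¬ par v ∉ H), loadv n N par B Z₁ f₀ mu1 kr1 v z ≤
        Z₁.card * (2 / ((1 - s) * N)) := by
      refine le_trans (Finset.sum_le_card_nsmul _ _ (2 / ((1 - s) * N)) (fun v hv =>
        hlU v (mem_filter.1 hv).1 (not_not.1 (mem_filter.1 hv).2) z)) ?_
      rw [nsmul_eq_mul]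
      apply mul_le_mul_of_nonneg_right _ (by positivity)
      exact_mod_cast card_filter_le _ _
    linarith
  obtain ⟨c, hc⟩ : ∃ c : ℝ, c = Zc.card := ⟨_, rfl⟩
  obtain ⟨M, hMe⟩ : ∃ M : ℝ, M = ((Zc.filter (fun v => par v ∉ Z)).card : ℝ) := ⟨_, rfl⟩
  obtain ⟨K, hK⟩ : ∃ K : ℝ, K = ((Zc.filter (fun v => par v ∈ Zc)).card : ℝ) := ⟨_, rfl⟩
  rw [← hc] at hδc
  rw [← hMe] at hM
  have hcK : c = M + K := by
    rw [hc, hMe, hK]
    have e : Zc.filter (fun v => par v ∈ Zc) = Zc.filter (fun v => ¬ par v ∉ Z) := by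
      apply Finset.filter_congr
      intro v hv
      rw [not_not]
      exact (p2 v hv).symm
    rw [e]
    have := Finset.card_filter_add_card_filter_not (s := Zc) (fun v => par v ∉ Z)
    exact_mod_cast this.symm
  have hM0 : 0 ≤ M := by
    rw [hMe]
    positivity
  have hcard : (Z₁.card : ℝ) + c ≤ (N + 1) / 2 := by
    have e1 : Z₁.card + Zc.card = Z.card := by
      rw [← hu]
      exact (card_union_of_disjoint hd).symm
    have e2 : Z.card ≤ n := by
      have := card_le_card h.Zsub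
      rwa [card_range] at this
    have e3 := h.N_eq
    have e4 : 2 * (Z₁.card + Zc.card) ≤ N + 1 := by omega
    have e5 : 2 * ((Z₁.card : ℝ) + Zc.card) ≤ N + 1 := by exact_mod_cast e4
    rw [hc]
    linarith
  have hc0 : 0 < c := lt_of_lt_of_le (by positivity) hδc
  have gge : ∀ z, 2 * c / N - 20 * s ≤ 1 - L z := by
    intro z
    have a1 := Lle z
    have a2 : (Z₁.card : ℝ) * (2 / ((1 - s) * N)) ≤ 1 - 2 * c / N + 10 * s := by
      have b1 : (Z₁.card : ℝ) * (2 / ((1 - s) * N)) ≤ ((N + 1) / 2 - c) * (2 / ((1 - s) * N)) :=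
        mul_le_mul_of_nonneg_right (by linarith) (by positivity)
      refine le_trans b1 ?_
      have b2 : ((N + 1) / 2 - c) * (2 / ((1 - s) * N)) = (N + 1 - 2 * c) / ((1 - s) * N) := by
        rw [mul_div_assoc']
        congr 1
        ring
      have b3 : 1 - 2 * c / N + 10 * s = (N - 2 * c + 10 * s * N) / N := by
        field_simp
      rw [b2, b3, div_le_div_iff₀ hsp hNp]
      have b4 : N + 1 - 2 * c ≤ (N - 2 * c + 10 * s * N) * (1 - s) := by
        have : s * (s * N) ≤ 1 / 100 * (s * N) := mul_le_mul_of_nonneg_right hsa (by positivity)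
        nlinarith [mul_nonneg hs0.le hc0.le]
      calc (N + 1 - 2 * c) * (N : ℝ) ≤ ((N - 2 * c + 10 * s * N) * (1 - s)) * N :=
            mul_le_mul_of_nonneg_right b4 hNp.le
        _ = (N - 2 * c + 10 * s * N) * ((1 - s) * N) := by ring
    linarith
  have hsumg : c + K ≤ ∑ z ∈ Q, (1 - L z) := by
    have e1 : ∑ z ∈ Q, L z ≤ ((∑ v ∈ Z₁, (1 + (bnb n par B v).card + (if par v ∈ Z then 1 else 0)) : ℕ) : ℝ) := by
      simp_rw [hL]
      rw [Finset.sum_comm, Nat.cast_sum]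
      apply Finset.sum_le_sum
      intro v hv
      have := lawsa_loadsum l1 hv
      simp only [p1 v hv]
      exact this
    have e2 : ((∑ v ∈ Zc, (1 + (bnb n par B v).card + (if par v ∈ Z then 1 else 0)) : ℕ) : ℝ) = c + K := by
      have e3 : ∑ v ∈ Zc, (1 + (bnb n par B v).card + (if par v ∈ Z then 1 else 0)) =
          Zc.card + (Zc.filter (fun v => par v ∈ Zc)).card := by
        rw [Finset.card_eq_sum_ones, Finset.card_filter, ← Finset.sum_add_distrib]
        apply Finset.sum_congr rfl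
        intro v hv
        rw [(hZc1 v hv).1, card_empty, add_zero]
        simp only [p2 v hv]
      rw [e3, hc, hK]
      push_cast
      rfl
    have e4 : ∑ v ∈ Z₁, (1 + (bnb n par B v).card + (if par v ∈ Z then 1 else 0)) +
        ∑ v ∈ Zc, (1 + (bnb n par B v).card + (if par v ∈ Z then 1 else 0)) ≤ Q.card := by
      rw [← Finset.sum_union hd, hu]
      exact hQs
    have e5 : ((∑ v ∈ Z₁, (1 + (bnb n par B v).card + (if par v ∈ Z then 1 else 0)) : ℕ) : ℝ) +
        ((∑ v ∈ Zc, (1 + (bnb n par B v).card + (if par v ∈ Z then 1 else 0)) : ℕ) : ℝ) ≤ (Q.card : ℝ) := by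
      exact_mod_cast e4
    rw [Finset.sum_sub_distrib, Finset.sum_const, nsmul_eq_mul, mul_one]
    linarith
  have hQc : (Q.card : ℝ) ≤ N := by
    have := card_le_card h.QN
    rw [Nat.card_Icc, Nat.add_sub_cancel] at this
    exact_mod_cast this
  have hK0 : 0 < K := by
    have : δ * N - s * N ≤ K := by linarith
    refine lt_of_lt_of_le ?_ this
    have : s < δ := by
      have : s₁ * δ / 20 < δ := by nlinarith
      linarith
    nlinarith
  obtain ⟨E, hE⟩ : ∃ E : ℝ, E = c + K := ⟨_, rfl⟩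
  have hEp : 0 < E := by linarith
  have hEc : E ≤ 2 * c := by linarith
  have hEδ : δ * N ≤ E := by linarith
  rw [← hE] at hsumg
  obtain ⟨lo, hlo⟩ : ∃ lo : ℝ, lo = (1 - s₁) * E / N := ⟨_, rfl⟩
  have hlo0 : 0 ≤ lo := by
    rw [hlo]
    apply div_nonneg _ hNp.le
    exact mul_nonneg (by linarith) hEp.le
  have log : ∀ z, lo ≤ 1 - L z := by
    intro z
    refine le_trans ?_ (gge z)
    have a1 : lo = E / N - s₁ * (E / N) := by
      rw [hlo]
      ring
    have a2 : δ ≤ E / N := by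
      rw [le_div_iff₀ hNp]
      exact hEδ
    have a3 : E / N ≤ 2 * c / N := div_le_div_of_nonneg_right hEc hNp.le
    have a4 : s₁ * δ ≤ s₁ * (E / N) := mul_le_mul_of_nonneg_left a2 hs₁.le
    rw [a1]
    linarith
  have hloE : (Q.card : ℝ) * lo ≤ E := by
    calc (Q.card : ℝ) * lo ≤ N * lo := mul_le_mul_of_nonneg_right hQc hlo0
      _ = (1 - s₁) * E := by
          rw [hlo]
          field_simp
      _ ≤ E := by nlinarith
  obtain ⟨lam, hl0, hl1, hlam⟩ : ∃ lam : ℝ, 0 ≤ lam ∧ lam ≤ 1 ∧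
      (1 - lam) * (Q.card * lo) + lam * ∑ z ∈ Q, (1 - L z) = E := by
    obtain ⟨a, ha⟩ : ∃ a : ℝ, a = Q.card * lo := ⟨_, rfl⟩
    obtain ⟨b, hb⟩ : ∃ b : ℝ, b = ∑ z ∈ Q, (1 - L z) := ⟨_, rfl⟩
    rw [← ha, ← hb]
    rw [← ha] at hloE
    rw [← hb] at hsumg
    by_cases hab : a = b
    · refine ⟨0, le_refl _, zero_le_one, ?_⟩
      linarith
    · have hlt : a < b := lt_of_le_of_ne (hloE.trans hsumg) hab
      have hpos : 0 < b - a := by linarith
      refine ⟨(E - a) / (b - a), div_nonneg (by linarith) hpos.le, ?_, ?_⟩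
      · rw [div_le_one hpos]
        linarith
      · field_simp
        ring
  obtain ⟨g', hg'⟩ : ∃ g' : ℕ → ℝ, ∀ z, g' z = (1 - lam) * lo + lam * (1 - L z) := ⟨_, fun _ => rfl⟩
  have g1 : ∀ z, lo ≤ g' z := by
    intro z
    rw [hg']
    nlinarith [mul_le_mul_of_nonneg_left (log z) hl0]
  have g2 : ∀ z, g' z ≤ 1 - L z := by
    intro z
    rw [hg']
    nlinarith [mul_le_mul_of_nonneg_left (log z) (by linarith : (0 : ℝ) ≤ 1 - lam)]
  have g3 : ∑ z ∈ Q, g' z = E := by
    simp_rw [hg']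
    rw [Finset.sum_add_distrib, Finset.sum_const, nsmul_eq_mul, ← Finset.mul_sum, ← hlam]
    ring
  obtain ⟨ω, hω⟩ : ∃ ω : ℝ, ω = c / K := ⟨_, rfl⟩
  have hω1 : |ω - 1| ≤ s₁ := by
    have e : ω - 1 = M / K := by
      rw [hω, hcK]
      field_simp
      ring
    rw [e, abs_of_nonneg (div_nonneg hM0 hK0.le), div_le_iff₀ hK0]
    have a1 : s * (1 + s₁) ≤ s₁ * δ := by nlinarith
    have a2 : s * (1 + s₁) * N ≤ s₁ * δ * N := mul_le_mul_of_nonneg_right a1 hNp.le
    have a3 : s₁ * (δ * N) ≤ s₁ * (M + K) := mul_le_mul_of_nonneg_left (by linarith) hs₁.le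
    have a4 : s₁ * M ≤ s₁ * (s * N) := mul_le_mul_of_nonneg_left hM hs₁.le
    nlinarith
  obtain ⟨k, k0, ks, kq, kl, kd, kld⟩ := hF N hN1 Q h.QN
    (h.Qc.trans (mul_le_mul_of_nonneg_right (by linarith) hNp.le)) ω hω1 (fun z => g' z * (N / E))
    (by
      intro a _
      constructor
      · have e : lo * (N / E) = 1 - s₁ := by
          rw [hlo]
          field_simp
        rw [← e]
        exact mul_le_mul_of_nonneg_right (g1 a) (by positivity)
      · have a1 : g' a ≤ 1 := by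
          have := g2 a
          have := Lnn a
          linarith
        calc g' a * (N / E) ≤ 1 * (N / E) := mul_le_mul_of_nonneg_right a1 (by positivity)
          _ = N / E := one_mul _
          _ ≤ N / (δ * N) := div_le_div_of_nonneg_left hNp.le (by positivity) hEδ
          _ = 1 / δ := by field_simp
          _ ≤ 1 + 1 / δ := by linarith)
    (by
      rw [← Finset.sum_mul, g3]
      have e : E * (N / E) = N := by field_simp
      rw [e]
      nlinarith)
  obtain ⟨Zk, hZk⟩ : ∃ Zk : ℝ, Zk = ∑ x ∈ Q, ∑ y ∈ Q, k x y := ⟨_, rfl⟩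
  have hZkE : (ω + 1) * Zk = 2 * N := by
    have e1 := Finset.sum_congr (rfl : Q = Q) kld
    rw [Finset.sum_add_distrib, ← Finset.mul_sum, ← Finset.mul_sum, ← hZk, ← Finset.sum_mul, g3] at e1
    have e2 : ∑ a ∈ Q, ∑ x ∈ Q, ∑ y ∈ Q, (if dd x y = a then k x y else 0) = Zk := by
      rw [Finset.sum_comm, hZk]
      apply Finset.sum_congr rfl
      intro x _
      rw [Finset.sum_comm]
      apply Finset.sum_congr rfl
      intro y _
      rw [Finset.sum_ite_eq]
      by_cases hk : k x y = 0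
      · rw [hk, ite_self]
      · rw [if_pos (kq x y hk).2.2.2]
    rw [e2] at e1
    have e3 : E * (N / E) = N := by field_simp
    rw [e3] at e1
    linarith
  have hωb := abs_le.1 hω1
  have hZN : (N : ℝ) / 2 ≤ Zk := by
    by_contra hcon
    push Not at hcon
    have : (ω + 1) * Zk < 2 * N := by
      have a1 : (ω + 1) * Zk ≤ (ω + 1) * (N / 2) := mul_le_mul_of_nonneg_left hcon.le (by linarith)
      nlinarith
    linarith
  have hZkp : 0 < Zk := lt_of_lt_of_le (by positivity) hZN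
  obtain ⟨lc, lcl⟩ := lawsa_lawc (n := n) (par := par) (B := B) (Zc := Zc) (f₀ := f₀) hC₂
    (by omega : 0 < N) h.QN (fun v hv => (hZc1 v hv).1) k k0 ks kq kl kd Zk hZk hZN
  obtain ⟨mu2, hmu2⟩ : ∃ mu2 : ℕ → ℕ → ℝ, mu2 = fun _ y => (∑ w ∈ Q, k y w) / Zk := ⟨_, rfl⟩
  obtain ⟨kr2, hkr2⟩ : ∃ kr2 : ℕ → ℕ → ℕ → ℝ, kr2 = fun _ x y => k x y / (∑ w ∈ Q, k x w) := ⟨_, rfl⟩
  rw [← hmu2, ← hkr2] at lc
  simp only [← hmu2, ← hkr2] at lcl
  have hC2' : (2 : ℝ) ≤ 2 * C₂ ^ 2 := by nlinarith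
  obtain ⟨lg, lg1, lg2⟩ := lawsa_glue hd h12 h21 (lawsa_mono l1 hC2') lc
  rw [hu] at lg lg1 lg2
  refine ⟨_, _, lg, ?_, ?_⟩
  · intro z hz
    rw [← hu, Finset.sum_union hd, hu, Finset.sum_congr rfl (fun v hv => lg1 v hv z),
      Finset.sum_congr rfl (fun v hv => lg2 v hv z), ← hL]
    have hc1 : ∑ v ∈ Zc, loadv n N par B Zc f₀ mu2 kr2 v z ≤ g' z := by
      refine le_trans (Finset.sum_le_sum (fun v hv => lcl v hv z)) ?_
      rw [Finset.sum_add_distrib, Finset.sum_const, nsmul_eq_mul, ← Finset.sum_filter,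
        Finset.sum_const, nsmul_eq_mul, ← hc, ← hK]
      have hT := kld z hz
      obtain ⟨A, hA⟩ : ∃ A : ℝ, A = ∑ w ∈ Q, k z w := ⟨_, rfl⟩
      obtain ⟨D, hD⟩ : ∃ D : ℝ, D = ∑ x ∈ Q, ∑ y ∈ Q, (if dd x y = z then k x y else 0) := ⟨_, rfl⟩
      rw [← hA, ← hD] at hT ⊢
      apply le_of_eq
      have e1 : ω * K = c := by
        rw [hω]
        field_simp
      have e2 : c * (A / Zk) + K * (D / Zk) = (2 * K / Zk) * (ω / 2 * A + 1 / 2 * D) := by
        rw [← e1]
        field_simp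
      rw [e2, hT]
      have e3 : (ω + 1) * K = E := by
        rw [hE]
        linarith
      have e4 : 2 * K / Zk = E / N := by
        rw [div_eq_div_iff hZkp.ne' hNp.ne', ← e3]
        linear_combination (-K) * hZkE
      rw [e4]
      field_simp
    have := g2 z
    linarith
  · intro v hv hp y
    have hvc : v ∉ Zc := by
      intro hvc
      have hlt : v ≠ 0 := by
        intro h0
        exact h.Z0 (h0 ▸ hv)
      have hmem : par v ∈ bnb n par B v := by
        unfold bnb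
        rw [mem_filter]
        exact ⟨h.HB hp, Or.inl ⟨by omega, mem_range.1 (h.Zsub hv), rfl⟩⟩
      rw [(hZc1 v hvc).1] at hmem
      exact notMem_empty _ hmem
    simp only [if_neg hvc]
    exact hun v hp y

end SSB
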