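import Pool.Agent.Lib.MP_8a819d_co.AT.Defs
import Pool.Agent.Lib.MP_8a819d_co.BD.Late

/-!
# MP_8a819d_co, trees with many non-leaves: late vertices

JOB Late2 (all of this file).

The same as `late` of BD/Late.lean with two small changes: the degree bound is needed only for the vertices which are
numbered late (`T \ W`), and the reserve is given as a function of `N` before everything else.

PROOF. Copy `lt_ind` and `late` of BD/Late.lean: the hypothesis `∀ i < n, pdeg n par i ≤ Δ` is used only in the calls of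
`ext1`, for the vertex `v ∈ T \ W` that is numbered. The sets `R N` (`N ≥ N₁`) come from `rsv_card` / `select` (BD/Lt1.lean):
`R N = rsv Δ q ζ N` with the primes `q` of `primes_exist Δ β`.
-/

set_option autoImplicit false

namespace SSB

open Finset

private theorem late2_val {par f f' : ℕ → ℕ} {W : Finset ℕ} (h : ∀ i ∈ W, f' i = f i)
    {x : ℕ ⊕ ℕ} (hx : x ∈ items par W) : val par f' x = val par f x := by
  rcases x with i | i
  · rw [mem_items_inl] at hx
    rw [val_inl, val_inl, h i hx]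
  · rw [mem_items_inr] at hx
    rw [val_inr, val_inr, h i hx.1, h _ hx.2.2]

theorem late2_ind {Δ n N : ℕ} {par : ℕ → ℕ} {R : Finset ℕ} {l : ℝ} (hsel : Sel Δ N R l)
    (hR : R ⊆ Icc 1 N) (hpar : IsPar n par) (m : ℕ) :
    ∀ (T W : Finset ℕ) (f : ℕ → ℕ), (T \ W).card = m → W ⊆ T → T ⊆ range n →
      (∀ v ∈ T \ W, pdeg n par v ≤ Δ) →
      Set.InjOn (val par f) (items par W) →
      (∀ x ∈ items par W, 1 ≤ val par f x ∧ val par f x ≤ N) →
      ((((items par W).image (val par f)).filter (· ∈ R)).card : ℝ) + (Δ + 1) * m ≤ l * N →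
      ∃ f' : ℕ → ℕ, (∀ i ∈ W, f' i = f i) ∧ Set.InjOn (val par f') (items par T) ∧
        (∀ x ∈ items par T, x ∉ items par W → val par f' x ∈ R) ∧
        ((((items par T).image (val par f')).filter (· ∈ R)).card : ℝ) ≤
          (((items par W).image (val par f)).filter (· ∈ R)).card + (Δ + 1) * m := by
  classical
  induction m with
  | zero =>
    intro T W f hm hWT hT hdeg hinj hval hc
    have hTW : T = W := by
      rw [card_eq_zero, sdiff_eq_empty_iff_subset] at hm
      exact Subset.antisymm hm hWT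
    subst hTW
    refine ⟨f, fun _ _ => rfl, hinj, fun x hx hx' => absurd hx hx', ?_⟩
    simp
  | succ m ih =>
    intro T W f hm hWT hT hdeg hinj hval hc
    have hne : (T \ W).Nonempty := by
      rw [← card_pos, hm]
      exact Nat.succ_pos m
    obtain ⟨v, hv⟩ := hne
    have hdv : pdeg n par v ≤ Δ := hdeg v hv
    rw [mem_sdiff] at hv
    have hvn : v < n := mem_range.mp (hT hv.1)
    have hmm : (0 : ℝ) ≤ (Δ + 1) * ((m + 1 : ℕ) : ℝ) := by positivity
    obtain ⟨f1, h1, h2, h3, h4, -⟩ := ext1 hsel hR hpar (hWT.trans hT) hvn hv.2 hdv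
      hinj hval (by linarith) 0
    have h4' : ((((items par (insert v W)).image (val par f1)).filter (· ∈ R)).card : ℝ) ≤
        (((items par W).image (val par f)).filter (· ∈ R)).card + (Δ + 1) := by
      exact_mod_cast h4
    have hcard : (T \ insert v W).card = m := by
      have e1 : T \ insert v W = (T \ W).erase v := by
        ext x
        simp only [mem_sdiff, mem_insert, mem_erase, not_or]
        tauto
      rw [e1, card_erase_of_mem (mem_sdiff.mpr hv), hm, Nat.add_sub_cancel]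
    have hval1 : ∀ x ∈ items par (insert v W), 1 ≤ val par f1 x ∧ val par f1 x ≤ N := by
      intro x hx
      by_cases hxW : x ∈ items par W
      · rw [late2_val h1 hxW]
        exact hval x hxW
      · exact mem_Icc.mp (hR (h3 x hx hxW))
    obtain ⟨f', g1, g2, g3, g4⟩ := ih T (insert v W) f1 hcard
      (insert_subset_iff.mpr ⟨hv.1, hWT⟩) hT (fun u hu => hdeg u (by
        rw [mem_sdiff] at hu ⊢
        exact ⟨hu.1, fun h => hu.2 (mem_insert_of_mem h)⟩)) h2 hval1 (by
        push_cast at hc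
        linarith)
    refine ⟨f', fun i hi => ?_, g2, fun x hx hxW => ?_, ?_⟩
    · rw [g1 i (mem_insert_of_mem hi), h1 i hi]
    · by_cases hx' : x ∈ items par (insert v W)
      · rw [late2_val g1 hx']
        exact h3 x hx' hxW
      · exact g3 x hx hx'
    · push_cast
      linarith

theorem late2 (Δ : ℕ) (ζ β : ℝ) (hζ : 0 < ζ) (hζ1 : ζ * (16 * (Δ + 1)) ≤ 1) (hβ : 0 < β) :
    ∃ (l : ℝ) (R : ℕ → Finset ℕ) (N₁ : ℕ), 0 < l ∧ ∀ N : ℕ, N₁ ≤ N →
      (∀ x ∈ R N, ζ * N < x ∧ x ≤ N) ∧ ((R N).card : ℝ) ≤ β * N ∧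
      ∀ (n : ℕ) (par : ℕ → ℕ), IsPar n par →
      ∀ (T W : Finset ℕ) (f : ℕ → ℕ), W ⊆ T → T ⊆ range n → (∀ v ∈ T \ W, pdeg n par v ≤ Δ) →
        Set.InjOn (val par f) (items par W) →
        (∀ x ∈ items par W, 1 ≤ val par f x ∧ val par f x ≤ N ∧ val par f x ∉ R N) →
        (((T \ W).card : ℕ) : ℝ) ≤ l * N →
        (∃ f' : ℕ → ℕ, (∀ i ∈ W, f' i = f i) ∧ Set.InjOn (val par f') (items par T) ∧
          ∀ x ∈ items par T, x ∉ items par W → val par f' x ∈ R N) ∧
        (∀ v₀ ∈ T \ W, wdeg n par T v₀ % 2 = 0 → ∀ b : ℕ,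
          ∃ f' : ℕ → ℕ, (∀ i ∈ W, f' i = f i) ∧ Set.InjOn (val par f') (items par T) ∧
            (∀ x ∈ items par T, x ∉ items par W → val par f' x ∈ R N) ∧
            (∑ x ∈ items par T, val par f' x + b) % 2 = 0) := by
  classical
  obtain ⟨q, hq⟩ := primes_exist Δ β hβ
  obtain ⟨l', hl', N₀, hsel⟩ := select hq hζ hζ1
  have hD : (0 : ℝ) < 2 * (Δ + 1) := by positivity
  refine ⟨l' / (2 * (Δ + 1)), fun N => rsv Δ q ζ N, N₀, div_pos hl' hD, fun N hN => ⟨?_,
    rsv_card hq ζ N, ?_⟩⟩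
  · intro x hx
    replace hx : x ∈ rsv Δ q ζ N := hx
    rw [rsv, mem_filter, mem_Icc] at hx
    exact ⟨hx.2.1, hx.1.2⟩
  intro n par hpar T W f hWT hT hdeg hinj hval hcard
  have hR : rsv Δ q ζ N ⊆ Icc 1 N := filter_subset _ _
  have hs := hsel N hN
  have hval' : ∀ x ∈ items par W, 1 ≤ val par f x ∧ val par f x ≤ N := fun x hx =>
    ⟨(hval x hx).1, (hval x hx).2.1⟩
  have hzero : ((((items par W).image (val par f)).filter (· ∈ rsv Δ q ζ N)).card : ℝ) = 0 := by
    have : ((items par W).image (val par f)).filter (· ∈ rsv Δ q ζ N) = ∅ := by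
      rw [filter_eq_empty_iff]
      intro y hy
      obtain ⟨x, hx, rfl⟩ := mem_image.mp hy
      exact (hval x hx).2.2
    rw [this, card_empty, Nat.cast_zero]
  have hlN : (0 : ℝ) ≤ l' * N := by positivity
  have hbd : ∀ m : ℕ, m ≤ (T \ W).card → ((Δ : ℝ) + 1) * m ≤ l' * N := by
    intro m hm
    have h1 : (m : ℝ) ≤ l' / (2 * (Δ + 1)) * N := le_trans (by exact_mod_cast hm) hcard
    have h2 : ((Δ : ℝ) + 1) * m ≤ (Δ + 1) * (l' / (2 * (Δ + 1)) * N) :=
      mul_le_mul_of_nonneg_left h1 (by positivity)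
    have h3 : ((Δ : ℝ) + 1) * (l' / (2 * (Δ + 1)) * N) = l' * N / 2 := by
      field_simp
    rw [h3] at h2
    linarith
  refine ⟨?_, ?_⟩
  · obtain ⟨f', g1, g2, g3, -⟩ := late2_ind hs hR hpar (T \ W).card T W f rfl hWT hT hdeg hinj hval'
      (by rw [hzero, zero_add]; exact hbd _ le_rfl)
    exact ⟨f', g1, g2, g3⟩
  · intro v₀ hv₀ heven b
    have hdv : pdeg n par v₀ ≤ Δ := hdeg v₀ hv₀
    rw [mem_sdiff] at hv₀
    have hvn : v₀ < n := mem_range.mp (hT hv₀.1)
    have hWT' : W ⊆ T.erase v₀ := fun i hi =>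
      mem_erase.mpr ⟨fun h => hv₀.2 (h ▸ hi), hWT hi⟩
    have hT' : T.erase v₀ ⊆ range n := (erase_subset _ _).trans hT
    have hm' : (T.erase v₀ \ W).card ≤ (T \ W).card :=
      card_le_card (sdiff_subset_sdiff (erase_subset _ _) (Subset.refl _))
    obtain ⟨f1, g1, g2, g3, g4⟩ := late2_ind hs hR hpar (T.erase v₀ \ W).card (T.erase v₀) W f
      rfl hWT' hT' (fun u hu => hdeg u (sdiff_subset_sdiff (erase_subset _ _) (Subset.refl _) hu)) hinj hval' (by rw [hzero, zero_add]; exact hbd _ hm')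
    rw [hzero, zero_add] at g4
    have hval1 : ∀ x ∈ items par (T.erase v₀), 1 ≤ val par f1 x ∧ val par f1 x ≤ N := by
      intro x hx
      by_cases hxW : x ∈ items par W
      · rw [late2_val g1 hxW]
        exact hval' x hxW
      · exact mem_Icc.mp (hR (g3 x hx hxW))
    obtain ⟨f', k1, k2, k3, -, k5⟩ := ext1 hs hR hpar hT' hvn (notMem_erase v₀ T)
      hdv g2 hval1 (g4.trans (hbd _ hm')) b
    rw [insert_erase hv₀.1] at k2 k3 k5
    have hw : wdeg n par (T.erase v₀) v₀ = wdeg n par T v₀ := by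
      unfold wdeg
      have e1 : (chs n par v₀).filter (· ∈ T.erase v₀) = (chs n par v₀).filter (· ∈ T) := by
        refine filter_congr fun c hc => ?_
        rw [mem_chs] at hc
        have hcv : c ≠ v₀ := by
          have := hpar c hc.2.1 hc.1
          rw [hc.2.2] at this
          exact this.ne'
        rw [mem_erase]
        exact ⟨fun h => h.2, fun h => ⟨hcv, h⟩⟩
      have e2 : (1 ≤ v₀ ∧ par v₀ ∈ T.erase v₀) ↔ (1 ≤ v₀ ∧ par v₀ ∈ T) := by
        constructor
        · rintro ⟨h1, h2⟩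
          exact ⟨h1, (mem_erase.mp h2).2⟩
        · rintro ⟨h1, h2⟩
          exact ⟨h1, mem_erase.mpr ⟨(hpar v₀ h1 hvn).ne, h2⟩⟩
      rw [e1, if_congr e2 rfl rfl]
    refine ⟨f', fun i hi => ?_, k2, fun x hx hxW => ?_, k5 (by rw [hw]; exact heven)⟩
    · rw [k1 i (hWT' hi), g1 i hi]
    · by_cases hx' : x ∈ items par (T.erase v₀)
      · rw [late2_val k1 hx']
        exact g3 x hx' hxW
      · exact k3 x hx hx'

end SSB
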