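import Pool.Agent.Lib.MP_8a819d_co.AT.PackSt
import Pool.Agent.Lib.MP_8a819d_co.AT.Late2
import Pool.Agent.Lib.MP_8a819d_co.AT.Cnt

/-!
# MP_8a819d_co, trees with many non-leaves: packing followed by the late vertices

JOB PackLate (all of this file).

Order of the constants: `Δ, ζ, β` give `l` and the reserves `R N`; then `K, C, p₀` give `γ`; then `g₀, c₁, b` give `N₂`. `PkCfg` is the configuration of
PackSt.lean.

PROOF. `l, R, N₁` from `late2 Δ ζ β`. Given `K, C, p₀`: `γ` from `PackSt e` with `K, C, l/2, p₀`; then `N₀`; `N₂ = max N₀ N₁`. `PackSt` gives `Cv, f₁`.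
`W = B ∪ Cv`. The values of `items par W`: those of `items par B` (`val_items`: `f₁ = f₀` on `B`) are in `[1, N]` and not in `R N`; the other ones are in `Q`, and
`Q ⊆ Icc 1 N` is disjoint from `R N`. `T \ W ⊆ (T \ (B ∪ Z)) ∪ (Z \ Cv)` has at most `(l/2) N + (l/2) N` elements, all outside `B`, so of
degree `≤ Δ`. `late2` gives `f`. New items (`x ∈ items par T`, `x ∉ items par B`): either `x ∈ items par W` (value in `Q`; `f = f₁` on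
`W`) or not (value in `R N`). `v₀ ∈ T \ (B ∪ Z)` is in `T \ W`.
-/

set_option autoImplicit false

namespace SSB

open Finset

theorem pack_late (e : Bool) (hP : PackSt e) (Δ : ℕ) (ζ β : ℝ) (hζ : 0 < ζ)
    (hζ1 : ζ * (16 * (Δ + 1)) ≤ 1) (hβ : 0 < β) :
    ∃ (l : ℝ) (R : ℕ → Finset ℕ) (N₁ : ℕ), 0 < l ∧
      (∀ N : ℕ, N₁ ≤ N → (∀ x ∈ R N, ζ * N < x ∧ x ≤ N) ∧ ((R N).card : ℝ) ≤ β * N) ∧
      ∀ (K : ℕ) (C p₀ : ℝ), 0 < C → 0 < p₀ → ∃ γ : ℝ, 0 < γ ∧ ∀ g₀ c₁ b : ℕ, 1 ≤ b →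
      ∃ N₂ : ℕ, ∀ N : ℕ, N₂ ≤ N →
      ∀ (n : ℕ) (par : ℕ → ℕ) (G B Z Q T : Finset ℕ) (f₀ : ℕ → ℕ) (Dom : ℕ → Finset ℕ)
        (mu : ℕ → ℕ → ℝ) (kr : ℕ → ℕ → ℕ → ℝ),
        PkCfg e g₀ c₁ b γ p₀ C K n N par G B Z Q f₀ Dom mu kr →
        B ⊆ T → Z ⊆ T → T ⊆ range n → Disjoint Q (R N) →
        (∀ x ∈ items par B, val par f₀ x ≤ N ∧ val par f₀ x ∉ R N) →
        (∀ v ∈ T \ B, pdeg n par v ≤ Δ) →
        (((T \ (B ∪ Z)).card : ℕ) : ℝ) ≤ l / 2 * N →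
        (∃ f : ℕ → ℕ, (∀ x ∈ B, f x = f₀ x) ∧ Set.InjOn (val par f) (items par T) ∧
          ∀ x ∈ items par T, x ∉ items par B → val par f x ∈ Q ∨ val par f x ∈ R N) ∧
        (∀ v₀ ∈ T \ (B ∪ Z), wdeg n par T v₀ % 2 = 0 → ∀ b' : ℕ,
          ∃ f : ℕ → ℕ, (∀ x ∈ B, f x = f₀ x) ∧ Set.InjOn (val par f) (items par T) ∧
            (∀ x ∈ items par T, x ∉ items par B → val par f x ∈ Q ∨ val par f x ∈ R N) ∧
            (∑ x ∈ items par T, val par f x + b') % 2 = 0) := by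
  classical
  obtain ⟨l, R, N₁, hl, hR⟩ := late2 Δ ζ β hζ hζ1 hβ
  refine ⟨l, R, N₁, hl, fun N hN => ⟨(hR N hN).1, (hR N hN).2.1⟩, ?_⟩
  intro K C p₀ hC hp₀
  obtain ⟨γ, hγ, hPγ⟩ := hP K C (l / 2) p₀ hC (by positivity) hp₀
  refine ⟨γ, hγ, ?_⟩
  intro g₀ c₁ b hb
  obtain ⟨N₀, hN₀⟩ := hPγ g₀ c₁ b hb
  refine ⟨max N₀ N₁, ?_⟩
  intro N hN n par G B Z Q T f₀ Dom mu kr cfg hBT hZT hT hQR hvB hdeg hcard
  obtain ⟨Cv, f₁, hCvZ, -, hf1, hinj1, hval1, hcv⟩ :=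
    hN₀ N (le_trans (le_max_left _ _) hN) n par G B Z Q f₀ Dom mu kr cfg
  obtain ⟨-, -, hR3⟩ := hR N (le_trans (le_max_right _ _) hN)
  have hWT : B ∪ Cv ⊆ T := union_subset hBT (hCvZ.trans hZT)
  have hvalB : ∀ x ∈ items par B, val par f₁ x = val par f₀ x := fun x hx => val_items hf1 hx
  have hW : ∀ x ∈ items par (B ∪ Cv), 1 ≤ val par f₁ x ∧ val par f₁ x ≤ N ∧ val par f₁ x ∉ R N := by
    intro x hx
    by_cases hxB : x ∈ items par B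
    · rw [hvalB x hxB]
      exact ⟨(cfg.valB x hxB).1, (hvB x hxB).1, (hvB x hxB).2⟩
    · have hq := hval1 x hx hxB
      have hqN := mem_Icc.mp (cfg.QN hq)
      exact ⟨hqN.1, hqN.2, fun h => (disjoint_left.mp hQR) hq h⟩
  have hdegW : ∀ v ∈ T \ (B ∪ Cv), pdeg n par v ≤ Δ := by
    intro v hv
    rw [mem_sdiff, mem_union, not_or] at hv
    exact hdeg v (mem_sdiff.mpr ⟨hv.1, hv.2.1⟩)
  have hsub : T \ (B ∪ Cv) ⊆ (T \ (B ∪ Z)) ∪ (Z \ Cv) := by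
    intro v hv
    rw [mem_sdiff, mem_union, not_or] at hv
    rw [mem_union, mem_sdiff, mem_sdiff, mem_union, not_or]
    by_cases hz : v ∈ Z
    · exact Or.inr ⟨hz, hv.2.2⟩
    · exact Or.inl ⟨hv.1, hv.2.1, hz⟩
  have hc : (((T \ (B ∪ Cv)).card : ℕ) : ℝ) ≤ l * N := by
    have h1 : ((T \ (B ∪ Cv)).card : ℝ) ≤ ((T \ (B ∪ Z)).card : ℝ) + ((Z \ Cv).card : ℝ) := by
      exact_mod_cast (card_le_card hsub).trans (card_union_le _ _)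
    have h2 : l / 2 * (N : ℝ) + l / 2 * (N : ℝ) = l * N := by ring
    linarith
  obtain ⟨A1, A2⟩ := hR3 n par cfg.isP T (B ∪ Cv) f₁ hWT hT hdegW hinj1 hW hc
  have key : ∀ f : ℕ → ℕ, (∀ i ∈ B ∪ Cv, f i = f₁ i) →
      (∀ x ∈ items par T, x ∉ items par (B ∪ Cv) → val par f x ∈ R N) →
      (∀ x ∈ B, f x = f₀ x) ∧
        ∀ x ∈ items par T, x ∉ items par B → val par f x ∈ Q ∨ val par f x ∈ R N := by
    intro f hf hfR
    refine ⟨fun x hx => ?_, fun x hx hxB => ?_⟩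
    · rw [hf x (mem_union_left _ hx), hf1 x hx]
    · by_cases hxW : x ∈ items par (B ∪ Cv)
      · left
        rw [val_items hf hxW]
        exact hval1 x hxW hxB
      · exact Or.inr (hfR x hx hxW)
  refine ⟨?_, ?_⟩
  · obtain ⟨f, hf, hinj, hfR⟩ := A1
    obtain ⟨k1, k2⟩ := key f hf hfR
    exact ⟨f, k1, hinj, k2⟩
  · intro v₀ hv₀ heven b'
    have hv₀' : v₀ ∈ T \ (B ∪ Cv) := by
      rw [mem_sdiff, mem_union, not_or] at hv₀ ⊢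
      exact ⟨hv₀.1, hv₀.2.1, fun h => hv₀.2.2 (hCvZ h)⟩
    obtain ⟨f, hf, hinj, hfR, hpar⟩ := A2 v₀ hv₀' heven b'
    obtain ⟨k1, k2⟩ := key f hf hfR
    exact ⟨f, k1, hinj, k2, hpar⟩

end SSB
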