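import Pool.Agent.Lib.MP_8a819d_co.AT.G0

/-!
# MP_8a819d_co, trees with many non-leaves: the flexible leaves, 2. Median moves

JOB G2 (all of this file; read `K0.lean`, `G0.lean` first; start auxiliary lemma names with `G2_`).

PROOF of `med`. If `G = ∅` take `m = 0`, `σ = 0`. Otherwise let `y₀ ∈ G` have the smallest `h y₀` among the `y₀ ∈ G` with
`|G| ≤ 2 #{y ∈ G : h y ≤ h y₀}` (such `y₀` exist: the maximum of `h` on `G`), `m = h y₀`, `A = {y ∈ G : m < h y}`,
`B = {h y < m}`, `E = {h y = m}`. Then `2 |A| ≤ |G|`, and `2 |B| ≤ |G|`: if `B ≠ ∅` let `y₁ ∈ B` have the largest value,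
`B = {h y ≤ h y₁}`, and `|G| > 2 |B|` by the minimality. As `|A| + |B| + |E| = |G|`: `|A| ≤ |B| + |E|` and
`|B| ≤ |A| + |E|`, so `||B| - |A|| ≤ |E|`. Put `σ = 1` on `A`, `-1` on `B`, `(|B| - |A|)/|E|` on `E` (`|E| ≥ 1`), `0` outside `G`.
Then `∑ σ = 0` and `∑ σ h = ∑ σ (h - m) = ∑ |h - m|`.

PROOF of `moveA`. For each `x` apply `med` to `G x = (range (N+1)).filter (fun y => (x, y) ∈ Gd N Q X)` and
`h y = φ y + φ (dd x y)` (choice of `m x`, `σ x`); `D x y = σ x y`. The last claim: `II` is a sum over `Gd ⊆ Q ×ˢ Q`, to be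
written as the double sum over `x, y ∈ range (N+1)` (`Gd N Q X ⊆ range (N+1) ×ˢ range (N+1)` by `hQ`).
-/

set_option autoImplicit false

namespace SSB

open Finset

theorem med (G : Finset ℕ) (h : ℕ → ℝ) : ∃ (m : ℝ) (σ : ℕ → ℝ), (∀ y, |σ y| ≤ 1) ∧ (∀ y, y ∉ G → σ y = 0) ∧
    ∑ y ∈ G, σ y = 0 ∧ ∑ y ∈ G, σ y * h y = ∑ y ∈ G, |h y - m| := by
  classical
  rcases G.eq_empty_or_nonempty with rfl | hG
  · exact ⟨0, fun _ => 0, by simp, by simp, by simp, by simp⟩
  obtain ⟨ym, hym, hmax⟩ := G.exists_max_image h hG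
  have hS : (G.filter (fun y0 => G.card ≤ 2 * (G.filter (fun y => h y ≤ h y0)).card)).Nonempty := by
    refine ⟨ym, mem_filter.2 ⟨hym, ?_⟩⟩
    rw [filter_true_of_mem hmax]
    omega
  obtain ⟨y₀, hy₀, hmin⟩ := exists_min_image _ h hS
  rw [mem_filter] at hy₀
  obtain ⟨m, hm⟩ : ∃ m, m = h y₀ := ⟨_, rfl⟩
  rw [← hm] at hy₀ hmin
  have c1 : (G.filter (fun y => m < h y)).card + (G.filter (fun y => h y ≤ m)).card = G.card := by
    have := card_filter_add_card_filter_not (s := G) (fun y => m < h y)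
    simp only [not_lt] at this
    exact this
  have c2 : (G.filter (fun y => h y < m)).card + (G.filter (fun y => h y = m)).card =
      (G.filter (fun y => h y ≤ m)).card := by
    rw [← card_union_of_disjoint]
    · congr 1
      ext y
      simp only [mem_union, mem_filter]
      constructor
      · rintro (⟨h1, h2⟩ | ⟨h1, h2⟩)
        · exact ⟨h1, h2.le⟩
        · exact ⟨h1, h2.le⟩
      · rintro ⟨h1, h2⟩
        rcases lt_or_eq_of_le h2 with h3 | h3
        · exact Or.inl ⟨h1, h3⟩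
        · exact Or.inr ⟨h1, h3⟩
    · rw [disjoint_left]
      intro y h1 h2
      exact absurd (mem_filter.1 h2).2 (mem_filter.1 h1).2.ne
  have cE : 1 ≤ (G.filter (fun y => h y = m)).card :=
    card_pos.2 ⟨y₀, mem_filter.2 ⟨hy₀.1, hm.symm⟩⟩
  have cB : 2 * (G.filter (fun y => h y < m)).card ≤ G.card := by
    rcases (G.filter (fun y => h y < m)).eq_empty_or_nonempty with he | hne
    · rw [he]
      simp
    · obtain ⟨y₁, hy₁, hmax₁⟩ := exists_max_image _ h hne
      rw [mem_filter] at hy₁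
      have hBe : G.filter (fun y => h y < m) = G.filter (fun y => h y ≤ h y₁) := by
        ext y
        rw [mem_filter, mem_filter]
        constructor
        · rintro ⟨h1, h2⟩
          exact ⟨h1, hmax₁ y (mem_filter.2 ⟨h1, h2⟩)⟩
        · rintro ⟨h1, h2⟩
          exact ⟨h1, lt_of_le_of_lt h2 hy₁.2⟩
      rw [hBe]
      by_contra hc
      have h1 := hmin y₁ (mem_filter.2 ⟨hy₁.1, by omega⟩)
      exact absurd hy₁.2 (not_lt.2 h1)
  obtain ⟨a, ha⟩ : ∃ a, a = (G.filter (fun y => m < h y)).card := ⟨_, rfl⟩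
  obtain ⟨b, hb⟩ : ∃ b, b = (G.filter (fun y => h y < m)).card := ⟨_, rfl⟩
  obtain ⟨e, he⟩ : ∃ e, e = (G.filter (fun y => h y = m)).card := ⟨_, rfl⟩
  have hab : (a : ℝ) ≤ b + e := by
    have : a ≤ b + e := by omega
    exact_mod_cast this
  have hba : (b : ℝ) ≤ a + e := by
    have : b ≤ a + e := by omega
    exact_mod_cast this
  have he1 : (1 : ℝ) ≤ e := by
    have : 1 ≤ e := by omega
    exact_mod_cast this
  obtain ⟨c, hc⟩ : ∃ c : ℝ, c = ((b : ℝ) - a) / e := ⟨_, rfl⟩
  have hc1 : |c| ≤ 1 := by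
    rw [hc, abs_div, abs_of_pos (by linarith : (0 : ℝ) < e), div_le_one (by linarith), abs_le]
    constructor <;> linarith
  have hce : c * e = b - a := by
    rw [hc]
    field_simp
  have hsum : ∑ y ∈ G, (if m < h y then (1 : ℝ) else if h y < m then -1 else c) = 0 := by
    have h1 : ∀ y ∈ G, (if m < h y then (1 : ℝ) else if h y < m then -1 else c) =
        (if m < h y then (1 : ℝ) else 0) - (if h y < m then (1 : ℝ) else 0) +
          c * (if h y = m then (1 : ℝ) else 0) := by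
      intro y _
      rcases lt_trichotomy (h y) m with h2 | h2 | h2
      · rw [if_neg (not_lt.2 h2.le), if_pos h2, if_neg (not_lt.2 h2.le), if_pos h2, if_neg h2.ne]
        ring
      · rw [if_neg (by rw [h2]; exact lt_irrefl m), if_neg (by rw [h2]; exact lt_irrefl m),
          if_neg (by rw [h2]; exact lt_irrefl m), if_neg (by rw [h2]; exact lt_irrefl m), if_pos h2]
        ring
      · rw [if_pos h2, if_pos h2, if_neg (not_lt.2 h2.le), if_neg h2.ne']
        ring
    rw [sum_congr rfl h1, sum_add_distrib, sum_sub_distrib, ← mul_sum, sum_boole, sum_boole,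
      sum_boole, ← ha, ← hb, ← he, hce]
    ring
  refine ⟨m, fun y => if y ∈ G then (if m < h y then (1 : ℝ) else if h y < m then -1 else c) else 0,
    ?_, ?_, ?_, ?_⟩
  · intro y
    dsimp only
    split_ifs
    · simp
    · simp
    · exact hc1
    · simp
  · intro y hy
    dsimp only
    rw [if_neg hy]
  · rw [← hsum]
    exact sum_congr rfl fun y hy => if_pos hy
  · have h1 : ∀ y ∈ G, (if y ∈ G then (if m < h y then (1 : ℝ) else if h y < m then -1 else c)
        else 0) * h y = |h y - m| +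
          (if m < h y then (1 : ℝ) else if h y < m then -1 else c) * m := by
      intro y hy
      rw [if_pos hy]
      rcases lt_trichotomy (h y) m with h2 | h2 | h2
      · rw [if_neg (not_lt.2 h2.le), if_pos h2, abs_of_neg (by linarith)]
        ring
      · rw [if_neg (by rw [h2]; exact lt_irrefl m), if_neg (by rw [h2]; exact lt_irrefl m), h2,
          sub_self, abs_zero, zero_add]
      · rw [if_pos h2, abs_of_pos (by linarith)]
        ring
    rw [sum_congr rfl h1, sum_add_distrib, ← sum_mul, hsum, zero_mul, add_zero]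

theorem moveA {N : ℕ} {Q : Finset ℕ} (X : Finset ℕ) (hQ : Q ⊆ Icc 1 N) (φ : ℕ → ℝ) :
    ∃ (m : ℕ → ℝ) (D : ℕ → ℕ → ℝ), (∀ x y, |D x y| ≤ 1) ∧ (∀ x y, D x y ≠ 0 → (x, y) ∈ Gd N Q X) ∧
      (∀ x, ∑ y ∈ range (N + 1), D x y = 0) ∧
      ∑ x ∈ range (N + 1), ∑ y ∈ range (N + 1), D x y * (φ y + φ (dd x y)) = II N Q X φ m := by
  classical
  choose m σ h1 h2 h3 h4 using fun x => med ((range (N + 1)).filter (fun y => (x, y) ∈ Gd N Q X))
    (fun y => φ y + φ (dd x y))
  have hz : ∀ x y, (x, y) ∉ Gd N Q X → σ x y = 0 := fun x y hxy =>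
    h2 x y fun hy => hxy (mem_filter.1 hy).2
  refine ⟨m, σ, h1, ?_, ?_, ?_⟩
  · intro x y hxy
    by_contra hc
    exact hxy (hz x y hc)
  · intro x
    rw [← h3 x]
    symm
    refine sum_subset (filter_subset _ _) fun y hy hy' => ?_
    exact h2 x y hy'
  · have hsub : Gd N Q X ⊆ range (N + 1) ×ˢ range (N + 1) := by
      rintro ⟨x, y⟩ hp
      obtain ⟨⟨hx, hy⟩, -⟩ := mem_Gd.1 hp
      have hx' := mem_Icc.1 (hQ hx)
      have hy' := mem_Icc.1 (hQ hy)
      exact mem_product.2 ⟨mem_range.2 (by omega), mem_range.2 (by omega)⟩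
    have e1 : II N Q X φ m = ∑ p ∈ range (N + 1) ×ˢ range (N + 1),
        if p ∈ Gd N Q X then |φ p.2 + φ (dd p.1 p.2) - m p.1| else 0 := by
      unfold II
      rw [← sum_filter]
      refine sum_congr ?_ fun _ _ => rfl
      ext p
      rw [mem_filter]
      exact ⟨fun hp => ⟨hsub hp, hp⟩, fun hp => hp.2⟩
    rw [e1, sum_product]
    refine sum_congr rfl fun x _ => ?_
    have e2 : ∑ y ∈ range (N + 1), σ x y * (φ y + φ (dd x y)) =
        ∑ y ∈ (range (N + 1)).filter (fun y => (x, y) ∈ Gd N Q X),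
          σ x y * (φ y + φ (dd x y)) := by
      symm
      refine sum_subset (filter_subset _ _) fun y hy hy' => ?_
      rw [h2 x y hy', zero_mul]
    rw [e2, h4 x, sum_filter]

end SSB
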