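import Pool.Agent.Lib.MP_8a819d_co.AT.G0

/-!
# MP_8a819d_co, trees with many non-leaves: the flexible leaves, 3. Moves to a small set

JOB G3a: `Rz_card`, `Gx_card`. JOB G3b: `moveB` (using the two counting theorems).
(Read `K0.lean`, `G0.lean` first; start auxiliary lemma names with `G3a_`, `G3b_`.)

* `Rz_card`: `z ∈ Q`. The integers `x` with `N ≤ 2 x ≤ 2 N` are at least `N/2` in number (`cntI`, `p = 50`, `q = 100`); such
  an `x` is in `Rz` unless `x ∈ Zb` (at most `|Z|`, `cnt1`) or `dd x z ∈ Zb` (at most `2 |Z|`, `cnt1` for `x ≥ z` and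
  for `x < z`); `Zb_card`, `mem_Zb`.
* `Gx_card`: `x ∈ Q \ X`, `N ≤ 2 x`. The integers `y` with `51 N ≤ 100 y ≤ 100 N` are at least `0.49 N - 1`; `x + y > N`,
  `10 y ≥ N`; `y ∈ Zb` for at most `|Z|`, `dd x y ∈ Zb` for at most `2 |Z|` of them.
* `moveB`: `ρ z = |Rz z| ≥ N/3`, `γ x = |Gx x| ≥ N/3`. For `x ∈ Q \ X`, `N ≤ 2 x` let `M x = ∑ z ∈ P with x ∈ Rz z, 1/ρ z`,
  and `M x = 0` for all other `x` (so always `0 ≤ M x ≤ 3 |P| / N ≤ 3 σ`), and
  `D x y = (if y ∈ P ∧ x ∈ Rz y then 1/ρ y else 0) - (if y ∈ Gx x then M x / γ x else 0)`.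
  - `D x y ≤ 1/ρ y ≤ 3/N`; `-D x y ≤ M x / γ x ≤ 9 σ / N`, and `D x y < 0` only if `M x ≠ 0` (so `x ∈ Q \ X`, `N ≤ 2 x`) and
    `y ∈ Gx x`, so `(x, y) ∈ Gd`.
  - row sums: `∑ y ∈ range (N+1), (...)`: the first part gives `M x`, the second `γ x * (M x / γ x) = M x`.
  - gain: first part `∑ z ∈ P, (1/ρ z) ∑ x ∈ Rz z, (ψ z + ψ (dd x z)) ≥ ∑ z ∈ P, ψ z - ∑ z ∈ P, (3/N) ∑ x ∈ Rz z, |ψ (dd x z)|`
    and `∑ x ∈ Rz z, |ψ (dd x z)| ≤ 2 ‖ψ‖`, `‖ψ‖ = ∑ z ∈ Q, |ψ z|` (`mult_sum` with `π x = dd x z ∈ Q`, `ρ x = ` whether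
    `z ≤ x`): at least `∑ z ∈ P, ψ z - 6 σ ‖ψ‖`. Second part:
    `∑ x, (M x/γ x) ∑ y ∈ Gx x, (|ψ y| + |ψ (dd x y)|) ≤ (9 σ / N) ∑ x ∈ Q, ∑ y ∈ Gx x, (|ψ y| + |ψ (dd x y)|)`
    `≤ (9 σ / N) (N ‖ψ‖ + 2 N ‖ψ‖) = 27 σ ‖ψ‖` (for each `x ∈ Q`, `|Q| ≤ N`, the inner sum is at most `‖ψ‖ + 2 ‖ψ‖`, `mult_sum`).
-/

set_option autoImplicit false

namespace SSB

open Finset

/-- the rows that can be used for the label `z` -/
def Rz (N : ℕ) (Q X : Finset ℕ) (z : ℕ) : Finset ℕ := Q.filter (fun x => x ∉ X ∧ N ≤ 2 * x ∧ dd x z ∈ Q)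

/-- the good labels of the row `x` -/
def Gx (N : ℕ) (Q X : Finset ℕ) (x : ℕ) : Finset ℕ := Q.filter (fun y => (x, y) ∈ Gd N Q X)

/-- the parameters with `x` and `dd x z` not bad -/
private theorem G3a_count {N : ℕ} {Q X : Finset ℕ} (S : Finset ℕ) (z : ℕ) :
    S.card ≤ (S.filter (fun x => x ∉ Zb N Q X ∧ dd x z ∉ Zb N Q X)).card + 3 * (Zb N Q X).card := by
  have h0 : S ⊆ (S.filter (fun x => x ∉ Zb N Q X ∧ dd x z ∉ Zb N Q X)) ∪
      ((S.filter (fun x => x ∈ Zb N Q X)) ∪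
        (((S.filter (fun x => z ≤ x)).filter (fun x => x - z ∈ Zb N Q X)) ∪
          ((S.filter (fun x => x < z)).filter (fun x => z - x ∈ Zb N Q X)))) := by
    intro x hx
    rw [mem_union, mem_union, mem_union, mem_filter, mem_filter, mem_filter, mem_filter, mem_filter,
      mem_filter]
    by_cases h1 : x ∈ Zb N Q X
    · exact Or.inr (Or.inl ⟨hx, h1⟩)
    · by_cases h2 : dd x z ∈ Zb N Q X
      · right; right
        rcases le_or_gt z x with h3 | h3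
        · left
          have h4 : dd x z = x - z := by unfold dd; omega
          rw [h4] at h2
          exact ⟨⟨hx, h3⟩, h2⟩
        · right
          have h4 : dd x z = z - x := by unfold dd; omega
          rw [h4] at h2
          exact ⟨⟨hx, h3⟩, h2⟩
      · exact Or.inl ⟨hx, h1, h2⟩
  have h1 := card_le_card h0
  have h2 := card_union_le (S.filter (fun x => x ∉ Zb N Q X ∧ dd x z ∉ Zb N Q X))
      ((S.filter (fun x => x ∈ Zb N Q X)) ∪
        (((S.filter (fun x => z ≤ x)).filter (fun x => x - z ∈ Zb N Q X)) ∪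
          ((S.filter (fun x => x < z)).filter (fun x => z - x ∈ Zb N Q X))))
  have h3 := card_union_le (S.filter (fun x => x ∈ Zb N Q X))
        (((S.filter (fun x => z ≤ x)).filter (fun x => x - z ∈ Zb N Q X)) ∪
          ((S.filter (fun x => x < z)).filter (fun x => z - x ∈ Zb N Q X)))
  have h4 := card_union_le ((S.filter (fun x => z ≤ x)).filter (fun x => x - z ∈ Zb N Q X))
          ((S.filter (fun x => x < z)).filter (fun x => z - x ∈ Zb N Q X))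
  have h5 := cnt1 (N := N) (Q := Q) (X := X) S (fun x => x) (fun t _ t' _ h => h)
  have h6 := cnt1 (N := N) (Q := Q) (X := X) (S.filter (fun x => z ≤ x)) (fun x => x - z) (by
    intro t ht t' ht' h
    have a1 := (mem_filter.1 ht).2
    have a2 := (mem_filter.1 ht').2
    have a3 : t - z = t' - z := h
    omega)
  have h7 := cnt1 (N := N) (Q := Q) (X := X) (S.filter (fun x => x < z)) (fun x => z - x) (by
    intro t ht t' ht' h
    have a1 := (mem_filter.1 ht).2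
    have a2 := (mem_filter.1 ht').2
    have a3 : z - t = z - t' := h
    omega)
  omega

theorem Rz_card {N : ℕ} {Q X : Finset ℕ} (h : KX N Q X) {z : ℕ} (hz : z ∈ Q) :
    (N : ℝ) / 3 ≤ (Rz N Q X z).card := by
  have hzN := mem_Icc.1 (h.sub hz)
  have h1 := cntI (N := N) (p := 50) (q := 100) (by norm_num)
  have h2 := G3a_count (N := N) (Q := Q) (X := X)
    ((range (100 * N + 1)).filter (fun x => 50 * N ≤ 100 * x ∧ 100 * x ≤ 100 * N)) z
  have h3 : ((range (100 * N + 1)).filter (fun x => 50 * N ≤ 100 * x ∧ 100 * x ≤ 100 * N)).filter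
      (fun x => x ∉ Zb N Q X ∧ dd x z ∉ Zb N Q X) ⊆ Rz N Q X z := by
    intro x hx
    rw [mem_filter, mem_filter] at hx
    obtain ⟨⟨-, a1, a2⟩, a3, a4⟩ := hx
    have a5 := (mem_Zb (by omega)).1 a3
    have a6 := (mem_Zb (by unfold dd; omega)).1 a4
    unfold Rz
    rw [mem_filter]
    exact ⟨a5.1, a5.2, by omega, a6.1⟩
  have h4 := card_le_card h3
  have h5 : ((((range (100 * N + 1)).filter (fun x => 50 * N ≤ 100 * x ∧ 100 * x ≤ 100 * N)).card : ℕ) : ℝ)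
      ≤ (Rz N Q X z).card + 3 * (Zb N Q X).card := by
    exact_mod_cast h2.trans (Nat.add_le_add_right h4 _)
  have h6 := Zb_card h
  have h7 : (10 : ℝ) ^ 9 ≤ N := by exact_mod_cast h.big
  have h8 : (((100 - 50 : ℕ)) : ℝ) / 100 * N = N / 2 := by
    norm_num
    ring
  rw [h8] at h1
  linarith

theorem Gx_card {N : ℕ} {Q X : Finset ℕ} (h : KX N Q X) {x : ℕ} (hx : x ∈ Q) (hX : x ∉ X)
    (hN : N ≤ 2 * x) : (N : ℝ) / 3 ≤ (Gx N Q X x).card := by
  have hzN := mem_Icc.1 (h.sub hx)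
  have hbig := h.big
  have h1 := cntI (N := N) (p := 51) (q := 100) (by norm_num)
  have h2 := G3a_count (N := N) (Q := Q) (X := X)
    ((range (100 * N + 1)).filter (fun x => 51 * N ≤ 100 * x ∧ 100 * x ≤ 100 * N)) x
  have h3 : ((range (100 * N + 1)).filter (fun x => 51 * N ≤ 100 * x ∧ 100 * x ≤ 100 * N)).filter
      (fun y => y ∉ Zb N Q X ∧ dd y x ∉ Zb N Q X) ⊆ Gx N Q X x := by
    intro y hy
    rw [mem_filter, mem_filter] at hy
    obtain ⟨⟨-, a1, a2⟩, a3, a4⟩ := hy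
    have a5 := (mem_Zb (by omega)).1 a3
    have a6 := (mem_Zb (by unfold dd; omega)).1 a4
    unfold Gx
    rw [mem_filter, mem_Gd, dd_comm]
    exact ⟨a5.1, ⟨hx, a5.1⟩, hX, a6.1, by omega, by omega, by omega⟩
  have h4 := card_le_card h3
  have h5 : ((((range (100 * N + 1)).filter (fun x => 51 * N ≤ 100 * x ∧ 100 * x ≤ 100 * N)).card : ℕ) : ℝ)
      ≤ (Gx N Q X x).card + 3 * (Zb N Q X).card := by
    exact_mod_cast h2.trans (Nat.add_le_add_right h4 _)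
  have h6 := Zb_card h
  have h7 : (10 : ℝ) ^ 9 ≤ N := by exact_mod_cast h.big
  have h8 : (((100 - 51 : ℕ)) : ℝ) / 100 * N = 49 / 100 * N := by
    norm_num
  rw [h8] at h1
  linarith

/-- the first part of the move -/
noncomputable def G3b_A (N : ℕ) (Q X P : Finset ℕ) (x y : ℕ) : ℝ :=
  if y ∈ P ∧ x ∈ Rz N Q X y then 1 / ((Rz N Q X y).card : ℝ) else 0

/-- the row sum of the first part -/
noncomputable def G3b_M (N : ℕ) (Q X P : Finset ℕ) (x : ℕ) : ℝ := ∑ y ∈ P, G3b_A N Q X P x y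

/-- the second part of the move -/
noncomputable def G3b_B (N : ℕ) (Q X P : Finset ℕ) (x y : ℕ) : ℝ :=
  if y ∈ Gx N Q X x then G3b_M N Q X P x / ((Gx N Q X x).card : ℝ) else 0

theorem G3b_mem_Rz {N : ℕ} {Q X : Finset ℕ} {z x : ℕ} :
    x ∈ Rz N Q X z ↔ x ∈ Q ∧ x ∉ X ∧ N ≤ 2 * x ∧ dd x z ∈ Q := by
  unfold Rz
  rw [mem_filter]

theorem G3b_mem_Gx {N : ℕ} {Q X : Finset ℕ} {x y : ℕ} :
    y ∈ Gx N Q X x ↔ y ∈ Q ∧ (x, y) ∈ Gd N Q X := by
  unfold Gx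
  rw [mem_filter]

theorem G3b_A_nonneg (N : ℕ) (Q X P : Finset ℕ) (x y : ℕ) : 0 ≤ G3b_A N Q X P x y := by
  unfold G3b_A
  split_ifs
  · positivity
  · exact le_rfl

theorem G3b_M_nonneg (N : ℕ) (Q X P : Finset ℕ) (x : ℕ) : 0 ≤ G3b_M N Q X P x :=
  sum_nonneg fun _ _ => G3b_A_nonneg _ _ _ _ _ _

theorem G3b_B_nonneg (N : ℕ) (Q X P : Finset ℕ) (x y : ℕ) : 0 ≤ G3b_B N Q X P x y := by
  unfold G3b_B
  split_ifs
  · exact div_nonneg (G3b_M_nonneg _ _ _ _ _) (Nat.cast_nonneg _)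
  · exact le_rfl

theorem G3b_inv {N : ℕ} {Q X : Finset ℕ} (h : KX N Q X) {c : ℝ} (hc : (N : ℝ) / 3 ≤ c) :
    1 / c ≤ 3 / N := by
  have hN : (0 : ℝ) < N := by
    have : (10 : ℝ) ^ 9 ≤ N := by exact_mod_cast h.big
    linarith [show (0 : ℝ) < 10 ^ 9 by norm_num]
  have h1 : (0 : ℝ) < N / 3 := by positivity
  calc 1 / c ≤ 1 / ((N : ℝ) / 3) := one_div_le_one_div_of_le h1 hc
    _ = 3 / N := by field_simp

theorem G3b_A_le {N : ℕ} {Q X : Finset ℕ} (h : KX N Q X) {P : Finset ℕ} (hP : P ⊆ Q) (x y : ℕ) :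
    G3b_A N Q X P x y ≤ 3 / N := by
  unfold G3b_A
  split_ifs with h1
  · exact G3b_inv h (Rz_card h (hP h1.1))
  · positivity

theorem G3b_M_le {N : ℕ} {Q X : Finset ℕ} (h : KX N Q X) {P : Finset ℕ} (hP : P ⊆ Q) {σ : ℝ}
    (hPc : (P.card : ℝ) ≤ σ * N) (x : ℕ) : G3b_M N Q X P x ≤ 3 * σ := by
  have hN : (0 : ℝ) < N := by
    have : (10 : ℝ) ^ 9 ≤ N := by exact_mod_cast h.big
    linarith [show (0 : ℝ) < 10 ^ 9 by norm_num]
  unfold G3b_M
  have h1 : ∑ y ∈ P, G3b_A N Q X P x y ≤ P.card • ((3 : ℝ) / N) :=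
    sum_le_card_nsmul _ _ _ fun y _ => G3b_A_le h hP x y
  rw [nsmul_eq_mul] at h1
  have h2 : (P.card : ℝ) * (3 / N) ≤ (σ * N) * (3 / N) := mul_le_mul_of_nonneg_right hPc (by positivity)
  have h3 : (σ * N) * (3 / N) = 3 * σ := by field_simp
  linarith

theorem G3b_M_ne {N : ℕ} {Q X P : Finset ℕ} {x : ℕ} (hM : G3b_M N Q X P x ≠ 0) :
    x ∈ Q ∧ x ∉ X ∧ N ≤ 2 * x := by
  unfold G3b_M at hM
  obtain ⟨y, _, hy⟩ := exists_ne_zero_of_sum_ne_zero hM
  unfold G3b_A at hy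
  have h1 : y ∈ P ∧ x ∈ Rz N Q X y := by
    by_contra h'
    exact hy (if_neg h')
  have h2 := G3b_mem_Rz.1 h1.2
  exact ⟨h2.1, h2.2.1, h2.2.2.1⟩

theorem G3b_B_le {N : ℕ} {Q X : Finset ℕ} (h : KX N Q X) {P : Finset ℕ} (hP : P ⊆ Q) {σ : ℝ}
    (hσ : 0 ≤ σ) (hPc : (P.card : ℝ) ≤ σ * N) (x y : ℕ) : G3b_B N Q X P x y ≤ 9 * σ / N := by
  have hN : (0 : ℝ) < N := by
    have : (10 : ℝ) ^ 9 ≤ N := by exact_mod_cast h.big
    linarith [show (0 : ℝ) < 10 ^ 9 by norm_num]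
  unfold G3b_B
  split_ifs with h1
  · by_cases hM : G3b_M N Q X P x = 0
    · rw [hM, zero_div]
      positivity
    · obtain ⟨h2, h3, h4⟩ := G3b_M_ne hM
      have h5 := G3b_inv h (Gx_card h h2 h3 h4)
      have h6 := G3b_M_le h hP hPc x
      calc G3b_M N Q X P x / ((Gx N Q X x).card : ℝ)
          = G3b_M N Q X P x * (1 / ((Gx N Q X x).card : ℝ)) := by rw [mul_one_div]
        _ ≤ (3 * σ) * (3 / N) := mul_le_mul h6 h5 (by positivity) (by positivity)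
        _ = 9 * σ / N := by ring
  · positivity

theorem G3b_sub {N : ℕ} {Q X : Finset ℕ} (h : KX N Q X) : Q ⊆ range (N + 1) := by
  intro z hz
  have := mem_Icc.1 (h.sub hz)
  rw [mem_range]
  omega

theorem G3b_A_row {N : ℕ} {Q X : Finset ℕ} (h : KX N Q X) {P : Finset ℕ} (hP : P ⊆ Q) (x : ℕ) :
    ∑ y ∈ range (N + 1), G3b_A N Q X P x y = G3b_M N Q X P x := by
  unfold G3b_M
  refine (sum_subset (hP.trans (G3b_sub h)) ?_).symm
  intro y _ hy
  unfold G3b_A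
  exact if_neg fun h' => hy h'.1

theorem G3b_B_row {N : ℕ} {Q X : Finset ℕ} (h : KX N Q X) (P : Finset ℕ) (x : ℕ) :
    ∑ y ∈ range (N + 1), G3b_B N Q X P x y = G3b_M N Q X P x := by
  have hN : (0 : ℝ) < N := by
    have : (10 : ℝ) ^ 9 ≤ N := by exact_mod_cast h.big
    linarith [show (0 : ℝ) < 10 ^ 9 by norm_num]
  have h1 : Gx N Q X x ⊆ range (N + 1) := by
    intro y hy
    exact G3b_sub h (G3b_mem_Gx.1 hy).1
  have h2 : ∑ y ∈ range (N + 1), G3b_B N Q X P x y =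
      ∑ y ∈ Gx N Q X x, G3b_M N Q X P x / ((Gx N Q X x).card : ℝ) := by
    rw [← sum_subset h1]
    · refine sum_congr rfl fun y hy => ?_
      unfold G3b_B
      exact if_pos hy
    · intro y _ hy
      unfold G3b_B
      exact if_neg hy
  rw [h2, sum_const, nsmul_eq_mul]
  by_cases hM : G3b_M N Q X P x = 0
  · rw [hM, zero_div, mul_zero]
  · obtain ⟨h3, h4, h5⟩ := G3b_M_ne hM
    have h6 := Gx_card h h3 h4 h5
    have h7 : ((Gx N Q X x).card : ℝ) ≠ 0 := by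
      have : (0 : ℝ) < (Gx N Q X x).card := lt_of_lt_of_le (by positivity) h6
      exact this.ne'
    field_simp

theorem G3b_two {Q : Finset ℕ} (S : Finset ℕ) (z : ℕ) (hS : ∀ x ∈ S, dd x z ∈ Q) (ψ : ℕ → ℝ) :
    ∑ x ∈ S, |ψ (dd x z)| ≤ 2 * ∑ b ∈ Q, |ψ b| := by
  have h1 := mult_sum S Q (Finset.univ : Finset Bool) (fun x => dd x z) (fun x => decide (z ≤ x)) hS
    (fun _ _ => mem_univ _) (by
      intro t _ t' _ h1 h2
      have h3 : dd t z = dd t' z := h1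
      have h4 : (z ≤ t) ↔ (z ≤ t') := decide_eq_decide.1 h2
      unfold dd at h3
      by_cases h5 : z ≤ t
      · have h6 := h4.1 h5
        omega
      · have h6 : ¬ z ≤ t' := fun h7 => h5 (h4.2 h7)
        omega) (fun b => |ψ b|) (fun _ _ => abs_nonneg _)
  rw [Finset.card_univ, Fintype.card_bool] at h1
  exact_mod_cast h1

theorem G3b_gainA {N : ℕ} {Q X : Finset ℕ} (h : KX N Q X) {P : Finset ℕ} (hP : P ⊆ Q) {σ : ℝ}
    (hPc : (P.card : ℝ) ≤ σ * N) (ψ : ℕ → ℝ) :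
    ∑ z ∈ P, ψ z - 6 * σ * ∑ z ∈ Q, |ψ z| ≤
      ∑ x ∈ range (N + 1), ∑ y ∈ range (N + 1), G3b_A N Q X P x y * (ψ y + ψ (dd x y)) := by
  have hN : (0 : ℝ) < N := by
    have : (10 : ℝ) ^ 9 ≤ N := by exact_mod_cast h.big
    linarith [show (0 : ℝ) < 10 ^ 9 by norm_num]
  obtain ⟨S, hS⟩ : ∃ S, S = ∑ z ∈ Q, |ψ z| := ⟨_, rfl⟩
  have hS0 : 0 ≤ S := by rw [hS]; exact sum_nonneg fun _ _ => abs_nonneg _
  have h1 : ∑ x ∈ range (N + 1), ∑ y ∈ range (N + 1), G3b_A N Q X P x y * (ψ y + ψ (dd x y)) =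
      ∑ y ∈ P, ∑ x ∈ Rz N Q X y, 1 / ((Rz N Q X y).card : ℝ) * (ψ y + ψ (dd x y)) := by
    rw [sum_comm, ← sum_subset (hP.trans (G3b_sub h))]
    · refine sum_congr rfl fun y hy => ?_
      have h2 : Rz N Q X y ⊆ range (N + 1) := by
        intro x hx
        exact G3b_sub h (G3b_mem_Rz.1 hx).1
      rw [← sum_subset h2]
      · refine sum_congr rfl fun x hx => ?_
        unfold G3b_A
        rw [if_pos ⟨hy, hx⟩]
      · intro x _ hx
        unfold G3b_A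
        rw [if_neg fun h' => hx h'.2, zero_mul]
    · intro y _ hy
      refine sum_eq_zero fun x _ => ?_
      unfold G3b_A
      rw [if_neg fun h' => hy h'.1, zero_mul]
  have h2 : ∀ y ∈ P, ψ y - 6 * S / N ≤
      ∑ x ∈ Rz N Q X y, 1 / ((Rz N Q X y).card : ℝ) * (ψ y + ψ (dd x y)) := by
    intro y hy
    have h3 := Rz_card h (hP hy)
    have h4 : (0 : ℝ) < (Rz N Q X y).card := lt_of_lt_of_le (by positivity) h3
    have h5 : ∑ x ∈ Rz N Q X y, 1 / ((Rz N Q X y).card : ℝ) * (ψ y + ψ (dd x y)) =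
        ψ y + 1 / ((Rz N Q X y).card : ℝ) * ∑ x ∈ Rz N Q X y, ψ (dd x y) := by
      rw [← mul_sum, sum_add_distrib, sum_const, nsmul_eq_mul]
      field_simp
    have h6 : |∑ x ∈ Rz N Q X y, ψ (dd x y)| ≤ 2 * S := by
      rw [hS]
      exact (abs_sum_le_sum_abs _ _).trans
        (G3b_two _ _ (fun x hx => (G3b_mem_Rz.1 hx).2.2.2) ψ)
    have h7 : 1 / ((Rz N Q X y).card : ℝ) * |∑ x ∈ Rz N Q X y, ψ (dd x y)| ≤ 3 / N * (2 * S) :=
      mul_le_mul (G3b_inv h h3) h6 (abs_nonneg _) (by positivity)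
    have h8 : -(1 / ((Rz N Q X y).card : ℝ) * |∑ x ∈ Rz N Q X y, ψ (dd x y)|) ≤
        1 / ((Rz N Q X y).card : ℝ) * ∑ x ∈ Rz N Q X y, ψ (dd x y) := by
      rw [← mul_neg]
      exact mul_le_mul_of_nonneg_left (neg_abs_le _) (by positivity)
    have h9 : 3 / (N : ℝ) * (2 * S) = 6 * S / N := by ring
    rw [h5]
    linarith
  rw [h1, ← hS]
  have h3 := sum_le_sum h2
  rw [sum_sub_distrib, sum_const, nsmul_eq_mul] at h3
  have h4 : (P.card : ℝ) * (6 * S / N) ≤ (σ * N) * (6 * S / N) :=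
    mul_le_mul_of_nonneg_right hPc (by positivity)
  have h5 : (σ * N) * (6 * S / N) = 6 * σ * S := by field_simp
  linarith

theorem G3b_gainB {N : ℕ} {Q X : Finset ℕ} (h : KX N Q X) {P : Finset ℕ} (hP : P ⊆ Q) {σ : ℝ}
    (hσ : 0 ≤ σ) (hPc : (P.card : ℝ) ≤ σ * N) (ψ : ℕ → ℝ) :
    ∑ x ∈ range (N + 1), ∑ y ∈ range (N + 1), G3b_B N Q X P x y * (ψ y + ψ (dd x y)) ≤
      27 * σ * ∑ z ∈ Q, |ψ z| := by
  have hN : (0 : ℝ) < N := by
    have : (10 : ℝ) ^ 9 ≤ N := by exact_mod_cast h.big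
    linarith [show (0 : ℝ) < 10 ^ 9 by norm_num]
  obtain ⟨S, hS⟩ : ∃ S, S = ∑ z ∈ Q, |ψ z| := ⟨_, rfl⟩
  have hS0 : 0 ≤ S := by rw [hS]; exact sum_nonneg fun _ _ => abs_nonneg _
  have h1 : ∀ x, ∑ y ∈ range (N + 1), G3b_B N Q X P x y * (ψ y + ψ (dd x y)) ≤
      if x ∈ Q then 27 * σ * S / N else 0 := by
    intro x
    by_cases hx : x ∈ Q
    · rw [if_pos hx]
      have h2 : Gx N Q X x ⊆ range (N + 1) := by
        intro y hy
        exact G3b_sub h (G3b_mem_Gx.1 hy).1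
      rw [← sum_subset h2]
      · have h3 : ∀ y ∈ Gx N Q X x, G3b_B N Q X P x y * (ψ y + ψ (dd x y)) ≤
            9 * σ / N * (|ψ y| + |ψ (dd y x)|) := by
          intro y _
          have h4 : ψ y + ψ (dd x y) ≤ |ψ y| + |ψ (dd y x)| := by
            rw [dd_comm y x]
            exact add_le_add (le_abs_self _) (le_abs_self _)
          have h5 := G3b_B_nonneg N Q X P x y
          have h6 := G3b_B_le h hP hσ hPc x y
          calc G3b_B N Q X P x y * (ψ y + ψ (dd x y))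
              ≤ G3b_B N Q X P x y * (|ψ y| + |ψ (dd y x)|) := mul_le_mul_of_nonneg_left h4 h5
            _ ≤ 9 * σ / N * (|ψ y| + |ψ (dd y x)|) :=
              mul_le_mul_of_nonneg_right h6 (add_nonneg (abs_nonneg _) (abs_nonneg _))
        have h4 := sum_le_sum h3
        rw [← mul_sum, sum_add_distrib] at h4
        have h5 : ∑ y ∈ Gx N Q X x, |ψ y| ≤ S := by
          rw [hS]
          refine sum_le_sum_of_subset_of_nonneg ?_ fun _ _ _ => abs_nonneg _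
          intro y hy
          exact (G3b_mem_Gx.1 hy).1
        have h6 : ∑ y ∈ Gx N Q X x, |ψ (dd y x)| ≤ 2 * S := by
          rw [hS]
          refine G3b_two _ _ ?_ ψ
          intro y hy
          rw [dd_comm]
          exact (mem_Gd.1 (G3b_mem_Gx.1 hy).2).2.2.1
        have h7 : 9 * σ / (N : ℝ) * (∑ y ∈ Gx N Q X x, |ψ y| + ∑ y ∈ Gx N Q X x, |ψ (dd y x)|) ≤
            9 * σ / N * (3 * S) := mul_le_mul_of_nonneg_left (by linarith) (by positivity)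
        have h8 : 9 * σ / (N : ℝ) * (3 * S) = 27 * σ * S / N := by ring
        linarith
      · intro y _ hy
        unfold G3b_B
        rw [if_neg hy, zero_mul]
    · rw [if_neg hx]
      refine le_of_eq (sum_eq_zero fun y _ => ?_)
      have h2 : G3b_M N Q X P x = 0 := by
        by_contra h'
        exact hx (G3b_M_ne h').1
      unfold G3b_B
      rw [h2, zero_div, ite_self, zero_mul]
  have h2 : ∑ x ∈ range (N + 1), (if x ∈ Q then 27 * σ * S / (N : ℝ) else 0) =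
      Q.card * (27 * σ * S / N) := by
    rw [← sum_filter, sum_const, nsmul_eq_mul]
    congr 2
    congr 1
    ext x
    rw [mem_filter]
    exact ⟨fun h' => h'.2, fun h' => ⟨G3b_sub h h', h'⟩⟩
  have h3 := sum_le_sum fun x (_ : x ∈ range (N + 1)) => h1 x
  rw [h2] at h3
  have h4 : (Q.card : ℝ) ≤ N := by
    have h5 := card_le_card h.sub
    rw [Nat.card_Icc] at h5
    have h6 : Q.card ≤ N := by omega
    exact_mod_cast h6
  have h5 : (Q.card : ℝ) * (27 * σ * S / N) ≤ N * (27 * σ * S / N) :=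
    mul_le_mul_of_nonneg_right h4 (by positivity)
  have h6 : (N : ℝ) * (27 * σ * S / N) = 27 * σ * S := by field_simp
  rw [← hS]
  linarith

theorem moveB {N : ℕ} {Q X : Finset ℕ} (h : KX N Q X) (P : Finset ℕ) (hP : P ⊆ Q) {σ : ℝ}
    (hPc : (P.card : ℝ) ≤ σ * N) (ψ : ℕ → ℝ) :
    ∃ D : ℕ → ℕ → ℝ, (∀ x y, D x y ≤ 3 / N) ∧ (∀ x y, -(9 * σ / N) ≤ D x y) ∧
      (∀ x y, D x y ≠ 0 → x ∈ Q ∧ x ∉ X ∧ y ∈ Q ∧ dd x y ∈ Q) ∧
      (∀ x y, D x y < 0 → (x, y) ∈ Gd N Q X) ∧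
      (∀ x, ∑ y ∈ range (N + 1), D x y = 0) ∧
      ∑ z ∈ P, ψ z - 33 * σ * ∑ z ∈ Q, |ψ z| ≤
        ∑ x ∈ range (N + 1), ∑ y ∈ range (N + 1), D x y * (ψ y + ψ (dd x y)) := by
  have hN : (0 : ℝ) < N := by
    have : (10 : ℝ) ^ 9 ≤ N := by exact_mod_cast h.big
    linarith [show (0 : ℝ) < 10 ^ 9 by norm_num]
  have hσ : 0 ≤ σ := by
    by_contra h'
    have h1 : σ * N < 0 := mul_neg_of_neg_of_pos (lt_of_not_ge h') hN
    have h2 : (0 : ℝ) ≤ P.card := Nat.cast_nonneg _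
    linarith
  refine ⟨fun x y => G3b_A N Q X P x y - G3b_B N Q X P x y, ?_, ?_, ?_, ?_, ?_, ?_⟩
  · intro x y
    have h1 := G3b_A_le h hP x y
    have h2 := G3b_B_nonneg N Q X P x y
    change G3b_A N Q X P x y - G3b_B N Q X P x y ≤ 3 / N
    linarith
  · intro x y
    have h1 := G3b_A_nonneg N Q X P x y
    have h2 := G3b_B_le h hP hσ hPc x y
    change -(9 * σ / N) ≤ G3b_A N Q X P x y - G3b_B N Q X P x y
    linarith
  · intro x y hD
    change G3b_A N Q X P x y - G3b_B N Q X P x y ≠ 0 at hD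
    by_cases h1 : y ∈ P ∧ x ∈ Rz N Q X y
    · have h2 := G3b_mem_Rz.1 h1.2
      exact ⟨h2.1, h2.2.1, hP h1.1, h2.2.2.2⟩
    · by_cases h2 : y ∈ Gx N Q X x
      · have h3 := mem_Gd.1 (G3b_mem_Gx.1 h2).2
        exact ⟨h3.1.1, h3.2.1, h3.1.2, h3.2.2.1⟩
      · exfalso
        apply hD
        unfold G3b_A G3b_B
        rw [if_neg h1, if_neg h2, sub_zero]
  · intro x y hD
    change G3b_A N Q X P x y - G3b_B N Q X P x y < 0 at hD
    by_contra h2
    have h3 : G3b_B N Q X P x y = 0 := by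
      unfold G3b_B
      exact if_neg fun h' => h2 (G3b_mem_Gx.1 h').2
    have h1 := G3b_A_nonneg N Q X P x y
    linarith
  · intro x
    change ∑ y ∈ range (N + 1), (G3b_A N Q X P x y - G3b_B N Q X P x y) = 0
    rw [sum_sub_distrib, G3b_A_row h hP, G3b_B_row h, sub_self]
  · have h1 := G3b_gainA h hP hPc ψ
    have h2 := G3b_gainB h hP hσ hPc ψ
    have h3 : ∑ x ∈ range (N + 1), ∑ y ∈ range (N + 1),
        (G3b_A N Q X P x y - G3b_B N Q X P x y) * (ψ y + ψ (dd x y)) =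
        ∑ x ∈ range (N + 1), ∑ y ∈ range (N + 1), G3b_A N Q X P x y * (ψ y + ψ (dd x y)) -
        ∑ x ∈ range (N + 1), ∑ y ∈ range (N + 1), G3b_B N Q X P x y * (ψ y + ψ (dd x y)) := by
      rw [← sum_sub_distrib]
      refine sum_congr rfl fun x _ => ?_
      rw [← sum_sub_distrib]
      refine sum_congr rfl fun y _ => ?_
      ring
    change ∑ z ∈ P, ψ z - 33 * σ * ∑ z ∈ Q, |ψ z| ≤ ∑ x ∈ range (N + 1), ∑ y ∈ range (N + 1),
        (G3b_A N Q X P x y - G3b_B N Q X P x y) * (ψ y + ψ (dd x y))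
    rw [h3]
    linarith

end SSB
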