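import Pool.Agent.Lib.MP_8a819d_co.AT.G1
import Pool.Agent.Lib.MP_8a819d_co.AT.G2
import Pool.Agent.Lib.MP_8a819d_co.AT.G3

/-!
# MP_8a819d_co, trees with many non-leaves: the flexible leaves (Lemma G)

BLOCK C2 (helper88).

`W x y` = weight (expected number of flexible leaves with label `y` at a host with label `x`); such a leaf uses
the labels `y` and `|x - y|`. `ldW N W z` = load at `z`. Given a base weight `W₀` which is `≥ c₀/N` on the good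
pairs, and a bound `g ≤ 1` of the load with `g ≥ ldW W₀ - s₀` and `∑ ldW W₀ ≤ ∑ g`, there is a weight `W` with
the same row sums (total weight of each host label `x`) and load `≤ g` everywhere.

PROOF. We may assume `c₀ ≤ 1`. `C₁ = 4`. Let `ℓ z = ldW N W₀ z` (`≥ 0`).
(0) Target. `lo z = ℓ z - s₀ ≤ g z` on `Q` and `∑ Q lo ≤ ∑ Q ℓ ≤ ∑ Q g`, so `T = (1-λ) lo + λ g` has
    `∑ Q T = ∑ Q ℓ` for some `λ ∈ [0, 1]`. `τ = T - ℓ` on `Q`: `τ ≥ -s₀`, `τ ≤ T ≤ 1`, `∑ τ = 0`; so `∑ τ⁺ = ∑ τ⁻ ≤ s₀ N` and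
    `Ξ = {z ∈ Q : τ z > √s₀}` has at most `√s₀ N` elements.
(1) Feasible weights: the set `𝒲` of all `W : Fin (N+1) → Fin (N+1) → ℝ` (or functions on a finite set of pairs) with
    `0 ≤ W x y ≤ W₀ x y + C₁/N`, `W x y = W₀ x y` unless `x ∈ Q`, `x ∉ X`, `y ∈ Q`, `dd x y ∈ Q`, and the row sums of `W₀`. It is
    compact and convex and contains `W₀`; `W ↦ (ldW W z)_{z ∈ Q}` is affine. Let `W` minimise `∑ z ∈ Q, (ldW W z - T z)^2` on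
    `𝒲` and suppose the minimum is positive; put `φ = T - ldW W` on `Q`. Then for every `W' ∈ 𝒲`:
    `∑ Q φ (ldW W' - ldW W) ≤ 0` (derivative along the segment), so
    `∑ Q φ (ldW W' - ℓ) ≤ ∑ Q φ (ldW W - ℓ) = ∑ Q φ τ - ∑ Q φ^2 < ∑ Q φ τ`.  (*)
    The sums `∑ Q ldW` of all elements of `𝒲` are equal (to twice the total mass: every pair with positive
    weight has `y, dd x y ∈ Q`; here `W₀ x y ≠ 0 → y ∈ Q ∧ dd x y ∈ Q`), as is `∑ Q T`, so in (*) we may replace `φ` by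
    `ψ = φ - B₀` for any constant `B₀`. Let `‖ψ‖ = ∑ Q |ψ|`. We construct `W'` contradicting (*) for the `B₀` of `keyIneq`.
(2) Median moves. For a row `x ∈ Q \ X` let `G x = {y : (x, y) ∈ Gd N Q X}`, `h x y = φ y + φ (dd x y)`; let `m x` be a
    median of `h x` on `G x`: disjoint `U, L ⊆ G x` with `|U| = |L|`, `h ≥ m x` on `U`, `≤ m x` on `L` and at most one element
    (with `h = m x`) of `G x` outside `U ∪ L`. Add `c₀/(2N)` on `U`, subtract it on `L`: the row sum is unchanged and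
    the gain `∑ φ Δld` is `(c₀/(2N)) ∑ y ∈ G x, |h x y - m x|`. By `keyIneq` the total gain is at least `(c₀ c₁/2) ‖ψ‖`.
(3) Moves to `Ξ⁺ = {z ∈ Ξ : ψ z > 0}`. For `z ∈ Ξ⁺` let `R z = {x ∈ Q \ X : 2 x ≥ N, dd x z ∈ Q}`, `|R z| ≥ N/3`. Add `1/|R z|` on
    all `(x, z)`, `x ∈ R z`. The row `x` gets the additional mass `M x ≤ 3 |Ξ| / N ≤ 3 √s₀` (only rows with `2 x ≥ N`);
    remove it uniformly from `G x` (`|G x| ≥ N/3` for these `x`: `y > N - x`, `y ≥ N/10`, `y, |x-y| ∈ Q`):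
    at most `9 √s₀ / N ≤ c₀/(2N)` from each pair. The gain (computed with `ψ`; the row sums are
    unchanged, so the constant does not matter) is at least
    `∑ z ∈ Ξ⁺ ψ z - ∑ z ∈ Ξ⁺ (3/N) ∑ x |ψ (dd x z)| - (9 √s₀/N) ∑ x y (|ψ y| + |ψ (dd x y)|)
     ≥ ∑ z ∈ Ξ⁺ ψ z - 6 √s₀ ‖ψ‖ - 27 √s₀ ‖ψ‖`  (all sums over arguments in `Q`; each label is `dd x z` for at most two `x`).
(4) `W' = W₀ +` both moves: it is in `𝒲` (on good pairs `W₀ ≥ c₀/N`; increase at most `c₀/(2N) + 3/N ≤ C₁/N`). So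
    `∑ ψ (ldW W' - ℓ) ≥ (c₀ c₁/2 - 33 √s₀) ‖ψ‖ + ∑ z ∈ Ξ⁺ ψ z`, while `∑ ψ τ ≤ s₀ ‖ψ‖ + √s₀ ‖ψ‖ + ∑ z ∈ Ξ⁺ ψ z` (`-s₀ ≤ τ`; `τ ≤ √s₀` outside
    `Ξ`, `τ ≤ 1` on `Ξ`; on `Ξ` with `ψ ≤ 0`: `τ ψ ≤ 0`). If `‖ψ‖ > 0` and `35 √s₀ < c₀ c₁/2` this contradicts (*)
    (`<` there); if `‖ψ‖ = 0` the right side of (*) is `0` and the left side (`W' = W₀`) is `0`: contradiction.
So the minimum is `0` and `ldW W = T ≤ g` on `Q`.
-/

set_option autoImplicit false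

namespace SSB

open Finset

theorem lemG (c₀ : ℝ) (hc₀ : 0 < c₀) : ∃ s₀ C₁ : ℝ, 0 < s₀ ∧ 0 < C₁ ∧ ∃ N₀ : ℕ, ∀ N : ℕ, N₀ ≤ N →
    ∀ Q X : Finset ℕ, Q ⊆ Icc 1 N → (N : ℝ) - Q.card ≤ s₀ * N → (X.card : ℝ) ≤ s₀ * N →
    ∀ W₀ : ℕ → ℕ → ℝ, (∀ x y, 0 ≤ W₀ x y) → (∀ x y, W₀ x y ≠ 0 → x ∈ Q ∧ y ∈ Q ∧ dd x y ∈ Q) →
      (∀ p ∈ Gd N Q X, c₀ / N ≤ W₀ p.1 p.2) →
    ∀ g : ℕ → ℝ, (∀ z ∈ Q, ldW N W₀ z - s₀ ≤ g z ∧ g z ≤ 1) →
      ∑ z ∈ Q, ldW N W₀ z ≤ ∑ z ∈ Q, g z →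
    ∃ W : ℕ → ℕ → ℝ, (∀ x y, 0 ≤ W x y) ∧ (∀ x y, W x y ≠ 0 → x ∈ Q ∧ y ∈ Q ∧ dd x y ∈ Q) ∧
      (∀ x, ∑ y ∈ range (N + 1), W x y = ∑ y ∈ range (N + 1), W₀ x y) ∧
      (∀ x y, W x y ≤ W₀ x y + C₁ / N) ∧ (∀ x ∈ X, ∀ y, W x y = W₀ x y) ∧
      ∀ z ∈ Q, ldW N W z ≤ g z := by
  obtain ⟨s₁, c₁, hs₁, hc₁, N₁, hkey⟩ := keyIneq
  obtain ⟨c, hcd⟩ : ∃ c, c = min c₀ 1 := ⟨_, rfl⟩
  have hc0 : 0 < c := by rw [hcd]; exact lt_min hc₀ one_pos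
  have hc1 : c ≤ 1 := by rw [hcd]; exact min_le_right _ _
  have hcc : c ≤ c₀ := by rw [hcd]; exact min_le_left _ _
  obtain ⟨σ, hσd⟩ : ∃ σ, σ = min (c / 18) (c * c₁ / 70) := ⟨_, rfl⟩
  have hσ0 : 0 < σ := by
    rw [hσd]
    exact lt_min (by positivity) (by positivity)
  have hσ1 : σ ≤ c / 18 := by rw [hσd]; exact min_le_left _ _
  have hσ2 : σ ≤ c * c₁ / 70 := by rw [hσd]; exact min_le_right _ _
  refine ⟨min (σ ^ 2) (min s₁ (1 / 10 ^ 6)), 4, lt_min (by positivity) (lt_min hs₁ (by norm_num)),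
    by norm_num, max N₁ (10 ^ 9), ?_⟩
  intro N hN Q X hQ hQc hXc W₀ hW0 hWs hWg g hg hgs
  obtain ⟨s, hsd⟩ : ∃ s, s = min (σ ^ 2) (min s₁ (1 / 10 ^ 6)) := ⟨_, rfl⟩
  rw [← hsd] at hQc hXc hg
  have hs1 : s ≤ σ ^ 2 := by rw [hsd]; exact min_le_left _ _
  have hs2 : s ≤ s₁ := by rw [hsd]; exact (min_le_right _ _).trans (min_le_left _ _)
  have hs3 : s ≤ 1 / 10 ^ 6 := by rw [hsd]; exact (min_le_right _ _).trans (min_le_right _ _)
  have hs0 : 0 ≤ s := by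
    rw [hsd]
    exact le_min (by positivity) (le_min hs₁.le (by norm_num))
  have hN1 : N₁ ≤ N := (le_max_left _ _).trans hN
  have hN2 : 10 ^ 9 ≤ N := (le_max_right _ _).trans hN
  have hNr : (10 : ℝ) ^ 9 ≤ N := by exact_mod_cast hN2
  have hNpos : (0 : ℝ) < N := by linarith
  have hK : KX N Q X := ⟨hN2, hQ, hQc.trans (mul_le_mul_of_nonneg_right hs3 hNpos.le),
    hXc.trans (mul_le_mul_of_nonneg_right hs3 hNpos.le)⟩
  have hl0 : ∀ z, 0 ≤ ldW N W₀ z := by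
    intro z
    unfold ldW
    refine sum_nonneg fun x _ => add_nonneg (hW0 x z) (sum_nonneg fun y _ => ?_)
    split_ifs
    · exact hW0 x y
    · exact le_rfl
  obtain ⟨T, hT1, hT2⟩ := target (Q := Q) hs0 (ldW N W₀) g (fun z hz => (hg z hz).1) hgs
  by_contra hcon
  have hno : ¬ ∃ W ∈ Feas N Q X W₀ 4, ∀ z ∈ Q, ldW N W z = T z := by
    rintro ⟨W, ⟨h1, h2, h3⟩, h4⟩
    apply hcon
    refine ⟨W, fun x y => (h1 x y).1, ?_, h3, fun x y => (h1 x y).2, ?_, ?_⟩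
    · intro x y hxy
      by_cases h5 : x ∈ Q ∧ x ∉ X ∧ y ∈ Q ∧ dd x y ∈ Q
      · exact ⟨h5.1, h5.2.2.1, h5.2.2.2⟩
      · rw [h2 x y h5] at hxy
        exact hWs x y hxy
    · intro x hx y
      exact h2 x y fun h5 => h5.2.1 hx
    · intro z hz
      rw [h4 z hz]
      exact (hT1 z hz).2
  obtain ⟨φ, hφ⟩ := sepG T hno
  obtain ⟨m, DA, hA1, hA2, hA3, hA4⟩ := moveA (N := N) (Q := Q) X hQ φ
  obtain ⟨B₀, hB0⟩ := hkey N hN1 Q X hQ (hQc.trans (mul_le_mul_of_nonneg_right hs2 hNpos.le))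
    (hXc.trans (mul_le_mul_of_nonneg_right hs2 hNpos.le)) φ m
  have hB0' : c₁ * N * ∑ a ∈ Q, |φ a - B₀| ≤ II N Q X φ m := hB0
  obtain ⟨ψ, hψ⟩ : ∃ ψ : ℕ → ℝ, ψ = fun z => φ z - B₀ := ⟨_, rfl⟩
  have hψz : ∀ z, ψ z = φ z - B₀ := fun z => by rw [hψ]
  obtain ⟨τ, hτ⟩ : ∃ τ : ℕ → ℝ, τ = fun z => T z - ldW N W₀ z := ⟨_, rfl⟩
  have hτz : ∀ z, τ z = T z - ldW N W₀ z := fun z => by rw [hτ]
  have hτ1 : ∀ z ∈ Q, -σ ^ 2 ≤ τ z := by
    intro z hz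
    rw [hτz]
    have := (hT1 z hz).1
    linarith
  have hτ2 : ∀ z ∈ Q, τ z ≤ 1 := by
    intro z hz
    rw [hτz]
    have h1 := (hT1 z hz).2
    have h2 := (hg z hz).2
    have h3 := hl0 z
    linarith
  have hτ0 : ∑ z ∈ Q, τ z = 0 := by
    rw [hτ, sum_sub_distrib, hT2, sub_self]
  have hΞ := xi_card hQ hσ0 τ hτ1 hτ0
  obtain ⟨P, hP⟩ : ∃ P : Finset ℕ, P = Q.filter (fun z => σ < τ z ∧ 0 < ψ z) := ⟨_, rfl⟩
  have hPQ : P ⊆ Q := by rw [hP]; exact filter_subset _ _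
  have hPc : (P.card : ℝ) ≤ σ * N := by
    refine le_trans ?_ hΞ
    have : P.card ≤ (Q.filter (fun z => σ < τ z)).card := by
      refine card_le_card fun z hz => ?_
      rw [hP, mem_filter] at hz
      exact mem_filter.2 ⟨hz.1, hz.2.1⟩
    exact_mod_cast this
  obtain ⟨DB, hD1, hD2, hD3, hD4, hD5, hD6⟩ := moveB hK P hPQ hPc ψ
  obtain ⟨W', hW'⟩ : ∃ W' : ℕ → ℕ → ℝ, W' = fun x y => W₀ x y + (c / (2 * N) * DA x y + DB x y) :=
    ⟨_, rfl⟩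
  have hW'z : ∀ x y, W' x y = W₀ x y + (c / (2 * N) * DA x y + DB x y) := fun x y => by rw [hW']
  have hc2N : 0 < c / (2 * N) := by positivity
  have hσ9 : 9 * σ / N ≤ c / (2 * N) := by
    rw [div_le_div_iff₀ hNpos (by positivity)]
    nlinarith
  have hW'1 : ∀ x y, 0 ≤ W' x y := by
    intro x y
    rw [hW'z]
    by_cases hG : (x, y) ∈ Gd N Q X
    · have h1 := hWg (x, y) hG
      have h2 : c / N ≤ c₀ / N := div_le_div_of_nonneg_right hcc hNpos.le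
      have h3 := (abs_le.1 (hA1 x y)).1
      have h4 := hD2 x y
      have h5 : c / (2 * N) * (-1) ≤ c / (2 * N) * DA x y := mul_le_mul_of_nonneg_left h3 hc2N.le
      have h6 : c / (N : ℝ) = c / (2 * N) + c / (2 * N) := by field_simp; ring
      have h7 : c₀ / (N : ℝ) ≤ W₀ x y := h1
      linarith
    · have h1 : DA x y = 0 := by
        by_contra h
        exact hG (hA2 x y h)
      have h2 : 0 ≤ DB x y := by
        by_contra h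
        exact hG (hD4 x y (not_le.1 h))
      rw [h1, mul_zero, zero_add]
      exact add_nonneg (hW0 x y) h2
  have hW'2 : ∀ x y, ¬ (x ∈ Q ∧ x ∉ X ∧ y ∈ Q ∧ dd x y ∈ Q) → W' x y = W₀ x y := by
    intro x y hn
    rw [hW'z]
    have h1 : DA x y = 0 := by
      by_contra h
      have h2 := mem_Gd.1 (hA2 x y h)
      exact hn ⟨h2.1.1, h2.2.1, h2.1.2, h2.2.2.1⟩
    have h2 : DB x y = 0 := by
      by_contra h
      exact hn (hD3 x y h)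
    rw [h1, h2, mul_zero, add_zero, add_zero]
  have hfeas : W' ∈ Feas N Q X W₀ 4 := by
    refine ⟨fun x y => ⟨hW'1 x y, ?_⟩, hW'2, ?_⟩
    · rw [hW'z]
      have h3 := (abs_le.1 (hA1 x y)).2
      have h4 := hD1 x y
      have h5 : c / (2 * N) * DA x y ≤ c / (2 * N) * 1 := mul_le_mul_of_nonneg_left h3 hc2N.le
      have h6 : c / (2 * (N : ℝ)) ≤ 1 / N := by
        rw [div_le_div_iff₀ (by positivity) hNpos]
        nlinarith
      have h7 : (4 : ℝ) / N = 1 / N + 3 / N := by ring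
      rw [h7]
      linarith
    · intro x
      have h1 : ∀ y, W' x y = W₀ x y + (c / (2 * N) * DA x y + DB x y) := hW'z x
      rw [sum_congr rfl fun y _ => h1 y, sum_add_distrib, sum_add_distrib, ← mul_sum, hA3 x, hD5 x,
        mul_zero, add_zero, add_zero]
  have hW's : ∀ x y, W' x y ≠ 0 → x ∈ Q ∧ y ∈ Q ∧ dd x y ∈ Q := by
    intro x y hxy
    by_cases h5 : x ∈ Q ∧ x ∉ X ∧ y ∈ Q ∧ dd x y ∈ Q
    · exact ⟨h5.1, h5.2.2.1, h5.2.2.2⟩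
    · rw [hW'2 x y h5] at hxy
      exact hWs x y hxy
  -- the gain
  have hgain : ∀ χ : ℕ → ℝ, ∑ z ∈ Q, χ z * ldW N W' z = ∑ z ∈ Q, χ z * ldW N W₀ z +
      (c / (2 * N) * ∑ x ∈ range (N + 1), ∑ y ∈ range (N + 1), DA x y * (χ y + χ (dd x y)) +
        ∑ x ∈ range (N + 1), ∑ y ∈ range (N + 1), DB x y * (χ y + χ (dd x y))) := by
    intro χ
    rw [ldW_sum hQ hW's χ, ldW_sum hQ hWs χ, mul_sum, ← sum_add_distrib, ← sum_add_distrib]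
    refine sum_congr rfl fun x _ => ?_
    rw [mul_sum, ← sum_add_distrib, ← sum_add_distrib]
    refine sum_congr rfl fun y _ => ?_
    rw [hW'z]
    ring
  have hcst : ∀ D : ℕ → ℕ → ℝ, (∀ x, ∑ y ∈ range (N + 1), D x y = 0) →
      ∑ x ∈ range (N + 1), ∑ y ∈ range (N + 1), D x y * (ψ y + ψ (dd x y)) =
        ∑ x ∈ range (N + 1), ∑ y ∈ range (N + 1), D x y * (φ y + φ (dd x y)) := by
    intro D hD
    refine sum_congr rfl fun x _ => ?_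
    have h1 : ∀ y, D x y * (ψ y + ψ (dd x y)) = D x y * (φ y + φ (dd x y)) - 2 * B₀ * D x y := by
      intro y
      rw [hψz, hψz]
      ring
    rw [sum_congr rfl fun y _ => h1 y, sum_sub_distrib, ← mul_sum, hD x, mul_zero, sub_zero]
  have hgA : ∑ x ∈ range (N + 1), ∑ y ∈ range (N + 1), DA x y * (φ y + φ (dd x y)) = II N Q X φ m :=
    hA4
  have hgB := hD6
  rw [hcst DB hD5] at hgB
  have hmain := hφ W' hfeas
  rw [hgain φ, hgA] at hmain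
  -- the right side
  have hφτ : ∑ z ∈ Q, φ z * T z = ∑ z ∈ Q, φ z * ldW N W₀ z + ∑ z ∈ Q, ψ z * τ z := by
    have h1 : ∑ z ∈ Q, ψ z * τ z = ∑ z ∈ Q, φ z * τ z - B₀ * ∑ z ∈ Q, τ z := by
      rw [mul_sum, ← sum_sub_distrib]
      refine sum_congr rfl fun z _ => ?_
      rw [hψz]
      ring
    rw [h1, hτ0, mul_zero, sub_zero, ← sum_add_distrib]
    refine sum_congr rfl fun z _ => ?_
    rw [hτz]
    ring
  have hψτ : ∑ z ∈ Q, ψ z * τ z ≤ ∑ z ∈ P, ψ z + σ * ∑ z ∈ Q, |ψ z| := by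
    have h1 : ∑ z ∈ P, ψ z = ∑ z ∈ Q, if σ < τ z ∧ 0 < ψ z then ψ z else 0 := by
      rw [hP, sum_filter]
    rw [h1, mul_sum, ← sum_add_distrib]
    refine sum_le_sum fun z hz => ?_
    have h2 := hτ1 z hz
    have h3 := hτ2 z hz
    have hσσ : σ ^ 2 ≤ σ := by nlinarith
    split_ifs with h4
    · have h5 : 0 ≤ σ * |ψ z| := by positivity
      nlinarith [h4.2]
    · rw [zero_add]
      by_cases h5 : σ < τ z
      · have h6 : ψ z ≤ 0 := by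
          by_contra h7
          exact h4 ⟨h5, not_le.1 h7⟩
        have h7 : ψ z * τ z ≤ 0 := mul_nonpos_of_nonpos_of_nonneg h6 (hσ0.le.trans h5.le)
        exact h7.trans (by positivity)
      · have h6 : |τ z| ≤ σ := abs_le.2 ⟨by linarith, not_lt.1 h5⟩
        calc ψ z * τ z ≤ |ψ z * τ z| := le_abs_self _
          _ = |τ z| * |ψ z| := by rw [abs_mul, mul_comm]
          _ ≤ σ * |ψ z| := mul_le_mul_of_nonneg_right h6 (abs_nonneg _)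
  rw [hφτ] at hmain
  have hnorm : ∑ a ∈ Q, |φ a - B₀| = ∑ z ∈ Q, |ψ z| := by
    refine sum_congr rfl fun z _ => ?_
    rw [hψz]
  rw [hnorm] at hB0'
  have hn0 : 0 ≤ ∑ z ∈ Q, |ψ z| := sum_nonneg fun _ _ => abs_nonneg _
  generalize ∑ z ∈ Q, |ψ z| = nn at hB0' hgB hψτ hn0
  generalize ∑ z ∈ P, ψ z = pp at hgB hψτ
  generalize ∑ z ∈ Q, ψ z * τ z = pt at hmain hψτ
  generalize II N Q X φ m = I at hB0' hmain
  have h1 : c / (2 * N) * (c₁ * N * nn) ≤ c / (2 * N) * I := mul_le_mul_of_nonneg_left hB0' hc2N.le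
  have h2 : c / (2 * N) * (c₁ * N * nn) = c * c₁ / 2 * nn := by field_simp
  rw [h2] at h1
  have h3 : 70 * σ * nn ≤ c * c₁ * nn := mul_le_mul_of_nonneg_right (by linarith) hn0
  nlinarith [mul_nonneg hσ0.le hn0]

end SSB
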