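import Pool.Agent.Lib.MP_8a819d_co.AT.BaseL
import Pool.Agent.Lib.MP_8a819d_co.AT.LemG

/-!
# MP_8a819d_co, trees with many non-leaves: the laws with many flexible leaves

BLOCK D3. JOB LawsB.

`lawsB`: in the configuration `BCfg`, if only few vertices of `Z` have a neighbour in `B` that is not a parent in
`H`, if at least `δ N` vertices `u ∈ Z` have a childless child `c ∈ Z` (a leaf), and if there are enough free labels, then
there are laws with total load at most `1`.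

PROOF. `c₀ = δ/100`, `s₀, C₁` from `lemG c₀`; `s' = min (1/10) (s₀/10)`; `m, s, C` from `base_laws s'`; the final `s` is
`min s (s₀/100)`. Let `hosts = {u ∈ Z : ∃ c ∈ Z, par c = u, chs c = ∅}`, choose such a leaf `c u` for every `u`; `bnb (c u) = ∅` (its
parent `u ∈ Z` is its only neighbour). Split `hosts` according to `par u ∈ H` or not; let `Hs` be the larger part,
`|Hs| ≥ δ N/2`, `Fl = c(Hs)` (distinct leaves). `mu⁰, kr⁰` from `base_laws`.
`W₀ x y = ∑ u ∈ Hs, mu⁰ u x * kr⁰ (c u) x y` for `x, y ≤ N` (`0` otherwise). If it is not `0`, then `x ∈ usv u ⊆ Q` (rules of `LawV` for `u`)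
and `{y, dd x y} ⊆ usv (c u) x y ⊆ Q`. Row sums: `ν x = ∑ y W₀ x y = ∑ u ∈ Hs, mu⁰ u x` (`kr_sum`; terms with `mu⁰ u x = 0` vanish).
Exceptional rows: `X_u = {x ∈ Q : dd (f₀ b) x ∉ Q for some b ∈ bnb u}` (part `par u ∉ H`; at most `2 s N + 2` labels) resp.
`X_u = Q \ Dom (par u)` (part `par u ∈ H`; at most `s N + ...`: `|Q| - |Dom| ≤ s N`). `X = {x ∈ Q : x ∈ X_u for more than half of the u ∈ Hs}`:
by double counting `|X| ≤ 2 max |X_u| ≤ s₀ N`. For `x ∈ Q \ X`: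
* part `par u ∉ H`: `ν x ≥ (|Hs|/2)(1 - s') vv x`, `W₀ x y = ν x PP x y ≥ (|Hs|/2)(1-s') kk x y / Zn`, which is
  `≥ (δ N/4)(9/10)(2/N)/(N+1) ≥ c₀/N` on the good pairs (`kk = 2/N` there: `N ≤ 10 x ≤ m x`).
* part `par u ∈ H`: `ν x ≥ (|Hs|/2)/N ≥ δ/4`, `W₀ x y ≥ (|Hs|/2)(1/N) vv y ≥ (δ/4) (1/10)/(N+1) ≥ c₀/N` (`krR`, `V0_ge10`).
`g z = 1 - ∑ v ∈ Z \ Fl, loadv⁰ v z`. `g ≤ 1`. `ldW W₀ z = ∑ u ∈ Hs, (mu⁰ (c u) z + ∑ ∑ [dd x y = z] mu⁰ u x kr⁰ (c u) x y) ≤ |Hs| (1+s') 2/N`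
(`regE`; `par (c u) = u`, `cons`). The vertices of `Z` which are not regular are in `Irr`, so
`ldW W₀ z + ∑ v ∈ Z \ Fl, loadv⁰ v z ≤ |Z| (1+s') 2/N + |Irr| 25/N ≤ (1+s')(1 + 1/N) + 25 s ≤ 1 + s₀` (`|Z| ≤ n = (N+1)/2`).
`∑ z ∈ Q, ldW W₀ z = 2 ∑ ν = 2 |Hs|`; `∑ z ∈ Q, loadv⁰ v z ≤ 1 + |bnb v| + [par v ∈ Z]` (expected number of elements of `usv`), and for
`v ∈ Fl` this number is `2`; so `∑ Q g ≥ |Q| - ∑ v ∈ Z \ Fl, (...) ≥ 2 |Hs|`.
`lemG` gives `W`. New laws: `mu = mu⁰` on `Z \ Fl` (no vertex of `Fl` has a child), `kr c x y = W x y / ν x` for `c ∈ Fl` (`0` if `ν x = 0`),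
`mu c y = ∑ x, mu⁰ (par c) x * W x y / ν x`. If `mu⁰ (par c) x ≠ 0` then `ν x ≠ 0`; `∑ y W x y = ν x`. Bounds: `x ∈ X`: `W = W₀`, so
`W x y / ν x ≤ max kr⁰ ≤ C/N`. `x ∈ Q \ X`, `ν x ≠ 0`: `W x y / ν x ≤ C/N + (C₁/N)/ν x`, and `ν x ≥ (δN/4)(9/10) (1/m)/(N+1)` (first part:
`ν x ≠ 0` implies `vv x ≠ 0` by `up`, then `V0 x ≥ 1/m`) resp. `≥ δ/4`. The load of `Fl` is at most
`∑ c ∈ Fl, (mu c z + ∑ ∑ [dd x y = z] mu⁰ (par c) x kr c x y) = ldW W z ≤ g z`. So the total load is `≤ 1`.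
`unif`: vertices with `par v ∈ H` are not in `Fl`.
-/

set_option autoImplicit false

namespace SSB

open Finset

section LawsB

variable {n N : ℕ} {par : ℕ → ℕ} {B Z Q : Finset ℕ} {f₀ : ℕ → ℕ} {C : ℝ} {mu : ℕ → ℕ → ℝ}
  {kr : ℕ → ℕ → ℕ → ℝ}

private lemma lawsb_mem_self (v x y : ℕ) : y ∈ usv n par B Z f₀ v x y := by
  unfold usv
  exact mem_union_left _ (mem_insert_self _ _)

/-- labels of positive probability are free labels -/
private lemma lawsb_muQ (h : LawV n N par B Z Q f₀ C mu kr) {v : ℕ} (hv : v ∈ Z) {y : ℕ}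
    (hy : y ≤ N) (hne : mu v y ≠ 0) : y ∈ Q := by
  by_cases hp : par v ∈ Z
  · have h1 := h.cons v hv hp y hy
    rw [← h1] at hne
    obtain ⟨x, hx, hx'⟩ := exists_ne_zero_of_sum_ne_zero hne
    exact h.rule v hv hp x (Nat.lt_succ_iff.1 (mem_range.1 hx)) y hy hx' (lawsb_mem_self v x y)
  · exact h.rule_root v hv hp y hy hne (lawsb_mem_self v 0 y)

private lemma lawsb_bnb (hBZ : Disjoint B Z) {c : ℕ} (hp : par c ∈ Z) (hch : chs n par c = ∅) :
    bnb n par B c = ∅ := by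
  unfold bnb
  rw [filter_eq_empty_iff]
  intro b hb
  rintro (⟨_, _, h3⟩ | ⟨h1, h2, h3⟩)
  · exact (disjoint_left.1 hBZ hb) (h3 ▸ hp)
  · have h4 : b ∈ chs n par c := by
      unfold chs
      exact mem_filter.2 ⟨mem_range.2 h2, h1, h3⟩
    rw [hch] at h4
    exact absurd h4 (notMem_empty _)

private lemma lawsb_usv_card (v x y : ℕ) : (usv n par B Z f₀ v x y).card ≤
    1 + (bnb n par B v).card + (if par v ∈ Z then 1 else 0) := by
  unfold usv
  refine (card_union_le _ _).trans ?_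
  refine Nat.add_le_add ?_ ?_
  · refine (card_insert_le _ _).trans ?_
    have := card_image_le (s := bnb n par B v) (f := fun b => dd (f₀ b) y)
    omega
  · split_ifs <;> simp

private lemma lawsb_load_sum (h : LawV n N par B Z Q f₀ C mu kr) {v : ℕ} (hv : v ∈ Z) :
    ∑ z ∈ Q, loadv n N par B Z f₀ mu kr v z ≤
      ((1 + (bnb n par B v).card + (if par v ∈ Z then 1 else 0) : ℕ) : ℝ) := by
  set e : ℕ := 1 + (bnb n par B v).card + (if par v ∈ Z then 1 else 0) with he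
  have hcard : ∀ x y, (∑ z ∈ Q, (if z ∈ usv n par B Z f₀ v x y then (1 : ℝ) else 0)) ≤ e := by
    intro x y
    rw [← sum_filter, sum_const, nsmul_eq_mul, mul_one]
    have h1 : (Q.filter (fun z => z ∈ usv n par B Z f₀ v x y)).card ≤
        (usv n par B Z f₀ v x y).card :=
      card_le_card (fun z hz => (mem_filter.1 hz).2)
    exact_mod_cast h1.trans (lawsb_usv_card v x y)
  by_cases hp : par v ∈ Z
  · have h1 : ∑ z ∈ Q, loadv n N par B Z f₀ mu kr v z =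
        ∑ x ∈ range (N + 1), ∑ y ∈ range (N + 1), (mu (par v) x * kr v x y) *
          ∑ z ∈ Q, (if z ∈ usv n par B Z f₀ v x y then (1 : ℝ) else 0) := by
      unfold loadv
      simp only [if_pos hp]
      rw [sum_comm]
      refine sum_congr rfl fun x _ => ?_
      rw [sum_comm]
      refine sum_congr rfl fun y _ => ?_
      rw [mul_sum]
      refine sum_congr rfl fun z _ => ?_
      split_ifs <;> simp
    have h2 : ∑ x ∈ range (N + 1), ∑ y ∈ range (N + 1), mu (par v) x * kr v x y = 1 := by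
      rw [sum_comm, ← h.mu_sum v hv]
      exact sum_congr rfl fun y hy => h.cons v hv hp y (Nat.lt_succ_iff.1 (mem_range.1 hy))
    rw [h1]
    calc _ ≤ ∑ x ∈ range (N + 1), ∑ y ∈ range (N + 1), (mu (par v) x * kr v x y) * (e : ℝ) := by
          refine sum_le_sum fun x _ => sum_le_sum fun y _ =>
            mul_le_mul_of_nonneg_left (hcard x y) ?_
          exact mul_nonneg (h.mu_nn _ hp _) (h.kr_nn v hv hp x y)
      _ = (∑ x ∈ range (N + 1), ∑ y ∈ range (N + 1), mu (par v) x * kr v x y) * e := by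
          rw [sum_mul]
          refine sum_congr rfl fun x _ => ?_
          rw [sum_mul]
      _ = e := by rw [h2, one_mul]
  · have h1 : ∑ z ∈ Q, loadv n N par B Z f₀ mu kr v z =
        ∑ y ∈ range (N + 1), mu v y *
          ∑ z ∈ Q, (if z ∈ usv n par B Z f₀ v 0 y then (1 : ℝ) else 0) := by
      unfold loadv
      simp only [if_neg hp]
      rw [sum_comm]
      refine sum_congr rfl fun y _ => ?_
      rw [mul_sum]
      refine sum_congr rfl fun z _ => ?_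
      split_ifs <;> simp
    rw [h1]
    calc _ ≤ ∑ y ∈ range (N + 1), mu v y * (e : ℝ) := by
          refine sum_le_sum fun y _ => mul_le_mul_of_nonneg_left (hcard 0 y) (h.mu_nn v hv y)
      _ = (∑ y ∈ range (N + 1), mu v y) * e := by rw [sum_mul]
      _ = e := by rw [h.mu_sum v hv, one_mul]

private lemma lawsb_load_nn (h : LawV n N par B Z Q f₀ C mu kr) {v : ℕ} (hv : v ∈ Z) (z : ℕ) :
    0 ≤ loadv n N par B Z f₀ mu kr v z := by
  unfold loadv
  split_ifs with hp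
  · refine sum_nonneg fun x _ => sum_nonneg fun y _ => ?_
    split_ifs
    · exact mul_nonneg (h.mu_nn _ hp _) (h.kr_nn v hv hp x y)
    · exact le_rfl
  · refine sum_nonneg fun y _ => ?_
    split_ifs
    · exact h.mu_nn v hv y
    · exact le_rfl

/-- total weight of the flexible leaves `c u`, `u ∈ Hs` -/
private noncomputable def lawsbW (N : ℕ) (mu : ℕ → ℕ → ℝ) (kr : ℕ → ℕ → ℕ → ℝ) (Hs : Finset ℕ)
    (c : ℕ → ℕ) (x y : ℕ) : ℝ :=
  if x ≤ N ∧ y ≤ N then ∑ u ∈ Hs, mu u x * kr (c u) x y else 0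

variable {Hs : Finset ℕ} {c : ℕ → ℕ}

private lemma lawsbW_nn (h : LawV n N par B Z Q f₀ C mu kr)
    (hc : ∀ u ∈ Hs, u ∈ Z ∧ c u ∈ Z ∧ par (c u) = u ∧ chs n par (c u) = ∅) (x y : ℕ) :
    0 ≤ lawsbW N mu kr Hs c x y := by
  unfold lawsbW
  split_ifs
  · refine sum_nonneg fun u hu => ?_
    obtain ⟨h1, h2, h3, -⟩ := hc u hu
    exact mul_nonneg (h.mu_nn _ h1 _) (h.kr_nn _ h2 (h3.symm ▸ h1) x y)
  · exact le_rfl

private lemma lawsbW_supp (h : LawV n N par B Z Q f₀ C mu kr)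
    (hc : ∀ u ∈ Hs, u ∈ Z ∧ c u ∈ Z ∧ par (c u) = u ∧ chs n par (c u) = ∅) {x y : ℕ}
    (hne : lawsbW N mu kr Hs c x y ≠ 0) : x ∈ Q ∧ y ∈ Q ∧ dd x y ∈ Q := by
  unfold lawsbW at hne
  split_ifs at hne with hxy
  · obtain ⟨u, hu, hu'⟩ := exists_ne_zero_of_sum_ne_zero hne
    obtain ⟨h1, h2, h3, -⟩ := hc u hu
    have h4 : par (c u) ∈ Z := h3.symm ▸ h1
    have h5 := h.rule (c u) h2 h4 x hxy.1 y hxy.2 (by rw [h3]; exact hu')
    refine ⟨lawsb_muQ h h1 hxy.1 (left_ne_zero_of_mul hu'), h5 (lawsb_mem_self _ _ _), h5 ?_⟩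
    unfold usv
    rw [if_pos h4]
    exact mem_union_right _ (mem_singleton_self _)
  · exact absurd rfl hne

private lemma lawsbW_row (h : LawV n N par B Z Q f₀ C mu kr)
    (hc : ∀ u ∈ Hs, u ∈ Z ∧ c u ∈ Z ∧ par (c u) = u ∧ chs n par (c u) = ∅) {x : ℕ} (hx : x ≤ N) :
    ∑ y ∈ range (N + 1), lawsbW N mu kr Hs c x y = ∑ u ∈ Hs, mu u x := by
  have h1 : ∑ y ∈ range (N + 1), lawsbW N mu kr Hs c x y =
      ∑ y ∈ range (N + 1), ∑ u ∈ Hs, mu u x * kr (c u) x y := by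
    refine sum_congr rfl fun y hy => ?_
    unfold lawsbW
    rw [if_pos ⟨hx, Nat.lt_succ_iff.1 (mem_range.1 hy)⟩]
  rw [h1, sum_comm]
  refine sum_congr rfl fun u hu => ?_
  rw [← mul_sum]
  obtain ⟨h1, h2, h3, -⟩ := hc u hu
  by_cases h0 : mu u x = 0
  · rw [h0, zero_mul]
  · rw [h.kr_sum (c u) h2 (h3.symm ▸ h1) x hx (by rw [h3]; exact h0), mul_one]

private lemma lawsbW_ld (h : LawV n N par B Z Q f₀ C mu kr)
    (hc : ∀ u ∈ Hs, u ∈ Z ∧ c u ∈ Z ∧ par (c u) = u ∧ chs n par (c u) = ∅) {z : ℕ} (hz : z ≤ N) :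
    ldW N (lawsbW N mu kr Hs c) z = ∑ u ∈ Hs, (mu (c u) z + ∑ x ∈ range (N + 1),
      ∑ y ∈ range (N + 1), (if dd x y = z then mu (par (c u)) x * kr (c u) x y else 0)) := by
  unfold ldW
  rw [sum_add_distrib, sum_add_distrib]
  have h1 : ∑ x ∈ range (N + 1), lawsbW N mu kr Hs c x z = ∑ u ∈ Hs, mu (c u) z := by
    have h2 : ∑ x ∈ range (N + 1), lawsbW N mu kr Hs c x z =
        ∑ x ∈ range (N + 1), ∑ u ∈ Hs, mu u x * kr (c u) x z := by
      refine sum_congr rfl fun x hx => ?_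
      unfold lawsbW
      rw [if_pos ⟨Nat.lt_succ_iff.1 (mem_range.1 hx), hz⟩]
    rw [h2, sum_comm]
    refine sum_congr rfl fun u hu => ?_
    obtain ⟨h1, h2, h3, -⟩ := hc u hu
    have h4 := h.cons (c u) h2 (h3.symm ▸ h1) z hz
    rw [h3] at h4
    exact h4
  have h2 : ∑ x ∈ range (N + 1), ∑ y ∈ range (N + 1),
      (if dd x y = z then lawsbW N mu kr Hs c x y else 0) =
      ∑ u ∈ Hs, ∑ x ∈ range (N + 1), ∑ y ∈ range (N + 1),
        (if dd x y = z then mu (par (c u)) x * kr (c u) x y else 0) := by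
    rw [sum_comm (s := Hs)]
    refine sum_congr rfl fun x hx => ?_
    rw [sum_comm (s := Hs)]
    refine sum_congr rfl fun y hy => ?_
    have hw : lawsbW N mu kr Hs c x y = ∑ u ∈ Hs, mu u x * kr (c u) x y := by
      unfold lawsbW
      rw [if_pos ⟨Nat.lt_succ_iff.1 (mem_range.1 hx), Nat.lt_succ_iff.1 (mem_range.1 hy)⟩]
    rw [hw]
    split_ifs
    · refine sum_congr rfl fun u hu => ?_
      rw [(hc u hu).2.2.1]
    · rw [sum_const_zero]
  rw [h1, h2]

/-- total load of a weight -/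
private lemma lawsb_ld_sum {W : ℕ → ℕ → ℝ} (hW : ∀ x y, 0 ≤ W x y) (hQ : Q ⊆ Icc 1 N) :
    ∑ z ∈ Q, ldW N W z ≤ 2 * ∑ x ∈ range (N + 1), ∑ y ∈ range (N + 1), W x y := by
  have hQ' : Q ⊆ range (N + 1) := fun z hz =>
    mem_range.2 (Nat.lt_succ_iff.2 (mem_Icc.1 (hQ hz)).2)
  unfold ldW
  rw [sum_comm, mul_sum]
  refine sum_le_sum fun x _ => ?_
  rw [sum_add_distrib, two_mul]
  refine add_le_add (sum_le_sum_of_subset_of_nonneg hQ' fun y _ _ => hW x y) ?_
  rw [sum_comm]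
  refine sum_le_sum fun y _ => ?_
  rw [sum_ite_eq]
  split_ifs
  · exact le_rfl
  · exact hW x y

private noncomputable def lawsbMu (N : ℕ) (par : ℕ → ℕ) (Fl : Finset ℕ) (mu : ℕ → ℕ → ℝ)
    (W : ℕ → ℕ → ℝ) (ν : ℕ → ℝ) (v y : ℕ) : ℝ :=
  if v ∈ Fl then ∑ x ∈ range (N + 1), mu (par v) x * (W x y / ν x) else mu v y

private noncomputable def lawsbKr (Fl : Finset ℕ) (kr : ℕ → ℕ → ℕ → ℝ) (W : ℕ → ℕ → ℝ) (ν : ℕ → ℝ)
    (v x y : ℕ) : ℝ :=
  if v ∈ Fl then W x y / ν x else kr v x y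

/-- the new laws -/
private lemma lawsb_new (h : LawV n N par B Z Q f₀ C mu kr) (hBZ : Disjoint B Z)
    (hZn : Z ⊆ range n) (hZ0 : 0 ∉ Z) (hQ : Q ⊆ Icc 1 N) {Fl : Finset ℕ}
    (hF : ∀ v ∈ Fl, v ∈ Z ∧ par v ∈ Hs ∧ chs n par v = ∅) (hHs : Hs ⊆ Z)
    {W : ℕ → ℕ → ℝ} {ν : ℕ → ℝ} (hW : ∀ x y, 0 ≤ W x y)
    (hWs : ∀ x y, W x y ≠ 0 → x ∈ Q ∧ y ∈ Q ∧ dd x y ∈ Q)
    (hν : ∀ x ≤ N, ν x = ∑ u ∈ Hs, mu u x) (hνn : ∀ x, 0 ≤ ν x)
    (hrow : ∀ x ≤ N, ∑ y ∈ range (N + 1), W x y = ν x) {C' : ℝ} (hCC : C ≤ C') (hC' : 0 ≤ C')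
    (hbd : ∀ x ∈ Q, ν x ≠ 0 → ∀ y, W x y / ν x ≤ C' / N) :
    LawV n N par B Z Q f₀ C' (lawsbMu N par Fl mu W ν) (lawsbKr Fl kr W ν) := by
  have hnp : ∀ v ∈ Z, par v ∉ Fl := by
    intro v hv hp
    have h1 := (hF _ hp).2.2
    have h2 : v ∈ chs n par (par v) := by
      unfold chs
      refine mem_filter.2 ⟨hZn hv, ?_, rfl⟩
      rcases Nat.eq_zero_or_pos v with h0 | h0
      · exact absurd (h0 ▸ hv) hZ0
      · exact h0
    rw [h1] at h2
    exact notMem_empty _ h2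
  have hmp : ∀ v ∈ Z, lawsbMu N par Fl mu W ν (par v) = mu (par v) := by
    intro v hv
    funext y
    unfold lawsbMu
    rw [if_neg (hnp v hv)]
  have hCN : C / N ≤ C' / N := by gcongr
  have hCN0 : 0 ≤ C' / N := by positivity
  have hν1 : ∀ u ∈ Hs, ∀ x ≤ N, mu u x ≠ 0 → 0 < ν x := by
    intro u hu x hx hne
    rw [hν x hx]
    have h1 : 0 < mu u x := lt_of_le_of_ne (h.mu_nn u (hHs hu) x) (Ne.symm hne)
    exact lt_of_lt_of_le h1 (single_le_sum (f := fun u => mu u x)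
      (fun w hw => h.mu_nn w (hHs hw) x) hu)
  have hkn : ∀ x y, 0 ≤ W x y / ν x := fun x y => div_nonneg (hW x y) (hνn x)
  have hkle : ∀ x y, W x y / ν x ≤ C' / N := by
    intro x y
    by_cases hx : x ∈ Q
    · by_cases h0 : ν x = 0
      · rw [h0, div_zero]; exact hCN0
      · exact hbd x hx h0 y
    · have h1 : W x y = 0 := by
        by_contra h2
        exact hx (hWs x y h2).1
      rw [h1, zero_div]; exact hCN0
  have hsum1 : ∀ u ∈ Hs, ∀ x ≤ N, mu u x ≠ 0 → ∑ y ∈ range (N + 1), W x y / ν x = 1 := by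
    intro u hu x hx hne
    rw [← sum_div, hrow x hx]
    exact div_self (hν1 u hu x hx hne).ne'
  refine ⟨?_, ?_, ?_, ?_, ?_, ?_, ?_, ?_, ?_⟩
  · intro v hv y
    unfold lawsbMu
    split_ifs with hvF
    · exact sum_nonneg fun x _ => mul_nonneg (h.mu_nn _ (hHs (hF v hvF).2.1) x) (hkn x y)
    · exact h.mu_nn v hv y
  · intro v hv y
    unfold lawsbMu
    split_ifs with hvF
    · have hpZ := hHs (hF v hvF).2.1
      calc ∑ x ∈ range (N + 1), mu (par v) x * (W x y / ν x)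
          ≤ ∑ x ∈ range (N + 1), mu (par v) x * (C' / N) :=
            sum_le_sum fun x _ => mul_le_mul_of_nonneg_left (hkle x y) (h.mu_nn _ hpZ x)
        _ = C' / N := by rw [← sum_mul, h.mu_sum _ hpZ, one_mul]
    · exact (h.mu_le v hv y).trans hCN
  · intro v hv
    by_cases hvF : v ∈ Fl
    · have hpZ := hHs (hF v hvF).2.1
      have h1 : ∀ y, lawsbMu N par Fl mu W ν v y =
          ∑ x ∈ range (N + 1), mu (par v) x * (W x y / ν x) := by
        intro y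
        unfold lawsbMu
        rw [if_pos hvF]
      simp only [h1]
      rw [sum_comm, ← h.mu_sum _ hpZ]
      refine sum_congr rfl fun x hx => ?_
      rw [← mul_sum]
      by_cases h0 : mu (par v) x = 0
      · rw [h0, zero_mul]
      · rw [hsum1 _ (hF v hvF).2.1 x (Nat.lt_succ_iff.1 (mem_range.1 hx)) h0, mul_one]
    · have h1 : ∀ y, lawsbMu N par Fl mu W ν v y = mu v y := by
        intro y
        unfold lawsbMu
        rw [if_neg hvF]
      simp only [h1]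
      exact h.mu_sum v hv
  · intro v hv hp x y
    unfold lawsbKr
    split_ifs with hvF
    · exact hkn x y
    · exact h.kr_nn v hv hp x y
  · intro v hv hp x y hne
    rw [hmp v hv] at hne
    unfold lawsbKr
    split_ifs with hvF
    · exact hkle x y
    · exact (h.kr_le v hv hp x y hne).trans hCN
  · intro v hv hp x hx hne
    rw [hmp v hv] at hne
    by_cases hvF : v ∈ Fl
    · have h1 : ∀ y, lawsbKr Fl kr W ν v x y = W x y / ν x := by
        intro y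
        unfold lawsbKr
        rw [if_pos hvF]
      simp only [h1]
      exact hsum1 _ (hF v hvF).2.1 x hx hne
    · have h1 : ∀ y, lawsbKr Fl kr W ν v x y = kr v x y := by
        intro y
        unfold lawsbKr
        rw [if_neg hvF]
      simp only [h1]
      exact h.kr_sum v hv hp x hx hne
  · intro v hv hp y hy
    rw [hmp v hv]
    by_cases hvF : v ∈ Fl
    · unfold lawsbMu lawsbKr
      simp only [if_pos hvF]
    · unfold lawsbMu lawsbKr
      simp only [if_neg hvF]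
      exact h.cons v hv hp y hy
  · intro v hv hp y hy hne
    have hvF : v ∉ Fl := fun hvF => hp (hHs (hF v hvF).2.1)
    refine h.rule_root v hv hp y hy ?_
    unfold lawsbMu at hne
    rw [if_neg hvF] at hne
    exact hne
  · intro v hv hp x hx y hy hne
    rw [hmp v hv] at hne
    by_cases hvF : v ∈ Fl
    · unfold lawsbKr at hne
      rw [if_pos hvF] at hne
      have h1 : W x y ≠ 0 := by
        intro h2
        apply hne
        rw [h2, zero_div, mul_zero]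
      obtain ⟨h2, h3, h4⟩ := hWs x y h1
      unfold usv
      rw [lawsb_bnb hBZ hp (hF v hvF).2.2, if_pos hp, image_empty]
      intro w hw
      simp only [insert_empty_eq, mem_union, mem_singleton] at hw
      rcases hw with rfl | rfl
      · exact h3
      · exact h4
    · unfold lawsbKr at hne
      rw [if_neg hvF] at hne
      exact h.rule v hv hp x hx y hy hne

/-- the load of the flexible leaves -/
private lemma lawsb_newload (hBZ : Disjoint B Z) {Fl : Finset ℕ}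
    (hF : ∀ v ∈ Fl, v ∈ Z ∧ par v ∈ Hs ∧ chs n par v = ∅) (hHs : Hs ⊆ Z)
    (hmp : ∀ v ∈ Z, par v ∉ Fl) (hmu : ∀ v ∈ Z, ∀ y, 0 ≤ mu v y)
    {W : ℕ → ℕ → ℝ} {ν : ℕ → ℝ} (hW : ∀ x y, 0 ≤ W x y) (hνn : ∀ x, 0 ≤ ν x)
    (hν : ∀ x ≤ N, ∑ v ∈ Fl, mu (par v) x = ν x) {z : ℕ} (hz : z ≤ N) :
    ∑ v ∈ Fl, loadv n N par B Z f₀ (lawsbMu N par Fl mu W ν) (lawsbKr Fl kr W ν) v z ≤
      ldW N W z := by
  have h1 : ∀ v ∈ Fl,
      loadv n N par B Z f₀ (lawsbMu N par Fl mu W ν) (lawsbKr Fl kr W ν) v z ≤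
      ∑ x ∈ range (N + 1), ∑ y ∈ range (N + 1),
        ((if y = z then mu (par v) x * (W x y / ν x) else 0) +
          (if dd x y = z then mu (par v) x * (W x y / ν x) else 0)) := by
    intro v hv
    obtain ⟨h1, h2, h3⟩ := hF v hv
    have hp : par v ∈ Z := hHs h2
    unfold loadv
    rw [if_pos hp]
    refine sum_le_sum fun x _ => sum_le_sum fun y _ => ?_
    have hw : 0 ≤ mu (par v) x * (W x y / ν x) :=
      mul_nonneg (hmu _ hp x) (div_nonneg (hW x y) (hνn x))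
    have hw' : lawsbMu N par Fl mu W ν (par v) x * lawsbKr Fl kr W ν v x y =
        mu (par v) x * (W x y / ν x) := by
      unfold lawsbMu lawsbKr
      rw [if_neg (hmp v h1), if_pos hv]
    rw [hw']
    unfold usv
    rw [lawsb_bnb hBZ hp h3, if_pos hp, image_empty]
    simp only [insert_empty_eq, mem_union, mem_singleton]
    by_cases ha : y = z
    · rw [if_pos ha, if_pos (Or.inl ha.symm)]
      refine le_add_of_nonneg_right ?_
      split_ifs
      · exact hw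
      · exact le_rfl
    · by_cases hb : dd x y = z
      · rw [if_neg ha, if_pos hb, if_pos (Or.inr hb.symm), zero_add]
      · rw [if_neg ha, if_neg hb, if_neg, add_zero]
        rintro (h | h)
        · exact ha h.symm
        · exact hb h.symm
  refine (sum_le_sum h1).trans ?_
  rw [sum_comm]
  unfold ldW
  refine sum_le_sum fun x hx => ?_
  rw [sum_comm]
  have hx' : x ≤ N := Nat.lt_succ_iff.1 (mem_range.1 hx)
  have h2 : ∀ y, ∑ v ∈ Fl, mu (par v) x * (W x y / ν x) ≤ W x y := by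
    intro y
    rw [← sum_mul, hν x hx']
    by_cases h0 : ν x = 0
    · rw [h0, zero_mul]; exact hW x y
    · exact (mul_div_cancel₀ (W x y) h0).le
  calc ∑ y ∈ range (N + 1), ∑ v ∈ Fl, ((if y = z then mu (par v) x * (W x y / ν x) else 0) +
          (if dd x y = z then mu (par v) x * (W x y / ν x) else 0))
      ≤ ∑ y ∈ range (N + 1), ((if y = z then W x y else 0) +
          (if dd x y = z then W x y else 0)) := by
        refine sum_le_sum fun y _ => ?_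
        rw [sum_add_distrib]
        refine add_le_add ?_ ?_
        · split_ifs
          · exact h2 y
          · rw [sum_const_zero]
        · split_ifs
          · exact h2 y
          · rw [sum_const_zero]
    _ = W x z + ∑ y ∈ range (N + 1), (if dd x y = z then W x y else 0) := by
        rw [sum_add_distrib, sum_ite_eq', if_pos (mem_range.2 (Nat.lt_succ_iff.2 hz))]

/-- exceptional rows: double counting -/
private lemma lawsb_half {Xu : ℕ → Finset ℕ} {K : ℝ} (hK : ∀ u ∈ Hs, ((Xu u).card : ℝ) ≤ K)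
    (hK0 : 0 ≤ K) :
    ((Q.filter (fun x => Hs.card < 2 * (Hs.filter (fun u => x ∈ Xu u)).card)).card : ℝ) ≤
      2 * K := by
  set X := Q.filter (fun x => Hs.card < 2 * (Hs.filter (fun u => x ∈ Xu u)).card) with hX
  have h1 : (X.card : ℝ) * Hs.card ≤ 2 * (Hs.card * K) := by
    calc (X.card : ℝ) * Hs.card = ∑ x ∈ X, (Hs.card : ℝ) := by rw [sum_const, nsmul_eq_mul]
      _ ≤ ∑ x ∈ X, 2 * ((Hs.filter (fun u => x ∈ Xu u)).card : ℝ) := by
          refine sum_le_sum fun x hx => ?_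
          have h2 := (mem_filter.1 hx).2
          exact_mod_cast h2.le
      _ = 2 * ∑ x ∈ X, ∑ u ∈ Hs, (if x ∈ Xu u then (1 : ℝ) else 0) := by
          rw [mul_sum]
          refine sum_congr rfl fun x _ => ?_
          rw [card_filter]
          push_cast
          rfl
      _ = 2 * ∑ u ∈ Hs, ∑ x ∈ X, (if x ∈ Xu u then (1 : ℝ) else 0) := by rw [sum_comm]
      _ ≤ 2 * ∑ u ∈ Hs, K := by
          refine mul_le_mul_of_nonneg_left (sum_le_sum fun u hu => ?_) (by norm_num)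
          refine le_trans ?_ (hK u hu)
          rw [← sum_filter, sum_const, nsmul_eq_mul, mul_one]
          exact_mod_cast card_le_card (fun x hx => (mem_filter.1 hx).2)
      _ = 2 * (Hs.card * K) := by rw [sum_const, nsmul_eq_mul]
  rcases Nat.eq_zero_or_pos Hs.card with h0 | h0
  · have h2 : X = ∅ := by
      rw [hX, filter_eq_empty_iff]
      intro x _
      have h3 : (Hs.filter (fun u => x ∈ Xu u)).card ≤ Hs.card := card_filter_le _ _
      omega
    rw [h2, card_empty, Nat.cast_zero]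
    linarith
  · have h2 : (0 : ℝ) < Hs.card := by exact_mod_cast h0
    have h3 : (X.card : ℝ) * Hs.card ≤ (2 * K) * Hs.card := by
      calc _ ≤ _ := h1
        _ = _ := by ring
    exact le_of_mul_le_mul_right h3 h2

private lemma lawsb_low {Xu : ℕ → Finset ℕ} {x : ℕ}
    (hx : ¬ Hs.card < 2 * (Hs.filter (fun u => x ∈ Xu u)).card) {f : ℕ → ℝ} {a : ℝ} (ha : 0 ≤ a)
    (hf : ∀ u ∈ Hs, 0 ≤ f u) (hfa : ∀ u ∈ Hs, x ∉ Xu u → a ≤ f u) :
    (Hs.card : ℝ) / 2 * a ≤ ∑ u ∈ Hs, f u := by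
  have h1 := card_filter_add_card_filter_not (s := Hs) (fun u => x ∈ Xu u)
  have h2 : (Hs.card : ℝ) / 2 ≤ ((Hs.filter (fun u => ¬ x ∈ Xu u)).card : ℝ) := by
    have h3 : Hs.card ≤ 2 * (Hs.filter (fun u => ¬ x ∈ Xu u)).card := by omega
    have h4 : (Hs.card : ℝ) ≤ 2 * ((Hs.filter (fun u => ¬ x ∈ Xu u)).card : ℝ) := by
      exact_mod_cast h3
    linarith
  calc (Hs.card : ℝ) / 2 * a ≤ ((Hs.filter (fun u => ¬ x ∈ Xu u)).card : ℝ) * a :=
        mul_le_mul_of_nonneg_right h2 ha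
    _ = ∑ u ∈ Hs.filter (fun u => ¬ x ∈ Xu u), a := by rw [sum_const, nsmul_eq_mul]
    _ ≤ ∑ u ∈ Hs.filter (fun u => ¬ x ∈ Xu u), f u :=
        sum_le_sum fun u hu => hfa u (mem_filter.1 hu).1 (mem_filter.1 hu).2
    _ ≤ ∑ u ∈ Hs, f u :=
        sum_le_sum_of_subset_of_nonneg (filter_subset _ _) fun u hu _ => hf u hu

/-- the rows of large weight and the good pairs -/
private lemma lawsb_part {m : ℕ} {H : Finset ℕ} {Dom : ℕ → Finset ℕ} {s s' δ : ℝ}
    (hcfg : BCfg n N par H B Z Q f₀ Dom s) (hKB : KB N m Q s)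
    (hb : BaseLaws n N m par H B Z Q f₀ Dom s' C mu kr) (hs' : s' ≤ 1 / 10) (hδ : 0 < δ)
    (hc : ∀ u ∈ Hs, u ∈ Z ∧ c u ∈ Z ∧ par (c u) = u ∧ chs n par (c u) = ∅)
    (hcard : δ * N / 2 ≤ Hs.card)
    (hpart : (∀ u ∈ Hs, par u ∉ H) ∨ (∀ u ∈ Hs, par u ∈ H)) :
    ∃ X : Finset ℕ, (X.card : ℝ) ≤ 2 * (3 * s * N + 2) ∧
      (∀ x ∈ Q, x ∉ X → ∑ u ∈ Hs, mu u x ≠ 0 → δ / (20 * m) ≤ ∑ u ∈ Hs, mu u x) ∧
      (∀ p ∈ Gd N Q X, δ / 100 / N ≤ lawsbW N mu kr Hs c p.1 p.2) := by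
  have hQN : ∀ x ∈ Q, x ≤ N := fun x hx => (mem_Icc.1 (hcfg.QN hx)).2
  have hQc : (Q.card : ℝ) ≤ N := by
    have h1 := card_le_card hcfg.QN
    rw [Nat.card_Icc] at h1
    have h2 : Q.card ≤ N := by omega
    exact_mod_cast h2
  have hm : (1000 : ℝ) ≤ m := by exact_mod_cast hKB.m_ge
  have hm0 : (0 : ℝ) < m := by linarith
  have hN : (1000 : ℝ) * m ≤ N := by exact_mod_cast hKB.N_ge
  have hN1 : (1 : ℝ) ≤ N := by nlinarith
  have hN0 : (0 : ℝ) < N := by linarith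
  have hs0 := hKB.s_nn
  have hK0 : 0 ≤ 3 * s * N + 2 := by positivity
  have hZn0 : 0 < Zn N m Q := by
    have := Zn_pos hKB
    nlinarith
  have hZn1 := Zn_le hKB
  rcases hpart with hpart | hpart
  · set Xu : ℕ → Finset ℕ := fun u => Q \ AllS n par B Q f₀ u with hXu
    have hXc : ∀ u ∈ Hs, ((Xu u).card : ℝ) ≤ 3 * s * N + 2 := by
      intro u hu
      have h1 := AllS_card hcfg (hc u hu).1
      have h2 : AllS n par B Q f₀ u ⊆ Q := filter_subset _ _
      have h3 : (Xu u).card + (AllS n par B Q f₀ u).card = Q.card := card_sdiff_add_card_eq_card h2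
      have h4 : ((Xu u).card : ℝ) + (AllS n par B Q f₀ u).card = Q.card := by exact_mod_cast h3
      linarith
    refine ⟨Q.filter (fun x => Hs.card < 2 * (Hs.filter (fun u => x ∈ Xu u)).card),
      lawsb_half hXc hK0, ?_, ?_⟩
    all_goals
      have hrow : ∀ x ∈ Q, x ∉ Q.filter (fun x => Hs.card < 2 * (Hs.filter (fun u => x ∈ Xu u)).card) →
          (Hs.card : ℝ) / 2 * ((9 / 10) * vv N m Q x) ≤ ∑ u ∈ Hs, mu u x := by
        intro x hx hxX
        have h1 : ¬ Hs.card < 2 * (Hs.filter (fun u => x ∈ Xu u)).card := fun h2 =>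
          hxX (mem_filter.2 ⟨hx, h2⟩)
        have hv := vv_nn hKB x
        refine lawsb_low h1 (by positivity) (fun u hu => hb.law.mu_nn u (hc u hu).1 x) ?_
        intro u hu hxu
        have h2 : x ∈ AllS n par B Q f₀ u := by
          by_contra h3
          exact hxu (mem_sdiff.2 ⟨hx, h3⟩)
        have h3 := hb.low u (hc u hu).1 (hpart u hu) x hx (mem_filter.1 h2).2
        nlinarith
    · intro x hx hxX hne
      have h1 := hrow x hx hxX
      obtain ⟨u, hu, hu'⟩ := exists_ne_zero_of_sum_ne_zero hne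
      have h2 := hb.up u (hc u hu).1 (hpart u hu) x (hQN x hx)
      have h3 : vv N m Q x ≠ 0 := by
        intro h4
        rw [h4, mul_zero] at h2
        exact hu' (le_antisymm h2 (hb.law.mu_nn u (hc u hu).1 x))
      have h4 := (V0_ne hKB (vv_ne hKB h3).2).2.2
      have h5 : 1 / (m : ℝ) / (N + 1) ≤ vv N m Q x := by
        unfold vv
        exact div_le_div₀ (V0_nn x) h4 hZn0 hZn1
      have h6 : δ / (20 * m) ≤ δ * N / 2 / 2 * ((9 / 10) * (1 / (m : ℝ) / (N + 1))) := by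
        have h7 : δ * N / 2 / 2 * ((9 / 10) * (1 / (m : ℝ) / (N + 1))) =
            δ / (20 * m) * ((9 / 2) * (N / (N + 1))) := by
          field_simp
          ring
        rw [h7]
        have h8 : 1 ≤ (9 / 2) * ((N : ℝ) / (N + 1)) := by
          rw [← mul_div_assoc, le_div_iff₀ (by linarith)]
          linarith
        exact le_mul_of_one_le_right (by positivity) h8
      calc δ / (20 * m) ≤ δ * N / 2 / 2 * ((9 / 10) * (1 / (m : ℝ) / (N + 1))) := h6
        _ ≤ (Hs.card : ℝ) / 2 * ((9 / 10) * vv N m Q x) := by gcongr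
        _ ≤ _ := h1
    · rintro ⟨x, y⟩ hp
      obtain ⟨h1, h2, h3, h4, h5, h6⟩ := mem_filter.1 hp
      obtain ⟨hx, hy⟩ := mem_product.1 h1
      simp only at h2 h3 h4 h5 h6 hx hy ⊢
      have hkk : kk N m Q x y = 2 / N := by
        rcases kk_spec hKB x y with h | h
        · exact h.1
        · refine absurd ?_ h.2
          have hm' : 10 ≤ m := le_trans (by norm_num) hKB.m_ge
          exact ⟨hx, hy, h3, h4, h5.trans (Nat.mul_le_mul_right x hm'),
            h6.trans (Nat.mul_le_mul_right y hm')⟩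
      have hW : lawsbW N mu kr Hs c x y = (∑ u ∈ Hs, mu u x) * PP N m Q x y := by
        unfold lawsbW
        rw [if_pos ⟨hQN x hx, hQN y hy⟩, sum_mul]
        refine sum_congr rfl fun u hu => ?_
        obtain ⟨g1, g2, g3, g4⟩ := hc u hu
        rw [hb.krO (c u) g2 (g3.symm ▸ g1) (lawsb_bnb hcfg.BZ (g3.symm ▸ g1) g4)
          (by rw [g3]; exact hpart u hu)]
      rw [hW]
      have h7 := hrow x hx h2
      have h8 := vv_PP hKB x y
      rw [hkk] at h8
      calc δ / 100 / N ≤ δ * N / 2 / 2 * (9 / 10) * (2 / N / (N + 1)) := by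
            have h9 : δ * N / 2 / 2 * (9 / 10) * (2 / N / (N + 1)) =
                δ / 100 / N * (45 * (N / (N + 1))) := by
              field_simp
              ring
            rw [h9]
            have h10 : 1 ≤ 45 * ((N : ℝ) / (N + 1)) := by
              rw [← mul_div_assoc, le_div_iff₀ (by linarith)]
              linarith
            exact le_mul_of_one_le_right (by positivity) h10
        _ ≤ (Hs.card : ℝ) / 2 * (9 / 10) * (2 / N / Zn N m Q) := by gcongr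
        _ = ((Hs.card : ℝ) / 2 * ((9 / 10) * vv N m Q x)) * PP N m Q x y := by
            rw [← h8]; ring
        _ ≤ _ := mul_le_mul_of_nonneg_right h7 (PP_nn x y)
  · set Xu : ℕ → Finset ℕ := fun u => Q \ Dom (par u) with hXu
    have hDQ : ∀ u ∈ Hs, Dom (par u) ⊆ Q := fun u hu y hy => (hcfg.dom _ (hpart u hu) y hy).1
    have hXc : ∀ u ∈ Hs, ((Xu u).card : ℝ) ≤ 3 * s * N + 2 := by
      intro u hu
      have h1 := hcfg.domc _ (hpart u hu)
      have h3 : (Xu u).card + (Dom (par u)).card = Q.card :=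
        card_sdiff_add_card_eq_card (hDQ u hu)
      have h4 : ((Xu u).card : ℝ) + (Dom (par u)).card = Q.card := by exact_mod_cast h3
      have h5 : 0 ≤ s * N := by positivity
      nlinarith
    refine ⟨Q.filter (fun x => Hs.card < 2 * (Hs.filter (fun u => x ∈ Xu u)).card),
      lawsb_half hXc hK0, ?_, ?_⟩
    all_goals
      have hmu : ∀ x ∈ Q, ∀ u ∈ Hs, x ∉ Xu u → 1 / (N : ℝ) ≤ mu u x := by
        intro x hx u hu hxu
        have h2 : x ∈ Dom (par u) := by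
          by_contra h3
          exact hxu (mem_sdiff.2 ⟨hx, h3⟩)
        rw [hb.unif u (hc u hu).1 (hpart u hu) x, if_pos h2]
        have h3 : ((Dom (par u)).card : ℝ) ≤ N :=
          le_trans (by exact_mod_cast card_le_card (hDQ u hu)) hQc
        have h4 : (0 : ℝ) < (Dom (par u)).card := by
          exact_mod_cast card_pos.2 ⟨x, h2⟩
        exact one_div_le_one_div_of_le h4 h3
    · intro x hx hxX hne
      have h1 : ¬ Hs.card < 2 * (Hs.filter (fun u => x ∈ Xu u)).card := fun h2 =>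
        hxX (mem_filter.2 ⟨hx, h2⟩)
      have h2 := lawsb_low h1 (f := fun u => mu u x) (a := 1 / (N : ℝ)) (by positivity)
        (fun u hu => hb.law.mu_nn u (hc u hu).1 x) (fun u hu h3 => hmu x hx u hu h3)
      calc δ / (20 * m) ≤ δ / 4 := by
            rw [div_le_div_iff₀ (by positivity) (by norm_num)]
            nlinarith
        _ = δ * N / 2 / 2 * (1 / (N : ℝ)) := by field_simp; ring
        _ ≤ (Hs.card : ℝ) / 2 * (1 / (N : ℝ)) := by gcongr
        _ ≤ _ := h2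
    · rintro ⟨x, y⟩ hp
      obtain ⟨h1, h2, h3, h4, h5, h6⟩ := mem_filter.1 hp
      obtain ⟨hx, hy⟩ := mem_product.1 h1
      simp only at h2 h3 h4 h5 h6 hx hy ⊢
      have hxX : ¬ Hs.card < 2 * (Hs.filter (fun u => x ∈ Xu u)).card := fun h7 =>
        h2 (mem_filter.2 ⟨hx, h7⟩)
      have hvy : 1 / 10 / ((N : ℝ) + 1) ≤ vv N m Q y := by
        unfold vv
        exact div_le_div₀ (V0_nn y) (V0_ge10 hKB hy h6) hZn0 hZn1
      have hv0 := vv_nn hKB y
      have h7 := lawsb_low hxX (f := fun u => mu u x * kr (c u) x y)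
        (a := 1 / (N : ℝ) * vv N m Q y) (by positivity) ?_ ?_
      · unfold lawsbW
        rw [if_pos ⟨hQN x hx, hQN y hy⟩]
        refine le_trans ?_ h7
        calc δ / 100 / N ≤ δ * N / 2 / 2 * (1 / (N : ℝ) * (1 / 10 / ((N : ℝ) + 1))) := by
              have h9 : δ * N / 2 / 2 * (1 / (N : ℝ) * (1 / 10 / ((N : ℝ) + 1))) =
                  δ / 100 / N * ((5 / 2) * (N / (N + 1))) := by
                field_simp
                ring
              rw [h9]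
              have h10 : 1 ≤ (5 / 2) * ((N : ℝ) / (N + 1)) := by
                rw [← mul_div_assoc, le_div_iff₀ (by linarith)]
                linarith
              exact le_mul_of_one_le_right (by positivity) h10
          _ ≤ (Hs.card : ℝ) / 2 * (1 / (N : ℝ) * vv N m Q y) := by gcongr
      · intro u hu
        obtain ⟨g1, g2, g3, g4⟩ := hc u hu
        exact mul_nonneg (hb.law.mu_nn u g1 x) (hb.law.kr_nn (c u) g2 (g3.symm ▸ g1) x y)
      · intro u hu hxu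
        obtain ⟨g1, g2, g3, g4⟩ := hc u hu
        have h8 := hb.krR (c u) g2 (g3.symm ▸ g1) (lawsb_bnb hcfg.BZ (g3.symm ▸ g1) g4)
          (by rw [g3]; exact hpart u hu) x hx y hy h3
        exact mul_le_mul (hmu x hx u hu hxu) h8 hv0 (hb.law.mu_nn u g1 x)

private lemma lawsb_load_eq {Fl : Finset ℕ} {W : ℕ → ℕ → ℝ} {ν : ℕ → ℝ} {v : ℕ} (hv : v ∉ Fl)
    (hp : par v ∉ Fl) (z : ℕ) :
    loadv n N par B Z f₀ (lawsbMu N par Fl mu W ν) (lawsbKr Fl kr W ν) v z =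
      loadv n N par B Z f₀ mu kr v z := by
  unfold loadv lawsbMu lawsbKr
  simp only [if_neg hv, if_neg hp]

/-- the main part of the proof: the numbers are already chosen -/
private lemma lawsb_main {m : ℕ} {H : Finset ℕ} {Dom : ℕ → Finset ℕ} {s s' s₀ C₁ δ : ℝ}
    (hcfg : BCfg n N par H B Z Q f₀ Dom s) (hKB : KB N m Q s)
    (hb : BaseLaws n N m par H B Z Q f₀ Dom s' C mu kr) (hs' : s' ≤ 1 / 10)
    (hs'0 : s' ≤ s₀ / 10) (hss : s ≤ s₀ / 100) (hs'p : 0 < s') (hδ : 0 < δ) (hC₁ : 0 < C₁)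
    (hC : 0 < C)
    (hc : ∀ u ∈ Hs, u ∈ Z ∧ c u ∈ Z ∧ par (c u) = u ∧ chs n par (c u) = ∅)
    (hcard : δ * N / 2 ≤ Hs.card)
    (hpart : (∀ u ∈ Hs, par u ∉ H) ∨ (∀ u ∈ Hs, par u ∈ H))
    (hN8 : 8 ≤ s₀ * N)
    (hIrr : ((Z.filter (fun v => (bnb n par B v).Nonempty ∧ par v ∉ H)).card : ℝ) ≤ s * N)
    (hcount : ∑ v ∈ Z, (1 + (bnb n par B v).card + (if par v ∈ Z then 1 else 0)) ≤ Q.card)
    (hG : ∀ X : Finset ℕ, (X.card : ℝ) ≤ s₀ * N →
      ∀ W₀ : ℕ → ℕ → ℝ, (∀ x y, 0 ≤ W₀ x y) → (∀ x y, W₀ x y ≠ 0 → x ∈ Q ∧ y ∈ Q ∧ dd x y ∈ Q) →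
      (∀ p ∈ Gd N Q X, δ / 100 / N ≤ W₀ p.1 p.2) →
      ∀ g : ℕ → ℝ, (∀ z ∈ Q, ldW N W₀ z - s₀ ≤ g z ∧ g z ≤ 1) →
      ∑ z ∈ Q, ldW N W₀ z ≤ ∑ z ∈ Q, g z →
      ∃ W : ℕ → ℕ → ℝ, (∀ x y, 0 ≤ W x y) ∧ (∀ x y, W x y ≠ 0 → x ∈ Q ∧ y ∈ Q ∧ dd x y ∈ Q) ∧
      (∀ x, ∑ y ∈ range (N + 1), W x y = ∑ y ∈ range (N + 1), W₀ x y) ∧
      (∀ x y, W x y ≤ W₀ x y + C₁ / N) ∧ (∀ x ∈ X, ∀ y, W x y = W₀ x y) ∧
      ∀ z ∈ Q, ldW N W z ≤ g z) :
    ∃ (mu : ℕ → ℕ → ℝ) (kr : ℕ → ℕ → ℕ → ℝ),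
      LawV n N par B Z Q f₀ (C + C₁ * (20 * m) / δ) mu kr ∧
      (∀ z ∈ Q, ∑ v ∈ Z, loadv n N par B Z f₀ mu kr v z ≤ 1) ∧
      (∀ v ∈ Z, par v ∈ H → ∀ y,
        mu v y = if y ∈ Dom (par v) then 1 / ((Dom (par v)).card : ℝ) else 0) := by
  have hQN : ∀ x ∈ Q, x ≤ N := fun x hx => (mem_Icc.1 (hcfg.QN hx)).2
  have hQN' : ∀ x ≤ N, x ∈ range (N + 1) := fun x hx => mem_range.2 (Nat.lt_succ_iff.2 hx)
  have hQc : (Q.card : ℝ) ≤ N := by
    have h1 := card_le_card hcfg.QN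
    rw [Nat.card_Icc] at h1
    have h2 : Q.card ≤ N := by omega
    exact_mod_cast h2
  have hm : (1000 : ℝ) ≤ m := by exact_mod_cast hKB.m_ge
  have hm0 : (0 : ℝ) < m := by linarith
  have hN : (1000 : ℝ) * m ≤ N := by exact_mod_cast hKB.N_ge
  have hN1 : (1 : ℝ) ≤ N := by nlinarith
  have hN0 : (0 : ℝ) < N := by linarith
  have hs0 := hKB.s_nn
  have hs₀ : 0 < s₀ := by
    by_contra h1
    have h2 : s₀ * N ≤ 0 := mul_nonpos_of_nonpos_of_nonneg (not_lt.1 h1) hN0.le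
    linarith
  have hHsZ : Hs ⊆ Z := fun u hu => (hc u hu).1
  obtain ⟨X, hXc, hXν, hXg⟩ := lawsb_part hcfg hKB hb hs' hδ hc hcard hpart
  -- the flexible leaves
  have hinj : Set.InjOn c Hs := by
    intro u hu w hw huw
    rw [← (hc u hu).2.2.1, ← (hc w hw).2.2.1, huw]
  set Fl := Hs.image c with hFl
  have hFlsum : ∀ F : ℕ → ℝ, ∑ v ∈ Fl, F v = ∑ u ∈ Hs, F (c u) := by
    intro F
    rw [hFl, sum_image hinj]
  have hFlc : Fl.card = Hs.card := card_image_of_injOn hinj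
  have hF : ∀ v ∈ Fl, v ∈ Z ∧ par v ∈ Hs ∧ chs n par v = ∅ := by
    intro v hv
    obtain ⟨u, hu, rfl⟩ := mem_image.1 hv
    obtain ⟨h1, h2, h3, h4⟩ := hc u hu
    exact ⟨h2, h3.symm ▸ hu, h4⟩
  have hFlZ : Fl ⊆ Z := fun v hv => (hF v hv).1
  have hFb : ∀ v ∈ Fl, bnb n par B v = ∅ := fun v hv =>
    lawsb_bnb hcfg.BZ (hHsZ (hF v hv).2.1) (hF v hv).2.2
  have hnp : ∀ v ∈ Z, par v ∉ Fl := by
    intro v hv hp
    have h1 := (hF _ hp).2.2
    have h2 : v ∈ chs n par (par v) := by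
      unfold chs
      refine mem_filter.2 ⟨hcfg.Zsub hv, ?_, rfl⟩
      rcases Nat.eq_zero_or_pos v with h0 | h0
      · exact absurd (h0 ▸ hv) hcfg.Z0
      · exact h0
    rw [h1] at h2
    exact notMem_empty _ h2
  -- the base weight
  set W₀ := lawsbW N mu kr Hs c with hW₀
  have hW0 : ∀ x y, 0 ≤ W₀ x y := lawsbW_nn hb.law hc
  have hWs : ∀ x y, W₀ x y ≠ 0 → x ∈ Q ∧ y ∈ Q ∧ dd x y ∈ Q := fun x y => lawsbW_supp hb.law hc
  have hrow : ∀ x ≤ N, ∑ y ∈ range (N + 1), W₀ x y = ∑ u ∈ Hs, mu u x := fun x hx =>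
    lawsbW_row hb.law hc hx
  set L : ℕ → ℕ → ℝ := fun v z => loadv n N par B Z f₀ mu kr v z with hL
  have hL0 : ∀ v ∈ Z, ∀ z, 0 ≤ L v z := fun v hv z => lawsb_load_nn hb.law hv z
  -- the load bound
  have hld : ∀ z ∈ Q, ldW N W₀ z ≤ (Hs.card : ℝ) * ((1 + s') * (2 / N)) := by
    intro z hz
    rw [hW₀, lawsbW_ld hb.law hc (hQN z hz)]
    calc _ ≤ ∑ u ∈ Hs, (1 + s') * (2 / (N : ℝ)) := by
          refine sum_le_sum fun u hu => ?_
          obtain ⟨g1, g2, g3, g4⟩ := hc u hu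
          exact hb.regE (c u) g2 (g3.symm ▸ g1) (lawsb_bnb hcfg.BZ (g3.symm ▸ g1) g4) z hz
      _ = _ := by rw [sum_const, nsmul_eq_mul]
  have hbase : ∀ z ∈ Q, ∑ v ∈ Z \ Fl, L v z ≤
      ((Z \ Fl).card : ℝ) * ((1 + s') * (2 / N)) + s * N * (25 / N) := by
    intro z hz
    calc ∑ v ∈ Z \ Fl, L v z ≤ ∑ v ∈ Z \ Fl, ((1 + s') * (2 / (N : ℝ)) +
          (if (bnb n par B v).Nonempty ∧ par v ∉ H then 25 / (N : ℝ) else 0)) := by
          refine sum_le_sum fun v hv => ?_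
          have hvZ := (mem_sdiff.1 hv).1
          split_ifs with hi
          · have h1 := hb.irr v hvZ z hz
            have h2 : 0 ≤ (1 + s') * (2 / (N : ℝ)) := by positivity
            linarith
          · rw [add_zero]
            refine hb.reg v hvZ ?_ z hz
            by_cases hp : par v ∈ H
            · exact Or.inl hp
            · right
              by_contra h1
              exact hi ⟨nonempty_iff_ne_empty.2 h1, hp⟩
      _ = ((Z \ Fl).card : ℝ) * ((1 + s') * (2 / N)) + ∑ v ∈ Z \ Fl,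
          (if (bnb n par B v).Nonempty ∧ par v ∉ H then 25 / (N : ℝ) else 0) := by
          rw [sum_add_distrib, sum_const, nsmul_eq_mul]
      _ ≤ ((Z \ Fl).card : ℝ) * ((1 + s') * (2 / N)) + ∑ v ∈ Z,
          (if (bnb n par B v).Nonempty ∧ par v ∉ H then 25 / (N : ℝ) else 0) := by
          refine add_le_add le_rfl (sum_le_sum_of_subset_of_nonneg sdiff_subset fun v _ _ => ?_)
          split_ifs
          · positivity
          · exact le_rfl
      _ = ((Z \ Fl).card : ℝ) * ((1 + s') * (2 / N)) +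
          ((Z.filter (fun v => (bnb n par B v).Nonempty ∧ par v ∉ H)).card : ℝ) * (25 / N) := by
          rw [← sum_filter, sum_const, nsmul_eq_mul]
      _ ≤ _ := by gcongr
  have hZc : (Z.card : ℝ) * 2 ≤ N := by
    have h1 : Z ⊆ Ico 1 n := by
      intro v hv
      refine mem_Ico.2 ⟨?_, mem_range.1 (hcfg.Zsub hv)⟩
      rcases Nat.eq_zero_or_pos v with h0 | h0
      · exact absurd (h0 ▸ hv) hcfg.Z0
      · exact h0
    have h2 := card_le_card h1
    rw [Nat.card_Ico] at h2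
    have h3 : Z.card * 2 ≤ N := by
      rw [hcfg.N_eq]
      omega
    exact_mod_cast h3
  have hsplit : ((Z \ Fl).card : ℝ) + Hs.card = Z.card := by
    have h1 : (Z \ Fl).card + Fl.card = Z.card := card_sdiff_add_card_eq_card hFlZ
    rw [hFlc] at h1
    exact_mod_cast h1
  set g : ℕ → ℝ := fun z => 1 - ∑ v ∈ Z \ Fl, L v z with hg
  have hg1 : ∀ z ∈ Q, ldW N W₀ z - s₀ ≤ g z ∧ g z ≤ 1 := by
    intro z hz
    constructor
    · have h1 := hld z hz
      have h2 := hbase z hz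
      have h3 : (Hs.card : ℝ) * ((1 + s') * (2 / N)) + ((Z \ Fl).card : ℝ) * ((1 + s') * (2 / N)) =
          (Z.card : ℝ) * ((1 + s') * (2 / N)) := by rw [← hsplit]; ring
      have h4 : (Z.card : ℝ) * ((1 + s') * (2 / N)) ≤ 1 + s' := by
        have h5 : (Z.card : ℝ) * ((1 + s') * (2 / N)) = (1 + s') * ((Z.card : ℝ) * 2 / N) := by ring
        rw [h5]
        have h6 : (Z.card : ℝ) * 2 / N ≤ 1 := by rw [div_le_one hN0]; exact hZc
        exact mul_le_of_le_one_right (by linarith) h6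
      have h5 : s * N * (25 / N) = 25 * s := by field_simp
      have h6 : ∑ v ∈ Z \ Fl, L v z + ldW N W₀ z ≤ 1 + s' + 25 * s := by linarith
      simp only [hg]
      linarith
    · have h1 : 0 ≤ ∑ v ∈ Z \ Fl, L v z :=
        sum_nonneg fun v hv => hL0 v (mem_sdiff.1 hv).1 z
      simp only [hg]
      linarith
  have hHsum : ∑ x ∈ range (N + 1), ∑ y ∈ range (N + 1), W₀ x y = Hs.card := by
    have h1 : ∑ x ∈ range (N + 1), ∑ y ∈ range (N + 1), W₀ x y =
        ∑ x ∈ range (N + 1), ∑ u ∈ Hs, mu u x :=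
      sum_congr rfl fun x hx => hrow x (Nat.lt_succ_iff.1 (mem_range.1 hx))
    rw [h1, sum_comm]
    calc ∑ u ∈ Hs, ∑ x ∈ range (N + 1), mu u x = ∑ u ∈ Hs, (1 : ℝ) :=
          sum_congr rfl fun u hu => hb.law.mu_sum u (hHsZ hu)
      _ = Hs.card := by rw [sum_const, nsmul_eq_mul, mul_one]
  set e : ℕ → ℕ := fun v => 1 + (bnb n par B v).card + (if par v ∈ Z then 1 else 0) with he
  have hgsum : ∑ z ∈ Q, ldW N W₀ z ≤ ∑ z ∈ Q, g z := by
    have h1 := lawsb_ld_sum hW0 hcfg.QN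
    rw [hHsum] at h1
    have h2 : ∑ z ∈ Q, g z = Q.card - ∑ v ∈ Z \ Fl, ∑ z ∈ Q, L v z := by
      simp only [hg]
      rw [sum_sub_distrib, sum_const, nsmul_eq_mul, mul_one, sum_comm]
    have h3 : ∑ v ∈ Z \ Fl, ∑ z ∈ Q, L v z ≤ ∑ v ∈ Z \ Fl, (e v : ℝ) :=
      sum_le_sum fun v hv => lawsb_load_sum hb.law (mem_sdiff.1 hv).1
    have h4 : ∑ v ∈ Z \ Fl, (e v : ℝ) + ∑ v ∈ Fl, (e v : ℝ) = ∑ v ∈ Z, (e v : ℝ) :=
      sum_sdiff hFlZ
    have h5 : ∑ v ∈ Fl, (e v : ℝ) = 2 * Hs.card := by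
      have h6 : ∀ v ∈ Fl, (e v : ℝ) = 2 := by
        intro v hv
        simp only [he]
        rw [hFb v hv, if_pos (hHsZ (hF v hv).2.1), card_empty]
        norm_num
      rw [sum_congr rfl h6, sum_const, nsmul_eq_mul, hFlc]
      ring
    have h6 : ∑ v ∈ Z, (e v : ℝ) ≤ Q.card := by exact_mod_cast hcount
    rw [h2]
    linarith
  have hXs : (X.card : ℝ) ≤ s₀ * N := by
    have h1 : s * N ≤ s₀ / 100 * N := mul_le_mul_of_nonneg_right hss hN0.le
    nlinarith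
  obtain ⟨W, hW, hWsupp, hWrow, hWle, hWX, hWld⟩ := hG X hXs W₀ hW0 hWs hXg g hg1 hgsum
  -- the new laws
  set ν : ℕ → ℝ := fun x => ∑ u ∈ Hs, mu u x with hν
  have hνn : ∀ x, 0 ≤ ν x := fun x => sum_nonneg fun u hu => hb.law.mu_nn u (hHsZ hu) x
  have hC' : 0 ≤ C + C₁ * (20 * m) / δ := by positivity
  have hCC : C ≤ C + C₁ * (20 * m) / δ := by
    have : 0 ≤ C₁ * (20 * m) / δ := by positivity
    linarith
  have hWrow' : ∀ x ≤ N, ∑ y ∈ range (N + 1), W x y = ν x := fun x hx => by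
    rw [hWrow x, hrow x hx]
  have hW0le : ∀ x y, W₀ x y ≤ C / N * ν x := by
    intro x y
    by_cases hxy : x ≤ N ∧ y ≤ N
    · rw [hW₀]
      unfold lawsbW
      rw [if_pos hxy, hν, mul_sum]
      refine sum_le_sum fun u hu => ?_
      obtain ⟨g1, g2, g3, g4⟩ := hc u hu
      have g5 : par (c u) ∈ Z := g3.symm ▸ g1
      by_cases h0 : mu u x = 0
      · rw [h0, zero_mul, mul_zero]
      · rw [mul_comm]
        refine mul_le_mul_of_nonneg_right ?_ (hb.law.mu_nn u g1 x)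
        exact hb.law.kr_le (c u) g2 g5 x y (by rw [g3]; exact h0)
    · rw [hW₀]
      unfold lawsbW
      rw [if_neg hxy]
      have := hνn x
      positivity
  have hbd : ∀ x ∈ Q, ν x ≠ 0 → ∀ y, W x y / ν x ≤ (C + C₁ * (20 * m) / δ) / N := by
    intro x hx hne y
    have hpos : 0 < ν x := lt_of_le_of_ne (hνn x) (Ne.symm hne)
    rw [div_le_iff₀ hpos]
    by_cases hxX : x ∈ X
    · rw [hWX x hxX y]
      refine (hW0le x y).trans ?_
      refine mul_le_mul_of_nonneg_right ?_ hpos.le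
      gcongr
    · have h1 := hXν x hx hxX hne
      have h2 := hWle x y
      have h3 := hW0le x y
      have h4 : C₁ / N ≤ C₁ * (20 * m) / δ / N * ν x := by
        calc C₁ / N = C₁ * (20 * m) / δ / N * (δ / (20 * m)) := by field_simp
          _ ≤ _ := mul_le_mul_of_nonneg_left h1 (by positivity)
      calc W x y ≤ C / N * ν x + C₁ * (20 * m) / δ / N * ν x := by linarith
        _ = _ := by ring
  refine ⟨lawsbMu N par Fl mu W ν, lawsbKr Fl kr W ν,
    lawsb_new hb.law hcfg.BZ hcfg.Zsub hcfg.Z0 hcfg.QN hF hHsZ hW hWsupp (fun x _ => rfl) hνn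
      hWrow' hCC hC' hbd, ?_, ?_⟩
  · intro z hz
    have hz' := hQN z hz
    have h1 : ∑ v ∈ Z \ Fl,
        loadv n N par B Z f₀ (lawsbMu N par Fl mu W ν) (lawsbKr Fl kr W ν) v z =
        ∑ v ∈ Z \ Fl, L v z := by
      refine sum_congr rfl fun v hv => ?_
      obtain ⟨h2, h3⟩ := mem_sdiff.1 hv
      exact lawsb_load_eq h3 (hnp v h2) z
    have h2 : ∑ v ∈ Fl,
        loadv n N par B Z f₀ (lawsbMu N par Fl mu W ν) (lawsbKr Fl kr W ν) v z ≤ ldW N W z := by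
      refine lawsb_newload hcfg.BZ hF hHsZ hnp hb.law.mu_nn hW hνn ?_ hz'
      intro x hx
      rw [hFlsum (fun v => mu (par v) x), hν]
      refine sum_congr rfl fun u hu => ?_
      rw [(hc u hu).2.2.1]
    have h3 := hWld z hz
    have h4 := sum_sdiff (f := fun v =>
      loadv n N par B Z f₀ (lawsbMu N par Fl mu W ν) (lawsbKr Fl kr W ν) v z) hFlZ
    rw [← h4, h1]
    simp only [hg] at h3
    linarith
  · intro v hv hp y
    have hvF : v ∉ Fl := by
      intro h1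
      have h2 := hHsZ (hF v h1).2.1
      exact disjoint_left.1 hcfg.BZ (hcfg.HB hp) h2
    unfold lawsbMu
    rw [if_neg hvF]
    exact hb.unif v hv hp y

end LawsB

theorem lawsB (δ : ℝ) (hδ : 0 < δ) : ∃ s C : ℝ, 0 < s ∧ 0 < C ∧ ∃ N₀ : ℕ,
    ∀ (n N : ℕ) (par : ℕ → ℕ) (H B Z Q : Finset ℕ) (f₀ : ℕ → ℕ) (Dom : ℕ → Finset ℕ), N₀ ≤ N →
      BCfg n N par H B Z Q f₀ Dom s →
      ((Z.filter (fun v => (bnb n par B v).Nonempty ∧ par v ∉ H)).card : ℝ) ≤ s * N →
      δ * N ≤ ((Z.filter (fun u => ∃ c ∈ Z, par c = u ∧ chs n par c = ∅)).card : ℝ) →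
      ∑ v ∈ Z, (1 + (bnb n par B v).card + (if par v ∈ Z then 1 else 0)) ≤ Q.card →
      ∃ (mu : ℕ → ℕ → ℝ) (kr : ℕ → ℕ → ℕ → ℝ), LawV n N par B Z Q f₀ C mu kr ∧
        (∀ z ∈ Q, ∑ v ∈ Z, loadv n N par B Z f₀ mu kr v z ≤ 1) ∧
        (∀ v ∈ Z, par v ∈ H → ∀ y,
          mu v y = if y ∈ Dom (par v) then 1 / ((Dom (par v)).card : ℝ) else 0) := by
  obtain ⟨s₀, C₁, hs₀, hC₁, N₁, hG⟩ := lemG (δ / 100) (by positivity)
  have hs'p : 0 < min (1 / 10 : ℝ) (s₀ / 10) := lt_min (by norm_num) (by positivity)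
  obtain ⟨m, hm, sb, C, hsb, hsb', hmsb, hC, N₂, hN₂, hB⟩ := base_laws _ hs'p
  have hm' : (1000 : ℝ) ≤ m := by exact_mod_cast hm
  have hsp : 0 < min sb (s₀ / 100) := lt_min hsb (by positivity)
  refine ⟨min sb (s₀ / 100), C + C₁ * (20 * m) / δ, hsp, by positivity,
    max (max N₁ N₂) (⌈8 / s₀⌉₊ + 1), ?_⟩
  intro n N par H B Z Q f₀ Dom hNle hcfg hIrr hhosts hcount
  have hN₁ : N₁ ≤ N := (le_max_left _ _).trans ((le_max_left _ _).trans hNle)
  have hN₂' : N₂ ≤ N := (le_max_right _ _).trans ((le_max_left _ _).trans hNle)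
  have hN3 : ⌈8 / s₀⌉₊ + 1 ≤ N := (le_max_right _ _).trans hNle
  have hN8 : 8 ≤ s₀ * N := by
    have h1 : 8 / s₀ ≤ (⌈8 / s₀⌉₊ : ℝ) := Nat.le_ceil _
    have h2 : ((⌈8 / s₀⌉₊ + 1 : ℕ) : ℝ) ≤ N := by exact_mod_cast hN3
    push_cast at h2
    have h3 : 8 / s₀ ≤ N := by linarith
    rw [div_le_iff₀ hs₀] at h3
    linarith
  have hN0 : (0 : ℝ) ≤ N := Nat.cast_nonneg N
  have hcfg' : BCfg n N par H B Z Q f₀ Dom sb := by
    have h1 : min sb (s₀ / 100) ≤ sb := min_le_left _ _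
    have h2 : min sb (s₀ / 100) * N ≤ sb * N := mul_le_mul_of_nonneg_right h1 hN0
    refine ⟨hcfg.isP, hcfg.N_eq, hcfg.HB, hcfg.Bsub, hcfg.Zsub, hcfg.BZ, hcfg.Z0, hcfg.QN,
      hcfg.Qc.trans h2, hcfg.one, hcfg.fB, hcfg.dom, fun h hh => ?_⟩
    refine le_trans ?_ (hcfg.domc h hh)
    nlinarith
  obtain ⟨mu, kr, hb⟩ := hB n N par H B Z Q f₀ Dom hN₂' hcfg'
  have hKB : KB N m Q (min sb (s₀ / 100)) := by
    refine ⟨hm, hN₂.trans hN₂', hcfg.QN, hsp.le, hcfg.Qc, ?_⟩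
    have h1 : min sb (s₀ / 100) ≤ sb := min_le_left _ _
    have h2 : 1000 * (m : ℝ) * min sb (s₀ / 100) ≤ 1000 * m * sb := by gcongr
    exact h2.trans hmsb
  -- the base laws for the smaller constant of the configuration
  have hex : ∀ u ∈ Z.filter (fun u => ∃ c ∈ Z, par c = u ∧ chs n par c = ∅),
      ∃ c ∈ Z, par c = u ∧ chs n par c = ∅ := fun u hu => (mem_filter.1 hu).2
  choose! c hcZ hcp hcc using hex
  set hosts := Z.filter (fun u => ∃ c ∈ Z, par c = u ∧ chs n par c = ∅) with hho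
  obtain ⟨Hs, hHs, hHcard, hpart⟩ : ∃ Hs ⊆ hosts, δ * N / 2 ≤ (Hs.card : ℝ) ∧
      ((∀ u ∈ Hs, par u ∉ H) ∨ (∀ u ∈ Hs, par u ∈ H)) := by
    have h1 := card_filter_add_card_filter_not (s := hosts) (fun u => par u ∈ H)
    have h2 : ((hosts.filter (fun u => par u ∈ H)).card : ℝ) +
        ((hosts.filter (fun u => ¬ par u ∈ H)).card : ℝ) = hosts.card := by exact_mod_cast h1
    by_cases h3 : δ * N / 2 ≤ ((hosts.filter (fun u => par u ∈ H)).card : ℝ)
    · exact ⟨_, filter_subset _ _, h3, Or.inr fun u hu => (mem_filter.1 hu).2⟩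
    · refine ⟨_, filter_subset _ _, ?_, Or.inl fun u hu => (mem_filter.1 hu).2⟩
      rw [not_le] at h3
      linarith
  have hc : ∀ u ∈ Hs, u ∈ Z ∧ c u ∈ Z ∧ par (c u) = u ∧ chs n par (c u) = ∅ := fun u hu =>
    ⟨(mem_filter.1 (hHs hu)).1, hcZ u (hHs hu), hcp u (hHs hu), hcc u (hHs hu)⟩
  have hb' : BaseLaws n N m par H B Z Q f₀ Dom (min (1 / 10) (s₀ / 10)) C mu kr := hb
  refine lawsb_main hcfg hKB hb' (min_le_left _ _) (min_le_right _ _) (min_le_right _ _) hs'p hδ hC₁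
    hC hc hHcard hpart hN8 hIrr hcount ?_
  intro X hX W₀ h1 h2 h3 g h4 h5
  refine hG N hN₁ Q X hcfg.QN (hcfg.Qc.trans ?_) hX W₀ h1 h2 h3 g h4 h5
  have h6 : min sb (s₀ / 100) ≤ s₀ := (min_le_right _ _).trans (by linarith)
  exact mul_le_mul_of_nonneg_right h6 hN0

end SSB
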