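import Pool.Agent.Lib.MP_8a819d_co.AT.Defs
import Pool.Agent.Lib.MP_8a819d_co.BD.Em5

/-!
# MP_8a819d_co, trees with many non-leaves: automatic parity

JOB ParH (all of this file).

All vertices outside `H` have odd degree, the labels of `H` are odd. `Λ`: childless vertices, `v ↦ f (par v)` is a bijection
from `Λ` to `Lb`. Then `∑ items (range n \ Λ) + ∑ Lb + n` is even.

PROOF. As `parity_odd` in BD/Em5.lean (copy the beginning): with `T = range n \ Λ`,
`∑ x ∈ items par T, val x ≡ ∑ u ∈ T, f u (1 + pdeg u) - ∑ Lb` mod 2. For `u ∉ H` the factor `1 + pdeg u` is even; for `u ∈ H`, `f u` is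
odd; elements of `Λ` have degree `1`, odd [an element `u ∈ Λ ∩ H` would be excluded from the sum over `T` but `1 + pdeg u = 2` is even, so
it does not matter]. So the sum is `≡ ∑ u ∈ H, (1 + pdeg u) - ∑ Lb ≡ #{u < n : pdeg u even} - ∑ Lb`, (all vertices with even degree are in
`H`). Finally `#{u < n : pdeg u even} ≡ n - #{odd}` and `#{odd} ≡ ∑ u, pdeg u = 2 (n - 1) ≡ 0`.
-/

set_option autoImplicit false

namespace SSB

open Finset

private theorem parH_dd (a b : ℕ) : ((dd a b : ℕ) : ZMod 2) = a + b := by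
  have h1 : dd a b % 2 = (a + b) % 2 := by
    unfold dd
    omega
  have h2 : ((dd a b : ℕ) : ZMod 2) = ((a + b : ℕ) : ZMod 2) :=
    (ZMod.natCast_eq_natCast_iff' _ _ _).2 h1
  rw [h2, Nat.cast_add]

private theorem parH_chs {n : ℕ} {par : ℕ → ℕ} (hpar : IsPar n par) (G : ℕ → ZMod 2) :
    ∑ v ∈ (range n).filter (fun v => 1 ≤ v), G (par v) =
      ∑ u ∈ range n, ((chs n par u).card : ZMod 2) * G u := by
  classical
  rw [← sum_fiberwise_of_maps_to (t := range n) (g := par) fun v hv => by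
    rw [mem_filter, mem_range] at hv
    exact mem_range.2 ((hpar v hv.2 hv.1).trans hv.1)]
  refine sum_congr rfl fun u _ => ?_
  have h1 : ((range n).filter (fun v => 1 ≤ v)).filter (fun v => par v = u) = chs n par u := by
    ext v
    rw [mem_filter, mem_filter, mem_range, mem_chs, and_assoc]
  rw [h1]
  have h2 : ∑ v ∈ chs n par u, G (par v) = ∑ _v ∈ chs n par u, G u :=
    sum_congr rfl fun v hv => by rw [(mem_chs.1 hv).2.2]
  rw [h2, sum_const, nsmul_eq_mul]

theorem parity_H {n : ℕ} {par : ℕ → ℕ} (hpar : IsPar n par) (hn : 1 ≤ n) {H : Finset ℕ}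
    (hH : H ⊆ range n) (hodd : ∀ i < n, i ∉ H → pdeg n par i % 2 = 1) {Λ : Finset ℕ}
    (hΛ : Λ ⊆ range n) (hΛ1 : ∀ v ∈ Λ, 1 ≤ v ∧ chs n par v = ∅) {f : ℕ → ℕ}
    (hfH : ∀ h ∈ H, f h % 2 = 1) {Lb : Finset ℕ} (hbij : Set.BijOn (fun v => f (par v)) Λ Lb) :
    (∑ x ∈ items par (range n \ Λ), val par f x + ∑ c ∈ Lb, c + n) % 2 = 0 := by
  classical
  have hparT : ∀ v ∈ range n \ Λ, 1 ≤ v → par v ∈ range n \ Λ := fun v hv h1 => by
    rw [mem_sdiff, mem_range] at hv ⊢
    refine ⟨(hpar v h1 hv.1).trans hv.1, fun hΛ' => ?_⟩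
    have h2 : v ∈ chs n par (par v) := mem_chs.2 ⟨hv.1, h1, rfl⟩
    rw [(hΛ1 _ hΛ').2] at h2
    exact absurd h2 (notMem_empty v)
  -- the sum over the items
  have e1 : ((∑ x ∈ items par (range n \ Λ), val par f x : ℕ) : ZMod 2) =
      ∑ v ∈ range n \ Λ, (f v : ZMod 2) +
        ∑ v ∈ (range n \ Λ).filter (fun v => 1 ≤ v), ((f v : ZMod 2) + f (par v)) := by
    have h2 : (range n \ Λ).filter (fun i => 1 ≤ i ∧ par i ∈ range n \ Λ) =
        (range n \ Λ).filter (fun v => 1 ≤ v) :=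
      filter_congr fun v hv => ⟨fun h => h.1, fun h => ⟨h, hparT v hv h⟩⟩
    have h3 : Disjoint ((range n \ Λ).image Sum.inl : Finset (ℕ ⊕ ℕ))
        (((range n \ Λ).filter (fun v => 1 ≤ v)).image Sum.inr) := by
      rw [disjoint_left]
      intro x hx hx'
      obtain ⟨a, -, rfl⟩ := mem_image.1 hx
      obtain ⟨b, -, hb⟩ := mem_image.1 hx'
      exact absurd hb Sum.inr_ne_inl
    unfold items
    rw [h2, sum_union h3, sum_image (fun a _ b _ h => Sum.inl.inj h),
      sum_image (fun a _ b _ h => Sum.inr.inj h), Nat.cast_add, Nat.cast_sum, Nat.cast_sum]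
    refine congrArg₂ (· + ·) rfl (sum_congr rfl fun v _ => ?_)
    exact parH_dd _ _
  -- the sum of the labels
  have e2 : ((∑ c ∈ Lb, c : ℕ) : ZMod 2) = ∑ v ∈ Λ, (f (par v) : ZMod 2) := by
    rw [Nat.cast_sum]
    symm
    refine sum_bij (fun v _ => f (par v)) (fun v hv => ?_) (fun v hv w hw h => ?_)
      (fun c hc => ?_) (fun v hv => rfl)
    · exact mem_coe.1 (hbij.mapsTo (mem_coe.2 hv))
    · exact hbij.injOn (mem_coe.2 hv) (mem_coe.2 hw) h
    · obtain ⟨v, hv, hvc⟩ := hbij.surjOn (mem_coe.2 hc)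
      exact ⟨v, mem_coe.1 hv, hvc⟩
  -- the number of children
  have e3 : ∑ v ∈ (range n \ Λ).filter (fun v => 1 ≤ v), (f (par v) : ZMod 2) +
      ∑ v ∈ Λ, (f (par v) : ZMod 2) =
        ∑ u ∈ range n \ Λ, ((chs n par u).card : ZMod 2) * f u := by
    have h1 : (range n).filter (fun v => 1 ≤ v) =
        (range n \ Λ).filter (fun v => 1 ≤ v) ∪ Λ := by
      ext v
      simp only [mem_filter, mem_union, mem_sdiff]
      constructor
      · rintro ⟨h1, h2⟩
        by_cases hv : v ∈ Λ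
        · exact Or.inr hv
        · exact Or.inl ⟨⟨h1, hv⟩, h2⟩
      · rintro (⟨⟨h1, -⟩, h2⟩ | h)
        · exact ⟨h1, h2⟩
        · exact ⟨hΛ h, (hΛ1 v h).1⟩
    have h2 : Disjoint ((range n \ Λ).filter (fun v => 1 ≤ v)) Λ :=
      disjoint_of_subset_left (filter_subset _ _) sdiff_disjoint
    have h3 := parH_chs hpar (fun u => (f u : ZMod 2))
    rw [h1, sum_union h2] at h3
    rw [h3, ← sum_sdiff hΛ, add_eq_left]
    refine sum_eq_zero fun u hu => ?_
    rw [(hΛ1 u hu).2, card_empty, Nat.cast_zero, zero_mul]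
  have h2z : (1 : ZMod 2) + 1 = 0 := rfl
  -- the degrees
  have e4 : ∀ u < n, u ∉ H →
      ((chs n par u).card : ZMod 2) + (if u = 0 then 0 else 1) = 1 := fun u hu huH => by
    have h1 := hodd u hu huH
    unfold pdeg at h1
    have h2 : (((chs n par u).card + (if u = 0 then 0 else 1) : ℕ) : ZMod 2) = ((1 : ℕ) : ZMod 2) :=
      (ZMod.natCast_eq_natCast_iff' _ _ _).2 h1
    rw [Nat.cast_one, Nat.cast_add] at h2
    refine Eq.trans ?_ h2
    refine congrArg₂ (· + ·) rfl ?_
    by_cases hu0 : u = 0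
    · rw [if_pos hu0, if_pos hu0, Nat.cast_zero]
    · rw [if_neg hu0, if_neg hu0, Nat.cast_one]
  have e7 : ∀ u ∈ H, (f u : ZMod 2) = 1 := fun u hu => by
    have h2 : ((f u : ℕ) : ZMod 2) = ((1 : ℕ) : ZMod 2) :=
      (ZMod.natCast_eq_natCast_iff' _ _ _).2 (hfH u hu)
    rw [h2, Nat.cast_one]
  -- all degrees
  have e5 : ∑ u ∈ range n, (1 + (((chs n par u).card : ZMod 2) + (if u = 0 then 0 else 1))) =
      (n : ZMod 2) := by
    have h1 := parH_chs hpar (fun _ => (1 : ZMod 2))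
    have h3 : ∑ v ∈ (range n).filter (fun v => 1 ≤ v), (1 : ZMod 2) =
        ∑ u ∈ range n, (if u = 0 then (0 : ZMod 2) else 1) := by
      rw [sum_filter]
      refine sum_congr rfl fun u _ => ?_
      by_cases hu : u = 0
      · rw [if_pos hu, if_neg (by omega)]
      · rw [if_neg hu, if_pos (by omega)]
    simp only [mul_one] at h1
    rw [sum_add_distrib, sum_add_distrib, ← h3, h1, ← two_mul, sum_const, card_range, nsmul_eq_mul,
      mul_one]
    have h4 : (2 : ZMod 2) = 0 := rfl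
    rw [h4, zero_mul, add_zero]
  have e6 : ((∑ x ∈ items par (range n \ Λ), val par f x + ∑ c ∈ Lb, c + n : ℕ) : ZMod 2) =
      0 := by
    rw [Nat.cast_add, Nat.cast_add, e1, e2, sum_add_distrib, add_assoc (∑ v ∈ range n \ Λ, _),
      add_assoc (∑ v ∈ (range n \ Λ).filter _, _), e3]
    have h1 : ∑ v ∈ (range n \ Λ).filter (fun v => 1 ≤ v), (f v : ZMod 2) =
        ∑ u ∈ range n \ Λ, (if u = 0 then (0 : ZMod 2) else 1) * f u := by
      rw [sum_filter]
      refine sum_congr rfl fun u _ => ?_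
      by_cases hu : u = 0
      · rw [if_pos hu, if_neg (by omega), zero_mul]
      · rw [if_neg hu, if_pos (by omega), one_mul]
    rw [h1, ← sum_add_distrib, ← sum_add_distrib]
    have h5 : ∑ u ∈ range n \ Λ, ((f u : ZMod 2) + ((if u = 0 then (0 : ZMod 2) else 1) * f u +
        ((chs n par u).card : ZMod 2) * f u)) =
        ∑ u ∈ range n \ Λ, (1 + (((chs n par u).card : ZMod 2) + (if u = 0 then 0 else 1))) := by
      refine sum_congr rfl fun u hu => ?_
      have h3 : (f u : ZMod 2) + ((if u = 0 then (0 : ZMod 2) else 1) * f u +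
          ((chs n par u).card : ZMod 2) * f u) =
          (1 + (((chs n par u).card : ZMod 2) + (if u = 0 then 0 else 1))) * f u := by ring
      rw [h3]
      by_cases huH : u ∈ H
      · rw [e7 u huH, mul_one]
      · rw [e4 u (mem_range.1 (mem_sdiff.1 hu).1) huH, h2z, zero_mul]
    have h6 : ∑ u ∈ Λ, (1 + (((chs n par u).card : ZMod 2) + (if u = 0 then 0 else 1))) = 0 := by
      refine sum_eq_zero fun u hu => ?_
      have h7 := (hΛ1 u hu).1
      rw [(hΛ1 u hu).2, card_empty, Nat.cast_zero, zero_add, if_neg (by omega), h2z]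
    rw [← sum_sdiff hΛ, h6, add_zero] at e5
    rw [h5, e5, ← two_mul]
    have h4 : (2 : ZMod 2) = 0 := rfl
    rw [h4, zero_mul]
  have h7 := (ZMod.natCast_eq_zero_iff _ _).1 e6
  exact Nat.mod_eq_zero_of_dvd h7

end SSB
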