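import Pool.Agent.Lib.MP_8a819d_co.BD.Dc1

/-!
# MP_8a819d_co, trees with many non-leaves: basic definitions

Notation as in `BD/Defs.lean` (namespace `SSB`): `IsPar n par` (parent array on `0, ..., n-1`, root `0`),
`chs n par v` (children), `pdeg n par v` (degree), `items par W`, `val par f`, `dd a b = |a - b|`.

The vertices of `B` are numbered first (labels `f₀`), the vertices of `Z` are numbered by the nibble; every
vertex of `Z` has at most one neighbour in `B`. The other vertices are numbered later.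
-/

set_option autoImplicit false

namespace SSB

open Finset

/-- the neighbours of `v` in `B` -/
def bnb (n : ℕ) (par : ℕ → ℕ) (B : Finset ℕ) (v : ℕ) : Finset ℕ :=
  B.filter (fun b => (1 ≤ v ∧ v < n ∧ par v = b) ∨ (1 ≤ b ∧ b < n ∧ par b = v))

/-- the labels used by the vertex `v` (with the label `y`) if its parent has the label `x`: `y`, the edges
to its neighbours in `B`, and the edge to its parent if the parent is in `Z` -/
def usv (n : ℕ) (par : ℕ → ℕ) (B Z : Finset ℕ) (f₀ : ℕ → ℕ) (v x y : ℕ) : Finset ℕ :=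
  insert y ((bnb n par B v).image (fun b => dd (f₀ b) y)) ∪ (if par v ∈ Z then {dd x y} else ∅)

/-- expected number of times that the label `z` is used by `v`; `mu v` is the law of the label of `v`,
`kr v x` the conditional law if the parent (in `Z`) has the label `x` -/
noncomputable def loadv (n N : ℕ) (par : ℕ → ℕ) (B Z : Finset ℕ) (f₀ : ℕ → ℕ) (mu : ℕ → ℕ → ℝ)
    (kr : ℕ → ℕ → ℕ → ℝ) (v z : ℕ) : ℝ :=
  if par v ∈ Z then
    ∑ x ∈ range (N + 1), ∑ y ∈ range (N + 1),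
      if z ∈ usv n par B Z f₀ v x y then mu (par v) x * kr v x y else 0
  else ∑ y ∈ range (N + 1), if z ∈ usv n par B Z f₀ v 0 y then mu v y else 0

/-- consistent laws for the vertices of `Z`. Nothing is required of `kr v x` if the parent never has the
label `x`. Coincidences among the labels used by one vertex are allowed (they have small probability). -/
structure LawV (n N : ℕ) (par : ℕ → ℕ) (B Z Q : Finset ℕ) (f₀ : ℕ → ℕ) (C : ℝ) (mu : ℕ → ℕ → ℝ)
    (kr : ℕ → ℕ → ℕ → ℝ) : Prop where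
  mu_nn : ∀ v ∈ Z, ∀ y, 0 ≤ mu v y
  mu_le : ∀ v ∈ Z, ∀ y, mu v y ≤ C / N
  mu_sum : ∀ v ∈ Z, ∑ y ∈ range (N + 1), mu v y = 1
  kr_nn : ∀ v ∈ Z, par v ∈ Z → ∀ x y, 0 ≤ kr v x y
  kr_le : ∀ v ∈ Z, par v ∈ Z → ∀ x y, mu (par v) x ≠ 0 → kr v x y ≤ C / N
  kr_sum : ∀ v ∈ Z, par v ∈ Z → ∀ x ≤ N, mu (par v) x ≠ 0 → ∑ y ∈ range (N + 1), kr v x y = 1
  cons : ∀ v ∈ Z, par v ∈ Z → ∀ y ≤ N, ∑ x ∈ range (N + 1), mu (par v) x * kr v x y = mu v y
  rule_root : ∀ v ∈ Z, par v ∉ Z → ∀ y ≤ N, mu v y ≠ 0 → usv n par B Z f₀ v 0 y ⊆ Q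
  rule : ∀ v ∈ Z, par v ∈ Z → ∀ x ≤ N, ∀ y ≤ N, mu (par v) x * kr v x y ≠ 0 →
    usv n par B Z f₀ v x y ⊆ Q

/-- a set `H` of vertices is closed if every vertex outside `H` has at most one neighbour in `H` -/
def Clo (n : ℕ) (par : ℕ → ℕ) (H : Finset ℕ) : Prop :=
  ∀ v < n, v ∉ H → (bnb n par H v).card ≤ 1

end SSB
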