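import Pool.Agent.Lib.MP_8a819d_co.AT.K0
import Pool.Agent.Lib.MP_8a819d_co.BD.Ker

/-!
# MP_8a819d_co, trees with many non-leaves: Lemma F extended, 1. Kernels for one label

JOB F1a: `oneK_low`. JOB F1b: `oneK_high`. JOB F1c: `ex_row`. (Read `K0.lean` first; start auxiliary lemma names with
`F1a_`, `F1b_`, `F1c_`. For the counts use `Zb N Q ∅`: `KX N Q ∅` holds by `KXe`; `Zb_card`, `mem_Zb`, `cnt1`, `cntI`.)

* `oneK_low` (`z ≤ 0.3 N`): `R = {x ∈ Q : 0.6 N ≤ x ≤ 0.7 N, x + z ∈ Q}` (`x + z ≤ N`), `|R| ≥ 0.1 N - 1 - 2 |Z| ≥ N/20`;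
  `k x y = 1/|R|` if (`x ∈ R` and `y = x + z`) or (`y ∈ R` and `x = y + z`), else `0`. So `k ≤ 20/N`, `dd x y = z` if `k x y ≠ 0`.
  Load at `a`: vertex part `(ω/2) ∑ y, k a y ≤ (ω/2) * 2/|R| ≤ 21/N`; the edge part is `0` for `a ≠ z`; for `a = z` it is
  `(1/2) * 2 |R| * (1/|R|) = 1`. `∑ y ∈ Q, k x y ≠ 0` only if `x ≥ 0.6 N`.
* `oneK_high` (`z > 0.3 N`): `R = {y ∈ Q : 0.75 N ≤ y, y ≠ z, dd z y ∈ Q}`, `|R| ≥ 0.25 N - 1 - 3 |Z| ≥ N/10`;
  `k x y = (2/ω)/|R|` if (`x = z` and `y ∈ R`) or (`y = z` and `x ∈ R`), else `0`. So `k ≤ 21/N`. Vertex part of the load: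
  exactly `1` at `a = z` (`z ∉ R`), at most `1/|R| ≤ 10/N` at `a ≠ z`; edge part at `a`:
  `(1/2) * 2 * #{y ∈ R : dd z y = a} * (2/ω)/|R| ≤ 2 (2/ω)/|R| ≤ 41/N`. `∑ y ∈ Q, k z y = 2/ω ≥ 1`; for `x ≠ z` with
  `x < 0.6 N` it is `0`.
* `ex_row`: for `x ∈ Q` there is a label `y ∈ Q`, `y ≠ x`, `dd x y ∈ Q`, `5 y ≥ 3 N` (`0.4 N - 1` integers between `0.6 N` and `N`,
  at most `3 |Z|` of them excluded; `0 ∈ Zb` takes care of `y ≠ x`).
-/

set_option autoImplicit false

namespace SSB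

open Finset

/-- load at `a` of the symmetric kernel `k` -/
noncomputable def ldS (Q : Finset ℕ) (ω : ℝ) (k : ℕ → ℕ → ℝ) (a : ℕ) : ℝ :=
  (ω / 2) * (∑ y ∈ Q, k a y) + (1 / 2) * (∑ x ∈ Q, ∑ y ∈ Q, if dd x y = a then k x y else 0)

/-- `k` is a kernel with load about `1` at `z` and very small load elsewhere -/
structure OneK (N : ℕ) (Q : Finset ℕ) (ω : ℝ) (z : ℕ) (k : ℕ → ℕ → ℝ) : Prop where
  nn : ∀ x y, 0 ≤ k x y
  symm : ∀ x y, k x y = k y x
  supp : ∀ x y, k x y ≠ 0 → x ∈ Q ∧ y ∈ Q ∧ x ≠ y ∧ dd x y ∈ Q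
  le : ∀ x y, k x y ≤ 100 / N
  at_z : ∀ x y, k x y ≠ 0 → z = dd x y ∨ z = x ∨ z = y
  deg : ∀ x, 5 * x < 3 * N → (∑ y ∈ Q, k x y) ≠ 0 → 1 ≤ ∑ y ∈ Q, k x y
  load : ∀ a ∈ Q, |ldS Q ω k a - (if a = z then 1 else 0)| ≤ 100 / N

theorem KXe {N : ℕ} {Q : Finset ℕ} (h : KH N Q) : KX N Q ∅ where
  big := h.big
  sub := h.sub
  card := h.card
  cardX := by
    rw [card_empty, Nat.cast_zero]
    positivity

/-- the rows of `oneK_low` -/
private def F1a_R (N : ℕ) (Q : Finset ℕ) (z : ℕ) : Finset ℕ :=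
  Q.filter (fun x => 60 * N ≤ 100 * x ∧ 100 * x ≤ 70 * N ∧ x + z ∈ Q)

private theorem F1a_mem {N : ℕ} {Q : Finset ℕ} {z x : ℕ} : x ∈ F1a_R N Q z ↔
    x ∈ Q ∧ 60 * N ≤ 100 * x ∧ 100 * x ≤ 70 * N ∧ x + z ∈ Q := by
  unfold F1a_R
  rw [mem_filter]

private theorem F1a_card {N : ℕ} {Q : Finset ℕ} (h : KH N Q) {z : ℕ} (hz' : 10 * z ≤ 3 * N) :
    (N : ℝ) / 20 ≤ (F1a_R N Q z).card := by
  have hZ := Zb_card (KXe h)
  have hI := cntI (N := N) (p := 60) (q := 70) (by norm_num)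
  have hN : (10 : ℝ) ^ 9 ≤ N := by exact_mod_cast h.big
  have h1 := cnt1 (N := N) (Q := Q) (X := ∅) ((range (70 * N + 1)).filter
    (fun x => 60 * N ≤ 100 * x ∧ 100 * x ≤ 70 * N)) (fun x => x) (fun t _ t' _ he => he)
  have h2 := cnt1 (N := N) (Q := Q) (X := ∅) ((range (70 * N + 1)).filter
    (fun x => 60 * N ≤ 100 * x ∧ 100 * x ≤ 70 * N)) (fun x => x + z)
    (fun t _ t' _ he => Nat.add_right_cancel he)
  have h3 : (range (70 * N + 1)).filter (fun x => 60 * N ≤ 100 * x ∧ 100 * x ≤ 70 * N) ⊆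
      F1a_R N Q z ∪ ((((range (70 * N + 1)).filter (fun x => 60 * N ≤ 100 * x ∧ 100 * x ≤ 70 * N)).filter
        (fun x => x ∈ Zb N Q ∅)) ∪
      (((range (70 * N + 1)).filter (fun x => 60 * N ≤ 100 * x ∧ 100 * x ≤ 70 * N)).filter
        (fun x => x + z ∈ Zb N Q ∅))) := by
    intro x hx
    have hx' := (mem_filter.1 hx).2
    by_cases c1 : x ∈ Zb N Q ∅
    · exact mem_union_right _ (mem_union_left _ (mem_filter.2 ⟨hx, c1⟩))
    · by_cases c2 : x + z ∈ Zb N Q ∅
      · exact mem_union_right _ (mem_union_right _ (mem_filter.2 ⟨hx, c2⟩))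
      · refine mem_union_left _ (F1a_mem.2 ⟨?_, hx'.1, hx'.2, ?_⟩)
        · exact ((mem_Zb (by omega)).1 c1).1
        · exact ((mem_Zb (by omega)).1 c2).1
  have h4 := (card_le_card h3).trans (card_union_le _ _)
  have h5 := card_union_le (((range (70 * N + 1)).filter
      (fun x => 60 * N ≤ 100 * x ∧ 100 * x ≤ 70 * N)).filter (fun x => x ∈ Zb N Q ∅))
    (((range (70 * N + 1)).filter (fun x => 60 * N ≤ 100 * x ∧ 100 * x ≤ 70 * N)).filter
        (fun x => x + z ∈ Zb N Q ∅))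
  have h6 : ((range (70 * N + 1)).filter (fun x => 60 * N ≤ 100 * x ∧ 100 * x ≤ 70 * N)).card ≤
      (F1a_R N Q z).card + ((Zb N Q ∅).card + (Zb N Q ∅).card) :=
    h4.trans (Nat.add_le_add_left (h5.trans (Nat.add_le_add h1 h2)) _)
  have h7 : (((range (70 * N + 1)).filter (fun x => 60 * N ≤ 100 * x ∧ 100 * x ≤ 70 * N)).card : ℝ) ≤
      (F1a_R N Q z).card + ((Zb N Q ∅).card + (Zb N Q ∅).card) := by exact_mod_cast h6
  have h8 : (((70 - 60 : ℕ) : ℝ)) = 10 := by norm_num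
  rw [h8] at hI
  linarith

/-- one half of the kernel of `oneK_low` -/
private noncomputable def F1a_k (N : ℕ) (Q : Finset ℕ) (z : ℕ) (x y : ℕ) : ℝ :=
  if x ∈ F1a_R N Q z ∧ y = x + z then 1 / ((F1a_R N Q z).card : ℝ) else 0

private theorem F1a_nn (N : ℕ) (Q : Finset ℕ) (z x y : ℕ) : 0 ≤ F1a_k N Q z x y := by
  unfold F1a_k
  split_ifs
  · positivity
  · exact le_refl _

private theorem F1a_le (N : ℕ) (Q : Finset ℕ) (z x y : ℕ) :
    F1a_k N Q z x y ≤ 1 / ((F1a_R N Q z).card : ℝ) := by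
  unfold F1a_k
  split_ifs
  · exact le_refl _
  · positivity

private theorem F1a_ne {N : ℕ} {Q : Finset ℕ} {z x y : ℕ} (h : F1a_k N Q z x y ≠ 0) :
    x ∈ F1a_R N Q z ∧ y = x + z := by
  by_contra h'
  exact h (if_neg h')

private theorem F1a_row {N : ℕ} {Q : Finset ℕ} {z x : ℕ} :
    ∑ y ∈ Q, F1a_k N Q z x y = if x ∈ F1a_R N Q z then 1 / ((F1a_R N Q z).card : ℝ) else 0 := by
  unfold F1a_k
  by_cases hx : x ∈ F1a_R N Q z
  · rw [if_pos hx]
    have h1 : ∀ y ∈ Q, (if x ∈ F1a_R N Q z ∧ y = x + z then 1 / ((F1a_R N Q z).card : ℝ) else 0) =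
        if y = x + z then 1 / ((F1a_R N Q z).card : ℝ) else 0 := by
      intro y _
      simp only [hx, true_and]
    rw [sum_congr rfl h1, sum_ite_eq', if_pos (F1a_mem.1 hx).2.2.2]
  · rw [if_neg hx]
    refine sum_eq_zero fun y _ => ?_
    exact if_neg fun h => hx h.1

private theorem F1a_col (N : ℕ) (Q : Finset ℕ) (z y : ℕ) :
    ∑ x ∈ Q, F1a_k N Q z x y ≤ 1 / ((F1a_R N Q z).card : ℝ) := by
  have h1 : ∀ x ∈ Q, F1a_k N Q z x y ≤ if x = y - z then 1 / ((F1a_R N Q z).card : ℝ) else 0 := by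
    intro x _
    unfold F1a_k
    by_cases hx : x ∈ F1a_R N Q z ∧ y = x + z
    · rw [if_pos hx, if_pos (by omega)]
    · rw [if_neg hx]
      split_ifs
      · positivity
      · exact le_refl _
  refine (sum_le_sum h1).trans ?_
  rw [sum_ite_eq']
  split_ifs
  · exact le_refl _
  · positivity

private theorem F1a_tot {N : ℕ} {Q : Finset ℕ} {z : ℕ} (hR : (0 : ℝ) < (F1a_R N Q z).card) :
    ∑ x ∈ Q, ∑ y ∈ Q, F1a_k N Q z x y = 1 := by
  have h1 : ∀ x ∈ Q, ∑ y ∈ Q, F1a_k N Q z x y =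
      if x ∈ F1a_R N Q z then 1 / ((F1a_R N Q z).card : ℝ) else 0 := fun x _ => F1a_row
  rw [sum_congr rfl h1, ← sum_filter, sum_const, nsmul_eq_mul]
  have h2 : Q.filter (fun x => x ∈ F1a_R N Q z) = F1a_R N Q z := by
    ext x
    rw [mem_filter]
    exact ⟨fun h => h.2, fun h => ⟨(F1a_mem.1 h).1, h⟩⟩
  rw [h2]
  field_simp

theorem oneK_low {N : ℕ} {Q : Finset ℕ} (h : KH N Q) {ω : ℝ} (hω : |ω - 1| ≤ 1 / 100) {z : ℕ}
    (hz : z ∈ Q) (hz' : 10 * z ≤ 3 * N) : ∃ k : ℕ → ℕ → ℝ, OneK N Q ω z k := by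
  have hN : (10 : ℝ) ^ 9 ≤ N := by exact_mod_cast h.big
  have hN0 : (0 : ℝ) < N := lt_of_lt_of_le (by norm_num) hN
  have hc := F1a_card h hz'
  have hR : (0 : ℝ) < (F1a_R N Q z).card := lt_of_lt_of_le (by positivity) hc
  have hc' : 1 / ((F1a_R N Q z).card : ℝ) ≤ 20 / N := by
    rw [div_le_div_iff₀ hR hN0]
    linarith
  have hz1 : 1 ≤ z := (mem_Icc.1 (h.sub hz)).1
  have hdd : ∀ x y, F1a_k N Q z x y ≠ 0 → dd x y = z := by
    intro x y hxy
    have h1 := (F1a_ne hxy).2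
    unfold dd
    omega
  have hne : ∀ x y, F1a_k N Q z x y + F1a_k N Q z y x ≠ 0 →
      F1a_k N Q z x y ≠ 0 ∨ F1a_k N Q z y x ≠ 0 := by
    intro x y hxy
    by_contra hcon
    push Not at hcon
    exact hxy (by rw [hcon.1, hcon.2, add_zero])
  have hddk : ∀ x y, F1a_k N Q z x y + F1a_k N Q z y x ≠ 0 → dd x y = z := by
    intro x y hxy
    rcases hne x y hxy with h1 | h1
    · exact hdd x y h1
    · rw [dd_comm]
      exact hdd y x h1
  have h20 : 20 / (N : ℝ) + 20 / N ≤ 100 / N := by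
    rw [← add_div]
    exact div_le_div_of_nonneg_right (by norm_num) hN0.le
  refine ⟨fun x y => F1a_k N Q z x y + F1a_k N Q z y x, ?_, ?_, ?_, ?_, ?_, ?_, ?_⟩
  · intro x y
    exact add_nonneg (F1a_nn _ _ _ _ _) (F1a_nn _ _ _ _ _)
  · intro x y
    exact add_comm _ _
  · intro x y hxy
    rcases hne x y hxy with h1 | h1
    · have h2 := F1a_ne h1
      have h3 := F1a_mem.1 h2.1
      refine ⟨h3.1, ?_, ?_, ?_⟩
      · rw [h2.2]; exact h3.2.2.2
      · omega
      · rw [hdd x y h1]; exact hz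
    · have h2 := F1a_ne h1
      have h3 := F1a_mem.1 h2.1
      refine ⟨?_, h3.1, ?_, ?_⟩
      · rw [h2.2]; exact h3.2.2.2
      · omega
      · rw [dd_comm, hdd y x h1]; exact hz
  · intro x y
    have h1 := F1a_le N Q z x y
    have h2 := F1a_le N Q z y x
    show F1a_k N Q z x y + F1a_k N Q z y x ≤ 100 / N
    linarith
  · intro x y hxy
    exact Or.inl (hddk x y hxy).symm
  · intro x hx hs
    exfalso
    apply hs
    refine sum_eq_zero fun y _ => ?_
    by_contra h0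
    rcases hne x y h0 with h1 | h1
    · have h3 := F1a_mem.1 (F1a_ne h1).1
      omega
    · have h3 := F1a_mem.1 (F1a_ne h1).1
      have h4 := (F1a_ne h1).2
      omega
  · intro a _
    have hω' := abs_le.1 hω
    have hV0 : 0 ≤ ∑ y ∈ Q, (F1a_k N Q z a y + F1a_k N Q z y a) :=
      sum_nonneg fun y _ => add_nonneg (F1a_nn _ _ _ _ _) (F1a_nn _ _ _ _ _)
    have hV1 : ∑ y ∈ Q, (F1a_k N Q z a y + F1a_k N Q z y a) ≤ 40 / N := by
      rw [sum_add_distrib, F1a_row]
      have h1 := F1a_col N Q z a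
      have h2 : (if a ∈ F1a_R N Q z then 1 / ((F1a_R N Q z).card : ℝ) else 0) ≤
          1 / ((F1a_R N Q z).card : ℝ) := by
        split_ifs
        · exact le_refl _
        · positivity
      have h3 : 20 / (N : ℝ) + 20 / N = 40 / N := by
        rw [← add_div]; norm_num
      linarith
    have hE : (∑ x ∈ Q, ∑ y ∈ Q, if dd x y = a then F1a_k N Q z x y + F1a_k N Q z y x else 0) =
        if a = z then 2 else 0 := by
      by_cases ha : a = z
      · rw [if_pos ha]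
        have h1 : ∀ x ∈ Q, (∑ y ∈ Q, if dd x y = a then F1a_k N Q z x y + F1a_k N Q z y x else 0) =
            ∑ y ∈ Q, F1a_k N Q z x y + ∑ y ∈ Q, F1a_k N Q z y x := by
          intro x _
          rw [← sum_add_distrib]
          refine sum_congr rfl fun y _ => ?_
          by_cases h2 : dd x y = a
          · rw [if_pos h2]
          · rw [if_neg h2]
            by_contra h3
            exact h2 ((hddk x y (Ne.symm h3)).trans ha.symm)
        rw [sum_congr rfl h1, sum_add_distrib, F1a_tot hR]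
        have h4 : ∑ x ∈ Q, ∑ y ∈ Q, F1a_k N Q z y x = 1 := by
          rw [sum_comm]
          exact F1a_tot hR
        rw [h4]
        norm_num
      · rw [if_neg ha]
        refine sum_eq_zero fun x _ => sum_eq_zero fun y _ => ?_
        by_cases h2 : dd x y = a
        · rw [if_pos h2]
          by_contra h3
          exact ha (h2.symm.trans (hddk x y h3))
        · exact if_neg h2
    unfold ldS
    rw [hE]
    have h3 : (ω / 2) * (∑ y ∈ Q, (F1a_k N Q z a y + F1a_k N Q z y a)) +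
        (1 / 2) * (if a = z then (2 : ℝ) else 0) - (if a = z then (1 : ℝ) else 0) =
        (ω / 2) * (∑ y ∈ Q, (F1a_k N Q z a y + F1a_k N Q z y a)) := by
      split_ifs <;> ring
    rw [h3]
    have h4 : 0 ≤ ω / 2 := by linarith
    have h5 : ω / 2 ≤ 1 := by linarith
    rw [abs_of_nonneg (mul_nonneg h4 hV0)]
    have h6 := mul_le_mul h5 hV1 hV0 (by norm_num : (0 : ℝ) ≤ 1)
    have h7 : 40 / (N : ℝ) ≤ 100 / N := div_le_div_of_nonneg_right (by norm_num) hN0.le
    linarith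


/-- the parameters with `x` and `dd x z` not bad -/
private theorem F1b_count {N : ℕ} {Q X : Finset ℕ} (S : Finset ℕ) (z : ℕ) :
    S.card ≤ (S.filter (fun x => x ∉ Zb N Q X ∧ dd x z ∉ Zb N Q X)).card + 3 * (Zb N Q X).card := by
  have h0 : S ⊆ (S.filter (fun x => x ∉ Zb N Q X ∧ dd x z ∉ Zb N Q X)) ∪
      ((S.filter (fun x => x ∈ Zb N Q X)) ∪
        (((S.filter (fun x => z ≤ x)).filter (fun x => x - z ∈ Zb N Q X)) ∪
          ((S.filter (fun x => x < z)).filter (fun x => z - x ∈ Zb N Q X)))) := by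
    intro x hx
    rw [mem_union, mem_union, mem_union, mem_filter, mem_filter, mem_filter, mem_filter, mem_filter,
      mem_filter]
    by_cases h1 : x ∈ Zb N Q X
    · exact Or.inr (Or.inl ⟨hx, h1⟩)
    · by_cases h2 : dd x z ∈ Zb N Q X
      · right; right
        rcases le_or_gt z x with h3 | h3
        · left
          have h4 : dd x z = x - z := by unfold dd; omega
          rw [h4] at h2
          exact ⟨⟨hx, h3⟩, h2⟩
        · right
          have h4 : dd x z = z - x := by unfold dd; omega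
          rw [h4] at h2
          exact ⟨⟨hx, h3⟩, h2⟩
      · exact Or.inl ⟨hx, h1, h2⟩
  have h1 := card_le_card h0
  have h2 := card_union_le (S.filter (fun x => x ∉ Zb N Q X ∧ dd x z ∉ Zb N Q X))
      ((S.filter (fun x => x ∈ Zb N Q X)) ∪
        (((S.filter (fun x => z ≤ x)).filter (fun x => x - z ∈ Zb N Q X)) ∪
          ((S.filter (fun x => x < z)).filter (fun x => z - x ∈ Zb N Q X))))
  have h3 := card_union_le (S.filter (fun x => x ∈ Zb N Q X))
        (((S.filter (fun x => z ≤ x)).filter (fun x => x - z ∈ Zb N Q X)) ∪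
          ((S.filter (fun x => x < z)).filter (fun x => z - x ∈ Zb N Q X)))
  have h4 := card_union_le ((S.filter (fun x => z ≤ x)).filter (fun x => x - z ∈ Zb N Q X))
          ((S.filter (fun x => x < z)).filter (fun x => z - x ∈ Zb N Q X))
  have h5 := cnt1 (N := N) (Q := Q) (X := X) S (fun x => x) (fun t _ t' _ h => h)
  have h6 := cnt1 (N := N) (Q := Q) (X := X) (S.filter (fun x => z ≤ x)) (fun x => x - z) (by
    intro t ht t' ht' h
    have a1 := (mem_filter.1 ht).2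
    have a2 := (mem_filter.1 ht').2
    have a3 : t - z = t' - z := h
    omega)
  have h7 := cnt1 (N := N) (Q := Q) (X := X) (S.filter (fun x => x < z)) (fun x => z - x) (by
    intro t ht t' ht' h
    have a1 := (mem_filter.1 ht).2
    have a2 := (mem_filter.1 ht').2
    have a3 : z - t = z - t' := h
    omega)
  omega

private theorem F1b_row {Q R : Finset ℕ} (hR : R ⊆ Q) {z : ℕ} (hz : z ∈ Q) (c : ℝ) (a : ℕ) :
    ∑ y ∈ Q, (c * ((if a = z ∧ y ∈ R then (1 : ℝ) else 0) + (if y = z ∧ a ∈ R then 1 else 0))) =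
      c * ((if a = z then (R.card : ℝ) else 0) + (if a ∈ R then 1 else 0)) := by
  rw [← mul_sum, sum_add_distrib]
  have h1 : ∑ y ∈ Q, (if a = z ∧ y ∈ R then (1 : ℝ) else 0) = if a = z then (R.card : ℝ) else 0 := by
    by_cases h : a = z
    · rw [if_pos h]
      have h2 : ∀ y ∈ Q, (if a = z ∧ y ∈ R then (1 : ℝ) else 0) = if y ∈ R then 1 else 0 := by
        intro y _
        by_cases h3 : y ∈ R
        · rw [if_pos ⟨h, h3⟩, if_pos h3]
        · rw [if_neg (fun h4 => h3 h4.2), if_neg h3]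
      rw [sum_congr rfl h2, sum_ite_mem, inter_eq_right.2 hR, sum_const, nsmul_eq_mul, mul_one]
    · rw [if_neg h]
      exact sum_eq_zero fun y _ => if_neg fun h4 => h h4.1
  have h2 : ∑ y ∈ Q, (if y = z ∧ a ∈ R then (1 : ℝ) else 0) = if a ∈ R then 1 else 0 := by
    by_cases h : a ∈ R
    · rw [if_pos h, sum_eq_single z]
      · rw [if_pos ⟨rfl, h⟩]
      · intro y _ hy
        exact if_neg fun h4 => hy h4.1
      · intro h4
        exact absurd hz h4
    · rw [if_neg h]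
      exact sum_eq_zero fun y _ => if_neg fun h4 => h h4.2
  rw [h1, h2]

private theorem F1b_dbl {Q : Finset ℕ} {z : ℕ} (hz : z ∈ Q) (G : ℕ → ℕ → ℝ) :
    ∑ x ∈ Q, ∑ y ∈ Q, (if x = z then G x y else 0) = ∑ y ∈ Q, G z y := by
  rw [sum_eq_single z]
  · exact sum_congr rfl fun y _ => if_pos rfl
  · intro x _ hx
    exact sum_eq_zero fun y _ => if_neg hx
  · intro h
    exact absurd hz h

private theorem F1b_two (R : Finset ℕ) (z a : ℕ) : (R.filter (fun y => dd z y = a)).card ≤ 2 := by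
  have h1 : R.filter (fun y => dd z y = a) ⊆ {z + a, z - a} := by
    intro y hy
    have h2 := (mem_filter.1 hy).2
    rw [mem_insert, mem_singleton]
    unfold dd at h2
    omega
  exact (card_le_card h1).trans card_le_two

private theorem F1b_if (A B C D E : Prop) [Decidable A] [Decidable B] [Decidable C] [Decidable D]
    [Decidable E] (c : ℝ) :
    (if E then (c * ((if A ∧ B then (1 : ℝ) else 0) + (if C ∧ D then 1 else 0))) else 0) =
      (if A then (if B then (if E then c else 0) else 0) else 0) +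
      (if C then (if D then (if E then c else 0) else 0) else 0) := by
  by_cases hA : A <;> by_cases hB : B <;> by_cases hC : C <;> by_cases hD : D <;> by_cases hE : E <;>
    simp [hA, hB, hC, hD, hE, mul_add]

private theorem F1b_edge {Q R : Finset ℕ} (hR : R ⊆ Q) {z : ℕ} (hz : z ∈ Q) {c : ℝ} (hc : 0 ≤ c) (a : ℕ) :
    0 ≤ ∑ x ∈ Q, ∑ y ∈ Q, (if dd x y = a then
      (c * ((if x = z ∧ y ∈ R then (1 : ℝ) else 0) + (if y = z ∧ x ∈ R then 1 else 0))) else 0) ∧
    ∑ x ∈ Q, ∑ y ∈ Q, (if dd x y = a then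
      (c * ((if x = z ∧ y ∈ R then (1 : ℝ) else 0) + (if y = z ∧ x ∈ R then 1 else 0))) else 0) ≤ 4 * c := by
  constructor
  · refine sum_nonneg fun x _ => sum_nonneg fun y _ => ?_
    split_ifs <;> positivity
  · have h1 : ∀ x y : ℕ, (if dd x y = a then
        (c * ((if x = z ∧ y ∈ R then (1 : ℝ) else 0) + (if y = z ∧ x ∈ R then 1 else 0))) else 0) =
        (if x = z then (if y ∈ R then (if dd x y = a then c else 0) else 0) else 0) +
        (if y = z then (if x ∈ R then (if dd y x = a then c else 0) else 0) else 0) := by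
      intro x y
      rw [dd_comm y x]
      exact F1b_if _ _ _ _ _ c
    have h2 : ∀ x y : ℕ, ∀ b : ℝ, (∑ x ∈ Q, if x ∈ R then (if dd z x = a then c else 0) else 0) =
        c * (R.filter (fun y => dd z y = a)).card := by
      intro _ _ _
      rw [sum_ite_mem, inter_eq_right.2 hR, ← sum_filter, sum_const, nsmul_eq_mul, mul_comm]
    have h3 : ((R.filter (fun y => dd z y = a)).card : ℝ) ≤ 2 := by exact_mod_cast F1b_two R z a
    simp only [h1, sum_add_distrib]
    rw [F1b_dbl hz (fun x y => if y ∈ R then (if dd x y = a then c else 0) else 0),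
      sum_comm, F1b_dbl hz (fun y x => if x ∈ R then (if dd y x = a then c else 0) else 0), h2 0 0 0]
    nlinarith

theorem oneK_high {N : ℕ} {Q : Finset ℕ} (h : KH N Q) {ω : ℝ} (hω : |ω - 1| ≤ 1 / 100) {z : ℕ}
    (hz : z ∈ Q) (hz' : 3 * N < 10 * z) : ∃ k : ℕ → ℕ → ℝ, OneK N Q ω z k := by
  have hX := KXe h
  have hzN := mem_Icc.1 (h.sub hz)
  have hbig : (10 : ℝ) ^ 9 ≤ N := by exact_mod_cast h.big
  have hNpos : (0 : ℝ) < N := lt_of_lt_of_le (by norm_num) hbig
  obtain ⟨R, hR⟩ : ∃ R : Finset ℕ, R = Q.filter (fun y => 75 * N ≤ 100 * y ∧ y ≠ z ∧ dd z y ∈ Q) := ⟨_, rfl⟩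
  have hRm : ∀ y, y ∈ R ↔ y ∈ Q ∧ 75 * N ≤ 100 * y ∧ y ≠ z ∧ dd z y ∈ Q := by
    intro y
    rw [hR, mem_filter]
  have hRQ : R ⊆ Q := fun y hy => ((hRm y).1 hy).1
  have hzR : z ∉ R := fun h1 => ((hRm z).1 h1).2.2.1 rfl
  have hRc : (N : ℝ) / 10 ≤ R.card := by
    have h1 := cntI (N := N) (p := 75) (q := 100) (by norm_num)
    have h2 := F1b_count (N := N) (Q := Q) (X := ∅)
      ((range (100 * N + 1)).filter (fun x => 75 * N ≤ 100 * x ∧ 100 * x ≤ 100 * N)) z
    have h3 : ((range (100 * N + 1)).filter (fun x => 75 * N ≤ 100 * x ∧ 100 * x ≤ 100 * N)).filter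
        (fun x => x ∉ Zb N Q ∅ ∧ dd x z ∉ Zb N Q ∅) ⊆ R := by
      intro x hx
      rw [mem_filter, mem_filter] at hx
      obtain ⟨⟨-, a1, a2⟩, a3, a4⟩ := hx
      have a5 := (mem_Zb (by omega)).1 a3
      have a6 := (mem_Zb (by unfold dd; omega)).1 a4
      rw [hRm]
      refine ⟨a5.1, a1, ?_, by rw [dd_comm]; exact a6.1⟩
      rintro rfl
      have a7 := mem_Icc.1 (h.sub a6.1)
      unfold dd at a7
      omega
    have h4 := card_le_card h3
    have h5 : ((((range (100 * N + 1)).filter (fun x => 75 * N ≤ 100 * x ∧ 100 * x ≤ 100 * N)).card : ℕ) : ℝ)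
        ≤ R.card + 3 * (Zb N Q ∅).card := by
      exact_mod_cast h2.trans (Nat.add_le_add_right h4 _)
    have h6 := Zb_card hX
    have h8 : (((100 - 75 : ℕ)) : ℝ) / 100 * N = N / 4 := by
      norm_num
      ring
    rw [h8] at h1
    linarith
  have hRpos : (0 : ℝ) < R.card := lt_of_lt_of_le (by positivity) hRc
  obtain ⟨w1, w2⟩ := abs_le.1 hω
  have hωpos : 0 < ω := by linarith
  obtain ⟨c, hc⟩ : ∃ c : ℝ, c = 2 / ω / R.card := ⟨_, rfl⟩
  have hc0 : 0 < c := by rw [hc]; positivity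
  have hcR : c * R.card = 2 / ω := by
    rw [hc]
    exact div_mul_cancel₀ _ hRpos.ne'
  have hcωR : ω / 2 * (c * R.card) = 1 := by
    rw [hcR]
    field_simp
  have hcN : c ≤ 21 / N := by
    rw [le_div_iff₀ hNpos]
    have h1 : 2 / ω ≤ 21 / 10 := by
      rw [div_le_iff₀ hωpos]
      linarith
    have h2 : c * (N / 10) ≤ c * R.card := mul_le_mul_of_nonneg_left hRc hc0.le
    linarith
  have hcN' : c * N ≤ 21 := (le_div_iff₀ hNpos).1 hcN
  have h21 : 21 / (N : ℝ) ≤ 100 / N := div_le_div_of_nonneg_right (by norm_num) hNpos.le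
  obtain ⟨k, hk⟩ : ∃ k : ℕ → ℕ → ℝ, ∀ x y, k x y =
      c * ((if x = z ∧ y ∈ R then (1 : ℝ) else 0) + (if y = z ∧ x ∈ R then 1 else 0)) := ⟨_, fun _ _ => rfl⟩
  have hk0 : ∀ x y, k x y ≠ 0 → (x = z ∧ y ∈ R) ∨ (y = z ∧ x ∈ R) := by
    intro x y h1
    by_contra h2
    push Not at h2
    refine h1 ?_
    rw [hk, if_neg (fun h3 => h2.1 h3.1 h3.2), if_neg (fun h3 => h2.2 h3.1 h3.2), add_zero, mul_zero]
  have hrow : ∀ a, ∑ y ∈ Q, k a y = c * ((if a = z then (R.card : ℝ) else 0) + (if a ∈ R then 1 else 0)) := by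
    intro a
    rw [← F1b_row hRQ hz c a]
    exact sum_congr rfl fun y _ => hk a y
  refine ⟨k, ⟨?_, ?_, ?_, ?_, ?_, ?_, ?_⟩⟩
  · intro x y
    rw [hk]
    refine mul_nonneg hc0.le (add_nonneg ?_ ?_)
    · split_ifs <;> norm_num
    · split_ifs <;> norm_num
  · intro x y
    rw [hk, hk, add_comm]
  · intro x y h1
    rcases hk0 x y h1 with ⟨rfl, h2⟩ | ⟨rfl, h2⟩
    · have h3 := (hRm y).1 h2
      exact ⟨hz, h3.1, h3.2.2.1.symm, h3.2.2.2⟩
    · have h3 := (hRm x).1 h2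
      exact ⟨h3.1, hz, h3.2.2.1, by rw [dd_comm]; exact h3.2.2.2⟩
  · intro x y
    refine le_trans ?_ (hcN.trans h21)
    rw [hk]
    have h1 : ((if x = z ∧ y ∈ R then (1 : ℝ) else 0) + (if y = z ∧ x ∈ R then 1 else 0)) ≤ 1 := by
      by_cases h2 : x = z ∧ y ∈ R
      · by_cases h3 : y = z ∧ x ∈ R
        · exact absurd (h3.1 ▸ h2.2) hzR
        · rw [if_pos h2, if_neg h3, add_zero]
      · rw [if_neg h2, zero_add]
        split_ifs <;> norm_num
    nlinarith
  · intro x y h1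
    rcases hk0 x y h1 with ⟨h2, -⟩ | ⟨h2, -⟩
    · exact Or.inr (Or.inl h2.symm)
    · exact Or.inr (Or.inr h2.symm)
  · intro x hx h1
    rw [hrow] at h1 ⊢
    have hxR : x ∉ R := by
      intro h2
      have h3 := ((hRm x).1 h2).2.1
      have h4 := h.big
      omega
    by_cases hxz : x = z
    · rw [if_pos hxz, if_neg hxR, add_zero, hcR, le_div_iff₀ hωpos]
      linarith
    · exfalso
      apply h1
      rw [if_neg hxz, if_neg hxR, add_zero, mul_zero]
  · intro a ha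
    obtain ⟨e1, e2⟩ := F1b_edge hRQ hz hc0.le a
    obtain ⟨E, hE⟩ : ∃ E : ℝ, E = ∑ x ∈ Q, ∑ y ∈ Q, (if dd x y = a then k x y else 0) := ⟨_, rfl⟩
    have hE' : E = ∑ x ∈ Q, ∑ y ∈ Q, (if dd x y = a then
      (c * ((if x = z ∧ y ∈ R then (1 : ℝ) else 0) + (if y = z ∧ x ∈ R then 1 else 0))) else 0) := by
      rw [hE]
      refine sum_congr rfl fun x _ => sum_congr rfl fun y _ => ?_
      rw [hk]
    rw [← hE'] at e1 e2
    have hld : ldS Q ω k a = ω / 2 * (c * ((if a = z then (R.card : ℝ) else 0) + (if a ∈ R then 1 else 0))) +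
        1 / 2 * E := by
      unfold ldS
      rw [hrow, hE]
    rw [hld, le_div_iff₀ hNpos]
    by_cases haz : a = z
    · have haR : a ∉ R := by rw [haz]; exact hzR
      rw [if_pos haz, if_pos haz, if_neg haR, add_zero, hcωR, add_sub_cancel_left, abs_of_nonneg (by positivity)]
      nlinarith
    · rw [if_neg haz, if_neg haz, zero_add, sub_zero]
      have h1 : (0 : ℝ) ≤ (if a ∈ R then (1 : ℝ) else 0) ∧ (if a ∈ R then (1 : ℝ) else 0) ≤ 1 := by
        split_ifs <;> norm_num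
      obtain ⟨i1, i2⟩ := h1
      rw [abs_of_nonneg (by positivity)]
      have h2 : ω / 2 * (c * (if a ∈ R then (1 : ℝ) else 0)) ≤ 1 * (c * 1) :=
        mul_le_mul (by linarith) (mul_le_mul_of_nonneg_left i2 hc0.le) (by positivity) (by norm_num)
      nlinarith

theorem ex_row {N : ℕ} {Q : Finset ℕ} (h : KH N Q) {x : ℕ} (hx : x ∈ Q) :
    ∃ y ∈ Q, y ≠ x ∧ dd x y ∈ Q ∧ 3 * N ≤ 5 * y := by
  have hK := KXe h
  have hN := hK.big
  have h9 : (10 : ℝ) ^ 9 ≤ N := by exact_mod_cast hN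
  by_contra hcon
  have hcon' : ∀ y ∈ Q, y ≠ x → dd x y ∈ Q → 5 * y < 3 * N := by
    intro y h1 h2 h3
    by_contra h4
    exact hcon ⟨y, h1, h2, h3, by omega⟩
  have hc := cntI (N := N) (p := 60) (q := 100) (by norm_num)
  have e1 : (((100 - 60 : ℕ) : ℝ)) = 40 := by norm_num
  rw [e1] at hc
  set Y := (range (100 * N + 1)).filter (fun y => 60 * N ≤ 100 * y ∧ 100 * y ≤ 100 * N) with hY
  have hxN := mem_Icc.1 (h.sub hx)
  have h0 : (0 : ℕ) ∉ Q := fun h0 => by
    have := mem_Icc.1 (h.sub h0)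
    omega
  have hsub : Y ⊆ Y.filter (fun y => y ∈ Zb N Q ∅) ∪
      ((Y.filter (fun y => x ≤ y)).filter (fun y => y - x ∈ Zb N Q ∅) ∪
        (Y.filter (fun y => y < x)).filter (fun y => x - y ∈ Zb N Q ∅)) := by
    intro y hy
    have hy' := (mem_filter.1 hy).2
    by_cases z1 : y ∈ Zb N Q ∅
    · exact mem_union_left _ (mem_filter.2 ⟨hy, z1⟩)
    have hyQ := ((mem_Zb (by omega)).1 z1).1
    refine mem_union_right _ ?_
    rcases le_or_gt x y with hxy | hxy
    · refine mem_union_left _ (mem_filter.2 ⟨mem_filter.2 ⟨hy, hxy⟩, ?_⟩)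
      by_contra z2
      have q2 := ((mem_Zb (by omega)).1 z2).1
      have hne : y ≠ x := by
        intro he
        rw [he, Nat.sub_self] at q2
        exact h0 q2
      have hd : dd x y = y - x := by
        unfold dd
        omega
      have := hcon' y hyQ hne (by rw [hd]; exact q2)
      omega
    · refine mem_union_right _ (mem_filter.2 ⟨mem_filter.2 ⟨hy, hxy⟩, ?_⟩)
      by_contra z2
      have q2 := ((mem_Zb (by omega)).1 z2).1
      have hd : dd x y = x - y := by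
        unfold dd
        omega
      have := hcon' y hyQ (by omega) (by rw [hd]; exact q2)
      omega
  have c1 := cnt1 (N := N) (Q := Q) (X := ∅) Y (fun y => y) (fun _ _ _ _ he => he)
  have c2 := cnt1 (N := N) (Q := Q) (X := ∅) (Y.filter (fun y => x ≤ y)) (fun y => y - x)
    (fun t ht t' ht' he => by
      have h1 := (mem_filter.1 ht).2
      have h2 := (mem_filter.1 ht').2
      have he' : t - x = t' - x := he
      omega)
  have c3 := cnt1 (N := N) (Q := Q) (X := ∅) (Y.filter (fun y => y < x)) (fun y => x - y)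
    (fun t ht t' ht' he => by
      have h1 := (mem_filter.1 ht).2
      have h2 := (mem_filter.1 ht').2
      have he' : x - t = x - t' := he
      omega)
  have u0 := card_le_card hsub
  have u1 := card_union_le (Y.filter (fun y => y ∈ Zb N Q ∅))
      ((Y.filter (fun y => x ≤ y)).filter (fun y => y - x ∈ Zb N Q ∅) ∪
        (Y.filter (fun y => y < x)).filter (fun y => x - y ∈ Zb N Q ∅))
  have u2 := card_union_le ((Y.filter (fun y => x ≤ y)).filter (fun y => y - x ∈ Zb N Q ∅))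
        ((Y.filter (fun y => y < x)).filter (fun y => x - y ∈ Zb N Q ∅))
  have u3 : Y.card ≤ 3 * (Zb N Q ∅).card := by omega
  have u4 : (Y.card : ℝ) ≤ 3 * ((Zb N Q ∅).card : ℝ) := by exact_mod_cast u3
  have hz := Zb_card hK
  linarith

theorem oneK {N : ℕ} {Q : Finset ℕ} (h : KH N Q) {ω : ℝ} (hω : |ω - 1| ≤ 1 / 100) {z : ℕ}
    (hz : z ∈ Q) : ∃ k : ℕ → ℕ → ℝ, OneK N Q ω z k := by
  rcases le_or_gt (10 * z) (3 * N) with h1 | h1
  · exact oneK_low h hω hz h1
  · exact oneK_high h hω hz h1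

end SSB
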