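import Pool.Agent.Lib.MP_8a819d_co.AT.KeyIneq

/-!
# MP_8a819d_co, trees with many non-leaves: the flexible leaves, 0. Definitions

* `ldW N W z`: load at `z` of the weights `W`. `ldW_sum`: the sum of `φ * load` is the sum of
  `W x y * (φ y + φ (dd x y))`.
* `Feas`: the feasible weights.
* `target`, `xi_card`: the target load.
-/

set_option autoImplicit false

namespace SSB

open Finset

/-- load at `z` of the weights `W` -/
noncomputable def ldW (N : ℕ) (W : ℕ → ℕ → ℝ) (z : ℕ) : ℝ :=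
  ∑ x ∈ range (N + 1), (W x z + ∑ y ∈ range (N + 1), if dd x y = z then W x y else 0)

/-- feasible weights -/
def Feas (N : ℕ) (Q X : Finset ℕ) (W₀ : ℕ → ℕ → ℝ) (C : ℝ) : Set (ℕ → ℕ → ℝ) :=
  {W | (∀ x y, 0 ≤ W x y ∧ W x y ≤ W₀ x y + C / N) ∧
    (∀ x y, ¬ (x ∈ Q ∧ x ∉ X ∧ y ∈ Q ∧ dd x y ∈ Q) → W x y = W₀ x y) ∧
    (∀ x, ∑ y ∈ range (N + 1), W x y = ∑ y ∈ range (N + 1), W₀ x y)}

theorem ldW_sum {N : ℕ} {Q : Finset ℕ} (hQ : Q ⊆ Icc 1 N) {W : ℕ → ℕ → ℝ}
    (hW : ∀ x y, W x y ≠ 0 → x ∈ Q ∧ y ∈ Q ∧ dd x y ∈ Q) (φ : ℕ → ℝ) :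
    ∑ z ∈ Q, φ z * ldW N W z =
      ∑ x ∈ range (N + 1), ∑ y ∈ range (N + 1), W x y * (φ y + φ (dd x y)) := by
  have hQr : Q ⊆ range (N + 1) := by
    intro z hz
    have := mem_Icc.1 (hQ hz)
    rw [mem_range]
    omega
  have h1 : ∀ x, ∑ z ∈ Q, φ z * W x z = ∑ y ∈ range (N + 1), W x y * φ y := by
    intro x
    rw [← sum_subset hQr (f := fun y => W x y * φ y)]
    · exact sum_congr rfl fun z _ => mul_comm _ _
    · intro y _ hy
      have : W x y = 0 := by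
        by_contra h
        exact hy (hW x y h).2.1
      rw [this, zero_mul]
  have h2 : ∀ x y, ∑ z ∈ Q, φ z * (if dd x y = z then W x y else 0) = W x y * φ (dd x y) := by
    intro x y
    by_cases h : dd x y ∈ Q
    · rw [sum_eq_single (dd x y)]
      · rw [if_pos rfl, mul_comm]
      · intro z _ hz
        rw [if_neg (Ne.symm hz), mul_zero]
      · intro h'
        exact absurd h h'
    · have h0 : W x y = 0 := by
        by_contra h'
        exact h (hW x y h').2.2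
      rw [h0, zero_mul]
      refine sum_eq_zero fun z _ => ?_
      rw [ite_self, mul_zero]
  unfold ldW
  simp only [mul_sum, mul_add, sum_add_distrib]
  congr 1
  · rw [sum_comm]
    exact sum_congr rfl fun x _ => h1 x
  · rw [sum_comm]
    refine sum_congr rfl fun x _ => ?_
    rw [sum_comm]
    refine sum_congr rfl fun y _ => h2 x y

theorem target {Q : Finset ℕ} {s : ℝ} (hs : 0 ≤ s) (l g : ℕ → ℝ) (h1 : ∀ z ∈ Q, l z - s ≤ g z)
    (h2 : ∑ z ∈ Q, l z ≤ ∑ z ∈ Q, g z) :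
    ∃ T : ℕ → ℝ, (∀ z ∈ Q, l z - s ≤ T z ∧ T z ≤ g z) ∧ ∑ z ∈ Q, T z = ∑ z ∈ Q, l z := by
  obtain ⟨A, hA⟩ : ∃ A, A = ∑ z ∈ Q, g z - ∑ z ∈ Q, l z := ⟨_, rfl⟩
  obtain ⟨B, hB⟩ : ∃ B, B = ∑ z ∈ Q, l z - ∑ z ∈ Q, (l z - s) := ⟨_, rfl⟩
  have hA0 : 0 ≤ A := by rw [hA]; linarith
  have hB0 : 0 ≤ B := by
    rw [hB, ← sum_sub_distrib]
    refine sum_nonneg fun z _ => ?_
    linarith
  rcases eq_or_lt_of_le (add_nonneg hA0 hB0) with h0 | h0
  · have hB' : B = 0 := by linarith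
    refine ⟨fun z => l z - s, fun z hz => ⟨le_rfl, h1 z hz⟩, ?_⟩
    linarith
  · refine ⟨fun z => (A / (A + B)) * (l z - s) + (B / (A + B)) * g z, ?_, ?_⟩
    · intro z hz
      have h3 := h1 z hz
      have h4 : A / (A + B) + B / (A + B) = 1 := by field_simp
      have h5 : 0 ≤ A / (A + B) := by positivity
      have h6 : 0 ≤ B / (A + B) := by positivity
      have h7 : A / (A + B) = 1 - B / (A + B) := by linarith
      constructor
      · have : A / (A + B) * (l z - s) + B / (A + B) * g z =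
            (l z - s) + B / (A + B) * (g z - (l z - s)) := by rw [h7]; ring
        change l z - s ≤ A / (A + B) * (l z - s) + B / (A + B) * g z
        rw [this]
        nlinarith [mul_nonneg h6 (sub_nonneg.2 h3)]
      · have h8 : B / (A + B) = 1 - A / (A + B) := by linarith
        have : A / (A + B) * (l z - s) + B / (A + B) * g z =
            g z - A / (A + B) * (g z - (l z - s)) := by rw [h8]; ring
        change A / (A + B) * (l z - s) + B / (A + B) * g z ≤ g z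
        rw [this]
        nlinarith [mul_nonneg h5 (sub_nonneg.2 h3)]
    · rw [sum_add_distrib, ← mul_sum, ← mul_sum]
      have h3 : ∑ z ∈ Q, (l z - s) = ∑ z ∈ Q, l z - B := by linarith
      have h4 : ∑ z ∈ Q, g z = ∑ z ∈ Q, l z + A := by linarith
      rw [h3, h4]
      field_simp
      ring

theorem xi_card {N : ℕ} {Q : Finset ℕ} (hQ : Q ⊆ Icc 1 N) {σ : ℝ} (hσ : 0 < σ) (τ : ℕ → ℝ)
    (h : ∀ z ∈ Q, -σ ^ 2 ≤ τ z) (h0 : ∑ z ∈ Q, τ z = 0) :
    ((Q.filter (fun z => σ < τ z)).card : ℝ) ≤ σ * N := by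
  have h1 := sum_filter_add_sum_filter_not Q (fun z => σ < τ z) τ
  have h2 : ((Q.filter (fun z => σ < τ z)).card : ℝ) * σ ≤ ∑ z ∈ Q with σ < τ z, τ z := by
    rw [← nsmul_eq_mul]
    exact card_nsmul_le_sum _ _ _ fun z hz => (mem_filter.1 hz).2.le
  have h3 : ((Q.filter (fun z => ¬ σ < τ z)).card : ℝ) * (-σ ^ 2) ≤ ∑ z ∈ Q with ¬ σ < τ z, τ z := by
    rw [← nsmul_eq_mul]
    exact card_nsmul_le_sum _ _ _ fun z hz => h z (mem_filter.1 hz).1
  have h4 : ((Q.filter (fun z => ¬ σ < τ z)).card : ℝ) ≤ N := by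
    have h5 := card_le_card ((filter_subset (fun z => ¬ σ < τ z) Q).trans hQ)
    rw [Nat.card_Icc] at h5
    have h6 : (Q.filter (fun z => ¬ σ < τ z)).card ≤ N := by omega
    exact_mod_cast h6
  have h5 : ((Q.filter (fun z => σ < τ z)).card : ℝ) * σ ≤ (σ * N) * σ := by
    have h6 : ((Q.filter (fun z => ¬ σ < τ z)).card : ℝ) * σ ^ 2 ≤ N * σ ^ 2 :=
      mul_le_mul_of_nonneg_right h4 (by positivity)
    nlinarith
  exact le_of_mul_le_mul_right h5 hσ

end SSB
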