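import Pool.Agent.Lib.MP_8a819d_co.AT.G0

/-!
# MP_8a819d_co, trees with many non-leaves: the flexible leaves, 1. Separation

JOB G1 (all of this file; read `G0.lean` first; start auxiliary lemma names with `G1_`).

PROOF of `sepG`. The set `Feas N Q X W₀ C` (functions `ℕ → ℕ → ℝ`, product topology) is contained in the product of the
compact intervals `[0, max 0 (W₀ x y + C/N)]` (`isCompact_univ_pi`, `isCompact_Icc`) and closed (intersection of
closed conditions; every condition involves finitely many coordinates), so compact; it is convex. The map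
`L : W ↦ (z : Q) ↦ ldW N W z` into `(↥Q → ℝ)` is linear and continuous (finite sums of coordinates). So `L '' Feas` is
compact (hence closed) and convex; the point `(T z)_{z : Q}` is not in it, so by
`geometric_hahn_banach_closed_point` there are a continuous linear functional `f` on `↥Q → ℝ` and `u` with
`f (L W) < u < f T` for all `W ∈ Feas`. Take `φ z = f (Pi.single z 1)` for `z ∈ Q` (and `0` outside `Q`):
`f v = ∑ z : Q, v z * φ z` (`LinearMap.pi_apply_eq_sum_univ`), and `∑ z : Q` is `∑ z ∈ Q` (`Finset.sum_coe_sort` /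
`sum_attach`). (`W₀ ∈ Feas` is not needed.)
-/

set_option autoImplicit false

namespace SSB

open Finset

private theorem G1_closed (N : ℕ) (Q X : Finset ℕ) (W₀ : ℕ → ℕ → ℝ) (C : ℝ) :
    IsClosed (Feas N Q X W₀ C) := by
  have hc : ∀ x y : ℕ, Continuous (fun W : ℕ → ℕ → ℝ => W x y) := fun x y =>
    (continuous_apply y).comp (continuous_apply x)
  have e : Feas N Q X W₀ C =
      (⋂ x : ℕ, ⋂ y : ℕ, {W : ℕ → ℕ → ℝ | 0 ≤ W x y ∧ W x y ≤ W₀ x y + C / N}) ∩
      ((⋂ x : ℕ, ⋂ y : ℕ, {W : ℕ → ℕ → ℝ | ¬ (x ∈ Q ∧ x ∉ X ∧ y ∈ Q ∧ dd x y ∈ Q) → W x y = W₀ x y}) ∩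
      (⋂ x : ℕ, {W : ℕ → ℕ → ℝ | ∑ y ∈ range (N + 1), W x y = ∑ y ∈ range (N + 1), W₀ x y})) := by
    ext W
    simp only [Feas, Set.mem_ofPred_eq, Set.mem_inter_iff, Set.mem_iInter]
  rw [e]
  refine IsClosed.inter ?_ (IsClosed.inter ?_ ?_)
  · refine isClosed_iInter fun x => isClosed_iInter fun y => ?_
    exact (isClosed_le continuous_const (hc x y)).inter (isClosed_le (hc x y) continuous_const)
  · refine isClosed_iInter fun x => isClosed_iInter fun y => ?_
    by_cases h : x ∈ Q ∧ x ∉ X ∧ y ∈ Q ∧ dd x y ∈ Q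
    · have e1 : {W : ℕ → ℕ → ℝ | ¬ (x ∈ Q ∧ x ∉ X ∧ y ∈ Q ∧ dd x y ∈ Q) → W x y = W₀ x y} =
          Set.univ := Set.eq_univ_of_forall fun W hW => absurd h hW
      rw [e1]
      exact isClosed_univ
    · have e1 : {W : ℕ → ℕ → ℝ | ¬ (x ∈ Q ∧ x ∉ X ∧ y ∈ Q ∧ dd x y ∈ Q) → W x y = W₀ x y} =
          {W : ℕ → ℕ → ℝ | W x y = W₀ x y} := Set.ext fun W => ⟨fun hW => hW h, fun hW _ => hW⟩
      rw [e1]
      exact isClosed_eq (hc x y) continuous_const
  · refine isClosed_iInter fun x => ?_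
    exact isClosed_eq (continuous_finsetSum _ fun y _ => hc x y) continuous_const

private theorem G1_compact (N : ℕ) (Q X : Finset ℕ) (W₀ : ℕ → ℕ → ℝ) (C : ℝ) :
    IsCompact (Feas N Q X W₀ C) := by
  have h1 : IsCompact (Set.univ.pi fun x : ℕ => Set.univ.pi fun y : ℕ =>
      Set.Icc (0 : ℝ) (W₀ x y + C / N)) :=
    isCompact_univ_pi fun x => isCompact_univ_pi fun y => isCompact_Icc
  refine h1.of_isClosed_subset (G1_closed N Q X W₀ C) ?_
  rintro W ⟨hW, -, -⟩
  exact fun x _ y _ => hW x y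

private theorem G1_convex (N : ℕ) (Q X : Finset ℕ) (W₀ : ℕ → ℕ → ℝ) (C : ℝ) :
    Convex ℝ (Feas N Q X W₀ C) := by
  rintro W ⟨h1, h2, h3⟩ V ⟨g1, g2, g3⟩ a b ha hb hab
  have e : ∀ x y, (a • W + b • V) x y = a * W x y + b * V x y := fun x y => rfl
  refine ⟨fun x y => ⟨?_, ?_⟩, fun x y hxy => ?_, fun x => ?_⟩
  · rw [e]
    exact add_nonneg (mul_nonneg ha (h1 x y).1) (mul_nonneg hb (g1 x y).1)
  · rw [e]
    have e1 : a * (W₀ x y + C / N) + b * (W₀ x y + C / N) = W₀ x y + C / N := by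
      rw [← add_mul, hab, one_mul]
    have e2 := mul_le_mul_of_nonneg_left (h1 x y).2 ha
    have e3 := mul_le_mul_of_nonneg_left (g1 x y).2 hb
    linarith
  · rw [e, h2 x y hxy, g2 x y hxy, ← add_mul, hab, one_mul]
  · simp only [e, sum_add_distrib, ← mul_sum]
    rw [h3 x, g3 x, ← add_mul, hab, one_mul]

/-- the loads as a linear map -/
private noncomputable def G1_L (N : ℕ) (Q : Finset ℕ) : (ℕ → ℕ → ℝ) →ₗ[ℝ] ({z // z ∈ Q} → ℝ) where
  toFun W z := ldW N W z
  map_add' W V := by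
    funext z
    show ldW N (W + V) z = ldW N W z + ldW N V z
    unfold ldW
    rw [← sum_add_distrib]
    refine sum_congr rfl fun x _ => ?_
    have e1 : ∑ y ∈ range (N + 1), (if dd x y = (z : ℕ) then (W + V) x y else 0) =
        ∑ y ∈ range (N + 1), (if dd x y = (z : ℕ) then W x y else 0) +
        ∑ y ∈ range (N + 1), (if dd x y = (z : ℕ) then V x y else 0) := by
      rw [← sum_add_distrib]
      refine sum_congr rfl fun y _ => ?_
      split_ifs
      · rfl
      · rw [add_zero]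
    rw [e1]
    show W x z + V x z + _ = _
    ring
  map_smul' c W := by
    funext z
    show ldW N (c • W) z = c * ldW N W z
    unfold ldW
    rw [mul_sum]
    refine sum_congr rfl fun x _ => ?_
    rw [mul_add, mul_sum]
    congr 1
    refine sum_congr rfl fun y _ => ?_
    split_ifs
    · rfl
    · rw [mul_zero]

private theorem G1_cont (N : ℕ) (Q : Finset ℕ) : Continuous (G1_L N Q) := by
  have hc : ∀ x y : ℕ, Continuous (fun W : ℕ → ℕ → ℝ => W x y) := fun x y =>
    (continuous_apply y).comp (continuous_apply x)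
  refine continuous_pi fun z => ?_
  show Continuous fun W : ℕ → ℕ → ℝ => ldW N W z
  unfold ldW
  refine continuous_finsetSum _ fun x _ => (hc x z).add (continuous_finsetSum _ fun y _ => ?_)
  by_cases h : dd x y = (z : ℕ)
  · simp only [if_pos h]
    exact hc x y
  · simp only [if_neg h]
    exact continuous_const

theorem sepG {N : ℕ} {Q X : Finset ℕ} {W₀ : ℕ → ℕ → ℝ} {C : ℝ} (T : ℕ → ℝ)
    (hno : ¬ ∃ W ∈ Feas N Q X W₀ C, ∀ z ∈ Q, ldW N W z = T z) :
    ∃ φ : ℕ → ℝ, ∀ W ∈ Feas N Q X W₀ C, ∑ z ∈ Q, φ z * ldW N W z < ∑ z ∈ Q, φ z * T z := by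
  classical
  have h1 : Convex ℝ (G1_L N Q '' Feas N Q X W₀ C) := (G1_convex N Q X W₀ C).linear_image _
  have h2 : IsClosed (G1_L N Q '' Feas N Q X W₀ C) :=
    ((G1_compact N Q X W₀ C).image (G1_cont N Q)).isClosed
  have h3 : (fun z : {z // z ∈ Q} => T z) ∉ G1_L N Q '' Feas N Q X W₀ C := by
    rintro ⟨W, hW, hWT⟩
    exact hno ⟨W, hW, fun z hz => congrFun hWT ⟨z, hz⟩⟩
  obtain ⟨f, u, hf1, hf2⟩ := geometric_hahn_banach_closed_point h1 h2 h3
  refine ⟨fun z => if h : z ∈ Q then f (fun j => if (⟨z, h⟩ : {z // z ∈ Q}) = j then 1 else 0) else 0,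
    fun W hW => ?_⟩
  have key : ∀ g : ℕ → ℝ, ∑ z ∈ Q, (if h : z ∈ Q then
      f (fun j => if (⟨z, h⟩ : {z // z ∈ Q}) = j then 1 else 0) else 0) * g z =
      f (fun z : {z // z ∈ Q} => g z) := by
    intro g
    rw [← sum_coe_sort Q]
    have h4 := LinearMap.pi_apply_eq_sum_univ (f : ({z // z ∈ Q} → ℝ) →ₗ[ℝ] ℝ)
      (fun z : {z // z ∈ Q} => g z)
    refine Eq.trans (sum_congr rfl fun z _ => ?_) h4.symm
    rw [dif_pos z.2, smul_eq_mul, mul_comm]
    rfl
  rw [key (fun z => ldW N W z), key T]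
  exact (hf1 _ ⟨W, hW, rfl⟩).trans hf2

end SSB
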