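import Pool.Agent.Lib.MP_8a819d_co.AT.Defs

/-!
# MP_8a819d_co, trees with many non-leaves: the key inequality, 0. Definitions and counting lemmas

* `Gd N Q X`: the good pairs (row `x`, label `y`).
* `KX N Q X`: standing hypotheses. `Zb N Q X`: the bad numbers in `[0, N]` (not in `Q`, or in `X`), at most
  `3 * 10^-6 * N`.
* `mult_sum`: multiplicity lemma. `cnt1`, `cnt2`: counting parameters with a bad number.
-/

set_option autoImplicit false

namespace SSB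

open Finset

/-- good pairs (row `x`, label `y`) -/
def Gd (N : ℕ) (Q X : Finset ℕ) : Finset (ℕ × ℕ) :=
  (Q ×ˢ Q).filter (fun p => p.1 ∉ X ∧ dd p.1 p.2 ∈ Q ∧ N < p.1 + p.2 ∧ N ≤ 10 * p.1 ∧ N ≤ 10 * p.2)

/-- standing hypotheses -/
structure KX (N : ℕ) (Q X : Finset ℕ) : Prop where
  big : 10 ^ 9 ≤ N
  sub : Q ⊆ Icc 1 N
  card : (N : ℝ) - Q.card ≤ (1 / 10 ^ 6) * N
  cardX : (X.card : ℝ) ≤ (1 / 10 ^ 6) * N

/-- the bad numbers -/
def Zb (N : ℕ) (Q X : Finset ℕ) : Finset ℕ := (range (N + 1)).filter (fun u => u ∉ Q ∨ u ∈ X)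

/-- total deviation on the good pairs -/
noncomputable def II (N : ℕ) (Q X : Finset ℕ) (φ m : ℕ → ℝ) : ℝ :=
  ∑ p ∈ Gd N Q X, |φ p.2 + φ (dd p.1 p.2) - m p.1|

/-- the bank -/
def Bk (N : ℕ) (Q : Finset ℕ) : Finset ℕ := Q.filter (fun b => 88 * N ≤ 100 * b ∧ 100 * b ≤ 92 * N)

/-- the upper labels -/
def R1 (N : ℕ) (Q : Finset ℕ) : Finset ℕ := Q.filter (fun a => 38 * N ≤ 100 * a)

/-- the lower labels -/
def R0 (N : ℕ) (Q : Finset ℕ) : Finset ℕ := Q.filter (fun a => 100 * a < 38 * N)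

theorem II_nonneg (N : ℕ) (Q X : Finset ℕ) (φ m : ℕ → ℝ) : 0 ≤ II N Q X φ m :=
  sum_nonneg fun _ _ => abs_nonneg _

theorem mem_Zb {N : ℕ} {Q X : Finset ℕ} {u : ℕ} (hu : u ≤ N) : u ∉ Zb N Q X ↔ u ∈ Q ∧ u ∉ X := by
  unfold Zb
  rw [mem_filter, mem_range]
  constructor
  · intro h
    by_contra h'
    apply h
    refine ⟨by omega, ?_⟩
    by_cases h1 : u ∈ Q
    · right
      by_contra h2
      exact h' ⟨h1, h2⟩
    · exact Or.inl h1
  · rintro ⟨h1, h2⟩ ⟨-, h3 | h3⟩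
    · exact h3 h1
    · exact h2 h3

theorem Zb_card {N : ℕ} {Q X : Finset ℕ} (h : KX N Q X) :
    ((Zb N Q X).card : ℝ) ≤ (3 / 10 ^ 6) * N := by
  have h1 : Zb N Q X ⊆ (insert 0 (Icc 1 N \ Q)) ∪ X := by
    intro u hu
    unfold Zb at hu
    rw [mem_filter, mem_range] at hu
    obtain ⟨h1, h2 | h2⟩ := hu
    · refine mem_union_left _ ?_
      rcases Nat.eq_zero_or_pos u with h3 | h3
      · rw [h3]; exact mem_insert_self _ _
      · exact mem_insert_of_mem (mem_sdiff.2 ⟨mem_Icc.2 ⟨h3, by omega⟩, h2⟩)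
    · exact mem_union_right _ h2
  have h2 := (card_le_card h1).trans (card_union_le _ _)
  have h3 := card_insert_le 0 (Icc 1 N \ Q)
  have h4 : (Icc 1 N \ Q).card + Q.card = N := by
    rw [card_sdiff_add_card_eq_card h.sub, Nat.card_Icc]
    omega
  have h5 : ((Icc 1 N \ Q).card : ℝ) + Q.card = N := by exact_mod_cast h4
  have h6 : ((Zb N Q X).card : ℝ) ≤ (Icc 1 N \ Q).card + 1 + X.card := by
    have : (Zb N Q X).card ≤ (Icc 1 N \ Q).card + 1 + X.card := by omega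
    exact_mod_cast this
  have h7 := h.card
  have h8 := h.cardX
  have h9 : (10 : ℝ) ^ 9 ≤ N := by exact_mod_cast h.big
  linarith

/-- multiplicity lemma: a sum over parameters `t` of a function of `π t`, where `t` is determined by `π t ∈ G`
and `ρ t ∈ R` -/
theorem mult_sum {A B C : Type*} (S : Finset A) (G : Finset B) (R : Finset C) (π : A → B) (ρ : A → C)
    (hπ : ∀ t ∈ S, π t ∈ G) (hρ : ∀ t ∈ S, ρ t ∈ R)
    (inj : ∀ t ∈ S, ∀ t' ∈ S, π t = π t' → ρ t = ρ t' → t = t') (f : B → ℝ) (hf : ∀ b ∈ G, 0 ≤ f b) :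
    ∑ t ∈ S, f (π t) ≤ R.card * ∑ b ∈ G, f b := by
  classical
  have h1 : ∑ t ∈ S, f (π t) = ∑ u ∈ S.image (fun t => (π t, ρ t)), f u.1 := by
    rw [sum_image]
    intro t ht t' ht' he
    exact inj t ht t' ht' (congrArg Prod.fst he) (congrArg Prod.snd he)
  rw [h1]
  have h2 : S.image (fun t => (π t, ρ t)) ⊆ G ×ˢ R := by
    intro u hu
    rw [mem_image] at hu
    obtain ⟨t, ht, rfl⟩ := hu
    exact mem_product.2 ⟨hπ t ht, hρ t ht⟩
  refine (sum_le_sum_of_subset_of_nonneg h2 fun u hu _ => hf _ (mem_product.1 hu).1).trans (le_of_eq ?_)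
  rw [sum_product]
  rw [mul_sum]
  refine sum_congr rfl fun b _ => ?_
  change ∑ _y ∈ R, f b = _
  rw [sum_const, nsmul_eq_mul]

/-- at most `|Z|` parameters give a bad number -/
theorem cnt1 {N : ℕ} {Q X : Finset ℕ} {A : Type*} (S : Finset A) (g : A → ℕ)
    (inj : ∀ t ∈ S, ∀ t' ∈ S, g t = g t' → t = t') :
    (S.filter (fun t => g t ∈ Zb N Q X)).card ≤ (Zb N Q X).card := by
  refine card_le_card_of_injOn g ?_ ?_
  · intro t ht
    exact (mem_filter.1 (mem_coe.1 ht)).2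
  · intro t ht t' ht' he
    exact inj t (mem_filter.1 (mem_coe.1 ht)).1 t' (mem_filter.1 (mem_coe.1 ht')).1 he

/-- at most `|Z| (N + 1)` parameters give a bad number -/
theorem cnt2 {N : ℕ} {Q X : Finset ℕ} {A : Type*} (S : Finset A) (g ρ : A → ℕ)
    (hρ : ∀ t ∈ S, ρ t ≤ N) (inj : ∀ t ∈ S, ∀ t' ∈ S, g t = g t' → ρ t = ρ t' → t = t') :
    (S.filter (fun t => g t ∈ Zb N Q X)).card ≤ (Zb N Q X).card * (N + 1) := by
  have h1 : (S.filter (fun t => g t ∈ Zb N Q X)).card ≤ (Zb N Q X ×ˢ range (N + 1)).card := by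
    refine card_le_card_of_injOn (fun t => (g t, ρ t)) ?_ ?_
    · intro t ht
      have ht' := mem_filter.1 (mem_coe.1 ht)
      exact mem_coe.2 (mem_product.2 ⟨ht'.2, mem_range.2 (Nat.lt_succ_of_le (hρ t ht'.1))⟩)
    · intro t ht t' ht' he
      exact inj t (mem_filter.1 (mem_coe.1 ht)).1 t' (mem_filter.1 (mem_coe.1 ht')).1
        (congrArg Prod.fst he) (congrArg Prod.snd he)
  rwa [card_product, card_range] at h1

/-- number of integers between `p N / 100` and `q N / 100` -/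
theorem cntI {N p q : ℕ} (hpq : p ≤ q) :
    ((q - p : ℕ) : ℝ) / 100 * N - 1 ≤
      ((range (q * N + 1)).filter (fun x => p * N ≤ 100 * x ∧ 100 * x ≤ q * N)).card := by
  have h1 : Icc ((p * N + 99) / 100) (q * N / 100) ⊆
      (range (q * N + 1)).filter (fun x => p * N ≤ 100 * x ∧ 100 * x ≤ q * N) := by
    intro x hx
    rw [mem_Icc] at hx
    rw [mem_filter, mem_range]
    omega
  have h2 := card_le_card h1
  rw [Nat.card_Icc] at h2
  have h3 : (q - p) * N + p * N = q * N := by rw [← Nat.add_mul, Nat.sub_add_cancel hpq]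
  have h4 : (q - p) * N ≤ 100 * (((range (q * N + 1)).filter
      (fun x => p * N ≤ 100 * x ∧ 100 * x ≤ q * N)).card + 1) := by
    omega
  have h5 : (((q - p : ℕ) : ℝ)) * N ≤ 100 * ((((range (q * N + 1)).filter
      (fun x => p * N ≤ 100 * x ∧ 100 * x ≤ q * N)).card : ℝ) + 1) := by exact_mod_cast h4
  linarith

theorem mem_Gd {N : ℕ} {Q X : Finset ℕ} {x y : ℕ} : (x, y) ∈ Gd N Q X ↔
    (x ∈ Q ∧ y ∈ Q) ∧ x ∉ X ∧ dd x y ∈ Q ∧ N < x + y ∧ N ≤ 10 * x ∧ N ≤ 10 * y := by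
  unfold Gd
  rw [mem_filter, mem_product]

end SSB
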