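import Pool.Agent.Lib.MP_8a819d_co.AT.K0

/-!
# MP_8a819d_co, trees with many non-leaves: the key inequality, 1. The bank

JOB K1 (all of this file; read `K0.lean` first; start auxiliary lemma names with `K1_`).

`I = II N Q X φ m = ∑ (x, y) ∈ Gd, |F x y|`, `F x y = φ y + φ (dd x y) - m x`.

PROOF. For `b, b' ∈ Bk` (`0.88 N ≤ b ≤ 0.92 N`) let `P b b'` be the set of the parameters `(x, x₂)` with
`0.13 N ≤ x ≤ 0.2 N`, `0.35 N ≤ x₂ ≤ 0.5 N` such that, with `w = x + x₂` (`0.48 N ≤ w ≤ 0.7 N`), none of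
`x, x₂, w, b - x, b - w, b' - x, b' - w` is in `Zb N Q X` (all are `≤ N`; use `mem_Zb`: they are in `Q` and not in `X`).
* `|P b b'| ≥ N²/100`: the box has at least `(0.07 N - 1)(0.15 N - 1) ≥ 0.0104 N²` elements (`cntI`), and by `cnt2`
  (with `g` = the number in question and `ρ t = t.1` or `t.2`) at most `7 |Z| (N + 1) ≤ 7 * 3 * 10^-6 * N (N + 1)` of
  them are bad.
* For `(x, x₂) ∈ P b b'` the six pairs `(x, b)`, `(x, b')`, `(x₂, b - x)`, `(x₂, b' - x)`, `(w, b)`, `(w, b')` are in `Gd`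
  (`mem_Gd`; sums `x + b ≥ 1.01 N`, `x₂ + b - x ≥ 1.03 N`, `w + b ≥ 1.36 N`; `dd x b = b - x`, `dd x₂ (b - x) = b - w` as
  `b - w ≥ 0.18 N`, `dd w b = b - w`), and
  `2 (φ b - φ b') = (F x b - F x b') - (F x₂ (b-x) - F x₂ (b'-x)) + (F w b - F w b')`
  (the terms `m x`, `m x₂`, `m w` cancel, as well as `φ (b-x)`, `φ (b'-x)`, and `φ (b-w)`, `φ (b'-w)` cancel).
* So `2 * (N²/100) * ∑ b b' |φ b - φ b'| ≤ ∑ b, b', (x, x₂) ∈ P b b' (six terms)`, and each of the six sums is at most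
  `(N + 1)² I` by `mult_sum` (with `S` = the set of all `(b, b', x, x₂)` (use `Finset.sigma` or a filter of a product),
  `R = range (N+1) ×ˢ range (N+1)`: given `(x, b)` there remain `(b', x₂)`; given `(u, v) = (x₂, b - x)` there remain
  `(b, b')` and `x = b - v`; given `(w, b)` there remain `(b', x)`). Hence
  `∑ b b' |φ b - φ b'| ≤ 300 (N+1)²/N² I ≤ 400 I`.
-/

set_option autoImplicit false

namespace SSB

open Finset

/-- the box of the parameters `(x, x₂)` -/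
private def K1_box (N : ℕ) : Finset (ℕ × ℕ) :=
  ((range (20 * N + 1)).filter (fun x => 13 * N ≤ 100 * x ∧ 100 * x ≤ 20 * N)) ×ˢ
    ((range (50 * N + 1)).filter (fun x => 35 * N ≤ 100 * x ∧ 100 * x ≤ 50 * N))

/-- the seven numbers -/
private def K1_g (b b' : ℕ) (i : Fin 7) (t : ℕ × ℕ) : ℕ :=
  ![t.1, t.2, t.1 + t.2, b - t.1, b - (t.1 + t.2), b' - t.1, b' - (t.1 + t.2)] i

private def K1_Good (N : ℕ) (Q X : Finset ℕ) (b b' : ℕ) (t : ℕ × ℕ) : Prop :=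
  ∀ i : Fin 7, K1_g b b' i t ∉ Zb N Q X

private theorem K1_mem_box {N : ℕ} {t : ℕ × ℕ} (h : t ∈ K1_box N) :
    (13 * N ≤ 100 * t.1 ∧ 100 * t.1 ≤ 20 * N) ∧ 35 * N ≤ 100 * t.2 ∧ 100 * t.2 ≤ 50 * N := by
  unfold K1_box at h
  rw [mem_product, mem_filter, mem_filter] at h
  exact ⟨h.1.2, h.2.2⟩

private theorem K1_mem_Bk {N : ℕ} {Q : Finset ℕ} {b : ℕ} (h : b ∈ Bk N Q) :
    b ∈ Q ∧ 88 * N ≤ 100 * b ∧ 100 * b ≤ 92 * N := by
  unfold Bk at h
  exact mem_filter.1 h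

private theorem K1_box_card {N : ℕ} (hN : 10 ^ 9 ≤ N) :
    (104 / 10000) * (N : ℝ) ^ 2 ≤ (K1_box N).card := by
  have h1 := cntI (N := N) (p := 13) (q := 20) (by norm_num)
  have h2 := cntI (N := N) (p := 35) (q := 50) (by norm_num)
  unfold K1_box
  rw [card_product, Nat.cast_mul]
  have h3 : (10 : ℝ) ^ 9 ≤ N := by exact_mod_cast hN
  have e1 : (((20 - 13 : ℕ) : ℝ)) = 7 := by norm_num
  have e2 : (((50 - 35 : ℕ) : ℝ)) = 15 := by norm_num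
  rw [e1] at h1
  rw [e2] at h2
  refine le_trans ?_ (mul_le_mul h1 h2 (by nlinarith) (Nat.cast_nonneg _))
  nlinarith

private theorem K1_bad_card {N : ℕ} {Q X : Finset ℕ} {b b' : ℕ} (hb : b ∈ Bk N Q) (hb' : b' ∈ Bk N Q) (i : Fin 7) :
    ((K1_box N).filter (fun t => K1_g b b' i t ∈ Zb N Q X)).card ≤ (Zb N Q X).card * (N + 1) := by
  have h1 := (K1_mem_Bk hb).2
  have h2 := (K1_mem_Bk hb').2
  have key : ∀ g ρ : ℕ × ℕ → ℕ, (∀ t ∈ K1_box N, ρ t ≤ N) →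
      (∀ t ∈ K1_box N, ∀ t' ∈ K1_box N, g t = g t' → ρ t = ρ t' → t.1 = t'.1 ∧ t.2 = t'.2) →
      ((K1_box N).filter (fun t => g t ∈ Zb N Q X)).card ≤ (Zb N Q X).card * (N + 1) := by
    intro g ρ hρ hi
    refine cnt2 _ g ρ hρ ?_
    intro t ht t' ht' e1 e2
    obtain ⟨e3, e4⟩ := hi t ht t' ht' e1 e2
    exact Prod.ext e3 e4
  have r1 : ∀ t ∈ K1_box N, t.1 ≤ N := fun t ht => by
    have := K1_mem_box ht
    omega
  have r2 : ∀ t ∈ K1_box N, t.2 ≤ N := fun t ht => by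
    have := K1_mem_box ht
    omega
  fin_cases i
  · refine key (fun t => t.1) (fun t => t.2) r2 ?_
    intro t ht t' ht' e1 e2
    exact ⟨e1, e2⟩
  · refine key (fun t => t.2) (fun t => t.1) r1 ?_
    intro t ht t' ht' e1 e2
    exact ⟨e2, e1⟩
  · refine key (fun t => t.1 + t.2) (fun t => t.1) r1 ?_
    intro t ht t' ht' e1 e2
    omega
  · refine key (fun t => b - t.1) (fun t => t.2) r2 ?_
    intro t ht t' ht' e1 e2
    have := K1_mem_box ht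
    have := K1_mem_box ht'
    omega
  · refine key (fun t => b - (t.1 + t.2)) (fun t => t.1) r1 ?_
    intro t ht t' ht' e1 e2
    have := K1_mem_box ht
    have := K1_mem_box ht'
    omega
  · refine key (fun t => b' - t.1) (fun t => t.2) r2 ?_
    intro t ht t' ht' e1 e2
    have := K1_mem_box ht
    have := K1_mem_box ht'
    omega
  · refine key (fun t => b' - (t.1 + t.2)) (fun t => t.1) r1 ?_
    intro t ht t' ht' e1 e2
    have := K1_mem_box ht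
    have := K1_mem_box ht'
    omega

open Classical in
private theorem K1_good_card {N : ℕ} {Q X : Finset ℕ} (h : KX N Q X) {b b' : ℕ} (hb : b ∈ Bk N Q)
    (hb' : b' ∈ Bk N Q) :
    (1 / 100) * (N : ℝ) ^ 2 ≤ ((K1_box N).filter (fun t => K1_Good N Q X b b' t)).card := by
  have h1 : K1_box N ⊆ (K1_box N).filter (fun t => K1_Good N Q X b b' t) ∪
      (univ : Finset (Fin 7)).biUnion (fun i => (K1_box N).filter (fun t => K1_g b b' i t ∈ Zb N Q X)) := by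
    intro t ht
    by_cases hg : K1_Good N Q X b b' t
    · exact mem_union_left _ (mem_filter.2 ⟨ht, hg⟩)
    · refine mem_union_right _ ?_
      unfold K1_Good at hg
      push Not at hg
      obtain ⟨i, hi⟩ := hg
      exact mem_biUnion.2 ⟨i, mem_univ _, mem_filter.2 ⟨ht, hi⟩⟩
  have h2 := (card_le_card h1).trans (card_union_le _ _)
  have h3 : ((univ : Finset (Fin 7)).biUnion
      (fun i => (K1_box N).filter (fun t => K1_g b b' i t ∈ Zb N Q X))).card ≤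
      7 * ((Zb N Q X).card * (N + 1)) := by
    refine card_biUnion_le.trans ?_
    refine (sum_le_sum fun i _ => K1_bad_card hb hb' i).trans ?_
    rw [sum_const, card_univ, Fintype.card_fin, smul_eq_mul]
  have h4 := K1_box_card h.big
  have h5 := Zb_card h
  have h6 : (10 : ℝ) ^ 9 ≤ N := by exact_mod_cast h.big
  have h7 : ((K1_box N).card : ℝ) ≤ ((K1_box N).filter (fun t => K1_Good N Q X b b' t)).card +
      7 * ((Zb N Q X).card * (N + 1)) := by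
    exact_mod_cast h2.trans (Nat.add_le_add_left h3 _)
  have h8 : ((Zb N Q X).card : ℝ) * (N + 1) ≤ (3 / 10 ^ 6) * N * (N + 1) :=
    mul_le_mul_of_nonneg_right h5 (by positivity)
  nlinarith

/-- the six pairs -/
private def K1_six (b b' : ℕ) (t : ℕ × ℕ) (j : Fin 6) : ℕ × ℕ :=
  ![(t.1, b), (t.1, b'), (t.2, b - t.1), (t.2, b' - t.1), (t.1 + t.2, b), (t.1 + t.2, b')] j

private theorem K1_pairs {N : ℕ} {Q X : Finset ℕ} (h : KX N Q X) {b b' : ℕ} {t : ℕ × ℕ}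
    (hb : b ∈ Bk N Q) (hb' : b' ∈ Bk N Q) (ht : t ∈ K1_box N) (hg : K1_Good N Q X b b' t) (j : Fin 6) :
    K1_six b b' t j ∈ Gd N Q X := by
  have hB := K1_mem_Bk hb
  have hB' := K1_mem_Bk hb'
  have hT := K1_mem_box ht
  have g0 := (mem_Zb (by show t.1 ≤ N; omega)).1 (hg 0)
  have g1 := (mem_Zb (by show t.2 ≤ N; omega)).1 (hg 1)
  have g2 := (mem_Zb (by show t.1 + t.2 ≤ N; omega)).1 (hg 2)
  have g3 := (mem_Zb (by show b - t.1 ≤ N; omega)).1 (hg 3)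
  have g4 := (mem_Zb (by show b - (t.1 + t.2) ≤ N; omega)).1 (hg 4)
  have g5 := (mem_Zb (by show b' - t.1 ≤ N; omega)).1 (hg 5)
  have g6 := (mem_Zb (by show b' - (t.1 + t.2) ≤ N; omega)).1 (hg 6)
  have g0' : t.1 ∈ Q ∧ t.1 ∉ X := g0
  have g1' : t.2 ∈ Q ∧ t.2 ∉ X := g1
  have g2' : t.1 + t.2 ∈ Q ∧ t.1 + t.2 ∉ X := g2
  have g3' : b - t.1 ∈ Q ∧ b - t.1 ∉ X := g3
  have g4' : b - (t.1 + t.2) ∈ Q ∧ b - (t.1 + t.2) ∉ X := g4
  have g5' : b' - t.1 ∈ Q ∧ b' - t.1 ∉ X := g5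
  have g6' : b' - (t.1 + t.2) ∈ Q ∧ b' - (t.1 + t.2) ∉ X := g6
  have d1 : dd t.1 b = b - t.1 := by unfold dd; omega
  have d2 : dd t.1 b' = b' - t.1 := by unfold dd; omega
  have d3 : dd t.2 (b - t.1) = b - (t.1 + t.2) := by unfold dd; omega
  have d4 : dd t.2 (b' - t.1) = b' - (t.1 + t.2) := by unfold dd; omega
  have d5 : dd (t.1 + t.2) b = b - (t.1 + t.2) := by unfold dd; omega
  have d6 : dd (t.1 + t.2) b' = b' - (t.1 + t.2) := by unfold dd; omega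
  have hpos : 0 < N := lt_of_lt_of_le (by norm_num) h.big
  fin_cases j
  · change (t.1, b) ∈ Gd N Q X
    rw [mem_Gd, d1]
    exact ⟨⟨g0'.1, hB.1⟩, g0'.2, g3'.1, by omega, by omega, by omega⟩
  · change (t.1, b') ∈ Gd N Q X
    rw [mem_Gd, d2]
    exact ⟨⟨g0'.1, hB'.1⟩, g0'.2, g5'.1, by omega, by omega, by omega⟩
  · change (t.2, b - t.1) ∈ Gd N Q X
    rw [mem_Gd, d3]
    exact ⟨⟨g1'.1, g3'.1⟩, g1'.2, g4'.1, by omega, by omega, by omega⟩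
  · change (t.2, b' - t.1) ∈ Gd N Q X
    rw [mem_Gd, d4]
    exact ⟨⟨g1'.1, g5'.1⟩, g1'.2, g6'.1, by omega, by omega, by omega⟩
  · change (t.1 + t.2, b) ∈ Gd N Q X
    rw [mem_Gd, d5]
    exact ⟨⟨g2'.1, hB.1⟩, g2'.2, g4'.1, by omega, by omega, by omega⟩
  · change (t.1 + t.2, b') ∈ Gd N Q X
    rw [mem_Gd, d6]
    exact ⟨⟨g2'.1, hB'.1⟩, g2'.2, g6'.1, by omega, by omega, by omega⟩

/-- the deviation -/
private def K1_F (φ m : ℕ → ℝ) (p : ℕ × ℕ) : ℝ := φ p.2 + φ (dd p.1 p.2) - m p.1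

private theorem K1_ident {N : ℕ} {Q : Finset ℕ} {b b' : ℕ} {t : ℕ × ℕ} (hb : b ∈ Bk N Q) (hb' : b' ∈ Bk N Q)
    (ht : t ∈ K1_box N) (φ m : ℕ → ℝ) :
    2 * |φ b - φ b'| ≤ ∑ j : Fin 6, |K1_F φ m (K1_six b b' t j)| := by
  have hB := K1_mem_Bk hb
  have hB' := K1_mem_Bk hb'
  have hT := K1_mem_box ht
  have d1 : dd t.1 b = b - t.1 := by unfold dd; omega
  have d2 : dd t.1 b' = b' - t.1 := by unfold dd; omega
  have d3 : dd t.2 (b - t.1) = b - (t.1 + t.2) := by unfold dd; omega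
  have d4 : dd t.2 (b' - t.1) = b' - (t.1 + t.2) := by unfold dd; omega
  have d5 : dd (t.1 + t.2) b = b - (t.1 + t.2) := by unfold dd; omega
  have d6 : dd (t.1 + t.2) b' = b' - (t.1 + t.2) := by unfold dd; omega
  have e0 : K1_F φ m (K1_six b b' t 0) = φ b + φ (b - t.1) - m t.1 := by
    change φ b + φ (dd t.1 b) - m t.1 = _
    rw [d1]
  have e1 : K1_F φ m (K1_six b b' t 1) = φ b' + φ (b' - t.1) - m t.1 := by
    change φ b' + φ (dd t.1 b') - m t.1 = _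
    rw [d2]
  have e2 : K1_F φ m (K1_six b b' t 2) = φ (b - t.1) + φ (b - (t.1 + t.2)) - m t.2 := by
    change φ (b - t.1) + φ (dd t.2 (b - t.1)) - m t.2 = _
    rw [d3]
  have e3 : K1_F φ m (K1_six b b' t 3) = φ (b' - t.1) + φ (b' - (t.1 + t.2)) - m t.2 := by
    change φ (b' - t.1) + φ (dd t.2 (b' - t.1)) - m t.2 = _
    rw [d4]
  have e4 : K1_F φ m (K1_six b b' t 4) = φ b + φ (b - (t.1 + t.2)) - m (t.1 + t.2) := by
    change φ b + φ (dd (t.1 + t.2) b) - m (t.1 + t.2) = _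
    rw [d5]
  have e5 : K1_F φ m (K1_six b b' t 5) = φ b' + φ (b' - (t.1 + t.2)) - m (t.1 + t.2) := by
    change φ b' + φ (dd (t.1 + t.2) b') - m (t.1 + t.2) = _
    rw [d6]
  rw [Fin.sum_univ_six]
  have key : 2 * (φ b - φ b') = K1_F φ m (K1_six b b' t 0) - K1_F φ m (K1_six b b' t 1)
      - K1_F φ m (K1_six b b' t 2) + K1_F φ m (K1_six b b' t 3) + K1_F φ m (K1_six b b' t 4)
      - K1_F φ m (K1_six b b' t 5) := by
    rw [e0, e1, e2, e3, e4, e5]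
    ring
  have h1 : 2 * |φ b - φ b'| = |2 * (φ b - φ b')| := by
    rw [abs_mul, abs_of_pos (by norm_num : (0 : ℝ) < 2)]
  rw [h1, key]
  have a0 := abs_le.1 (le_refl |K1_F φ m (K1_six b b' t 0)|)
  have a1 := abs_le.1 (le_refl |K1_F φ m (K1_six b b' t 1)|)
  have a2 := abs_le.1 (le_refl |K1_F φ m (K1_six b b' t 2)|)
  have a3 := abs_le.1 (le_refl |K1_F φ m (K1_six b b' t 3)|)
  have a4 := abs_le.1 (le_refl |K1_F φ m (K1_six b b' t 4)|)
  have a5 := abs_le.1 (le_refl |K1_F φ m (K1_six b b' t 5)|)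
  rw [abs_le]
  constructor <;> linarith

open Classical in
/-- the set of all parameters -/
private noncomputable def K1_S (N : ℕ) (Q X : Finset ℕ) : Finset ((ℕ × ℕ) × (ℕ × ℕ)) :=
  ((Bk N Q ×ˢ Bk N Q) ×ˢ K1_box N).filter (fun s => K1_Good N Q X s.1.1 s.1.2 s.2)

open Classical in
private theorem K1_mem_S {N : ℕ} {Q X : Finset ℕ} {s : (ℕ × ℕ) × (ℕ × ℕ)} (h : s ∈ K1_S N Q X) :
    s.1.1 ∈ Bk N Q ∧ s.1.2 ∈ Bk N Q ∧ s.2 ∈ K1_box N ∧ K1_Good N Q X s.1.1 s.1.2 s.2 := by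
  unfold K1_S at h
  rw [mem_filter, mem_product, mem_product] at h
  exact ⟨h.1.1.1, h.1.1.2, h.1.2, h.2⟩

private theorem K1_low {N : ℕ} {Q X : Finset ℕ} (h : KX N Q X) (φ : ℕ → ℝ) :
    (1 / 100) * (N : ℝ) ^ 2 * (2 * ∑ b ∈ Bk N Q, ∑ b' ∈ Bk N Q, |φ b - φ b'|) ≤
      ∑ s ∈ K1_S N Q X, 2 * |φ s.1.1 - φ s.1.2| := by
  classical
  unfold K1_S
  rw [sum_filter, sum_product, ← sum_product', mul_sum, mul_sum]
  refine sum_le_sum fun p hp => ?_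
  obtain ⟨hp1, hp2⟩ := mem_product.1 hp
  rw [← sum_filter]
  change _ ≤ ∑ a ∈ (K1_box N).filter (fun t => K1_Good N Q X p.1 p.2 t), 2 * |φ p.1 - φ p.2|
  rw [sum_const, nsmul_eq_mul]
  exact mul_le_mul_of_nonneg_right (K1_good_card h hp1 hp2) (by positivity)

private theorem K1_one {N : ℕ} {Q X : Finset ℕ} (h : KX N Q X) (φ m : ℕ → ℝ) (j : Fin 6) :
    ∑ s ∈ K1_S N Q X, |K1_F φ m (K1_six s.1.1 s.1.2 s.2 j)| ≤ ((N : ℝ) + 1) ^ 2 * II N Q X φ m := by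
  have hR : ((range (N + 1) ×ˢ range (N + 1)).card : ℝ) = ((N : ℝ) + 1) ^ 2 := by
    rw [card_product, card_range]
    push_cast
    ring
  have key : ∀ ρ : (ℕ × ℕ) × (ℕ × ℕ) → ℕ × ℕ,
      (∀ s ∈ K1_S N Q X, (ρ s).1 ≤ N ∧ (ρ s).2 ≤ N) →
      (∀ s ∈ K1_S N Q X, ∀ s' ∈ K1_S N Q X,
        (K1_six s.1.1 s.1.2 s.2 j).1 = (K1_six s'.1.1 s'.1.2 s'.2 j).1 →
        (K1_six s.1.1 s.1.2 s.2 j).2 = (K1_six s'.1.1 s'.1.2 s'.2 j).2 →
        (ρ s).1 = (ρ s').1 → (ρ s).2 = (ρ s').2 →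
        (s.1.1 = s'.1.1 ∧ s.1.2 = s'.1.2) ∧ s.2.1 = s'.2.1 ∧ s.2.2 = s'.2.2) →
      ∑ s ∈ K1_S N Q X, |K1_F φ m (K1_six s.1.1 s.1.2 s.2 j)| ≤ ((N : ℝ) + 1) ^ 2 * II N Q X φ m := by
    intro ρ h1 h2
    have h3 := mult_sum (K1_S N Q X) (Gd N Q X) (range (N + 1) ×ˢ range (N + 1))
      (fun s => K1_six s.1.1 s.1.2 s.2 j) ρ
      (fun s hs => by
        obtain ⟨a1, a2, a3, a4⟩ := K1_mem_S hs
        exact K1_pairs h a1 a2 a3 a4 j)
      (fun s hs => by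
        obtain ⟨a1, a2⟩ := h1 s hs
        exact mem_product.2 ⟨mem_range.2 (Nat.lt_succ_of_le a1), mem_range.2 (Nat.lt_succ_of_le a2)⟩)
      (fun s hs s' hs' e1 e2 => by
        obtain ⟨⟨a1, a2⟩, a3, a4⟩ := h2 s hs s' hs' (congrArg Prod.fst e1) (congrArg Prod.snd e1)
          (congrArg Prod.fst e2) (congrArg Prod.snd e2)
        exact Prod.ext (Prod.ext a1 a2) (Prod.ext a3 a4))
      (fun p => |K1_F φ m p|) (fun p _ => abs_nonneg _)
    rw [hR] at h3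
    exact h3
  have bd : ∀ s ∈ K1_S N Q X, (88 * N ≤ 100 * s.1.1 ∧ 100 * s.1.1 ≤ 92 * N) ∧
      (88 * N ≤ 100 * s.1.2 ∧ 100 * s.1.2 ≤ 92 * N) ∧
      (13 * N ≤ 100 * s.2.1 ∧ 100 * s.2.1 ≤ 20 * N) ∧ 35 * N ≤ 100 * s.2.2 ∧ 100 * s.2.2 ≤ 50 * N := by
    intro s hs
    obtain ⟨a1, a2, a3, -⟩ := K1_mem_S hs
    exact ⟨(K1_mem_Bk a1).2, (K1_mem_Bk a2).2, (K1_mem_box a3).1, (K1_mem_box a3).2⟩
  fin_cases j
  · refine key (fun s => (s.1.2, s.2.2)) (fun s hs => by have := bd s hs; constructor <;> dsimp only <;> omega) ?_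
    intro s hs s' hs' e1 e2 e3 e4
    have := bd s hs
    have := bd s' hs'
    change s.2.1 = s'.2.1 at e1
    change s.1.1 = s'.1.1 at e2
    change s.1.2 = s'.1.2 at e3
    change s.2.2 = s'.2.2 at e4
    exact ⟨⟨e2, e3⟩, e1, e4⟩
  · refine key (fun s => (s.1.1, s.2.2)) (fun s hs => by have := bd s hs; constructor <;> dsimp only <;> omega) ?_
    intro s hs s' hs' e1 e2 e3 e4
    change s.2.1 = s'.2.1 at e1
    change s.1.2 = s'.1.2 at e2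
    change s.1.1 = s'.1.1 at e3
    change s.2.2 = s'.2.2 at e4
    exact ⟨⟨e3, e2⟩, e1, e4⟩
  · refine key (fun s => (s.1.1, s.1.2)) (fun s hs => by have := bd s hs; constructor <;> dsimp only <;> omega) ?_
    intro s hs s' hs' e1 e2 e3 e4
    have := bd s hs
    have := bd s' hs'
    change s.2.2 = s'.2.2 at e1
    change s.1.1 - s.2.1 = s'.1.1 - s'.2.1 at e2
    change s.1.1 = s'.1.1 at e3
    change s.1.2 = s'.1.2 at e4
    exact ⟨⟨e3, e4⟩, by omega, e1⟩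
  · refine key (fun s => (s.1.1, s.1.2)) (fun s hs => by have := bd s hs; constructor <;> dsimp only <;> omega) ?_
    intro s hs s' hs' e1 e2 e3 e4
    have := bd s hs
    have := bd s' hs'
    change s.2.2 = s'.2.2 at e1
    change s.1.2 - s.2.1 = s'.1.2 - s'.2.1 at e2
    change s.1.1 = s'.1.1 at e3
    change s.1.2 = s'.1.2 at e4
    exact ⟨⟨e3, e4⟩, by omega, e1⟩
  · refine key (fun s => (s.1.2, s.2.1)) (fun s hs => by have := bd s hs; constructor <;> dsimp only <;> omega) ?_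
    intro s hs s' hs' e1 e2 e3 e4
    change s.2.1 + s.2.2 = s'.2.1 + s'.2.2 at e1
    change s.1.1 = s'.1.1 at e2
    change s.1.2 = s'.1.2 at e3
    change s.2.1 = s'.2.1 at e4
    exact ⟨⟨e2, e3⟩, e4, by omega⟩
  · refine key (fun s => (s.1.1, s.2.1)) (fun s hs => by have := bd s hs; constructor <;> dsimp only <;> omega) ?_
    intro s hs s' hs' e1 e2 e3 e4
    change s.2.1 + s.2.2 = s'.2.1 + s'.2.2 at e1
    change s.1.2 = s'.1.2 at e2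
    change s.1.1 = s'.1.1 at e3
    change s.2.1 = s'.2.1 at e4
    exact ⟨⟨e3, e2⟩, e4, by omega⟩

theorem key1 {N : ℕ} {Q X : Finset ℕ} (h : KX N Q X) (φ m : ℕ → ℝ) :
    ∑ b ∈ Bk N Q, ∑ b' ∈ Bk N Q, |φ b - φ b'| ≤ 400 * II N Q X φ m := by
  have h1 := K1_low h φ
  have h2 : ∑ s ∈ K1_S N Q X, 2 * |φ s.1.1 - φ s.1.2| ≤
      ∑ s ∈ K1_S N Q X, ∑ j : Fin 6, |K1_F φ m (K1_six s.1.1 s.1.2 s.2 j)| := by
    refine sum_le_sum fun s hs => ?_
    obtain ⟨a1, a2, a3, -⟩ := K1_mem_S hs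
    exact K1_ident a1 a2 a3 φ m
  rw [sum_comm] at h2
  have h3 : ∑ j : Fin 6, ∑ s ∈ K1_S N Q X, |K1_F φ m (K1_six s.1.1 s.1.2 s.2 j)| ≤
      6 * (((N : ℝ) + 1) ^ 2 * II N Q X φ m) := by
    refine (sum_le_sum fun j _ => K1_one h φ m j).trans (le_of_eq ?_)
    rw [sum_const, card_univ, Fintype.card_fin, nsmul_eq_mul]
    norm_num
  have h4 := h1.trans (h2.trans h3)
  have h5 : (10 : ℝ) ^ 9 ≤ N := by exact_mod_cast h.big
  have h6 := II_nonneg N Q X φ m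
  set D := ∑ b ∈ Bk N Q, ∑ b' ∈ Bk N Q, |φ b - φ b'|
  have h7 : (6 * ((N : ℝ) + 1) ^ 2) * II N Q X φ m ≤ (8 * (N : ℝ) ^ 2) * II N Q X φ m :=
    mul_le_mul_of_nonneg_right (by nlinarith) h6
  have h8 : (N : ℝ) ^ 2 * D ≤ (N : ℝ) ^ 2 * (400 * II N Q X φ m) := by nlinarith
  exact le_of_mul_le_mul_left h8 (by positivity)

/-- `|Bk| ≥ 0.039 N` (`cntI`: at least `0.04 N - 1` integers in the window, at most `|Z|` of them not in `Q`; a number
`u ≤ N`, `u ∉ Q` is in `Zb N Q X`) -/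
theorem Bk_card {N : ℕ} {Q X : Finset ℕ} (h : KX N Q X) : (39 / 1000) * (N : ℝ) ≤ (Bk N Q).card := by
  have h1 := cntI (N := N) (p := 88) (q := 92) (by norm_num)
  have h2 : (range (92 * N + 1)).filter (fun x => 88 * N ≤ 100 * x ∧ 100 * x ≤ 92 * N) ⊆
      Bk N Q ∪ Zb N Q X := by
    intro u hu
    rw [mem_filter] at hu
    obtain ⟨-, hu1, hu2⟩ := hu
    by_cases hq : u ∈ Q
    · refine mem_union_left _ ?_
      unfold Bk
      exact mem_filter.2 ⟨hq, hu1, hu2⟩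
    · refine mem_union_right _ ?_
      unfold Zb
      exact mem_filter.2 ⟨mem_range.2 (by omega), Or.inl hq⟩
  have h3 := (card_le_card h2).trans (card_union_le _ _)
  have h4 : (((range (92 * N + 1)).filter (fun x => 88 * N ≤ 100 * x ∧ 100 * x ≤ 92 * N)).card : ℝ) ≤
      (Bk N Q).card + (Zb N Q X).card := by exact_mod_cast h3
  have h5 := Zb_card h
  have h6 : (10 : ℝ) ^ 9 ≤ N := by exact_mod_cast h.big
  have h7 : (((92 - 88 : ℕ) : ℕ) : ℝ) = 4 := by norm_num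
  rw [h7] at h1
  linarith

/-- take for `B₀` the value `φ b'` for the `b' ∈ Bk` with the smallest `∑ b ∈ Bk, |φ b - φ b'|` (or the average of `φ`):
`∑ b |φ b - B₀| ≤ (1/|Bk|) * 400 I`, and `400 / 0.039 ≤ 11000` -/
theorem key1' {N : ℕ} {Q X : Finset ℕ} (h : KX N Q X) (φ m : ℕ → ℝ) :
    ∃ B₀ : ℝ, (N : ℝ) * ∑ b ∈ Bk N Q, |φ b - B₀| ≤ 11000 * II N Q X φ m := by
  have h1 := Bk_card h
  have h6 : (10 : ℝ) ^ 9 ≤ N := by exact_mod_cast h.big
  have h2 : (Bk N Q).Nonempty := by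
    rw [← card_pos]
    have : (0 : ℝ) < (Bk N Q).card := by linarith
    exact_mod_cast this
  obtain ⟨c, hc, hmin⟩ := exists_min_image (Bk N Q) (fun b' => ∑ b ∈ Bk N Q, |φ b - φ b'|) h2
  refine ⟨φ c, ?_⟩
  have h3 : ((Bk N Q).card : ℝ) * ∑ b ∈ Bk N Q, |φ b - φ c| ≤
      ∑ b' ∈ Bk N Q, ∑ b ∈ Bk N Q, |φ b - φ b'| := by
    have := card_nsmul_le_sum (Bk N Q) (fun b' => ∑ b ∈ Bk N Q, |φ b - φ b'|) _ hmin
    rwa [nsmul_eq_mul] at this
  have h4 : ∑ b' ∈ Bk N Q, ∑ b ∈ Bk N Q, |φ b - φ b'| ≤ 400 * II N Q X φ m := by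
    rw [sum_comm]
    exact key1 h φ m
  have h5 : 0 ≤ ∑ b ∈ Bk N Q, |φ b - φ c| := sum_nonneg fun _ _ => abs_nonneg _
  have h7 : (39 / 1000) * (N : ℝ) * ∑ b ∈ Bk N Q, |φ b - φ c| ≤
      ((Bk N Q).card : ℝ) * ∑ b ∈ Bk N Q, |φ b - φ c| := mul_le_mul_of_nonneg_right h1 h5
  have h8 := II_nonneg N Q X φ m
  linarith

end SSB
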