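import Pool.Agent.Lib.MP_8a819d_co.AT.K0

/-!
# MP_8a819d_co, trees with many non-leaves: the key inequality, 2. The upper labels

JOB K2 (all of this file; read `K0.lean` first; start auxiliary lemma names with `K2_`).

`I = II N Q X φ m = ∑ (x, y) ∈ Gd, |F x y|`, `F x y = φ y + φ (dd x y) - m x`.

PROOF. For `a ∈ R1` (`a ∈ Q`, `a ≥ 0.38 N`) let `P a` be the set of the `x ≤ N` with `0.88 N ≤ 2 x - a ≤ 0.92 N` (in `ℕ`:
`a + 0.88 N ≤ 2 x ≤ a + 0.92 N`) such that, with `b = 2 x - a`, none of `x`, `b`, `dd x a` is in `Zb N Q X`.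
* `x = (a + b)/2` is between `0.63 N` and `0.96 N`; the number of the `x` in the window is at least `0.02 N - 1`
  (integers in an interval of length `0.02 N`), `x ↦ x` and `x ↦ 2 x - a` are injective there and `x ↦ dd x a` is
  injective on each of the two sets `x ≥ a`, `x < a`; so by `cnt1` at most `4 |Z| ≤ 12 * 10^-6 * N` values are bad, and
  `|P a| ≥ N/100`.
* For `x ∈ P a`: `(x, a)` and `(x, b)` are in `Gd` (`mem_Gd`; `x + a = (3 a + b)/2 ≥ 1.01 N`, `x + b ≥ 1.5 N`; `dd x a = dd x b`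
  `= |x - a|`, by `mem_Zb` in `Q`), `b ∈ Bk`, and `φ a - φ b = F x a - F x b`. So
  `|φ a - B₀| ≤ |F x a| + |F x b| + |φ b - B₀|`.
* Sum over `a ∈ R1` and `x ∈ P a`: `(N/100) ∑ a ∈ R1, |φ a - B₀| ≤ I + I + (N + 1) ∑ b ∈ Bk, |φ b - B₀|` by `mult_sum`
  (`S` = set of the pairs `(a, x)`, e.g. `R1.sigma P` or a filter of `R1 ×ˢ range (N+1)`; first two: `R = {0}` (one
  element), given `(x, a)`: one time; given `(x, b)`: `a = 2 x - b`; third: `G = Bk`, `R = range (N+1)`, `x` arbitrary and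
  `a = 2 x - b`).
-/

set_option autoImplicit false

namespace SSB

open Finset

private def K2_W (N a : ℕ) : Finset ℕ :=
  (range (N + 1)).filter (fun x => 100 * a + 88 * N ≤ 200 * x ∧ 200 * x ≤ 100 * a + 92 * N)

private theorem K2_mem_W {N a x : ℕ} (ha : a ≤ N) : x ∈ K2_W N a ↔
    100 * a + 88 * N ≤ 200 * x ∧ 200 * x ≤ 100 * a + 92 * N := by
  unfold K2_W
  rw [mem_filter, mem_range]
  constructor
  · exact fun h => h.2
  · intro h
    exact ⟨by omega, h⟩

private def K2_P (N : ℕ) (Q X : Finset ℕ) (a : ℕ) : Finset ℕ :=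
  (K2_W N a).filter (fun x => x ∉ Zb N Q X ∧ 2 * x - a ∉ Zb N Q X ∧ dd x a ∉ Zb N Q X)

private theorem K2_card_W {N a : ℕ} (ha : a ≤ N) : (2 / 100) * (N : ℝ) - 1 ≤ (K2_W N a).card := by
  have h1 : Icc ((100 * a + 88 * N + 199) / 200) ((100 * a + 92 * N) / 200) ⊆ K2_W N a := by
    intro x hx
    rw [mem_Icc] at hx
    rw [K2_mem_W ha]
    omega
  have h2 := card_le_card h1
  rw [Nat.card_Icc] at h2
  have h3 : 4 * N ≤ 200 * ((K2_W N a).card + 1) := by omega
  have h4 : 4 * (N : ℝ) ≤ 200 * (((K2_W N a).card : ℝ) + 1) := by exact_mod_cast h3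
  linarith

private theorem K2_card_P {N : ℕ} {Q X : Finset ℕ} (h : KX N Q X) {a : ℕ} (ha : a ∈ R1 N Q) :
    (1 / 100) * (N : ℝ) ≤ (K2_P N Q X a).card := by
  unfold R1 at ha
  rw [mem_filter] at ha
  have haN := (mem_Icc.1 (h.sub ha.1)).2
  have ha1 := (mem_Icc.1 (h.sub ha.1)).1
  have hN := h.big
  have h9 : (10 : ℝ) ^ 9 ≤ N := by exact_mod_cast hN
  have c1 := cnt1 (N := N) (Q := Q) (X := X) (K2_W N a) (fun x => x) (fun t _ t' _ e => e)
  have c2 := cnt1 (N := N) (Q := Q) (X := X) (K2_W N a) (fun x => 2 * x - a)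
    (fun t ht t' ht' e => by
      have b1 := (K2_mem_W haN).1 ht
      have b2 := (K2_mem_W haN).1 ht'
      have e' : 2 * t - a = 2 * t' - a := e
      omega)
  have c3 := cnt1 (N := N) (Q := Q) (X := X) ((K2_W N a).filter (fun x => a ≤ x)) (fun x => dd x a)
    (fun t ht t' ht' e => by
      have b1 := (mem_filter.1 ht).2
      have b2 := (mem_filter.1 ht').2
      have e' : dd t a = dd t' a := e
      unfold dd at e'
      omega)
  have c4 := cnt1 (N := N) (Q := Q) (X := X) ((K2_W N a).filter (fun x => x < a)) (fun x => dd x a)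
    (fun t ht t' ht' e => by
      have b1 := (mem_filter.1 ht).2
      have b2 := (mem_filter.1 ht').2
      have e' : dd t a = dd t' a := e
      unfold dd at e'
      omega)
  have hsub : K2_W N a ⊆ (((K2_P N Q X a ∪ (K2_W N a).filter (fun t => t ∈ Zb N Q X)) ∪
      (K2_W N a).filter (fun t => 2 * t - a ∈ Zb N Q X)) ∪
      ((K2_W N a).filter (fun x => a ≤ x)).filter (fun t => dd t a ∈ Zb N Q X)) ∪
      ((K2_W N a).filter (fun x => x < a)).filter (fun t => dd t a ∈ Zb N Q X) := by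
    intro t ht
    by_cases z1 : t ∈ Zb N Q X
    · exact mem_union_left _ (mem_union_left _ (mem_union_left _
        (mem_union_right _ (mem_filter.2 ⟨ht, z1⟩))))
    by_cases z2 : 2 * t - a ∈ Zb N Q X
    · exact mem_union_left _ (mem_union_left _ (mem_union_right _ (mem_filter.2 ⟨ht, z2⟩)))
    by_cases z3 : dd t a ∈ Zb N Q X
    · rcases le_or_gt a t with h1 | h1
      · exact mem_union_left _ (mem_union_right _ (mem_filter.2 ⟨mem_filter.2 ⟨ht, h1⟩, z3⟩))
      · exact mem_union_right _ (mem_filter.2 ⟨mem_filter.2 ⟨ht, h1⟩, z3⟩)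
    exact mem_union_left _ (mem_union_left _ (mem_union_left _
        (mem_union_left _ (mem_filter.2 ⟨ht, z1, z2, z3⟩))))
  have hc := card_le_card hsub
  have u1 := card_union_le (((K2_P N Q X a ∪ (K2_W N a).filter (fun t => t ∈ Zb N Q X)) ∪
      (K2_W N a).filter (fun t => 2 * t - a ∈ Zb N Q X)) ∪
      ((K2_W N a).filter (fun x => a ≤ x)).filter (fun t => dd t a ∈ Zb N Q X))
      (((K2_W N a).filter (fun x => x < a)).filter (fun t => dd t a ∈ Zb N Q X))
  have u2 := card_union_le ((K2_P N Q X a ∪ (K2_W N a).filter (fun t => t ∈ Zb N Q X)) ∪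
      (K2_W N a).filter (fun t => 2 * t - a ∈ Zb N Q X))
      (((K2_W N a).filter (fun x => a ≤ x)).filter (fun t => dd t a ∈ Zb N Q X))
  have u3 := card_union_le (K2_P N Q X a ∪ (K2_W N a).filter (fun t => t ∈ Zb N Q X))
      ((K2_W N a).filter (fun t => 2 * t - a ∈ Zb N Q X))
  have u4 := card_union_le (K2_P N Q X a) ((K2_W N a).filter (fun t => t ∈ Zb N Q X))
  have hc2 : (K2_W N a).card ≤ (K2_P N Q X a).card + 4 * (Zb N Q X).card := by omega
  have hc3 : ((K2_W N a).card : ℝ) ≤ (K2_P N Q X a).card + 4 * ((Zb N Q X).card : ℝ) := by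
    exact_mod_cast hc2
  have hz := Zb_card h
  have hw := K2_card_W haN
  linarith

private theorem K2_mem_P {N : ℕ} {Q X : Finset ℕ} {a : ℕ} (h : KX N Q X) (ha : a ∈ R1 N Q)
    {x : ℕ} (hx : x ∈ K2_P N Q X a) :
    (x, a) ∈ Gd N Q X ∧ (x, 2 * x - a) ∈ Gd N Q X ∧ 2 * x - a ∈ Bk N Q ∧ x ≤ N ∧ a ≤ 2 * x ∧
      dd x (2 * x - a) = dd x a := by
  unfold R1 at ha
  rw [mem_filter] at ha
  have haN := mem_Icc.1 (h.sub ha.1)
  have hN := h.big
  unfold K2_P at hx
  rw [mem_filter, K2_mem_W haN.2] at hx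
  obtain ⟨⟨b1, b2⟩, z1, z2, z3⟩ := hx
  have hd : dd x a ≤ N := by unfold dd; omega
  have e : dd x (2 * x - a) = dd x a := by unfold dd; omega
  have q1 := (mem_Zb (by omega)).1 z1
  have q2 := (mem_Zb (by omega)).1 z2
  have q3 := (mem_Zb hd).1 z3
  refine ⟨?_, ?_, ?_, by omega, by omega, e⟩
  · rw [mem_Gd]
    exact ⟨⟨q1.1, ha.1⟩, q1.2, q3.1, by omega, by omega, by omega⟩
  · rw [mem_Gd, e]
    exact ⟨⟨q1.1, q2.1⟩, q1.2, q3.1, by omega, by omega, by omega⟩
  · unfold Bk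
    exact mem_filter.2 ⟨q2.1, by omega, by omega⟩

theorem key2 {N : ℕ} {Q X : Finset ℕ} (h : KX N Q X) (φ m : ℕ → ℝ) (B₀ : ℝ) :
    (1 / 100) * (N : ℝ) * ∑ a ∈ R1 N Q, |φ a - B₀| ≤
      2 * II N Q X φ m + ((N : ℝ) + 1) * ∑ b ∈ Bk N Q, |φ b - B₀| := by
  set S : Finset (Σ _ : ℕ, ℕ) := (R1 N Q).sigma (fun a => K2_P N Q X a) with hS
  have hmem : ∀ t ∈ S, t.1 ∈ R1 N Q ∧ t.2 ∈ K2_P N Q X t.1 := fun t ht => mem_sigma.1 ht
  have hext : ∀ t t' : (Σ _ : ℕ, ℕ), t.1 = t'.1 → t.2 = t'.2 → t = t' := by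
    rintro ⟨a, x⟩ ⟨a', x'⟩ e1 e2
    simp only at e1 e2
    subst e1 e2
    rfl
  have s1 : ∑ t ∈ S, |φ t.1 + φ (dd t.2 t.1) - m t.2| ≤ II N Q X φ m := by
    have := mult_sum S (Gd N Q X) (range 1) (fun t => (t.2, t.1)) (fun _ => 0)
      (fun t ht => (K2_mem_P h (hmem t ht).1 (hmem t ht).2).1)
      (fun t _ => mem_range.2 one_pos)
      (fun t _ t' _ e1 _ => hext t t' (Prod.mk.inj e1).2 (Prod.mk.inj e1).1)
      (fun p => |φ p.2 + φ (dd p.1 p.2) - m p.1|) (fun _ _ => abs_nonneg _)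
    rw [card_range] at this
    push_cast at this
    rw [one_mul] at this
    exact this
  have s2 : ∑ t ∈ S, |φ (2 * t.2 - t.1) + φ (dd t.2 (2 * t.2 - t.1)) - m t.2| ≤ II N Q X φ m := by
    have := mult_sum S (Gd N Q X) (range 1) (fun t => (t.2, 2 * t.2 - t.1)) (fun _ => 0)
      (fun t ht => (K2_mem_P h (hmem t ht).1 (hmem t ht).2).2.1)
      (fun t _ => mem_range.2 one_pos)
      (fun t ht t' ht' e1 _ => by
        have e3 : t.2 = t'.2 := (Prod.mk.inj e1).1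
        have e4 : 2 * t.2 - t.1 = 2 * t'.2 - t'.1 := (Prod.mk.inj e1).2
        have l1 := (K2_mem_P h (hmem t ht).1 (hmem t ht).2).2.2.2.2.1
        have l2 := (K2_mem_P h (hmem t' ht').1 (hmem t' ht').2).2.2.2.2.1
        exact hext t t' (by omega) e3)
      (fun p => |φ p.2 + φ (dd p.1 p.2) - m p.1|) (fun _ _ => abs_nonneg _)
    rw [card_range] at this
    push_cast at this
    rw [one_mul] at this
    exact this
  have s3 : ∑ t ∈ S, |φ (2 * t.2 - t.1) - B₀| ≤ ((N : ℝ) + 1) * ∑ b ∈ Bk N Q, |φ b - B₀| := by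
    have := mult_sum S (Bk N Q) (range (N + 1)) (fun t => 2 * t.2 - t.1) (fun t => t.2)
      (fun t ht => (K2_mem_P h (hmem t ht).1 (hmem t ht).2).2.2.1)
      (fun t ht => mem_range.2 (Nat.lt_succ_of_le
        (K2_mem_P h (hmem t ht).1 (hmem t ht).2).2.2.2.1))
      (fun t ht t' ht' e1 e2 => by
        have e3 : t.2 = t'.2 := e2
        have e4 : 2 * t.2 - t.1 = 2 * t'.2 - t'.1 := e1
        have l1 := (K2_mem_P h (hmem t ht).1 (hmem t ht).2).2.2.2.2.1
        have l2 := (K2_mem_P h (hmem t' ht').1 (hmem t' ht').2).2.2.2.2.1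
        exact hext t t' (by omega) e3)
      (fun u => |φ u - B₀|) (fun _ _ => abs_nonneg _)
    rw [card_range] at this
    push_cast at this
    exact this
  have hpt : ∀ t ∈ S, |φ t.1 - B₀| ≤ |φ t.1 + φ (dd t.2 t.1) - m t.2| +
      |φ (2 * t.2 - t.1) + φ (dd t.2 (2 * t.2 - t.1)) - m t.2| + |φ (2 * t.2 - t.1) - B₀| := by
    intro t ht
    obtain ⟨-, -, -, -, -, e1⟩ := K2_mem_P h (hmem t ht).1 (hmem t ht).2
    rw [e1]
    have key : φ t.1 - B₀ = (φ t.1 + φ (dd t.2 t.1) - m t.2) -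
        (φ (2 * t.2 - t.1) + φ (dd t.2 t.1) - m t.2) + (φ (2 * t.2 - t.1) - B₀) := by ring
    generalize φ t.1 + φ (dd t.2 t.1) - m t.2 = A1 at key ⊢
    generalize φ (2 * t.2 - t.1) + φ (dd t.2 t.1) - m t.2 = A2 at key ⊢
    generalize φ (2 * t.2 - t.1) - B₀ = A3 at key ⊢
    rw [key, abs_le]
    have n1 := neg_abs_le A1
    have n2 := neg_abs_le A2
    have n3 := neg_abs_le A3
    have m1 := le_abs_self A1
    have m2 := le_abs_self A2
    have m3 := le_abs_self A3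
    constructor <;> linarith
  have hsum := sum_le_sum hpt
  rw [sum_add_distrib, sum_add_distrib] at hsum
  have hlow : (1 / 100) * (N : ℝ) * ∑ a ∈ R1 N Q, |φ a - B₀| ≤ ∑ t ∈ S, |φ t.1 - B₀| := by
    rw [hS, sum_sigma, mul_sum]
    refine sum_le_sum fun a ha => ?_
    change _ ≤ ∑ _s ∈ K2_P N Q X a, |φ a - B₀|
    rw [sum_const, nsmul_eq_mul]
    exact mul_le_mul_of_nonneg_right (K2_card_P h ha) (abs_nonneg _)
  linarith

end SSB
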