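import Pool.Agent.Lib.MP_8a819d_co.AT.K0

/-!
# MP_8a819d_co, trees with many non-leaves: the key inequality, 3. The lower labels

JOB K3 (all of this file; read `K0.lean` first; start auxiliary lemma names with `K3_`).

`I = II N Q X φ m = ∑ (x, y) ∈ Gd, |F x y|`, `F x y = φ y + φ (dd x y) - m x`.

PROOF. For `a ∈ R0` (`a ∈ Q`, `a < 0.38 N`; `a ≥ 1` as `Q ⊆ [1, N]`) let `P a` be the set of the parameters `(x, y')` with
`0.5 N ≤ x ≤ 0.54 N`, `0.96 N ≤ y' ≤ N` such that none of `x`, `y'`, `x + a`, `y' - x` is in `Zb N Q X` (all `≤ N`).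
* the box has at least `(0.04 N - 1)² ≥ 0.00159 N²` elements (`cntI`), and by `cnt2` (`g` = the number in question,
  `ρ` = one of the two coordinates) at most `4 |Z| (N + 1) ≤ 13 * 10^-6 * N²` are bad: `|P a| ≥ N²/1000`.
* For `(x, y') ∈ P a` the pairs `(x, x + a)` (sum `2 x + a > N`, difference `a`) and `(x, y')` (sum `> N`, difference
  `y' - x`) are in `Gd` (`mem_Gd`, `mem_Zb`) and
  `φ a = F x (x+a) - F x y' - φ (x+a) + φ y' + φ (y'-x)`, hence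
  `|φ a - B₀| ≤ |F x (x+a)| + |F x y'| + |φ (x+a) - B₀| + |φ y' - B₀| + |φ (y'-x) - B₀|`,
  and `x + a`, `y'`, `y' - x` (`≥ 0.42 N`) are in `R1` (in `Q` and `≥ 0.38 N`).
* Sum over `a ∈ R0` and `(x, y') ∈ P a`, five times `mult_sum` (`S` = set of the `(a, x, y')`): the first two sums are
  at most `(N + 1) I` (given `(x, x + a)` there remains `y'`; given `(x, y')` there remains `a`), the other three at most
  `(N + 1)² ∑ u ∈ R1, |φ u - B₀|` (given `u = x + a` there remain `(x, y')`; given `y'`: `(a, x)`; given `y' - x`: `(a, x)`).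
  So `(N²/1000) ∑ a ∈ R0, |φ a - B₀| ≤ 2 (N + 1) I + 3 (N + 1)² ∑ u ∈ R1, |φ u - B₀|`; divide by `N` (`(N + 1)/N ≤ 1.01`).
-/

set_option autoImplicit false

namespace SSB

open Finset

private def K3_box (N : ℕ) : Finset (ℕ × ℕ) :=
  ((range (54 * N + 1)).filter (fun x => 50 * N ≤ 100 * x ∧ 100 * x ≤ 54 * N)) ×ˢ
    ((range (100 * N + 1)).filter (fun x => 96 * N ≤ 100 * x ∧ 100 * x ≤ 100 * N))

private theorem K3_mem_box {N : ℕ} {t : ℕ × ℕ} : t ∈ K3_box N ↔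
    (50 * N ≤ 100 * t.1 ∧ 100 * t.1 ≤ 54 * N) ∧ (96 * N ≤ 100 * t.2 ∧ 100 * t.2 ≤ 100 * N) := by
  unfold K3_box
  rw [mem_product, mem_filter, mem_filter, mem_range, mem_range]
  constructor
  · rintro ⟨⟨-, h1⟩, -, h2⟩
    exact ⟨h1, h2⟩
  · rintro ⟨h1, h2⟩
    exact ⟨⟨by omega, h1⟩, by omega, h2⟩

private def K3_P (N : ℕ) (Q X : Finset ℕ) (a : ℕ) : Finset (ℕ × ℕ) :=
  (K3_box N).filter (fun t => t.1 ∉ Zb N Q X ∧ t.2 ∉ Zb N Q X ∧ t.1 + a ∉ Zb N Q X ∧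
    t.2 - t.1 ∉ Zb N Q X)

private theorem K3_card_box {N : ℕ} (hN : 10 ^ 9 ≤ N) :
    (4 / 100 * (N : ℝ) - 1) ^ 2 ≤ (K3_box N).card := by
  have h1 := cntI (N := N) (p := 50) (q := 54) (by norm_num)
  have h2 := cntI (N := N) (p := 96) (q := 100) (by norm_num)
  have h9 : (10 : ℝ) ^ 9 ≤ N := by exact_mod_cast hN
  unfold K3_box
  rw [card_product]
  push_cast
  have e1 : (((54 - 50 : ℕ) : ℝ)) = 4 := by norm_num
  have e2 : (((100 - 96 : ℕ) : ℝ)) = 4 := by norm_num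
  rw [e1] at h1
  rw [e2] at h2
  rw [pow_two]
  exact mul_le_mul h1 h2 (by linarith) (by positivity)

private theorem K3_card_P {N : ℕ} {Q X : Finset ℕ} (h : KX N Q X) (a : ℕ) :
    (1 / 1000) * (N : ℝ) ^ 2 ≤ (K3_P N Q X a).card := by
  have hN := h.big
  have h9 : (10 : ℝ) ^ 9 ≤ N := by exact_mod_cast hN
  have c1 := cnt2 (N := N) (Q := Q) (X := X) (K3_box N) (fun t => t.1) (fun t => t.2)
    (fun t ht => by have := K3_mem_box.1 ht; show t.2 ≤ N; omega)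
    (fun t _ t' _ e1 e2 => Prod.ext e1 e2)
  have c2 := cnt2 (N := N) (Q := Q) (X := X) (K3_box N) (fun t => t.2) (fun t => t.1)
    (fun t ht => by have := K3_mem_box.1 ht; show t.1 ≤ N; omega)
    (fun t _ t' _ e1 e2 => Prod.ext e2 e1)
  have c3 := cnt2 (N := N) (Q := Q) (X := X) (K3_box N) (fun t => t.1 + a) (fun t => t.2)
    (fun t ht => by have := K3_mem_box.1 ht; show t.2 ≤ N; omega)
    (fun t _ t' _ e1 e2 => Prod.ext (Nat.add_right_cancel e1) e2)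
  have c4 := cnt2 (N := N) (Q := Q) (X := X) (K3_box N) (fun t => t.2 - t.1) (fun t => t.1)
    (fun t ht => by have := K3_mem_box.1 ht; show t.1 ≤ N; omega)
    (fun t ht t' ht' e1 e2 => by
      have b1 := K3_mem_box.1 ht
      have b2 := K3_mem_box.1 ht'
      have e1' : t.2 - t.1 = t'.2 - t'.1 := e1
      have e2' : t.1 = t'.1 := e2
      refine Prod.ext e2' ?_
      omega)
  have hsub : K3_box N ⊆ (((K3_P N Q X a ∪ (K3_box N).filter (fun t => t.1 ∈ Zb N Q X)) ∪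
      (K3_box N).filter (fun t => t.2 ∈ Zb N Q X)) ∪
      (K3_box N).filter (fun t => t.1 + a ∈ Zb N Q X)) ∪
      (K3_box N).filter (fun t => t.2 - t.1 ∈ Zb N Q X) := by
    intro t ht
    by_cases z1 : t.1 ∈ Zb N Q X
    · exact mem_union_left _ (mem_union_left _ (mem_union_left _
        (mem_union_right _ (mem_filter.2 ⟨ht, z1⟩))))
    by_cases z2 : t.2 ∈ Zb N Q X
    · exact mem_union_left _ (mem_union_left _ (mem_union_right _ (mem_filter.2 ⟨ht, z2⟩)))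
    by_cases z3 : t.1 + a ∈ Zb N Q X
    · exact mem_union_left _ (mem_union_right _ (mem_filter.2 ⟨ht, z3⟩))
    by_cases z4 : t.2 - t.1 ∈ Zb N Q X
    · exact mem_union_right _ (mem_filter.2 ⟨ht, z4⟩)
    exact mem_union_left _ (mem_union_left _ (mem_union_left _
        (mem_union_left _ (mem_filter.2 ⟨ht, z1, z2, z3, z4⟩))))
  have hc := card_le_card hsub
  have u1 := card_union_le (((K3_P N Q X a ∪ (K3_box N).filter (fun t => t.1 ∈ Zb N Q X)) ∪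
      (K3_box N).filter (fun t => t.2 ∈ Zb N Q X)) ∪
      (K3_box N).filter (fun t => t.1 + a ∈ Zb N Q X))
      ((K3_box N).filter (fun t => t.2 - t.1 ∈ Zb N Q X))
  have u2 := card_union_le ((K3_P N Q X a ∪ (K3_box N).filter (fun t => t.1 ∈ Zb N Q X)) ∪
      (K3_box N).filter (fun t => t.2 ∈ Zb N Q X))
      ((K3_box N).filter (fun t => t.1 + a ∈ Zb N Q X))
  have u3 := card_union_le (K3_P N Q X a ∪ (K3_box N).filter (fun t => t.1 ∈ Zb N Q X))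
      ((K3_box N).filter (fun t => t.2 ∈ Zb N Q X))
  have u4 := card_union_le (K3_P N Q X a) ((K3_box N).filter (fun t => t.1 ∈ Zb N Q X))
  have hc2 : (K3_box N).card ≤ (K3_P N Q X a).card + 4 * ((Zb N Q X).card * (N + 1)) := by
    omega
  have hc3 : ((K3_box N).card : ℝ) ≤ (K3_P N Q X a).card +
      4 * (((Zb N Q X).card : ℝ) * ((N : ℝ) + 1)) := by
    exact_mod_cast hc2
  have hz := Zb_card h
  have hb := K3_card_box hN
  have hz2 : ((Zb N Q X).card : ℝ) * ((N : ℝ) + 1) ≤ (3 / 10 ^ 6) * N * ((N : ℝ) + 1) :=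
    mul_le_mul_of_nonneg_right hz (by linarith)
  nlinarith [hc3, hb, hz2, h9, mul_le_mul_of_nonneg_left h9 (by linarith : (0 : ℝ) ≤ N)]

private theorem K3_mem_P {N : ℕ} {Q X : Finset ℕ} {a : ℕ} (h : KX N Q X) (ha : a ∈ R0 N Q)
    {t : ℕ × ℕ} (ht : t ∈ K3_P N Q X a) :
    (t.1, t.1 + a) ∈ Gd N Q X ∧ (t.1, t.2) ∈ Gd N Q X ∧ t.1 + a ∈ R1 N Q ∧ t.2 ∈ R1 N Q ∧
      t.2 - t.1 ∈ R1 N Q ∧ t.1 ≤ N ∧ t.2 ≤ N ∧ a ≤ N ∧ t.1 ≤ t.2 ∧
      dd t.1 (t.1 + a) = a ∧ dd t.1 t.2 = t.2 - t.1 := by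
  unfold K3_P at ht
  rw [mem_filter] at ht
  obtain ⟨hb, z1, z2, z3, z4⟩ := ht
  obtain ⟨⟨b1, b2⟩, b3, b4⟩ := K3_mem_box.1 hb
  unfold R0 at ha
  rw [mem_filter] at ha
  obtain ⟨haQ, ha2⟩ := ha
  have ha1 := mem_Icc.1 (h.sub haQ)
  have hN := h.big
  have e1 : dd t.1 (t.1 + a) = a := by unfold dd; omega
  have e2 : dd t.1 t.2 = t.2 - t.1 := by unfold dd; omega
  have q1 := (mem_Zb (by omega)).1 z1
  have q2 := (mem_Zb (by omega)).1 z2
  have q3 := (mem_Zb (by omega)).1 z3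
  have q4 := (mem_Zb (by omega)).1 z4
  refine ⟨?_, ?_, ?_, ?_, ?_, by omega, by omega, ha1.2, by omega, e1, e2⟩
  · rw [mem_Gd, e1]
    exact ⟨⟨q1.1, q3.1⟩, q1.2, haQ, by omega, by omega, by omega⟩
  · rw [mem_Gd, e2]
    exact ⟨⟨q1.1, q2.1⟩, q1.2, q4.1, by omega, by omega, by omega⟩
  · unfold R1
    exact mem_filter.2 ⟨q3.1, by omega⟩
  · unfold R1
    exact mem_filter.2 ⟨q2.1, by omega⟩
  · unfold R1
    exact mem_filter.2 ⟨q4.1, by omega⟩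

theorem key3 {N : ℕ} {Q X : Finset ℕ} (h : KX N Q X) (φ m : ℕ → ℝ) (B₀ : ℝ) :
    (1 / 1000) * (N : ℝ) * ∑ a ∈ R0 N Q, |φ a - B₀| ≤
      3 * II N Q X φ m + 4 * N * ∑ u ∈ R1 N Q, |φ u - B₀| := by
  have hN := h.big
  have h9 : (10 : ℝ) ^ 9 ≤ N := by exact_mod_cast hN
  have hN0 : (0 : ℝ) < N := by linarith
  have hI : 0 ≤ II N Q X φ m := II_nonneg N Q X φ m
  have hR1 : 0 ≤ ∑ u ∈ R1 N Q, |φ u - B₀| := sum_nonneg fun _ _ => abs_nonneg _
  set S : Finset (Σ _ : ℕ, ℕ × ℕ) := (R0 N Q).sigma (fun a => K3_P N Q X a) with hS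
  have hmem : ∀ t ∈ S, t.1 ∈ R0 N Q ∧ t.2 ∈ K3_P N Q X t.1 := fun t ht => mem_sigma.1 ht
  have hext : ∀ t t' : (Σ _ : ℕ, ℕ × ℕ), t.1 = t'.1 → t.2.1 = t'.2.1 → t.2.2 = t'.2.2 → t = t' := by
    rintro ⟨a, x, y⟩ ⟨a', x', y'⟩ e1 e2 e3
    simp only at e1 e2 e3
    subst e1 e2 e3
    rfl
  -- the five sums
  have s1 : ∑ t ∈ S, |φ (t.2.1 + t.1) + φ (dd t.2.1 (t.2.1 + t.1)) - m t.2.1| ≤
      ((N : ℝ) + 1) * II N Q X φ m := by
    have := mult_sum S (Gd N Q X) (range (N + 1)) (fun t => (t.2.1, t.2.1 + t.1)) (fun t => t.2.2)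
      (fun t ht => (K3_mem_P h (hmem t ht).1 (hmem t ht).2).1)
      (fun t ht => mem_range.2 (Nat.lt_succ_of_le
        (K3_mem_P h (hmem t ht).1 (hmem t ht).2).2.2.2.2.2.2.1))
      (fun t _ t' _ e1 e2 => by
        have e3 : t.2.1 = t'.2.1 := (Prod.mk.inj e1).1
        have e4 : t.2.1 + t.1 = t'.2.1 + t'.1 := (Prod.mk.inj e1).2
        have e5 : t.2.2 = t'.2.2 := e2
        exact hext t t' (by omega) e3 e5)
      (fun p => |φ p.2 + φ (dd p.1 p.2) - m p.1|) (fun _ _ => abs_nonneg _)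
    rw [card_range] at this
    push_cast at this
    exact this
  have s2 : ∑ t ∈ S, |φ t.2.2 + φ (dd t.2.1 t.2.2) - m t.2.1| ≤
      ((N : ℝ) + 1) * II N Q X φ m := by
    have := mult_sum S (Gd N Q X) (range (N + 1)) (fun t => (t.2.1, t.2.2)) (fun t => t.1)
      (fun t ht => (K3_mem_P h (hmem t ht).1 (hmem t ht).2).2.1)
      (fun t ht => mem_range.2 (Nat.lt_succ_of_le
        (K3_mem_P h (hmem t ht).1 (hmem t ht).2).2.2.2.2.2.2.2.1))
      (fun t _ t' _ e1 e2 => by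
        have e3 : t.2.1 = t'.2.1 := (Prod.mk.inj e1).1
        have e4 : t.2.2 = t'.2.2 := (Prod.mk.inj e1).2
        have e5 : t.1 = t'.1 := e2
        exact hext t t' e5 e3 e4)
      (fun p => |φ p.2 + φ (dd p.1 p.2) - m p.1|) (fun _ _ => abs_nonneg _)
    rw [card_range] at this
    push_cast at this
    exact this
  have hcard : (((range (N + 1)) ×ˢ (range (N + 1))).card : ℝ) = ((N : ℝ) + 1) ^ 2 := by
    rw [card_product, card_range]
    push_cast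
    ring
  have s3 : ∑ t ∈ S, |φ (t.2.1 + t.1) - B₀| ≤ ((N : ℝ) + 1) ^ 2 * ∑ u ∈ R1 N Q, |φ u - B₀| := by
    have := mult_sum S (R1 N Q) ((range (N + 1)) ×ˢ (range (N + 1))) (fun t => t.2.1 + t.1)
      (fun t => t.2)
      (fun t ht => (K3_mem_P h (hmem t ht).1 (hmem t ht).2).2.2.1)
      (fun t ht => mem_product.2
        ⟨mem_range.2 (Nat.lt_succ_of_le (K3_mem_P h (hmem t ht).1 (hmem t ht).2).2.2.2.2.2.1),
          mem_range.2 (Nat.lt_succ_of_le (K3_mem_P h (hmem t ht).1 (hmem t ht).2).2.2.2.2.2.2.1)⟩)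
      (fun t _ t' _ e1 e2 => by
        have e6 : t.2 = t'.2 := e2
        have e3 : t.2.1 = t'.2.1 := by rw [e6]
        have e4 : t.2.2 = t'.2.2 := by rw [e6]
        have e5 : t.2.1 + t.1 = t'.2.1 + t'.1 := e1
        exact hext t t' (by omega) e3 e4)
      (fun u => |φ u - B₀|) (fun _ _ => abs_nonneg _)
    rw [hcard] at this
    exact this
  have s4 : ∑ t ∈ S, |φ t.2.2 - B₀| ≤ ((N : ℝ) + 1) ^ 2 * ∑ u ∈ R1 N Q, |φ u - B₀| := by
    have := mult_sum S (R1 N Q) ((range (N + 1)) ×ˢ (range (N + 1))) (fun t => t.2.2)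
      (fun t => (t.1, t.2.1))
      (fun t ht => (K3_mem_P h (hmem t ht).1 (hmem t ht).2).2.2.2.1)
      (fun t ht => mem_product.2
        ⟨mem_range.2 (Nat.lt_succ_of_le (K3_mem_P h (hmem t ht).1 (hmem t ht).2).2.2.2.2.2.2.2.1),
          mem_range.2 (Nat.lt_succ_of_le (K3_mem_P h (hmem t ht).1 (hmem t ht).2).2.2.2.2.2.1)⟩)
      (fun t _ t' _ e1 e2 => by
        have e3 : t.1 = t'.1 := (Prod.mk.inj e2).1
        have e4 : t.2.1 = t'.2.1 := (Prod.mk.inj e2).2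
        have e5 : t.2.2 = t'.2.2 := e1
        exact hext t t' e3 e4 e5)
      (fun u => |φ u - B₀|) (fun _ _ => abs_nonneg _)
    rw [hcard] at this
    exact this
  have s5 : ∑ t ∈ S, |φ (t.2.2 - t.2.1) - B₀| ≤
      ((N : ℝ) + 1) ^ 2 * ∑ u ∈ R1 N Q, |φ u - B₀| := by
    have := mult_sum S (R1 N Q) ((range (N + 1)) ×ˢ (range (N + 1))) (fun t => t.2.2 - t.2.1)
      (fun t => (t.1, t.2.1))
      (fun t ht => (K3_mem_P h (hmem t ht).1 (hmem t ht).2).2.2.2.2.1)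
      (fun t ht => mem_product.2
        ⟨mem_range.2 (Nat.lt_succ_of_le (K3_mem_P h (hmem t ht).1 (hmem t ht).2).2.2.2.2.2.2.2.1),
          mem_range.2 (Nat.lt_succ_of_le (K3_mem_P h (hmem t ht).1 (hmem t ht).2).2.2.2.2.2.1)⟩)
      (fun t ht t' ht' e1 e2 => by
        have e3 : t.1 = t'.1 := (Prod.mk.inj e2).1
        have e4 : t.2.1 = t'.2.1 := (Prod.mk.inj e2).2
        have e5 : t.2.2 - t.2.1 = t'.2.2 - t'.2.1 := e1
        have l1 := (K3_mem_P h (hmem t ht).1 (hmem t ht).2).2.2.2.2.2.2.2.2.1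
        have l2 := (K3_mem_P h (hmem t' ht').1 (hmem t' ht').2).2.2.2.2.2.2.2.2.1
        exact hext t t' e3 e4 (by omega))
      (fun u => |φ u - B₀|) (fun _ _ => abs_nonneg _)
    rw [hcard] at this
    exact this
  -- pointwise inequality
  have hpt : ∀ t ∈ S, |φ t.1 - B₀| ≤
      |φ (t.2.1 + t.1) + φ (dd t.2.1 (t.2.1 + t.1)) - m t.2.1| +
      |φ t.2.2 + φ (dd t.2.1 t.2.2) - m t.2.1| + |φ (t.2.1 + t.1) - B₀| + |φ t.2.2 - B₀| +
      |φ (t.2.2 - t.2.1) - B₀| := by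
    intro t ht
    obtain ⟨-, -, -, -, -, -, -, -, -, e1, e2⟩ := K3_mem_P h (hmem t ht).1 (hmem t ht).2
    rw [e1, e2]
    have key : φ t.1 - B₀ = (φ (t.2.1 + t.1) + φ t.1 - m t.2.1) -
        (φ t.2.2 + φ (t.2.2 - t.2.1) - m t.2.1) - (φ (t.2.1 + t.1) - B₀) + (φ t.2.2 - B₀) +
        (φ (t.2.2 - t.2.1) - B₀) := by ring
    generalize φ (t.2.1 + t.1) + φ t.1 - m t.2.1 = A1 at key ⊢
    generalize φ t.2.2 + φ (t.2.2 - t.2.1) - m t.2.1 = A2 at key ⊢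
    generalize φ (t.2.1 + t.1) - B₀ = A3 at key ⊢
    generalize φ t.2.2 - B₀ = A4 at key ⊢
    generalize φ (t.2.2 - t.2.1) - B₀ = A5 at key ⊢
    rw [key, abs_le]
    have n1 := neg_abs_le A1
    have n2 := neg_abs_le A2
    have n3 := neg_abs_le A3
    have n4 := neg_abs_le A4
    have n5 := neg_abs_le A5
    have m1 := le_abs_self A1
    have m2 := le_abs_self A2
    have m3 := le_abs_self A3
    have m4 := le_abs_self A4
    have m5 := le_abs_self A5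
    constructor <;> linarith
  have hsum := sum_le_sum hpt
  rw [sum_add_distrib, sum_add_distrib, sum_add_distrib, sum_add_distrib] at hsum
  have hlow : (1 / 1000) * (N : ℝ) ^ 2 * ∑ a ∈ R0 N Q, |φ a - B₀| ≤ ∑ t ∈ S, |φ t.1 - B₀| := by
    rw [hS, sum_sigma, mul_sum]
    refine sum_le_sum fun a _ => ?_
    change _ ≤ ∑ _s ∈ K3_P N Q X a, |φ a - B₀|
    rw [sum_const, nsmul_eq_mul]
    exact mul_le_mul_of_nonneg_right (K3_card_P h a) (abs_nonneg _)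
  have hmain : (1 / 1000) * (N : ℝ) ^ 2 * ∑ a ∈ R0 N Q, |φ a - B₀| ≤
      2 * (((N : ℝ) + 1) * II N Q X φ m) +
        3 * (((N : ℝ) + 1) ^ 2 * ∑ u ∈ R1 N Q, |φ u - B₀|) := by
    linarith
  have f1 : 2 * (((N : ℝ) + 1) * II N Q X φ m) ≤ N * (3 * II N Q X φ m) := by
    have : 2 * ((N : ℝ) + 1) ≤ N * 3 := by linarith
    calc 2 * (((N : ℝ) + 1) * II N Q X φ m) = (2 * ((N : ℝ) + 1)) * II N Q X φ m := by ring
      _ ≤ (N * 3) * II N Q X φ m := mul_le_mul_of_nonneg_right this hI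
      _ = N * (3 * II N Q X φ m) := by ring
  have f2 : 3 * (((N : ℝ) + 1) ^ 2 * ∑ u ∈ R1 N Q, |φ u - B₀|) ≤
      N * (4 * N * ∑ u ∈ R1 N Q, |φ u - B₀|) := by
    have : 3 * ((N : ℝ) + 1) ^ 2 ≤ N * (4 * N) := by nlinarith
    calc 3 * (((N : ℝ) + 1) ^ 2 * ∑ u ∈ R1 N Q, |φ u - B₀|)
        = (3 * ((N : ℝ) + 1) ^ 2) * ∑ u ∈ R1 N Q, |φ u - B₀| := by ring
      _ ≤ (N * (4 * N)) * ∑ u ∈ R1 N Q, |φ u - B₀| := mul_le_mul_of_nonneg_right this hR1
      _ = N * (4 * N * ∑ u ∈ R1 N Q, |φ u - B₀|) := by ring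
  refine le_of_mul_le_mul_left ?_ hN0
  calc (N : ℝ) * ((1 / 1000) * (N : ℝ) * ∑ a ∈ R0 N Q, |φ a - B₀|)
      = (1 / 1000) * (N : ℝ) ^ 2 * ∑ a ∈ R0 N Q, |φ a - B₀| := by ring
    _ ≤ _ := hmain
    _ ≤ N * (3 * II N Q X φ m) + N * (4 * N * ∑ u ∈ R1 N Q, |φ u - B₀|) := add_le_add f1 f2
    _ = N * (3 * II N Q X φ m + 4 * N * ∑ u ∈ R1 N Q, |φ u - B₀|) := by ring

end SSB
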