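import Pool.Agent.Lib.MP_8a819d_co.AT.Defs
import Pool.Agent.Lib.MP_8a819d_co.BD.Ker7

/-!
# MP_8a819d_co, trees with many non-leaves: the base kernel

JOB KBase (all of this file).

`kk N m Q x y = k0 N m Q (min x y, max x y)` is `2/N` if `x, y, |x-y| ∈ Q`, `x + y > N`, `x, y ≥ N/m`, and `0` otherwise.
`V0 x = ∑ y kk x y`, `Zn = ∑ x V0 x`, `vv x = V0 x / Zn` (a probability), `PP x y = kk x y / V0 x`; `vv` is stationary
for `PP` and `vv x * PP x y = kk x y / Zn` is symmetric.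

Proofs. `kk_spec`: unfold `k0`, `prs` (`x ≠ y` as `min < max`). `V0_le`: the `y` with `kk x y ≠ 0` are in `(N - x, N]`.
`V0_ge`: `deg_count` gives `≥ N/(2m)` values `y` (for `x ∈ Q`, `N ≤ m x`), each `2/N`. `V0_ge10`: for `N ≤ 10 x`: of the `x` values
`y ∈ (N - x, N]` remove at most `s N` (`y ∉ Q`), `2 (s N + 1)` (`|x - y| ∉ Q`, including `y = x`), `N/m` (`m y < N`): at least
`N/10 - 3 s N - 2 - N/100 ≥ N/20` remain. `V0_ne`: if `V0 x ≠ 0` some `kk x y ≠ 0`, so `x ∈ Q`, `N ≤ m x`.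
`Zn_ge`: `∑ a ∈ Q, ld N Q 1 (k0 N m Q) a = 2 ∑ p ∈ prs, k0 p = Zn` (`lp 1 p` has the sum `1/2 + 1/2 + 1` over `Q`, since
`p.1, p.2, p.2 - p.1 ∈ Q`), and every `ld` is `≥ 1 - 11 s - 4/m - 6/N` (`k0_load` with `ω = 1`), `|Q| ≥ (1 - s) N`.
`Zn_le`: `∑ x ≤ N, 2 x / N = N + 1`. `edge_le`: the ordered pairs `(x, y)` with `|x - y| = z`, `x + y > N`, `x, y ≤ N`: the smaller
one is in `((N - z)/2, N - z]`, at most `(N - z)/2 + 1` values; so at most `N - z + 2` ordered pairs.
`vv_sum`, `vv_le` (`vv x ≤ 2 x / (N Zn) ≤ 3/N`), `PP_sum`, `stat`: immediate from the definitions and the symmetry of `kk`.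
-/

set_option autoImplicit false
set_option linter.unusedSectionVars false

namespace SSB

open Finset

noncomputable def kk (N m : ℕ) (Q : Finset ℕ) (x y : ℕ) : ℝ := k0 N m Q (min x y, max x y)

noncomputable def V0 (N m : ℕ) (Q : Finset ℕ) (x : ℕ) : ℝ := ∑ y ∈ range (N + 1), kk N m Q x y

noncomputable def Zn (N m : ℕ) (Q : Finset ℕ) : ℝ := ∑ x ∈ range (N + 1), V0 N m Q x

noncomputable def vv (N m : ℕ) (Q : Finset ℕ) (x : ℕ) : ℝ := V0 N m Q x / Zn N m Q

noncomputable def PP (N m : ℕ) (Q : Finset ℕ) (x y : ℕ) : ℝ := kk N m Q x y / V0 N m Q x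

/-- standing hypotheses -/
structure KB (N m : ℕ) (Q : Finset ℕ) (s : ℝ) : Prop where
  m_ge : 1000 ≤ m
  N_ge : 1000 * m ≤ N
  sub : Q ⊆ Icc 1 N
  s_nn : 0 ≤ s
  card : (N : ℝ) - Q.card ≤ s * N
  sm : 1000 * m * s ≤ 1

variable {N m : ℕ} {Q : Finset ℕ} {s : ℝ}

theorem kk_symm (x y : ℕ) : kk N m Q x y = kk N m Q y x := by
  unfold kk
  rw [min_comm, max_comm]

theorem kk_nn (x y : ℕ) : 0 ≤ kk N m Q x y := by
  unfold kk k0
  split_ifs
  · positivity
  · exact le_rfl

theorem kk_le (x y : ℕ) : kk N m Q x y ≤ 2 / N := by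
  unfold kk k0
  split_ifs
  · exact le_rfl
  · positivity

private theorem kbase1_iff (hQ : Q ⊆ Icc 1 N) (x y : ℕ) :
    ((min x y, max x y) ∈ prs N Q ∧ N ≤ m * (min x y, max x y).1) ↔
      (x ∈ Q ∧ y ∈ Q ∧ dd x y ∈ Q ∧ N < x + y ∧ N ≤ m * x ∧ N ≤ m * y) := by
  simp only [prs, mem_filter, mem_product]
  rcases lt_trichotomy x y with h | h | h
  · have e1 : min x y = x := min_eq_left h.le
    have e2 : max x y = y := max_eq_right h.le
    have e3 : dd x y = y - x := by unfold dd; omega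
    have e4 : m * x ≤ m * y := Nat.mul_le_mul_left m h.le
    rw [e1, e2, e3]
    constructor
    · rintro ⟨⟨⟨h1, h2⟩, h3, h4, h5⟩, h6⟩
      exact ⟨h1, h2, h4, h5, h6, h6.trans e4⟩
    · rintro ⟨h1, h2, h4, h5, h6, h7⟩
      exact ⟨⟨⟨h1, h2⟩, h, h4, h5⟩, h6⟩
  · subst h
    have e3 : dd x x = 0 := by unfold dd; omega
    rw [e3, min_self, max_self]
    constructor
    · rintro ⟨⟨_, h3, _⟩, _⟩
      exact absurd h3 (lt_irrefl _)
    · rintro ⟨_, _, h4, _⟩
      have := mem_Icc.1 (hQ h4)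
      omega
  · have e1 : min x y = y := min_eq_right h.le
    have e2 : max x y = x := max_eq_left h.le
    have e3 : dd x y = x - y := by unfold dd; omega
    have e4 : m * y ≤ m * x := Nat.mul_le_mul_left m h.le
    rw [e1, e2, e3]
    constructor
    · rintro ⟨⟨⟨h1, h2⟩, h3, h4, h5⟩, h6⟩
      exact ⟨h2, h1, h4, by omega, h6.trans e4, h6⟩
    · rintro ⟨h1, h2, h4, h5, h6, h7⟩
      exact ⟨⟨⟨h2, h1⟩, h, h4, by omega⟩, h7⟩

theorem kk_spec (h : KB N m Q s) (x y : ℕ) : (kk N m Q x y = 2 / N ∧ x ∈ Q ∧ y ∈ Q ∧ dd x y ∈ Q ∧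
    N < x + y ∧ N ≤ m * x ∧ N ≤ m * y) ∨ (kk N m Q x y = 0 ∧
    ¬ (x ∈ Q ∧ y ∈ Q ∧ dd x y ∈ Q ∧ N < x + y ∧ N ≤ m * x ∧ N ≤ m * y)) := by
  classical
  have hi := kbase1_iff (m := m) h.sub x y
  by_cases hc : x ∈ Q ∧ y ∈ Q ∧ dd x y ∈ Q ∧ N < x + y ∧ N ≤ m * x ∧ N ≤ m * y
  · left
    refine ⟨?_, hc⟩
    unfold kk k0
    rw [if_pos (hi.2 hc)]
  · right
    refine ⟨?_, hc⟩
    unfold kk k0
    rw [if_neg (fun h1 => hc (hi.1 h1))]

theorem V0_nn (x : ℕ) : 0 ≤ V0 N m Q x :=
  sum_nonneg fun y _ => kk_nn x y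

private theorem kbase1_Npos (h : KB N m Q s) : (0 : ℝ) < N := by
  have h1 := h.m_ge
  have h2 := h.N_ge
  have h3 : 0 < N := by omega
  exact_mod_cast h3

/-- lower bound of `V0` by a count of partners -/
private theorem kbase1_count (h : KB N m Q s) {x : ℕ} (hx : x ∈ Q) (hm : N ≤ m * x) :
    (((Q.filter (fun y => y ≠ x ∧ dd x y ∈ Q ∧ N < x + y ∧ N ≤ m * y)).card : ℕ) : ℝ) * (2 / N)
      ≤ V0 N m Q x := by
  have hN := kbase1_Npos h
  obtain ⟨S, hS⟩ : ∃ S, S = Q.filter (fun y => y ≠ x ∧ dd x y ∈ Q ∧ N < x + y ∧ N ≤ m * y) :=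
    ⟨_, rfl⟩
  rw [← hS]
  have h1 : S ⊆ range (N + 1) := by
    intro y hy
    rw [hS, mem_filter] at hy
    have := mem_Icc.1 (h.sub hy.1)
    rw [mem_range]
    omega
  have h2 : ∑ y ∈ S, kk N m Q x y ≤ V0 N m Q x :=
    sum_le_sum_of_subset_of_nonneg h1 (fun y _ _ => kk_nn x y)
  refine le_trans ?_ h2
  have h3 : ∀ y ∈ S, kk N m Q x y = 2 / N := by
    intro y hy
    rw [hS, mem_filter] at hy
    obtain ⟨a1, a2, a3, a4, a5⟩ := hy
    rcases kk_spec h x y with h4 | h4
    · exact h4.1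
    · exact absurd ⟨hx, a1, a3, a4, hm, a5⟩ h4.2
  rw [sum_congr rfl h3, sum_const, nsmul_eq_mul]

private theorem kbase1_compl (h : KB N m Q s) : ((Icc 1 N \ Q).card : ℝ) ≤ s * N := by
  rw [card_sdiff_of_subset h.sub, Nat.cast_sub (card_le_card h.sub), Nat.card_Icc,
    Nat.add_sub_cancel]
  exact h.card

/-- the number of partners is at least `x - 3 s N - 1 - N / m` -/
private theorem kbase1_deg (h : KB N m Q s) {x : ℕ} (hx2 : x ≤ N) :
    (x : ℝ) ≤ (((Q.filter (fun y => y ≠ x ∧ dd x y ∈ Q ∧ N < x + y ∧ N ≤ m * y)).card : ℕ) : ℝ) +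
      (3 * (s * N) + 1 + N / m) := by
  classical
  have hc := kbase1_compl h
  have hm1 := h.m_ge
  obtain ⟨S, hS⟩ : ∃ S, S = Q.filter (fun y => y ≠ x ∧ dd x y ∈ Q ∧ N < x + y ∧ N ≤ m * y) :=
    ⟨_, rfl⟩
  obtain ⟨B, hB⟩ : ∃ B, B = Ioc (N - x) N := ⟨_, rfl⟩
  obtain ⟨B1, hB1⟩ : ∃ B1, B1 = B.filter (fun y => y < x ∧ x - y ∉ Q) := ⟨_, rfl⟩
  obtain ⟨B2, hB2⟩ : ∃ B2, B2 = B.filter (fun y => x < y ∧ y - x ∉ Q) := ⟨_, rfl⟩
  obtain ⟨B3, hB3⟩ : ∃ B3, B3 = B.filter (fun y => m * y < N) := ⟨_, rfl⟩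
  rw [← hS]
  have h1 : B ⊆ S ∪ ((Icc 1 N \ Q) ∪ ({x} ∪ (B1 ∪ (B2 ∪ B3)))) := by
    intro y hy
    have hy' := hy
    rw [hB, mem_Ioc] at hy'
    simp only [mem_union, mem_sdiff, mem_Icc, mem_singleton, hS, hB1, hB2, hB3, mem_filter]
    by_cases hyQ : y ∈ Q
    · by_cases hyx : y = x
      · exact Or.inr (Or.inr (Or.inl hyx))
      · by_cases hmy : N ≤ m * y
        · rcases lt_or_gt_of_ne hyx with h | h
          · by_cases hd : x - y ∈ Q
            · left
              refine ⟨hyQ, hyx, ?_, by omega, hmy⟩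
              have e : dd x y = x - y := by unfold dd; omega
              rw [e]
              exact hd
            · exact Or.inr (Or.inr (Or.inr (Or.inl ⟨hy, h, hd⟩)))
          · by_cases hd : y - x ∈ Q
            · left
              refine ⟨hyQ, hyx, ?_, by omega, hmy⟩
              have e : dd x y = y - x := by unfold dd; omega
              rw [e]
              exact hd
            · exact Or.inr (Or.inr (Or.inr (Or.inr (Or.inl ⟨hy, h, hd⟩))))
        · exact Or.inr (Or.inr (Or.inr (Or.inr (Or.inr ⟨hy, not_le.1 hmy⟩))))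
    · exact Or.inr (Or.inl ⟨⟨by omega, by omega⟩, hyQ⟩)
  have hBc : B.card = x := by
    rw [hB, Nat.card_Ioc]
    omega
  have c1 : B1.card ≤ (Icc 1 N \ Q).card := by
    refine card_le_card_of_injOn (fun y => x - y) ?_ ?_
    · intro y hy
      have hy' : y ∈ B1 := hy
      rw [hB1, mem_filter, hB, mem_Ioc] at hy'
      obtain ⟨h2, h3, h4⟩ := hy'
      have h5 : x - y ∈ Icc 1 N \ Q := by
        rw [mem_sdiff, mem_Icc]
        exact ⟨⟨by omega, by omega⟩, h4⟩
      exact h5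
    · intro y hy z hz hyz
      have hy' : y ∈ B1 := hy
      have hz' : z ∈ B1 := hz
      rw [hB1, mem_filter] at hy' hz'
      have h2 := hy'.2.1
      have h3 := hz'.2.1
      have h4 : x - y = x - z := hyz
      omega
  have c2 : B2.card ≤ (Icc 1 N \ Q).card := by
    refine card_le_card_of_injOn (fun y => y - x) ?_ ?_
    · intro y hy
      have hy' : y ∈ B2 := hy
      rw [hB2, mem_filter, hB, mem_Ioc] at hy'
      obtain ⟨h2, h3, h4⟩ := hy'
      have h5 : y - x ∈ Icc 1 N \ Q := by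
        rw [mem_sdiff, mem_Icc]
        exact ⟨⟨by omega, by omega⟩, h4⟩
      exact h5
    · intro y hy z hz hyz
      have hy' : y ∈ B2 := hy
      have hz' : z ∈ B2 := hz
      rw [hB2, mem_filter] at hy' hz'
      have h2 := hy'.2.1
      have h3 := hz'.2.1
      have h4 : y - x = z - x := hyz
      omega
  have h2 : x ≤ S.card + ((Icc 1 N \ Q).card + (1 + (B1.card + (B2.card + B3.card)))) := by
    rw [← hBc]
    refine (card_le_card h1).trans ((card_union_le _ _).trans ?_)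
    refine Nat.add_le_add_left ((card_union_le _ _).trans ?_) _
    refine Nat.add_le_add_left ((card_union_le _ _).trans ?_) _
    rw [card_singleton]
    refine Nat.add_le_add_left ((card_union_le _ _).trans ?_) _
    exact Nat.add_le_add_left (card_union_le _ _) _
  have h3 : (x : ℝ) ≤ (S.card : ℝ) + ((Icc 1 N \ Q).card +
      (1 + ((B1.card : ℝ) + ((B2.card : ℝ) + (B3.card : ℝ))))) := by
    exact_mod_cast h2
  have c1' : (B1.card : ℝ) ≤ ((Icc 1 N \ Q).card : ℝ) := by exact_mod_cast c1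
  have c2' : (B2.card : ℝ) ≤ ((Icc 1 N \ Q).card : ℝ) := by exact_mod_cast c2
  have h5 : (B3.card : ℝ) ≤ (N : ℝ) / m := by
    have h4 : B3 ⊆ Icc 1 (N / m) := by
      intro y hy
      rw [hB3, mem_filter, hB, mem_Ioc] at hy
      rw [mem_Icc, Nat.le_div_iff_mul_le (by omega), mul_comm y m]
      exact ⟨by omega, hy.2.le⟩
    have h6 : B3.card ≤ N / m := by
      refine (card_le_card h4).trans ?_
      rw [Nat.card_Icc, Nat.add_sub_cancel]
    have h7 : (B3.card : ℝ) ≤ ((N / m : ℕ) : ℝ) := by exact_mod_cast h6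
    exact h7.trans Nat.cast_div_le
  linarith

theorem V0_le (h : KB N m Q s) (x : ℕ) : V0 N m Q x ≤ 2 * x / N := by
  have hN := kbase1_Npos h
  by_cases hx : x ∈ Q
  · have hx1 := mem_Icc.1 (h.sub hx)
    have h1 : V0 N m Q x ≤ ∑ y ∈ range (N + 1), if y ∈ Ioc (N - x) N then (2 : ℝ) / N else 0 := by
      refine sum_le_sum fun y hy => ?_
      rw [mem_range] at hy
      split_ifs with h2
      · exact kk_le x y
      · rcases kk_spec h x y with h3 | h3
        · exfalso
          apply h2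
          rw [mem_Ioc]
          have := h3.2.2.2.2.1
          omega
        · exact h3.1.le
    refine h1.trans ?_
    rw [← sum_filter, sum_const, nsmul_eq_mul]
    have h2 : ((range (N + 1)).filter (fun y => y ∈ Ioc (N - x) N)).card ≤ x := by
      have h3 : (range (N + 1)).filter (fun y => y ∈ Ioc (N - x) N) ⊆ Ioc (N - x) N :=
        fun y hy => (mem_filter.1 hy).2
      refine (card_le_card h3).trans ?_
      rw [Nat.card_Ioc]
      omega
    have h3 : ((((range (N + 1)).filter (fun y => y ∈ Ioc (N - x) N)).card : ℕ) : ℝ) ≤ x := by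
      exact_mod_cast h2
    calc ((((range (N + 1)).filter (fun y => y ∈ Ioc (N - x) N)).card : ℕ) : ℝ) * (2 / N)
        ≤ x * (2 / N) := mul_le_mul_of_nonneg_right h3 (by positivity)
      _ = 2 * x / N := by ring
  · have h1 : V0 N m Q x = 0 := by
      refine sum_eq_zero fun y _ => ?_
      rcases kk_spec h x y with h3 | h3
      · exact absurd h3.2.1 hx
      · exact h3.1
    rw [h1]
    positivity

theorem V0_ge (h : KB N m Q s) {x : ℕ} (hx : x ∈ Q) (hm : N ≤ m * x) : 1 / (m : ℝ) ≤ V0 N m Q x := by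
  have hN := kbase1_Npos h
  have hx1 := mem_Icc.1 (h.sub hx)
  have hm1 := h.m_ge
  have hm0 : (0 : ℝ) < m := by
    have : 0 < m := by omega
    exact_mod_cast this
  have hs2 : 100 * (m : ℝ) * s ≤ 1 := by
    have h1 := h.sm
    have h2 : 0 ≤ (m : ℝ) * s := mul_nonneg hm0.le h.s_nn
    nlinarith
  have h3 := deg_count (by omega) (by have := h.N_ge; omega) h.sub h.card hs2 hm hx1.2
  refine le_trans ?_ (kbase1_count h hx hm)
  calc 1 / (m : ℝ) = (N : ℝ) / (2 * m) * (2 / N) := by field_simp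
    _ ≤ _ := mul_le_mul_of_nonneg_right h3 (by positivity)

theorem V0_ge10 (h : KB N m Q s) {x : ℕ} (hx : x ∈ Q) (hm : N ≤ 10 * x) : 1 / 10 ≤ V0 N m Q x := by
  have hN := kbase1_Npos h
  have hx1 := mem_Icc.1 (h.sub hx)
  have hm1 := h.m_ge
  have hm1' : (1000 : ℝ) ≤ m := by exact_mod_cast hm1
  have hm0 : (0 : ℝ) < m := by linarith
  have hmx : N ≤ m * x := hm.trans (Nat.mul_le_mul_right x (by omega))
  have hx10 : (N : ℝ) ≤ 10 * x := by exact_mod_cast hm
  have h1 := kbase1_deg h hx1.2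
  have hN1 : 1000 * (m : ℝ) ≤ N := by exact_mod_cast h.N_ge
  have h2 : (N : ℝ) / m ≤ N / 1000 := div_le_div_of_nonneg_left hN.le (by norm_num) hm1'
  have h3 : s * N ≤ N / 1000000 := by
    have h4 := h.sm
    have h5 : 1000000 * s ≤ 1000 * m * s := by
      have : 0 ≤ (m - 1000) * s := mul_nonneg (by linarith) h.s_nn
      nlinarith
    have h6 : 1000000 * s ≤ 1 := h5.trans h4
    have h7 : 1000000 * s * N ≤ 1 * N := mul_le_mul_of_nonneg_right h6 hN.le
    linarith
  have h4 : (N : ℝ) / 20 ≤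
      (((Q.filter (fun y => y ≠ x ∧ dd x y ∈ Q ∧ N < x + y ∧ N ≤ m * y)).card : ℕ) : ℝ) := by
    linarith
  refine le_trans ?_ (kbase1_count h hx hmx)
  calc (1 : ℝ) / 10 = (N : ℝ) / 20 * (2 / N) := by field_simp; norm_num
    _ ≤ _ := mul_le_mul_of_nonneg_right h4 (by positivity)

theorem V0_ne (h : KB N m Q s) {x : ℕ} (hx : V0 N m Q x ≠ 0) :
    x ∈ Q ∧ N ≤ m * x ∧ 1 / (m : ℝ) ≤ V0 N m Q x := by
  obtain ⟨y, _, hy⟩ := exists_ne_zero_of_sum_ne_zero hx
  rcases kk_spec h x y with h3 | h3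
  · exact ⟨h3.2.1, h3.2.2.2.2.2.1, V0_ge h h3.2.1 h3.2.2.2.2.2.1⟩
  · exact absurd h3.1 hy

private theorem kbase2_Zn : Zn N m Q = ∑ x ∈ range (N + 1), ∑ y ∈ range (N + 1), kk N m Q x y := rfl

private theorem kbase2_small (h : KB N m Q s) : 4 / (m : ℝ) ≤ 1 / 250 ∧ 6 / (N : ℝ) ≤ 6 / 1000000 ∧
    s ≤ 1 / 1000000 := by
  have hm : (1000 : ℝ) ≤ m := by exact_mod_cast h.m_ge
  have hN : (1000 : ℝ) * m ≤ N := by exact_mod_cast h.N_ge
  have hs := h.sm
  have hsn := h.s_nn
  have hmr : (0 : ℝ) < m := by linarith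
  have hNr : (0 : ℝ) < N := by linarith
  refine ⟨?_, ?_, ?_⟩
  · rw [div_le_div_iff₀ hmr (by norm_num)]
    linarith
  · rw [div_le_div_iff₀ hNr (by norm_num)]
    linarith
  · nlinarith

private theorem kbase2_pos (h : KB N m Q s) : 0 ≤ 1 - (11 * s + 4 / m + 6 / (N : ℝ)) := by
  obtain ⟨a, b, c⟩ := kbase2_small h
  linarith

theorem Zn_ge (h : KB N m Q s) : (1 - (12 * s + 4 / m + 6 / N)) * N ≤ Zn N m Q := by
  have hNn : 1 ≤ N := by have := h.m_ge; have := h.N_ge; omega
  have hmn : 1 ≤ m := by have := h.m_ge; omega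
  have hNr : (0 : ℝ) < N := by exact_mod_cast hNn
  have hmr : (0 : ℝ) < m := by exact_mod_cast hmn
  have e1 : ∑ a ∈ Q, ld N Q 1 (k0 N m Q) a = 2 * ∑ p ∈ prs N Q, k0 N m Q p := by
    unfold ld
    rw [Finset.sum_comm, Finset.mul_sum]
    apply Finset.sum_congr rfl
    intro p hp
    rw [← Finset.mul_sum]
    have hp' := hp
    unfold prs at hp'
    simp only [mem_filter, mem_product] at hp'
    have : ∑ a ∈ Q, lp 1 p a = 2 := by
      unfold lp
      rw [Finset.sum_add_distrib, ← Finset.mul_sum, Finset.sum_add_distrib,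
        Finset.sum_ite_eq, Finset.sum_ite_eq, Finset.sum_ite_eq, if_pos hp'.1.1, if_pos hp'.1.2,
        if_pos hp'.2.2.1]
      norm_num
    rw [this]
    ring
  have e2 : Zn N m Q = 2 * ∑ p ∈ prs N Q, k0 N m Q p := by
    rw [kbase2_Zn]
    have a1 : ∀ x ∈ range (N + 1), ∀ y ∈ range (N + 1), kk N m Q x y =
        (if x < y then k0 N m Q (x, y) else 0) + (if y < x then k0 N m Q (y, x) else 0) := by
      intro x _ y _
      unfold kk
      rcases lt_trichotomy x y with hxy | hxy | hxy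
      · rw [if_pos hxy, if_neg (by omega), min_eq_left hxy.le, max_eq_right hxy.le, add_zero]
      · subst hxy
        rw [if_neg (lt_irrefl _), min_self, max_self, add_zero]
        unfold k0 prs
        rw [if_neg]
        intro hh
        simp only [mem_filter] at hh
        exact lt_irrefl _ hh.1.2.1
      · rw [if_neg (by omega), if_pos hxy, min_eq_right hxy.le, max_eq_left hxy.le, zero_add]
    rw [Finset.sum_congr rfl (fun x hx => Finset.sum_congr rfl (fun y hy => a1 x hx y hy))]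
    simp_rw [Finset.sum_add_distrib]
    have a2 : ∑ x ∈ range (N + 1), ∑ y ∈ range (N + 1), (if x < y then k0 N m Q (x, y) else 0) =
        ∑ p ∈ prs N Q, k0 N m Q p := by
      rw [← Finset.sum_product' (s := range (N + 1)) (t := range (N + 1))
        (f := fun x y => if x < y then k0 N m Q (x, y) else 0)]
      symm
      apply Finset.sum_subset_zero_on_sdiff
      · intro p hp
        unfold prs at hp
        simp only [mem_filter, mem_product] at hp
        have h1 := mem_Icc.1 (h.sub hp.1.1)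
        have h2 := mem_Icc.1 (h.sub hp.1.2)
        rw [mem_product, mem_range, mem_range]
        omega
      · intro p hp
        rw [mem_sdiff] at hp
        have : k0 N m Q p = 0 := by
          unfold k0
          rw [if_neg]
          intro hh
          exact hp.2 hh.1
        simp [this]
      · intro p hp
        unfold prs at hp
        simp only [mem_filter, mem_product] at hp
        rw [if_pos hp.2.1]
    have a3 : ∑ x ∈ range (N + 1), ∑ y ∈ range (N + 1), (if y < x then k0 N m Q (y, x) else 0) =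
        ∑ p ∈ prs N Q, k0 N m Q p := by
      rw [Finset.sum_comm]
      exact a2
    rw [a2, a3]
    ring
  rw [e2, ← e1]
  have e3 : ∀ a ∈ Q, 1 - (11 * s + 4 / m + 6 / N) ≤ ld N Q 1 (k0 N m Q) a := by
    intro a ha
    have := k0_load hNn hmn h.sub h.card (ω := 1) (by norm_num) ha
    rw [sub_self, abs_zero, zero_add] at this
    have := (abs_le.1 this).1
    linarith
  have e4 : (Q.card : ℝ) * (1 - (11 * s + 4 / m + 6 / N)) ≤ ∑ a ∈ Q, ld N Q 1 (k0 N m Q) a := by
    have := Finset.card_nsmul_le_sum Q (fun a => ld N Q 1 (k0 N m Q) a) _ e3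
    rwa [nsmul_eq_mul] at this
  refine le_trans ?_ e4
  have hc := h.card
  have hsn := h.s_nn
  have hA : 0 ≤ 1 - (11 * s + 4 / m + 6 / N) := kbase2_pos h
  have hB : 1 - (11 * s + 4 / m + 6 / (N : ℝ)) ≤ 1 := by
    have : 0 ≤ 4 / (m : ℝ) := by positivity
    have : 0 ≤ 6 / (N : ℝ) := by positivity
    linarith
  have c1 : (1 - s) * N ≤ (Q.card : ℝ) := by linarith
  have c2 := mul_le_mul_of_nonneg_right c1 hA
  have c3 : s * (1 - (11 * s + 4 / m + 6 / (N : ℝ))) ≤ s := by nlinarith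
  have c4 := mul_le_mul_of_nonneg_right c3 hNr.le
  nlinarith


theorem Zn_le (h : KB N m Q s) : Zn N m Q ≤ N + 1 := by
  have hNn : 1 ≤ N := by have := h.m_ge; have := h.N_ge; omega
  have hNr : (0 : ℝ) < N := by exact_mod_cast hNn
  unfold Zn
  refine le_trans (Finset.sum_le_sum (fun x _ => V0_le h x)) ?_
  rw [← Finset.sum_div, ← Finset.mul_sum]
  have e : (∑ x ∈ range (N + 1), (x : ℝ)) * 2 = (N + 1) * N := by
    have := Finset.sum_range_id_mul_two (N + 1)
    have h2 : ((∑ x ∈ range (N + 1), x : ℕ) : ℝ) * 2 = ((N + 1 : ℕ) : ℝ) * ((N + 1 - 1 : ℕ) : ℝ) := by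
      exact_mod_cast this
    rw [Nat.add_sub_cancel] at h2
    push_cast at h2
    exact h2
  rw [mul_comm, e]
  rw [mul_div_assoc, div_self hNr.ne', mul_one]

theorem Zn_pos (h : KB N m Q s) : (9 / 10) * (N : ℝ) ≤ Zn N m Q := by
  obtain ⟨a, b, c⟩ := kbase2_small h
  have h1 := Zn_ge h
  have hNr : (0 : ℝ) ≤ N := Nat.cast_nonneg _
  refine le_trans ?_ h1
  apply mul_le_mul_of_nonneg_right _ hNr
  linarith

theorem edge_le (h : KB N m Q s) {z : ℕ} (hz : z ≤ N) :
    (∑ x ∈ range (N + 1), ∑ y ∈ range (N + 1), if dd x y = z then kk N m Q x y else 0) ≤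
      2 / N * (N - z + 2) := by
  have hNn : 1 ≤ N := by have := h.m_ge; have := h.N_ge; omega
  have hNr : (0 : ℝ) < N := by exact_mod_cast hNn
  rw [← Finset.sum_product' (s := range (N + 1)) (t := range (N + 1))
        (f := fun x y => if dd x y = z then kk N m Q x y else 0)]
  set S := (range (N + 1) ×ˢ range (N + 1)).filter
    (fun p : ℕ × ℕ => dd p.1 p.2 = z ∧ N < p.1 + p.2 ∧ p.1 ≠ p.2) with hS
  have h1 : ∑ p ∈ range (N + 1) ×ˢ range (N + 1), (if dd p.1 p.2 = z then kk N m Q p.1 p.2 else 0) ≤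
      ∑ p ∈ S, 2 / (N : ℝ) := by
    rw [hS, Finset.sum_filter]
    apply Finset.sum_le_sum
    intro p hp
    by_cases hd : dd p.1 p.2 = z
    · rw [if_pos hd]
      by_cases hc : N < p.1 + p.2 ∧ p.1 ≠ p.2
      · rw [if_pos ⟨hd, hc.1, hc.2⟩]
        exact kk_le _ _
      · rw [if_neg (fun hh => hc ⟨hh.2.1, hh.2.2⟩)]
        rcases kk_spec h p.1 p.2 with hk | hk
        · exfalso
          apply hc
          refine ⟨hk.2.2.2.2.1, ?_⟩
          intro he
          have := mem_Icc.1 (h.sub hk.2.2.2.1)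
          rw [he] at this
          unfold dd at this
          omega
        · exact hk.1.le
    · rw [if_neg hd]
      split_ifs
      · positivity
      · exact le_refl _
  refine le_trans h1 ?_
  rw [Finset.sum_const, nsmul_eq_mul, mul_comm]
  apply mul_le_mul_of_nonneg_left _ (by positivity)
  have hcard : S.card ≤ (range (N - z + 1)).card := by
    apply Finset.card_le_card_of_injOn
      (fun p : ℕ × ℕ => if p.1 < p.2 then 2 * p.1 - (N - z) - 1 else 2 * p.2 - (N - z))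
    · intro p hp
      rw [hS] at hp
      simp only [coe_filter, mem_product, mem_range, Set.mem_ofPred_eq] at hp
      obtain ⟨⟨h1, h2⟩, h3, h4, h5⟩ := hp
      unfold dd at h3
      simp only [coe_range, Set.mem_Iio]
      split_ifs <;> omega
    · intro p hp q hq hpq
      rw [hS] at hp hq
      simp only [coe_filter, mem_product, mem_range, Set.mem_ofPred_eq] at hp hq
      obtain ⟨⟨h1, h2⟩, h3, h4, h5⟩ := hp
      obtain ⟨⟨g1, g2⟩, g3, g4, g5⟩ := hq
      unfold dd at h3 g3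
      simp only at hpq
      apply Prod.ext
      · split_ifs at hpq <;> omega
      · split_ifs at hpq <;> omega
  rw [card_range] at hcard
  have : (S.card : ℝ) ≤ ((N - z + 1 : ℕ) : ℝ) := by exact_mod_cast hcard
  rw [Nat.cast_add, Nat.cast_sub hz] at this
  push_cast at this
  linarith

theorem vv_nn (h : KB N m Q s) (x : ℕ) : 0 ≤ vv N m Q x := by
  exact div_nonneg (V0_nn x) (le_trans (by positivity) (Zn_pos h))

theorem vv_sum (h : KB N m Q s) : ∑ x ∈ range (N + 1), vv N m Q x = 1 := by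
  have h1 := Zn_pos h
  have hNn : 1 ≤ N := by have := h.m_ge; have := h.N_ge; omega
  have hNr : (0 : ℝ) < N := by exact_mod_cast hNn
  have h2 : 0 < Zn N m Q := lt_of_lt_of_le (by positivity) h1
  unfold vv
  rw [← Finset.sum_div]
  exact div_self h2.ne' 

theorem vv_le (h : KB N m Q s) {x : ℕ} (hx : x ≤ N) : vv N m Q x ≤ 2 * x / (N * Zn N m Q) ∧
    vv N m Q x ≤ 3 / N := by
  have h1 := Zn_pos h
  have hNn : 1 ≤ N := by have := h.m_ge; have := h.N_ge; omega
  have hNr : (0 : ℝ) < N := by exact_mod_cast hNn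
  have h2 : 0 < Zn N m Q := lt_of_lt_of_le (by positivity) h1
  have h3 : vv N m Q x ≤ 2 * x / (N * Zn N m Q) := by
    unfold vv
    rw [← div_div]
    exact div_le_div_of_nonneg_right (V0_le h x) h2.le
  refine ⟨h3, le_trans h3 ?_⟩
  rw [div_le_div_iff₀ (by positivity) hNr]
  have hx' : (x : ℝ) ≤ N := by exact_mod_cast hx
  nlinarith [mul_le_mul_of_nonneg_right hx' hNr.le, mul_le_mul_of_nonneg_left h1 hNr.le]

theorem vv_ne (h : KB N m Q s) {x : ℕ} (hx : vv N m Q x ≠ 0) : x ∈ Q ∧ V0 N m Q x ≠ 0 := by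
  have : V0 N m Q x ≠ 0 := by
    intro h0
    apply hx
    unfold vv
    rw [h0, zero_div]
  exact ⟨(V0_ne h this).1, this⟩

theorem PP_nn (x y : ℕ) : 0 ≤ PP N m Q x y := by
  exact div_nonneg (kk_nn x y) (V0_nn x)

theorem PP_le (h : KB N m Q s) (x y : ℕ) : PP N m Q x y ≤ 2 * m / N := by
  have hNn : 1 ≤ N := by have := h.m_ge; have := h.N_ge; omega
  have hmn : 1 ≤ m := by have := h.m_ge; omega
  have hNr : (0 : ℝ) < N := by exact_mod_cast hNn
  have hmr : (0 : ℝ) < m := by exact_mod_cast hmn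
  unfold PP
  by_cases h0 : V0 N m Q x = 0
  · rw [h0, div_zero]
    positivity
  · have h1 := (V0_ne h h0).2.2
    have h2 : 0 < V0 N m Q x := lt_of_lt_of_le (by positivity) h1
    rw [div_le_iff₀ h2]
    have h3 : 2 / (N : ℝ) = 2 * m / N * (1 / m) := by
      field_simp
    calc kk N m Q x y ≤ 2 / N := kk_le x y
      _ = 2 * m / N * (1 / m) := h3
      _ ≤ 2 * m / N * V0 N m Q x := mul_le_mul_of_nonneg_left h1 (by positivity)

theorem PP_sum (x : ℕ) (hx : V0 N m Q x ≠ 0) : ∑ y ∈ range (N + 1), PP N m Q x y = 1 := by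
  unfold PP
  rw [← Finset.sum_div]
  exact div_self hx

theorem vv_PP (h : KB N m Q s) (x y : ℕ) : vv N m Q x * PP N m Q x y = kk N m Q x y / Zn N m Q := by
  have hNn : 1 ≤ N := by have := h.m_ge; have := h.N_ge; omega
  have hNr : (0 : ℝ) < N := by exact_mod_cast hNn
  unfold vv PP
  by_cases h0 : V0 N m Q x = 0
  · have hk : kk N m Q x y = 0 := by
      rcases kk_spec h x y with hk | hk
      · exfalso
        have hy := mem_Icc.1 (h.sub hk.2.2.1)
        have h1 : kk N m Q x y ≤ V0 N m Q x := by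
          unfold V0
          exact Finset.single_le_sum (f := fun y => kk N m Q x y) (fun i _ => kk_nn x i)
            (mem_range.2 (by omega))
        rw [h0, hk.1] at h1
        have : 0 < 2 / (N : ℝ) := by positivity
        linarith
      · exact hk.1
    rw [h0, hk]
    simp
  · rw [div_mul_div_comm, mul_comm (Zn N m Q), mul_div_mul_left _ _ h0]

theorem stat (h : KB N m Q s) {y : ℕ} (hy : y ≤ N) :
    ∑ x ∈ range (N + 1), vv N m Q x * PP N m Q x y = vv N m Q y := by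
  have e : ∀ x ∈ range (N + 1), vv N m Q x * PP N m Q x y = kk N m Q y x / Zn N m Q := by
    intro x _
    rw [vv_PP h, kk_symm]
  rw [Finset.sum_congr rfl e, ← Finset.sum_div]
  rfl

end SSB
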