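import Pool.Agent.Lib.MP_8a819d_co.AT.K1
import Pool.Agent.Lib.MP_8a819d_co.AT.K2
import Pool.Agent.Lib.MP_8a819d_co.AT.K3

/-!
# MP_8a819d_co, trees with many non-leaves: the key inequality

BLOCK C1 (helper88).

`Q ⊆ [1, N]` misses at most `s N` labels, `X` is a set of at most `s N` exceptional rows. A function `φ` on the
labels such that for most rows `x` the sum `φ y + φ |x - y|` is nearly independent of `y` is nearly constant
(in the `L¹` norm).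

`Gd N Q X` : the good pairs `(x, y)`: `x, y, |x - y| ∈ Q`, `x ∉ X`, `x + y > N`, `x, y ≥ N/10`.
Let `F x y = φ y + φ (dd x y) - m x`, `I = ∑ (x, y) ∈ Gd, |F x y|`.
Claim (`keyIneq`): there is `c₁ > 0` (e.g. `10^-8`) such that for all `φ` and all `m`
  `∃ B₀, c₁ N ∑ a ∈ Q, |φ a - B₀| ≤ I`.

PROOF. `Bk = Q ∩ [0.88 N, 0.92 N]` (bank), `|Bk| ≥ 0.039 N`; `B₀` = average of `φ` over `Bk`.
Step 1. `∑ b, b' ∈ Bk, |φ b - φ b'| ≤ C I`. Parameters `x ∈ [0.13 N, 0.2 N]`, `x₂ ∈ [0.35 N, 0.5 N]`, `w = x + x₂`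
  (`∈ [0.48 N, 0.7 N]`). The pairs `(x, b)`, `(x₂, b - x)`, `(w, b)` (and the same with `b'`) are good for most
  parameters: sums: `x + b ≥ 1.01 N`, `x₂ + b - x ≥ 0.35 N + 0.68 N`, `w + b > N`; differences: `b - x`,
  `|x₂ - (b - x)| = b - w` (`b - w ≥ 0.18 N > 0`), `b - w`. For given `b, b' ∈ Bk` the pair of parameters `(x, x₂)`
  is bad if one of `x, x₂, w` is outside `Q` or in `X`, or one of `b - x, b - w, b' - x, b' - w` is outside `Q`: at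
  most `10 s N * N` pairs (each condition fixes `x`, `x₂` or `w = x + x₂`), out of `≥ 0.01 N^2`. For the other
  ones (at least `0.005 N^2`):
  `2 (φ b - φ b') = (F x b - F x b') - (F x₂ (b-x) - F x₂ (b'-x)) + (F w b - F w b')`
  [the right side is `(φ b - φ b' + φ (b-x) - φ (b'-x)) - (φ (b-x) - φ (b'-x) + φ (b-w) - φ (b'-w)) +
  (φ b - φ b' + φ (b-w) - φ (b'-w))`]. Sum over `b, b'` and the good parameters: each `|F u v|` is counted at most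
  `N^2` times by each of the six terms (given `(x, b)` there remain `b', x₂`; given `(x₂, b - x) = (u, v)` there
  remain `b, b'`, and `x = b - v`; given `(w, b)` there remain `b'` and `x`). So
  `2 * 0.005 N^2 ∑ b b' |φ b - φ b'| ≤ 6 N^2 I`. Hence `∑ b b' ∈ Bk |φ b - φ b'| ≤ 600 I` and
  `∑ b ∈ Bk |φ b - B₀| ≤ (1/|Bk|) 600 I ≤ 16000 I / N`.
Step 2. `a ∈ R₁ = Q ∩ [0.38 N, N]`: parameter `x` with `b = 2 x - a ∈ Bk`; `x = (a + b)/2 ∈ [0.63 N, 0.96 N]`. The pairs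
  `(x, a)`, `(x, b)` are good for most `x`: `x + a = (3 a + b)/2 ≥ (1.14 + 0.88)/2 N > N`; `x + b > N`; the difference
  `|x - a| = |x - b|` must be in `Q` (so `≠ 0`). The number of `x` is `≥ 0.02 N - 1` minus at most
  `(1 + 1 + 2 + 1) s N + 1` bad ones (`x ∉ Q`, `x ∈ X`, `|x - a| ∉ Q` (incl. `0`), `b ∉ Q`), so `≥ 0.01 N`. Then
  `φ a - φ b = F x a - F x b`. Sum over `a` and `x`:
  `0.01 N ∑ a ∈ R₁ |φ a - B₀| ≤ 2 I + N ∑ b ∈ Bk |φ b - B₀|` [given `(x, a)`: one time; given `(x, b)`: `a = 2x - b` one time;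
  given `b`: `x` arbitrary, at most `N` times]. So `∑ a ∈ R₁ |φ a - B₀| ≤ C I / N`.
Step 3. `a ∈ Q`, `a < 0.38 N`: parameters `x ∈ [0.5 N, 0.54 N]`, `y' ∈ [0.96 N, N]`. Pairs `(x, x + a)` (sum
  `2 x + a > N`, difference `a`) and `(x, y')` (difference `y' - x ∈ [0.42 N, 0.5 N]`):
  `φ a = F x (x+a) - F x y' - φ (x+a) + φ y' + φ (y'-x)`, hence
  `|φ a - B₀| ≤ |F x (x+a)| + |F x y'| + |φ (x+a) - B₀| + |φ y' - B₀| + |φ (y'-x) - B₀|`, and `x + a`, `y'`, `y' - x` are in `R₁`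
  (`Q` and `≥ 0.38 N`) for all but few parameters (`≥ 0.0015 N^2 / 2` remain). Sum over `a, x, y'`:
  each term is counted at most `N` times (first two: `(x, x+a)`, `y'` free; `(x, y')`, `a` free) resp. `N^2` times.
Any `s ≤ 10^-5` and `N` large are enough.
-/

set_option autoImplicit false

namespace SSB

open Finset

theorem keyIneq : ∃ s₀ c₁ : ℝ, 0 < s₀ ∧ 0 < c₁ ∧ ∃ N₀ : ℕ, ∀ N : ℕ, N₀ ≤ N →
    ∀ Q X : Finset ℕ, Q ⊆ Icc 1 N → (N : ℝ) - Q.card ≤ s₀ * N → (X.card : ℝ) ≤ s₀ * N →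
    ∀ φ m : ℕ → ℝ, ∃ B₀ : ℝ,
      c₁ * N * ∑ a ∈ Q, |φ a - B₀| ≤ ∑ p ∈ Gd N Q X, |φ p.2 + φ (dd p.1 p.2) - m p.1| := by
  refine ⟨1 / 10 ^ 6, 1 / 10 ^ 10, by norm_num, by norm_num, 10 ^ 9, ?_⟩
  intro N hN Q X hQ hc hX φ m
  have h : KX N Q X := ⟨hN, hQ, hc, hX⟩
  obtain ⟨B₀, h1⟩ := key1' h φ m
  refine ⟨B₀, ?_⟩
  have h2 := key2 h φ m B₀
  have h3 := key3 h φ m B₀
  have hI := II_nonneg N Q X φ m
  have hNr : (10 : ℝ) ^ 9 ≤ N := by exact_mod_cast hN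
  have hs : ∑ a ∈ Q, |φ a - B₀| = ∑ a ∈ R1 N Q, |φ a - B₀| + ∑ a ∈ R0 N Q, |φ a - B₀| := by
    unfold R1 R0
    rw [← sum_filter_add_sum_filter_not Q (fun a => 38 * N ≤ 100 * a)]
    congr 1
    refine sum_congr ?_ fun _ _ => rfl
    refine filter_congr fun a _ => ?_
    omega
  have e : ∑ p ∈ Gd N Q X, |φ p.2 + φ (dd p.1 p.2) - m p.1| = II N Q X φ m := rfl
  rw [e, hs]
  generalize II N Q X φ m = I at h1 h2 h3 hI ⊢
  have hsb0 : 0 ≤ ∑ b ∈ Bk N Q, |φ b - B₀| := sum_nonneg fun _ _ => abs_nonneg _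
  generalize ∑ b ∈ Bk N Q, |φ b - B₀| = sb at h1 h2 hsb0
  generalize ∑ a ∈ R1 N Q, |φ a - B₀| = s1 at h2 h3 ⊢
  generalize ∑ a ∈ R0 N Q, |φ a - B₀| = s0 at h3 ⊢
  have h4 : ((N : ℝ) + 1) * sb ≤ 2 * (N * sb) := by nlinarith
  have h5 : (N : ℝ) * s1 ≤ 2200200 * I := by linarith
  have h6 : (N : ℝ) * s0 ≤ 8800803000 * I := by linarith
  have h7 : 1 / 10 ^ 10 * (N : ℝ) * (s1 + s0) = 1 / 10 ^ 10 * (N * s1 + N * s0) := by ring
  rw [h7]
  linarith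

end SSB
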