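import Pool.Agent.Lib.MP_8a819d_co.AT.Defs

/-!
# MP_8a819d_co, trees with many non-leaves: the packing statement

`PackSt false` is the packing theorem without vertices of linear degree (`G = ∅`; it follows from `packV`), `PackSt true` the packing
theorem with vertices of any degree. `G`: a bounded number of vertices with bounded labels; the law of a child `v ∈ Z` of `g ∈ G` is
uniform on `Dom g = {y ∈ Q : y - f₀ g ∈ Q, f₀ g ≤ y % b}` (so `y`, `y - f₀ g` are in the same block of `b` consecutive labels). The other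
vertices of `B` have at most `γ N` neighbours in `Z` and labels `≥ b`; those with more than `√N` neighbours in `Z` have labels
with distances at least `4 b`.
-/

set_option autoImplicit false

namespace SSB

open Finset

/-- number of neighbours in `Z` of `x ∈ B` -/
def zdg (n : ℕ) (par : ℕ → ℕ) (B Z : Finset ℕ) (x : ℕ) : ℕ :=
  (Z.filter (fun v => x ∈ bnb n par B v)).card

/-- data of a packing problem with giants `G` -/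
structure PkCfg (e : Bool) (g₀ c₁ b : ℕ) (γ p₀ C : ℝ) (K n N : ℕ) (par : ℕ → ℕ) (G B Z Q : Finset ℕ)
    (f₀ : ℕ → ℕ) (Dom : ℕ → Finset ℕ) (mu : ℕ → ℕ → ℝ) (kr : ℕ → ℕ → ℕ → ℝ) : Prop where
  isP : IsPar n par
  nN : n ≤ N
  e_G : e = false → G = ∅
  GB : G ⊆ B
  G_card : G.card ≤ g₀
  G_lab : ∀ g ∈ G, 1 ≤ f₀ g ∧ f₀ g ≤ c₁
  B_lab : ∀ x ∈ B \ G, b ≤ f₀ x
  B_sep : ∀ x ∈ B \ G, ∀ y ∈ B \ G, x ≠ y → N < zdg n par B Z x ^ 2 → N < zdg n par B Z y ^ 2 →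
    4 * b ≤ dd (f₀ x) (f₀ y)
  B_deg : ∀ x ∈ B \ G, (zdg n par B Z x : ℝ) ≤ γ * N
  Dom_iff : ∀ g ∈ G, ∀ y, y ∈ Dom g ↔ y ∈ Q ∧ f₀ g < y ∧ y - f₀ g ∈ Q ∧ f₀ g ≤ y % b
  Dom_card : ∀ g ∈ G, (1 - p₀) * N ≤ ((Dom g).card : ℝ)
  G_few : 2 * ((Z.filter (fun v => par v ∈ G)).card : ℝ) ≤ (1 - 3 * p₀) * N
  Bsub : B ⊆ range n
  Zsub : Z ⊆ range n
  BZ : Disjoint B Z
  Z0 : 0 ∉ Z
  QN : Q ⊆ Icc 1 N
  one : ∀ v ∈ Z, (bnb n par B v).card ≤ 1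
  inj : Set.InjOn (val par f₀) (items par B)
  valB : ∀ x ∈ items par B, 1 ≤ val par f₀ x ∧ val par f₀ x ∉ Q
  comps : ∀ r, (comp n par (range n \ Z) r).card ≤ K
  law : LawV n N par B Z Q f₀ C mu kr
  unif : ∀ v ∈ Z, par v ∈ G → ∀ y,
    mu v y = if y ∈ Dom (par v) then 1 / ((Dom (par v)).card : ℝ) else 0
  load : ∀ z ∈ Q, ∑ v ∈ Z, loadv n N par B Z f₀ mu kr v z ≤ 1

def PackSt (e : Bool) : Prop :=
  ∀ (K : ℕ) (C μ p₀ : ℝ), 0 < C → 0 < μ → 0 < p₀ → ∃ γ : ℝ, 0 < γ ∧ ∀ g₀ c₁ b : ℕ, 1 ≤ b →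
    ∃ N₀ : ℕ, ∀ N : ℕ, N₀ ≤ N → ∀ (n : ℕ) (par : ℕ → ℕ) (G B Z Q : Finset ℕ) (f₀ : ℕ → ℕ)
      (Dom : ℕ → Finset ℕ) (mu : ℕ → ℕ → ℝ) (kr : ℕ → ℕ → ℕ → ℝ),
      PkCfg e g₀ c₁ b γ p₀ C K n N par G B Z Q f₀ Dom mu kr →
      ∃ (Cv : Finset ℕ) (f : ℕ → ℕ), Cv ⊆ Z ∧ (∀ v ∈ Z, par v ∈ Z → (v ∈ Cv ↔ par v ∈ Cv)) ∧
        (∀ x ∈ B, f x = f₀ x) ∧ Set.InjOn (val par f) (items par (B ∪ Cv)) ∧
        (∀ x ∈ items par (B ∪ Cv), x ∉ items par B → val par f x ∈ Q) ∧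
        ((Z \ Cv).card : ℝ) ≤ μ * N

end SSB
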