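import Pool.Agent.Lib.MP_8a819d_co.AT.PackV
import Pool.Agent.Lib.MP_8a819d_co.AT.PackSt

/-!
# MP_8a819d_co, trees with many non-leaves: `PackSt false` from `packV`
-/

set_option autoImplicit false

namespace SSB

open Finset

theorem packSt_false : PackSt false := by
  intro K C μ p₀ hC hμ hp
  obtain ⟨γ, hγ, N₀, h⟩ := packV K C μ hC hμ
  refine ⟨γ, hγ, fun g₀ c₁ b _ => ⟨N₀, fun N hN n par G B Z Q f₀ Dom mu kr hc => ?_⟩⟩
  have hG : G = ∅ := hc.e_G rfl
  refine h N hN n par hc.isP hc.nN B Z Q f₀ hc.Bsub hc.Zsub hc.BZ hc.Z0 hc.QN hc.one hc.inj hc.valB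
    (fun x hx => ?_) hc.comps mu kr hc.law hc.load
  exact hc.B_deg x (by rw [hG]; simpa using hx)

end SSB
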