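import Pool.Agent.Lib.MP_8a819d_co.AT.PackG5

/-!
# MP_8a819d_co, trees with many non-leaves: packing with vertices of linear degree, 6. Conclusion
-/

set_option autoImplicit false
set_option linter.unusedSectionVars false
set_option linter.unusedVariables false

namespace SSB

open Finset

/-- the conclusion of `sparse_nibble` -/
def SpN (k : ℕ) (μ κ : ℝ) : Prop :=
    ∀ (V E J Ty : Type) [Fintype V] [Fintype E] [Fintype J] [Fintype Ty] [DecidableEq V]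
      [DecidableEq E] [DecidableEq J] [DecidableEq Ty] (S : E → Finset V) (w : E → ℝ) (V0 : Finset V)
      (bl : V → Option J) (al : V → Finset Ty) (p : Ty → ℝ),
      (∀ e, (S e).card ≤ k) → (∀ e, (S e).Nonempty) → (∀ e, 0 ≤ w e) →
      (∀ t, 0 ≤ p t) → ∑ t, p t = 1 → (∀ x, 0 < ∑ t ∈ al x, p t) →
      (∀ x, bl x = none → al x = univ) →
      (∀ e, 0 < w e → ∀ x ∈ S e, ∀ y ∈ S e, x ≠ y → bl x = bl y → bl x = none) →
      (∀ x, ∑ e with x ∈ S e, w e ≤ ∑ t ∈ al x, p t) →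
      (∀ x ∈ V0, bl x = none ∧ 1 - κ ≤ ∑ e with x ∈ S e, w e) →
      (∀ x y, x ≠ y → ∑ e with (x ∈ S e ∧ y ∈ S e), w e / ∏ z ∈ S e, ∑ t ∈ al z, p t ≤ κ) →
      (∀ x j, bl x ≠ some j → ∑ e with (x ∈ S e ∧ ∃ y ∈ S e, bl y = some j),
        w e / ∏ z ∈ S e, ∑ t ∈ al z, p t ≤ κ) →
      ∃ (ω : J → Ty) (M : Finset E), (∀ e ∈ M, 0 < w e) ∧
        (∀ e ∈ M, ∀ x ∈ S e, ∀ j, bl x = some j → ω j ∈ al x) ∧
        (∀ e ∈ M, ∀ f ∈ M, e ≠ f → Disjoint (S e) (S f)) ∧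
        ((V0.filter (fun v => ∀ e ∈ M, v ∉ S e)).card : ℝ) ≤ μ * ∑ x, ∑ t ∈ al x, p t

theorem sparse_nibble' (k : ℕ) (μ : ℝ) (hμ : 0 < μ) : ∃ κ : ℝ, 0 < κ ∧ SpN k μ κ :=
  sparse_nibble k μ hμ

variable {g₀ c₁ b K n N np : ℕ} {γ p₀ C : ℝ} {par : ℕ → ℕ} {G B Z Q : Finset ℕ} {f₀ : ℕ → ℕ}
  {Dom : ℕ → Finset ℕ} {mu : ℕ → ℕ → ℝ} {kr : ℕ → ℕ → ℕ → ℝ} {pc : Fin np → VP}

/-- all cells of the hyperedge are alive -/
def Alv (n : ℕ) (par : ℕ → ℕ) (G B Z : Finset ℕ) (f₀ : ℕ → ℕ) (b : ℕ) (Dom : ℕ → Finset ℕ)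
    {N np : ℕ} (pc : Fin np → VP) (ω : Fin (N + 1) → Option (G × Bool)) (e : GE N pc) : Prop :=
  ∀ x ∈ gS n par G B Z f₀ pc e, ∀ j, gbl b x = some j → ω j ∈ gav b f₀ Dom x

/-- the labels used by a root which is a child of `G` -/
theorem groot (hc : PkCfg true g₀ c₁ b γ p₀ C K n N par G B Z Q f₀ Dom mu kr) (hb : 1 ≤ b)
    (h : EnvV n N par B Z Q f₀ C mu kr) (hOK : ∀ p, (pc p).OK par Z)
    {ω : Fin (N + 1) → Option (G × Bool)} {e : GE N pc}
    (hcw : (pc e.1).cwv N par mu kr e.2 ≠ 0) (hal : Alv n par G B Z f₀ b Dom pc ω e)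
    (ht : par ((pc e.1).emb 0) ∈ G) {z : ℕ} (hzN : z ≤ N)
    (hz : z ∈ (pc e.1).us n par B Z f₀ ((pc e.1).lab e.2) 0) :
    (e.2 0 : ℕ) ∈ Dom (par ((pc e.1).emb 0)) ∧
      (z = (e.2 0 : ℕ) ∨ z = (e.2 0 : ℕ) - f₀ (par ((pc e.1).emb 0))) ∧
      z / b = (e.2 0 : ℕ) / b ∧
      ω ⟨z / b, lt_of_le_of_lt ((Nat.div_le_self _ _).trans hzN) (Nat.lt_succ_self N)⟩ =
        some (⟨_, ht⟩, gsg b f₀ (par ((pc e.1).emb 0)) (e.2 0)) := by
  have hmu := (vp_mu h (hOK e.1) hcw 0).1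
  have hD : (e.2 0 : ℕ) ∈ Dom (par ((pc e.1).emb 0)) := by
    by_contra hD
    rw [hc.unif _ ((hOK e.1).emb_mem 0) ht, if_neg hD] at hmu
    exact hmu rfl
  obtain ⟨h1, h2, h3⟩ := dom_blk hc hb ht hD
  have hz' : z = (e.2 0 : ℕ) ∨ z = (e.2 0 : ℕ) - f₀ (par ((pc e.1).emb 0)) := by
    have h4 : z ∈ usv n par B Z f₀ ((pc e.1).emb 0) ((pc e.1).lab e.2 ((pc e.1).par 0))
        ((pc e.1).lab e.2 0) := hz
    rw [usv_ch hc ((hOK e.1).emb_mem 0) ht, mem_insert, mem_singleton] at h4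
    rcases h4 with h4 | h4
    · exact Or.inl h4
    · right
      have h5 : (pc e.1).lab e.2 0 = (e.2 0 : ℕ) := rfl
      rw [h5] at h4
      unfold dd at h4
      omega
  have hzb : z / b = (e.2 0 : ℕ) / b := by
    rcases hz' with h4 | h4
    · rw [h4]
    · rw [h4, h1]
  refine ⟨hD, hz', hzb, ?_⟩
  have h4 := hal (Sum.inr (Sum.inl (⟨_, ht⟩, e.2 0))) (mem_gS_d.2 ⟨rfl, rfl⟩)
    ⟨z / b, lt_of_le_of_lt ((Nat.div_le_self _ _).trans hzN) (Nat.lt_succ_self N)⟩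
    (gbl_d.2 hzb.symm)
  exact mem_singleton.1 h4

/-- an ordinary label is in no alive domino -/
theorem ord_alive {ω : Fin (N + 1) → Option (G × Bool)} {e : GE N pc}
    (hal : Alv n par G B Z f₀ b Dom pc ω e) {i : Fin ((pc e.1).k + 1)} (hO : (pc e.1).O par G i)
    {z : ℕ} (hzN : z ≤ N) (hz : z ∈ (pc e.1).us n par B Z f₀ ((pc e.1).lab e.2) i) :
    ∀ x : G × Bool,
      ω ⟨z / b, lt_of_le_of_lt ((Nat.div_le_self _ _).trans hzN) (Nat.lt_succ_self N)⟩ = some x →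
        ¬ InD b f₀ Dom x.1 x.2 z := by
  have h1 : (Sum.inl (⟨z, Nat.lt_succ_of_le hzN⟩ : Fin (N + 1)) : GV N np G) ∈
      gS n par G B Z f₀ pc e := mem_gS_l.2 ⟨i, hO, hz⟩
  have h2 := hal _ h1 ⟨z / b, lt_of_le_of_lt ((Nat.div_le_self _ _).trans hzN)
    (Nat.lt_succ_self N)⟩ (gbl_l.2 rfl)
  exact mem_gal.1 h2

theorem clash (hc : PkCfg true g₀ c₁ b γ p₀ C K n N par G B Z Q f₀ Dom mu kr) (hb : 1 ≤ b)
    (h : EnvV n N par B Z Q f₀ C mu kr) (hOK : ∀ p, (pc p).OK par Z)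
    {ω : Fin (N + 1) → Option (G × Bool)} {e e' : GE N pc}
    (hv : (pc e.1).Valid n par B Z Q f₀ ((pc e.1).lab e.2))
    (hcw : (pc e.1).cwv N par mu kr e.2 ≠ 0) (hcw' : (pc e'.1).cwv N par mu kr e'.2 ≠ 0)
    (hal : Alv n par G B Z f₀ b Dom pc ω e) (hal' : Alv n par G B Z f₀ b Dom pc ω e')
    (hdis : Disjoint (gS n par G B Z f₀ pc e) (gS n par G B Z f₀ pc e')) :
    Disjoint ((pc e.1).used n par B Z f₀ ((pc e.1).lab e.2))
      ((pc e'.1).used n par B Z f₀ ((pc e'.1).lab e'.2)) := by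
  classical
  rw [disjoint_left]
  intro z hz hz'
  obtain ⟨i, hi⟩ := mem_used.1 hz
  obtain ⟨i', hi'⟩ := mem_used.1 hz'
  have hzN : z ≤ N := (mem_Icc.1 (h.Q_sub (hv.subQ i hi))).2
  have hInD : ∀ g a, g ∈ G → a ∈ Dom g → (z = a ∨ z = a - f₀ g) → InD b f₀ Dom g (gsg b f₀ g a) z := by
    intro g a hg ha hza
    obtain ⟨-, h2, -⟩ := dom_blk hc hb hg ha
    rcases hza with h3 | h3
    · left
      rw [h3]
      exact ⟨ha, rfl⟩
    · right
      have h4 : z + f₀ g = a := by omega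
      rw [h4]
      exact ⟨ha, rfl⟩
  by_cases hO : (pc e.1).O par G i <;> by_cases hO' : (pc e'.1).O par G i'
  · have h1 : (Sum.inl (⟨z, Nat.lt_succ_of_le hzN⟩ : Fin (N + 1)) : GV N np G) ∈
        gS n par G B Z f₀ pc e := mem_gS_l.2 ⟨i, hO, hi⟩
    have h2 : (Sum.inl (⟨z, Nat.lt_succ_of_le hzN⟩ : Fin (N + 1)) : GV N np G) ∈
        gS n par G B Z f₀ pc e' := mem_gS_l.2 ⟨i', hO', hi'⟩
    exact disjoint_left.1 hdis h1 h2
  · unfold VP.O at hO'
    rw [not_not] at hO'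
    obtain ⟨rfl, ht⟩ := hO'
    obtain ⟨h1, h2, h3, h4⟩ := groot hc hb h hOK hcw' hal' ht hzN hi'
    exact ord_alive hal hO hzN hi _ h4 (hInD _ _ ht h1 h2)
  · unfold VP.O at hO
    rw [not_not] at hO
    obtain ⟨rfl, ht⟩ := hO
    obtain ⟨h1, h2, h3, h4⟩ := groot hc hb h hOK hcw hal ht hzN hi
    exact ord_alive hal' hO' hzN hi' _ h4 (hInD _ _ ht h1 h2)
  · unfold VP.O at hO hO'
    rw [not_not] at hO hO'
    obtain ⟨rfl, ht⟩ := hO
    obtain ⟨rfl, ht'⟩ := hO'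
    obtain ⟨h1, h2, h3, h4⟩ := groot hc hb h hOK hcw hal ht hzN hi
    obtain ⟨h1', h2', h3', h4'⟩ := groot hc hb h hOK hcw' hal' ht' hzN hi'
    rw [h4] at h4'
    have h5 := Option.some_injective _ h4'
    have h6 : par ((pc e.1).emb 0) = par ((pc e'.1).emb 0) := congrArg (fun x => (x.1 : ℕ)) h5
    have h7 : gsg b f₀ (par ((pc e.1).emb 0)) (e.2 0) =
        gsg b f₀ (par ((pc e'.1).emb 0)) (e'.2 0) := congrArg Prod.snd h5
    rw [← h6] at h7 h1' h2'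
    obtain ⟨-, h8, -⟩ := dom_blk hc hb ht h1
    obtain ⟨-, h8', -⟩ := dom_blk hc hb ht h1'
    have h9 : (e.2 0 : ℕ) ≠ (e'.2 0 : ℕ) := by
      intro h9
      have c1 : (Sum.inr (Sum.inl (⟨_, ht⟩, e.2 0)) : GV N np G) ∈ gS n par G B Z f₀ pc e :=
        mem_gS_d.2 ⟨rfl, rfl⟩
      have c2 : (Sum.inr (Sum.inl (⟨_, ht⟩, e.2 0)) : GV N np G) ∈ gS n par G B Z f₀ pc e' :=
        mem_gS_d.2 ⟨h6.symm, Fin.ext h9⟩
      exact disjoint_left.1 hdis c1 c2
    rcases h2 with h2 | h2 <;> rcases h2' with h2' | h2'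
    · exact h9 (h2.symm.trans h2')
    · have h10 := sg_ne hc hb ht h1'
      apply h10
      rw [← h2', h2, h7]
    · have h10 := sg_ne hc hb ht h1
      apply h10
      rw [← h2, h2', h7]
    · omega

/-- few components are not good -/
theorem pg_bad_card (hc : PkCfg true g₀ c₁ b γ p₀ C K n N par G B Z Q f₀ Dom mu kr)
    (hinj : Function.Injective (fun x : (Σ p : Fin np, Fin ((pc p).k + 1)) => (pc x.1).emb x.2))
    (P : Fin np → Prop) [DecidablePred P] (hP : ∀ q, P q → ¬ (pc q).gd par G) :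
    (univ.filter P).card ≤ g₀ := by
  classical
  have h1 : ∀ q : Fin np, ∃ g : ℕ, P q → g ∈ G ∧ ∃ i, par g = (pc q).emb i := by
    intro q
    by_cases hq : P q
    · have h2 := hP q hq
      unfold VP.gd at h2
      push Not at h2
      obtain ⟨i, g, hg, -, h3⟩ := h2
      exact ⟨g, fun _ => ⟨hg, i, h3⟩⟩
    · exact ⟨0, fun h2 => absurd h2 hq⟩
  choose g hg using h1
  refine le_trans (card_le_card_of_injOn g ?_ ?_) hc.G_card
  · intro q hq
    exact (hg q (mem_filter.1 hq).2).1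
  · intro q hq q' hq' hqq
    obtain ⟨-, i, hi⟩ := hg q (mem_filter.1 hq).2
    obtain ⟨-, i', hi'⟩ := hg q' (mem_filter.1 hq').2
    rw [hqq, hi'] at hi
    have h2 : (⟨q', i'⟩ : Σ p : Fin np, Fin ((pc p).k + 1)) = ⟨q, i⟩ := hinj hi
    exact (Sigma.mk.inj h2).1.symm

/-- the expected number of alive cells -/
theorem sum_gpx (h : EnvV n N par B Z Q f₀ C mu kr) (hOK : ∀ p, (pc p).OK par Z)
    (hinj : Function.Injective (fun x : (Σ p : Fin np, Fin ((pc p).k + 1)) => (pc x.1).emb x.2))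
    (hsurj : ∀ v ∈ Z, ∃ p i, (pc p).emb i = v) {q₀ : ℝ} (hq : 0 < q₀)
    (hn : p₀ ≤ gpr G Z par Dom q₀ none) (hp : 0 < p₀) :
    ∑ x : GV N np G, gpx b G Z par f₀ Dom q₀ x ≤ 3 * N + 2 := by
  have hnp : (np : ℝ) ≤ N := by
    have h2 : ∑ _p : Fin np, (1 : ℝ) ≤ ∑ p, (((pc p).k : ℝ) + 1) := sum_le_sum fun p _ => by
      have : (0 : ℝ) ≤ ((pc p).k : ℝ) := Nat.cast_nonneg _
      linarith
    rw [sum_const, card_univ, Fintype.card_fin, nsmul_eq_mul, mul_one] at h2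
    exact h2.trans (sum_k_le h hOK hinj hsurj)
  rw [Fintype.sum_sum_type, Fintype.sum_sum_type]
  have h1 : ∑ z : Fin (N + 1), gpx b G Z par f₀ Dom q₀ (Sum.inl z : GV N np G) ≤ N + 1 := by
    have h2 : ∀ z : Fin (N + 1), gpx b G Z par f₀ Dom q₀ (Sum.inl z : GV N np G) ≤ 1 := by
      intro z
      rw [← gpr_sum (G := G) (Z := Z) (par := par) (Dom := Dom) q₀]
      exact sum_le_sum_of_subset_of_nonneg (subset_univ _)
        (fun t _ _ => gpr_nn hq.le (hp.le.trans hn) t)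
    refine (sum_le_sum fun z _ => h2 z).trans (le_of_eq ?_)
    rw [sum_const, card_univ, Fintype.card_fin, nsmul_eq_mul]
    push_cast
    ring
  have h2 : ∑ x : G × Fin (N + 1), gpx b G Z par f₀ Dom q₀ (Sum.inr (Sum.inl x) : GV N np G) ≤
      N + 1 := by
    rw [Fintype.sum_prod_type]
    have h3 : ∀ g : G, ∑ y : Fin (N + 1),
        gpx b G Z par f₀ Dom q₀ (Sum.inr (Sum.inl (g, y)) : GV N np G) =
        ((N : ℝ) + 1) * gqq Z par Dom q₀ (g : ℕ) := by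
      intro g
      have e0 : ∀ y : Fin (N + 1),
          gpx b G Z par f₀ Dom q₀ (Sum.inr (Sum.inl (g, y)) : GV N np G) =
            gqq Z par Dom q₀ (g : ℕ) := fun y => gpx_d q₀ (g, y)
      rw [sum_congr rfl fun y _ => e0 y, sum_const, card_univ, Fintype.card_fin,
        nsmul_eq_mul]
      push_cast
      rfl
    rw [sum_congr rfl fun g _ => h3 g, ← mul_sum, sum_coe_sort G (fun g => gqq Z par Dom q₀ g)]
    have h4 : ∑ g ∈ G, gqq Z par Dom q₀ g ≤ 1 := by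
      have h5 : p₀ ≤ 1 - ∑ g ∈ G, 2 * gqq Z par Dom q₀ g := hn
      rw [← mul_sum] at h5
      have h6 : 0 ≤ ∑ g ∈ G, gqq Z par Dom q₀ g :=
        sum_nonneg fun g _ => hq.le.trans (gqq_ge q₀ g).1
      linarith
    have h5 : (0 : ℝ) ≤ (N : ℝ) + 1 := by positivity
    calc ((N : ℝ) + 1) * ∑ g ∈ G, gqq Z par Dom q₀ g ≤ ((N : ℝ) + 1) * 1 :=
          mul_le_mul_of_nonneg_left h4 h5
      _ = N + 1 := mul_one _
  have h3 : ∑ q : Fin np, gpx b G Z par f₀ Dom q₀ (Sum.inr (Sum.inr q) : GV N np G) ≤ N := by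
    rw [sum_congr rfl fun q _ => gpx_c q₀ q, sum_const, card_univ, Fintype.card_fin,
      nsmul_eq_mul, mul_one]
    exact hnp
  linarith

theorem pkg_main (hc : PkCfg true g₀ c₁ b γ p₀ C K n N par G B Z Q f₀ Dom mu kr) (hb : 1 ≤ b)
    (hγ : 0 ≤ γ) (h : EnvV n N par B Z Q f₀ C mu kr) (hOK : ∀ p, (pc p).OK par Z)
    (hinj : Function.Injective (fun x : (Σ p : Fin np, Fin ((pc p).k + 1)) => (pc x.1).emb x.2))
    (hsurj : ∀ v ∈ Z, ∃ p i, (pc p).emb i = v) (hK : ∀ p, (pc p).k + 1 ≤ K) {q₀ : ℝ}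
    (hq : 0 < q₀) (hq1 : q₀ ≤ 1)
    (hn : p₀ ≤ gpr G Z par Dom q₀ none) (hp : 0 < p₀) (hp1 : p₀ ≤ 1) {κ κ₁ μ : ℝ} (hκ0 : 0 < κ)
    (hκ1 : κ ≤ 1) (hκκ : κ ≤ κ₁) (hμ : 0 < μ) (hnib : SpN (3 * K + 1) μ κ₁)
    (hq2 : 2 * g₀ * q₀ ≤ κ / 4 * p₀)
    (b1 : (K : ℝ) * (3 * ((C + 1) / N)) +
        (K : ℝ) ^ 2 * (N * ((5 * ((C + 1) / N)) * (5 * ((C + 1) / N)))) +
      ((K : ℝ) * ((9 * b : ℝ) * ((C + 1) / N)) +
        (K : ℝ) ^ 2 * (N * ((5 * ((C + 1) / N)) * ((5 * b : ℝ) * ((C + 1) / N))))) ≤ κ / 4)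
    (b2 : 1 / p₀ ^ (3 * K) / q₀ * (((25 * K + 12) * b) * (N * ((C + 1) / N * ((C + 1) / N)))) +
        (1 / p₀ ^ (3 * K) * (2 * ((C + 1) / N) * (2 * (b * √N) + 2 * (γ * N))) +
          1 / p₀ ^ (3 * K) / q₀ * (2 * ((C + 1) / N) * (2 * b))) ≤ κ)
    (b3 : 1 / p₀ ^ (3 * K) / q₀ *
      (K * (N * ((5 * ((C + 1) / N)) * ((5 * b : ℝ) * ((C + 1) / N))))) ≤ κ)
    (b4 : 1 / p₀ ^ (3 * K) / q₀ * (K * ((5 * b : ℝ) * ((C + 1) / N))) ≤ κ) :
      ∃ (M : Finset (Fin np)) (φ : (p : Fin np) → Fin ((pc p).k + 1) → ℕ),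
        (∀ p ∈ M, (pc p).Valid n par B Z Q f₀ (φ p)) ∧
        (∀ p ∈ M, ∀ q ∈ M, p ≠ q →
          Disjoint ((pc p).used n par B Z f₀ (φ p)) ((pc q).used n par B Z f₀ (φ q))) ∧
        ((univ \ M).card : ℝ) ≤ μ * (3 * N + 2) + g₀ := by
  classical
  have hwnn : ∀ e : GE N pc, 0 ≤ gwt n par G B Z Q f₀ b pc mu kr κ e :=
    fun e => gwt_nn h hOK hκ1 e
  have hWnn : ∀ e : GE N pc, 0 ≤ gwt n par G B Z Q f₀ b pc mu kr κ e /
      ∏ x ∈ gS n par G B Z f₀ pc e, gpx b G Z par f₀ Dom q₀ x := fun e =>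
    div_nonneg (hwnn e) (prod_nonneg fun x _ => (gpx_pos hq hn hp x).le)
  have hwok : ∀ e : GE N pc, gwt n par G B Z Q f₀ b pc mu kr κ e ≠ 0 →
      GOK n par G B Z Q f₀ b pc e ∧ (pc e.1).cwv N par mu kr e.2 ≠ 0 := by
    intro e he
    unfold gwt at he
    by_cases hok : GOK n par G B Z Q f₀ b pc e
    · rw [if_pos hok] at he
      exact ⟨hok, right_ne_zero_of_mul he⟩
    · rw [if_neg hok] at he
      exact absurd rfl he
  have hblk : ∀ (x : GV N np G) (j : Fin (N + 1)), gbl b x ≠ some j →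
      ∑ e : GE N pc with (x ∈ gS n par G B Z f₀ pc e ∧
        ∃ y ∈ gS n par G B Z f₀ pc e, gbl b y = some j),
      gwt n par G B Z Q f₀ b pc mu kr κ e /
        ∏ x ∈ gS n par G B Z f₀ pc e, gpx b G Z par f₀ Dom q₀ x ≤ κ := by
    intro x j hj
    rcases x with z | x | q
    · refine le_trans (le_of_eq ?_)
        ((cod_l hc hb hγ h hOK hinj hsurj hK hq hq1 hn hp hp1 hκ0.le hκ1 z j hj).trans b2)
      exact sum_congr (filter_congr_decidable _ _ _) fun _ _ => rfl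
    · exact (cod_d hc hb h hOK hinj hsurj hK hq hq1 hn hp hp1 hκ0.le hκ1 x j hj).trans b3
    · exact (cod_c hc hb h hOK hK hq hq1 hn hp hp1 hκ0.le hκ1 q j).trans b4
  obtain ⟨ω, M₀, H1, H2, H3, H4⟩ := hnib (GV N np G) (GE N pc) (Fin (N + 1)) (Option (G × Bool))
    (gS n par G B Z f₀ pc) (gwt n par G B Z Q f₀ b pc mu kr κ)
    ((univ.filter (fun q : Fin np => (pc q).gd par G)).image (fun q => Sum.inr (Sum.inr q)))
    (gbl b) (gav b f₀ Dom) (gpr G Z par Dom q₀)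
    (gS_card hc hOK hK) gS_nonempty hwnn (gpr_nn hq.le (hp.le.trans hn)) (gpr_sum q₀)
    (gpx_pos hq hn hp)
    (fun x hx => by
      rcases x with z | x | q
      · exact absurd hx (by simp [gbl])
      · exact absurd hx (by simp [gbl])
      · rfl)
    (fun e he => (hwok e he.ne').1.2.2)
    (fun x => by
      rcases x with z | x | q
      · exact deg_l hc h hOK hinj hsurj hq hn hp hκ0.le hκ1 hq2 z
      · exact deg_d hc h hOK hinj hsurj hq hκ0.le hκ1 x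
      · rw [deg_c]
        refine (deg_c_le h hOK hκ0.le q).trans (le_of_eq ?_)
        exact (gpx_c (b := b) (f₀ := f₀) (N := N) (G := G) (Z := Z) (par := par) (Dom := Dom)
          q₀ q).symm)
    (fun x hx => by
      obtain ⟨q, hq', rfl⟩ := mem_image.1 hx
      refine ⟨rfl, ?_⟩
      rw [deg_c]
      have h1 := deg_c_ge hc hb h hOK hK hκ0.le hκ1 b1 (mem_filter.1 hq').2
      linarith)
    (fun x y hxy => by
      refine le_trans ?_ hκκ
      by_cases hbl : gbl b x = gbl b y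
      · refine le_trans (le_of_eq (sum_eq_zero fun e he => ?_)) hκ0.le
        obtain ⟨-, hx, hy⟩ := mem_filter.1 he
        by_cases hw : gwt n par G B Z Q f₀ b pc mu kr κ e = 0
        · rw [hw, zero_div]
        · exfalso
          have h1 := (hwok e hw).1.2.2 x hx y hy hxy hbl
          rw [h1] at hbl
          rcases x with z | x | q
          · exact absurd h1 (by simp [gbl])
          · exact absurd h1 (by simp [gbl])
          · rcases y with z' | y | q'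
            · exact absurd hbl.symm (by simp [gbl])
            · exact absurd hbl.symm (by simp [gbl])
            · rw [mem_gS_c] at hx hy
              exact hxy (by rw [hx, hy])
      · by_cases hy : ∃ j, gbl b y = some j
        · obtain ⟨j, hj⟩ := hy
          refine le_trans (sum_le_sum_of_subset_of_nonneg ?_ fun e _ _ => hWnn e)
            (hblk x j (fun h1 => hbl (h1.trans hj.symm)))
          intro e he
          obtain ⟨h1, h2, h3⟩ := mem_filter.1 he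
          exact mem_filter.2 ⟨h1, h2, y, h3, hj⟩
        · have hyn : gbl b y = none := by
            by_contra h1
            exact hy (Option.ne_none_iff_exists'.1 h1)
          obtain ⟨j, hj⟩ : ∃ j, gbl b x = some j :=
            Option.ne_none_iff_exists'.1 (fun h1 => hbl (h1.trans hyn.symm))
          refine le_trans (sum_le_sum_of_subset_of_nonneg ?_ fun e _ _ => hWnn e)
            (hblk y j (fun h1 => by rw [hyn] at h1; exact absurd h1 (by simp)))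
          intro e he
          obtain ⟨h1, h2, h3⟩ := mem_filter.1 he
          exact mem_filter.2 ⟨h1, h3, x, h2, hj⟩)
    (fun x j hj => by
      refine le_trans (le_of_eq ?_) ((hblk x j hj).trans hκκ)
      exact sum_congr (filter_congr_decidable _ _ _) fun _ _ => rfl)
  have hM₀ : ∀ e ∈ M₀, GOK n par G B Z Q f₀ b pc e ∧ (pc e.1).cwv N par mu kr e.2 ≠ 0 :=
    fun e he => hwok e (H1 e he).ne'
  let Mf : Finset (Fin np) := M₀.image Sigma.fst
  let φf : (p : Fin np) → Fin ((pc p).k + 1) → ℕ := fun p =>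
    if hh : ∃ φ : Fin ((pc p).k + 1) → Fin (N + 1), (⟨p, φ⟩ : GE N pc) ∈ M₀ then
      (pc p).lab hh.choose else fun _ => 0
  have hφ : ∀ p ∈ Mf, ∃ φ : Fin ((pc p).k + 1) → Fin (N + 1), (⟨p, φ⟩ : GE N pc) ∈ M₀ ∧
      φf p = (pc p).lab φ := by
    intro p hpM
    obtain ⟨e, he', rfl⟩ := mem_image.1 hpM
    have hh : ∃ φ : Fin ((pc e.1).k + 1) → Fin (N + 1), (⟨e.1, φ⟩ : GE N pc) ∈ M₀ := ⟨e.2, he'⟩
    exact ⟨hh.choose, hh.choose_spec, dif_pos hh⟩
  refine ⟨Mf, φf, ?_, ?_, ?_⟩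
  · intro p hpM
    obtain ⟨φ, h1, h2⟩ := hφ p hpM
    rw [h2]
    exact (hM₀ _ h1).1.2.1
  · intro p hpM q hqM hpq
    obtain ⟨φ, h1, h2⟩ := hφ p hpM
    obtain ⟨φ', h1', h2'⟩ := hφ q hqM
    rw [h2, h2']
    have h4 : (⟨p, φ⟩ : GE N pc) ≠ (⟨q, φ'⟩ : GE N pc) := fun hh => hpq (Sigma.mk.inj hh).1
    have a1 := (hM₀ (⟨p, φ⟩ : GE N pc) h1).1.2.1
    have a2 := (hM₀ (⟨p, φ⟩ : GE N pc) h1).2
    have a3 := (hM₀ (⟨q, φ'⟩ : GE N pc) h1').2
    have a4 : Alv n par G B Z f₀ b Dom pc ω (⟨p, φ⟩ : GE N pc) := H2 (⟨p, φ⟩ : GE N pc) h1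
    have a5 : Alv n par G B Z f₀ b Dom pc ω (⟨q, φ'⟩ : GE N pc) := H2 (⟨q, φ'⟩ : GE N pc) h1'
    have a6 := H3 (⟨p, φ⟩ : GE N pc) h1 (⟨q, φ'⟩ : GE N pc) h1' h4
    exact clash (e := (⟨p, φ⟩ : GE N pc)) (e' := (⟨q, φ'⟩ : GE N pc)) hc hb h hOK a1 a2 a3 a4 a5 a6
  · have h1 : (univ \ Mf).card ≤
        (((univ.filter (fun q : Fin np => (pc q).gd par G)).image
          (fun q => (Sum.inr (Sum.inr q) : GV N np G))).filter
            (fun v => ∀ e ∈ M₀, v ∉ gS n par G B Z f₀ pc e)).card +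
        (univ.filter (fun q : Fin np => ¬ (pc q).gd par G)).card := by
      have h2 : univ \ Mf ⊆ ((univ \ Mf).filter (fun q => (pc q).gd par G)) ∪
          (univ.filter (fun q : Fin np => ¬ (pc q).gd par G)) := by
        intro q hq'
        rw [mem_union, mem_filter, mem_filter]
        by_cases hgd : (pc q).gd par G
        · exact Or.inl ⟨hq', hgd⟩
        · exact Or.inr ⟨mem_univ _, hgd⟩
      refine (card_le_card h2).trans ((card_union_le _ _).trans (Nat.add_le_add_right ?_ _))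
      refine card_le_card_of_injOn (fun q => (Sum.inr (Sum.inr q) : GV N np G)) ?_ ?_
      · intro q hq'
        obtain ⟨h3, h4⟩ := mem_filter.1 (mem_coe.1 hq')
        have h5 : q ∉ Mf := (mem_sdiff.1 h3).2
        refine mem_coe.2 (mem_filter.2 ⟨mem_image.2 ⟨q, mem_filter.2 ⟨mem_univ _, h4⟩, rfl⟩,
          fun e he' hqe => h5 ?_⟩)
        rw [mem_gS_c] at hqe
        exact mem_image.2 ⟨e, he', hqe.symm⟩
      · intro a _ a' _ hab
        exact Sum.inr_injective (Sum.inr_injective hab)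
    have h2 := pg_bad_card hc hinj (fun q => ¬ (pc q).gd par G) (fun q hq' => hq')
    have h3 : ((univ \ Mf).card : ℝ) ≤
        ((((univ.filter (fun q : Fin np => (pc q).gd par G)).image
          (fun q => (Sum.inr (Sum.inr q) : GV N np G))).filter
            (fun v => ∀ e ∈ M₀, v ∉ gS n par G B Z f₀ pc e)).card : ℝ) + g₀ := by
      exact_mod_cast h1.trans (Nat.add_le_add_left h2 _)
    have h4 := sum_gpx (b := b) (f₀ := f₀) h hOK hinj hsurj hq hn hp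
    have h5 := mul_le_mul_of_nonneg_left h4 hμ.le
    have h6 : μ * ∑ x : GV N np G, gpx b G Z par f₀ Dom q₀ x =
        μ * ∑ x : GV N np G, ∑ t ∈ gav b f₀ Dom x, gpr G Z par Dom q₀ t := rfl
    rw [h6] at h5
    refine h3.trans (add_le_add (le_trans (le_of_eq ?_) (H4.trans h5)) le_rfl)
    exact congrArg (fun s : Finset (GV N np G) => (s.card : ℝ))
      (Finset.ext fun v => by simp only [mem_filter, mem_image])

end SSB
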