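import Pool.Agent.Lib.MP_8a819d_co.BD.Nib

/-!
# MP_8a819d_co, trees with many non-leaves: the nibble after a random sparsification

JOB SpNib (all of this file; may be split).

`V` vertices, `E` hyperedges with weights `w`. Some vertices belong to a block (`bl x = some j`); every block `j` gets an independent random
type `ω j` with the law `p`; the vertex `x` of the block `j` is alive if `ω j ∈ al x`, which has the probability `px x = ∑ t ∈ al x, p t > 0`. (Vertices
without block: `al x = univ`, `px x = 1`, always alive.) The vertices with a block of a hyperedge with positive weight are in different blocks. If the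
degrees of `w` are at most `px x`, at least `1 - κ` for `x ∈ V0`, and the codegrees and block codegrees of `W e = w e / ∏ x ∈ S e, px x` are
at most `κ`, then for some choice of the types there is a matching of alive hyperedges covering all of `V0` except `μ Λ`
vertices, `Λ = ∑ x, px x` (= expected number of alive vertices).

PROOF. Let `κ₀ ≤ 1` be given by `nibble k (μ/16)`, `τ = κ₀/8`, `κ = min (κ₀/8) (μ τ^3/(64 (k+1)^2))`. `Pr ω = ∏ j, p (ω j)` (sum `1`).
`alive e ω`: all `x ∈ S e` are alive. Product formula: for functions `h j` of the type, `∑ ω, Pr ω ∏ j, h j (ω j) = ∏ j, ∑ t, p t h j t`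
(`Finset.prod_univ_sum`, `Fintype.piFinset_univ`). Hence `P(alive e) = π e := ∏ x ∈ S e, px x` if `w e > 0` (different blocks), and for `e, e' ∋ x` with
no common block except that of `x`: `P(alive e, alive e') = π e π e'/px x` (the block of `x` occurs once; the other vertices of `e`
and `e'` with blocks are in different blocks or are the same.. [a common vertex `y ≠ x` with a block gives a common block]; vertices without
block have `px = 1`). Always `P(alive e, alive e') ≤ P(alive e)`.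
`X x ω = ∑ e ∋ x, W e [alive e ω]`, `a x = (∑ e ∋ x, w e)/px x ≤ 1`, `E X x = a x px x`. Let `Δ x = X x - a x 1_{x alive}`. As `X x = 0` if `x` is not alive:
`E Δ² = E X² - a² px`. `E X² = ∑ e e' ∋ x, W e W e' P(both alive) ≤ ∑ (no other common block) W e W e' π e π e'/px
+ ∑ (another common block) W e W e' π e ≤ (a px)²/px + ∑ e ∋ x, w e ∑ y ∈ S e, bl y = some j, bl x ≠ some j, (∑ e' ∋ x with a vertex in block j, W e')
≤ a² px + k κ px` (as `∑ e ∋ x, w e ≤ px`). So `E (Δ x)² ≤ k κ px x`.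
`Bad x`: `X x > 1 + τ`. Then `|Δ x| > τ` and `X x ≤ 1 + |Δ x| ≤ Δ² (1/τ² + 1/τ) ≤ 2 Δ²/τ²`; so `E (X x 1_{Bad x}) ≤ 2 k κ px/τ²`.
For `x ∈ V0` (no block; `a x ≥ 1 - κ`): `Low x`: `X x < 1 - κ - τ`: `|Δ x| > τ`, `P ≤ k κ/τ²`. `Bad x`: `P ≤ k κ/τ²`. `Lost x = ∑ e ∋ x, alive, with some bad
vertex, W e`: `∑ x ∈ V0, Lost x ≤ k ∑ y, X y 1_{Bad y}`, expectation `≤ 2 k² κ Λ/τ²`; so the expected number of `x ∈ V0` with `Lost x > τ` is
`≤ 2 k² κ Λ/τ³`. Let `Y ω` be the number of `x ∈ V0` which are low, bad, or have `Lost x > τ`: `E Y ≤ 4 (k+1)² κ Λ/τ³ ≤ (μ/16) Λ`. The number `Z ω` of alive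
vertices has `E Z = Λ`. So `E (Y/((μ/16)Λ) + Z/Λ) ≤ 2` and there is `ω` with `Y ω ≤ (μ/4) Λ`, `Z ω ≤ 4 Λ`. Fix it. Use `nibble` for the type of the alive vertices
and the type of the hyperedges which are alive, with `w' e = W e/(1+τ)` if `w e > 0` and `e` has no bad vertex, `0` otherwise. Degrees `≤ 1`; for
the remaining `x ∈ V0`: `≥ (1 - κ - 2 τ)/(1 + τ) ≥ 1 - κ₀`; codegrees `≤ κ ≤ κ₀`. `nibble` leaves at most `(μ/16) 4 Λ` of these uncovered. Total `≤ μ Λ`.
(If `Λ = 0` there are no vertices.)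
-/

set_option autoImplicit false

namespace SSB

open Finset

/-! ### independent types -/

set_option linter.unusedSectionVars false

section SpN

variable {V E J Ty : Type} [Fintype V] [Fintype E] [Fintype J] [Fintype Ty] [DecidableEq V]
  [DecidableEq E] [DecidableEq J] [DecidableEq Ty]

/-- the vertex `x` is alive -/
private def spAl (bl : V → Option J) (al : V → Finset Ty) (ω : J → Ty) (x : V) : Prop :=
  ∀ j, bl x = some j → ω j ∈ al x

private instance spAlDec (bl : V → Option J) (al : V → Finset Ty) (ω : J → Ty) (x : V) :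
    Decidable (spAl bl al ω x) := by
  unfold spAl
  infer_instance

private noncomputable def spPr (p : Ty → ℝ) (ω : J → Ty) : ℝ := ∏ j, p (ω j)

/-- all vertices of `A` are alive -/
private noncomputable def spInd (bl : V → Option J) (al : V → Finset Ty) (A : Finset V)
    (ω : J → Ty) : ℝ := if ∀ x ∈ A, spAl bl al ω x then 1 else 0

private noncomputable def spP (bl : V → Option J) (al : V → Finset Ty) (p : Ty → ℝ)
    (A : Finset V) : ℝ := ∑ ω : J → Ty, spPr p ω * spInd bl al A ω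

private noncomputable def spG (bl : V → Option J) (al : V → Finset Ty) (p : Ty → ℝ)
    (A : Finset V) (j : J) : ℝ := ∑ t, p t * (if ∀ x ∈ A, bl x = some j → t ∈ al x then 1 else 0)

private theorem sp_prod (bl : V → Option J) (al : V → Finset Ty) (p : Ty → ℝ) (A : Finset V) :
    spP bl al p A = ∏ j, spG bl al p A j := by
  unfold spP spG
  rw [Finset.prod_univ_sum, Fintype.piFinset_univ]
  refine Finset.sum_congr rfl fun ω _ => ?_
  rw [Finset.prod_mul_distrib, Finset.prod_ite_zero]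
  unfold spPr spInd
  congr 1
  rw [Finset.prod_const_one]
  by_cases h : ∀ x ∈ A, spAl bl al ω x
  · rw [if_pos h, if_pos (fun j _ x hx hj => h x hx j hj)]
  · rw [if_neg h, if_neg (fun h' => h (fun x hx j hj => h' j (mem_univ _) x hx hj))]

private theorem sp_pr_nn {p : Ty → ℝ} (hp : ∀ t, 0 ≤ p t) (ω : J → Ty) : 0 ≤ spPr p ω :=
  Finset.prod_nonneg fun _ _ => hp _

private theorem sp_ind_nn (bl : V → Option J) (al : V → Finset Ty) (A : Finset V) (ω : J → Ty) :
    0 ≤ spInd bl al A ω := by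
  unfold spInd
  split_ifs <;> norm_num

private theorem sp_ind_anti (bl : V → Option J) (al : V → Finset Ty) {A B : Finset V} (h : A ⊆ B)
    (ω : J → Ty) : spInd bl al B ω ≤ spInd bl al A ω := by
  unfold spInd
  by_cases hB : ∀ x ∈ B, spAl bl al ω x
  · rw [if_pos hB, if_pos (fun x hx => hB x (h hx))]
  · rw [if_neg hB]
    split_ifs <;> norm_num

private theorem sp_ind_mul (bl : V → Option J) (al : V → Finset Ty) (A B : Finset V) (ω : J → Ty) :
    spInd bl al A ω * spInd bl al B ω = spInd bl al (A ∪ B) ω := by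
  unfold spInd
  by_cases hA : ∀ x ∈ A, spAl bl al ω x
  · by_cases hB : ∀ x ∈ B, spAl bl al ω x
    · have hU : ∀ x ∈ A ∪ B, spAl bl al ω x := by
        intro x hx
        rcases mem_union.1 hx with hx | hx
        · exact hA x hx
        · exact hB x hx
      rw [if_pos hA, if_pos hB, if_pos hU, one_mul]
    · have hU : ¬ ∀ x ∈ A ∪ B, spAl bl al ω x :=
        fun h => hB (fun x hx => h x (mem_union_right _ hx))
      rw [if_neg hB, if_neg hU, mul_zero]
  · have hU : ¬ ∀ x ∈ A ∪ B, spAl bl al ω x :=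
      fun h => hA (fun x hx => h x (mem_union_left _ hx))
    rw [if_neg hA, if_neg hU, zero_mul]

private theorem sp_anti {bl : V → Option J} {al : V → Finset Ty} {p : Ty → ℝ} (hp : ∀ t, 0 ≤ p t)
    {A B : Finset V} (h : A ⊆ B) : spP bl al p B ≤ spP bl al p A :=
  Finset.sum_le_sum fun ω _ => mul_le_mul_of_nonneg_left (sp_ind_anti bl al h ω) (sp_pr_nn hp ω)

private theorem sp_empty {bl : V → Option J} {al : V → Finset Ty} {p : Ty → ℝ}
    (hp1 : ∑ t, p t = 1) : spP bl al p ∅ = 1 := by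
  rw [sp_prod]
  refine Finset.prod_eq_one fun j _ => ?_
  unfold spG
  refine (Finset.sum_congr rfl fun t _ => ?_).trans hp1
  rw [if_pos (fun x hx => absurd hx (notMem_empty x)), mul_one]

private theorem sp_pr_sum {p : Ty → ℝ} (hp1 : ∑ t, p t = 1) : ∑ ω : J → Ty, spPr p ω = 1 := by
  have h := sp_empty (V := Unit) (bl := fun _ => none) (al := fun _ => univ) (J := J) hp1
  unfold spP at h
  rw [← h]
  refine Finset.sum_congr rfl fun ω _ => ?_
  unfold spInd
  rw [if_pos (fun x hx => absurd hx (notMem_empty x)), mul_one]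

private theorem sp_insert {bl : V → Option J} {al : V → Finset Ty} {p : Ty → ℝ}
    (hp1 : ∑ t, p t = 1) (hnone : ∀ x, bl x = none → al x = univ) {A : Finset V} {x : V}
    (hx : ∀ y ∈ A, bl x = bl y → bl x = none) :
    spP bl al p (insert x A) = (∑ t ∈ al x, p t) * spP bl al p A := by
  cases hb : bl x with
  | none =>
    rw [hnone x hb, hp1, one_mul]
    unfold spP
    refine Finset.sum_congr rfl fun ω _ => ?_
    congr 1
    unfold spInd
    by_cases hA : ∀ x ∈ A, spAl bl al ω x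
    · rw [if_pos hA, if_pos]
      intro y hy
      rcases mem_insert.1 hy with rfl | hy
      · intro j hj
        rw [hb] at hj
        exact absurd hj (by simp)
      · exact hA y hy
    · rw [if_neg hA, if_neg (fun h => hA (fun y hy => h y (mem_insert_of_mem hy)))]
  | some j₀ =>
    rw [sp_prod, sp_prod, ← Finset.mul_prod_erase univ _ (mem_univ j₀),
      ← Finset.mul_prod_erase univ (spG bl al p A) (mem_univ j₀)]
    have h1 : spG bl al p A j₀ = 1 := by
      unfold spG
      refine (Finset.sum_congr rfl fun t _ => ?_).trans hp1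
      rw [if_pos, mul_one]
      intro y hy hy'
      have h2 := hx y hy (by rw [hb, hy'])
      rw [hb] at h2
      exact absurd h2 (by simp)
    have h2 : spG bl al p (insert x A) j₀ = ∑ t ∈ al x, p t := by
      unfold spG
      rw [← Finset.sum_filter_add_sum_filter_not univ (fun t => t ∈ al x)]
      have h3 : ∑ t with t ∉ al x, p t *
          (if ∀ y ∈ insert x A, bl y = some j₀ → t ∈ al y then (1 : ℝ) else 0) = 0 := by
        refine Finset.sum_eq_zero fun t ht => ?_
        rw [if_neg, mul_zero]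
        intro h
        exact (mem_filter.1 ht).2 (h x (mem_insert_self _ _) hb)
      rw [h3, add_zero]
      have h4 : univ.filter (fun t => t ∈ al x) = al x := by
        ext t
        simp
      rw [h4]
      refine Finset.sum_congr rfl fun t ht => ?_
      rw [if_pos, mul_one]
      intro y hy hy'
      rcases mem_insert.1 hy with rfl | hy
      · exact ht
      · have h5 := hx y hy (by rw [hb, hy'])
        rw [hb] at h5
        exact absurd h5 (by simp)
    rw [h1, h2, one_mul]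
    congr 1
    refine Finset.prod_congr rfl fun j hj => ?_
    have hj' := (mem_erase.1 hj).1
    unfold spG
    refine Finset.sum_congr rfl fun t _ => ?_
    congr 1
    by_cases hA : ∀ y ∈ A, bl y = some j → t ∈ al y
    · rw [if_pos hA, if_pos]
      intro y hy hy'
      rcases mem_insert.1 hy with rfl | hy
      · rw [hb] at hy'
        exact absurd (Option.some.inj hy').symm hj'
      · exact hA y hy hy'
    · rw [if_neg hA, if_neg (fun h => hA (fun y hy => h y (mem_insert_of_mem hy)))]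

private theorem sp_indep {bl : V → Option J} {al : V → Finset Ty} {p : Ty → ℝ}
    (hp1 : ∑ t, p t = 1) (hnone : ∀ x, bl x = none → al x = univ) {A : Finset V}
    (hA : ∀ x ∈ A, ∀ y ∈ A, x ≠ y → bl x = bl y → bl x = none) :
    spP bl al p A = ∏ x ∈ A, ∑ t ∈ al x, p t := by
  induction A using Finset.induction_on with
  | empty => rw [sp_empty hp1, Finset.prod_empty]
  | insert x A hxA ih =>
    rw [Finset.prod_insert hxA, sp_insert hp1 hnone, ih]
    · intro y hy z hz
      exact hA y (mem_insert_of_mem hy) z (mem_insert_of_mem hz)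
    · intro y hy
      refine hA x (mem_insert_self _ _) y (mem_insert_of_mem hy) ?_
      rintro rfl
      exact hxA hy

/-! ### second moments -/

private structure SpH (k : ℕ) (κ : ℝ) (S : E → Finset V) (w : E → ℝ) (bl : V → Option J)
    (al : V → Finset Ty) (p : Ty → ℝ) : Prop where
  hk : ∀ e, (S e).card ≤ k
  hw : ∀ e, 0 ≤ w e
  hp : ∀ t, 0 ≤ p t
  hp1 : ∑ t, p t = 1
  hpx : ∀ x, 0 < ∑ t ∈ al x, p t
  hnone : ∀ x, bl x = none → al x = univ
  hdiff : ∀ e, 0 < w e → ∀ x ∈ S e, ∀ y ∈ S e, x ≠ y → bl x = bl y → bl x = none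
  hdeg : ∀ x, ∑ e with x ∈ S e, w e ≤ ∑ t ∈ al x, p t
  hblk : ∀ x j, bl x ≠ some j → ∑ e with (x ∈ S e ∧ ∃ y ∈ S e, bl y = some j),
    w e / ∏ z ∈ S e, ∑ t ∈ al z, p t ≤ κ
  hκ : 0 ≤ κ

/-- `W e` -/
private noncomputable def spW (S : E → Finset V) (w : E → ℝ) (al : V → Finset Ty) (p : Ty → ℝ)
    (e : E) : ℝ := w e / ∏ z ∈ S e, ∑ t ∈ al z, p t

/-- `X x ω` -/
private noncomputable def spX (S : E → Finset V) (w : E → ℝ) (bl : V → Option J)
    (al : V → Finset Ty) (p : Ty → ℝ) (x : V) (ω : J → Ty) : ℝ :=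
  ∑ e with x ∈ S e, spW S w al p e * spInd bl al (S e) ω

variable {k : ℕ} {κ : ℝ} {S : E → Finset V} {w : E → ℝ} {bl : V → Option J} {al : V → Finset Ty}
  {p : Ty → ℝ}

private theorem sp_pi_pos (h : SpH k κ S w bl al p) (e : E) :
    0 < ∏ z ∈ S e, ∑ t ∈ al z, p t := Finset.prod_pos fun z _ => h.hpx z

private theorem sp_W_nn (h : SpH k κ S w bl al p) (e : E) : 0 ≤ spW S w al p e :=
  div_nonneg (h.hw e) (sp_pi_pos h e).le

private theorem sp_X_nn (h : SpH k κ S w bl al p) (x : V) (ω : J → Ty) :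
    0 ≤ spX S w bl al p x ω :=
  Finset.sum_nonneg fun e _ => mul_nonneg (sp_W_nn h e) (sp_ind_nn bl al _ ω)

private theorem sp_WP (h : SpH k κ S w bl al p) (e : E) :
    spW S w al p e * spP bl al p (S e) = w e := by
  rcases (h.hw e).eq_or_lt with h0 | h0
  · unfold spW
    rw [← h0, zero_div, zero_mul]
  · rw [sp_indep h.hp1 h.hnone (h.hdiff e h0)]
    unfold spW
    exact div_mul_cancel₀ _ (sp_pi_pos h e).ne'

/-- expectation of `X x` -/
private theorem sp_EX (h : SpH k κ S w bl al p) (x : V) :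
    ∑ ω : J → Ty, spPr p ω * spX S w bl al p x ω = ∑ e with x ∈ S e, w e := by
  unfold spX
  simp only [Finset.mul_sum]
  rw [Finset.sum_comm]
  refine Finset.sum_congr rfl fun e _ => ?_
  rw [← sp_WP h e]
  unfold spP
  rw [Finset.mul_sum]
  refine Finset.sum_congr rfl fun ω _ => ?_
  ring

/-- the edges `e`, `e'` have a common block, different from that of `x` -/
private def spC (S : E → Finset V) (bl : V → Option J) (x : V) (e e' : E) : Prop :=
  ∃ y ∈ S e, ∃ j, bl y = some j ∧ bl x ≠ some j ∧ ∃ y' ∈ S e', bl y' = some j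

private instance spCDec (S : E → Finset V) (bl : V → Option J) (x : V) (e e' : E) :
    Decidable (spC S bl x e e') := by
  unfold spC
  infer_instance

private theorem sp_pair (h : SpH k κ S w bl al p) {x : V} {e e' : E} (he : x ∈ S e)
    (he' : x ∈ S e') :
    spW S w al p e * spW S w al p e' * spP bl al p (S e ∪ S e') ≤
      w e * w e' / (∑ t ∈ al x, p t) + (if spC S bl x e e' then w e * spW S w al p e' else 0) := by
  have hx := h.hpx x
  have hW := sp_W_nn h e
  have hW' := sp_W_nn h e'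
  have hw := h.hw e
  have hw' := h.hw e'
  have h1 : 0 ≤ w e * w e' / (∑ t ∈ al x, p t) := by positivity
  have h2 : 0 ≤ (if spC S bl x e e' then w e * spW S w al p e' else 0) := by
    split_ifs
    · positivity
    · exact le_rfl
  rcases hw.eq_or_lt with h0 | h0
  · have h3 : spW S w al p e = 0 := by
      unfold spW
      rw [← h0, zero_div]
    rw [h3, zero_mul, zero_mul]
    positivity
  rcases hw'.eq_or_lt with h0' | h0'
  · have h3 : spW S w al p e' = 0 := by
      unfold spW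
      rw [← h0', zero_div]
    rw [h3, mul_zero, zero_mul]
    rw [h3] at h2
    linarith
  by_cases hc : spC S bl x e e'
  · rw [if_pos hc]
    have h3 : spP bl al p (S e ∪ S e') ≤ spP bl al p (S e) := sp_anti h.hp subset_union_left
    have h4 : spW S w al p e * spW S w al p e' * spP bl al p (S e ∪ S e') ≤
        spW S w al p e * spW S w al p e' * spP bl al p (S e) :=
      mul_le_mul_of_nonneg_left h3 (mul_nonneg hW hW')
    have h5 : spW S w al p e * spW S w al p e' * spP bl al p (S e) = w e * spW S w al p e' := by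
      rw [mul_right_comm, sp_WP h e]
    linarith
  · rw [if_neg hc, add_zero]
    -- all blocks of `S e ∪ S e'` are different
    have hne : ∀ y ∈ S e, ∀ y' ∈ S e', bl y = bl y' → bl y = none ∨ (y = x ∧ y' = x) := by
      intro y hy y' hy' hyy
      cases hb : bl y with
      | none => exact Or.inl rfl
      | some j =>
        right
        have hxj : bl x = some j := by
          by_contra hxj
          exact hc ⟨y, hy, j, hb, hxj, y', hy', by rw [← hyy, hb]⟩
        constructor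
        · by_contra hyx
          have := h.hdiff e h0 y hy x he hyx (by rw [hb, hxj])
          rw [hb] at this
          exact absurd this (by simp)
        · by_contra hyx
          have := h.hdiff e' h0' y' hy' x he' hyx (by rw [← hyy, hb, hxj])
          rw [← hyy, hb] at this
          exact absurd this (by simp)
    have h3 : spP bl al p (S e ∪ S e') = ∏ z ∈ S e ∪ S e', ∑ t ∈ al z, p t := by
      refine sp_indep h.hp1 h.hnone ?_
      intro y hy z hz hyz hb
      rcases mem_union.1 hy with hy | hy <;> rcases mem_union.1 hz with hz | hz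
      · exact h.hdiff e h0 y hy z hz hyz hb
      · rcases hne y hy z hz hb with h4 | ⟨h4, h5⟩
        · exact h4
        · exact absurd (h4.trans h5.symm) hyz
      · rcases hne z hz y hy hb.symm with h4 | ⟨h4, h5⟩
        · rw [hb, h4]
        · exact absurd (h5.trans h4.symm) hyz
      · exact h.hdiff e' h0' y hy z hz hyz hb
    have h4 : (∏ z ∈ S e ∪ S e', ∑ t ∈ al z, p t) * ∏ z ∈ S e ∩ S e', ∑ t ∈ al z, p t =
        (∏ z ∈ S e, ∑ t ∈ al z, p t) * ∏ z ∈ S e', ∑ t ∈ al z, p t :=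
      Finset.prod_union_inter
    have h5 : ∏ z ∈ S e ∩ S e', ∑ t ∈ al z, p t = ∑ t ∈ al x, p t := by
      rw [Finset.prod_eq_single x]
      · intro z hz hzx
        obtain ⟨hz1, hz2⟩ := mem_inter.1 hz
        rcases hne z hz1 z hz2 rfl with h6 | ⟨h6, -⟩
        · rw [h.hnone z h6, h.hp1]
        · exact absurd h6 hzx
      · intro hx'
        exact absurd (mem_inter.2 ⟨he, he'⟩) hx'
    rw [h5] at h4
    rw [h3]
    have h6 := sp_pi_pos h e
    have h7 := sp_pi_pos h e'
    have h8 : ∏ z ∈ S e ∪ S e', ∑ t ∈ al z, p t =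
        ((∏ z ∈ S e, ∑ t ∈ al z, p t) * ∏ z ∈ S e', ∑ t ∈ al z, p t) / ∑ t ∈ al x, p t := by
      rw [← h4, mul_div_cancel_right₀ _ hx.ne']
    rw [h8]
    unfold spW
    apply le_of_eq
    field_simp

private theorem sp_cblk (h : SpH k κ S w bl al p) (x : V) (e : E) :
    ∑ e' with x ∈ S e', (if spC S bl x e e' then w e * spW S w al p e' else 0) ≤
      w e * (k * κ) := by
  have h1 : ∀ e' : E, (if spC S bl x e e' then w e * spW S w al p e' else 0) ≤
      ∑ y ∈ S e, w e * (if ∃ j, bl y = some j ∧ bl x ≠ some j ∧ ∃ y' ∈ S e', bl y' = some j then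
        spW S w al p e' else 0) := by
    intro e'
    have h2 : ∀ y ∈ S e, 0 ≤ w e * (if ∃ j, bl y = some j ∧ bl x ≠ some j ∧
        ∃ y' ∈ S e', bl y' = some j then spW S w al p e' else 0) := by
      intro y _
      refine mul_nonneg (h.hw e) ?_
      split_ifs
      · exact sp_W_nn h e'
      · exact le_rfl
    by_cases hc : spC S bl x e e'
    · rw [if_pos hc]
      obtain ⟨y, hy, hyj⟩ := hc
      refine le_trans ?_ (Finset.single_le_sum h2 hy)
      rw [if_pos hyj]
    · rw [if_neg hc]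
      exact Finset.sum_nonneg h2
  refine (Finset.sum_le_sum fun e' _ => h1 e').trans ?_
  rw [Finset.sum_comm]
  have h3 : ∀ y ∈ S e, ∑ e' with x ∈ S e', w e * (if ∃ j, bl y = some j ∧ bl x ≠ some j ∧
      ∃ y' ∈ S e', bl y' = some j then spW S w al p e' else 0) ≤ w e * κ := by
    intro y _
    rw [← Finset.mul_sum]
    refine mul_le_mul_of_nonneg_left ?_ (h.hw e)
    cases hb : bl y with
    | none =>
      refine le_trans (le_of_eq ?_) h.hκ
      refine Finset.sum_eq_zero fun e' _ => ?_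
      rw [if_neg]
      rintro ⟨j, hj, -⟩
      exact absurd hj (by simp)
    | some j₀ =>
      by_cases hx : bl x = some j₀
      · refine le_trans (le_of_eq ?_) h.hκ
        refine Finset.sum_eq_zero fun e' _ => ?_
        rw [if_neg]
        rintro ⟨j, hj, hj', -⟩
        rw [Option.some.inj hj] at hx
        exact hj' hx
      · refine le_trans (le_of_eq ?_) (h.hblk x j₀ hx)
        rw [← Finset.sum_filter, Finset.filter_filter]
        refine Finset.sum_congr ?_ fun _ _ => rfl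
        ext e'
        simp only [mem_filter, mem_univ, true_and]
        constructor
        · rintro ⟨h4, j, hj, -, h5⟩
          rw [← Option.some.inj hj] at h5
          exact ⟨h4, h5⟩
        · rintro ⟨h4, h5⟩
          exact ⟨h4, j₀, rfl, hx, h5⟩
  refine (Finset.sum_le_sum h3).trans ?_
  rw [Finset.sum_const, nsmul_eq_mul]
  have h4 : ((S e).card : ℝ) ≤ k := by exact_mod_cast h.hk e
  have h5 : 0 ≤ w e * κ := mul_nonneg (h.hw e) h.hκ
  calc ((S e).card : ℝ) * (w e * κ) ≤ k * (w e * κ) := mul_le_mul_of_nonneg_right h4 h5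
    _ = w e * (k * κ) := by ring

/-- second moment of `X x` -/
private theorem sp_EX2 (h : SpH k κ S w bl al p) (x : V) :
    ∑ ω : J → Ty, spPr p ω * spX S w bl al p x ω ^ 2 ≤
      (∑ e with x ∈ S e, w e) ^ 2 / (∑ t ∈ al x, p t) + k * κ * ∑ t ∈ al x, p t := by
  have h1 : ∑ ω : J → Ty, spPr p ω * spX S w bl al p x ω ^ 2 =
      ∑ e with x ∈ S e, ∑ e' with x ∈ S e',
        spW S w al p e * spW S w al p e' * spP bl al p (S e ∪ S e') := by
    have h2 : ∀ ω : J → Ty, spPr p ω * spX S w bl al p x ω ^ 2 =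
        ∑ e with x ∈ S e, ∑ e' with x ∈ S e', spW S w al p e * spW S w al p e' *
          (spPr p ω * spInd bl al (S e ∪ S e') ω) := by
      intro ω
      unfold spX
      rw [pow_two, Finset.sum_mul_sum, Finset.mul_sum]
      refine Finset.sum_congr rfl fun e _ => ?_
      rw [Finset.mul_sum]
      refine Finset.sum_congr rfl fun e' _ => ?_
      rw [← sp_ind_mul]
      ring
    rw [Finset.sum_congr rfl fun ω _ => h2 ω, Finset.sum_comm]
    refine Finset.sum_congr rfl fun e _ => ?_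
    rw [Finset.sum_comm]
    refine Finset.sum_congr rfl fun e' _ => ?_
    unfold spP
    rw [Finset.mul_sum]
  rw [h1]
  have h3 : ∀ e ∈ univ.filter (fun e => x ∈ S e), ∑ e' with x ∈ S e',
      spW S w al p e * spW S w al p e' * spP bl al p (S e ∪ S e') ≤
      w e * (∑ e' with x ∈ S e', w e') / (∑ t ∈ al x, p t) + w e * (k * κ) := by
    intro e he
    have he' : x ∈ S e := (mem_filter.1 he).2
    calc ∑ e' with x ∈ S e', spW S w al p e * spW S w al p e' * spP bl al p (S e ∪ S e')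
        ≤ ∑ e' with x ∈ S e', (w e * w e' / (∑ t ∈ al x, p t) +
          (if spC S bl x e e' then w e * spW S w al p e' else 0)) :=
          Finset.sum_le_sum fun e' h4 => sp_pair h he' (mem_filter.1 h4).2
      _ = w e * (∑ e' with x ∈ S e', w e') / (∑ t ∈ al x, p t) +
          ∑ e' with x ∈ S e', (if spC S bl x e e' then w e * spW S w al p e' else 0) := by
          rw [Finset.sum_add_distrib, Finset.mul_sum, Finset.sum_div]
      _ ≤ _ := by
          have := sp_cblk h x e
          linarith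
  refine (Finset.sum_le_sum h3).trans ?_
  rw [Finset.sum_add_distrib, ← Finset.sum_div, ← Finset.sum_mul, ← Finset.sum_mul, ← pow_two]
  have h4 : (∑ e with x ∈ S e, w e) * (k * κ) ≤ k * κ * ∑ t ∈ al x, p t := by
    rw [mul_comm]
    exact mul_le_mul_of_nonneg_left (h.hdeg x) (mul_nonneg (Nat.cast_nonneg k) h.hκ)
  linarith

/-- the deviation `Δ x` -/
private noncomputable def spD (S : E → Finset V) (w : E → ℝ) (bl : V → Option J)
    (al : V → Finset Ty) (p : Ty → ℝ) (x : V) (ω : J → Ty) : ℝ :=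
  spX S w bl al p x ω - (∑ e with x ∈ S e, w e) / (∑ t ∈ al x, p t) * spInd bl al {x} ω

private theorem sp_X_ind (x : V) (ω : J → Ty) :
    spX S w bl al p x ω * spInd bl al {x} ω = spX S w bl al p x ω := by
  unfold spX
  rw [Finset.sum_mul]
  refine Finset.sum_congr rfl fun e he => ?_
  have he' : x ∈ S e := (mem_filter.1 he).2
  rw [mul_assoc, sp_ind_mul, union_eq_left.2 (singleton_subset_iff.2 he')]

private theorem sp_single (h : SpH k κ S w bl al p) (x : V) :
    spP bl al p {x} = ∑ t ∈ al x, p t := by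
  rw [sp_indep h.hp1 h.hnone, Finset.prod_singleton]
  intro y hy z hz hyz
  rw [mem_singleton] at hy hz
  exact absurd (hy.trans hz.symm) hyz

private theorem sp_ED2 (h : SpH k κ S w bl al p) (x : V) :
    ∑ ω : J → Ty, spPr p ω * spD S w bl al p x ω ^ 2 ≤ k * κ * ∑ t ∈ al x, p t := by
  obtain ⟨d, hd⟩ : ∃ d, d = ∑ e with x ∈ S e, w e := ⟨_, rfl⟩
  obtain ⟨q, hq⟩ : ∃ q, q = ∑ t ∈ al x, p t := ⟨_, rfl⟩
  have hq0 : 0 < q := by rw [hq]; exact h.hpx x
  have h1 : ∀ ω : J → Ty, spPr p ω * spD S w bl al p x ω ^ 2 =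
      spPr p ω * spX S w bl al p x ω ^ 2 - 2 * (d / q) * (spPr p ω * spX S w bl al p x ω) +
        (d / q) ^ 2 * (spPr p ω * spInd bl al {x} ω) := by
    intro ω
    have h2 := sp_X_ind (S := S) (w := w) (bl := bl) (al := al) (p := p) x ω
    have h3 : spInd bl al {x} ω * spInd bl al {x} ω = spInd bl al {x} ω := by
      rw [sp_ind_mul, union_self]
    unfold spD
    rw [← hd, ← hq]
    calc spPr p ω * (spX S w bl al p x ω - d / q * spInd bl al {x} ω) ^ 2
        = spPr p ω * spX S w bl al p x ω ^ 2 -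
          2 * (d / q) * (spPr p ω * (spX S w bl al p x ω * spInd bl al {x} ω)) +
          (d / q) ^ 2 * (spPr p ω * (spInd bl al {x} ω * spInd bl al {x} ω)) := by ring
      _ = _ := by rw [h2, h3]
  rw [Finset.sum_congr rfl fun ω _ => h1 ω, Finset.sum_add_distrib, Finset.sum_sub_distrib,
    ← Finset.mul_sum, ← Finset.mul_sum, sp_EX h x, ← hd]
  have h4 := sp_EX2 h x
  rw [← hd, ← hq] at h4
  have h5 : ∑ ω : J → Ty, spPr p ω * spInd bl al {x} ω = q := by
    rw [hq]
    exact sp_single h x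
  rw [h5, ← hq]
  have h6 : 2 * (d / q) * d = 2 * (d ^ 2 / q) := by ring
  have h7 : (d / q) ^ 2 * q = d ^ 2 / q := by
    field_simp
  rw [h6, h7]
  linarith

/-! ### bad vertices -/

/-- the indicator of bad vertices -/
private noncomputable def spB (S : E → Finset V) (w : E → ℝ) (bl : V → Option J)
    (al : V → Finset Ty) (p : Ty → ℝ) (τ : ℝ) (x : V) (ω : J → Ty) : Prop :=
  1 + τ < spX S w bl al p x ω

open Classical in
/-- the weight lost at `x` -/
private noncomputable def spL (S : E → Finset V) (w : E → ℝ) (bl : V → Option J)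
    (al : V → Finset Ty) (p : Ty → ℝ) (τ : ℝ) (x : V) (ω : J → Ty) : ℝ :=
  ∑ e with x ∈ S e, spW S w al p e * spInd bl al (S e) ω *
    (if ∃ y ∈ S e, spB S w bl al p τ y ω then 1 else 0)

private theorem sp_L_nn (h : SpH k κ S w bl al p) (τ : ℝ) (x : V) (ω : J → Ty) :
    0 ≤ spL S w bl al p τ x ω := by
  unfold spL
  refine Finset.sum_nonneg fun e _ => mul_nonneg (mul_nonneg (sp_W_nn h e) (sp_ind_nn bl al _ ω)) ?_
  split_ifs <;> norm_num

private theorem sp_bad (h : SpH k κ S w bl al p) {τ : ℝ} (hτ : 0 < τ) (hτ1 : τ ≤ 1) {x : V}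
    {ω : J → Ty} (hb : spB S w bl al p τ x ω) :
    τ < spD S w bl al p x ω ∧ spX S w bl al p x ω ≤ 2 / τ ^ 2 * spD S w bl al p x ω ^ 2 := by
  have hq := h.hpx x
  have h1 : (∑ e with x ∈ S e, w e) / (∑ t ∈ al x, p t) ≤ 1 := (div_le_one hq).2 (h.hdeg x)
  have h2 : spInd bl al {x} ω ≤ 1 := by
    unfold spInd
    split_ifs <;> norm_num
  have h3 := sp_ind_nn bl al {x} ω
  have h4 : (∑ e with x ∈ S e, w e) / (∑ t ∈ al x, p t) * spInd bl al {x} ω ≤ 1 := by
    calc _ ≤ 1 * 1 := mul_le_mul h1 h2 h3 (by norm_num)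
      _ = 1 := by norm_num
  have h5 : spX S w bl al p x ω ≤ 1 + spD S w bl al p x ω := by
    unfold spD
    linarith
  unfold spB at hb
  have h6 : τ < spD S w bl al p x ω := by linarith
  refine ⟨h6, h5.trans ?_⟩
  obtain ⟨D, hD⟩ : ∃ D, D = spD S w bl al p x ω := ⟨_, rfl⟩
  rw [← hD] at h6 ⊢
  have hτ2 : 0 < τ ^ 2 := by positivity
  rw [div_mul_eq_mul_div, le_div_iff₀ hτ2]
  nlinarith [mul_pos hτ (sub_pos.2 h6), mul_nonneg hτ.le (sub_nonneg.2 hτ1),
    mul_pos (sub_pos.2 h6) (sub_pos.2 h6)]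

open Classical in
private theorem sp_lost (h : SpH k κ S w bl al p) {τ : ℝ} (hτ : 0 < τ) (hτ1 : τ ≤ 1) (V0 : Finset V)
    (ω : J → Ty) : ∑ x ∈ V0, spL S w bl al p τ x ω ≤
      k * ∑ y, 2 / τ ^ 2 * spD S w bl al p y ω ^ 2 := by
  have h1 : ∑ x ∈ V0, spL S w bl al p τ x ω ≤ ∑ x, spL S w bl al p τ x ω :=
    Finset.sum_le_sum_of_subset_of_nonneg (subset_univ _) fun x _ _ => sp_L_nn h τ x ω
  refine h1.trans ?_
  have h2 : ∑ x, spL S w bl al p τ x ω = ∑ e, ((S e).card : ℝ) *
      (spW S w al p e * spInd bl al (S e) ω * (if ∃ y ∈ S e, spB S w bl al p τ y ω then 1 else 0)) := by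
    unfold spL
    simp only [Finset.sum_filter]
    rw [Finset.sum_comm]
    refine Finset.sum_congr rfl fun e _ => ?_
    rw [← Finset.sum_filter, Finset.sum_const, nsmul_eq_mul]
    congr 2
    congr 1
    ext x
    simp
  rw [h2]
  have h3 : ∀ e, ((S e).card : ℝ) * (spW S w al p e * spInd bl al (S e) ω *
      (if ∃ y ∈ S e, spB S w bl al p τ y ω then 1 else 0)) ≤
      k * ∑ y, (if y ∈ S e then (if spB S w bl al p τ y ω then
        spW S w al p e * spInd bl al (S e) ω else 0) else 0) := by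
    intro e
    have hk : ((S e).card : ℝ) ≤ k := by exact_mod_cast h.hk e
    have hc : 0 ≤ spW S w al p e * spInd bl al (S e) ω :=
      mul_nonneg (sp_W_nn h e) (sp_ind_nn bl al _ ω)
    have hnn : ∀ y ∈ (univ : Finset V), 0 ≤ (if y ∈ S e then (if spB S w bl al p τ y ω then
        spW S w al p e * spInd bl al (S e) ω else 0) else 0) := by
      intro y _
      split_ifs
      · exact hc
      · exact le_rfl
      · exact le_rfl
    by_cases hb : ∃ y ∈ S e, spB S w bl al p τ y ω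
    · rw [if_pos hb, mul_one]
      obtain ⟨y, hy, hby⟩ := hb
      have h4 := Finset.single_le_sum hnn (mem_univ y)
      rw [if_pos hy, if_pos hby] at h4
      exact mul_le_mul hk h4 hc (Nat.cast_nonneg k)
    · rw [if_neg hb, mul_zero, mul_zero]
      exact mul_nonneg (Nat.cast_nonneg k) (Finset.sum_nonneg hnn)
  refine (Finset.sum_le_sum fun e _ => h3 e).trans ?_
  rw [← Finset.mul_sum, Finset.sum_comm]
  refine mul_le_mul_of_nonneg_left ?_ (Nat.cast_nonneg k)
  refine Finset.sum_le_sum fun y _ => ?_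
  have h5 : ∑ e, (if y ∈ S e then (if spB S w bl al p τ y ω then
      spW S w al p e * spInd bl al (S e) ω else 0) else 0) =
      if spB S w bl al p τ y ω then spX S w bl al p y ω else 0 := by
    by_cases hb : spB S w bl al p τ y ω
    · simp only [if_pos hb]
      unfold spX
      rw [Finset.sum_filter]
    · simp only [if_neg hb]
      simp
  rw [h5]
  split_ifs with hb
  · exact (sp_bad h hτ hτ1 hb).2
  · positivity

/-- choice of the types -/
private theorem sp_choice (h : SpH k κ S w bl al p) {τ : ℝ} (hτ : 0 < τ) (hτ1 : τ ≤ 1)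
    {μ : ℝ} (hμ : 0 < μ) (hκ : 64 * (k + 1) ^ 2 * κ ≤ μ * τ ^ 3) (V0 : Finset V) :
    ∃ ω : J → Ty, ∑ x ∈ V0, (spD S w bl al p x ω ^ 2 / τ ^ 2 + spL S w bl al p τ x ω / τ) ≤
        μ / 8 * ∑ x, ∑ t ∈ al x, p t ∧
      ∑ x, spInd bl al {x} ω ≤ 2 * ∑ x, ∑ t ∈ al x, p t := by
  obtain ⟨Λ, hΛ⟩ : ∃ Λ, Λ = ∑ x, ∑ t ∈ al x, p t := ⟨_, rfl⟩
  have hΛ0 : 0 ≤ Λ := by
    rw [hΛ]
    exact Finset.sum_nonneg fun x _ => (h.hpx x).le
  rw [← hΛ]
  have hτ2 : 0 < τ ^ 2 := by positivity
  have hk0 : (0 : ℝ) ≤ k := Nat.cast_nonneg k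
  obtain ⟨F, hF⟩ : ∃ F : (J → Ty) → ℝ, F = fun ω => ∑ x ∈ V0,
    (spD S w bl al p x ω ^ 2 / τ ^ 2 + spL S w bl al p τ x ω / τ) := ⟨_, rfl⟩
  have hFnn : ∀ ω, 0 ≤ F ω := by
    intro ω
    rw [hF]
    refine Finset.sum_nonneg fun x _ => ?_
    have := sp_L_nn h τ x ω
    positivity
  have hFle : ∀ ω, F ω ≤ (1 / τ ^ 2 + 2 * k / τ ^ 3) * ∑ y, spD S w bl al p y ω ^ 2 := by
    intro ω
    rw [hF]
    dsimp only
    rw [Finset.sum_add_distrib, ← Finset.sum_div, ← Finset.sum_div]
    have h1 : ∑ x ∈ V0, spD S w bl al p x ω ^ 2 ≤ ∑ y, spD S w bl al p y ω ^ 2 :=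
      Finset.sum_le_sum_of_subset_of_nonneg (subset_univ _) fun x _ _ => sq_nonneg _
    have h2 := sp_lost h hτ hτ1 V0 ω
    rw [← Finset.mul_sum] at h2
    have h3 : (∑ x ∈ V0, spL S w bl al p τ x ω) / τ ≤
        (k * (2 / τ ^ 2 * ∑ y, spD S w bl al p y ω ^ 2)) / τ := div_le_div_of_nonneg_right h2 hτ.le
    have h4 : (∑ x ∈ V0, spD S w bl al p x ω ^ 2) / τ ^ 2 ≤
        (∑ y, spD S w bl al p y ω ^ 2) / τ ^ 2 := div_le_div_of_nonneg_right h1 hτ2.le
    have h5 : (k * (2 / τ ^ 2 * ∑ y, spD S w bl al p y ω ^ 2)) / τ =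
        2 * k / τ ^ 3 * ∑ y, spD S w bl al p y ω ^ 2 := by
      field_simp
    have h6 : (∑ y, spD S w bl al p y ω ^ 2) / τ ^ 2 =
        1 / τ ^ 2 * ∑ y, spD S w bl al p y ω ^ 2 := by ring
    rw [h5] at h3
    rw [h6] at h4
    rw [add_mul]
    linarith
  have hD : ∑ ω : J → Ty, spPr p ω * ∑ y, spD S w bl al p y ω ^ 2 ≤ k * κ * Λ := by
    simp only [Finset.mul_sum]
    rw [Finset.sum_comm, hΛ, Finset.mul_sum]
    exact Finset.sum_le_sum fun y _ => sp_ED2 h y
  have hEF : ∑ ω : J → Ty, spPr p ω * F ω ≤ μ / 16 * Λ := by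
    calc ∑ ω : J → Ty, spPr p ω * F ω ≤ ∑ ω : J → Ty, spPr p ω *
          ((1 / τ ^ 2 + 2 * k / τ ^ 3) * ∑ y, spD S w bl al p y ω ^ 2) :=
          Finset.sum_le_sum fun ω _ => mul_le_mul_of_nonneg_left (hFle ω) (sp_pr_nn h.hp ω)
      _ = (1 / τ ^ 2 + 2 * k / τ ^ 3) *
          ∑ ω : J → Ty, spPr p ω * ∑ y, spD S w bl al p y ω ^ 2 := by
          rw [Finset.mul_sum]
          refine Finset.sum_congr rfl fun ω _ => ?_
          ring
      _ ≤ (1 / τ ^ 2 + 2 * k / τ ^ 3) * (k * κ * Λ) :=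
          mul_le_mul_of_nonneg_left hD (by positivity)
      _ ≤ μ / 16 * Λ := by
          rw [← mul_assoc]
          refine mul_le_mul_of_nonneg_right ?_ hΛ0
          have h1 : 1 / τ ^ 2 + 2 * k / τ ^ 3 = (τ + 2 * k) / τ ^ 3 := by
            field_simp
          rw [h1, div_mul_eq_mul_div, div_le_div_iff₀ (by positivity) (by norm_num)]
          have h2 : (τ + 2 * k) * (k * κ) ≤ 4 * (k + 1) ^ 2 * κ := by
            have h3 : (τ + 2 * k) * k ≤ 4 * ((k : ℝ) + 1) ^ 2 := by nlinarith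
            calc (τ + 2 * k) * (k * κ) = ((τ + 2 * k) * k) * κ := by ring
              _ ≤ 4 * ((k : ℝ) + 1) ^ 2 * κ := mul_le_mul_of_nonneg_right h3 h.hκ
          linarith
  have hEZ : ∑ ω : J → Ty, spPr p ω * ∑ x, spInd bl al {x} ω = Λ := by
    simp only [Finset.mul_sum]
    rw [Finset.sum_comm, hΛ]
    exact Finset.sum_congr rfl fun x _ => sp_single h x
  have hex : ∃ ω : J → Ty, 16 / μ * F ω + ∑ x, spInd bl al {x} ω ≤ 2 * Λ := by
    by_contra hc
    push Not at hc
    have h1 : ∑ ω : J → Ty, spPr p ω * (16 / μ * F ω + ∑ x, spInd bl al {x} ω) ≤ 2 * Λ := by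
      have h2 : ∑ ω : J → Ty, spPr p ω * (16 / μ * F ω + ∑ x, spInd bl al {x} ω) =
          16 / μ * ∑ ω : J → Ty, spPr p ω * F ω +
            ∑ ω : J → Ty, spPr p ω * ∑ x, spInd bl al {x} ω := by
        rw [Finset.mul_sum, ← Finset.sum_add_distrib]
        refine Finset.sum_congr rfl fun ω _ => ?_
        ring
      rw [h2, hEZ]
      have h3 : 16 / μ * ∑ ω : J → Ty, spPr p ω * F ω ≤ 16 / μ * (μ / 16 * Λ) :=
        mul_le_mul_of_nonneg_left hEF (by positivity)
      have h4 : 16 / μ * (μ / 16 * Λ) = Λ := by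
        field_simp
      linarith
    have h2 : ∑ ω : J → Ty, spPr p ω * (2 * Λ) <
        ∑ ω : J → Ty, spPr p ω * (16 / μ * F ω + ∑ x, spInd bl al {x} ω) := by
      have hsum := sp_pr_sum (J := J) h.hp1
      obtain ⟨ω₀, -, hω₀⟩ : ∃ ω₀ ∈ (univ : Finset (J → Ty)), 0 < spPr p ω₀ := by
        by_contra hc'
        push Not at hc'
        have := Finset.sum_nonpos hc'
        rw [hsum] at this
        norm_num at this
      refine Finset.sum_lt_sum (fun ω _ => mul_le_mul_of_nonneg_left (hc ω).le (sp_pr_nn h.hp ω))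
        ⟨ω₀, mem_univ _, mul_lt_mul_of_pos_left (hc ω₀) hω₀⟩
    rw [← Finset.sum_mul, sp_pr_sum h.hp1, one_mul] at h2
    linarith
  obtain ⟨ω, hω⟩ := hex
  have hZ : 0 ≤ ∑ x, spInd bl al {x} ω := Finset.sum_nonneg fun x _ => sp_ind_nn bl al _ ω
  have hFω := hFnn ω
  refine ⟨ω, ?_, ?_⟩
  · have h1 : 16 / μ * F ω ≤ 2 * Λ := by linarith
    have h2 : F ω ≤ μ / 8 * Λ := by
      have h3 : F ω = μ / 16 * (16 / μ * F ω) := by
        field_simp
      rw [h3]
      calc μ / 16 * (16 / μ * F ω) ≤ μ / 16 * (2 * Λ) :=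
            mul_le_mul_of_nonneg_left h1 (by positivity)
        _ = μ / 8 * Λ := by ring
    rw [hF] at h2
    exact h2
  · have h1 : 0 ≤ 16 / μ * F ω := by positivity
    linarith

private theorem sp_sub (S : E → Finset V) (bl : V → Option J) (al : V → Finset Ty) (ω : J → Ty)
    (f : E → ℝ) (Q : E → Prop) [DecidablePred Q] :
    ∑ e : {e : E // ∀ x ∈ S e, spAl bl al ω x} with Q e.1, f e.1 =
      ∑ e with Q e, f e * spInd bl al (S e) ω := by
  rw [Finset.sum_filter, Finset.sum_filter]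
  have h1 : ∑ e ∈ univ.filter (fun e : E => ∀ x ∈ S e, spAl bl al ω x), (if Q e then f e else 0) =
      ∑ e : {e : E // ∀ x ∈ S e, spAl bl al ω x}, (if Q e.1 then f e.1 else 0) :=
    Finset.sum_subtype _ (fun e => by simp) _
  rw [← h1, Finset.sum_filter]
  refine Finset.sum_congr rfl fun e _ => ?_
  unfold spInd
  by_cases h2 : ∀ x ∈ S e, spAl bl al ω x
  · rw [if_pos h2, if_pos h2, mul_one]
  · rw [if_neg h2, if_neg h2, mul_zero]
    split_ifs <;> rfl

open Classical in
/-- a vertex of `V0` which is usable after the choice of the types -/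
private def spGood (S : E → Finset V) (w : E → ℝ) (bl : V → Option J)
    (al : V → Finset Ty) (p : Ty → ℝ) (κ τ : ℝ) (ω : J → Ty) (x : V) : Prop :=
  ¬ spB S w bl al p τ x ω ∧ 1 - κ - τ ≤ spX S w bl al p x ω ∧ spL S w bl al p τ x ω ≤ τ

open Classical in
private theorem sp_notgood (h : SpH k κ S w bl al p) {τ : ℝ} (hτ : 0 < τ) (hτ1 : τ ≤ 1)
    {V0 : Finset V} (hV0 : ∀ x ∈ V0, bl x = none ∧ 1 - κ ≤ ∑ e with x ∈ S e, w e) (ω : J → Ty) :
    ((V0.filter (fun x => ¬ spGood S w bl al p κ τ ω x)).card : ℝ) ≤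
      ∑ x ∈ V0, (spD S w bl al p x ω ^ 2 / τ ^ 2 + spL S w bl al p τ x ω / τ) := by
  have hτ2 : 0 < τ ^ 2 := by positivity
  rw [Finset.card_eq_sum_ones, Nat.cast_sum, Nat.cast_one, Finset.sum_filter]
  refine Finset.sum_le_sum fun x hx => ?_
  obtain ⟨hb, hd⟩ := hV0 x hx
  have hL := sp_L_nn h τ x ω
  have h1 : 0 ≤ spD S w bl al p x ω ^ 2 / τ ^ 2 := by positivity
  have h2 : 0 ≤ spL S w bl al p τ x ω / τ := by positivity
  have hind : spInd bl al {x} ω = 1 := by
    unfold spInd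
    rw [if_pos]
    intro y hy j hj
    rw [mem_singleton.1 hy, hb] at hj
    exact absurd hj (by simp)
  have hpx : ∑ t ∈ al x, p t = 1 := by
    rw [h.hnone x hb, h.hp1]
  have hD : spD S w bl al p x ω = spX S w bl al p x ω - ∑ e with x ∈ S e, w e := by
    unfold spD
    rw [hind, hpx, div_one, mul_one]
  have hdle : ∑ e with x ∈ S e, w e ≤ 1 := by
    rw [← hpx]
    exact h.hdeg x
  by_cases hg : spGood S w bl al p κ τ ω x
  swap
  · rw [if_pos hg]
    have hsq : ∀ D : ℝ, τ < D ∨ D < -τ → 1 ≤ D ^ 2 / τ ^ 2 := by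
      intro D hD'
      rw [le_div_iff₀ hτ2, one_mul]
      rcases hD' with hD' | hD'
      · nlinarith
      · nlinarith
    unfold spGood at hg
    by_cases g1 : spB S w bl al p τ x ω
    · have := hsq _ (Or.inl (sp_bad h hτ hτ1 g1).1)
      linarith
    by_cases g2 : 1 - κ - τ ≤ spX S w bl al p x ω
    · by_cases g3 : spL S w bl al p τ x ω ≤ τ
      · exact absurd ⟨g1, g2, g3⟩ hg
      · push Not at g3
        have : 1 ≤ spL S w bl al p τ x ω / τ := by
          rw [le_div_iff₀ hτ, one_mul]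
          exact g3.le
        linarith
    · push Not at g2
      have := hsq (spD S w bl al p x ω) (Or.inr (by rw [hD]; linarith))
      linarith
  · rw [if_neg (not_not.2 hg)]
    linarith

end SpN

theorem sparse_nibble (k : ℕ) (μ : ℝ) (hμ : 0 < μ) : ∃ κ : ℝ, 0 < κ ∧
    ∀ (V E J Ty : Type) [Fintype V] [Fintype E] [Fintype J] [Fintype Ty] [DecidableEq V]
      [DecidableEq E] [DecidableEq J] [DecidableEq Ty] (S : E → Finset V) (w : E → ℝ) (V0 : Finset V)
      (bl : V → Option J) (al : V → Finset Ty) (p : Ty → ℝ),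
      (∀ e, (S e).card ≤ k) → (∀ e, (S e).Nonempty) → (∀ e, 0 ≤ w e) →
      (∀ t, 0 ≤ p t) → ∑ t, p t = 1 → (∀ x, 0 < ∑ t ∈ al x, p t) →
      (∀ x, bl x = none → al x = univ) →
      (∀ e, 0 < w e → ∀ x ∈ S e, ∀ y ∈ S e, x ≠ y → bl x = bl y → bl x = none) →
      (∀ x, ∑ e with x ∈ S e, w e ≤ ∑ t ∈ al x, p t) →
      (∀ x ∈ V0, bl x = none ∧ 1 - κ ≤ ∑ e with x ∈ S e, w e) →
      (∀ x y, x ≠ y → ∑ e with (x ∈ S e ∧ y ∈ S e), w e / ∏ z ∈ S e, ∑ t ∈ al z, p t ≤ κ) →
      (∀ x j, bl x ≠ some j → ∑ e with (x ∈ S e ∧ ∃ y ∈ S e, bl y = some j),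
        w e / ∏ z ∈ S e, ∑ t ∈ al z, p t ≤ κ) →
      ∃ (ω : J → Ty) (M : Finset E), (∀ e ∈ M, 0 < w e) ∧
        (∀ e ∈ M, ∀ x ∈ S e, ∀ j, bl x = some j → ω j ∈ al x) ∧
        (∀ e ∈ M, ∀ f ∈ M, e ≠ f → Disjoint (S e) (S f)) ∧
        ((V0.filter (fun v => ∀ e ∈ M, v ∉ S e)).card : ℝ) ≤ μ * ∑ x, ∑ t ∈ al x, p t := by
  classical
  obtain ⟨κ₁, hκ₁, hnib⟩ := nibble k (μ / 16) (by positivity)
  obtain ⟨κ₀, hκ₀⟩ : ∃ κ₀, κ₀ = min κ₁ 1 := ⟨_, rfl⟩
  have h0 : 0 < κ₀ := by
    rw [hκ₀]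
    exact lt_min hκ₁ one_pos
  have h01 : κ₀ ≤ 1 := by
    rw [hκ₀]
    exact min_le_right _ _
  have h02 : κ₀ ≤ κ₁ := by
    rw [hκ₀]
    exact min_le_left _ _
  obtain ⟨τ, hτ⟩ : ∃ τ, τ = κ₀ / 8 := ⟨_, rfl⟩
  have hτ0 : 0 < τ := by rw [hτ]; positivity
  have hτ1 : τ ≤ 1 := by rw [hτ]; linarith
  refine ⟨min (κ₀ / 8) (μ * τ ^ 3 / (64 * (k + 1) ^ 2)), lt_min (by positivity) (by positivity), ?_⟩
  intro V E J Ty _ _ _ _ _ _ _ _ S w V0 bl al p hk hne hw hp hp1 hpx hnone hdiff hdeg hV0 hcod hblk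
  obtain ⟨κ, hκ⟩ : ∃ κ, κ = min (κ₀ / 8) (μ * τ ^ 3 / (64 * (k + 1) ^ 2)) := ⟨_, rfl⟩
  rw [← hκ] at hV0 hcod hblk
  have hκ1 : κ ≤ κ₀ / 8 := by
    rw [hκ]
    exact min_le_left _ _
  have hκ0 : 0 < κ := by
    rw [hκ]
    exact lt_min (by positivity) (by positivity)
  have hκ2 : 64 * (k + 1) ^ 2 * κ ≤ μ * τ ^ 3 := by
    have h1 : κ ≤ μ * τ ^ 3 / (64 * (k + 1) ^ 2) := by
      rw [hκ]
      exact min_le_right _ _
    rw [le_div_iff₀ (by positivity)] at h1
    linarith
  have h : SpH k κ S w bl al p := ⟨hk, hw, hp, hp1, hpx, hnone, hdiff, hdeg, hblk, hκ0.le⟩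
  obtain ⟨ω, h1, h2⟩ := sp_choice h hτ0 hτ1 hμ hκ2 V0
  obtain ⟨Λ, hΛ⟩ : ∃ Λ, Λ = ∑ x, ∑ t ∈ al x, p t := ⟨_, rfl⟩
  rw [← hΛ] at h1 h2
  have hΛ0 : 0 ≤ Λ := by
    rw [hΛ]
    exact Finset.sum_nonneg fun x _ => (hpx x).le
  -- the alive hypergraph
  obtain ⟨S', hS'⟩ : ∃ S' : {e : E // ∀ x ∈ S e, spAl bl al ω x} →
      Finset {x : V // spAl bl al ω x}, S' = fun e => (S e.1).subtype (fun x => spAl bl al ω x) :=
    ⟨_, rfl⟩
  have hSmem : ∀ (e : {e : E // ∀ x ∈ S e, spAl bl al ω x}) (v : {x : V // spAl bl al ω x}),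
      v ∈ S' e ↔ v.1 ∈ S e.1 := by
    intro e v
    rw [hS']
    exact Finset.mem_subtype
  obtain ⟨w₁, hw₁⟩ : ∃ w₁ : E → ℝ, w₁ = fun e => if ∃ y ∈ S e, spB S w bl al p τ y ω then 0 else
      spW S w al p e / (1 + τ) := ⟨_, rfl⟩
  have hτ2 : 0 < 1 + τ := by linarith
  have hw₁nn : ∀ e, 0 ≤ w₁ e := by
    intro e
    rw [hw₁]
    dsimp only
    split_ifs
    · exact le_rfl
    · exact div_nonneg (sp_W_nn h e) hτ2.le
  have hw₁le : ∀ e, w₁ e ≤ spW S w al p e := by
    intro e
    rw [hw₁]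
    dsimp only
    split_ifs
    · exact sp_W_nn h e
    · exact div_le_self (sp_W_nn h e) (by linarith)
  have hdeg₁ : ∀ v : {x : V // spAl bl al ω x}, ∑ e with v ∈ S' e, w₁ e.1 =
      ∑ e with v.1 ∈ S e, w₁ e * spInd bl al (S e) ω := by
    intro v
    rw [← sp_sub S bl al ω w₁ (fun e => v.1 ∈ S e)]
    exact Finset.sum_congr (Finset.filter_congr fun e _ => hSmem e v) fun _ _ => rfl
  obtain ⟨V₁, hV₁⟩ : ∃ V₁ : Finset {x : V // spAl bl al ω x},
      V₁ = univ.filter (fun x => x.1 ∈ V0 ∧ spGood S w bl al p κ τ ω x.1) := ⟨_, rfl⟩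
  obtain ⟨M, hM1, hM2, hM3⟩ := hnib {x : V // spAl bl al ω x} {e : E // ∀ x ∈ S e, spAl bl al ω x}
    S' (fun e => w₁ e.1) V₁ (by
      intro e
      refine le_trans ?_ (hk e.1)
      rw [hS']
      dsimp only
      rw [Finset.card_subtype]
      exact card_filter_le _ _) (by
      intro e
      obtain ⟨x, hx⟩ := hne e.1
      exact ⟨⟨x, e.2 x hx⟩, (hSmem _ _).2 hx⟩) (fun e => hw₁nn e.1) (by
      intro v
      rw [hdeg₁]
      by_cases hb : spB S w bl al p τ v.1 ω
      · refine le_trans (le_of_eq ?_) zero_le_one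
        refine Finset.sum_eq_zero fun e he => ?_
        rw [hw₁]
        dsimp only
        rw [if_pos ⟨v.1, (mem_filter.1 he).2, hb⟩, zero_mul]
      · have h3 : ∑ e with v.1 ∈ S e, w₁ e * spInd bl al (S e) ω ≤
            ∑ e with v.1 ∈ S e, (spW S w al p e * spInd bl al (S e) ω) / (1 + τ) := by
          refine Finset.sum_le_sum fun e _ => ?_
          rw [mul_div_right_comm]
          refine mul_le_mul_of_nonneg_right ?_ (sp_ind_nn bl al _ ω)
          rw [hw₁]
          dsimp only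
          split_ifs
          · exact div_nonneg (sp_W_nn h e) hτ2.le
          · exact le_rfl
        refine h3.trans ?_
        rw [← Finset.sum_div, div_le_one hτ2]
        unfold spB at hb
        push Not at hb
        exact hb) (by
      intro v hv
      rw [hV₁, mem_filter] at hv
      obtain ⟨-, hv0, hg1, hg2, hg3⟩ := hv
      rw [hdeg₁]
      have h3 : ∑ e with v.1 ∈ S e, w₁ e * spInd bl al (S e) ω =
          (spX S w bl al p v.1 ω - spL S w bl al p τ v.1 ω) / (1 + τ) := by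
        unfold spX spL
        rw [← Finset.sum_sub_distrib, Finset.sum_div]
        refine Finset.sum_congr rfl fun e _ => ?_
        rw [hw₁]
        dsimp only
        split_ifs
        · ring
        · ring
      rw [h3, le_div_iff₀ hτ2]
      have h4 : (1 - κ₁) * (1 + τ) ≤ (1 - κ₀) * (1 + τ) :=
        mul_le_mul_of_nonneg_right (by linarith) hτ2.le
      have h5 : (1 - κ₀) * (1 + τ) ≤ 1 - κ - 2 * τ := by
        have : κ₀ = 8 * τ := by rw [hτ]; ring
        rw [this] at hκ1 ⊢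
        nlinarith [mul_pos hτ0 hτ0]
      linarith) (by
      intro u v huv
      have h3 : ∑ e with (u ∈ S' e ∧ v ∈ S' e), w₁ e.1 =
          ∑ e with (u.1 ∈ S e ∧ v.1 ∈ S e), w₁ e * spInd bl al (S e) ω := by
        rw [← sp_sub S bl al ω w₁ (fun e => u.1 ∈ S e ∧ v.1 ∈ S e)]
        refine Finset.sum_congr (Finset.filter_congr fun e _ => ?_) fun _ _ => rfl
        rw [hSmem, hSmem]
      rw [h3]
      have h4 : ∑ e with (u.1 ∈ S e ∧ v.1 ∈ S e), w₁ e * spInd bl al (S e) ω ≤
          ∑ e with (u.1 ∈ S e ∧ v.1 ∈ S e), spW S w al p e := by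
        refine Finset.sum_le_sum fun e _ => ?_
        have h5 : spInd bl al (S e) ω ≤ 1 := by
          unfold spInd
          split_ifs <;> norm_num
        calc w₁ e * spInd bl al (S e) ω ≤ spW S w al p e * 1 :=
              mul_le_mul (hw₁le e) h5 (sp_ind_nn bl al _ ω) (sp_W_nn h e)
          _ = spW S w al p e := mul_one _
      have h5 : ∑ e with (u.1 ∈ S e ∧ v.1 ∈ S e), spW S w al p e ≤ κ :=
        hcod u.1 v.1 (fun hc => huv (Subtype.ext hc))
      linarith)
  refine ⟨ω, M.image Subtype.val, ?_, ?_, ?_, ?_⟩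
  · intro e he
    obtain ⟨e', he', rfl⟩ := mem_image.1 he
    have h3 := hM1 e' he'
    have h4 := h3.trans_le (hw₁le e'.1)
    rcases (hw e'.1).eq_or_lt with h5 | h5
    · exfalso
      unfold spW at h4
      rw [← h5, zero_div] at h4
      exact lt_irrefl _ h4
    · exact h5
  · intro e he x hx j hj
    obtain ⟨e', he', rfl⟩ := mem_image.1 he
    exact e'.2 x hx j hj
  · intro e he f hf hef
    obtain ⟨e', he', rfl⟩ := mem_image.1 he
    obtain ⟨f', hf', rfl⟩ := mem_image.1 hf
    have h3 := hM2 e' he' f' hf' (fun hc => hef (by rw [hc]))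
    rw [disjoint_left] at h3 ⊢
    intro x hx hx'
    exact h3 ((hSmem e' ⟨x, e'.2 x hx⟩).2 hx) ((hSmem f' ⟨x, e'.2 x hx⟩).2 hx')
  · have h3 : V0.filter (fun v => ∀ e ∈ M.image Subtype.val, v ∉ S e) ⊆
        V0.filter (fun x => ¬ spGood S w bl al p κ τ ω x) ∪
          (V₁.filter (fun v => ∀ e ∈ M, v ∉ S' e)).image Subtype.val := by
      intro v hv
      obtain ⟨hv0, hvM⟩ := mem_filter.1 hv
      rw [mem_union]
      by_cases hg : spGood S w bl al p κ τ ω v
      · right
        have hal : spAl bl al ω v := by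
          intro j hj
          rw [(hV0 v hv0).1] at hj
          exact absurd hj (by simp)
        rw [mem_image]
        refine ⟨⟨v, hal⟩, mem_filter.2 ⟨?_, ?_⟩, rfl⟩
        · rw [hV₁, mem_filter]
          exact ⟨mem_univ _, hv0, hg⟩
        · intro e he hc
          exact hvM e.1 (mem_image_of_mem _ he) ((hSmem _ _).1 hc)
      · left
        exact mem_filter.2 ⟨hv0, hg⟩
    have h4 := (card_le_card h3).trans (card_union_le _ _)
    have h5 := sp_notgood h hτ0 hτ1 hV0 ω
    have h6 : ((V₁.filter (fun v => ∀ e ∈ M, v ∉ S' e)).image Subtype.val).card ≤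
        (V₁.filter (fun v => ∀ e ∈ M, v ∉ S' e)).card := card_image_le
    have h7 : (Fintype.card {x : V // spAl bl al ω x} : ℝ) = ∑ x, spInd bl al {x} ω := by
      rw [Fintype.card_subtype, Finset.card_eq_sum_ones, Nat.cast_sum, Nat.cast_one,
        Finset.sum_filter]
      refine Finset.sum_congr rfl fun x _ => ?_
      unfold spInd
      by_cases hx : spAl bl al ω x
      · rw [if_pos hx, if_pos]
        intro y hy
        rw [mem_singleton.1 hy]
        exact hx
      · rw [if_neg hx, if_neg]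
        intro hc
        exact hx (hc x (mem_singleton_self x))
    rw [← h7] at h2
    have h8 : ((V0.filter (fun v => ∀ e ∈ M.image Subtype.val, v ∉ S e)).card : ℝ) ≤
        ((V0.filter (fun x => ¬ spGood S w bl al p κ τ ω x)).card : ℝ) +
          ((V₁.filter (fun v => ∀ e ∈ M, v ∉ S' e)).card : ℝ) := by
      exact_mod_cast h4.trans (Nat.add_le_add_left h6 _)
    have h9 : μ / 16 * (Fintype.card {x : V // spAl bl al ω x} : ℝ) ≤ μ / 16 * (2 * Λ) :=
      mul_le_mul_of_nonneg_left h2 (by positivity)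
    have h10 : 0 ≤ μ * Λ := mul_nonneg hμ.le hΛ0
    rw [← hΛ]
    calc _ ≤ _ := h8
      _ ≤ μ / 8 * Λ + μ / 16 * (2 * Λ) := add_le_add (h5.trans h1) (hM3.trans h9)
      _ = μ * Λ / 4 := by ring
      _ ≤ μ * Λ := by linarith

end SSB
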