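import Pool.Agent.Lib.MP_8a819d_co.AT.PackSt
import Pool.Agent.Lib.MP_8a819d_co.AT.SpNib
import Pool.Agent.Lib.MP_8a819d_co.BD.Chn
import Pool.Agent.Lib.MP_8a819d_co.AT.PackG6

/-!
# MP_8a819d_co, trees with many non-leaves: packing with vertices of linear degree

BLOCK E2 (helper9). `PackSt true`. Read first the docstring of PackV.lean (components, chains, estimates); everything here is the same except
for the domino cells and the blocks.

IDEA. A child `v ∈ Z` of `g ∈ G` uses the two labels `a` and `a - c_g` (`c_g = f₀ g` is a constant), and there may be a linear number of such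
`v`; so the pair `(a, a - c_g)` has a codegree which is not small. Remedy: the pair is made one vertex of the hypergraph (a domino). To
make dominoes and single labels compatible the labels are divided in blocks of `b` consecutive labels, and every block gets a random
type: ordinary, or a domino tiling for some `g` (with one of two offsets); labels of the block which are not covered by a usable
domino remain ordinary. The loads are preserved exactly.

DETAILS. Blocks `j = 0, ..., N / b` (label `z` is in the block `z / b`). Types `Ty = Option (G × Bool)`. The domino `(g, a)` exists for `a ∈ Dom g`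
(`c_g ≤ a % b`, `a, a - c_g ∈ Q`; both labels are in the block `a / b`); its offset: `σ g a = true` iff `(a % b) / c_g` is even. Type `some (g, σ)` of a block: its
dominoes are the `(g, a)` with `a ∈ Dom g` in the block and `σ g a = σ`. They are pairwise disjoint: `a % b` and `a % b - c_g` have the quotients `i`, `i - 1`
by `c_g` with `i` of a fixed parity. `Ch g = {v ∈ Z : par v = g}`, `q g = max (|Ch g|/|Dom g|) q₀`, `q₀ = κ p₀/(8 (g₀ + 1))`;
`p (some (g, σ)) = q g` for both `σ`, `p none = 1 - ∑ g, 2 q g ≥ p₀` (`∑ g 2 |Ch g|/|Dom g| ≤ (1 - 3p₀)/(1 - p₀) ≤ 1 - 2 p₀`, `2 g₀ q₀ ≤ p₀`).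
Vertices of the hypergraph:
* ordinary labels `z ≤ N`: block `z / b`; alive for the types `t` for which `z` is in no domino of its block:
  `px z = 1 - ∑ g, q g ([z ∈ Dom g] + [z + c_g ∈ Dom g])` (`z + c_g ∈ Dom g` implies the same block), `px z ≥ p none ≥ p₀`;
* dominoes `(g, a)`, `g ∈ G`, `a ≤ N`: block `a / b`, alive exactly for the type `some (g, σ g a)`: `px = q g ≥ q₀` (those with `a ∉ Dom g` are never used);
* components `p` (no block).
`∑ px ≤ (N + 1) + ∑ g (N + 1) q g + np ≤ 3 (N + 1)`, independent of `g₀`.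
Hyperedges `(p, φ)` as in PackV. If the root `r` of `p` is in `Ch g`: cells = component, domino `(g, φ 0)`, and the used labels of the other
vertices of the component as ordinary labels (the root uses exactly `φ 0` and `φ 0 - c_g`: its only neighbour in `B` is `g`). Otherwise: component and all used
labels as ordinary labels. At most `3 K + 1` cells. Weight `w = (1 - κ/4) * cw` if `φ` is VALID: valid as in PackV, and all the cells with a block are in different
blocks. Components containing a vertex with a CHILD in `G` get weight `0` (there are at most `g₀` such components; they are not in `V0`).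
`κ` from `sparse_nibble (3 K + 1) (μ/(8 (K + 1)))`; `γ = κ p₀^(3K+1)/(64 C')`, `C' = C + 1`; then `g₀, c₁, b` are given and `N` is large.
(1) degrees: ordinary `z ∈ Q`: `∑ w ≤ (1 - κ/4) (ordinary load)`, and ordinary load + load of the children of `G` `≤ 1`, where the latter at `z` is
    `∑ g |Ch g|/|Dom g| ([z ∈ Dom g] + [z + c_g ∈ Dom g])` (`unif`). So the ordinary load is `≤ px z + 2 g₀ q₀ ≤ px z (1 + κ/4)`; `(1 - κ/4)(1 + κ/4) ≤ 1`. Domino `(g, a)`,
    `a ∈ Dom g`: `∑ w ≤ |Ch g|/|Dom g| ≤ q g`. Component: `≤ 1`; `≥ (1 - κ/4)(1 - P(not valid)) ≥ 1 - κ`.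
(2) not valid, in addition to PackV: two cells in the same block: two labels used by different vertices: `≤ K² (N + 1) b (5C'/N)²`; by the same vertex `v`: `y` and
    `dd x y`: for given `x` at most `2 b` values `y` (`|x - 2 y| < b` or `x < b`...: if `dd x y` and `y` differ by less than `b`: `y ≥ x`: the difference is `x`, so
    `x < b`: the PARENT label is small, probability `≤ b C'/N` (sum over `x < b` of `mu (par v) x`); `y < x`: `|x - 2 y| < b`: at most `b` values `y`);
    `y` and `dd (f₀ x') y` for `x' ∈ B \ G`, `f₀ x' ≥ b`: if `y ≥ f₀ x'` the difference is `f₀ x' ≥ b`: other block; if `y < f₀ x'`: at most `b` values `y`; `dd x y` and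
    `dd (f₀ x') y`: the difference is `|x - f₀ x'|` or `|x + f₀ x' - 2 y|`: at most `b` values `y`, or `|x - f₀ x'| < b`: probability `≤ 2 b C'/N`. For the root `r ∈ Ch g`: one cell.
    All together `O(K² b/N)`.
(3) codegrees of `W = w/∏ px`: `∏ px ≥ p₀^(3K)` for the components whose root is not a child of `G`, `≥ q g p₀^(3K)` for a root in `Ch g`.
    Block codegree of an ordinary `z` and a block `j ≠ z / b`: (i) components with root not in `Ch G`: pairs of different vertices: `n K² b (5C'/N)² / p₀^(3K)`; the same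
    vertex, pairs `y, dd x y` etc. as in PackV: `O(n b C'²/N²)/p₀^(3K)`; the same vertex `v` with the neighbour `x' ∈ B \ G`: `{y, dd (f₀ x') y}` is `{z, z'}` with `z'` in block `j`:
    `f₀ x' ∈ {z + z', dd z z'}`: two windows of `b` consecutive numbers; by `B_sep` each of them contains at most one label of a vertex with more than `√N` neighbours
    in `Z`, so at most `2 γ N + 2 b √N` vertices `v`, each with probability `≤ 2 C'/N`: `≤ (4 γ C' + 4 b C'/√N)/p₀^(3K) ≤ κ/4` + o(1). (The neighbours of `G` in `Z` that are not roots in `Ch G`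
    have a child in `G`; excluded.) (ii) components with root in `Ch g`: `|Ch g|/q g ≤ |Dom g| ≤ N`: pairs of different non root vertices: `N K² b (5C'/N)²/p₀^(3K)`; the same
    non root vertex `v`: its neighbour in `B` is a child, so for every `x' ∈ B` at most one `v`: `2 b` numbers `f₀ x'`, `2 b * 2 C'/(N q₀ p₀^(3K))`.
    Ordinary `z` and the block of the root domino: `∑ v ∈ Ch g, ∑ (a in block j) (1/|Dom g|) K 5 C'/N / (q g p₀^(3K)) ≤ b K 5 C'/(N p₀^(3K))`, summed over `g`: times `g₀`.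
    Domino `(g, a)` and block `j ≠ a / b`: `∑ v ∈ Ch g (1/|Dom g|) (b K 5C'/N)/(q g p₀^(3K)) ≤ b K 5 C'/(N p₀^(3K))`. Component and block `j`: `≤ b (1/|Dom g| + K 5 C'/N)/(q₀ p₀^(3K))`.
    All these are `o(1)` for fixed `K, C, p₀, κ, g₀, c₁, b`, except the `4 γ C'/p₀^(3K)`. Codegrees of two vertices: bounded by the block codegree of one of them and the block of
    the other (if both are in the same block the codegree is `0` by validity; two components: `0`).
`sparse_nibble` gives `ω`, `M`. As in PackV every component of `M` is numbered by `φ`; used labels of different components are different: two ordinary labels: disjoint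
cells; two dominoes alive in the same block have the same type and are disjoint or equal; an ordinary label alive in a block is in no alive domino of this block. At
most `μ/(8(K+1)) * 3 (N + 1) + g₀` components are not covered, with at most `K` vertices each: `≤ μ N`.
-/

set_option autoImplicit false

namespace SSB

open Finset

theorem packSt_true : PackSt true := by
  intro K C μ p₀ hC hμ hp
  obtain ⟨κ₁, hκ₁, hnib⟩ := sparse_nibble' (3 * K + 1) (μ / (8 * ((K : ℝ) + 1))) (by positivity)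
  obtain ⟨κ, hκd⟩ : ∃ κ : ℝ, κ = min κ₁ 1 := ⟨_, rfl⟩
  have hκ0 : 0 < κ := by rw [hκd]; exact lt_min hκ₁ one_pos
  have hκ1 : κ ≤ 1 := by rw [hκd]; exact min_le_right _ _
  have hκκ : κ ≤ κ₁ := by rw [hκd]; exact min_le_left _ _
  have hD : 0 < C + 1 := by linarith
  have hpK : 0 < p₀ ^ (3 * K) := pow_pos hp _
  refine ⟨κ * p₀ ^ (3 * K) / (64 * (C + 1)), by positivity, ?_⟩
  intro g₀ c₁ b hb
  have hb' : (1 : ℝ) ≤ b := by exact_mod_cast hb
  have hg₀ : (0 : ℝ) ≤ (g₀ : ℝ) := Nat.cast_nonneg _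
  have hKn : (0 : ℝ) ≤ (K : ℝ) := Nat.cast_nonneg _
  obtain ⟨q₀, hqd⟩ : ∃ q₀ : ℝ, q₀ = κ * p₀ / (8 * ((g₀ : ℝ) + 1)) := ⟨_, rfl⟩
  have hq : 0 < q₀ := by rw [hqd]; positivity
  obtain ⟨P, hPd⟩ : ∃ P : ℝ, P = 1 / p₀ ^ (3 * K) := ⟨_, rfl⟩
  have hP : 0 < P := by rw [hPd]; positivity
  by_cases hp3 : p₀ ≤ 1 / 3
  swap
  · refine ⟨1, fun N hN n par G B Z Q f₀ Dom mu kr hc => ?_⟩
    exfalso
    have h1 := hc.G_few
    have h2 : (1 : ℝ) ≤ N := by exact_mod_cast hN
    have h3 : (0 : ℝ) ≤ ((Z.filter (fun v => par v ∈ G)).card : ℝ) := Nat.cast_nonneg _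
    have h4 : 0 < (3 * p₀ - 1) * N := mul_pos (by linarith [not_le.1 hp3]) (by linarith)
    linarith
  have hq2 : 2 * g₀ * q₀ ≤ κ / 4 * p₀ := by
    rw [hqd]
    have e1 : 2 * (g₀ : ℝ) * (κ * p₀ / (8 * ((g₀ : ℝ) + 1))) =
        κ / 4 * p₀ * ((g₀ : ℝ) / ((g₀ : ℝ) + 1)) := by
      field_simp
      ring
    rw [e1]
    have e2 : (g₀ : ℝ) / ((g₀ : ℝ) + 1) ≤ 1 := by
      rw [div_le_one (by linarith)]
      linarith
    calc κ / 4 * p₀ * ((g₀ : ℝ) / ((g₀ : ℝ) + 1)) ≤ κ / 4 * p₀ * 1 :=
          mul_le_mul_of_nonneg_left e2 (by positivity)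
      _ = κ / 4 * p₀ := mul_one _
  have hq3 : 2 * g₀ * q₀ ≤ p₀ := by
    refine hq2.trans ?_
    have : κ / 4 * p₀ ≤ 1 * p₀ := mul_le_mul_of_nonneg_right (by linarith) hp.le
    linarith
  have hq1 : q₀ ≤ 1 := by
    rw [hqd, div_le_one (by positivity)]
    have h1 : κ * p₀ ≤ 1 * 1 := mul_le_mul hκ1 (by linarith) hp.le (by norm_num)
    linarith
  obtain ⟨A1, hA1⟩ : ∃ A : ℝ, A = 3 * K * (C + 1) + 25 * (K : ℝ) ^ 2 * (C + 1) ^ 2 +
    9 * K * b * (C + 1) + 25 * (K : ℝ) ^ 2 * b * (C + 1) ^ 2 := ⟨_, rfl⟩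
  obtain ⟨A2, hA2⟩ : ∃ A : ℝ, A = P / q₀ * (25 * K + 12) * b * (C + 1) ^ 2 +
    P / q₀ * 4 * b * (C + 1) := ⟨_, rfl⟩
  obtain ⟨A3, hA3⟩ : ∃ A : ℝ, A = 16 * P * b * (C + 1) / κ := ⟨_, rfl⟩
  obtain ⟨A4, hA4⟩ : ∃ A : ℝ, A = P / q₀ * K * 25 * b * (C + 1) ^ 2 := ⟨_, rfl⟩
  obtain ⟨A5, hA5⟩ : ∃ A : ℝ, A = P / q₀ * K * 5 * b * (C + 1) := ⟨_, rfl⟩
  obtain ⟨A6, hA6⟩ : ∃ A : ℝ, A = 3 * K * g₀ / μ := ⟨_, rfl⟩
  have n1 : 0 ≤ A1 / κ := by rw [hA1]; positivity
  have n2 : 0 ≤ A2 / κ := by rw [hA2]; positivity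
  have n3 : 0 ≤ A3 := by rw [hA3]; positivity
  have n4 : 0 ≤ A4 / κ := by rw [hA4]; positivity
  have n5 : 0 ≤ A5 / κ := by rw [hA5]; positivity
  have n6 : 0 ≤ A6 := by rw [hA6]; positivity
  obtain ⟨N₀, hN₀⟩ := exists_nat_ge (4 * (A1 / κ) + 4 * (A2 / κ) + A3 ^ 2 + 4 * (A4 / κ) +
    4 * (A5 / κ) + A6 + 1)
  refine ⟨N₀, fun N hN n par G B Z Q f₀ Dom mu kr hc => ?_⟩
  have hNr : (N₀ : ℝ) ≤ N := by exact_mod_cast hN
  have n3' : 0 ≤ A3 ^ 2 := sq_nonneg _
  have hN1 : (1 : ℝ) ≤ N := by linarith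
  have hN' : (0 : ℝ) < N := by linarith
  have hNn : 1 ≤ N := by exact_mod_cast hN1
  have key : ∀ x : ℝ, 4 * (x / κ) ≤ N → x / N ≤ κ / 4 := by
    intro x hx
    have h1 : 4 * x ≤ N * κ := by
      have h2 := mul_le_mul_of_nonneg_right hx hκ0.le
      have h3 : 4 * (x / κ) * κ = 4 * x := by field_simp
      linarith
    rw [div_le_iff₀ hN']
    linarith
  have c1 := key A1 (by linarith)
  have c2 := key A2 (by linarith)
  have c4 := key A4 (by linarith)
  have c5 := key A5 (by linarith)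
  have hs0 : 0 < √(N : ℝ) := Real.sqrt_pos.2 hN'
  have hss : √(N : ℝ) * √(N : ℝ) = N := Real.mul_self_sqrt hN'.le
  have hs : A3 ≤ √(N : ℝ) := Real.le_sqrt_of_sq_le (by linarith)
  have c3 : P * 4 * b * (C + 1) / √(N : ℝ) ≤ κ / 4 := by
    rw [div_le_iff₀ hs0]
    have h1 : A3 * κ = 16 * P * b * (C + 1) := by
      rw [hA3]
      field_simp
    have h2 := mul_le_mul_of_nonneg_right hs hκ0.le
    linarith
  obtain ⟨np, pc, hOK, hpc, hinj, hsurj⟩ := vps_exist hc.isP hc.Zsub hc.Z0 hc.comps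
  have h : EnvV n N par B Z Q f₀ C mu kr := hc.env hNn hC
  have hn := none_ge hc hNn hp hp3 hq.le hq3
  obtain ⟨M, φ, hM1, hM2, hM3⟩ := pkg_main hc hb
    (show 0 ≤ κ * p₀ ^ (3 * K) / (64 * (C + 1)) by positivity) h hOK hinj hsurj hpc hq hq1 hn hp
    (by linarith) hκ0 hκ1 hκκ (show 0 < μ / (8 * ((K : ℝ) + 1)) by positivity) hnib hq2
    (by
      refine le_trans (le_of_eq ?_) c1
      rw [hA1]
      field_simp
      try ring)
    (by
      rw [← hPd]
      have h1 : P / q₀ * (((25 * K + 12) * b) * (N * ((C + 1) / N * ((C + 1) / N)))) +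
          (P * (2 * ((C + 1) / N) * (2 * (b * √(N : ℝ)) +
            2 * (κ * p₀ ^ (3 * K) / (64 * (C + 1)) * N))) +
          P / q₀ * (2 * ((C + 1) / N) * (2 * b))) =
          A2 / N + P * 4 * b * (C + 1) / √(N : ℝ) + κ / 16 * (P * p₀ ^ (3 * K)) := by
        have e1 : √(N : ℝ) / N = 1 / √(N : ℝ) := by
          rw [div_eq_div_iff hN'.ne' hs0.ne', hss, one_mul]
        have e2 : P * (2 * ((C + 1) / N) * (2 * (b * √(N : ℝ)) +
            2 * (κ * p₀ ^ (3 * K) / (64 * (C + 1)) * N))) =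
            P * 4 * b * (C + 1) * (√(N : ℝ) / N) + κ / 16 * (P * p₀ ^ (3 * K)) := by
          field_simp
          ring
        rw [e2, e1, hA2]
        field_simp
        ring
      have h2 : P * p₀ ^ (3 * K) = 1 := by
        rw [hPd, one_div, inv_mul_cancel₀ hpK.ne']
      rw [h1, h2]
      linarith)
    (by
      rw [← hPd]
      have h1 : P / q₀ * (K * (N * ((5 * ((C + 1) / N)) * ((5 * b : ℝ) * ((C + 1) / N))))) =
          A4 / N := by
        rw [hA4]
        field_simp
        try ring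
      rw [h1]
      linarith)
    (by
      rw [← hPd]
      have h1 : P / q₀ * (K * ((5 * b : ℝ) * ((C + 1) / N))) = A5 / N := by
        rw [hA5]
        field_simp
        try ring
      rw [h1]
      linarith)
  obtain ⟨Cv, f, h1, h2, h3, h4, h5, h6⟩ := asm h hOK hinj hsurj M φ hM1 hM2 hc.inj hc.valB
  refine ⟨Cv, f, h1, h2, h3, h4, h5, ?_⟩
  have h7 : (Z \ Cv).card ≤ (univ \ M).card * K := by
    refine (card_le_card h6).trans (card_biUnion_le_card_mul _ _ _ fun p _ => ?_)
    refine card_image_le.trans ?_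
    rw [card_univ, Fintype.card_fin]
    exact hpc p
  have h8 : ((Z \ Cv).card : ℝ) ≤ ((univ \ M).card : ℝ) * K := by exact_mod_cast h7
  have h9 : ((univ \ M).card : ℝ) * K ≤ (μ / (8 * ((K : ℝ) + 1)) * (3 * N + 2) + g₀) * K :=
    mul_le_mul_of_nonneg_right hM3 (Nat.cast_nonneg K)
  refine h8.trans (h9.trans ?_)
  have hν : (0 : ℝ) < μ / (8 * ((K : ℝ) + 1)) := by positivity
  have h10 : μ / (8 * ((K : ℝ) + 1)) * (3 * N + 2) * K ≤
      μ / (8 * ((K : ℝ) + 1)) * (5 * N) * (K + 1) :=
    mul_le_mul (mul_le_mul_of_nonneg_left (by linarith) hν.le) (by linarith) hKn (by positivity)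
  have h11 : μ / (8 * ((K : ℝ) + 1)) * (5 * N) * (K + 1) = 5 / 8 * (μ * N) := by
    field_simp
  have h12 : 3 * K * g₀ ≤ μ * N := by
    have e1 : A6 ≤ N := by linarith
    rw [hA6, div_le_iff₀ hμ] at e1
    linarith
  have h13 : (g₀ : ℝ) * K ≤ 1 / 3 * (μ * N) := by linarith
  have h14 : 0 ≤ μ * N := by positivity
  linarith

end SSB
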