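import Pool.Agent.Lib.MP_8a819d_co.AT.CoreA
import Pool.Agent.Lib.MP_8a819d_co.AT.CoreB
import Pool.Agent.Lib.MP_8a819d_co.AT.Tp2
import Pool.Agent.Lib.MP_8a819d_co.AT.PackF
import Pool.Agent.Lib.MP_8a819d_co.AT.PackVG

/-!
# MP_8a819d_co, trees with many non-leaves

`S1`: for every `δ > 0` there are `γ > 0`, `n₀` such that every tree with `n ≥ n₀` vertices, at least `δ n` of them with at least two neighbours, and
all of them with at most `γ n` neighbours, is simply sequential. `S2`: the same without the bound of the degrees.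
-/

set_option autoImplicit false

namespace SSB

open Finset

theorem Sgen (e : Bool) (hP : PackSt e) (hE : AbsE1) (hF : AbsF2) (δ : ℝ) (hδ : 0 < δ) :
    ∃ γ : ℝ, 0 < γ ∧ ∃ n₀ : ℕ,
    ∀ (n : ℕ) (G : SimpleGraph (Fin n)), n₀ ≤ n → G.IsTree →
      δ * n ≤ ((univ.filter (fun v : Fin n => 2 ≤ (G.neighborSet v).ncard)).card : ℝ) →
      (e = false → ∀ v : Fin n, ((G.neighborSet v).ncard : ℝ) ≤ γ * n) → SSq.Simply G := by
  obtain ⟨δ₂, hδ₂, γ₁, hγ₁, n₁, hA⟩ := coreA e hP hF δ hδ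
  obtain ⟨γ₂, hγ₂, n₂, hB⟩ := coreB e hP hE δ₂ hδ₂
  refine ⟨min γ₁ γ₂, lt_min hγ₁ hγ₂, max (max n₁ n₂) 1, fun n G hn hG hd hmax => ?_⟩
  have hn1 : n₁ ≤ n := le_trans (le_trans (le_max_left _ _) (le_max_left _ _)) hn
  have hn2 : n₂ ≤ n := le_trans (le_trans (le_max_right _ _) (le_max_left _ _)) hn
  have hn3 : 1 ≤ n := le_trans (le_max_right _ _) hn
  have hne : (univ.filter (fun v : Fin n => 2 ≤ (G.neighborSet v).ncard)).Nonempty := by
    rw [← Finset.card_pos]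
    have h1 : (0 : ℝ) < δ * n := mul_pos hδ (by exact_mod_cast hn3)
    exact_mod_cast lt_of_lt_of_le h1 hd
  obtain ⟨r, hr⟩ := hne
  rw [Finset.mem_filter] at hr
  obtain ⟨par, σ, hpar, h00, hσ, hdeg, hS⟩ := tree_to_par2 hG r
  apply hS
  have hmax' : e = false → ∀ v < n, (pdeg n par v : ℝ) ≤ min γ₁ γ₂ * n := by
    intro he v hv
    rw [hdeg ⟨v, hv⟩]
    exact hmax he _
  have hcard : (((range n).filter (fun v => 2 ≤ pdeg n par v)).card : ℕ) =
      (univ.filter (fun v : Fin n => 2 ≤ (G.neighborSet v).ncard)).card := by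
    symm
    apply Finset.card_bij (fun (v : Fin n) _ => ((σ.symm v : Fin n) : ℕ))
    · intro v hv
      rw [Finset.mem_filter] at hv ⊢
      refine ⟨Finset.mem_range.2 (σ.symm v).2, ?_⟩
      rw [hdeg (σ.symm v), Equiv.apply_symm_apply]
      exact hv.2
    · intro v _ w _ h
      exact σ.symm.injective (Fin.ext h)
    · intro i hi
      rw [Finset.mem_filter, Finset.mem_range] at hi
      refine ⟨σ ⟨i, hi.1⟩, ?_, ?_⟩
      · rw [Finset.mem_filter]
        refine ⟨Finset.mem_univ _, ?_⟩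
        rw [← hdeg ⟨i, hi.1⟩]
        exact hi.2
      · simp
  by_cases hh : ((hosts n par).card : ℝ) ≤ δ₂ * n
  · refine hA n hn1 par hpar h00 ?_ (fun he v hv => (hmax' he v hv).trans ?_) ?_ hh
    · rw [hdeg ⟨0, hn3⟩, hσ ⟨0, hn3⟩ rfl]
      exact hr.2
    · exact mul_le_mul_of_nonneg_right (min_le_left _ _) (Nat.cast_nonneg _)
    · rw [hcard]
      exact hd
  · refine hB n hn2 par hpar h00 (fun he v hv => (hmax' he v hv).trans ?_) (not_le.1 hh).le
    exact mul_le_mul_of_nonneg_right (min_le_right _ _) (Nat.cast_nonneg _)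

theorem S1 (hE : AbsE1) (hF : AbsF2) (δ : ℝ) (hδ : 0 < δ) : ∃ γ : ℝ, 0 < γ ∧ ∃ n₀ : ℕ,
    ∀ (n : ℕ) (G : SimpleGraph (Fin n)), n₀ ≤ n → G.IsTree →
      δ * n ≤ ((univ.filter (fun v : Fin n => 2 ≤ (G.neighborSet v).ncard)).card : ℝ) →
      (∀ v : Fin n, ((G.neighborSet v).ncard : ℝ) ≤ γ * n) → SSq.Simply G := by
  obtain ⟨γ, hγ, n₀, h⟩ := Sgen false packSt_false hE hF δ hδ
  exact ⟨γ, hγ, n₀, fun n G hn hG hd hm => h n G hn hG hd (fun _ => hm)⟩

theorem S2 (hE : AbsE1) (hF : AbsF2) (δ : ℝ) (hδ : 0 < δ) : ∃ n₀ : ℕ,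
    ∀ (n : ℕ) (G : SimpleGraph (Fin n)), n₀ ≤ n → G.IsTree →
      δ * n ≤ ((univ.filter (fun v : Fin n => 2 ≤ (G.neighborSet v).ncard)).card : ℝ) →
      SSq.Simply G := by
  obtain ⟨γ, hγ, n₀, h⟩ := Sgen true packSt_true hE hF δ hδ
  exact ⟨n₀, fun n G hn hG hd => h n G hn hG hd (fun h0 => absurd h0 (by decide))⟩

end SSB
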