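import Pool.Agent.Lib.MP_8a819d_co.AT.PackV5
import Pool.Agent.Lib.MP_8a819d_co.AT.PackSt

/-!
# MP_8a819d_co, trees with many non-leaves: packing with vertices of linear degree, 1. One component, blocks
-/

set_option autoImplicit false
set_option linter.unusedSectionVars false
set_option linter.unusedVariables false

namespace SSB

open Finset

variable {n N : ℕ} {par : ℕ → ℕ} {B Z Q : Finset ℕ} {f₀ : ℕ → ℕ} {C : ℝ} {mu : ℕ → ℕ → ℝ}
  {kr : ℕ → ℕ → ℕ → ℝ} {p : VP} {b : ℕ}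

theorem mem_blk (hb : 1 ≤ b) {j z : ℕ} : z / b = j ↔ z ∈ Ico (j * b) (j * b + b) := by
  rw [mem_Ico]
  constructor
  · rintro rfl
    exact ⟨Nat.div_mul_le_self z b, Nat.lt_div_mul_add hb⟩
  · rintro ⟨h1, h2⟩
    refine Nat.div_eq_of_lt_le h1 ?_
    rw [Nat.succ_mul]
    exact h2

theorem card_blk (j b : ℕ) : (Ico (j * b) (j * b + b)).card = b := by
  rw [Nat.card_Ico]
  omega

/-- two numbers of the same block differ by less than `b` -/
theorem blk_dd (hb : 1 ≤ b) {z z' : ℕ} (h : z / b = z' / b) : dd z z' < b := by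
  have h1 := (mem_blk hb (j := z' / b) (z := z)).1 h
  have h2 := (mem_blk hb (j := z' / b) (z := z')).1 rfl
  rw [mem_Ico] at h1 h2
  unfold dd
  omega

/-- the numbers `y` with `|u - 2 y| < b` -/
def tw1 (b u : ℕ) : Finset ℕ := Ico ((u - b) / 2) ((u - b) / 2 + (b + 1))

theorem tw1_card (b u : ℕ) : (tw1 b u).card = b + 1 := by
  unfold tw1
  rw [Nat.card_Ico]
  omega

theorem mem_tw1 {u y : ℕ} (h : dd u (2 * y) < b) : y ∈ tw1 b u := by
  unfold tw1
  unfold dd at h
  rw [mem_Ico]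
  omega

/-- two different labels used by `v` are in the same block -/
def Sb (n : ℕ) (par : ℕ → ℕ) (B Z : Finset ℕ) (f₀ : ℕ → ℕ) (b v x y : ℕ) : Prop :=
  ∃ z ∈ usv n par B Z f₀ v x y, ∃ z' ∈ usv n par B Z f₀ v x y, z ≠ z' ∧ z / b = z' / b

theorem sb_root {v : ℕ} (h : par v ∉ Z) (x x' y : ℕ) (hc : Sb n par B Z f₀ b v x y) :
    Sb n par B Z f₀ b v x' y := by
  unfold Sb at hc ⊢
  rw [usv_root h x' x]
  exact hc

/-- for given `x` there are few `y` with `Sb` -/
theorem sb_few (hb : 1 ≤ b) {v : ℕ} (hbn : (bnb n par B v).card ≤ 1) (x : ℕ)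
    (hx : par v ∈ Z → b ≤ x ∧ ∀ c ∈ bnb n par B v, b ≤ dd x (f₀ c))
    (hf : ∀ c ∈ bnb n par B v, b ≤ f₀ c) :
    ∃ T : Finset ℕ, T.card ≤ 6 * b ∧ ∀ y, Sb n par B Z f₀ b v x y → y ∈ T := by
  refine ⟨tw1 b x ∪ ((bnb n par B v).biUnion (fun c => tw1 b (f₀ c)) ∪
    (bnb n par B v).biUnion (fun c => tw1 b (x + f₀ c))), ?_, ?_⟩
  · have h1 := card_biUnion_le_card_mul (bnb n par B v) (fun c => tw1 b (f₀ c)) (b + 1)
      (fun c _ => (tw1_card b _).le)
    have h2 := card_biUnion_le_card_mul (bnb n par B v) (fun c => tw1 b (x + f₀ c)) (b + 1)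
      (fun c _ => (tw1_card b _).le)
    have h3 := tw1_card b x
    have h4 := card_union_le (tw1 b x) ((bnb n par B v).biUnion (fun c => tw1 b (f₀ c)) ∪
      (bnb n par B v).biUnion (fun c => tw1 b (x + f₀ c)))
    have h5 := card_union_le ((bnb n par B v).biUnion (fun c => tw1 b (f₀ c)))
      ((bnb n par B v).biUnion (fun c => tw1 b (x + f₀ c)))
    have h6 : (bnb n par B v).card * (b + 1) ≤ b + 1 := by nlinarith
    omega
  · intro y hy
    rw [mem_union, mem_union, mem_biUnion, mem_biUnion]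
    -- the pairs
    have p1 : par v ∈ Z → y / b = dd x y / b → y ∈ tw1 b x := by
      intro h1 h2
      have h3 := blk_dd hb h2
      have h4 := (hx h1).1
      apply mem_tw1
      unfold dd at h3 ⊢
      omega
    have p2 : ∀ c ∈ bnb n par B v, y / b = dd (f₀ c) y / b → y ∈ tw1 b (f₀ c) := by
      intro c hc h2
      have h3 := blk_dd hb h2
      have h4 := hf c hc
      apply mem_tw1
      unfold dd at h3 ⊢
      omega
    have p3 : ∀ c ∈ bnb n par B v, par v ∈ Z → dd x y / b = dd (f₀ c) y / b →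
        y ∈ tw1 b (x + f₀ c) := by
      intro c hc h1 h2
      have h3 := blk_dd hb h2
      have h4 := (hx h1).2 c hc
      apply mem_tw1
      unfold dd at h3 h4 ⊢
      omega
    obtain ⟨z, hz, z', hz', hne, hbl⟩ := hy
    rcases mem_usv.1 hz with h | ⟨c, hc, h⟩ | ⟨hp, h⟩ <;>
      rcases mem_usv.1 hz' with h' | ⟨c', hc', h'⟩ | ⟨hp', h'⟩
    · exact absurd (h.trans h'.symm) hne
    · exact Or.inr (Or.inl ⟨c', hc', p2 c' hc' (by rw [h, h'] at hbl; exact hbl)⟩)
    · exact Or.inl (p1 hp' (by rw [h, h'] at hbl; exact hbl))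
    · exact Or.inr (Or.inl ⟨c, hc, p2 c hc (by rw [h, h'] at hbl; exact hbl.symm)⟩)
    · have hcc : c = c' := card_le_one.1 hbn c hc c' hc'
      rw [hcc] at h
      exact absurd (h.trans h'.symm) hne
    · exact Or.inr (Or.inr ⟨c, hc, p3 c hc hp' (by rw [h, h'] at hbl; exact hbl.symm)⟩)
    · exact Or.inl (p1 hp (by rw [h, h'] at hbl; exact hbl.symm))
    · exact Or.inr (Or.inr ⟨c', hc', p3 c' hc' hp (by rw [h, h'] at hbl; exact hbl)⟩)
    · exact absurd (h.trans h'.symm) hne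

/-- few labels are small or near the label of a given vertex -/
theorem near_few (hb : 1 ≤ b) {v : ℕ} (hbn : (bnb n par B v).card ≤ 1) :
    ∃ T : Finset ℕ, T.card ≤ 3 * b ∧ ∀ y, (y < b ∨ ∃ c ∈ bnb n par B v, dd y (f₀ c) < b) →
      y ∈ T := by
  refine ⟨range b ∪ (bnb n par B v).biUnion (fun c => Ico (f₀ c + 1 - b) (f₀ c + b)), ?_, ?_⟩
  · have h1 := card_biUnion_le_card_mul (bnb n par B v)
      (fun c => Ico (f₀ c + 1 - b) (f₀ c + b)) (2 * b) (fun c _ => by
        rw [Nat.card_Ico]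
        omega)
    have h2 := card_union_le (range b)
      ((bnb n par B v).biUnion (fun c => Ico (f₀ c + 1 - b) (f₀ c + b)))
    rw [card_range] at h2
    have h3 : (bnb n par B v).card * (2 * b) ≤ 2 * b := by nlinarith
    omega
  · intro y hy
    rw [mem_union, mem_range, mem_biUnion]
    rcases hy with h | ⟨c, hc, h⟩
    · exact Or.inl h
    · refine Or.inr ⟨c, hc, ?_⟩
      rw [mem_Ico]
      unfold dd at h
      omega

open Classical in
/-- indicator: the vertex `i` uses a label of the block `j` -/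
noncomputable def VP.hb (p : VP) (n N : ℕ) (par : ℕ → ℕ) (B Z : Finset ℕ) (f₀ : ℕ → ℕ) (b : ℕ)
    (i : Fin (p.k + 1)) (j : ℕ) (x y : Fin (N + 1)) : ℝ :=
  if ∃ z ∈ usv n par B Z f₀ (p.emb i) x y, z / b = j then 1 else 0

open Classical in
/-- indicator: two different labels used by `i` are in the same block, and the label of the parent is
not special -/
noncomputable def VP.hs (p : VP) (n N : ℕ) (par : ℕ → ℕ) (B Z : Finset ℕ) (f₀ : ℕ → ℕ) (b : ℕ)
    (i : Fin (p.k + 1)) (x y : Fin (N + 1)) : ℝ :=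
  if Sb n par B Z f₀ b (p.emb i) x y ∧ (par (p.emb i) ∈ Z → b ≤ (x : ℕ) ∧
    ∀ c ∈ bnb n par B (p.emb i), b ≤ dd x (f₀ c)) then 1 else 0

open Classical in
/-- indicator: the label `y` is small or near the label of a neighbour of `v` -/
noncomputable def hnr (n N : ℕ) (par : ℕ → ℕ) (B : Finset ℕ) (f₀ : ℕ → ℕ) (b v : ℕ)
    (x y : Fin (N + 1)) : ℝ :=
  if (y : ℕ) < b ∨ ∃ c ∈ bnb n par B v, dd y (f₀ c) < b then 1 else 0

theorem vp_LBb (hb : 1 ≤ b) (h : EnvV n N par B Z Q f₀ C mu kr) (hp : p.OK par Z)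
    (i : Fin (p.k + 1)) (j : ℕ) :
    LB (p.mz N mu) (p.kap N par mu kr) i (p.hb n N par B Z f₀ b i j)
      ((5 * b : ℝ) * ((C + 1) / N)) := by
  classical
  have h1 := vp_LBT h hp i (5 * b) (fun x y => ∃ z ∈ usv n par B Z f₀ (p.emb i) x y, z / b = j)
    (fun x => by
      have h2 := fun z => usv_five (Z := Z) (h.bnb_le _ (hp.emb_mem i)) (f₀ := f₀) x z
      choose T hT hT' using h2
      refine ⟨(Ico (j * b) (j * b + b)).biUnion T, ?_, ?_⟩
      · have h3 := card_biUnion_le_card_mul (Ico (j * b) (j * b + b)) T 5 (fun z _ => hT z)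
        rw [card_blk] at h3
        omega
      · rintro y ⟨z, hz, hj⟩
        exact mem_biUnion.2 ⟨z, (mem_blk hb).1 hj, hT' z y hz⟩)
    (fun hi x x' y hc => by
      subst hi
      obtain ⟨z, hz, hj⟩ := hc
      exact ⟨z, by rw [usv_root hp.emb_root _ x]; exact hz, hj⟩)
  have h2 : ((5 * b : ℕ) : ℝ) = 5 * b := by push_cast; ring
  rw [h2] at h1
  have h3 : p.hb n N par B Z f₀ b i j = fun (x y : Fin (N + 1)) =>
      if ∃ z ∈ usv n par B Z f₀ (p.emb i) x y, z / b = j then (1 : ℝ) else 0 := by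
    funext x y
    unfold VP.hb
    split_ifs <;> rfl
  rw [h3]
  exact h1

theorem vp_LBs (hb : 1 ≤ b) (h : EnvV n N par B Z Q f₀ C mu kr) (hp : p.OK par Z)
    (i : Fin (p.k + 1)) (hf : ∀ c ∈ bnb n par B (p.emb i), b ≤ f₀ c) :
    LB (p.mz N mu) (p.kap N par mu kr) i (p.hs n N par B Z f₀ b i)
      ((6 * b : ℝ) * ((C + 1) / N)) := by
  classical
  have h1 := vp_LBT h hp i (6 * b) (fun x y => Sb n par B Z f₀ b (p.emb i) x y ∧
      (par (p.emb i) ∈ Z → b ≤ (x : ℕ) ∧ ∀ c ∈ bnb n par B (p.emb i), b ≤ dd x (f₀ c)))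
    (fun x => by
      by_cases hx : par (p.emb i) ∈ Z → b ≤ (x : ℕ) ∧
        ∀ c ∈ bnb n par B (p.emb i), b ≤ dd x (f₀ c)
      · obtain ⟨T, hT, hT'⟩ := sb_few (Z := Z) hb (h.bnb_le _ (hp.emb_mem i)) (f₀ := f₀) x hx hf
        exact ⟨T, hT, fun y hy => hT' y hy.1⟩
      · exact ⟨∅, by simp, fun y hy => absurd hy.2 hx⟩)
    (fun hi x x' y hc => by
      subst hi
      exact ⟨sb_root hp.emb_root _ _ _ hc.1, fun h2 => absurd h2 hp.emb_root⟩)
  have h2 : ((6 * b : ℕ) : ℝ) = 6 * b := by push_cast; ring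
  rw [h2] at h1
  have h3 : p.hs n N par B Z f₀ b i = fun (x y : Fin (N + 1)) =>
      if Sb n par B Z f₀ b (p.emb i) x y ∧ (par (p.emb i) ∈ Z → b ≤ (x : ℕ) ∧
        ∀ c ∈ bnb n par B (p.emb i), b ≤ dd x (f₀ c)) then (1 : ℝ) else 0 := by
    funext x y
    unfold VP.hs
    split_ifs <;> rfl
  rw [h3]
  exact h1

theorem vp_LBn (hb : 1 ≤ b) (h : EnvV n N par B Z Q f₀ C mu kr) (hp : p.OK par Z)
    (i : Fin (p.k + 1)) {v : ℕ} (hv : v ∈ Z) :
    LB (p.mz N mu) (p.kap N par mu kr) i (hnr n N par B f₀ b v)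
      ((3 * b : ℝ) * ((C + 1) / N)) := by
  classical
  have h1 := vp_LBT h hp i (3 * b)
    (fun x y => (y : ℕ) < b ∨ ∃ c ∈ bnb n par B v, dd y (f₀ c) < b)
    (fun x => by
      obtain ⟨T, hT, hT'⟩ := near_few hb (h.bnb_le _ hv) (f₀ := f₀)
      exact ⟨T, hT, fun y hy => hT' y hy⟩)
    (fun hi x x' y hc => hc)
  have h2 : ((3 * b : ℕ) : ℝ) = 3 * b := by push_cast; ring
  rw [h2] at h1
  have h3 : hnr n N par B f₀ b v = fun (x y : Fin (N + 1)) =>
      if (y : ℕ) < b ∨ ∃ c ∈ bnb n par B v, dd y (f₀ c) < b then (1 : ℝ) else 0 := by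
    funext x y
    unfold hnr
    split_ifs <;> rfl
  rw [h3]
  exact h1

/-- two cells in the same block: `O` are the vertices whose labels are ordinary cells -/
def VP.NS (p : VP) (n : ℕ) (par : ℕ → ℕ) (B Z : Finset ℕ) (f₀ : ℕ → ℕ) (b : ℕ)
    (O : Fin (p.k + 1) → Prop) (φ : Fin (p.k + 1) → ℕ) : Prop :=
  (∃ i j, i ≠ j ∧ ∃ z ∈ p.us n par B Z f₀ φ i, ∃ z' ∈ p.us n par B Z f₀ φ j, z / b = z' / b) ∨
    ∃ i, O i ∧ Sb n par B Z f₀ b (p.emb i) (φ (p.par i)) (φ i)

theorem hb_us (φ : Fin (p.k + 1) → Fin (N + 1)) (i : Fin (p.k + 1)) (j : ℕ)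
    (hz : ∃ z ∈ p.us n par B Z f₀ (p.lab φ) i, z / b = j) :
    p.hb n N par B Z f₀ b i j (φ (p.par i)) (φ i) = 1 := by
  unfold VP.hb
  rw [if_pos]
  exact hz

open Classical in
theorem vp_ns (hb : 1 ≤ b) (h : EnvV n N par B Z Q f₀ C mu kr) (hp : p.OK par Z)
    (O : Fin (p.k + 1) → Prop) (hO : ∀ i, O i → ∀ c ∈ bnb n par B (p.emb i), b ≤ f₀ c) :
    ∑ φ : Fin (p.k + 1) → Fin (N + 1), (if p.NS n par B Z f₀ b O (p.lab φ) then
      p.cwv N par mu kr φ else 0) ≤
      ((p.k : ℝ) + 1) * ((9 * b : ℝ) * ((C + 1) / N)) +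
        ((p.k : ℝ) + 1) ^ 2 * (N * ((5 * ((C + 1) / N)) * ((5 * b : ℝ) * ((C + 1) / N)))) := by
  have hN : (0 : ℝ) < N := by exact_mod_cast h.N1
  have hC := h.C0
  have hCN : (0 : ℝ) ≤ 5 * ((C + 1) / N) := by positivity
  -- the second kind of events
  obtain ⟨A, hA⟩ : ∃ A : (Fin (p.k + 1) → Fin (N + 1)) → Fin (p.k + 1) → ℝ, ∀ φ i, A φ i =
      if O i then p.cwv N par mu kr φ * p.hs n N par B Z f₀ b i (φ (p.par i)) (φ i) +
        p.cwv N par mu kr φ * hnr n N par B f₀ b (p.emb i) (φ (p.par (p.par i)))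
          (φ (p.par i)) else 0 := ⟨_, fun _ _ => rfl⟩
  have hs0 : ∀ i x y, 0 ≤ p.hs n N par B Z f₀ b i x y := fun i x y => by
    unfold VP.hs
    split_ifs <;> norm_num
  have hn0 : ∀ v (x y : Fin (N + 1)), 0 ≤ hnr n N par B f₀ b v x y := fun v x y => by
    unfold hnr
    split_ifs <;> norm_num
  have hA0 : ∀ φ i, 0 ≤ A φ i := fun φ i => by
    rw [hA]
    split_ifs
    · exact add_nonneg (mul_nonneg (cwv_nonneg h hp φ) (hs0 _ _ _))
        (mul_nonneg (cwv_nonneg h hp φ) (hn0 _ _ _))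
    · exact le_rfl
  have hD0 : ∀ (φ : Fin (p.k + 1) → Fin (N + 1)) (t : (Fin (p.k + 1) × Fin (p.k + 1)) × ℕ),
      0 ≤ p.cwv N par mu kr φ * (p.hh n N par B Z f₀ t.1.1 t.2 (φ (p.par t.1.1)) (φ t.1.1) *
        p.hb n N par B Z f₀ b t.1.2 (t.2 / b) (φ (p.par t.1.2)) (φ t.1.2)) :=
    fun φ t => mul_nonneg (cwv_nonneg h hp φ) (mul_nonneg ((vp_LB h hp _ _).1 _ _)
      ((vp_LBb hb h hp _ _).1 _ _))
  have hpt : ∀ φ : Fin (p.k + 1) → Fin (N + 1),
      (if p.NS n par B Z f₀ b O (p.lab φ) then p.cwv N par mu kr φ else 0) ≤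
      (∑ i, A φ i) +
      ∑ t ∈ p.od ×ˢ Q, p.cwv N par mu kr φ *
        (p.hh n N par B Z f₀ t.1.1 t.2 (φ (p.par t.1.1)) (φ t.1.1) *
        p.hb n N par B Z f₀ b t.1.2 (t.2 / b) (φ (p.par t.1.2)) (φ t.1.2)) := by
    intro φ
    have hAs := sum_nonneg fun (i : Fin (p.k + 1)) (_ : i ∈ univ) => hA0 φ i
    have hDs := sum_nonneg fun (t : (Fin (p.k + 1) × Fin (p.k + 1)) × ℕ) (_ : t ∈ p.od ×ˢ Q) =>
      hD0 φ t
    split_ifs with hns
    · by_cases h0 : p.cwv N par mu kr φ = 0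
      · rw [h0] at hDs ⊢
        exact add_nonneg hAs hDs
      · have hrule := vp_rule h hp h0
        rcases hns with ⟨i, j, hij, z, hz, z', hz', hzz⟩ | ⟨i, hOi, hi⟩
        · have h2 : p.cwv N par mu kr φ ≤ p.cwv N par mu kr φ *
              (p.hh n N par B Z f₀ i z (φ (p.par i)) (φ i) *
              p.hb n N par B Z f₀ b j (z / b) (φ (p.par j)) (φ j)) := by
            rw [hh_us, if_pos hz, hb_us φ j (z / b) ⟨z', hz', hzz.symm⟩, mul_one, mul_one]
          have h3 := single_le_sum (f := fun t : (Fin (p.k + 1) × Fin (p.k + 1)) × ℕ =>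
            p.cwv N par mu kr φ *
            (p.hh n N par B Z f₀ t.1.1 t.2 (φ (p.par t.1.1)) (φ t.1.1) *
            p.hb n N par B Z f₀ b t.1.2 (t.2 / b) (φ (p.par t.1.2)) (φ t.1.2)))
            (fun t _ => hD0 φ t)
            (show ((i, j), z) ∈ p.od ×ˢ Q from mem_product.2
              ⟨mem_filter.2 ⟨mem_univ _, hij⟩, (hrule i).1 hz⟩)
          dsimp only at h3
          linarith
        · have h2 : p.cwv N par mu kr φ ≤ A φ i := by
            rw [hA, if_pos hOi]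
            by_cases hnr' : ((φ (p.par i) : ℕ) < b ∨
                ∃ c ∈ bnb n par B (p.emb i), dd (φ (p.par i)) (f₀ c) < b)
            · have h4 : hnr n N par B f₀ b (p.emb i) (φ (p.par (p.par i))) (φ (p.par i)) = 1 := by
                unfold hnr
                rw [if_pos hnr']
              rw [h4, mul_one]
              have h5 := mul_nonneg (cwv_nonneg h hp φ) (hs0 i (φ (p.par i)) (φ i))
              linarith
            · push Not at hnr'
              have h4 : p.hs n N par B Z f₀ b i (φ (p.par i)) (φ i) = 1 := by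
                unfold VP.hs
                rw [if_pos]
                exact ⟨hi, fun _ => hnr'⟩
              rw [h4, mul_one]
              have h5 := mul_nonneg (cwv_nonneg h hp φ)
                (hn0 (p.emb i) (φ (p.par (p.par i))) (φ (p.par i)))
              linarith
          have h3 := single_le_sum (f := fun i : Fin (p.k + 1) => A φ i)
            (fun i _ => hA0 φ i) (mem_univ i)
          linarith
    · exact add_nonneg hAs hDs
  refine (sum_le_sum fun φ _ => hpt φ).trans ?_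
  rw [sum_add_distrib]
  refine add_le_add (le_of_eq_of_le sum_comm ?_) (le_of_eq_of_le sum_comm ?_)
  · have h1 : ∀ i : Fin (p.k + 1), ∑ φ : Fin (p.k + 1) → Fin (N + 1), A φ i ≤
        (9 * b : ℝ) * ((C + 1) / N) := by
      intro i
      by_cases hOi : O i
      · have h2 : ∀ φ : Fin (p.k + 1) → Fin (N + 1), A φ i =
            p.cwv N par mu kr φ * p.hs n N par B Z f₀ b i (φ (p.par i)) (φ i) +
            p.cwv N par mu kr φ * hnr n N par B f₀ b (p.emb i) (φ (p.par (p.par i)))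
              (φ (p.par i)) := fun φ => by rw [hA, if_pos hOi]
        rw [sum_congr rfl fun φ _ => h2 φ, sum_add_distrib]
        have h3 : ∑ φ : Fin (p.k + 1) → Fin (N + 1), p.cwv N par mu kr φ *
            p.hs n N par B Z f₀ b i (φ (p.par i)) (φ i) ≤ (6 * b : ℝ) * ((C + 1) / N) :=
          cw_hloc (vp_ok h hp) (vp_LBs hb h hp i (hO i hOi))
        have h4 : ∑ φ : Fin (p.k + 1) → Fin (N + 1), p.cwv N par mu kr φ *
            hnr n N par B f₀ b (p.emb i) (φ (p.par (p.par i))) (φ (p.par i)) ≤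
            (3 * b : ℝ) * ((C + 1) / N) :=
          cw_hloc (vp_ok h hp) (vp_LBn hb h hp (p.par i) (hp.emb_mem i))
        linarith
      · rw [sum_congr rfl fun φ _ => (show A φ i = 0 by rw [hA, if_neg hOi]), sum_const_zero]
        positivity
    refine (sum_le_sum fun i _ => h1 i).trans (le_of_eq ?_)
    rw [sum_const, card_univ, Fintype.card_fin, nsmul_eq_mul]
    push_cast
    ring
  · have hd : ∀ t ∈ p.od ×ˢ Q, ∑ φ : Fin (p.k + 1) → Fin (N + 1), p.cwv N par mu kr φ *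
        (p.hh n N par B Z f₀ t.1.1 t.2 (φ (p.par t.1.1)) (φ t.1.1) *
        p.hb n N par B Z f₀ b t.1.2 (t.2 / b) (φ (p.par t.1.2)) (φ t.1.2)) ≤
        (5 * ((C + 1) / N)) * ((5 * b : ℝ) * ((C + 1) / N)) := by
      intro t ht
      have h1 : t.1.1 ≠ t.1.2 := (mem_filter.1 (mem_product.1 ht).1).2
      exact cw_two (vp_ok h hp) h1 hCN (vp_LB h hp t.1.1 t.2) (vp_LBb hb h hp t.1.2 (t.2 / b))
    refine (sum_le_sum hd).trans ?_
    rw [sum_const, nsmul_eq_mul, card_product, Nat.cast_mul, mul_assoc]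
    have hQ : (Q.card : ℝ) ≤ N := by
      have h1 := card_le_card h.Q_sub
      rw [Nat.card_Icc] at h1
      have h2 : Q.card ≤ N := by omega
      exact_mod_cast h2
    refine mul_le_mul od_card ?_ (by positivity) (by positivity)
    exact mul_le_mul_of_nonneg_right hQ (by positivity)

open Classical in
/-- codegree of a label and a block -/
theorem vp_codb (hb : 1 ≤ b) (h : EnvV n N par B Z Q f₀ C mu kr) (hp : p.OK par Z)
    (O : Fin (p.k + 1) → Prop) {z j : ℕ} (hj : z / b ≠ j) :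
    ∑ φ : Fin (p.k + 1) → Fin (N + 1), (if (∃ i, O i ∧ z ∈ p.us n par B Z f₀ (p.lab φ) i ∧
        ∃ i', ∃ z' ∈ p.us n par B Z f₀ (p.lab φ) i', z' / b = j) then
      p.cwv N par mu kr φ else 0) ≤
    ((p.k : ℝ) + 1) ^ 2 * ((5 * ((C + 1) / N)) * ((5 * b : ℝ) * ((C + 1) / N))) +
      ∑ i, (if O i then (12 * b * ((C + 1) / N * ((C + 1) / N)) +
        ∑ z' ∈ Ico (j * b) (j * b + b), if (∃ c ∈ bnb n par B (p.emb i), f₀ c = z + z' ∨
          f₀ c = dd z z') then 2 * ((C + 1) / N) else 0) else 0) := by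
  have hN : (0 : ℝ) < N := by exact_mod_cast h.N1
  have hC := h.C0
  have hCN : (0 : ℝ) ≤ 5 * ((C + 1) / N) := by positivity
  have hD0 : ∀ (φ : Fin (p.k + 1) → Fin (N + 1)) (t : Fin (p.k + 1) × Fin (p.k + 1)),
      0 ≤ p.cwv N par mu kr φ * (p.hh n N par B Z f₀ t.1 z (φ (p.par t.1)) (φ t.1) *
        p.hb n N par B Z f₀ b t.2 j (φ (p.par t.2)) (φ t.2)) :=
    fun φ t => mul_nonneg (cwv_nonneg h hp φ) (mul_nonneg ((vp_LB h hp _ _).1 _ _)
      ((vp_LBb hb h hp _ _).1 _ _))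
  have hA0 : ∀ (φ : Fin (p.k + 1) → Fin (N + 1)) (i : Fin (p.k + 1)) (z' : ℕ),
      0 ≤ p.cwv N par mu kr φ * (p.hh n N par B Z f₀ i z (φ (p.par i)) (φ i) *
      p.hh n N par B Z f₀ i z' (φ (p.par i)) (φ i)) :=
    fun φ i z' => mul_nonneg (cwv_nonneg h hp φ) (mul_nonneg ((vp_LB h hp _ _).1 _ _)
      ((vp_LB h hp _ _).1 _ _))
  have hA1 : ∀ (φ : Fin (p.k + 1) → Fin (N + 1)) (i : Fin (p.k + 1)),
      0 ≤ (if O i then ∑ z' ∈ Ico (j * b) (j * b + b), p.cwv N par mu kr φ *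
        (p.hh n N par B Z f₀ i z (φ (p.par i)) (φ i) *
        p.hh n N par B Z f₀ i z' (φ (p.par i)) (φ i)) else 0) := by
    intro φ i
    split_ifs
    · exact sum_nonneg fun z' _ => hA0 φ i z'
    · exact le_rfl
  have hpt : ∀ φ : Fin (p.k + 1) → Fin (N + 1),
      (if (∃ i, O i ∧ z ∈ p.us n par B Z f₀ (p.lab φ) i ∧
        ∃ i', ∃ z' ∈ p.us n par B Z f₀ (p.lab φ) i', z' / b = j) then
        p.cwv N par mu kr φ else 0) ≤
      (∑ t ∈ p.od, p.cwv N par mu kr φ * (p.hh n N par B Z f₀ t.1 z (φ (p.par t.1)) (φ t.1) *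
        p.hb n N par B Z f₀ b t.2 j (φ (p.par t.2)) (φ t.2))) +
      ∑ i, (if O i then ∑ z' ∈ Ico (j * b) (j * b + b), p.cwv N par mu kr φ *
        (p.hh n N par B Z f₀ i z (φ (p.par i)) (φ i) *
        p.hh n N par B Z f₀ i z' (φ (p.par i)) (φ i)) else 0) := by
    intro φ
    have hDs := sum_nonneg fun (t : Fin (p.k + 1) × Fin (p.k + 1)) (_ : t ∈ p.od) => hD0 φ t
    have hAs := sum_nonneg fun (i : Fin (p.k + 1)) (_ : i ∈ univ) => hA1 φ i
    split_ifs with hev
    · obtain ⟨i, hOi, hz, i', z', hz', hj'⟩ := hev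
      by_cases hii : i = i'
      · subst hii
        have h3 := single_le_sum (f := fun i : Fin (p.k + 1) =>
          (if O i then ∑ z' ∈ Ico (j * b) (j * b + b), p.cwv N par mu kr φ *
          (p.hh n N par B Z f₀ i z (φ (p.par i)) (φ i) *
          p.hh n N par B Z f₀ i z' (φ (p.par i)) (φ i)) else 0)) (fun i _ => hA1 φ i) (mem_univ i)
        have h4 := single_le_sum (f := fun z' : ℕ => p.cwv N par mu kr φ *
          (p.hh n N par B Z f₀ i z (φ (p.par i)) (φ i) *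
          p.hh n N par B Z f₀ i z' (φ (p.par i)) (φ i))) (fun z' _ => hA0 φ i z')
          ((mem_blk hb).1 hj')
        have h5 : p.cwv N par mu kr φ * (p.hh n N par B Z f₀ i z (φ (p.par i)) (φ i) *
            p.hh n N par B Z f₀ i z' (φ (p.par i)) (φ i)) = p.cwv N par mu kr φ := by
          rw [hh_us, hh_us, if_pos hz, if_pos hz', mul_one, mul_one]
        try dsimp only at h3
        try dsimp only at h4
        rw [if_pos hOi] at h3
        linarith
      · have h3 := single_le_sum (f := fun t : Fin (p.k + 1) × Fin (p.k + 1) =>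
          p.cwv N par mu kr φ * (p.hh n N par B Z f₀ t.1 z (φ (p.par t.1)) (φ t.1) *
          p.hb n N par B Z f₀ b t.2 j (φ (p.par t.2)) (φ t.2))) (fun t _ => hD0 φ t)
          (show (i, i') ∈ p.od from mem_filter.2 ⟨mem_univ _, hii⟩)
        have h5 : p.cwv N par mu kr φ * (p.hh n N par B Z f₀ i z (φ (p.par i)) (φ i) *
            p.hb n N par B Z f₀ b i' j (φ (p.par i')) (φ i')) = p.cwv N par mu kr φ := by
          rw [hh_us, if_pos hz, hb_us φ i' j ⟨z', hz', hj'⟩, mul_one, mul_one]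
        dsimp only at h3
        linarith
    · exact add_nonneg hDs hAs
  refine (sum_le_sum fun φ _ => hpt φ).trans ?_
  rw [sum_add_distrib]
  refine add_le_add (le_of_eq_of_le sum_comm ?_) (le_of_eq_of_le sum_comm (sum_le_sum fun i _ => ?_))
  · refine (sum_le_sum fun t ht => cw_two (vp_ok h hp) (mem_filter.1 ht).2 hCN (vp_LB h hp t.1 z)
      (vp_LBb hb h hp t.2 j)).trans ?_
    rw [sum_const, nsmul_eq_mul]
    exact mul_le_mul_of_nonneg_right od_card (by positivity)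
  · by_cases hOi : O i
    · simp only [if_pos hOi]
      rw [sum_comm]
      have h1 : ∀ z' ∈ Ico (j * b) (j * b + b), ∑ φ : Fin (p.k + 1) → Fin (N + 1),
          p.cwv N par mu kr φ * (p.hh n N par B Z f₀ i z (φ (p.par i)) (φ i) *
          p.hh n N par B Z f₀ i z' (φ (p.par i)) (φ i)) ≤
          12 * ((C + 1) / N * ((C + 1) / N)) + (if (∃ c ∈ bnb n par B (p.emb i), f₀ c = z + z' ∨
            f₀ c = dd z z') then 2 * ((C + 1) / N) else 0) := by
        intro z' hz'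
        have h2 : z ≠ z' := by
          rintro rfl
          exact hj ((mem_blk hb).2 hz')
        refine (vp_cod1 h hp i h2).trans (le_of_eq ?_)
        congr 1
      refine (sum_le_sum h1).trans (le_of_eq ?_)
      rw [sum_add_distrib, sum_const, card_blk, nsmul_eq_mul]
      ring
    · simp only [if_neg hOi, sum_const_zero]
      exact le_rfl

end SSB
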