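import Pool.Agent.Lib.MP_8a819d_co.AT.PackG1

/-!
# MP_8a819d_co, trees with many non-leaves: packing with vertices of linear degree, 2. Counting, dominoes
-/

set_option autoImplicit false
set_option linter.unusedSectionVars false
set_option linter.unusedVariables false

namespace SSB

open Finset

theorem win_sum (s : Finset ℕ) (F : ℕ → ℝ) {M₁ M₂ : ℝ} (h1 : 0 ≤ M₁) (h2 : 0 ≤ M₂)
    (hF : ∀ z ∈ s, F z ≤ M₂)
    (hu : ∀ z ∈ s, ∀ z' ∈ s, z ≠ z' → ¬ (M₁ < F z ∧ M₁ < F z')) :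
    ∑ z ∈ s, F z ≤ s.card * M₁ + M₂ := by
  by_cases h : ∃ z ∈ s, M₁ < F z
  · obtain ⟨z, hz, hz1⟩ := h
    rw [← add_sum_erase _ _ hz]
    have h3 : ∑ x ∈ s.erase z, F x ≤ ∑ x ∈ s.erase z, M₁ := by
      refine sum_le_sum fun x hx => ?_
      by_contra h4
      push Not at h4
      exact hu z hz x (mem_of_mem_erase hx) (ne_of_mem_erase hx).symm ⟨hz1, h4⟩
    rw [sum_const, nsmul_eq_mul] at h3
    have h4 : ((s.erase z).card : ℝ) ≤ s.card := by
      exact_mod_cast card_le_card (erase_subset z s)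
    have h5 := mul_le_mul_of_nonneg_right h4 h1
    have h6 := hF z hz
    linarith
  · push Not at h
    have h3 := sum_le_sum h
    rw [sum_const, nsmul_eq_mul] at h3
    linarith

variable {g₀ c₁ b K n N : ℕ} {γ p₀ C : ℝ} {par : ℕ → ℕ} {G B Z Q : Finset ℕ} {f₀ : ℕ → ℕ}
  {Dom : ℕ → Finset ℕ} {mu : ℕ → ℕ → ℝ} {kr : ℕ → ℕ → ℕ → ℝ}

theorem PkCfg.env (hc : PkCfg true g₀ c₁ b γ p₀ C K n N par G B Z Q f₀ Dom mu kr) (hN : 1 ≤ N)
    (hC : 0 < C) : EnvV n N par B Z Q f₀ C mu kr :=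
  { isPar := hc.isP, nN := hc.nN, N1 := hN, C0 := hC, B_sub := hc.Bsub, Z_sub := hc.Zsub,
    BZ := hc.BZ, Z0 := hc.Z0, Q_sub := hc.QN, bnb_le := hc.one,
    f0_one := fun b hb => (hc.valB (Sum.inl b) (mem_items_inl.2 hb)).1,
    f0_Q := fun b hb => (hc.valB (Sum.inl b) (mem_items_inl.2 hb)).2,
    f0_inj := fun a ha b hb hab => Sum.inl_injective
      (hc.inj (mem_coe.2 (mem_items_inl.2 ha)) (mem_coe.2 (mem_items_inl.2 hb)) hab),
    law := hc.law }

open Classical in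
theorem cnt_bound (hc : PkCfg true g₀ c₁ b γ p₀ C K n N par G B Z Q f₀ Dom mu kr)
    (h : EnvV n N par B Z Q f₀ C mu kr) (hb : 1 ≤ b) (hγ : 0 ≤ γ) {z j : ℕ} (hj : z / b ≠ j) :
    ∑ v ∈ Z, ∑ z' ∈ Ico (j * b) (j * b + b),
      (if ∃ c ∈ bnb n par B v, c ∉ G ∧ (f₀ c = z + z' ∨ f₀ c = dd z z') then (1 : ℝ) else 0) ≤
      2 * (b * √N) + 2 * (γ * N) := by
  have hγN : 0 ≤ γ * N := mul_nonneg hγ (Nat.cast_nonneg N)
  have hsN : (0 : ℝ) ≤ √N := Real.sqrt_nonneg _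
  obtain ⟨zd, hzd⟩ : ∃ zd : ℕ → ℝ, ∀ a, zd a =
      ((Z.filter (fun v => ∃ c ∈ bnb n par B v, c ∉ G ∧ f₀ c = a)).card : ℝ) := ⟨_, fun _ => rfl⟩
  have key : ∀ a, zd a ≤ γ * N ∧ (√N < zd a → ∃ c ∈ B \ G, f₀ c = a ∧ N < zdg n par B Z c ^ 2) := by
    intro a
    by_cases ha : ∃ c ∈ B \ G, f₀ c = a
    · obtain ⟨c, hcB, hca⟩ := ha
      have h1 : zd a ≤ (zdg n par B Z c : ℝ) := by
        rw [hzd]
        have h2 : (Z.filter (fun v => ∃ c ∈ bnb n par B v, c ∉ G ∧ f₀ c = a)).card ≤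
            zdg n par B Z c := by
          unfold zdg
          refine card_le_card fun v hv => ?_
          obtain ⟨h3, c', h4, h5, h6⟩ := mem_filter.1 hv
          have h7 : c' = c := h.f0_inj (mem_bnb.1 h4).1 (mem_sdiff.1 hcB).1 (h6.trans hca.symm)
          exact mem_filter.2 ⟨h3, h7 ▸ h4⟩
        exact_mod_cast h2
      refine ⟨h1.trans (hc.B_deg c hcB), fun h2 => ⟨c, hcB, hca, ?_⟩⟩
      have h3 : √N < (zdg n par B Z c : ℝ) := lt_of_lt_of_le h2 h1
      have h4 : (N : ℝ) < (zdg n par B Z c : ℝ) ^ 2 := by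
        have h5 := Real.sq_sqrt (Nat.cast_nonneg N : (0 : ℝ) ≤ N)
        nlinarith
      exact_mod_cast h4
    · have h1 : zd a = 0 := by
        rw [hzd]
        have h2 : Z.filter (fun v => ∃ c ∈ bnb n par B v, c ∉ G ∧ f₀ c = a) = ∅ := by
          rw [filter_eq_empty_iff]
          rintro v hv ⟨c, h4, h5, h6⟩
          exact ha ⟨c, mem_sdiff.2 ⟨(mem_bnb.1 h4).1, h5⟩, h6⟩
        rw [h2, card_empty, Nat.cast_zero]
      rw [h1]
      exact ⟨hγN, fun h2 => absurd h2 (not_lt.2 hsN)⟩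
  rw [sum_comm]
  have h1 : ∀ z' ∈ Ico (j * b) (j * b + b), ∑ v ∈ Z,
      (if ∃ c ∈ bnb n par B v, c ∉ G ∧ (f₀ c = z + z' ∨ f₀ c = dd z z') then (1 : ℝ) else 0) ≤
      zd (z + z') + zd (dd z z') := by
    intro z' _
    rw [sum_boole, hzd, hzd, ← Nat.cast_add]
    refine Nat.cast_le.2 (le_trans (card_le_card fun v hv => ?_) (card_union_le _ _))
    obtain ⟨h3, c, h4, h5, h6⟩ := mem_filter.1 hv
    rw [mem_union, mem_filter, mem_filter]
    rcases h6 with h6 | h6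
    · exact Or.inl ⟨h3, c, h4, h5, h6⟩
    · exact Or.inr ⟨h3, c, h4, h5, h6⟩
  refine (sum_le_sum h1).trans ?_
  rw [sum_add_distrib]
  have hblk : ∀ z' ∈ Ico (j * b) (j * b + b), ∀ z'' ∈ Ico (j * b) (j * b + b), dd z' z'' < b :=
    fun z' hz' z'' hz'' => blk_dd hb (((mem_blk hb).2 hz').trans ((mem_blk hb).2 hz'').symm)
  -- the position of the block
  have hside : (∀ z' ∈ Ico (j * b) (j * b + b), z < z') ∨ (∀ z' ∈ Ico (j * b) (j * b + b), z' < z) := by
    rcases lt_or_gt_of_ne hj with h2 | h2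
    · left
      intro z' hz'
      have h3 := (mem_blk hb).2 hz'
      by_contra h4
      push Not at h4
      have h5 := Nat.div_le_div_right (c := b) h4
      omega
    · right
      intro z' hz'
      have h3 := (mem_blk hb).2 hz'
      by_contra h4
      push Not at h4
      have h5 := Nat.div_le_div_right (c := b) h4
      omega
  have hsep : ∀ a a', a ≠ a' → dd a a' < b → ¬ (√N < zd a ∧ √N < zd a') := by
    rintro a a' hne hlt ⟨h2, h3⟩
    obtain ⟨c, hc1, hc2, hc3⟩ := (key a).2 h2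
    obtain ⟨c', hc1', hc2', hc3'⟩ := (key a').2 h3
    have h4 : c ≠ c' := by
      rintro rfl
      exact hne (hc2.symm.trans hc2')
    have h5 := hc.B_sep c hc1 c' hc1' h4 hc3 hc3'
    rw [hc2, hc2'] at h5
    omega
  have w1 := win_sum (Ico (j * b) (j * b + b)) (fun z' => zd (z + z')) hsN hγN
    (fun z' _ => (key _).1) (fun z' hz' z'' hz'' hne => by
      refine hsep _ _ (by omega) ?_
      have h2 := hblk z' hz' z'' hz''
      unfold dd at h2 ⊢
      omega)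
  have w2 := win_sum (Ico (j * b) (j * b + b)) (fun z' => zd (dd z z')) hsN hγN
    (fun z' _ => (key _).1) (fun z' hz' z'' hz'' hne => by
      have h2 := hblk z' hz' z'' hz''
      rcases hside with hs | hs
      · have h3 := hs z' hz'
        have h4 := hs z'' hz''
        refine hsep _ _ ?_ ?_
        · unfold dd
          omega
        · unfold dd at h2 ⊢
          omega
      · have h3 := hs z' hz'
        have h4 := hs z'' hz''
        refine hsep _ _ ?_ ?_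
        · unfold dd
          omega
        · unfold dd at h2 ⊢
          omega)
  rw [card_blk] at w1 w2
  linarith

open Classical in
theorem cnt_child (h : EnvV n N par B Z Q f₀ C mu kr) (z j : ℕ) :
    ∑ v ∈ Z, ∑ z' ∈ Ico (j * b) (j * b + b),
      (if ∃ c ∈ bnb n par B v, par c = v ∧ (f₀ c = z + z' ∨ f₀ c = dd z z') then (1 : ℝ) else 0) ≤
      2 * b := by
  rw [sum_comm]
  have h1 : ∀ z' ∈ Ico (j * b) (j * b + b), ∑ v ∈ Z,
      (if ∃ c ∈ bnb n par B v, par c = v ∧ (f₀ c = z + z' ∨ f₀ c = dd z z') then (1 : ℝ) else 0) ≤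
      2 := by
    intro z' _
    rw [sum_boole]
    have h2 : (Z.filter (fun v => ∃ c ∈ bnb n par B v, par c = v ∧
        (f₀ c = z + z' ∨ f₀ c = dd z z'))).card ≤ 2 := by
      have h3 : Z.filter (fun v => ∃ c ∈ bnb n par B v, par c = v ∧
          (f₀ c = z + z' ∨ f₀ c = dd z z')) ⊆
          (B.filter (fun c => f₀ c = z + z' ∨ f₀ c = dd z z')).image par := by
        intro v hv
        obtain ⟨h4, c, h5, h6, h7⟩ := mem_filter.1 hv
        exact mem_image.2 ⟨c, mem_filter.2 ⟨(mem_bnb.1 h5).1, h7⟩, h6⟩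
      refine (card_le_card h3).trans (card_image_le.trans ?_)
      have h4 : (B.filter (fun c => f₀ c = z + z' ∨ f₀ c = dd z z')).card ≤
          ({z + z', dd z z'} : Finset ℕ).card := by
        refine card_le_card_of_injOn f₀ ?_ ?_
        · intro c hc
          have h5 := (mem_filter.1 hc).2
          rw [mem_coe, mem_insert, mem_singleton]
          exact h5
        · intro a ha a' ha' haa
          exact h.f0_inj (mem_filter.1 ha).1 (mem_filter.1 ha').1 haa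
      exact h4.trans card_le_two
    exact_mod_cast h2
  refine (sum_le_sum h1).trans (le_of_eq ?_)
  rw [sum_const, card_blk, nsmul_eq_mul]
  ring

/-! ### the types of the blocks -/

/-- probability of each of the two domino types of `g` -/
noncomputable def gqq (Z : Finset ℕ) (par : ℕ → ℕ) (Dom : ℕ → Finset ℕ) (q₀ : ℝ) (g : ℕ) : ℝ :=
  max (((Z.filter (fun v => par v = g)).card : ℝ) / ((Dom g).card : ℝ)) q₀

/-- the law of the type of a block -/
noncomputable def gpr (G Z : Finset ℕ) (par : ℕ → ℕ) (Dom : ℕ → Finset ℕ) (q₀ : ℝ) :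
    Option (G × Bool) → ℝ
  | none => 1 - ∑ g ∈ G, 2 * gqq Z par Dom q₀ g
  | some x => gqq Z par Dom q₀ x.1

/-- the offset of the domino `(g, a)` -/
def gsg (b : ℕ) (f₀ : ℕ → ℕ) (g a : ℕ) : Bool := decide (Even ((a % b) / f₀ g))

/-- `z` is in a domino of `g` with the offset `s` -/
def InD (b : ℕ) (f₀ : ℕ → ℕ) (Dom : ℕ → Finset ℕ) (g : ℕ) (s : Bool) (z : ℕ) : Prop :=
  (z ∈ Dom g ∧ gsg b f₀ g z = s) ∨ (z + f₀ g ∈ Dom g ∧ gsg b f₀ g (z + f₀ g) = s)

open Classical in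
/-- the types for which the label `z` is ordinary -/
noncomputable def gal (b : ℕ) (G : Finset ℕ) (f₀ : ℕ → ℕ) (Dom : ℕ → Finset ℕ) (z : ℕ) :
    Finset (Option (G × Bool)) :=
  univ.filter (fun t => ∀ x : G × Bool, t = some x → ¬ InD b f₀ Dom x.1 x.2 z)

theorem mem_gal {z : ℕ} {t : Option (G × Bool)} : t ∈ gal b G f₀ Dom z ↔
    ∀ x : G × Bool, t = some x → ¬ InD b f₀ Dom x.1 x.2 z := by
  classical
  unfold gal
  rw [mem_filter]
  exact ⟨fun h => h.2, fun h => ⟨mem_univ _, h⟩⟩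

theorem gqq_ge (q₀ : ℝ) (g : ℕ) : q₀ ≤ gqq Z par Dom q₀ g ∧
    ((Z.filter (fun v => par v = g)).card : ℝ) / ((Dom g).card : ℝ) ≤ gqq Z par Dom q₀ g :=
  ⟨le_max_right _ _, le_max_left _ _⟩

theorem gqq_le {q₀ : ℝ} (hq : 0 ≤ q₀) (g : ℕ) : gqq Z par Dom q₀ g ≤
    ((Z.filter (fun v => par v = g)).card : ℝ) / ((Dom g).card : ℝ) + q₀ := by
  have h1 : (0 : ℝ) ≤ ((Z.filter (fun v => par v = g)).card : ℝ) / ((Dom g).card : ℝ) := by
    positivity
  exact max_le (by linarith) (by linarith)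

theorem gpr_sum (q₀ : ℝ) : ∑ t, gpr G Z par Dom q₀ t = 1 := by
  rw [Fintype.sum_option, Fintype.sum_prod_type]
  have h1 : ∀ g : G, ∑ s : Bool, gpr G Z par Dom q₀ (some (g, s)) =
      2 * gqq Z par Dom q₀ (g : ℕ) := by
    intro g
    rw [Fintype.sum_bool]
    show gqq Z par Dom q₀ (g : ℕ) + gqq Z par Dom q₀ (g : ℕ) = _
    ring
  rw [sum_congr rfl fun g _ => h1 g, sum_coe_sort G (fun g => 2 * gqq Z par Dom q₀ g)]
  show 1 - ∑ g ∈ G, 2 * gqq Z par Dom q₀ g + ∑ g ∈ G, 2 * gqq Z par Dom q₀ g = 1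
  ring

/-- children of `G` -/
theorem sum_ch : ∑ g ∈ G, ((Z.filter (fun v => par v = g)).card : ℝ) =
    ((Z.filter (fun v => par v ∈ G)).card : ℝ) := by
  classical
  rw [← Nat.cast_sum]
  congr 1
  rw [← card_biUnion]
  · congr 1
    ext v
    rw [mem_biUnion, mem_filter]
    constructor
    · rintro ⟨g, hg, hv⟩
      obtain ⟨h1, h2⟩ := mem_filter.1 hv
      exact ⟨h1, h2 ▸ hg⟩
    · rintro ⟨h1, h2⟩
      exact ⟨par v, h2, mem_filter.2 ⟨h1, rfl⟩⟩
  · intro g _ g' _ hgg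
    rw [Function.onFun, disjoint_left]
    intro v hv hv'
    exact hgg ((mem_filter.1 hv).2.symm.trans (mem_filter.1 hv').2)

theorem none_ge (hc : PkCfg true g₀ c₁ b γ p₀ C K n N par G B Z Q f₀ Dom mu kr) (hN : 1 ≤ N)
    (hp : 0 < p₀) (hp1 : p₀ ≤ 1 / 3) {q₀ : ℝ} (hq : 0 ≤ q₀) (hq2 : 2 * g₀ * q₀ ≤ p₀) :
    p₀ ≤ gpr G Z par Dom q₀ none := by
  have hN' : (0 : ℝ) < N := by exact_mod_cast hN
  show p₀ ≤ 1 - ∑ g ∈ G, 2 * gqq Z par Dom q₀ g
  have hd : 0 < (1 - p₀) * N := mul_pos (by linarith) hN'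
  have h1 : ∀ g ∈ G, 2 * gqq Z par Dom q₀ g ≤
      2 * (((Z.filter (fun v => par v = g)).card : ℝ) / ((1 - p₀) * N)) + 2 * q₀ := by
    intro g hg
    have h2 := gqq_le (Z := Z) (par := par) (Dom := Dom) hq g
    have h3 : ((Z.filter (fun v => par v = g)).card : ℝ) / ((Dom g).card : ℝ) ≤
        ((Z.filter (fun v => par v = g)).card : ℝ) / ((1 - p₀) * N) :=
      div_le_div_of_nonneg_left (Nat.cast_nonneg _) hd (hc.Dom_card g hg)
    linarith
  have h2 := sum_le_sum h1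
  have h2' : ∑ g ∈ G, 2 * (((Z.filter (fun v => par v = g)).card : ℝ) / ((1 - p₀) * N)) =
      2 * (((Z.filter (fun v => par v ∈ G)).card : ℝ) / ((1 - p₀) * N)) := by
    rw [← mul_sum, ← sum_div, sum_ch]
  rw [sum_add_distrib, sum_const, nsmul_eq_mul, h2'] at h2
  have h3 : (G.card : ℝ) * (2 * q₀) ≤ p₀ := by
    have h4 : (G.card : ℝ) ≤ g₀ := by exact_mod_cast hc.G_card
    have h5 := mul_le_mul_of_nonneg_right h4 (show 0 ≤ 2 * q₀ by linarith)
    linarith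
  have h4 : 2 * (((Z.filter (fun v => par v ∈ G)).card : ℝ) / ((1 - p₀) * N)) ≤ 1 - 2 * p₀ := by
    rw [← mul_div_assoc, div_le_iff₀ hd]
    refine hc.G_few.trans ?_
    have h5 : (1 - 2 * p₀) * ((1 - p₀) * N) = (1 - 3 * p₀) * N + 2 * p₀ ^ 2 * N := by ring
    rw [h5]
    have h6 : 0 ≤ 2 * p₀ ^ 2 * N := by positivity
    linarith
  linarith

theorem gpr_nn {q₀ : ℝ} (hq : 0 ≤ q₀) (hn : 0 ≤ gpr G Z par Dom q₀ none)
    (t : Option (G × Bool)) : 0 ≤ gpr G Z par Dom q₀ t := by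
  rcases t with _ | x
  · exact hn
  · exact hq.trans (gqq_ge q₀ _).1

theorem px_p0 {q₀ : ℝ} (hq : 0 ≤ q₀) (hn : 0 ≤ gpr G Z par Dom q₀ none) (z : ℕ) :
    gpr G Z par Dom q₀ none ≤ ∑ t ∈ gal b G f₀ Dom z, gpr G Z par Dom q₀ t := by
  refine single_le_sum (f := gpr G Z par Dom q₀) (fun t _ => gpr_nn hq hn t) ?_
  rw [mem_gal]
  intro x hx
  exact absurd hx (by simp)

theorem bool_two (P P' : Prop) [Decidable P] [Decidable P'] (s s' : Bool) :
    (if P ∧ s = true then (1 : ℝ) else 0) + (if P' ∧ s' = true then 1 else 0) +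
      ((if P ∧ s = false then 1 else 0) + (if P' ∧ s' = false then 1 else 0)) =
      (if P then 1 else 0) + (if P' then 1 else 0) := by
  by_cases hP : P <;> by_cases hP' : P' <;> cases s <;> cases s' <;> simp [hP, hP']

open Classical in
theorem px_ge {q₀ : ℝ} (hq : 0 ≤ q₀) (z : ℕ) :
    1 - ∑ g ∈ G, gqq Z par Dom q₀ g * ((if z ∈ Dom g then 1 else 0) +
      (if z + f₀ g ∈ Dom g then 1 else 0)) ≤
    ∑ t ∈ gal b G f₀ Dom z, gpr G Z par Dom q₀ t := by
  have hq0 : ∀ g, 0 ≤ gqq Z par Dom q₀ g := fun g => hq.trans (gqq_ge q₀ g).1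
  unfold gal
  rw [sum_filter, Fintype.sum_option, if_pos (fun x hx => absurd hx (by simp))]
  have h1 : ∀ x : G × Bool, gqq Z par Dom q₀ x.1 - gqq Z par Dom q₀ x.1 *
      ((if z ∈ Dom x.1 ∧ gsg b f₀ x.1 z = x.2 then 1 else 0) +
      (if z + f₀ x.1 ∈ Dom x.1 ∧ gsg b f₀ x.1 (z + f₀ x.1) = x.2 then 1 else 0)) ≤
      (if ∀ y : G × Bool, some x = some y → ¬ InD b f₀ Dom y.1 y.2 z then
        gpr G Z par Dom q₀ (some x) else 0) := by
    intro x
    have h2 := hq0 x.1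
    have e1 : (0 : ℝ) ≤ (if z ∈ Dom x.1 ∧ gsg b f₀ x.1 z = x.2 then 1 else 0) := by
      split_ifs <;> norm_num
    have e2 : (0 : ℝ) ≤ (if z + f₀ x.1 ∈ Dom x.1 ∧ gsg b f₀ x.1 (z + f₀ x.1) = x.2 then 1
        else 0) := by
      split_ifs <;> norm_num
    by_cases h3 : ∀ y : G × Bool, some x = some y → ¬ InD b f₀ Dom y.1 y.2 z
    · rw [if_pos h3]
      show _ ≤ gqq Z par Dom q₀ x.1
      have := mul_nonneg h2 (add_nonneg e1 e2)
      linarith
    · rw [if_neg h3]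
      push Not at h3
      obtain ⟨y, hy, hyD⟩ := h3
      obtain rfl : x = y := Option.some_injective _ hy
      rcases hyD with h4 | h4
      · rw [if_pos h4]
        nlinarith
      · rw [if_pos h4]
        nlinarith
  have h2 := sum_le_sum fun (x : G × Bool) (_ : x ∈ univ) => h1 x
  rw [sum_sub_distrib, Fintype.sum_prod_type (fun x : G × Bool => gqq Z par Dom q₀ (x.1 : ℕ)),
    Fintype.sum_prod_type (fun x : G × Bool => gqq Z par Dom q₀ (x.1 : ℕ) *
      ((if z ∈ Dom x.1 ∧ gsg b f₀ x.1 z = x.2 then 1 else 0) +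
      (if z + f₀ x.1 ∈ Dom x.1 ∧ gsg b f₀ x.1 (z + f₀ x.1) = x.2 then (1 : ℝ) else 0)))] at h2
  have h3 : ∀ g : G, ∑ s : Bool, gqq Z par Dom q₀ (g : ℕ) = 2 * gqq Z par Dom q₀ (g : ℕ) := by
    intro g
    rw [Fintype.sum_bool]
    ring
  have h4 : ∀ g : G, ∑ s : Bool, gqq Z par Dom q₀ (g : ℕ) *
      ((if z ∈ Dom g ∧ gsg b f₀ g z = s then 1 else 0) +
      (if z + f₀ g ∈ Dom g ∧ gsg b f₀ g (z + f₀ g) = s then (1 : ℝ) else 0)) =
      gqq Z par Dom q₀ (g : ℕ) * ((if z ∈ Dom g then 1 else 0) +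
      (if z + f₀ g ∈ Dom g then 1 else 0)) := by
    intro g
    rw [← mul_sum]
    congr 1
    rw [Fintype.sum_bool]
    exact bool_two _ _ _ _
  rw [sum_congr rfl fun g _ => h3 g, sum_congr rfl fun g _ => h4 g,
    sum_coe_sort G (fun g => 2 * gqq Z par Dom q₀ g),
    sum_coe_sort G (fun g => gqq Z par Dom q₀ (g : ℕ) * ((if z ∈ Dom g then 1 else 0) +
      (if z + f₀ g ∈ Dom g then (1 : ℝ) else 0)))] at h2
  have h5 : gpr G Z par Dom q₀ none = 1 - ∑ g ∈ G, 2 * gqq Z par Dom q₀ g := rfl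
  rw [h5]
  linarith

/-! ### dominoes -/

theorem dom_blk (hc : PkCfg true g₀ c₁ b γ p₀ C K n N par G B Z Q f₀ Dom mu kr) (hb : 1 ≤ b)
    {g a : ℕ} (hg : g ∈ G) (ha : a ∈ Dom g) : (a - f₀ g) / b = a / b ∧ f₀ g < a ∧
      (a - f₀ g) % b = a % b - f₀ g := by
  obtain ⟨h1, h2, h3, h4⟩ := (hc.Dom_iff g hg a).1 ha
  have h5 := Nat.div_add_mod a b
  have h6 := Nat.mod_lt a (show b > 0 by omega)
  have h7 : a - f₀ g = b * (a / b) + (a % b - f₀ g) := by omega
  refine ⟨?_, h2, ?_⟩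
  · have h8 : (a % b - f₀ g) / b = 0 := Nat.div_eq_of_lt (lt_of_le_of_lt (Nat.sub_le _ _) h6)
    rw [h7, Nat.mul_add_div (by omega), h8, add_zero]
  · have h8 : (a % b - f₀ g) % b = a % b - f₀ g :=
      Nat.mod_eq_of_lt (lt_of_le_of_lt (Nat.sub_le _ _) h6)
    rw [h7, Nat.mul_add_mod, h8]

theorem sg_ne (hc : PkCfg true g₀ c₁ b γ p₀ C K n N par G B Z Q f₀ Dom mu kr) (hb : 1 ≤ b)
    {g a : ℕ} (hg : g ∈ G) (ha : a ∈ Dom g) : gsg b f₀ g a ≠ gsg b f₀ g (a - f₀ g) := by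
  obtain ⟨-, -, h1⟩ := dom_blk hc hb hg ha
  obtain ⟨-, -, -, h4⟩ := (hc.Dom_iff g hg a).1 ha
  have h5 := (hc.G_lab g hg).1
  unfold gsg
  rw [h1]
  have h6 : (a % b) / f₀ g = (a % b - f₀ g) / f₀ g + 1 := by
    have h7 : a % b = (a % b - f₀ g) + f₀ g := by omega
    conv_lhs => rw [h7]
    rw [Nat.add_div_right _ (by omega)]
  rw [h6]
  intro h7
  have h8 := (decide_eq_decide).1 h7
  rw [Nat.even_add_one] at h8
  by_cases h9 : Even ((a % b - f₀ g) / f₀ g)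
  · exact (h8.2 h9) h9
  · exact h9 (h8.1 h9)

/-- labels used by a child of `g` -/
theorem usv_ch (hc : PkCfg true g₀ c₁ b γ p₀ C K n N par G B Z Q f₀ Dom mu kr) {v : ℕ}
    (hv : v ∈ Z) (hg : par v ∈ G) (x y : ℕ) :
    usv n par B Z f₀ v x y = {y, dd (f₀ (par v)) y} := by
  have h1 : par v ∈ bnb n par B v := by
    refine mem_bnb.2 ⟨hc.GB hg, Or.inl ⟨?_, mem_range.1 (hc.Zsub hv), rfl⟩⟩
    rcases Nat.eq_zero_or_pos v with h | h
    · exact absurd (h ▸ hv) hc.Z0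
    · exact h
  have h2 : par v ∉ Z := fun h => disjoint_left.1 hc.BZ (hc.GB hg) h
  ext z
  rw [mem_usv, mem_insert, mem_singleton]
  constructor
  · rintro (h | ⟨c, hcc, h⟩ | ⟨h, -⟩)
    · exact Or.inl h
    · have h3 : c = par v := card_le_one.1 (hc.one v hv) c hcc _ h1
      rw [h3] at h
      exact Or.inr h
    · exact absurd h h2
  · rintro (h | h)
    · exact Or.inl h
    · exact Or.inr (Or.inl ⟨_, h1, h⟩)

open Classical in
theorem load_ch (hc : PkCfg true g₀ c₁ b γ p₀ C K n N par G B Z Q f₀ Dom mu kr) {v : ℕ}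
    (hv : v ∈ Z) (hg : par v ∈ G) (z : ℕ) :
    1 / ((Dom (par v)).card : ℝ) * ((if z ∈ Dom (par v) then 1 else 0) +
      (if z + f₀ (par v) ∈ Dom (par v) then 1 else 0)) ≤ loadv n N par B Z f₀ mu kr v z := by
  have h2 : par v ∉ Z := fun h => disjoint_left.1 hc.BZ (hc.GB hg) h
  have hlab := (hc.G_lab _ hg).1
  have hD : ∀ y ∈ Dom (par v), y ≤ N ∧ f₀ (par v) < y := fun y hy => by
    obtain ⟨h3, h4, -, -⟩ := (hc.Dom_iff _ hg y).1 hy
    exact ⟨(mem_Icc.1 (hc.QN h3)).2, h4⟩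
  unfold loadv
  rw [if_neg h2]
  obtain ⟨F, hF⟩ : ∃ F : ℕ → ℝ, ∀ y, F y = if z ∈ usv n par B Z f₀ v 0 y then mu v y else 0 :=
    ⟨_, fun _ => rfl⟩
  have hF0 : ∀ y, 0 ≤ F y := fun y => by
    rw [hF]
    split_ifs
    · exact hc.law.mu_nn v hv y
    · exact le_rfl
  have hsub : ∑ y ∈ ({z, z + f₀ (par v)} : Finset ℕ) ∩ Dom (par v), F y ≤
      ∑ y ∈ range (N + 1), F y := by
    refine sum_le_sum_of_subset_of_nonneg (fun y hy => ?_) (fun y _ _ => hF0 y)
    rw [mem_range, Nat.lt_succ_iff]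
    exact (hD y (mem_inter.1 hy).2).1
  rw [sum_congr rfl fun y _ => (hF y).symm]
  refine le_trans (le_of_eq ?_) hsub
  have h3 : ∀ y ∈ ({z, z + f₀ (par v)} : Finset ℕ) ∩ Dom (par v),
      F y = 1 / ((Dom (par v)).card : ℝ) := by
    intro y hy
    obtain ⟨h4, h5⟩ := mem_inter.1 hy
    rw [hF, usv_ch hc hv hg, if_pos, hc.unif v hv hg y, if_pos h5]
    rw [mem_insert, mem_singleton] at h4 ⊢
    rcases h4 with h4 | h4
    · exact Or.inl h4.symm
    · right
      unfold dd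
      omega
  rw [sum_congr rfl h3, sum_const, nsmul_eq_mul, mul_comm]
  congr 1
  have hne : z ≠ z + f₀ (par v) := by omega
  by_cases h4 : z ∈ Dom (par v) <;> by_cases h5 : z + f₀ (par v) ∈ Dom (par v)
  · rw [insert_inter_of_mem h4, singleton_inter_of_mem h5, card_insert_of_notMem (by
      rw [mem_singleton]
      exact hne), card_singleton, if_pos h4, if_pos h5]
    norm_num
  · rw [insert_inter_of_mem h4, singleton_inter_of_notMem h5, if_pos h4, if_neg h5]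
    simp
  · rw [insert_inter_of_notMem h4, singleton_inter_of_mem h5, if_neg h4, if_pos h5]
    simp
  · rw [insert_inter_of_notMem h4, singleton_inter_of_notMem h5, if_neg h4, if_neg h5]
    simp

/-- the ordinary load -/
theorem load_ord (hc : PkCfg true g₀ c₁ b γ p₀ C K n N par G B Z Q f₀ Dom mu kr) {q₀ : ℝ}
    (hq : 0 ≤ q₀) {z : ℕ} (hz : z ∈ Q) :
    ∑ v ∈ Z.filter (fun v => par v ∉ G), loadv n N par B Z f₀ mu kr v z ≤
      ∑ t ∈ gal b G f₀ Dom z, gpr G Z par Dom q₀ t + 2 * g₀ * q₀ := by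
  classical
  have h1 := hc.load z hz
  rw [← sum_filter_add_sum_filter_not Z (fun v => par v ∈ G)] at h1
  have h2 : ∑ g ∈ G, (((Z.filter (fun v => par v = g)).card : ℝ) / ((Dom g).card : ℝ)) *
      ((if z ∈ Dom g then 1 else 0) + (if z + f₀ g ∈ Dom g then 1 else 0)) ≤
      ∑ v ∈ Z.filter (fun v => par v ∈ G), loadv n N par B Z f₀ mu kr v z := by
    have h3 : Z.filter (fun v => par v ∈ G) = G.biUnion (fun g => Z.filter (fun v => par v = g)) := by
      ext v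
      rw [mem_biUnion, mem_filter]
      constructor
      · rintro ⟨h3, h4⟩
        exact ⟨par v, h4, mem_filter.2 ⟨h3, rfl⟩⟩
      · rintro ⟨g, hg, hv⟩
        obtain ⟨h3, h4⟩ := mem_filter.1 hv
        exact ⟨h3, h4 ▸ hg⟩
    rw [h3, sum_biUnion]
    · refine sum_le_sum fun g hg => ?_
      have h4 : ∀ v ∈ Z.filter (fun v => par v = g), 1 / ((Dom g).card : ℝ) *
          ((if z ∈ Dom g then 1 else 0) + (if z + f₀ g ∈ Dom g then 1 else 0)) ≤
          loadv n N par B Z f₀ mu kr v z := by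
        intro v hv
        obtain ⟨h5, h6⟩ := mem_filter.1 hv
        have h7 := load_ch hc h5 (by rw [h6]; exact hg) z
        rw [h6] at h7
        exact h7
      have h5 := sum_le_sum h4
      rw [sum_const, nsmul_eq_mul] at h5
      refine le_trans (le_of_eq ?_) h5
      ring
    · intro g _ g' _ hgg
      rw [Function.onFun, disjoint_left]
      intro v hv hv'
      exact hgg ((mem_filter.1 hv).2.symm.trans (mem_filter.1 hv').2)
  have h3 := px_ge (b := b) (G := G) (Z := Z) (par := par) (Dom := Dom) (f₀ := f₀) hq z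
  have h4 : ∑ g ∈ G, gqq Z par Dom q₀ g * ((if z ∈ Dom g then 1 else 0) +
      (if z + f₀ g ∈ Dom g then 1 else 0)) ≤
      ∑ g ∈ G, ((((Z.filter (fun v => par v = g)).card : ℝ) / ((Dom g).card : ℝ)) *
      ((if z ∈ Dom g then 1 else 0) + (if z + f₀ g ∈ Dom g then 1 else 0)) + 2 * q₀) := by
    refine sum_le_sum fun g _ => ?_
    have h5 := gqq_le (Z := Z) (par := par) (Dom := Dom) hq g
    obtain ⟨s, hs⟩ : ∃ s : ℝ, s = (if z ∈ Dom g then 1 else 0) +
      (if z + f₀ g ∈ Dom g then 1 else 0) := ⟨_, rfl⟩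
    have hs0 : 0 ≤ s := by
      rw [hs]
      split_ifs <;> norm_num
    have hs2 : s ≤ 2 := by
      rw [hs]
      split_ifs <;> norm_num
    rw [← hs]
    have h6 := mul_le_mul_of_nonneg_right h5 hs0
    have h7 := mul_le_mul_of_nonneg_left hs2 hq
    linarith
  rw [sum_add_distrib, sum_const, nsmul_eq_mul] at h4
  have h5 : (G.card : ℝ) * (2 * q₀) ≤ 2 * g₀ * q₀ := by
    have h6 : (G.card : ℝ) ≤ g₀ := by exact_mod_cast hc.G_card
    have h7 := mul_le_mul_of_nonneg_right h6 (show 0 ≤ 2 * q₀ by linarith)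
    linarith
  linarith

end SSB
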