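import Pool.Agent.Lib.MP_8a819d_co.AT.PackG2

/-!
# MP_8a819d_co, trees with many non-leaves: packing with vertices of linear degree, 3. The hypergraph
-/

set_option autoImplicit false
set_option linter.unusedSectionVars false
set_option linter.unusedVariables false

namespace SSB

open Finset

/-- the vertices of the hypergraph: labels, dominoes, components -/
abbrev GV (N np : ℕ) (G : Finset ℕ) : Type := Fin (N + 1) ⊕ ((G × Fin (N + 1)) ⊕ Fin np)

/-- the hyperedges: components with a numbering -/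
abbrev GE (N : ℕ) {np : ℕ} (pc : Fin np → VP) : Type :=
  Σ p : Fin np, (Fin ((pc p).k + 1) → Fin (N + 1))

/-- the labels of the vertex `i` are ordinary cells -/
def VP.O (p : VP) (par : ℕ → ℕ) (G : Finset ℕ) (i : Fin (p.k + 1)) : Prop :=
  ¬ (i = 0 ∧ par (p.emb 0) ∈ G)

/-- no vertex of the component has a child in `G` -/
def VP.gd (p : VP) (par : ℕ → ℕ) (G : Finset ℕ) : Prop := ∀ i, ∀ g ∈ G, 1 ≤ g → par g ≠ p.emb i

section

variable {g₀ c₁ b K n N np : ℕ} {γ p₀ C : ℝ} {par : ℕ → ℕ} {G B Z Q : Finset ℕ} {f₀ : ℕ → ℕ}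
  {Dom : ℕ → Finset ℕ} {mu : ℕ → ℕ → ℝ} {kr : ℕ → ℕ → ℕ → ℝ} {pc : Fin np → VP}

open Classical in
/-- the cells of a hyperedge -/
noncomputable def gS (n : ℕ) (par : ℕ → ℕ) (G B Z : Finset ℕ) (f₀ : ℕ → ℕ) {N np : ℕ}
    (pc : Fin np → VP) (e : GE N pc) : Finset (GV N np G) :=
  (univ.filter (fun z : Fin (N + 1) => ∃ i, (pc e.1).O par G i ∧
    (z : ℕ) ∈ (pc e.1).us n par B Z f₀ ((pc e.1).lab e.2) i)).disjSum
  ((univ.filter (fun x : G × Fin (N + 1) => par ((pc e.1).emb 0) = x.1 ∧ x.2 = e.2 0)).disjSum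
    {e.1})

/-- the block of a cell -/
def gbl (b : ℕ) {N np : ℕ} {G : Finset ℕ} : GV N np G → Option (Fin (N + 1))
  | Sum.inl z => some ⟨(z : ℕ) / b, lt_of_le_of_lt (Nat.div_le_self _ _) z.2⟩
  | Sum.inr (Sum.inl x) => some ⟨(x.2 : ℕ) / b, lt_of_le_of_lt (Nat.div_le_self _ _) x.2.2⟩
  | Sum.inr (Sum.inr _) => none

/-- the types for which a cell is alive -/
noncomputable def gav (b : ℕ) (f₀ : ℕ → ℕ) (Dom : ℕ → Finset ℕ) {N np : ℕ} {G : Finset ℕ} :
    GV N np G → Finset (Option (G × Bool))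
  | Sum.inl z => gal b G f₀ Dom z
  | Sum.inr (Sum.inl x) => {some (x.1, gsg b f₀ x.1 x.2)}
  | Sum.inr (Sum.inr _) => univ

/-- the cells are in different blocks -/
def Sep (n : ℕ) (par : ℕ → ℕ) (G B Z : Finset ℕ) (f₀ : ℕ → ℕ) (b : ℕ) {N np : ℕ}
    (pc : Fin np → VP) (e : GE N pc) : Prop :=
  ∀ x ∈ gS n par G B Z f₀ pc e, ∀ y ∈ gS n par G B Z f₀ pc e, x ≠ y → gbl b x = gbl b y →
    gbl b x = none

/-- the numberings which are used -/
def GOK (n : ℕ) (par : ℕ → ℕ) (G B Z Q : Finset ℕ) (f₀ : ℕ → ℕ) (b : ℕ) {N np : ℕ}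
    (pc : Fin np → VP) (e : GE N pc) : Prop :=
  (pc e.1).gd par G ∧ (pc e.1).Valid n par B Z Q f₀ ((pc e.1).lab e.2) ∧
    Sep n par G B Z f₀ b pc e

open Classical in
/-- the weights -/
noncomputable def gwt (n : ℕ) (par : ℕ → ℕ) (G B Z Q : Finset ℕ) (f₀ : ℕ → ℕ) (b : ℕ) {N np : ℕ}
    (pc : Fin np → VP) (mu : ℕ → ℕ → ℝ) (kr : ℕ → ℕ → ℕ → ℝ) (κ : ℝ) (e : GE N pc) : ℝ :=
  if GOK n par G B Z Q f₀ b pc e then (1 - κ / 4) * (pc e.1).cwv N par mu kr e.2 else 0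

theorem mem_gS_l {e : GE N pc} {z : Fin (N + 1)} : Sum.inl z ∈ gS n par G B Z f₀ pc e ↔
    ∃ i, (pc e.1).O par G i ∧ (z : ℕ) ∈ (pc e.1).us n par B Z f₀ ((pc e.1).lab e.2) i := by
  classical
  unfold gS
  rw [inl_mem_disjSum, mem_filter]
  exact ⟨fun hh => hh.2, fun hh => ⟨mem_univ z, hh⟩⟩

theorem mem_gS_d {e : GE N pc} {x : G × Fin (N + 1)} :
    Sum.inr (Sum.inl x) ∈ gS n par G B Z f₀ pc e ↔
      par ((pc e.1).emb 0) = x.1 ∧ x.2 = e.2 0 := by
  classical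
  unfold gS
  rw [inr_mem_disjSum, inl_mem_disjSum, mem_filter]
  exact ⟨fun hh => hh.2, fun hh => ⟨mem_univ x, hh⟩⟩

theorem mem_gS_c {e : GE N pc} {q : Fin np} :
    Sum.inr (Sum.inr q) ∈ gS n par G B Z f₀ pc e ↔ q = e.1 := by
  classical
  unfold gS
  rw [inr_mem_disjSum, inr_mem_disjSum, mem_singleton]

theorem gbl_l {z : Fin (N + 1)} {j : Fin (N + 1)} :
    gbl (np := np) (G := G) b (Sum.inl z) = some j ↔ (z : ℕ) / b = j := by
  show some _ = some j ↔ _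
  rw [Option.some_inj, Fin.ext_iff]

theorem gbl_d {x : G × Fin (N + 1)} {j : Fin (N + 1)} :
    gbl (np := np) (G := G) b (Sum.inr (Sum.inl x)) = some j ↔ (x.2 : ℕ) / b = j := by
  show some _ = some j ↔ _
  rw [Option.some_inj, Fin.ext_iff]

theorem self_us (p : VP) (φ : Fin (p.k + 1) → ℕ) (i : Fin (p.k + 1)) :
    φ i ∈ p.us n par B Z f₀ φ i := mem_usv.2 (Or.inl rfl)

/-- the ordinary vertices have no neighbour in `G` -/
theorem O_bnb (hc : PkCfg true g₀ c₁ b γ p₀ C K n N par G B Z Q f₀ Dom mu kr) {p : VP}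
    (hp : p.OK par Z) (hg : p.gd par G) {i : Fin (p.k + 1)} (hO : p.O par G i) :
    ∀ c ∈ bnb n par B (p.emb i), c ∉ G ∧ b ≤ f₀ c := by
  intro c hcc
  have h1 : c ∉ G := by
    intro hcG
    obtain ⟨h2, h3⟩ := mem_bnb.1 hcc
    rcases h3 with ⟨-, -, h3⟩ | ⟨h3, -, h4⟩
    · by_cases hi : i = 0
      · subst hi
        exact hO ⟨rfl, h3 ▸ hcG⟩
      · have h4 : par (p.emb i) ∈ Z := by
          rw [hp.emb_par i hi]
          exact hp.emb_mem _
        exact disjoint_left.1 hc.BZ h2 (h3 ▸ h4)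
    · exact hg i c hcG h3 h4
  exact ⟨h1, hc.B_lab c (mem_sdiff.2 ⟨(mem_bnb.1 hcc).1, h1⟩)⟩

/-- for the components of type `g` the neighbours in `B` of an ordinary vertex are children -/
theorem O_child (hc : PkCfg true g₀ c₁ b γ p₀ C K n N par G B Z Q f₀ Dom mu kr) {p : VP}
    (hp : p.OK par Z) (ht : par (p.emb 0) ∈ G) {i : Fin (p.k + 1)} (hO : p.O par G i) :
    ∀ c ∈ bnb n par B (p.emb i), par c = p.emb i := by
  intro c hcc
  obtain ⟨h2, h3⟩ := mem_bnb.1 hcc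
  rcases h3 with ⟨-, -, h3⟩ | ⟨h3, -, h4⟩
  · have hi : i ≠ 0 := fun hi => hO ⟨hi, ht⟩
    have h4 : par (p.emb i) ∈ Z := by
      rw [hp.emb_par i hi]
      exact hp.emb_mem _
    exact absurd (h3 ▸ h4) (fun h5 => disjoint_left.1 hc.BZ h2 h5)
  · exact h4

theorem O_par (hc : PkCfg true g₀ c₁ b γ p₀ C K n N par G B Z Q f₀ Dom mu kr) {p : VP}
    (hp : p.OK par Z) {i : Fin (p.k + 1)} (hO : p.O par G i) : par (p.emb i) ∉ G := by
  intro h1
  by_cases hi : i = 0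
  · subst hi
    exact hO ⟨rfl, h1⟩
  · have h4 : par (p.emb i) ∈ Z := by
      rw [hp.emb_par i hi]
      exact hp.emb_mem _
    exact disjoint_left.1 hc.BZ (hc.GB h1) h4

theorem ns_of_not_sep {e : GE N pc} (h : ¬ Sep n par G B Z f₀ b pc e) :
    (pc e.1).NS n par B Z f₀ b ((pc e.1).O par G) ((pc e.1).lab e.2) := by
  unfold Sep at h
  push Not at h
  obtain ⟨x, hx, y, hy, hne, hbl, hno⟩ := h
  obtain ⟨j, hj⟩ : ∃ j, gbl b x = some j := Option.ne_none_iff_exists'.1 hno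
  have hj' : gbl b y = some j := hbl ▸ hj
  rcases x with z | x | q
  · rw [mem_gS_l] at hx
    obtain ⟨i, hO, hz⟩ := hx
    rw [gbl_l] at hj
    rcases y with z' | y | q'
    · rw [mem_gS_l] at hy
      obtain ⟨i', hO', hz'⟩ := hy
      rw [gbl_l] at hj'
      by_cases hii : i = i'
      · subst hii
        exact Or.inr ⟨i, hO, z, hz, z', hz', fun hzz => hne (congrArg Sum.inl (Fin.ext hzz)),
          hj.trans hj'.symm⟩
      · exact Or.inl ⟨i, i', hii, z, hz, z', hz', hj.trans hj'.symm⟩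
    · rw [mem_gS_d] at hy
      rw [gbl_d] at hj'
      have hi : i ≠ 0 := fun hi => hO ⟨hi, by rw [hy.1]; exact y.1.2⟩
      refine Or.inl ⟨i, 0, hi, z, hz, _, self_us _ _ 0, ?_⟩
      have h1 : (pc e.1).lab e.2 0 = (y.2 : ℕ) := by rw [hy.2]; rfl
      rw [h1]
      exact hj.trans hj'.symm
    · exact absurd hj' (by simp [gbl])
  · rw [mem_gS_d] at hx
    rw [gbl_d] at hj
    rcases y with z' | y | q'
    · rw [mem_gS_l] at hy
      obtain ⟨i', hO', hz'⟩ := hy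
      rw [gbl_l] at hj'
      have hi : i' ≠ 0 := fun hi => hO' ⟨hi, by rw [hx.1]; exact x.1.2⟩
      refine Or.inl ⟨i', 0, hi, z', hz', _, self_us _ _ 0, ?_⟩
      have h1 : (pc e.1).lab e.2 0 = (x.2 : ℕ) := by rw [hx.2]; rfl
      rw [h1]
      exact hj'.trans hj.symm
    · rw [mem_gS_d] at hy
      exfalso
      apply hne
      have h1 : x = y := Prod.ext (Subtype.ext (hx.1.symm.trans hy.1)) (hx.2.trans hy.2.symm)
      rw [h1]
    · exact absurd hj' (by simp [gbl])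
  · exact absurd hj (by simp [gbl])

theorem gS_nonempty (e : GE N pc) : (gS n par G B Z f₀ pc e).Nonempty :=
  ⟨Sum.inr (Sum.inr e.1), mem_gS_c.2 rfl⟩

/-- the ordinary cells -/
theorem lab_card (hc : PkCfg true g₀ c₁ b γ p₀ C K n N par G B Z Q f₀ Dom mu kr)
    (hOK : ∀ p, (pc p).OK par Z) (e : GE N pc) (P : Fin (N + 1) → Prop) [DecidablePred P]
    (hP : ∀ z, P z → ∃ i, (pc e.1).O par G i ∧
      (z : ℕ) ∈ (pc e.1).us n par B Z f₀ ((pc e.1).lab e.2) i) :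
    (univ.filter P).card ≤ 3 * (if par ((pc e.1).emb 0) ∈ G then (pc e.1).k else (pc e.1).k + 1) := by
  classical
  have hcard : (univ.filter P).card ≤ (((univ.filter (fun i => (pc e.1).O par G i)).biUnion
      ((pc e.1).us n par B Z f₀ ((pc e.1).lab e.2))).card) := by
    refine card_le_card_of_injOn (fun z : Fin (N + 1) => (z : ℕ)) ?_ ?_
    · intro z hz
      obtain ⟨i, h1, h2⟩ := hP z (mem_filter.1 hz).2
      exact mem_biUnion.2 ⟨i, mem_filter.2 ⟨mem_univ _, h1⟩, h2⟩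
    · intro a _ b _ hab
      exact Fin.ext hab
  refine hcard.trans ((card_biUnion_le_card_mul _ _ 3
    (fun i _ => usv_card (hc.one _ ((hOK e.1).emb_mem i)) _ _)).trans ?_)
  rw [mul_comm]
  refine Nat.mul_le_mul_left 3 ?_
  split_ifs with ht
  · have h1 : univ.filter (fun i => (pc e.1).O par G i) ⊆ univ.erase 0 := by
      intro i hi
      rw [mem_erase]
      exact ⟨fun h0 => (mem_filter.1 hi).2 ⟨h0, ht⟩, mem_univ _⟩
    refine (card_le_card h1).trans ?_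
    rw [card_erase_of_mem (mem_univ _), card_univ, Fintype.card_fin]
    omega
  · refine (card_filter_le _ _).trans ?_
    rw [card_univ, Fintype.card_fin]

theorem dom_card (e : GE N pc) (P : G × Fin (N + 1) → Prop) [DecidablePred P]
    (hP : ∀ x, P x ↔ par ((pc e.1).emb 0) = x.1 ∧ x.2 = e.2 0) :
    (univ.filter P).card = if par ((pc e.1).emb 0) ∈ G then 1 else 0 := by
  classical
  split_ifs with ht
  · rw [card_eq_one]
    refine ⟨(⟨_, ht⟩, e.2 0), ?_⟩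
    ext x
    rw [mem_filter, mem_singleton, hP]
    constructor
    · rintro ⟨-, h1, h2⟩
      exact Prod.ext (Subtype.ext h1.symm) h2
    · rintro rfl
      exact ⟨mem_univ _, rfl, rfl⟩
  · rw [card_eq_zero, filter_eq_empty_iff]
    intro x _ hx
    rw [hP] at hx
    apply ht
    rw [hx.1]
    exact x.1.2

theorem gS_card (hc : PkCfg true g₀ c₁ b γ p₀ C K n N par G B Z Q f₀ Dom mu kr)
    (hOK : ∀ p, (pc p).OK par Z) (hK : ∀ p, (pc p).k + 1 ≤ K) (e : GE N pc) :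
    (gS n par G B Z f₀ pc e).card ≤ 3 * K + 1 := by
  classical
  unfold gS
  rw [card_disjSum, card_disjSum, card_singleton,
    dom_card e (fun x => par ((pc e.1).emb 0) = x.1 ∧ x.2 = e.2 0) (fun x => Iff.rfl)]
  have h1 := lab_card hc hOK e (fun z : Fin (N + 1) => ∃ i, (pc e.1).O par G i ∧
    (z : ℕ) ∈ (pc e.1).us n par B Z f₀ ((pc e.1).lab e.2) i) (fun z hz => hz)
  have h2 := hK e.1
  split_ifs at h1 ⊢ <;> omega

/-- the probability that a cell is alive -/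
noncomputable def gpx (b : ℕ) (G Z : Finset ℕ) (par f₀ : ℕ → ℕ) (Dom : ℕ → Finset ℕ) (q₀ : ℝ)
    {N np : ℕ} (x : GV N np G) : ℝ := ∑ t ∈ gav b f₀ Dom x, gpr G Z par Dom q₀ t

theorem gpx_d (q₀ : ℝ) (x : G × Fin (N + 1)) :
    gpx b G Z par f₀ Dom q₀ (Sum.inr (Sum.inl x) : GV N np G) = gqq Z par Dom q₀ x.1 := by
  unfold gpx gav
  rw [sum_singleton]
  rfl

theorem gpx_c (q₀ : ℝ) (q : Fin np) :
    gpx b G Z par f₀ Dom q₀ (Sum.inr (Sum.inr q) : GV N np G) = 1 := by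
  unfold gpx gav
  exact gpr_sum q₀

theorem gpx_l {q₀ : ℝ} (hq : 0 ≤ q₀) (hn : p₀ ≤ gpr G Z par Dom q₀ none) (hp : 0 < p₀)
    (z : Fin (N + 1)) : p₀ ≤ gpx b G Z par f₀ Dom q₀ (Sum.inl z : GV N np G) := by
  unfold gpx gav
  exact hn.trans (px_p0 hq (hp.le.trans hn) z)

theorem gpx_pos {q₀ : ℝ} (hq : 0 < q₀) (hn : p₀ ≤ gpr G Z par Dom q₀ none) (hp : 0 < p₀)
    (x : GV N np G) : 0 < gpx b G Z par f₀ Dom q₀ x := by
  rcases x with z | x | q
  · exact lt_of_lt_of_le hp (gpx_l hq.le hn hp z)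
  · rw [gpx_d]
    exact lt_of_lt_of_le hq (gqq_ge q₀ _).1
  · rw [gpx_c]
    exact one_pos

open Classical in
/-- lower bound for the probability that all cells are alive -/
theorem gprod_ge (hc : PkCfg true g₀ c₁ b γ p₀ C K n N par G B Z Q f₀ Dom mu kr)
    (hOK : ∀ p, (pc p).OK par Z) (hK : ∀ p, (pc p).k + 1 ≤ K) {q₀ : ℝ} (hq : 0 < q₀)
    (hn : p₀ ≤ gpr G Z par Dom q₀ none) (hp : 0 < p₀) (hp1 : p₀ ≤ 1) (e : GE N pc) :
    p₀ ^ (3 * K) * (if par ((pc e.1).emb 0) ∈ G then q₀ else 1) ≤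
      ∏ x ∈ gS n par G B Z f₀ pc e, gpx b G Z par f₀ Dom q₀ x := by
  unfold gS
  rw [prod_disjSum, prod_disjSum, prod_singleton, gpx_c, mul_one]
  have h1 : p₀ ^ (3 * K) ≤ ∏ z ∈ univ.filter (fun z : Fin (N + 1) => ∃ i, (pc e.1).O par G i ∧
      (z : ℕ) ∈ (pc e.1).us n par B Z f₀ ((pc e.1).lab e.2) i),
      gpx b G Z par f₀ Dom q₀ (Sum.inl z : GV N np G) := by
    have h2 := lab_card hc hOK e (fun z : Fin (N + 1) => ∃ i, (pc e.1).O par G i ∧
      (z : ℕ) ∈ (pc e.1).us n par B Z f₀ ((pc e.1).lab e.2) i) (fun z hz => hz)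
    have h3 := hK e.1
    have h4 : (univ.filter (fun z : Fin (N + 1) => ∃ i, (pc e.1).O par G i ∧
      (z : ℕ) ∈ (pc e.1).us n par B Z f₀ ((pc e.1).lab e.2) i)).card ≤ 3 * K := by
      split_ifs at h2 <;> omega
    refine (pow_le_pow_of_le_one hp.le hp1 h4).trans ?_
    rw [← prod_const]
    exact prod_le_prod (fun _ _ => hp.le) fun z _ => gpx_l hq.le hn hp z
  refine mul_le_mul h1 ?_ ?_ ?_
  · split_ifs with ht
    · have h2 : univ.filter (fun x : G × Fin (N + 1) => par ((pc e.1).emb 0) = x.1 ∧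
          x.2 = e.2 0) = {(⟨_, ht⟩, e.2 0)} := by
        ext x
        rw [mem_filter, mem_singleton]
        constructor
        · rintro ⟨-, h1, h2⟩
          exact Prod.ext (Subtype.ext h1.symm) h2
        · rintro rfl
          exact ⟨mem_univ _, rfl, rfl⟩
      rw [h2, prod_singleton, gpx_d]
      exact (gqq_ge q₀ _).1
    · have h2 : univ.filter (fun x : G × Fin (N + 1) => par ((pc e.1).emb 0) = x.1 ∧
          x.2 = e.2 0) = ∅ := by
        rw [filter_eq_empty_iff]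
        intro x _ hx
        apply ht
        rw [hx.1]
        exact x.1.2
      rw [h2, prod_empty]
  · split_ifs
    · exact hq.le
    · exact zero_le_one
  · exact prod_nonneg fun z _ => hp.le.trans (gpx_l hq.le hn hp z)

theorem gwt_nn (h : EnvV n N par B Z Q f₀ C mu kr) (hOK : ∀ p, (pc p).OK par Z) {κ : ℝ}
    (hκ : κ ≤ 1) (e : GE N pc) : 0 ≤ gwt n par G B Z Q f₀ b pc mu kr κ e := by
  unfold gwt
  split_ifs
  · exact mul_nonneg (by linarith) (cwv_nonneg h (hOK _) _)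
  · exact le_rfl

theorem gwt_le (h : EnvV n N par B Z Q f₀ C mu kr) (hOK : ∀ p, (pc p).OK par Z) {κ : ℝ}
    (hκ0 : 0 ≤ κ) (e : GE N pc) :
    gwt n par G B Z Q f₀ b pc mu kr κ e ≤ (pc e.1).cwv N par mu kr e.2 := by
  have h1 := cwv_nonneg h (hOK e.1) e.2
  unfold gwt
  split_ifs
  · nlinarith
  · exact h1

/-- sums over hyperedges -/
theorem gsum (w : GE N pc → ℝ) (P : GE N pc → Prop) [DecidablePred P] :
    ∑ e with P e, w e = ∑ p, ∑ φ : Fin ((pc p).k + 1) → Fin (N + 1),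
      if P ⟨p, φ⟩ then w ⟨p, φ⟩ else 0 := by
  rw [sum_filter, Fintype.sum_sigma]

/-- bound for the inverse of the probability that the cells are alive -/
noncomputable def gLq (par : ℕ → ℕ) (G : Finset ℕ) (p₀ q₀ : ℝ) (K : ℕ) (p : VP) : ℝ :=
  if par (p.emb 0) ∈ G then 1 / p₀ ^ (3 * K) / q₀ else 1 / p₀ ^ (3 * K)

open Classical in
theorem gsum_le (hc : PkCfg true g₀ c₁ b γ p₀ C K n N par G B Z Q f₀ Dom mu kr)
    (h : EnvV n N par B Z Q f₀ C mu kr)
    (hOK : ∀ p, (pc p).OK par Z) (hK : ∀ p, (pc p).k + 1 ≤ K) {q₀ : ℝ} (hq : 0 < q₀)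
    (hn : p₀ ≤ gpr G Z par Dom q₀ none) (hp : 0 < p₀) (hp1 : p₀ ≤ 1) {κ : ℝ} (hκ0 : 0 ≤ κ)
    (hκ1 : κ ≤ 1) (P : GE N pc → Prop) [DecidablePred P]
    (P' : (p : Fin np) → (Fin ((pc p).k + 1) → Fin (N + 1)) → Prop) [∀ p φ, Decidable (P' p φ)]
    (hP : ∀ p φ, (pc p).gd par G → P ⟨p, φ⟩ → P' p φ) :
    ∑ e with P e, gwt n par G B Z Q f₀ b pc mu kr κ e /
        ∏ x ∈ gS n par G B Z f₀ pc e, gpx b G Z par f₀ Dom q₀ x ≤
      ∑ p, (if (pc p).gd par G then gLq par G p₀ q₀ K (pc p) *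
        ∑ φ : Fin ((pc p).k + 1) → Fin (N + 1), (if P' p φ then (pc p).cwv N par mu kr φ else 0)
        else 0) := by
  rw [gsum]
  refine sum_le_sum fun p _ => ?_
  have hpK : 0 < p₀ ^ (3 * K) := pow_pos hp _
  have hL0 : 0 ≤ gLq par G p₀ q₀ K (pc p) := by
    unfold gLq
    split_ifs <;> positivity
  split_ifs with hgd
  · rw [mul_sum]
    refine sum_le_sum fun φ _ => ?_
    have hcw := cwv_nonneg h (hOK p) φ
    by_cases hPe : P ⟨p, φ⟩
    · rw [if_pos hPe, if_pos (hP p φ hgd hPe)]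
      have h1 := gprod_ge hc hOK hK hq hn hp hp1 (⟨p, φ⟩ : GE N pc)
      have h2 := gwt_le (G := G) (b := b) h hOK hκ0 (⟨p, φ⟩ : GE N pc)
      have h3 := gwt_nn (G := G) (b := b) h hOK hκ1 (⟨p, φ⟩ : GE N pc)
      dsimp only at h1 h2
      have h4 : 0 < p₀ ^ (3 * K) * (if par ((pc p).emb 0) ∈ G then q₀ else 1) := by
        split_ifs
        · positivity
        · positivity
      have h5 : gwt n par G B Z Q f₀ b pc mu kr κ ⟨p, φ⟩ /
          ∏ x ∈ gS n par G B Z f₀ pc ⟨p, φ⟩, gpx b G Z par f₀ Dom q₀ x ≤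
          (pc p).cwv N par mu kr φ / (p₀ ^ (3 * K) * (if par ((pc p).emb 0) ∈ G then q₀ else 1)) :=
        div_le_div₀ hcw h2 h4 h1
      refine h5.trans (le_of_eq ?_)
      unfold gLq
      split_ifs
      · field_simp
      · field_simp
    · rw [if_neg hPe]
      split_ifs
      · exact mul_nonneg hL0 hcw
      · rw [mul_zero]
  · refine (sum_eq_zero fun φ _ => ?_).le
    have h1 : gwt n par G B Z Q f₀ b pc mu kr κ ⟨p, φ⟩ = 0 := by
      unfold gwt
      rw [if_neg]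
      exact fun h2 => hgd h2.1
    rw [h1, zero_div]
    split_ifs <;> rfl

end

end SSB
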