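import Pool.Agent.Lib.MP_8a819d_co.AT.PackG3

/-!
# MP_8a819d_co, trees with many non-leaves: packing with vertices of linear degree, 4. Degrees and codegrees
-/

set_option autoImplicit false
set_option linter.unusedSectionVars false
set_option linter.unusedVariables false

namespace SSB

open Finset

variable {g₀ c₁ b K n N np : ℕ} {γ p₀ C : ℝ} {par : ℕ → ℕ} {G B Z Q : Finset ℕ} {f₀ : ℕ → ℕ}
  {Dom : ℕ → Finset ℕ} {mu : ℕ → ℕ → ℝ} {kr : ℕ → ℕ → ℕ → ℝ} {pc : Fin np → VP}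

open Classical in
/-- the ordinary load of one component -/
theorem vp_loadO (h : EnvV n N par B Z Q f₀ C mu kr) {p : VP} (hp : p.OK par Z)
    (O : Fin (p.k + 1) → Prop) (z : ℕ) :
    ∑ φ : Fin (p.k + 1) → Fin (N + 1), (if ∃ i, O i ∧ z ∈ p.us n par B Z f₀ (p.lab φ) i then
      p.cwv N par mu kr φ else 0) ≤
      ∑ i, (if O i then loadv n N par B Z f₀ mu kr (p.emb i) z else 0) := by
  have h0 : ∀ (φ : Fin (p.k + 1) → Fin (N + 1)) i, 0 ≤ (if O i then
      p.cwv N par mu kr φ * p.hh n N par B Z f₀ i z (φ (p.par i)) (φ i) else 0) := by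
    intro φ i
    split_ifs
    · exact mul_nonneg (cwv_nonneg h hp φ) ((vp_LB h hp i z).1 _ _)
    · exact le_rfl
  have hpt : ∀ φ : Fin (p.k + 1) → Fin (N + 1),
      (if ∃ i, O i ∧ z ∈ p.us n par B Z f₀ (p.lab φ) i then p.cwv N par mu kr φ else 0) ≤
      ∑ i, (if O i then p.cwv N par mu kr φ *
        p.hh n N par B Z f₀ i z (φ (p.par i)) (φ i) else 0) := by
    intro φ
    have hs := sum_nonneg fun (i : Fin (p.k + 1)) (_ : i ∈ univ) => h0 φ i
    by_cases hev : ∃ i, O i ∧ z ∈ p.us n par B Z f₀ (p.lab φ) i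
    · rw [if_pos hev]
      obtain ⟨i, hOi, hz⟩ := hev
      have h3 := single_le_sum (f := fun i : Fin (p.k + 1) => (if O i then
        p.cwv N par mu kr φ * p.hh n N par B Z f₀ i z (φ (p.par i)) (φ i) else 0))
        (fun i _ => h0 φ i) (mem_univ i)
      try dsimp only at h3
      rw [if_pos hOi, hh_us, if_pos hz, mul_one] at h3
      exact h3
    · rw [if_neg hev]
      exact hs
  refine (sum_le_sum fun φ _ => hpt φ).trans ?_
  rw [sum_comm]
  refine sum_le_sum fun i _ => ?_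
  by_cases hOi : O i
  · simp only [if_pos hOi]
    exact (vp_load1 h hp i z).le
  · simp only [if_neg hOi, sum_const_zero]
    exact le_rfl

/-- degree of a label -/
theorem deg_l (hc : PkCfg true g₀ c₁ b γ p₀ C K n N par G B Z Q f₀ Dom mu kr)
    (h : EnvV n N par B Z Q f₀ C mu kr) (hOK : ∀ p, (pc p).OK par Z)
    (hinj : Function.Injective (fun x : (Σ p : Fin np, Fin ((pc p).k + 1)) => (pc x.1).emb x.2))
    (hsurj : ∀ v ∈ Z, ∃ p i, (pc p).emb i = v) {q₀ : ℝ} (hq : 0 < q₀)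
    (hn : p₀ ≤ gpr G Z par Dom q₀ none) (hp : 0 < p₀) {κ : ℝ} (hκ0 : 0 ≤ κ) (hκ1 : κ ≤ 1)
    (hq2 : 2 * g₀ * q₀ ≤ κ / 4 * p₀) (z : Fin (N + 1)) :
    ∑ e : GE N pc with Sum.inl z ∈ gS n par G B Z f₀ pc e, gwt n par G B Z Q f₀ b pc mu kr κ e ≤
      gpx b G Z par f₀ Dom q₀ (Sum.inl z : GV N np G) := by
  classical
  have hpx := gpx_l (b := b) (G := G) (Z := Z) (par := par) (f₀ := f₀) (Dom := Dom) (N := N)
    (np := np) hq.le hn hp z
  rw [gsum]
  by_cases hz : (z : ℕ) ∈ Q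
  · have h1 : ∀ p, ∑ φ : Fin ((pc p).k + 1) → Fin (N + 1),
        (if Sum.inl z ∈ gS n par G B Z f₀ pc ⟨p, φ⟩ then
          gwt n par G B Z Q f₀ b pc mu kr κ ⟨p, φ⟩ else 0) ≤
        (1 - κ / 4) * ∑ i, (if par ((pc p).emb i) ∉ G then
          loadv n N par B Z f₀ mu kr ((pc p).emb i) z else 0) := by
      intro p
      have h2 : ∑ φ : Fin ((pc p).k + 1) → Fin (N + 1),
          (if Sum.inl z ∈ gS n par G B Z f₀ pc ⟨p, φ⟩ then
            gwt n par G B Z Q f₀ b pc mu kr κ ⟨p, φ⟩ else 0) ≤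
          (1 - κ / 4) * ∑ φ : Fin ((pc p).k + 1) → Fin (N + 1),
            (if ∃ i, (pc p).O par G i ∧ (z : ℕ) ∈ (pc p).us n par B Z f₀ ((pc p).lab φ) i then
            (pc p).cwv N par mu kr φ else 0) := by
        rw [mul_sum]
        refine sum_le_sum fun φ _ => ?_
        have hcw := cwv_nonneg h (hOK p) φ
        by_cases hz2 : Sum.inl z ∈ gS n par G B Z f₀ pc ⟨p, φ⟩
        · rw [if_pos hz2, if_pos (mem_gS_l.1 hz2)]
          unfold gwt
          split_ifs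
          · exact le_rfl
          · exact mul_nonneg (by linarith) hcw
        · rw [if_neg hz2, if_neg (fun h3 => hz2 (mem_gS_l.2 h3)), mul_zero]
      refine h2.trans (mul_le_mul_of_nonneg_left ((vp_loadO h (hOK p) _ _).trans ?_) (by linarith))
      refine sum_le_sum fun i _ => ?_
      have hl0 : 0 ≤ loadv n N par B Z f₀ mu kr ((pc p).emb i) z := by
        rw [← vp_load1 h (hOK p) i z]
        exact sum_nonneg fun φ _ => mul_nonneg (cwv_nonneg h (hOK p) φ) ((vp_LB h (hOK p) i z).1 _ _)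
      by_cases hO : (pc p).O par G i
      · rw [if_pos hO, if_pos (O_par hc (hOK p) hO)]
      · rw [if_neg hO]
        split_ifs <;> first | exact hl0 | exact le_rfl
    refine (sum_le_sum fun p _ => h1 p).trans ?_
    rw [← mul_sum, sum_emb hOK hinj hsurj (fun v => if par v ∉ G then
      loadv n N par B Z f₀ mu kr v z else 0), ← sum_filter]
    have h2 := load_ord hc hq.le hz
    have h3 : ∑ t ∈ gal b G f₀ Dom z, gpr G Z par Dom q₀ t =
        gpx b G Z par f₀ Dom q₀ (Sum.inl z : GV N np G) := rfl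
    rw [h3] at h2
    obtain ⟨X, hX⟩ : ∃ X : ℝ, X = gpx b G Z par f₀ Dom q₀ (Sum.inl z : GV N np G) := ⟨_, rfl⟩
    rw [← hX] at h2 hpx ⊢
    have h4 : ∑ v ∈ Z.filter (fun v => par v ∉ G), loadv n N par B Z f₀ mu kr v z ≤
        (1 + κ / 4) * X := by
      have h5 : κ / 4 * p₀ ≤ κ / 4 * X := mul_le_mul_of_nonneg_left hpx (by linarith)
      linarith
    have h5 := mul_le_mul_of_nonneg_left h4 (show 0 ≤ 1 - κ / 4 by linarith)
    refine h5.trans ?_
    have h6 : (1 - κ / 4) * ((1 + κ / 4) * X) = X - (κ / 4) ^ 2 * X := by ring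
    rw [h6]
    have h7 : 0 ≤ (κ / 4) ^ 2 * X := mul_nonneg (by positivity) (by linarith)
    linarith
  · refine le_trans (le_of_eq ?_) (hp.le.trans hpx)
    refine sum_eq_zero fun p _ => sum_eq_zero fun φ _ => ?_
    split_ifs with hz2
    · unfold gwt
      rw [if_neg]
      intro hok
      obtain ⟨i, -, hi⟩ := mem_gS_l.1 hz2
      exact hz (hok.2.1.subQ i hi)
    · rfl

/-- degree of a domino -/
theorem deg_d (hc : PkCfg true g₀ c₁ b γ p₀ C K n N par G B Z Q f₀ Dom mu kr)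
    (h : EnvV n N par B Z Q f₀ C mu kr) (hOK : ∀ p, (pc p).OK par Z)
    (hinj : Function.Injective (fun x : (Σ p : Fin np, Fin ((pc p).k + 1)) => (pc x.1).emb x.2))
    (hsurj : ∀ v ∈ Z, ∃ p i, (pc p).emb i = v) {q₀ : ℝ} (hq : 0 < q₀) {κ : ℝ} (hκ0 : 0 ≤ κ)
    (hκ1 : κ ≤ 1) (x : G × Fin (N + 1)) :
    ∑ e : GE N pc with Sum.inr (Sum.inl x) ∈ gS n par G B Z f₀ pc e,
      gwt n par G B Z Q f₀ b pc mu kr κ e ≤
      gpx b G Z par f₀ Dom q₀ (Sum.inr (Sum.inl x) : GV N np G) := by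
  classical
  rw [gsum, gpx_d]
  have hmu0 : ∀ p i, 0 ≤ mu ((pc p).emb i) x.2 := fun p i => h.law.mu_nn _ ((hOK p).emb_mem i) _
  have h1 : ∀ p, ∑ φ : Fin ((pc p).k + 1) → Fin (N + 1),
      (if Sum.inr (Sum.inl x) ∈ gS n par G B Z f₀ pc ⟨p, φ⟩ then
        gwt n par G B Z Q f₀ b pc mu kr κ ⟨p, φ⟩ else 0) ≤
      ∑ i, (if par ((pc p).emb i) = x.1 then mu ((pc p).emb i) x.2 else 0) := by
    intro p
    by_cases ht : par ((pc p).emb 0) = x.1
    · have h2 : ∑ φ : Fin ((pc p).k + 1) → Fin (N + 1),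
          (if Sum.inr (Sum.inl x) ∈ gS n par G B Z f₀ pc ⟨p, φ⟩ then
            gwt n par G B Z Q f₀ b pc mu kr κ ⟨p, φ⟩ else 0) ≤
          ∑ φ : Fin ((pc p).k + 1) → Fin (N + 1), (pc p).cwv N par mu kr φ *
            (fun y : Fin (N + 1) => if y = x.2 then (1 : ℝ) else 0) (φ 0) := by
        refine sum_le_sum fun φ _ => ?_
        have hcw := cwv_nonneg h (hOK p) φ
        by_cases hz2 : Sum.inr (Sum.inl x) ∈ gS n par G B Z f₀ pc ⟨p, φ⟩
        · have h3 : x.2 = φ 0 := (mem_gS_d.1 hz2).2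
          rw [if_pos hz2]
          dsimp only
          rw [if_pos h3.symm, mul_one]
          exact gwt_le (G := G) (b := b) h hOK hκ0 (⟨p, φ⟩ : GE N pc)
        · rw [if_neg hz2]
          refine mul_nonneg hcw ?_
          dsimp only
          split_ifs <;> norm_num
      refine h2.trans ?_
      have h3 : ∑ φ : Fin ((pc p).k + 1) → Fin (N + 1), (pc p).cwv N par mu kr φ *
            (fun y : Fin (N + 1) => if y = x.2 then (1 : ℝ) else 0) (φ 0) =
          ∑ y : Fin (N + 1), mu ((pc p).emb 0) y * (if y = x.2 then (1 : ℝ) else 0) :=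
        cw_one (vp_ok h (hOK p)) 0 (fun y : Fin (N + 1) => if y = x.2 then (1 : ℝ) else 0)
      rw [h3]
      have h4 : ∑ y : Fin (N + 1), mu ((pc p).emb 0) y * (if y = x.2 then (1 : ℝ) else 0) =
          mu ((pc p).emb 0) x.2 := by
        rw [sum_eq_single x.2]
        · rw [if_pos rfl, mul_one]
        · intro y _ hy
          rw [if_neg hy, mul_zero]
        · intro hy
          exact absurd (mem_univ _) hy
      rw [h4]
      have h5 := single_le_sum (f := fun i : Fin ((pc p).k + 1) =>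
        (if par ((pc p).emb i) = x.1 then mu ((pc p).emb i) x.2 else 0))
        (fun i _ => by
          try dsimp only
          split_ifs
          · exact hmu0 p i
          · exact le_rfl) (mem_univ 0)
      try dsimp only at h5
      rw [if_pos ht] at h5
      exact h5
    · refine le_trans (le_of_eq (sum_eq_zero fun φ _ => ?_)) (sum_nonneg fun i _ => ?_)
      · rw [if_neg]
        intro hz2
        exact ht (mem_gS_d.1 hz2).1
      · split_ifs
        · exact hmu0 p i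
        · exact le_rfl
  refine (sum_le_sum fun p _ => h1 p).trans ?_
  rw [sum_emb hOK hinj hsurj (fun v => if par v = x.1 then mu v x.2 else 0), ← sum_filter]
  refine le_trans ?_ (gqq_ge q₀ _).2
  have h2 : ∀ v ∈ Z.filter (fun v => par v = x.1), mu v x.2 ≤ 1 / ((Dom x.1).card : ℝ) := by
    intro v hv
    obtain ⟨h3, h4⟩ := mem_filter.1 hv
    have h5 : par v ∈ G := by
      rw [h4]
      exact x.1.2
    rw [hc.unif v h3 h5, h4]
    split_ifs
    · exact le_rfl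
    · positivity
  refine (sum_le_sum h2).trans (le_of_eq ?_)
  rw [sum_const, nsmul_eq_mul]
  ring

/-- degree of a component -/
theorem deg_c {κ : ℝ} (q : Fin np) :
    ∑ e : GE N pc with Sum.inr (Sum.inr q) ∈ gS n par G B Z f₀ pc e,
      gwt n par G B Z Q f₀ b pc mu kr κ e =
      ∑ φ : Fin ((pc q).k + 1) → Fin (N + 1), gwt n par G B Z Q f₀ b pc mu kr κ ⟨q, φ⟩ := by
  classical
  rw [gsum, sum_eq_single q]
  · exact sum_congr rfl fun φ _ => if_pos (mem_gS_c.2 rfl)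
  · intro p _ hpq
    exact sum_eq_zero fun φ _ => if_neg (fun hh => hpq (mem_gS_c.1 hh).symm)
  · intro hq
    exact absurd (mem_univ q) hq

theorem deg_c_le (h : EnvV n N par B Z Q f₀ C mu kr) (hOK : ∀ p, (pc p).OK par Z)
    {κ : ℝ} (hκ0 : 0 ≤ κ) (q : Fin np) :
    ∑ φ : Fin ((pc q).k + 1) → Fin (N + 1),
      gwt n par G B Z Q f₀ b pc mu kr κ (⟨q, φ⟩ : GE N pc) ≤ 1 := by
  rw [← cwv_sum h (hOK q)]
  exact sum_le_sum fun φ _ => gwt_le h hOK hκ0 (⟨q, φ⟩ : GE N pc)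

/-- degree of a good component from below -/
theorem deg_c_ge (hc : PkCfg true g₀ c₁ b γ p₀ C K n N par G B Z Q f₀ Dom mu kr) (hb : 1 ≤ b)
    (h : EnvV n N par B Z Q f₀ C mu kr) (hOK : ∀ p, (pc p).OK par Z)
    (hK : ∀ p, (pc p).k + 1 ≤ K) {κ : ℝ} (hκ0 : 0 ≤ κ) (hκ1 : κ ≤ 1)
    (b1 : (K : ℝ) * (3 * ((C + 1) / N)) +
        (K : ℝ) ^ 2 * (N * ((5 * ((C + 1) / N)) * (5 * ((C + 1) / N)))) +
      ((K : ℝ) * ((9 * b : ℝ) * ((C + 1) / N)) +
        (K : ℝ) ^ 2 * (N * ((5 * ((C + 1) / N)) * ((5 * b : ℝ) * ((C + 1) / N))))) ≤ κ / 4)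
    {q : Fin np} (hgd : (pc q).gd par G) :
    1 - κ ≤ ∑ φ : Fin ((pc q).k + 1) → Fin (N + 1),
      gwt n par G B Z Q f₀ b pc mu kr κ ⟨q, φ⟩ := by
  classical
  have hN : (0 : ℝ) < N := by exact_mod_cast h.N1
  have hC := h.C0
  have hKr : ((pc q).k : ℝ) + 1 ≤ K := by exact_mod_cast hK q
  have h1 := vp_inv h (hOK q)
  have h2 := vp_ns hb h (hOK q) ((pc q).O par G)
    (fun i hO c hcc => (O_bnb hc (hOK q) hgd hO c hcc).2)
  have h3 : (1 - κ / 4) * ∑ φ : Fin ((pc q).k + 1) → Fin (N + 1),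
      ((pc q).wv n N par B Z Q f₀ mu kr φ - (if (pc q).NS n par B Z f₀ b ((pc q).O par G)
        ((pc q).lab φ) then (pc q).cwv N par mu kr φ else 0)) ≤
      ∑ φ : Fin ((pc q).k + 1) → Fin (N + 1), gwt n par G B Z Q f₀ b pc mu kr κ ⟨q, φ⟩ := by
    rw [mul_sum]
    refine sum_le_sum fun φ _ => ?_
    have hcw := cwv_nonneg h (hOK q) φ
    by_cases hok : GOK n par G B Z Q f₀ b pc (⟨q, φ⟩ : GE N pc)
    · unfold gwt
      rw [if_pos hok]
      refine mul_le_mul_of_nonneg_left ?_ (by linarith)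
      have h4 := (wv_le h (hOK q) φ).2
      have h5 : 0 ≤ (if (pc q).NS n par B Z f₀ b ((pc q).O par G)
        ((pc q).lab φ) then (pc q).cwv N par mu kr φ else 0) := by
        split_ifs
        · exact hcw
        · exact le_rfl
      dsimp only
      linarith
    · have h4 : gwt n par G B Z Q f₀ b pc mu kr κ ⟨q, φ⟩ = 0 := by
        unfold gwt
        rw [if_neg hok]
      rw [h4]
      refine mul_nonpos_of_nonneg_of_nonpos (by linarith) ?_
      by_cases hv : (pc q).Valid n par B Z Q f₀ ((pc q).lab φ)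
      · have hs : ¬ Sep n par G B Z f₀ b pc (⟨q, φ⟩ : GE N pc) := fun hs => hok ⟨hgd, hv, hs⟩
        have h5 := ns_of_not_sep hs
        rw [if_pos h5]
        have h6 := (wv_le h (hOK q) φ).2
        linarith
      · have h5 : (pc q).wv n N par B Z Q f₀ mu kr φ = 0 := by
          unfold VP.wv
          rw [if_neg hv]
        rw [h5]
        split_ifs
        · linarith
        · linarith
  rw [sum_sub_distrib] at h1 h3
  rw [cwv_sum h (hOK q)] at h1
  obtain ⟨W, hW⟩ : ∃ W : ℝ, W = ∑ φ : Fin ((pc q).k + 1) → Fin (N + 1),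
    (pc q).wv n N par B Z Q f₀ mu kr φ := ⟨_, rfl⟩
  obtain ⟨X, hX⟩ : ∃ X : ℝ, X = ∑ φ : Fin ((pc q).k + 1) → Fin (N + 1),
    (if (pc q).NS n par B Z f₀ b ((pc q).O par G) ((pc q).lab φ) then
      (pc q).cwv N par mu kr φ else 0) := ⟨_, rfl⟩
  rw [← hW] at h1 h3
  rw [← hX] at h2 h3
  have e1 : (((pc q).k : ℝ) + 1) * (3 * ((C + 1) / N)) ≤ (K : ℝ) * (3 * ((C + 1) / N)) :=
    mul_le_mul_of_nonneg_right hKr (by positivity)
  have e2 : (((pc q).k : ℝ) + 1) ^ 2 * (N * ((5 * ((C + 1) / N)) * (5 * ((C + 1) / N)))) ≤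
      (K : ℝ) ^ 2 * (N * ((5 * ((C + 1) / N)) * (5 * ((C + 1) / N)))) :=
    mul_le_mul_of_nonneg_right (pow_le_pow_left₀ (by positivity) hKr 2) (by positivity)
  have e3 : (((pc q).k : ℝ) + 1) * ((9 * b : ℝ) * ((C + 1) / N)) ≤
      (K : ℝ) * ((9 * b : ℝ) * ((C + 1) / N)) :=
    mul_le_mul_of_nonneg_right hKr (by positivity)
  have e4 : (((pc q).k : ℝ) + 1) ^ 2 *
      (N * ((5 * ((C + 1) / N)) * ((5 * b : ℝ) * ((C + 1) / N)))) ≤
      (K : ℝ) ^ 2 * (N * ((5 * ((C + 1) / N)) * ((5 * b : ℝ) * ((C + 1) / N)))) :=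
    mul_le_mul_of_nonneg_right (pow_le_pow_left₀ (by positivity) hKr 2) (by positivity)
  have h4 : 1 - κ / 4 ≤ W - X := by linarith
  have h5 := mul_le_mul_of_nonneg_left h4 (show 0 ≤ 1 - κ / 4 by linarith)
  have h6 : (1 - κ / 4) * (1 - κ / 4) = 1 - κ / 2 + (κ / 4) ^ 2 := by ring
  have h7 : 0 ≤ (κ / 4) ^ 2 := by positivity
  linarith

/-! ### codegrees -/

theorem gLq_nn (hp : 0 < p₀) {q₀ : ℝ} (hq : 0 < q₀) (p : VP) : 0 ≤ gLq par G p₀ q₀ K p := by
  unfold gLq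
  split_ifs <;> positivity

theorem gLq_le (hp : 0 < p₀) {q₀ : ℝ} (hq : 0 < q₀) (hq1 : q₀ ≤ 1) (p : VP) :
    gLq par G p₀ q₀ K p ≤ 1 / p₀ ^ (3 * K) / q₀ := by
  unfold gLq
  split_ifs
  · exact le_rfl
  · rw [le_div_iff₀ hq]
    have h1 : 0 ≤ 1 / p₀ ^ (3 * K) := by positivity
    nlinarith

theorem sum_k_le (h : EnvV n N par B Z Q f₀ C mu kr) (hOK : ∀ p, (pc p).OK par Z)
    (hinj : Function.Injective (fun x : (Σ p : Fin np, Fin ((pc p).k + 1)) => (pc x.1).emb x.2))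
    (hsurj : ∀ v ∈ Z, ∃ p i, (pc p).emb i = v) : ∑ p, (((pc p).k : ℝ) + 1) ≤ N := by
  have hZN : (Z.card : ℝ) ≤ N := by
    have h1 := card_le_card h.Z_sub
    rw [card_range] at h1
    exact_mod_cast h1.trans h.nN
  have h1 := sum_emb hOK hinj hsurj (fun _ => 1)
  simp only [sum_const, card_univ, Fintype.card_fin, nsmul_eq_mul, mul_one] at h1
  refine le_trans (le_of_eq ?_) hZN
  rw [← h1]
  refine sum_congr rfl fun p _ => ?_
  push_cast
  ring

open Classical in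
/-- pairs of different vertices of a component -/
theorem vp_pairs (hb : 1 ≤ b) (h : EnvV n N par B Z Q f₀ C mu kr) {p : VP} (hp : p.OK par Z)
    (z j : ℕ) :
    ∑ φ : Fin (p.k + 1) → Fin (N + 1), (if (z ∈ p.us n par B Z f₀ (p.lab φ) 0 ∧
        ∃ i, i ≠ 0 ∧ ∃ z' ∈ p.us n par B Z f₀ (p.lab φ) i, z' / b = j) then
      p.cwv N par mu kr φ else 0) ≤
    ((p.k : ℝ) + 1) ^ 2 * ((5 * ((C + 1) / N)) * ((5 * b : ℝ) * ((C + 1) / N))) := by
  have hN : (0 : ℝ) < N := by exact_mod_cast h.N1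
  have hC := h.C0
  have hCN : (0 : ℝ) ≤ 5 * ((C + 1) / N) := by positivity
  have hD0 : ∀ (φ : Fin (p.k + 1) → Fin (N + 1)) (t : Fin (p.k + 1) × Fin (p.k + 1)),
      0 ≤ p.cwv N par mu kr φ * (p.hh n N par B Z f₀ t.1 z (φ (p.par t.1)) (φ t.1) *
        p.hb n N par B Z f₀ b t.2 j (φ (p.par t.2)) (φ t.2)) :=
    fun φ t => mul_nonneg (cwv_nonneg h hp φ) (mul_nonneg ((vp_LB h hp _ _).1 _ _)
      ((vp_LBb hb h hp _ _).1 _ _))
  have hpt : ∀ φ : Fin (p.k + 1) → Fin (N + 1),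
      (if (z ∈ p.us n par B Z f₀ (p.lab φ) 0 ∧
        ∃ i, i ≠ 0 ∧ ∃ z' ∈ p.us n par B Z f₀ (p.lab φ) i, z' / b = j) then
        p.cwv N par mu kr φ else 0) ≤
      (∑ t ∈ p.od, p.cwv N par mu kr φ * (p.hh n N par B Z f₀ t.1 z (φ (p.par t.1)) (φ t.1) *
        p.hb n N par B Z f₀ b t.2 j (φ (p.par t.2)) (φ t.2))) := by
    intro φ
    have hDs := sum_nonneg fun (t : Fin (p.k + 1) × Fin (p.k + 1)) (_ : t ∈ p.od) => hD0 φ t
    by_cases hev : (z ∈ p.us n par B Z f₀ (p.lab φ) 0 ∧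
        ∃ i, i ≠ 0 ∧ ∃ z' ∈ p.us n par B Z f₀ (p.lab φ) i, z' / b = j)
    · rw [if_pos hev]
      obtain ⟨hz, i, hi, hz'⟩ := hev
      have h3 := single_le_sum (f := fun t : Fin (p.k + 1) × Fin (p.k + 1) =>
        p.cwv N par mu kr φ * (p.hh n N par B Z f₀ t.1 z (φ (p.par t.1)) (φ t.1) *
        p.hb n N par B Z f₀ b t.2 j (φ (p.par t.2)) (φ t.2))) (fun t _ => hD0 φ t)
        (show ((0 : Fin (p.k + 1)), i) ∈ p.od from mem_filter.2 ⟨mem_univ _, hi.symm⟩)
      have h5 : p.cwv N par mu kr φ * (p.hh n N par B Z f₀ 0 z (φ (p.par 0)) (φ 0) *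
          p.hb n N par B Z f₀ b i j (φ (p.par i)) (φ i)) = p.cwv N par mu kr φ := by
        rw [hh_us, if_pos hz, hb_us φ i j hz', mul_one, mul_one]
      try dsimp only at h3
      linarith
    · rw [if_neg hev]
      exact hDs
  refine (sum_le_sum fun φ _ => hpt φ).trans ?_
  rw [sum_comm]
  refine (sum_le_sum fun t ht => cw_two (vp_ok h hp) (mem_filter.1 ht).2 hCN (vp_LB h hp t.1 z)
    (vp_LBb hb h hp t.2 j)).trans ?_
  rw [sum_const, nsmul_eq_mul]
  exact mul_le_mul_of_nonneg_right od_card (by positivity)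

open Classical in
/-- a component uses a label of a block -/
theorem vp_oneb (hb : 1 ≤ b) (h : EnvV n N par B Z Q f₀ C mu kr) {p : VP} (hp : p.OK par Z)
    (j : ℕ) :
    ∑ φ : Fin (p.k + 1) → Fin (N + 1), (if (∃ i, ∃ z' ∈ p.us n par B Z f₀ (p.lab φ) i,
        z' / b = j) then p.cwv N par mu kr φ else 0) ≤
    ((p.k : ℝ) + 1) * ((5 * b : ℝ) * ((C + 1) / N)) := by
  have hD0 : ∀ (φ : Fin (p.k + 1) → Fin (N + 1)) (i : Fin (p.k + 1)),
      0 ≤ p.cwv N par mu kr φ * p.hb n N par B Z f₀ b i j (φ (p.par i)) (φ i) :=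
    fun φ t => mul_nonneg (cwv_nonneg h hp φ) ((vp_LBb hb h hp _ _).1 _ _)
  have hpt : ∀ φ : Fin (p.k + 1) → Fin (N + 1),
      (if (∃ i, ∃ z' ∈ p.us n par B Z f₀ (p.lab φ) i, z' / b = j) then
        p.cwv N par mu kr φ else 0) ≤
      ∑ i, p.cwv N par mu kr φ * p.hb n N par B Z f₀ b i j (φ (p.par i)) (φ i) := by
    intro φ
    have hDs := sum_nonneg fun (i : Fin (p.k + 1)) (_ : i ∈ univ) => hD0 φ i
    by_cases hev : (∃ i, ∃ z' ∈ p.us n par B Z f₀ (p.lab φ) i, z' / b = j)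
    · rw [if_pos hev]
      obtain ⟨i, hz'⟩ := hev
      have h3 := single_le_sum (f := fun i : Fin (p.k + 1) =>
        p.cwv N par mu kr φ * p.hb n N par B Z f₀ b i j (φ (p.par i)) (φ i))
        (fun i _ => hD0 φ i) (mem_univ i)
      try dsimp only at h3
      rw [hb_us φ i j hz', mul_one] at h3
      exact h3
    · rw [if_neg hev]
      exact hDs
  refine (sum_le_sum fun φ _ => hpt φ).trans ?_
  rw [sum_comm]
  refine (sum_le_sum fun i _ => cw_hloc (vp_ok h hp) (vp_LBb hb h hp i j)).trans (le_of_eq ?_)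
  rw [sum_const, card_univ, Fintype.card_fin, nsmul_eq_mul]
  push_cast
  ring

end SSB
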