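import Pool.Agent.Lib.MP_8a819d_co.AT.PackG4
import Pool.Agent.Lib.MP_8a819d_co.AT.SpNib

/-!
# MP_8a819d_co, trees with many non-leaves: packing with vertices of linear degree, 5. Block codegrees, the nibble
-/

set_option autoImplicit false
set_option linter.unusedSectionVars false
set_option linter.unusedVariables false

namespace SSB

open Finset

variable {g₀ c₁ b K n N np : ℕ} {γ p₀ C : ℝ} {par : ℕ → ℕ} {G B Z Q : Finset ℕ} {f₀ : ℕ → ℕ}
  {Dom : ℕ → Finset ℕ} {mu : ℕ → ℕ → ℝ} {kr : ℕ → ℕ → ℕ → ℝ} {pc : Fin np → VP}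

/-- block codegree of a domino -/
theorem cod_d (hc : PkCfg true g₀ c₁ b γ p₀ C K n N par G B Z Q f₀ Dom mu kr) (hb : 1 ≤ b)
    (h : EnvV n N par B Z Q f₀ C mu kr) (hOK : ∀ p, (pc p).OK par Z)
    (hinj : Function.Injective (fun x : (Σ p : Fin np, Fin ((pc p).k + 1)) => (pc x.1).emb x.2))
    (hsurj : ∀ v ∈ Z, ∃ p i, (pc p).emb i = v) (hK : ∀ p, (pc p).k + 1 ≤ K) {q₀ : ℝ}
    (hq : 0 < q₀) (hq1 : q₀ ≤ 1)
    (hn : p₀ ≤ gpr G Z par Dom q₀ none) (hp : 0 < p₀) (hp1 : p₀ ≤ 1) {κ : ℝ} (hκ0 : 0 ≤ κ)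
    (hκ1 : κ ≤ 1) (x : G × Fin (N + 1)) (j : Fin (N + 1))
    (hj : gbl b (Sum.inr (Sum.inl x) : GV N np G) ≠ some j) :
    ∑ e : GE N pc with (Sum.inr (Sum.inl x) ∈ gS n par G B Z f₀ pc e ∧
        ∃ y ∈ gS n par G B Z f₀ pc e, gbl b y = some j),
      gwt n par G B Z Q f₀ b pc mu kr κ e /
        ∏ x ∈ gS n par G B Z f₀ pc e, gpx b G Z par f₀ Dom q₀ x ≤
      1 / p₀ ^ (3 * K) / q₀ * (K * (N * ((5 * ((C + 1) / N)) * ((5 * b : ℝ) * ((C + 1) / N))))) := by
  classical
  have hN : (0 : ℝ) < N := by exact_mod_cast h.N1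
  have hC := h.C0
  have hX : 0 ≤ (5 * ((C + 1) / (N : ℝ))) * ((5 * b : ℝ) * ((C + 1) / N)) := by positivity
  refine (gsum_le hc h hOK hK hq hn hp hp1 hκ0 hκ1 _
    (fun p φ => ((x.2 : ℕ) ∈ (pc p).us n par B Z f₀ ((pc p).lab φ) 0 ∧
        ∃ i, i ≠ 0 ∧ ∃ z' ∈ (pc p).us n par B Z f₀ ((pc p).lab φ) i, z' / b = j)) ?_).trans ?_
  · intro p φ hgd ⟨h1, y, hy, hyj⟩
    rw [mem_gS_d] at h1
    have h2 : (pc p).lab φ 0 = (x.2 : ℕ) := by
      rw [h1.2]
      rfl
    refine ⟨by rw [← h2]; exact self_us _ _ 0, ?_⟩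
    rcases y with z' | y | q'
    · rw [mem_gS_l] at hy
      obtain ⟨i, hO, hz'⟩ := hy
      rw [gbl_l] at hyj
      exact ⟨i, fun hi => hO ⟨hi, by rw [h1.1]; exact x.1.2⟩, z', hz', hyj⟩
    · rw [mem_gS_d] at hy
      exfalso
      apply hj
      have h3 : x = y := Prod.ext (Subtype.ext (h1.1.symm.trans hy.1)) (h1.2.trans hy.2.symm)
      rw [h3]
      exact hyj
    · exact absurd hyj (by simp [gbl])
  · have h1 : ∀ p, (if (pc p).gd par G then gLq par G p₀ q₀ K (pc p) *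
        ∑ φ : Fin ((pc p).k + 1) → Fin (N + 1),
          (if ((x.2 : ℕ) ∈ (pc p).us n par B Z f₀ ((pc p).lab φ) 0 ∧
          ∃ i, i ≠ 0 ∧ ∃ z' ∈ (pc p).us n par B Z f₀ ((pc p).lab φ) i, z' / b = j) then
          (pc p).cwv N par mu kr φ else 0) else 0) ≤
        1 / p₀ ^ (3 * K) / q₀ * (K * ((((pc p).k : ℝ) + 1) *
          ((5 * ((C + 1) / N)) * ((5 * b : ℝ) * ((C + 1) / N))))) := by
      intro p
      have hKr : ((pc p).k : ℝ) + 1 ≤ K := by exact_mod_cast hK p
      have hL : 0 ≤ 1 / p₀ ^ (3 * K) / q₀ := by positivity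
      have hr : 0 ≤ 1 / p₀ ^ (3 * K) / q₀ * (K * ((((pc p).k : ℝ) + 1) *
          ((5 * ((C + 1) / N)) * ((5 * b : ℝ) * ((C + 1) / N))))) := by positivity
      split_ifs
      · refine mul_le_mul (gLq_le hp hq hq1 _) ?_ ?_ hL
        · have h2 := vp_pairs hb h (hOK p) x.2 j
          refine le_trans (le_of_eq ?_) (h2.trans ?_)
          · refine sum_congr rfl fun φ _ => ?_
            split_ifs <;> rfl
          · have h3 := mul_le_mul_of_nonneg_right hKr (mul_nonneg (show 0 ≤ ((pc p).k : ℝ) + 1 by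
              positivity) hX)
            linarith
        · refine sum_nonneg fun φ _ => ?_
          split_ifs
          · exact cwv_nonneg h (hOK p) φ
          · exact le_rfl
      · exact hr
    refine (sum_le_sum fun p _ => h1 p).trans ?_
    rw [← mul_sum, ← mul_sum, ← sum_mul]
    refine mul_le_mul_of_nonneg_left ?_ (by positivity)
    refine mul_le_mul_of_nonneg_left ?_ (by positivity)
    exact mul_le_mul_of_nonneg_right (sum_k_le h hOK hinj hsurj) hX

/-- block codegree of a component -/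
theorem cod_c (hc : PkCfg true g₀ c₁ b γ p₀ C K n N par G B Z Q f₀ Dom mu kr) (hb : 1 ≤ b)
    (h : EnvV n N par B Z Q f₀ C mu kr) (hOK : ∀ p, (pc p).OK par Z)
    (hK : ∀ p, (pc p).k + 1 ≤ K) {q₀ : ℝ} (hq : 0 < q₀) (hq1 : q₀ ≤ 1)
    (hn : p₀ ≤ gpr G Z par Dom q₀ none) (hp : 0 < p₀) (hp1 : p₀ ≤ 1) {κ : ℝ} (hκ0 : 0 ≤ κ)
    (hκ1 : κ ≤ 1) (q : Fin np) (j : Fin (N + 1)) :
    ∑ e : GE N pc with (Sum.inr (Sum.inr q) ∈ gS n par G B Z f₀ pc e ∧
        ∃ y ∈ gS n par G B Z f₀ pc e, gbl b y = some j),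
      gwt n par G B Z Q f₀ b pc mu kr κ e /
        ∏ x ∈ gS n par G B Z f₀ pc e, gpx b G Z par f₀ Dom q₀ x ≤
      1 / p₀ ^ (3 * K) / q₀ * (K * ((5 * b : ℝ) * ((C + 1) / N))) := by
  classical
  have hN : (0 : ℝ) < N := by exact_mod_cast h.N1
  have hC := h.C0
  refine (gsum_le hc h hOK hK hq hn hp hp1 hκ0 hκ1 _
    (fun p φ => q = p ∧ ∃ i, ∃ z' ∈ (pc p).us n par B Z f₀ ((pc p).lab φ) i, z' / b = j) ?_).trans ?_
  · intro p φ hgd ⟨h1, y, hy, hyj⟩
    rw [mem_gS_c] at h1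
    refine ⟨h1, ?_⟩
    rcases y with z' | y | q'
    · rw [mem_gS_l] at hy
      obtain ⟨i, hO, hz'⟩ := hy
      rw [gbl_l] at hyj
      exact ⟨i, z', hz', hyj⟩
    · rw [mem_gS_d] at hy
      rw [gbl_d] at hyj
      refine ⟨0, _, self_us _ _ 0, ?_⟩
      have h2 : (pc p).lab φ 0 = (y.2 : ℕ) := by
        rw [hy.2]
        rfl
      rw [h2]
      exact hyj
    · exact absurd hyj (by simp [gbl])
  · rw [sum_eq_single q]
    · have hKr : ((pc q).k : ℝ) + 1 ≤ K := by exact_mod_cast hK q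
      have hL : 0 ≤ 1 / p₀ ^ (3 * K) / q₀ := by positivity
      split_ifs
      · refine mul_le_mul (gLq_le hp hq hq1 _) ?_ ?_ hL
        · have h2 := vp_oneb hb h (hOK q) j
          refine le_trans (le_of_eq ?_) (h2.trans (mul_le_mul_of_nonneg_right hKr (by positivity)))
          refine sum_congr rfl fun φ _ => ?_
          refine if_congr ⟨fun h3 => h3.2, fun h3 => ⟨rfl, h3⟩⟩ rfl rfl
        · refine sum_nonneg fun φ _ => ?_
          split_ifs
          · exact cwv_nonneg h (hOK q) φ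
          · exact le_rfl
      · positivity
    · intro p _ hpq
      split_ifs
      · rw [sum_eq_zero, mul_zero]
        intro φ _
        rw [if_neg]
        rintro ⟨h1, -⟩
        exact hpq h1.symm
      · rfl
    · intro h1
      exact absurd (mem_univ q) h1

open Classical in
/-- block codegree of a label -/
theorem cod_l (hc : PkCfg true g₀ c₁ b γ p₀ C K n N par G B Z Q f₀ Dom mu kr) (hb : 1 ≤ b)
    (hγ : 0 ≤ γ) (h : EnvV n N par B Z Q f₀ C mu kr) (hOK : ∀ p, (pc p).OK par Z)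
    (hinj : Function.Injective (fun x : (Σ p : Fin np, Fin ((pc p).k + 1)) => (pc x.1).emb x.2))
    (hsurj : ∀ v ∈ Z, ∃ p i, (pc p).emb i = v) (hK : ∀ p, (pc p).k + 1 ≤ K) {q₀ : ℝ}
    (hq : 0 < q₀) (hq1 : q₀ ≤ 1)
    (hn : p₀ ≤ gpr G Z par Dom q₀ none) (hp : 0 < p₀) (hp1 : p₀ ≤ 1) {κ : ℝ} (hκ0 : 0 ≤ κ)
    (hκ1 : κ ≤ 1) (z : Fin (N + 1)) (j : Fin (N + 1))
    (hj : gbl b (Sum.inl z : GV N np G) ≠ some j) :
    ∑ e : GE N pc with (Sum.inl z ∈ gS n par G B Z f₀ pc e ∧
        ∃ y ∈ gS n par G B Z f₀ pc e, gbl b y = some j),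
      gwt n par G B Z Q f₀ b pc mu kr κ e /
        ∏ x ∈ gS n par G B Z f₀ pc e, gpx b G Z par f₀ Dom q₀ x ≤
      1 / p₀ ^ (3 * K) / q₀ * (((25 * K + 12) * b) * (N * ((C + 1) / N * ((C + 1) / N)))) +
        (1 / p₀ ^ (3 * K) * (2 * ((C + 1) / N) * (2 * (b * √N) + 2 * (γ * N))) +
          1 / p₀ ^ (3 * K) / q₀ * (2 * ((C + 1) / N) * (2 * b))) := by
  have hN : (0 : ℝ) < N := by exact_mod_cast h.N1
  have hC := h.C0
  have hjz : (z : ℕ) / b ≠ j := fun h1 => hj (gbl_l.2 h1)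
  have hL1 : 0 ≤ 1 / p₀ ^ (3 * K) := by positivity
  have hL : 0 ≤ 1 / p₀ ^ (3 * K) / q₀ := by positivity
  have hA : (0 : ℝ) ≤ 2 * ((C + 1) / N) := by positivity
  have hAA : (0 : ℝ) ≤ (C + 1) / N * ((C + 1) / N) := by positivity
  refine (gsum_le hc h hOK hK hq hn hp hp1 hκ0 hκ1 _
    (fun p φ => ∃ i, (pc p).O par G i ∧ (z : ℕ) ∈ (pc p).us n par B Z f₀ ((pc p).lab φ) i ∧
        ∃ i', ∃ z' ∈ (pc p).us n par B Z f₀ ((pc p).lab φ) i', z' / b = j) ?_).trans ?_
  · intro p φ hgd ⟨h1, y, hy, hyj⟩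
    rw [mem_gS_l] at h1
    obtain ⟨i, hO, hz⟩ := h1
    refine ⟨i, hO, hz, ?_⟩
    rcases y with z' | y | q'
    · rw [mem_gS_l] at hy
      obtain ⟨i', hO', hz'⟩ := hy
      rw [gbl_l] at hyj
      exact ⟨i', z', hz', hyj⟩
    · rw [mem_gS_d] at hy
      rw [gbl_d] at hyj
      refine ⟨0, _, self_us _ _ 0, ?_⟩
      have h2 : (pc p).lab φ 0 = (y.2 : ℕ) := by
        rw [hy.2]
        rfl
      rw [h2]
      exact hyj
    · exact absurd hyj (by simp [gbl])
  · -- the functions of the vertex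
    obtain ⟨F1, hF1⟩ : ∃ F1 : ℕ → ℝ, ∀ v, F1 v = ∑ z' ∈ Ico ((j : ℕ) * b) ((j : ℕ) * b + b),
      (if ∃ c ∈ bnb n par B v, c ∉ G ∧ (f₀ c = z + z' ∨ f₀ c = dd z z') then (1 : ℝ) else 0) :=
      ⟨_, fun _ => rfl⟩
    obtain ⟨F2, hF2⟩ : ∃ F2 : ℕ → ℝ, ∀ v, F2 v = ∑ z' ∈ Ico ((j : ℕ) * b) ((j : ℕ) * b + b),
      (if ∃ c ∈ bnb n par B v, par c = v ∧ (f₀ c = z + z' ∨ f₀ c = dd z z') then (1 : ℝ) else 0) :=
      ⟨_, fun _ => rfl⟩
    have hF10 : ∀ v, 0 ≤ F1 v := fun v => by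
      rw [hF1]
      exact sum_nonneg fun _ _ => by split_ifs <;> norm_num
    have hF20 : ∀ v, 0 ≤ F2 v := fun v => by
      rw [hF2]
      exact sum_nonneg fun _ _ => by split_ifs <;> norm_num
    have hsum : ∀ p, (if (pc p).gd par G then gLq par G p₀ q₀ K (pc p) *
        ∑ φ : Fin ((pc p).k + 1) → Fin (N + 1),
          (if (∃ i, (pc p).O par G i ∧ (z : ℕ) ∈ (pc p).us n par B Z f₀ ((pc p).lab φ) i ∧
          ∃ i', ∃ z' ∈ (pc p).us n par B Z f₀ ((pc p).lab φ) i', z' / b = j) then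
          (pc p).cwv N par mu kr φ else 0) else 0) ≤
        1 / p₀ ^ (3 * K) / q₀ * (((25 * K + 12) * b) * ((((pc p).k : ℝ) + 1) *
          ((C + 1) / N * ((C + 1) / N)))) +
        ∑ i, (1 / p₀ ^ (3 * K) * (2 * ((C + 1) / N) * F1 ((pc p).emb i)) +
          1 / p₀ ^ (3 * K) / q₀ * (2 * ((C + 1) / N) * F2 ((pc p).emb i))) := by
      intro p
      have hKr : ((pc p).k : ℝ) + 1 ≤ K := by exact_mod_cast hK p
      have hk1 : (0 : ℝ) ≤ ((pc p).k : ℝ) + 1 := by positivity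
      have hr1 : 0 ≤ 1 / p₀ ^ (3 * K) / q₀ * (((25 * K + 12) * b) * ((((pc p).k : ℝ) + 1) *
          ((C + 1) / N * ((C + 1) / N)))) := by positivity
      have hr2 : 0 ≤ ∑ i, (1 / p₀ ^ (3 * K) * (2 * ((C + 1) / N) * F1 ((pc p).emb i)) +
          1 / p₀ ^ (3 * K) / q₀ * (2 * ((C + 1) / N) * F2 ((pc p).emb i))) :=
        sum_nonneg fun i _ => add_nonneg (mul_nonneg hL1 (mul_nonneg hA (hF10 _)))
          (mul_nonneg hL (mul_nonneg hA (hF20 _)))
      by_cases hgd : (pc p).gd par G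
      · rw [if_pos hgd]
        have h2 := vp_codb hb h (hOK p) ((pc p).O par G) hjz
        have h3 := mul_le_mul_of_nonneg_left h2 (gLq_nn (par := par) (G := G) (K := K) hp hq (pc p))
        refine h3.trans ?_
        rw [mul_add]
        -- split the sum over the vertices
        have h4 : gLq par G p₀ q₀ K (pc p) * ∑ i, (if (pc p).O par G i then
            (12 * b * ((C + 1) / N * ((C + 1) / N)) +
            ∑ z' ∈ Ico ((j : ℕ) * b) ((j : ℕ) * b + b),
              if (∃ c ∈ bnb n par B ((pc p).emb i), f₀ c = z + z' ∨ f₀ c = dd z z') then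
                2 * ((C + 1) / N) else 0) else 0) ≤
            ∑ i, (1 / p₀ ^ (3 * K) / q₀ * (12 * b * ((C + 1) / N * ((C + 1) / N))) +
              (1 / p₀ ^ (3 * K) * (2 * ((C + 1) / N) * F1 ((pc p).emb i)) +
              1 / p₀ ^ (3 * K) / q₀ * (2 * ((C + 1) / N) * F2 ((pc p).emb i)))) := by
          rw [mul_sum]
          refine sum_le_sum fun i _ => ?_
          have hb12 : (0 : ℝ) ≤ 12 * b * ((C + 1) / N * ((C + 1) / N)) := by positivity
          by_cases hO : (pc p).O par G i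
          · rw [if_pos hO, mul_add]
            refine add_le_add (mul_le_mul_of_nonneg_right (gLq_le hp hq hq1 _) hb12) ?_
            have hbn := O_bnb hc (hOK p) hgd hO
            by_cases ht : par ((pc p).emb 0) ∈ G
            · have hch := O_child hc (hOK p) ht hO
              have e1 : gLq par G p₀ q₀ K (pc p) = 1 / p₀ ^ (3 * K) / q₀ := by
                unfold gLq
                rw [if_pos ht]
              have e2 : ∑ z' ∈ Ico ((j : ℕ) * b) ((j : ℕ) * b + b),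
                  (if (∃ c ∈ bnb n par B ((pc p).emb i), f₀ c = z + z' ∨ f₀ c = dd z z') then
                  2 * ((C + 1) / (N : ℝ)) else 0) = 2 * ((C + 1) / N) * F2 ((pc p).emb i) := by
                rw [hF2, mul_sum]
                refine sum_congr rfl fun z' _ => ?_
                rw [mul_ite, mul_one, mul_zero]
                refine if_congr ⟨?_, ?_⟩ rfl rfl
                · rintro ⟨c, hcc, h5⟩
                  exact ⟨c, hcc, hch c hcc, h5⟩
                · rintro ⟨c, hcc, -, h5⟩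
                  exact ⟨c, hcc, h5⟩
              rw [e1, e2]
              have h5 := mul_nonneg hL1 (mul_nonneg hA (hF10 ((pc p).emb i)))
              linarith
            · have e1 : gLq par G p₀ q₀ K (pc p) = 1 / p₀ ^ (3 * K) := by
                unfold gLq
                rw [if_neg ht]
              have e2 : ∑ z' ∈ Ico ((j : ℕ) * b) ((j : ℕ) * b + b),
                  (if (∃ c ∈ bnb n par B ((pc p).emb i), f₀ c = z + z' ∨ f₀ c = dd z z') then
                  2 * ((C + 1) / (N : ℝ)) else 0) = 2 * ((C + 1) / N) * F1 ((pc p).emb i) := by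
                rw [hF1, mul_sum]
                refine sum_congr rfl fun z' _ => ?_
                rw [mul_ite, mul_one, mul_zero]
                refine if_congr ⟨?_, ?_⟩ rfl rfl
                · rintro ⟨c, hcc, h5⟩
                  exact ⟨c, hcc, (hbn c hcc).1, h5⟩
                · rintro ⟨c, hcc, -, h5⟩
                  exact ⟨c, hcc, h5⟩
              rw [e1, e2]
              have h5 := mul_nonneg hL (mul_nonneg hA (hF20 ((pc p).emb i)))
              linarith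
          · rw [if_neg hO, mul_zero]
            have h5 := mul_nonneg hL hb12
            have h6 := mul_nonneg hL (mul_nonneg hA (hF20 ((pc p).emb i)))
            have h7 := mul_nonneg hL1 (mul_nonneg hA (hF10 ((pc p).emb i)))
            linarith
        have h5 : gLq par G p₀ q₀ K (pc p) * ((((pc p).k : ℝ) + 1) ^ 2 *
            ((5 * ((C + 1) / N)) * ((5 * b : ℝ) * ((C + 1) / N)))) ≤
            1 / p₀ ^ (3 * K) / q₀ * ((25 * K * b) * ((((pc p).k : ℝ) + 1) *
            ((C + 1) / N * ((C + 1) / N)))) := by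
          refine mul_le_mul (gLq_le hp hq hq1 _) ?_ (by positivity) hL
          have h6 := mul_le_mul_of_nonneg_right hKr (mul_nonneg hk1 (mul_nonneg
            (show (0 : ℝ) ≤ 25 * b by positivity) hAA))
          linarith
        refine (add_le_add h5 h4).trans (le_of_eq ?_)
        rw [sum_add_distrib, sum_const, card_univ, Fintype.card_fin, nsmul_eq_mul]
        push_cast
        ring
      · rw [if_neg hgd]
        exact add_nonneg hr1 hr2
    refine (sum_le_sum fun p _ => hsum p).trans ?_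
    · rw [sum_add_distrib]
      refine add_le_add ?_ ?_
      · rw [← mul_sum, ← mul_sum, ← sum_mul]
        refine mul_le_mul_of_nonneg_left (mul_le_mul_of_nonneg_left ?_ (by positivity)) hL
        exact mul_le_mul_of_nonneg_right (sum_k_le h hOK hinj hsurj) hAA
      · rw [sum_emb hOK hinj hsurj (fun v => 1 / p₀ ^ (3 * K) * (2 * ((C + 1) / N) * F1 v) +
          1 / p₀ ^ (3 * K) / q₀ * (2 * ((C + 1) / N) * F2 v)), sum_add_distrib, ← mul_sum,
          ← mul_sum, ← mul_sum, ← mul_sum]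
        have h6 := cnt_bound hc h hb hγ hjz
        have h7 := cnt_child (b := b) h z j
        refine add_le_add ?_ ?_
        · refine mul_le_mul_of_nonneg_left (mul_le_mul_of_nonneg_left ?_ hA) hL1
          refine le_trans (le_of_eq ?_) h6
          exact sum_congr rfl fun v _ => hF1 v
        · refine mul_le_mul_of_nonneg_left (mul_le_mul_of_nonneg_left ?_ hA) hL
          refine le_trans (le_of_eq ?_) h7
          exact sum_congr rfl fun v _ => hF2 v

end SSB
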