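import Pool.Agent.Lib.MP_8a819d_co.AT.PackV5

/-!
# MP_8a819d_co, trees with many non-leaves: the vertex-level packing theorem

Statement: given consistent laws (`LawV`) on the vertices of `Z` with total load at most `1` at every
label of `Q`, components of `Z` of size `< K` and every `b ∈ B` with at most `γ N` neighbours in `Z`, all
but `μ N` vertices of `Z` (a union of components `Cv`) can be numbered with distinct new labels in `Q`.

PROOF. `nibble` (BD/Nib.lean) for
* `V = Fin (N+1) ⊕ Fin np` (labels and components), `np` = number of the components of `Z`, i.e. of the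
  roots `r ∈ Z`, `par r ∉ Z`; the component of `r` is `comp n par (range n \ Z) r` (BD/Dc1.lean; the set
  `S := range n \ Z` contains `0`; the parent of `v ∈ Z` is `< n`, so it is in `Z` or in `S`). As in
  `dc3_one` of BD/Dc.lean enumerate the component increasingly: `emb r : Fin (k r + 1) → ℕ`, `emb r 0 = r`,
  with a parent map `par'` (`par' 0 = 0`, `par' i < i`, `par (emb i) = emb (par' i)` for `i ≠ 0`).
* `E = Σ p : Fin np, (Fin (k p + 1) → Fin (N+1))`, weight `w (p, φ) = cw par' m κ φ` if `φ` is VALID and `0`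
  otherwise, with `m = mu r`, `κ i x y = kr (emb i) x y`, replaced by the uniform law `1/(N+1)` for those `x`
  with `mu (par (emb i)) x = 0` (so that `ChOK` of BD/Chn.lean holds; the products
  `mu (par v) x * kr v x y` are not changed, all kernels are `≤ (C+1)/N`), `Mg i = mu (emb i)`.
  For `i = 0` the label of the parent is irrelevant (`par r ∉ Z`, so `usv` does not depend on `x`).
* `S (p, φ) = {inr p} ∪ {inl z : z used}`, used labels: union over `i` of
  `us i = usv n par B Z f₀ (emb i) (φ (par' i)) (φ i)`; at most `3 K + 1` elements.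
* VALID: for every `i` the set `us i` is contained in `Q` and has the full number of elements
  `1 + |bnb (emb i)| + [i ≠ 0]`, and the sets `us i` are pairwise disjoint.
Let `C' = C + 1`. Estimates:
(1) degree of `inl z`: `0` if `z ∉ Q`; if `z ∈ Q` at most `∑ v ∈ Z, loadv v z ≤ 1` (`cw_one` at the roots,
    `cw_edge` for the other vertices).
(2) degree of `inr p`: `1 - P(not valid)`. By `rule`, `rule_root` all used labels are in `Q` whenever the
    weight is not `0`. Not valid means (a) a coincidence inside one `us i`: `dd x y = y` (then `x = 2 y` as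
    `x ∈ Q`, so `x ≥ 1`: one `y` for given `x`), `dd (f₀ b) y = y` (`f₀ b = 2 y` as `f₀ b ≥ 1`),
    `dd x y = dd (f₀ b) y` (`x ≠ f₀ b`, as `x ∈ Q` and `f₀ b ∉ Q`; so `2 y = x + f₀ b`): together probability
    at most `3 C'/N`; (b) a label `z` used by two vertices `i ≠ j`: `∑ z ∈ Q, (5 C'/N)^2` for each pair
    (`cw_two`; for fixed `x` and `z` there are at most `1 + 2 + 2 = 5` values `y` with `z ∈ usv v x y`, so
    `LB m κ i h (5 C'/N)` for `h x y = [z ∈ usv v x y]`). Total at most `3 K C'/N + 25 K^2 C'^2/N`.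
(3) codegree of `inl z ≠ inl z'`: pairs `i ≠ j` of vertices of the same component: `∑ p, K^2 (5C'/N)^2 ≤
    K^2 n 25 C'^2/N^2 ≤ 25 K^2 C'^2/N` (`n ≤ N`). The same vertex `v` uses both: `{y, dd x y}` (at most `4`
    pairs `(x, y)`) or `{dd (f₀ b) y, dd x y}` (at most `2` values `y` in each of two orders, `2` values `x`
    each: `8` pairs), each of probability `mu (par v) x * kr v x y ≤ C'^2/N^2`, sum over `v`: `≤ 12 C'^2/N`;
    or `{y, dd (f₀ b) y} = {z, z'}`: then `f₀ b ∈ {z + z', dd z z'}`, so `b` is one of at most two elements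
    of `B` (labels of `B` are distinct), with at most `γ N` neighbours each, and for each such neighbour `v`
    the probability is at most `2 C'/N`: sum at most `4 γ C'`.
(4) codegree of `inl z`, `inr p`: at most `5 K C'/N`; `inr p ≠ inr q`: `0`.
`V0` = all `inr p`. With `κ` from `nibble (3K+1) (μ/(3K+3))`, `γ = κ/(8 C')` and `N` large all the hypotheses
hold. The matching `M` contains at most one `φ` for every component and misses at most
`μ/(3K+3) (N + 1 + np) ≤ μ N/K` components (`np ≤ n ≤ N`), i.e. at most `μ N` vertices.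
`Cv` = union of the covered components, `f = φ` there, `f = f₀` on `B`, anything elsewhere.
INJECTIVITY on `items par (B ∪ Cv)`: the items not in `items par B` are `inl v` (`v ∈ Cv`, label `y`), `inr v`
(`v ∈ Cv`, `par v ∈ Cv` - the same component - label `dd x y`, or `par v ∈ B`, label `dd (f₀ (par v)) y`) and `inr c`
with `c ∈ B`, `par c = v ∈ Cv` (label `dd (f c) (f v)` with `c ∈ bnb v`); so they correspond bijectively to the
pairs (`v`, element of `usv v ..`) by validity; different `v` have disjoint sets (same component: valid;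
different components: matching). Labels of `items par B` are not in `Q`, the new ones are in `Q`.
-/

set_option autoImplicit false

namespace SSB

open Finset

theorem packV (K : ℕ) (C μ : ℝ) (hC : 0 < C) (hμ : 0 < μ) :
    ∃ γ : ℝ, 0 < γ ∧ ∃ N₀ : ℕ, ∀ N : ℕ, N₀ ≤ N → ∀ (n : ℕ) (par : ℕ → ℕ), IsPar n par → n ≤ N →
      ∀ (B Z Q : Finset ℕ) (f₀ : ℕ → ℕ), B ⊆ range n → Z ⊆ range n → Disjoint B Z → 0 ∉ Z →
        Q ⊆ Icc 1 N → (∀ v ∈ Z, (bnb n par B v).card ≤ 1) →
        Set.InjOn (val par f₀) (items par B) →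
        (∀ x ∈ items par B, 1 ≤ val par f₀ x ∧ val par f₀ x ∉ Q) →
        (∀ b ∈ B, ((Z.filter (fun v => b ∈ bnb n par B v)).card : ℝ) ≤ γ * N) →
        (∀ r, (comp n par (range n \ Z) r).card ≤ K) →
      ∀ (mu : ℕ → ℕ → ℝ) (kr : ℕ → ℕ → ℕ → ℝ), LawV n N par B Z Q f₀ C mu kr →
        (∀ z ∈ Q, ∑ v ∈ Z, loadv n N par B Z f₀ mu kr v z ≤ 1) →
      ∃ (Cv : Finset ℕ) (f : ℕ → ℕ), Cv ⊆ Z ∧ (∀ v ∈ Z, par v ∈ Z → (v ∈ Cv ↔ par v ∈ Cv)) ∧
        (∀ b ∈ B, f b = f₀ b) ∧ Set.InjOn (val par f) (items par (B ∪ Cv)) ∧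
        (∀ x ∈ items par (B ∪ Cv), x ∉ items par B → val par f x ∈ Q) ∧
        ((Z \ Cv).card : ℝ) ≤ μ * N := by
  have hK1 : (0 : ℝ) < 3 * (K : ℝ) + 3 := by positivity
  obtain ⟨κ, hκ, hnib⟩ := nibble (3 * K + 1) (μ / (3 * (K : ℝ) + 3)) (by positivity)
  have hC1 : 0 < C + 1 := by linarith
  refine ⟨κ / (8 * (C + 1)), by positivity, ?_⟩
  obtain ⟨N₀, hN₀⟩ := exists_nat_ge ((3 * (K : ℝ) * (C + 1) + 25 * (K : ℝ) ^ 2 * (C + 1) ^ 2) / κ +
    2 * ((25 * (K : ℝ) + 12) * (C + 1) ^ 2) / κ + 5 * (K : ℝ) * (C + 1) / κ + 1)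
  refine ⟨N₀, fun N hN n par hpar hnN B Z Q f₀ hB hZ hBZ hZ0 hQ hbnb hInj hlab hγ hK mu kr hlaw
    hload => ?_⟩
  have hNr : (N₀ : ℝ) ≤ N := by exact_mod_cast hN
  have e1 : 0 ≤ (3 * (K : ℝ) * (C + 1) + 25 * (K : ℝ) ^ 2 * (C + 1) ^ 2) / κ := by positivity
  have e2 : 0 ≤ 2 * ((25 * (K : ℝ) + 12) * (C + 1) ^ 2) / κ := by positivity
  have e3 : 0 ≤ 5 * (K : ℝ) * (C + 1) / κ := by positivity
  have hN1 : (1 : ℝ) ≤ N := by linarith
  have hN' : (0 : ℝ) < N := by linarith
  have key : ∀ x : ℝ, x / κ ≤ N → x / N ≤ κ := by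
    intro x hx
    rw [div_le_iff₀ hκ] at hx
    rw [div_le_iff₀ hN']
    linarith
  have c1 := key (3 * (K : ℝ) * (C + 1) + 25 * (K : ℝ) ^ 2 * (C + 1) ^ 2) (by linarith)
  have c2 := key (2 * ((25 * (K : ℝ) + 12) * (C + 1) ^ 2)) (by linarith)
  have c3 := key (5 * (K : ℝ) * (C + 1)) (by linarith)
  have h : EnvV n N par B Z Q f₀ C mu kr :=
    { isPar := hpar, nN := hnN, N1 := by exact_mod_cast hN1, C0 := hC, B_sub := hB, Z_sub := hZ,
      BZ := hBZ, Z0 := hZ0, Q_sub := hQ, bnb_le := hbnb,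
      f0_one := fun b hb => (hlab (Sum.inl b) (mem_items_inl.2 hb)).1,
      f0_Q := fun b hb => (hlab (Sum.inl b) (mem_items_inl.2 hb)).2,
      f0_inj := fun a ha b hb hab => Sum.inl_injective
        (hInj (mem_coe.2 (mem_items_inl.2 ha)) (mem_coe.2 (mem_items_inl.2 hb)) hab),
      law := hlaw }
  obtain ⟨np, pc, hOK, hpK, hinj, hsurj⟩ := vps_exist hpar hZ hZ0 hK
  obtain ⟨M, φ, hM1, hM2, hM3⟩ := pkv_main h hOK hinj hsurj hpK hκ
    (show 0 < μ / (3 * (K : ℝ) + 3) by positivity) hnib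
    (show 0 ≤ κ / (8 * (C + 1)) by positivity) hγ hload
    (by
      refine le_trans (le_of_eq ?_) c1
      field_simp
      try ring)
    (by
      have h1 : (N : ℝ) * (((25 * (K : ℝ) + 12)) * ((C + 1) / N * ((C + 1) / N))) +
          2 * (κ / (8 * (C + 1)) * N) * (2 * ((C + 1) / N)) =
          (2 * ((25 * (K : ℝ) + 12) * (C + 1) ^ 2) / N) / 2 + κ / 2 := by
        field_simp
        ring
      rw [h1]
      linarith)
    (by
      refine le_trans (le_of_eq ?_) c3
      ring)
  obtain ⟨Cv, f, h1, h2, h3, h4, h5, h6⟩ := asm h hOK hinj hsurj M φ hM1 hM2 hInj hlab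
  refine ⟨Cv, f, h1, h2, h3, h4, h5, ?_⟩
  have h7 : (Z \ Cv).card ≤ (univ \ M).card * K := by
    refine (card_le_card h6).trans (card_biUnion_le_card_mul _ _ _ fun p _ => ?_)
    refine card_image_le.trans ?_
    rw [card_univ, Fintype.card_fin]
    exact hpK p
  have h8 : ((Z \ Cv).card : ℝ) ≤ ((univ \ M).card : ℝ) * K := by exact_mod_cast h7
  have h9 : ((univ \ M).card : ℝ) * K ≤ (μ / (3 * (K : ℝ) + 3) * (2 * N + 1)) * K :=
    mul_le_mul_of_nonneg_right hM3 (Nat.cast_nonneg K)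
  refine h8.trans (h9.trans ?_)
  have h10 : μ / (3 * (K : ℝ) + 3) * (2 * N + 1) * K ≤ μ / (3 * (K : ℝ) + 3) * (3 * N) * (K + 1) := by
    have hμ' : (0 : ℝ) < μ / (3 * (K : ℝ) + 3) := by positivity
    have hKn : (0 : ℝ) ≤ K := Nat.cast_nonneg K
    refine mul_le_mul (mul_le_mul_of_nonneg_left (by linarith) hμ'.le) (by linarith) hKn
      (by positivity)
  refine h10.trans (le_of_eq ?_)
  field_simp

end SSB
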