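import Pool.Agent.Lib.MP_8a819d_co.AT.Defs
import Pool.Agent.Lib.MP_8a819d_co.BD.Chn

/-!
# MP_8a819d_co, trees with many non-leaves: packing of components, 1. Definitions, elementary facts
-/

set_option autoImplicit false
set_option linter.unusedSectionVars false
set_option linter.unusedVariables false

namespace SSB

open Finset

/-- coincidence among the labels used by the vertex `v` -/
def Coi (n : ℕ) (par : ℕ → ℕ) (B Z : Finset ℕ) (f₀ : ℕ → ℕ) (v x y : ℕ) : Prop :=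
  (∃ b ∈ bnb n par B v, dd (f₀ b) y = y) ∨ (par v ∈ Z ∧ dd x y = y) ∨
    (par v ∈ Z ∧ ∃ b ∈ bnb n par B v, dd x y = dd (f₀ b) y)

/-- the hypotheses of the packing theorem -/
structure EnvV (n N : ℕ) (par : ℕ → ℕ) (B Z Q : Finset ℕ) (f₀ : ℕ → ℕ) (C : ℝ) (mu : ℕ → ℕ → ℝ)
    (kr : ℕ → ℕ → ℕ → ℝ) : Prop where
  isPar : IsPar n par
  nN : n ≤ N
  N1 : 1 ≤ N
  C0 : 0 < C
  B_sub : B ⊆ range n
  Z_sub : Z ⊆ range n
  BZ : Disjoint B Z
  Z0 : 0 ∉ Z
  Q_sub : Q ⊆ Icc 1 N
  bnb_le : ∀ v ∈ Z, (bnb n par B v).card ≤ 1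
  f0_one : ∀ b ∈ B, 1 ≤ f₀ b
  f0_Q : ∀ b ∈ B, f₀ b ∉ Q
  f0_inj : Set.InjOn f₀ B
  law : LawV n N par B Z Q f₀ C mu kr

/-- a component of `Z`: `k + 1` vertices `emb 0, ..., emb k` with the parent map `par` -/
structure VP where
  k : ℕ
  par : Fin (k + 1) → Fin (k + 1)
  emb : Fin (k + 1) → ℕ

structure VP.OK (p : VP) (par : ℕ → ℕ) (Z : Finset ℕ) : Prop where
  par_zero : p.par 0 = 0
  par_lt : ∀ i, i ≠ 0 → p.par i < i
  emb_inj : Function.Injective p.emb
  emb_mem : ∀ i, p.emb i ∈ Z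
  emb_par : ∀ i, i ≠ 0 → par (p.emb i) = p.emb (p.par i)
  emb_root : par (p.emb 0) ∉ Z

/-- the labels used by the vertex `i` of the component with the numbering `φ` -/
def VP.us (p : VP) (n : ℕ) (par : ℕ → ℕ) (B Z : Finset ℕ) (f₀ : ℕ → ℕ) (φ : Fin (p.k + 1) → ℕ)
    (i : Fin (p.k + 1)) : Finset ℕ :=
  usv n par B Z f₀ (p.emb i) (φ (p.par i)) (φ i)

/-- the labels used by the component with the numbering `φ` -/
def VP.used (p : VP) (n : ℕ) (par : ℕ → ℕ) (B Z : Finset ℕ) (f₀ : ℕ → ℕ) (φ : Fin (p.k + 1) → ℕ) :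
    Finset ℕ :=
  univ.biUnion (p.us n par B Z f₀ φ)

structure VP.Valid (p : VP) (n : ℕ) (par : ℕ → ℕ) (B Z Q : Finset ℕ) (f₀ : ℕ → ℕ)
    (φ : Fin (p.k + 1) → ℕ) : Prop where
  subQ : ∀ i, p.us n par B Z f₀ φ i ⊆ Q
  noCoi : ∀ i, ¬ Coi n par B Z f₀ (p.emb i) (φ (p.par i)) (φ i)
  disj : ∀ i j, i ≠ j → Disjoint (p.us n par B Z f₀ φ i) (p.us n par B Z f₀ φ j)

/-- the kernels of the component -/
noncomputable def VP.kap (p : VP) (N : ℕ) (par : ℕ → ℕ) (mu : ℕ → ℕ → ℝ) (kr : ℕ → ℕ → ℕ → ℝ)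
    (i : Fin (p.k + 1)) (x y : Fin (N + 1)) : ℝ :=
  if i = 0 ∨ mu (par (p.emb i)) x = 0 then 1 / ((N : ℝ) + 1) else kr (p.emb i) x y

/-- the law of the root -/
def VP.mz (p : VP) (N : ℕ) (mu : ℕ → ℕ → ℝ) (x : Fin (N + 1)) : ℝ := mu (p.emb 0) x

/-- probability of the numbering `φ` -/
noncomputable def VP.cwv (p : VP) (N : ℕ) (par : ℕ → ℕ) (mu : ℕ → ℕ → ℝ) (kr : ℕ → ℕ → ℕ → ℝ)
    (φ : Fin (p.k + 1) → Fin (N + 1)) : ℝ :=
  cw p.par (p.mz N mu) (p.kap N par mu kr) φ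

/-- the numbering as a function with values in `ℕ` -/
def VP.lab (p : VP) {N : ℕ} (φ : Fin (p.k + 1) → Fin (N + 1)) : Fin (p.k + 1) → ℕ :=
  fun i => (φ i : ℕ)

open Classical in
/-- the weight of a valid numbering, `0` for the other numberings -/
noncomputable def VP.wv (p : VP) (n N : ℕ) (par : ℕ → ℕ) (B Z Q : Finset ℕ) (f₀ : ℕ → ℕ)
    (mu : ℕ → ℕ → ℝ) (kr : ℕ → ℕ → ℕ → ℝ) (φ : Fin (p.k + 1) → Fin (N + 1)) : ℝ :=
  if p.Valid n par B Z Q f₀ (p.lab φ) then p.cwv N par mu kr φ else 0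

/-- indicator of `z` being used by the vertex `i`, as a local function -/
noncomputable def VP.hh (p : VP) (n N : ℕ) (par : ℕ → ℕ) (B Z : Finset ℕ) (f₀ : ℕ → ℕ)
    (i : Fin (p.k + 1)) (z : ℕ) (x y : Fin (N + 1)) : ℝ :=
  if z ∈ usv n par B Z f₀ (p.emb i) x y then 1 else 0

section elem

variable {n : ℕ} {par : ℕ → ℕ} {B Z : Finset ℕ} {f₀ : ℕ → ℕ} {v : ℕ}

theorem mem_bnb {b : ℕ} : b ∈ bnb n par B v ↔
    b ∈ B ∧ ((1 ≤ v ∧ v < n ∧ par v = b) ∨ (1 ≤ b ∧ b < n ∧ par b = v)) := by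
  unfold bnb
  rw [mem_filter]

theorem mem_usv {x y z : ℕ} : z ∈ usv n par B Z f₀ v x y ↔
    z = y ∨ (∃ b ∈ bnb n par B v, z = dd (f₀ b) y) ∨ (par v ∈ Z ∧ z = dd x y) := by
  unfold usv
  rw [mem_union, mem_insert, mem_image]
  constructor
  · rintro ((h | ⟨b, hb, h⟩) | h)
    · exact Or.inl h
    · exact Or.inr (Or.inl ⟨b, hb, h.symm⟩)
    · split_ifs at h with h1
      · exact Or.inr (Or.inr ⟨h1, mem_singleton.1 h⟩)
      · exact absurd h (notMem_empty z)
  · rintro (h | ⟨b, hb, h⟩ | ⟨h1, h⟩)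
    · exact Or.inl (Or.inl h)
    · exact Or.inl (Or.inr ⟨b, hb, h.symm⟩)
    · refine Or.inr ?_
      rw [if_pos h1, mem_singleton]
      exact h

theorem usv_root (h : par v ∉ Z) (x x' y : ℕ) :
    usv n par B Z f₀ v x y = usv n par B Z f₀ v x' y := by
  unfold usv
  rw [if_neg h, if_neg h]

theorem usv_card (hb : (bnb n par B v).card ≤ 1) (x y : ℕ) :
    (usv n par B Z f₀ v x y).card ≤ 3 := by
  unfold usv
  have h1 : ((bnb n par B v).image (fun b => dd (f₀ b) y)).card ≤ 1 := card_image_le.trans hb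
  have h2 := card_insert_le y ((bnb n par B v).image (fun b => dd (f₀ b) y))
  have h3 : (if par v ∈ Z then ({dd x y} : Finset ℕ) else ∅).card ≤ 1 := by
    split_ifs
    · simp
    · simp
  have h4 := card_union_le (insert y ((bnb n par B v).image (fun b => dd (f₀ b) y)))
    (if par v ∈ Z then ({dd x y} : Finset ℕ) else ∅)
  omega

/-- for given `x` and `z` there are at most five `y` -/
theorem usv_five (hb : (bnb n par B v).card ≤ 1) (x z : ℕ) :
    ∃ T : Finset ℕ, T.card ≤ 5 ∧ ∀ y, z ∈ usv n par B Z f₀ v x y → y ∈ T := by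
  refine ⟨{z, x + z, x - z} ∪ ((bnb n par B v).image (fun b => f₀ b + z) ∪
    (bnb n par B v).image (fun b => f₀ b - z)), ?_, ?_⟩
  · have h1 : ((bnb n par B v).image (fun b => f₀ b + z)).card ≤ 1 := card_image_le.trans hb
    have h2 : ((bnb n par B v).image (fun b => f₀ b - z)).card ≤ 1 := card_image_le.trans hb
    have h3 : ({z, x + z, x - z} : Finset ℕ).card ≤ 3 := card_le_three
    have h4 := card_union_le ({z, x + z, x - z} : Finset ℕ)
      ((bnb n par B v).image (fun b => f₀ b + z) ∪ (bnb n par B v).image (fun b => f₀ b - z))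
    have h5 := card_union_le ((bnb n par B v).image (fun b => f₀ b + z))
      ((bnb n par B v).image (fun b => f₀ b - z))
    omega
  · intro y hy
    rw [mem_union, mem_insert, mem_insert, mem_singleton, mem_union, mem_image, mem_image]
    rcases mem_usv.1 hy with h | ⟨b, hb', h⟩ | ⟨-, h⟩
    · exact Or.inl (Or.inl h.symm)
    · unfold dd at h
      rcases le_total (f₀ b) y with h1 | h1
      · exact Or.inr (Or.inl ⟨b, hb', by omega⟩)
      · exact Or.inr (Or.inr ⟨b, hb', by omega⟩)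
    · unfold dd at h
      rcases le_total x y with h1 | h1
      · exact Or.inl (Or.inr (Or.inl (by omega)))
      · exact Or.inl (Or.inr (Or.inr (by omega)))

/-- for given `x` there are at most three `y` with a coincidence -/
theorem coi_three (hb : (bnb n par B v).card ≤ 1) (x : ℕ)
    (hx : par v ∈ Z → 1 ≤ x ∧ ∀ b ∈ bnb n par B v, x ≠ f₀ b)
    (hf : ∀ b ∈ bnb n par B v, 1 ≤ f₀ b) :
    ∃ T : Finset ℕ, T.card ≤ 3 ∧ ∀ y, Coi n par B Z f₀ v x y → y ∈ T := by
  refine ⟨{x / 2} ∪ ((bnb n par B v).image (fun b => f₀ b / 2) ∪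
    (bnb n par B v).image (fun b => (x + f₀ b) / 2)), ?_, ?_⟩
  · have h1 : ((bnb n par B v).image (fun b => f₀ b / 2)).card ≤ 1 := card_image_le.trans hb
    have h2 : ((bnb n par B v).image (fun b => (x + f₀ b) / 2)).card ≤ 1 := card_image_le.trans hb
    have h3 : ({x / 2} : Finset ℕ).card = 1 := card_singleton _
    have h4 := card_union_le ({x / 2} : Finset ℕ)
      ((bnb n par B v).image (fun b => f₀ b / 2) ∪ (bnb n par B v).image (fun b => (x + f₀ b) / 2))
    have h5 := card_union_le ((bnb n par B v).image (fun b => f₀ b / 2))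
      ((bnb n par B v).image (fun b => (x + f₀ b) / 2))
    omega
  · intro y hy
    rw [mem_union, mem_singleton, mem_union, mem_image, mem_image]
    rcases hy with ⟨b, hb', h⟩ | ⟨h1, h⟩ | ⟨h1, b, hb', h⟩
    · have h2 := hf b hb'
      unfold dd at h
      exact Or.inr (Or.inl ⟨b, hb', by omega⟩)
    · have h2 := (hx h1).1
      unfold dd at h
      exact Or.inl (by omega)
    · have h2 := (hx h1).2 b hb'
      unfold dd at h
      exact Or.inr (Or.inr ⟨b, hb', by omega⟩)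

/-- pairs of labels used by one vertex -/
theorem usv_pair (hb : (bnb n par B v).card ≤ 1) {z z' : ℕ} (hzz : z ≠ z') :
    ∃ T : Finset (ℕ × ℕ), T.card ≤ 12 ∧ ∀ x y, z ∈ usv n par B Z f₀ v x y →
      z' ∈ usv n par B Z f₀ v x y → (par v ∈ Z ∧ (x, y) ∈ T) ∨
        ((y = z ∨ y = z') ∧ ∃ b ∈ bnb n par B v, f₀ b = z + z' ∨ f₀ b = dd z z') := by
  refine ⟨{(z + z', z), (z - z', z), (z + z', z'), (z' - z, z')} ∪
    (bnb n par B v).biUnion (fun b =>
      {(f₀ b + z + z', f₀ b + z), (f₀ b + z - z', f₀ b + z), (f₀ b - z + z', f₀ b - z),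
       (f₀ b - z - z', f₀ b - z), (f₀ b + z' + z, f₀ b + z'), (f₀ b + z' - z, f₀ b + z'),
       (f₀ b - z' + z, f₀ b - z'), (f₀ b - z' - z, f₀ b - z')}), ?_, ?_⟩
  · have h1 : ({(z + z', z), (z - z', z), (z + z', z'), (z' - z, z')} : Finset (ℕ × ℕ)).card ≤ 4 :=
      card_le_four
    have h2 := card_biUnion_le_card_mul (bnb n par B v) (fun b =>
      ({(f₀ b + z + z', f₀ b + z), (f₀ b + z - z', f₀ b + z), (f₀ b - z + z', f₀ b - z),
       (f₀ b - z - z', f₀ b - z), (f₀ b + z' + z, f₀ b + z'), (f₀ b + z' - z, f₀ b + z'),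
       (f₀ b - z' + z, f₀ b - z'), (f₀ b - z' - z, f₀ b - z')} : Finset (ℕ × ℕ))) 8 (fun b _ => by
        refine (card_insert_le _ _).trans ?_
        refine Nat.succ_le_succ ((card_insert_le _ _).trans ?_)
        refine Nat.succ_le_succ ((card_insert_le _ _).trans ?_)
        refine Nat.succ_le_succ ((card_insert_le _ _).trans ?_)
        exact Nat.succ_le_succ card_le_four)
    have h3 : (bnb n par B v).card * 8 ≤ 8 := by omega
    have h4 := card_union_le ({(z + z', z), (z - z', z), (z + z', z'), (z' - z, z')} :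
      Finset (ℕ × ℕ)) ((bnb n par B v).biUnion (fun b =>
      ({(f₀ b + z + z', f₀ b + z), (f₀ b + z - z', f₀ b + z), (f₀ b - z + z', f₀ b - z),
       (f₀ b - z - z', f₀ b - z), (f₀ b + z' + z, f₀ b + z'), (f₀ b + z' - z, f₀ b + z'),
       (f₀ b - z' + z, f₀ b - z'), (f₀ b - z' - z, f₀ b - z')} : Finset (ℕ × ℕ))))
    omega
  · intro x y hz hz'
    have e4 : ∀ (a b c d : ℕ × ℕ), (x, y) = a ∨ (x, y) = b ∨ (x, y) = c ∨ (x, y) = d →
        (x, y) ∈ ({a, b, c, d} : Finset (ℕ × ℕ)) := by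
      intro a b c d h
      rw [mem_insert, mem_insert, mem_insert, mem_singleton]
      exact h
    have e8 : ∀ (a₁ a₂ a₃ a₄ a b c d : ℕ × ℕ), ((x, y) = a₁ ∨ (x, y) = a₂ ∨ (x, y) = a₃ ∨
        (x, y) = a₄) ∨ ((x, y) = a ∨ (x, y) = b ∨ (x, y) = c ∨ (x, y) = d) →
        (x, y) ∈ ({a₁, a₂, a₃, a₄, a, b, c, d} : Finset (ℕ × ℕ)) := by
      intro a₁ a₂ a₃ a₄ a b c d h
      rw [mem_insert, mem_insert, mem_insert, mem_insert]
      rcases h with (h | h | h | h) | h
      · exact Or.inl h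
      · exact Or.inr (Or.inl h)
      · exact Or.inr (Or.inr (Or.inl h))
      · exact Or.inr (Or.inr (Or.inr (Or.inl h)))
      · exact Or.inr (Or.inr (Or.inr (Or.inr (e4 _ _ _ _ h))))
    rcases mem_usv.1 hz with h | ⟨b, hb', h⟩ | ⟨hp, h⟩ <;>
      rcases mem_usv.1 hz' with h' | ⟨b', hb'', h'⟩ | ⟨hp', h'⟩
    · exact absurd (h.trans h'.symm) hzz
    · refine Or.inr ⟨Or.inl h.symm, b', hb'', ?_⟩
      rw [← h] at h'
      unfold dd at h' ⊢
      omega
    · refine Or.inl ⟨hp', mem_union.2 (Or.inl (e4 _ _ _ _ ?_))⟩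
      rw [← h] at h' ⊢
      unfold dd at h'
      rcases le_total x z with h1 | h1
      · exact Or.inr (Or.inl (Prod.ext (by dsimp only; omega) rfl))
      · exact Or.inl (Prod.ext (by dsimp only; omega) rfl)
    · refine Or.inr ⟨Or.inr h'.symm, b, hb', ?_⟩
      rw [← h'] at h
      unfold dd at h ⊢
      omega
    · have hbb : b = b' := card_le_one.1 hb b hb' b' hb''
      rw [hbb] at h
      exact absurd (h.trans h'.symm) hzz
    · refine Or.inl ⟨hp', mem_union.2 (Or.inr (mem_biUnion.2 ⟨b, hb', e8 _ _ _ _ _ _ _ _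
        (Or.inl ?_)⟩))⟩
      unfold dd at h h'
      rcases le_total (f₀ b) y with h1 | h1 <;> rcases le_total y x with h2 | h2
      · exact Or.inl (Prod.ext (by dsimp only; omega) (by dsimp only; omega))
      · exact Or.inr (Or.inl (Prod.ext (by dsimp only; omega) (by dsimp only; omega)))
      · exact Or.inr (Or.inr (Or.inl (Prod.ext (by dsimp only; omega) (by dsimp only; omega))))
      · exact Or.inr (Or.inr (Or.inr (Prod.ext (by dsimp only; omega) (by dsimp only; omega))))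
    · refine Or.inl ⟨hp, mem_union.2 (Or.inl (e4 _ _ _ _ ?_))⟩
      rw [← h'] at h ⊢
      unfold dd at h
      rcases le_total x z' with h1 | h1
      · exact Or.inr (Or.inr (Or.inr (Prod.ext (by dsimp only; omega) rfl)))
      · exact Or.inr (Or.inr (Or.inl (Prod.ext (by dsimp only; omega) rfl)))
    · refine Or.inl ⟨hp, mem_union.2 (Or.inr (mem_biUnion.2 ⟨b', hb'', e8 _ _ _ _ _ _ _ _
        (Or.inr ?_)⟩))⟩
      unfold dd at h h'
      rcases le_total (f₀ b') y with h1 | h1 <;> rcases le_total y x with h2 | h2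
      · exact Or.inl (Prod.ext (by dsimp only; omega) (by dsimp only; omega))
      · exact Or.inr (Or.inl (Prod.ext (by dsimp only; omega) (by dsimp only; omega)))
      · exact Or.inr (Or.inr (Or.inl (Prod.ext (by dsimp only; omega) (by dsimp only; omega))))
      · exact Or.inr (Or.inr (Or.inr (Prod.ext (by dsimp only; omega) (by dsimp only; omega))))
    · exact absurd (h.trans h'.symm) hzz

end elem

end SSB
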