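import Pool.Agent.Lib.MP_8a819d_co.AT.PackV1

/-!
# MP_8a819d_co, trees with many non-leaves: packing of components, 2. One component
-/

set_option autoImplicit false
set_option linter.unusedSectionVars false
set_option linter.unusedVariables false

namespace SSB

open Finset

variable {n N : ℕ} {par : ℕ → ℕ} {B Z Q : Finset ℕ} {f₀ : ℕ → ℕ} {C : ℝ} {mu : ℕ → ℕ → ℝ}
  {kr : ℕ → ℕ → ℕ → ℝ} {p : VP}

/-- the support of the laws is in `Q` -/
theorem mu_mem (h : EnvV n N par B Z Q f₀ C mu kr) {v y : ℕ} (hv : v ∈ Z) (hy : y ≤ N)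
    (hm : mu v y ≠ 0) : y ∈ Q := by
  by_cases hp : par v ∈ Z
  · rw [← h.law.cons v hv hp y hy] at hm
    obtain ⟨x, hx, hx'⟩ := exists_ne_zero_of_sum_ne_zero hm
    have h1 := h.law.rule v hv hp x (Nat.lt_succ_iff.1 (mem_range.1 hx)) y hy hx'
    exact h1 (mem_usv.2 (Or.inl rfl))
  · exact h.law.rule_root v hv hp y hy hm (mem_usv.2 (Or.inl rfl))

theorem kap_nn (h : EnvV n N par B Z Q f₀ C mu kr) (hp : p.OK par Z) (i : Fin (p.k + 1))
    (x y : Fin (N + 1)) : 0 ≤ p.kap N par mu kr i x y := by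
  unfold VP.kap
  split_ifs with h1
  · positivity
  · push Not at h1
    refine h.law.kr_nn _ (hp.emb_mem i) ?_ _ _
    rw [hp.emb_par i h1.1]
    exact hp.emb_mem _

theorem kap_le (h : EnvV n N par B Z Q f₀ C mu kr) (hp : p.OK par Z) (i : Fin (p.k + 1))
    (x y : Fin (N + 1)) : p.kap N par mu kr i x y ≤ (C + 1) / N := by
  have hN : (0 : ℝ) < N := by exact_mod_cast h.N1
  have hC := h.C0
  unfold VP.kap
  split_ifs with h1
  · rw [div_le_div_iff₀ (by positivity) hN]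
    nlinarith
  · push Not at h1
    have h2 : par (p.emb i) ∈ Z := by
      rw [hp.emb_par i h1.1]
      exact hp.emb_mem _
    refine (h.law.kr_le _ (hp.emb_mem i) h2 _ _ h1.2).trans ?_
    exact div_le_div_of_nonneg_right (by linarith) hN.le

theorem mz_le (h : EnvV n N par B Z Q f₀ C mu kr) (hp : p.OK par Z) (x : Fin (N + 1)) :
    p.mz N mu x ≤ (C + 1) / N := by
  have hN : (0 : ℝ) < N := by exact_mod_cast h.N1
  refine (h.law.mu_le _ (hp.emb_mem 0) _).trans ?_
  exact div_le_div_of_nonneg_right (by linarith) hN.le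

/-- the product with the law of the parent -/
theorem mu_kap (hp : p.OK par Z) {i : Fin (p.k + 1)} (hi : i ≠ 0) (x y : Fin (N + 1)) :
    mu (p.emb (p.par i)) x * p.kap N par mu kr i x y =
      mu (par (p.emb i)) x * kr (p.emb i) x y := by
  unfold VP.kap
  rw [hp.emb_par i hi]
  by_cases h1 : mu (p.emb (p.par i)) x = 0
  · rw [h1, zero_mul, zero_mul]
  · rw [if_neg]
    rintro (h2 | h2)
    · exact hi h2
    · exact h1 h2

theorem vp_ok (h : EnvV n N par B Z Q f₀ C mu kr) (hp : p.OK par Z) :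
    ChOK p.par (p.mz N mu) (p.kap N par mu kr) (fun i (x : Fin (N + 1)) => mu (p.emb i) x) := by
  have hpar : ∀ i, i ≠ 0 → par (p.emb i) ∈ Z := fun i hi => by
    rw [hp.emb_par i hi]
    exact hp.emb_mem _
  refine { par_zero := hp.par_zero, par_lt := hp.par_lt,
           m_nn := fun x => h.law.mu_nn _ (hp.emb_mem 0) _, m_sum := ?_,
           κ_nn := kap_nn h hp, κ_sum := ?_, root := rfl, cons := ?_ }
  · show ∑ x : Fin (N + 1), mu (p.emb 0) x = 1
    rw [Fin.sum_univ_eq_sum_range (fun x => mu (p.emb 0) x) (N + 1)]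
    exact h.law.mu_sum _ (hp.emb_mem 0)
  · intro i hi x
    by_cases hx : mu (par (p.emb i)) x = 0
    · have h1 : ∀ y : Fin (N + 1), p.kap N par mu kr i x y = 1 / ((N : ℝ) + 1) := fun y => by
        unfold VP.kap
        rw [if_pos (Or.inr hx)]
      rw [sum_congr rfl fun y _ => h1 y, sum_const, card_univ, Fintype.card_fin, nsmul_eq_mul]
      push_cast
      field_simp
    · have h1 : ∀ y : Fin (N + 1), p.kap N par mu kr i x y = kr (p.emb i) x y := fun y => by
        unfold VP.kap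
        rw [if_neg]
        rintro (h2 | h2)
        · exact hi h2
        · exact hx h2
      rw [sum_congr rfl fun y _ => h1 y,
        Fin.sum_univ_eq_sum_range (fun y => kr (p.emb i) x y) (N + 1)]
      exact h.law.kr_sum _ (hp.emb_mem i) (hpar i hi) _ (Nat.lt_succ_iff.1 x.2) hx
  · intro i hi y
    show ∑ x : Fin (N + 1), mu (p.emb (p.par i)) x * p.kap N par mu kr i x y = mu (p.emb i) y
    rw [sum_congr rfl fun x _ => mu_kap hp hi x y,
      Fin.sum_univ_eq_sum_range (fun x => mu (par (p.emb i)) x * kr (p.emb i) x y) (N + 1)]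
    exact h.law.cons _ (hp.emb_mem i) (hpar i hi) _ (Nat.lt_succ_iff.1 y.2)

theorem cwv_nonneg (h : EnvV n N par B Z Q f₀ C mu kr) (hp : p.OK par Z)
    (φ : Fin (p.k + 1) → Fin (N + 1)) : 0 ≤ p.cwv N par mu kr φ := cw_nonneg (vp_ok h hp) φ

theorem cwv_sum (h : EnvV n N par B Z Q f₀ C mu kr) (hp : p.OK par Z) :
    ∑ φ, p.cwv N par mu kr φ = 1 := cw_sum (vp_ok h hp)

theorem wv_le (h : EnvV n N par B Z Q f₀ C mu kr) (hp : p.OK par Z)
    (φ : Fin (p.k + 1) → Fin (N + 1)) :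
    0 ≤ p.wv n N par B Z Q f₀ mu kr φ ∧ p.wv n N par B Z Q f₀ mu kr φ ≤ p.cwv N par mu kr φ := by
  unfold VP.wv
  split_ifs
  · exact ⟨cwv_nonneg h hp φ, le_rfl⟩
  · exact ⟨le_rfl, cwv_nonneg h hp φ⟩

/-- all the laws are positive at the labels of a numbering of positive probability -/
theorem vp_mu (h : EnvV n N par B Z Q f₀ C mu kr) (hp : p.OK par Z)
    {φ : Fin (p.k + 1) → Fin (N + 1)} (hφ : p.cwv N par mu kr φ ≠ 0) (i : Fin (p.k + 1)) :
    mu (p.emb i) (φ i) ≠ 0 ∧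
      (i ≠ 0 → mu (par (p.emb i)) (φ (p.par i)) * kr (p.emb i) (φ (p.par i)) (φ i) ≠ 0) := by
  have hφ' : p.mz N mu (φ 0) * ∏ i : Fin p.k, p.kap N par mu kr i.succ
      (φ (p.par i.succ)) (φ i.succ) ≠ 0 := hφ
  have h0 : p.mz N mu (φ 0) ≠ 0 := left_ne_zero_of_mul hφ'
  have hprod := right_ne_zero_of_mul hφ'
  rw [Finset.prod_ne_zero_iff] at hprod
  have hK : ∀ i : Fin (p.k + 1), i ≠ 0 → p.kap N par mu kr i (φ (p.par i)) (φ i) ≠ 0 := by
    intro i hi
    obtain ⟨j, rfl⟩ := Fin.exists_succ_eq.2 hi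
    exact hprod j (Finset.mem_univ j)
  have hMpos : ∀ m : ℕ, ∀ i : Fin (p.k + 1), i.val = m → 0 < mu (p.emb i) (φ i) ∧ (i ≠ 0 →
      mu (par (p.emb i)) (φ (p.par i)) * kr (p.emb i) (φ (p.par i)) (φ i) ≠ 0) := by
    intro m
    induction m using Nat.strong_induction_on with
    | _ m ih =>
      intro i him
      by_cases hi : i = 0
      · subst hi
        exact ⟨lt_of_le_of_ne (h.law.mu_nn _ (hp.emb_mem 0) _) (Ne.symm h0),
          fun h1 => absurd rfl h1⟩
      · have hlt := hp.par_lt i hi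
        have h1 : 0 < mu (p.emb (p.par i)) (φ (p.par i)) := by
          refine (ih (p.par i).val ?_ (p.par i) rfl).1
          rw [← him]
          exact hlt
        have h2 : 0 < p.kap N par mu kr i (φ (p.par i)) (φ i) :=
          lt_of_le_of_ne (kap_nn h hp _ _ _) (Ne.symm (hK i hi))
        have h3 := mul_pos h1 h2
        rw [mu_kap hp hi] at h3
        have hpm : par (p.emb i) ∈ Z := by
          rw [hp.emb_par i hi]
          exact hp.emb_mem _
        refine ⟨?_, fun _ => h3.ne'⟩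
        rw [← h.law.cons _ (hp.emb_mem i) hpm (φ i) (Nat.lt_succ_iff.1 (φ i).2)]
        refine lt_of_lt_of_le h3 ?_
        exact Finset.single_le_sum
          (f := fun x : ℕ => mu (par (p.emb i)) x * kr (p.emb i) x (φ i))
          (fun x _ => mul_nonneg (h.law.mu_nn _ hpm _) (h.law.kr_nn _ (hp.emb_mem i) hpm _ _))
          (Finset.mem_range.2 (φ (p.par i)).2)
  exact ⟨(hMpos _ i rfl).1.ne', (hMpos _ i rfl).2⟩

/-- the labels used are in `Q`, also the label of the parent -/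
theorem vp_rule (h : EnvV n N par B Z Q f₀ C mu kr) (hp : p.OK par Z)
    {φ : Fin (p.k + 1) → Fin (N + 1)} (hφ : p.cwv N par mu kr φ ≠ 0) (i : Fin (p.k + 1)) :
    p.us n par B Z f₀ (p.lab φ) i ⊆ Q ∧ p.lab φ i ∈ Q := by
  refine ⟨?_, mu_mem h (hp.emb_mem i) (Nat.lt_succ_iff.1 (φ i).2) (vp_mu h hp hφ i).1⟩
  unfold VP.us
  by_cases hi : i = 0
  · subst hi
    rw [usv_root hp.emb_root _ 0]
    exact h.law.rule_root _ (hp.emb_mem 0) hp.emb_root _ (Nat.lt_succ_iff.1 (φ 0).2)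
      (vp_mu h hp hφ 0).1
  · have hpm : par (p.emb i) ∈ Z := by
      rw [hp.emb_par i hi]
      exact hp.emb_mem _
    exact h.law.rule _ (hp.emb_mem i) hpm _ (Nat.lt_succ_iff.1 (φ (p.par i)).2) _
      (Nat.lt_succ_iff.1 (φ i).2) ((vp_mu h hp hφ i).2 hi)

/-- bound for local events with few `y` for every `x` -/
theorem vp_LBT (h : EnvV n N par B Z Q f₀ C mu kr) (hp : p.OK par Z) (i : Fin (p.k + 1)) (m : ℕ)
    (P : Fin (N + 1) → Fin (N + 1) → Prop) [∀ x y, Decidable (P x y)]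
    (hP : ∀ x, ∃ T : Finset ℕ, T.card ≤ m ∧ ∀ y : Fin (N + 1), P x y → (y : ℕ) ∈ T)
    (hP0 : i = 0 → ∀ x x' y, P x y → P x' y) :
    LB (p.mz N mu) (p.kap N par mu kr) i (fun x y => if P x y then 1 else 0)
      (m * ((C + 1) / N)) := by
  have hN : (0 : ℝ) < N := by exact_mod_cast h.N1
  have hC := h.C0
  have hCN : (0 : ℝ) ≤ (C + 1) / N := by positivity
  have key : ∀ (x : Fin (N + 1)) (g : Fin (N + 1) → ℝ), (∀ y, 0 ≤ g y) → (∀ y, g y ≤ (C + 1) / N) →
      ∑ y, g y * (if P x y then 1 else 0) ≤ m * ((C + 1) / N) := by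
    intro x g hg0 hg
    obtain ⟨T, hT, hT'⟩ := hP x
    have h1 : ∑ y, g y * (if P x y then 1 else 0) ≤
        ∑ y : Fin (N + 1), if (y : ℕ) ∈ T then (C + 1) / N else 0 := by
      refine sum_le_sum fun y _ => ?_
      by_cases h2 : P x y
      · rw [if_pos h2, if_pos (hT' y h2), mul_one]
        exact hg y
      · rw [if_neg h2, mul_zero]
        split_ifs
        · exact hCN
        · exact le_rfl
    refine h1.trans ?_
    rw [← sum_filter, sum_const, nsmul_eq_mul]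
    refine mul_le_mul_of_nonneg_right ?_ hCN
    have h2 : (univ.filter (fun y : Fin (N + 1) => (y : ℕ) ∈ T)).card ≤ T.card := by
      refine card_le_card_of_injOn (fun y : Fin (N + 1) => (y : ℕ)) ?_ ?_
      · intro y hy
        exact (mem_filter.1 hy).2
      · intro a _ b _ hab
        exact Fin.ext hab
    exact_mod_cast h2.trans hT
  refine ⟨fun x y => ?_, fun hi => ?_, fun hi x => ?_⟩
  · show (0 : ℝ) ≤ if P x y then 1 else 0
    split_ifs
    · exact zero_le_one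
    · exact le_rfl
  · have h1 := key 0 (p.mz N mu) (fun y => h.law.mu_nn _ (hp.emb_mem 0) _) (mz_le h hp)
    refine le_trans (le_of_eq ?_) h1
    refine sum_congr rfl fun y _ => ?_
    have h2 : P y y ↔ P 0 y := ⟨hP0 hi y 0 y, hP0 hi 0 y y⟩
    show p.mz N mu y * (if P y y then 1 else 0) = _
    rw [if_congr h2 rfl rfl]
  · exact key x (p.kap N par mu kr i x) (kap_nn h hp i x) (kap_le h hp i x)

theorem vp_LB (h : EnvV n N par B Z Q f₀ C mu kr) (hp : p.OK par Z) (i : Fin (p.k + 1)) (z : ℕ) :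
    LB (p.mz N mu) (p.kap N par mu kr) i (p.hh n N par B Z f₀ i z) (5 * ((C + 1) / N)) := by
  have h1 := vp_LBT h hp i 5 (fun x y => z ∈ usv n par B Z f₀ (p.emb i) x y)
    (fun x => by
      obtain ⟨T, hT, hT'⟩ := usv_five (Z := Z) (h.bnb_le _ (hp.emb_mem i)) (f₀ := f₀) x z
      exact ⟨T, hT, fun y => hT' y⟩)
    (fun hi x x' y => by
      subst hi
      intro h2
      rw [usv_root hp.emb_root _ x]
      exact h2)
  have h2 : ((5 : ℕ) : ℝ) = 5 := by norm_num
  rw [h2] at h1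
  exact h1

theorem hh_us (φ : Fin (p.k + 1) → Fin (N + 1)) (i : Fin (p.k + 1)) (z : ℕ) :
    p.hh n N par B Z f₀ i z (φ (p.par i)) (φ i) =
      if z ∈ p.us n par B Z f₀ (p.lab φ) i then 1 else 0 := rfl

theorem mem_used {φ : Fin (p.k + 1) → ℕ} {z : ℕ} :
    z ∈ p.used n par B Z f₀ φ ↔ ∃ i, z ∈ p.us n par B Z f₀ φ i := by
  unfold VP.used
  rw [mem_biUnion]
  exact ⟨fun ⟨i, _, hi⟩ => ⟨i, hi⟩, fun ⟨i, hi⟩ => ⟨i, mem_univ i, hi⟩⟩

theorem used_card (h : EnvV n N par B Z Q f₀ C mu kr) (hp : p.OK par Z) (φ : Fin (p.k + 1) → ℕ) :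
    (p.used n par B Z f₀ φ).card ≤ 3 * (p.k + 1) := by
  have h1 := card_biUnion_le_card_mul univ (p.us n par B Z f₀ φ) 3
    (fun i _ => usv_card (h.bnb_le _ (hp.emb_mem i)) _ _)
  rw [card_univ, Fintype.card_fin] at h1
  unfold VP.used
  omega

/-- the probability that `z` is used by the vertex `i` -/
theorem vp_load1 (h : EnvV n N par B Z Q f₀ C mu kr) (hp : p.OK par Z) (i : Fin (p.k + 1)) (z : ℕ) :
    ∑ φ, p.cwv N par mu kr φ * p.hh n N par B Z f₀ i z (φ (p.par i)) (φ i) =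
      loadv n N par B Z f₀ mu kr (p.emb i) z := by
  by_cases hi : i = 0
  · subst hi
    have h1 : ∀ φ : Fin (p.k + 1) → Fin (N + 1),
        p.cwv N par mu kr φ * p.hh n N par B Z f₀ 0 z (φ (p.par 0)) (φ 0) =
        cw p.par (p.mz N mu) (p.kap N par mu kr) φ *
          (fun y : Fin (N + 1) => if z ∈ usv n par B Z f₀ (p.emb 0) 0 y then (1 : ℝ) else 0)
            (φ 0) := by
      intro φ
      unfold VP.hh VP.cwv
      rw [usv_root hp.emb_root _ 0]
    rw [sum_congr rfl fun φ _ => h1 φ]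
    refine (cw_one (vp_ok h hp) 0 (fun y : Fin (N + 1) =>
      if z ∈ usv n par B Z f₀ (p.emb 0) 0 y then (1 : ℝ) else 0)).trans ?_
    unfold loadv
    rw [if_neg hp.emb_root,
      ← Fin.sum_univ_eq_sum_range (fun y => if z ∈ usv n par B Z f₀ (p.emb 0) 0 y then
        mu (p.emb 0) y else 0) (N + 1)]
    refine sum_congr rfl fun y _ => ?_
    show mu (p.emb 0) y * (if z ∈ usv n par B Z f₀ (p.emb 0) 0 y then (1 : ℝ) else 0) = _
    split_ifs
    · rw [mul_one]
    · rw [mul_zero]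
  · have hpm : par (p.emb i) ∈ Z := by
      rw [hp.emb_par i hi]
      exact hp.emb_mem _
    refine (cw_edge (vp_ok h hp) i hi (p.hh n N par B Z f₀ i z)).trans ?_
    unfold loadv
    rw [if_pos hpm, ← Fin.sum_univ_eq_sum_range (fun x => ∑ y ∈ range (N + 1),
      if z ∈ usv n par B Z f₀ (p.emb i) x y then mu (par (p.emb i)) x * kr (p.emb i) x y
        else 0) (N + 1)]
    refine sum_congr rfl fun x _ => ?_
    rw [← Fin.sum_univ_eq_sum_range (fun y =>
      if z ∈ usv n par B Z f₀ (p.emb i) x y then mu (par (p.emb i)) x * kr (p.emb i) x y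
        else 0) (N + 1)]
    refine sum_congr rfl fun y _ => ?_
    show mu (p.emb (p.par i)) x * p.kap N par mu kr i x y * p.hh n N par B Z f₀ i z x y = _
    rw [mu_kap hp hi]
    unfold VP.hh
    split_ifs
    · rw [mul_one]
    · rw [mul_zero]

theorem wv_cnt (h : EnvV n N par B Z Q f₀ C mu kr) (hp : p.OK par Z)
    (φ : Fin (p.k + 1) → Fin (N + 1)) (z : ℕ) :
    (if z ∈ p.used n par B Z f₀ (p.lab φ) then p.wv n N par B Z Q f₀ mu kr φ else 0) ≤
      ∑ i, p.cwv N par mu kr φ * p.hh n N par B Z f₀ i z (φ (p.par i)) (φ i) := by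
  have h0 : ∀ i, 0 ≤ p.cwv N par mu kr φ * p.hh n N par B Z f₀ i z (φ (p.par i)) (φ i) :=
    fun i => mul_nonneg (cwv_nonneg h hp φ) ((vp_LB h hp i z).1 _ _)
  split_ifs with hz
  · obtain ⟨i, hi⟩ := mem_used.1 hz
    have h1 : p.wv n N par B Z Q f₀ mu kr φ ≤
        p.cwv N par mu kr φ * p.hh n N par B Z f₀ i z (φ (p.par i)) (φ i) := by
      rw [hh_us, if_pos hi, mul_one]
      exact (wv_le h hp φ).2
    exact h1.trans (single_le_sum (f := fun i => p.cwv N par mu kr φ *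
      p.hh n N par B Z f₀ i z (φ (p.par i)) (φ i)) (fun i _ => h0 i) (mem_univ i))
  · exact sum_nonneg fun i _ => h0 i

/-- load of a label -/
theorem vp_load (h : EnvV n N par B Z Q f₀ C mu kr) (hp : p.OK par Z) (z : ℕ) :
    ∑ φ : Fin (p.k + 1) → Fin (N + 1), (if z ∈ p.used n par B Z f₀ (p.lab φ) then
      p.wv n N par B Z Q f₀ mu kr φ else 0) ≤ ∑ i, loadv n N par B Z f₀ mu kr (p.emb i) z := by
  refine (sum_le_sum fun φ _ => wv_cnt h hp φ z).trans ?_
  rw [sum_comm]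
  exact sum_le_sum fun i _ => (vp_load1 h hp i z).le

theorem vp_zero (h : EnvV n N par B Z Q f₀ C mu kr) (hp : p.OK par Z) {z : ℕ} (hz : z ∉ Q) :
    ∑ φ : Fin (p.k + 1) → Fin (N + 1), (if z ∈ p.used n par B Z f₀ (p.lab φ) then
      p.wv n N par B Z Q f₀ mu kr φ else 0) = 0 := by
  refine sum_eq_zero fun φ _ => ?_
  split_ifs with h1
  · unfold VP.wv
    rw [if_neg]
    intro hv
    obtain ⟨i, hi⟩ := mem_used.1 h1
    exact hz (hv.subQ i hi)
  · rfl

/-- codegree of a label and a component -/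
theorem vp_one (h : EnvV n N par B Z Q f₀ C mu kr) (hp : p.OK par Z) (z : ℕ) :
    ∑ φ : Fin (p.k + 1) → Fin (N + 1), (if z ∈ p.used n par B Z f₀ (p.lab φ) then
      p.wv n N par B Z Q f₀ mu kr φ else 0) ≤ ((p.k : ℝ) + 1) * (5 * ((C + 1) / N)) := by
  refine (sum_le_sum fun φ _ => wv_cnt h hp φ z).trans ?_
  rw [sum_comm]
  refine (sum_le_sum fun i _ => cw_hloc (vp_ok h hp) (vp_LB h hp i z)).trans (le_of_eq ?_)
  rw [sum_const, card_univ, Fintype.card_fin, nsmul_eq_mul]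
  push_cast
  ring

end SSB
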