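import Pool.Agent.Lib.MP_8a819d_co.AT.PackV2

/-!
# MP_8a819d_co, trees with many non-leaves: packing of components, 3. Numberings that are not valid,
codegrees of labels
-/

set_option autoImplicit false
set_option linter.unusedSectionVars false
set_option linter.unusedVariables false

namespace SSB

open Finset

variable {n N : ℕ} {par : ℕ → ℕ} {B Z Q : Finset ℕ} {f₀ : ℕ → ℕ} {C : ℝ} {mu : ℕ → ℕ → ℝ}
  {kr : ℕ → ℕ → ℕ → ℝ} {p : VP}

open Classical in
/-- indicator of a coincidence at the vertex `i` -/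
noncomputable def VP.cc (p : VP) (n N : ℕ) (par : ℕ → ℕ) (B Z Q : Finset ℕ) (f₀ : ℕ → ℕ)
    (i : Fin (p.k + 1)) (x y : Fin (N + 1)) : ℝ :=
  if Coi n par B Z f₀ (p.emb i) x y ∧ (par (p.emb i) ∈ Z → (x : ℕ) ∈ Q) then 1 else 0

theorem coi_root {v : ℕ} (h : par v ∉ Z) (x x' y : ℕ) (hc : Coi n par B Z f₀ v x y) :
    Coi n par B Z f₀ v x' y := by
  rcases hc with h1 | ⟨h1, -⟩ | ⟨h1, -⟩
  · exact Or.inl h1
  · exact absurd h1 h
  · exact absurd h1 h

theorem vp_LBc (h : EnvV n N par B Z Q f₀ C mu kr) (hp : p.OK par Z) (i : Fin (p.k + 1)) :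
    LB (p.mz N mu) (p.kap N par mu kr) i (p.cc n N par B Z Q f₀ i) (3 * ((C + 1) / N)) := by
  classical
  have h1 := vp_LBT h hp i 3
    (fun x y => Coi n par B Z f₀ (p.emb i) x y ∧ (par (p.emb i) ∈ Z → (x : ℕ) ∈ Q))
    (fun x => by
      by_cases hx : par (p.emb i) ∈ Z → (x : ℕ) ∈ Q
      · obtain ⟨T, hT, hT'⟩ := coi_three (Z := Z) (h.bnb_le _ (hp.emb_mem i)) (f₀ := f₀) x
          (fun h2 => ⟨(mem_Icc.1 (h.Q_sub (hx h2))).1, fun b hb h3 =>
            h.f0_Q b (mem_bnb.1 hb).1 (h3 ▸ hx h2)⟩)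
          (fun b hb => h.f0_one b (mem_bnb.1 hb).1)
        exact ⟨T, hT, fun y hy => hT' y hy.1⟩
      · exact ⟨∅, by simp, fun y hy => absurd hy.2 hx⟩)
    (fun hi x x' y hc => by
      subst hi
      exact ⟨coi_root hp.emb_root _ _ _ hc.1, fun h2 => absurd h2 hp.emb_root⟩)
  have h2 : ((3 : ℕ) : ℝ) = 3 := by norm_num
  rw [h2] at h1
  exact h1

/-- pairs of different vertices -/
def VP.od (p : VP) : Finset (Fin (p.k + 1) × Fin (p.k + 1)) := univ.filter (fun t => t.1 ≠ t.2)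

theorem od_card : (p.od.card : ℝ) ≤ ((p.k : ℝ) + 1) ^ 2 := by
  have h1 : p.od.card ≤ (p.k + 1) * (p.k + 1) := by
    refine (card_filter_le _ _).trans ?_
    rw [card_univ, Fintype.card_prod, Fintype.card_fin]
  have h2 : (p.od.card : ℝ) ≤ (((p.k + 1) * (p.k + 1) : ℕ) : ℝ) := by exact_mod_cast h1
  refine h2.trans (le_of_eq ?_)
  push_cast
  ring

theorem vp_inv (h : EnvV n N par B Z Q f₀ C mu kr) (hp : p.OK par Z) :
    ∑ φ, (p.cwv N par mu kr φ - p.wv n N par B Z Q f₀ mu kr φ) ≤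
      ((p.k : ℝ) + 1) * (3 * ((C + 1) / N)) +
        ((p.k : ℝ) + 1) ^ 2 * (N * ((5 * ((C + 1) / N)) * (5 * ((C + 1) / N)))) := by
  classical
  have hN : (0 : ℝ) < N := by exact_mod_cast h.N1
  have hC := h.C0
  have hCN : (0 : ℝ) ≤ 5 * ((C + 1) / N) := by positivity
  have hA0 : ∀ (φ : Fin (p.k + 1) → Fin (N + 1)) (i : Fin (p.k + 1)),
      0 ≤ p.cwv N par mu kr φ * p.cc n N par B Z Q f₀ i (φ (p.par i)) (φ i) :=
    fun φ i => mul_nonneg (cwv_nonneg h hp φ) ((vp_LBc h hp i).1 _ _)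
  have hD0 : ∀ (φ : Fin (p.k + 1) → Fin (N + 1)) (t : (Fin (p.k + 1) × Fin (p.k + 1)) × ℕ),
      0 ≤ p.cwv N par mu kr φ * (p.hh n N par B Z f₀ t.1.1 t.2 (φ (p.par t.1.1)) (φ t.1.1) *
        p.hh n N par B Z f₀ t.1.2 t.2 (φ (p.par t.1.2)) (φ t.1.2)) :=
    fun φ t => mul_nonneg (cwv_nonneg h hp φ) (mul_nonneg ((vp_LB h hp _ _).1 _ _)
      ((vp_LB h hp _ _).1 _ _))
  have hpt : ∀ φ : Fin (p.k + 1) → Fin (N + 1),
      p.cwv N par mu kr φ - p.wv n N par B Z Q f₀ mu kr φ ≤
      (∑ i, p.cwv N par mu kr φ * p.cc n N par B Z Q f₀ i (φ (p.par i)) (φ i)) +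
      ∑ t ∈ p.od ×ˢ Q, p.cwv N par mu kr φ *
        (p.hh n N par B Z f₀ t.1.1 t.2 (φ (p.par t.1.1)) (φ t.1.1) *
        p.hh n N par B Z f₀ t.1.2 t.2 (φ (p.par t.1.2)) (φ t.1.2)) := by
    intro φ
    have hAs := sum_nonneg fun (i : Fin (p.k + 1)) (_ : i ∈ univ) => hA0 φ i
    have hDs := sum_nonneg fun (t : (Fin (p.k + 1) × Fin (p.k + 1)) × ℕ) (_ : t ∈ p.od ×ˢ Q) =>
      hD0 φ t
    by_cases hv : p.Valid n par B Z Q f₀ (p.lab φ)
    · have h1 : p.wv n N par B Z Q f₀ mu kr φ = p.cwv N par mu kr φ := by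
        unfold VP.wv
        rw [if_pos hv]
      rw [h1, sub_self]
      exact add_nonneg hAs hDs
    · have h1 : p.wv n N par B Z Q f₀ mu kr φ = 0 := by
        unfold VP.wv
        rw [if_neg hv]
      rw [h1, sub_zero]
      by_cases h0 : p.cwv N par mu kr φ = 0
      · rw [h0] at hAs hDs ⊢
        exact add_nonneg hAs hDs
      · have hrule := vp_rule h hp h0
        by_cases hco : ∀ i, ¬ Coi n par B Z f₀ (p.emb i) (p.lab φ (p.par i)) (p.lab φ i)
        · have hdis : ¬ ∀ i j, i ≠ j → Disjoint (p.us n par B Z f₀ (p.lab φ) i)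
              (p.us n par B Z f₀ (p.lab φ) j) :=
            fun hd => hv ⟨fun i => (hrule i).1, hco, hd⟩
          push Not at hdis
          obtain ⟨i, j, hij, hd⟩ := hdis
          rw [Finset.not_disjoint_iff] at hd
          obtain ⟨z, hzi, hzj⟩ := hd
          have h2 : p.cwv N par mu kr φ ≤ p.cwv N par mu kr φ *
              (p.hh n N par B Z f₀ i z (φ (p.par i)) (φ i) *
              p.hh n N par B Z f₀ j z (φ (p.par j)) (φ j)) := by
            rw [hh_us, hh_us, if_pos hzi, if_pos hzj, mul_one, mul_one]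
          have h3 := single_le_sum (f := fun t : (Fin (p.k + 1) × Fin (p.k + 1)) × ℕ =>
            p.cwv N par mu kr φ *
            (p.hh n N par B Z f₀ t.1.1 t.2 (φ (p.par t.1.1)) (φ t.1.1) *
            p.hh n N par B Z f₀ t.1.2 t.2 (φ (p.par t.1.2)) (φ t.1.2)))
            (fun t _ => hD0 φ t)
            (show ((i, j), z) ∈ p.od ×ˢ Q from mem_product.2
              ⟨mem_filter.2 ⟨mem_univ _, hij⟩, (hrule i).1 hzi⟩)
          dsimp only at h3
          linarith
        · push Not at hco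
          obtain ⟨i, hi⟩ := hco
          have h2 : p.cwv N par mu kr φ ≤ p.cwv N par mu kr φ *
              p.cc n N par B Z Q f₀ i (φ (p.par i)) (φ i) := by
            have h3 : p.cc n N par B Z Q f₀ i (φ (p.par i)) (φ i) = 1 := by
              unfold VP.cc
              rw [if_pos]
              exact ⟨hi, fun _ => (hrule (p.par i)).2⟩
            rw [h3, mul_one]
          have h3 := single_le_sum (f := fun i : Fin (p.k + 1) => p.cwv N par mu kr φ *
              p.cc n N par B Z Q f₀ i (φ (p.par i)) (φ i)) (fun i _ => hA0 φ i) (mem_univ i)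
          linarith
  refine (sum_le_sum fun φ _ => hpt φ).trans ?_
  rw [sum_add_distrib]
  refine add_le_add (le_of_eq_of_le sum_comm ?_) (le_of_eq_of_le sum_comm ?_)
  · refine (sum_le_sum fun i _ => cw_hloc (vp_ok h hp) (vp_LBc h hp i)).trans (le_of_eq ?_)
    rw [sum_const, card_univ, Fintype.card_fin, nsmul_eq_mul]
    push_cast
    ring
  · have hd : ∀ t ∈ p.od ×ˢ Q, ∑ φ : Fin (p.k + 1) → Fin (N + 1), p.cwv N par mu kr φ *
        (p.hh n N par B Z f₀ t.1.1 t.2 (φ (p.par t.1.1)) (φ t.1.1) *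
        p.hh n N par B Z f₀ t.1.2 t.2 (φ (p.par t.1.2)) (φ t.1.2)) ≤
        (5 * ((C + 1) / N)) * (5 * ((C + 1) / N)) := by
      intro t ht
      have h1 : t.1.1 ≠ t.1.2 := (mem_filter.1 (mem_product.1 ht).1).2
      exact cw_two (vp_ok h hp) h1 hCN (vp_LB h hp t.1.1 t.2) (vp_LB h hp t.1.2 t.2)
    refine (sum_le_sum hd).trans ?_
    rw [sum_const, nsmul_eq_mul, card_product, Nat.cast_mul, mul_assoc]
    have hQ : (Q.card : ℝ) ≤ N := by
      have h1 := card_le_card h.Q_sub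
      rw [Nat.card_Icc] at h1
      have h2 : Q.card ≤ N := by omega
      exact_mod_cast h2
    refine mul_le_mul od_card ?_ (by positivity) (by positivity)
    exact mul_le_mul_of_nonneg_right hQ (by positivity)

/-- probability that one vertex uses both labels -/
theorem vp_cod1 (h : EnvV n N par B Z Q f₀ C mu kr) (hp : p.OK par Z) (i : Fin (p.k + 1))
    {z z' : ℕ} (hzz : z ≠ z') :
    ∑ φ, p.cwv N par mu kr φ * (p.hh n N par B Z f₀ i z (φ (p.par i)) (φ i) *
      p.hh n N par B Z f₀ i z' (φ (p.par i)) (φ i)) ≤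
    12 * ((C + 1) / N * ((C + 1) / N)) +
      if (∃ b ∈ bnb n par B (p.emb i), f₀ b = z + z' ∨ f₀ b = dd z z') then
        2 * ((C + 1) / N) else 0 := by
  classical
  have hN : (0 : ℝ) < N := by exact_mod_cast h.N1
  have hC := h.C0
  have hc : (0 : ℝ) ≤ (C + 1) / N := by positivity
  obtain ⟨T, hT, hT'⟩ := usv_pair (n := n) (par := par) (B := B) (Z := Z) (f₀ := f₀)
    (v := p.emb i) (h.bnb_le _ (hp.emb_mem i)) hzz
  obtain ⟨E, hE⟩ : ∃ E : ℝ, E = if (∃ b ∈ bnb n par B (p.emb i), f₀ b = z + z' ∨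
      f₀ b = dd z z') then 1 else 0 := ⟨_, rfl⟩
  have hE0 : 0 ≤ E := by
    rw [hE]
    split_ifs
    · exact zero_le_one
    · exact le_rfl
  have hE2 : (if (∃ b ∈ bnb n par B (p.emb i), f₀ b = z + z' ∨ f₀ b = dd z z') then
      2 * ((C + 1) / (N : ℝ)) else 0) = E * (2 * ((C + 1) / N)) := by
    rw [hE]
    split_ifs
    · rw [one_mul]
    · rw [zero_mul]
  rw [hE2]
  -- the number of `y` in `{z, z'}`
  have htwo : ∀ g : Fin (N + 1) → ℝ, (∀ y, g y ≤ (C + 1) / N) →
      ∑ y : Fin (N + 1), g y * (if (y : ℕ) = z ∨ (y : ℕ) = z' then 1 else 0) ≤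
        2 * ((C + 1) / N) := by
    intro g hg
    have h1 : ∑ y : Fin (N + 1), g y * (if (y : ℕ) = z ∨ (y : ℕ) = z' then 1 else 0) ≤
        ∑ y : Fin (N + 1), (if (y : ℕ) = z ∨ (y : ℕ) = z' then (C + 1) / (N : ℝ) else 0) := by
      refine sum_le_sum fun y _ => ?_
      split_ifs
      · rw [mul_one]
        exact hg y
      · rw [mul_zero]
    refine h1.trans ?_
    rw [← sum_filter, sum_const, nsmul_eq_mul]
    refine mul_le_mul_of_nonneg_right ?_ hc
    have h2 : (univ.filter (fun y : Fin (N + 1) => (y : ℕ) = z ∨ (y : ℕ) = z')).card ≤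
        ({z, z'} : Finset ℕ).card := by
      refine card_le_card_of_injOn (fun y : Fin (N + 1) => (y : ℕ)) ?_ ?_
      · intro y hy
        have h3 := (mem_filter.1 hy).2
        rw [mem_coe, mem_insert, mem_singleton]
        exact h3
      · intro a _ b _ hab
        exact Fin.ext hab
    exact_mod_cast h2.trans card_le_two
  by_cases hi : i = 0
  · subst hi
    have h1 : ∀ φ : Fin (p.k + 1) → Fin (N + 1),
        p.cwv N par mu kr φ * (p.hh n N par B Z f₀ 0 z (φ (p.par 0)) (φ 0) *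
          p.hh n N par B Z f₀ 0 z' (φ (p.par 0)) (φ 0)) ≤
        cw p.par (p.mz N mu) (p.kap N par mu kr) φ * (E *
          (if (φ 0 : ℕ) = z ∨ (φ 0 : ℕ) = z' then (1 : ℝ) else 0)) := by
      intro φ
      refine mul_le_mul_of_nonneg_left ?_ (cwv_nonneg h hp φ)
      by_cases h2 : z ∈ usv n par B Z f₀ (p.emb 0) (φ (p.par 0)) (φ 0) ∧
          z' ∈ usv n par B Z f₀ (p.emb 0) (φ (p.par 0)) (φ 0)
      · rcases hT' _ _ h2.1 h2.2 with h3 | ⟨h3, h4⟩
        · exact absurd h3.1 hp.emb_root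
        · have h5 : E = 1 := by
            rw [hE, if_pos h4]
          unfold VP.hh
          rw [if_pos h2.1, if_pos h2.2, h5, if_pos h3, mul_one]
      · have h3 : p.hh n N par B Z f₀ 0 z (φ (p.par 0)) (φ 0) *
            p.hh n N par B Z f₀ 0 z' (φ (p.par 0)) (φ 0) = 0 := by
          unfold VP.hh
          by_cases h4 : z ∈ usv n par B Z f₀ (p.emb 0) (φ (p.par 0)) (φ 0)
          · rw [if_neg (fun h5 => h2 ⟨h4, h5⟩), mul_zero]
          · rw [if_neg h4, zero_mul]
        rw [h3]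
        refine mul_nonneg hE0 ?_
        split_ifs
        · exact zero_le_one
        · exact le_rfl
    refine (sum_le_sum fun φ _ => h1 φ).trans ?_
    have h2 := cw_one (vp_ok h hp) 0 (fun y : Fin (N + 1) => E *
      (if (y : ℕ) = z ∨ (y : ℕ) = z' then (1 : ℝ) else 0))
    refine (le_of_eq h2).trans ?_
    have h3 : ∑ x : Fin (N + 1), mu (p.emb 0) x * (E *
        (if (x : ℕ) = z ∨ (x : ℕ) = z' then (1 : ℝ) else 0)) =
        E * ∑ y : Fin (N + 1), p.mz N mu y *
          (if (y : ℕ) = z ∨ (y : ℕ) = z' then 1 else 0) := by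
      rw [mul_sum]
      refine sum_congr rfl fun y _ => ?_
      unfold VP.mz
      ring
    have h4 := mul_le_mul_of_nonneg_left (htwo _ (mz_le h hp)) hE0
    rw [h3]
    refine h4.trans ?_
    have h5 : (0 : ℝ) ≤ 12 * ((C + 1) / N * ((C + 1) / N)) := by positivity
    linarith
  · have hpm : par (p.emb i) ∈ Z := by
      rw [hp.emb_par i hi]
      exact hp.emb_mem _
    refine (le_of_eq (cw_edge (vp_ok h hp) i hi (fun x y => p.hh n N par B Z f₀ i z x y *
      p.hh n N par B Z f₀ i z' x y))).trans ?_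
    have hmu0 : ∀ x : Fin (N + 1), 0 ≤ mu (p.emb (p.par i)) x :=
      fun x => h.law.mu_nn _ (hp.emb_mem _) _
    have hmule : ∀ (j : Fin (p.k + 1)) (x : Fin (N + 1)), mu (p.emb j) x ≤ (C + 1) / N :=
      fun j x => (h.law.mu_le _ (hp.emb_mem _) _).trans
        (div_le_div_of_nonneg_right (by linarith) hN.le)
    have h1 : ∀ x y : Fin (N + 1), mu (p.emb (p.par i)) x * p.kap N par mu kr i x y *
        (p.hh n N par B Z f₀ i z x y * p.hh n N par B Z f₀ i z' x y) ≤
        (if ((x : ℕ), (y : ℕ)) ∈ T then (C + 1) / N * ((C + 1) / N) else 0) +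
        E * (mu (p.emb (p.par i)) x * p.kap N par mu kr i x y *
          (if (y : ℕ) = z ∨ (y : ℕ) = z' then (1 : ℝ) else 0)) := by
      intro x y
      have h2 : 0 ≤ mu (p.emb (p.par i)) x * p.kap N par mu kr i x y :=
        mul_nonneg (hmu0 x) (kap_nn h hp i x y)
      have h3 : (0 : ℝ) ≤ (if ((x : ℕ), (y : ℕ)) ∈ T then (C + 1) / N * ((C + 1) / N) else 0) := by
        split_ifs
        · exact mul_nonneg hc hc
        · exact le_rfl
      have h4 : 0 ≤ E * (mu (p.emb (p.par i)) x * p.kap N par mu kr i x y *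
          (if (y : ℕ) = z ∨ (y : ℕ) = z' then (1 : ℝ) else 0)) := by
        refine mul_nonneg hE0 (mul_nonneg h2 ?_)
        split_ifs
        · exact zero_le_one
        · exact le_rfl
      by_cases h5 : z ∈ usv n par B Z f₀ (p.emb i) x y ∧ z' ∈ usv n par B Z f₀ (p.emb i) x y
      · have h6 : mu (p.emb (p.par i)) x * p.kap N par mu kr i x y *
            (p.hh n N par B Z f₀ i z x y * p.hh n N par B Z f₀ i z' x y) =
            mu (p.emb (p.par i)) x * p.kap N par mu kr i x y := by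
          unfold VP.hh
          rw [if_pos h5.1, if_pos h5.2, mul_one, mul_one]
        rw [h6]
        rcases hT' _ _ h5.1 h5.2 with h7 | ⟨h7, h8⟩
        · rw [if_pos h7.2] at h3 ⊢
          have h8 : mu (p.emb (p.par i)) x * p.kap N par mu kr i x y ≤
              (C + 1) / N * ((C + 1) / N) :=
            mul_le_mul (hmule _ x) (kap_le h hp i x y) (kap_nn h hp i x y) hc
          linarith
        · have h9 : E = 1 := by
            rw [hE, if_pos h8]
          rw [h9, one_mul, if_pos h7, mul_one]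
          linarith
      · have h6 : p.hh n N par B Z f₀ i z x y * p.hh n N par B Z f₀ i z' x y = 0 := by
          unfold VP.hh
          by_cases h7 : z ∈ usv n par B Z f₀ (p.emb i) x y
          · rw [if_neg (fun h8 => h5 ⟨h7, h8⟩), mul_zero]
          · rw [if_neg h7, zero_mul]
        rw [h6, mul_zero]
        exact add_nonneg h3 h4
    refine (sum_le_sum fun x _ => sum_le_sum fun y _ => h1 x y).trans ?_
    have h2 : ∑ x : Fin (N + 1), ∑ y : Fin (N + 1),
        ((if ((x : ℕ), (y : ℕ)) ∈ T then (C + 1) / N * ((C + 1) / N) else 0) +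
        E * (mu (p.emb (p.par i)) x * p.kap N par mu kr i x y *
          (if (y : ℕ) = z ∨ (y : ℕ) = z' then (1 : ℝ) else 0))) =
        (∑ x : Fin (N + 1), ∑ y : Fin (N + 1),
          (if ((x : ℕ), (y : ℕ)) ∈ T then (C + 1) / N * ((C + 1) / N) else 0)) +
        E * ∑ y : Fin (N + 1), mu (p.emb i) y *
          (if (y : ℕ) = z ∨ (y : ℕ) = z' then (1 : ℝ) else 0) := by
      have h3 : ∀ y : Fin (N + 1), mu (p.emb i) y *
          (if (y : ℕ) = z ∨ (y : ℕ) = z' then (1 : ℝ) else 0) =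
          ∑ x : Fin (N + 1), mu (p.emb (p.par i)) x * p.kap N par mu kr i x y *
            (if (y : ℕ) = z ∨ (y : ℕ) = z' then (1 : ℝ) else 0) := by
        intro y
        have h4 : ∑ x : Fin (N + 1), mu (p.emb (p.par i)) x * p.kap N par mu kr i x y =
          mu (p.emb i) y := (vp_ok h hp).cons i hi y
        rw [← h4, sum_mul]
      rw [sum_congr rfl fun y _ => h3 y]
      have h5 : E * ∑ y : Fin (N + 1), ∑ x : Fin (N + 1),
          mu (p.emb (p.par i)) x * p.kap N par mu kr i x y *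
            (if (y : ℕ) = z ∨ (y : ℕ) = z' then (1 : ℝ) else 0) =
          ∑ x : Fin (N + 1), ∑ y : Fin (N + 1), E *
          (mu (p.emb (p.par i)) x * p.kap N par mu kr i x y *
            (if (y : ℕ) = z ∨ (y : ℕ) = z' then (1 : ℝ) else 0)) := by
        rw [sum_comm, mul_sum]
        exact sum_congr rfl fun x _ => mul_sum _ _ _
      rw [h5, ← sum_add_distrib]
      exact sum_congr rfl fun x _ => sum_add_distrib
    rw [h2]
    refine add_le_add ?_ (mul_le_mul_of_nonneg_left (htwo _ (hmule i)) hE0)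
    have h3 : ∑ x : Fin (N + 1), ∑ y : Fin (N + 1),
          (if ((x : ℕ), (y : ℕ)) ∈ T then (C + 1) / (N : ℝ) * ((C + 1) / N) else 0) =
        ((univ.filter (fun t : Fin (N + 1) × Fin (N + 1) => ((t.1 : ℕ), (t.2 : ℕ)) ∈ T)).card : ℝ) *
          ((C + 1) / (N : ℝ) * ((C + 1) / N)) := by
      rw [← nsmul_eq_mul, ← sum_const, sum_filter, Fintype.sum_prod_type]
    rw [h3]
    refine mul_le_mul_of_nonneg_right ?_ (mul_nonneg hc hc)
    have h4 : (univ.filter (fun t : Fin (N + 1) × Fin (N + 1) =>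
        ((t.1 : ℕ), (t.2 : ℕ)) ∈ T)).card ≤ T.card := by
      refine card_le_card_of_injOn (fun t : Fin (N + 1) × Fin (N + 1) => ((t.1 : ℕ), (t.2 : ℕ)))
        ?_ ?_
      · intro t ht
        exact (mem_filter.1 ht).2
      · intro a _ b _ hab
        exact Prod.ext (Fin.ext (Prod.mk.inj hab).1) (Fin.ext (Prod.mk.inj hab).2)
    exact_mod_cast h4.trans hT

/-- codegree of two labels -/
theorem vp_cod (h : EnvV n N par B Z Q f₀ C mu kr) (hp : p.OK par Z) {z z' : ℕ} (hzz : z ≠ z') :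
    ∑ φ : Fin (p.k + 1) → Fin (N + 1), (if z ∈ p.used n par B Z f₀ (p.lab φ) ∧
      z' ∈ p.used n par B Z f₀ (p.lab φ) then p.wv n N par B Z Q f₀ mu kr φ else 0) ≤
    ((p.k : ℝ) + 1) ^ 2 * ((5 * ((C + 1) / N)) * (5 * ((C + 1) / N))) +
      ∑ i, (12 * ((C + 1) / N * ((C + 1) / N)) +
        if (∃ b ∈ bnb n par B (p.emb i), f₀ b = z + z' ∨ f₀ b = dd z z') then
          2 * ((C + 1) / N) else 0) := by
  classical
  have hN : (0 : ℝ) < N := by exact_mod_cast h.N1
  have hC := h.C0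
  have hCN : (0 : ℝ) ≤ 5 * ((C + 1) / N) := by positivity
  have hA0 : ∀ (φ : Fin (p.k + 1) → Fin (N + 1)) (i j : Fin (p.k + 1)),
      0 ≤ p.cwv N par mu kr φ * (p.hh n N par B Z f₀ i z (φ (p.par i)) (φ i) *
      p.hh n N par B Z f₀ j z' (φ (p.par j)) (φ j)) :=
    fun φ i j => mul_nonneg (cwv_nonneg h hp φ) (mul_nonneg ((vp_LB h hp _ _).1 _ _)
      ((vp_LB h hp _ _).1 _ _))
  have hpt : ∀ φ : Fin (p.k + 1) → Fin (N + 1),
      (if z ∈ p.used n par B Z f₀ (p.lab φ) ∧
        z' ∈ p.used n par B Z f₀ (p.lab φ) then p.wv n N par B Z Q f₀ mu kr φ else 0) ≤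
      (∑ t ∈ p.od, p.cwv N par mu kr φ *
        (p.hh n N par B Z f₀ t.1 z (φ (p.par t.1)) (φ t.1) *
        p.hh n N par B Z f₀ t.2 z' (φ (p.par t.2)) (φ t.2))) +
      ∑ i, p.cwv N par mu kr φ * (p.hh n N par B Z f₀ i z (φ (p.par i)) (φ i) *
        p.hh n N par B Z f₀ i z' (φ (p.par i)) (φ i)) := by
    intro φ
    have hAs := sum_nonneg fun (t : Fin (p.k + 1) × Fin (p.k + 1)) (_ : t ∈ p.od) =>
      hA0 φ t.1 t.2
    have hDs := sum_nonneg fun (i : Fin (p.k + 1)) (_ : i ∈ univ) => hA0 φ i i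
    split_ifs with hz
    · obtain ⟨i, hi⟩ := mem_used.1 hz.1
      obtain ⟨j, hj⟩ := mem_used.1 hz.2
      have h2 : p.wv n N par B Z Q f₀ mu kr φ ≤ p.cwv N par mu kr φ *
          (p.hh n N par B Z f₀ i z (φ (p.par i)) (φ i) *
          p.hh n N par B Z f₀ j z' (φ (p.par j)) (φ j)) := by
        rw [hh_us, hh_us, if_pos hi, if_pos hj, mul_one, mul_one]
        exact (wv_le h hp φ).2
      by_cases hij : i = j
      · subst hij
        have h3 := single_le_sum (f := fun i : Fin (p.k + 1) => p.cwv N par mu kr φ *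
          (p.hh n N par B Z f₀ i z (φ (p.par i)) (φ i) *
          p.hh n N par B Z f₀ i z' (φ (p.par i)) (φ i))) (fun i _ => hA0 φ i i) (mem_univ i)
        linarith
      · have h3 := single_le_sum (f := fun t : Fin (p.k + 1) × Fin (p.k + 1) =>
          p.cwv N par mu kr φ *
          (p.hh n N par B Z f₀ t.1 z (φ (p.par t.1)) (φ t.1) *
          p.hh n N par B Z f₀ t.2 z' (φ (p.par t.2)) (φ t.2))) (fun t _ => hA0 φ t.1 t.2)
          (show (i, j) ∈ p.od from mem_filter.2 ⟨mem_univ _, hij⟩)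
        dsimp only at h3
        linarith
    · exact add_nonneg hAs hDs
  refine (sum_le_sum fun φ _ => hpt φ).trans ?_
  rw [sum_add_distrib]
  refine add_le_add (le_of_eq_of_le sum_comm ?_) (le_of_eq_of_le sum_comm
    (sum_le_sum fun i _ => vp_cod1 h hp i hzz))
  refine (sum_le_sum fun t ht => cw_two (vp_ok h hp)
      (mem_filter.1 ht).2 hCN (vp_LB h hp t.1 z) (vp_LB h hp t.2 z')).trans ?_
  rw [sum_const, nsmul_eq_mul]
  exact mul_le_mul_of_nonneg_right od_card (by positivity)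

end SSB
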