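import Pool.Agent.Lib.MP_8a819d_co.AT.PackV3

/-!
# MP_8a819d_co, trees with many non-leaves: packing of components, 4. The components; assembly
-/

set_option autoImplicit false
set_option linter.unusedSectionVars false
set_option linter.unusedVariables false

namespace SSB

open Finset

/-- the component with a given root -/
private theorem vp_one_exists {n : ℕ} {par : ℕ → ℕ} (hpar : IsPar n par) {Z : Finset ℕ}
    (hZ : Z ⊆ range n) (hZ0 : 0 ∉ Z) {r : ℕ} (hr : r ∈ Z) (hrp : par r ∉ Z) :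
    ∃ p : VP, p.OK par Z ∧ p.k + 1 = (comp n par (range n \ Z) r).card ∧
      (∀ i, p.emb i ∈ comp n par (range n \ Z) r) ∧
      (∀ v ∈ comp n par (range n \ Z) r, ∃ i, p.emb i = v) := by
  have hrn : r < n := mem_range.1 (hZ hr)
  have h0 : 0 ∈ range n \ Z := mem_sdiff.2 ⟨mem_range.2 (by omega), hZ0⟩
  have hr1 : 1 ≤ r := by
    rcases Nat.eq_zero_or_pos r with h | h
    · exact absurd (h ▸ hr) hZ0
    · exact h
  have hrS : par r ∈ range n \ Z := by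
    have := hpar r hr1 hrn
    exact mem_sdiff.2 ⟨mem_range.2 (by omega), hrp⟩
  have hmem : ∀ v, v ∈ comp n par (range n \ Z) r ↔
      v < n ∧ v ∉ range n \ Z ∧ topv par (range n \ Z) v = r := fun v => by
    unfold comp
    rw [mem_filter, mem_range]
  have hSZ : ∀ v, v < n → (v ∉ range n \ Z ↔ v ∈ Z) := fun v hv => by
    rw [mem_sdiff, mem_range]
    constructor
    · intro h
      by_contra h2
      exact h ⟨hv, h2⟩
    · intro h h2
      exact h2.2 h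
  have hrc : r ∈ comp n par (range n \ Z) r :=
    (hmem r).2 ⟨hrn, (hSZ r hrn).2 hr, topv_stop hrS⟩
  obtain ⟨k, hk⟩ : ∃ k, (comp n par (range n \ Z) r).card = k + 1 :=
    ⟨_, (Nat.succ_pred_eq_of_pos (card_pos.2 ⟨r, hrc⟩)).symm⟩
  obtain ⟨e, he⟩ : ∃ e : Fin (k + 1) ↪o ℕ, e = (comp n par (range n \ Z) r).orderEmbOfFin hk :=
    ⟨_, rfl⟩
  have he1 : ∀ i, e i ∈ comp n par (range n \ Z) r := fun i => by
    rw [he]
    exact orderEmbOfFin_mem _ _ _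
  have he2 : ∀ v ∈ comp n par (range n \ Z) r, ∃ i, e i = v := fun v hv => by
    have h1 : v ∈ Set.range ((comp n par (range n \ Z) r).orderEmbOfFin hk) := by
      rw [range_orderEmbOfFin]
      exact hv
    rw [← he] at h1
    exact h1
  have he0 : e 0 = r := by
    obtain ⟨j, hj⟩ := he2 r hrc
    have h1 : e 0 ≤ e j := e.monotone (Fin.zero_le j)
    have h2 := ((hmem _).1 (he1 0)).2.2
    have h3 := topv_le par (range n \ Z) (e 0)
    omega
  have hstep : ∀ i, i ≠ 0 → 1 ≤ e i ∧ par (e i) ∉ range n \ Z ∧ ∃ j, e j = par (e i) ∧ j < i := by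
    intro i hi
    obtain ⟨h1, h2, h3⟩ := (hmem _).1 (he1 i)
    have hne : e i ≠ r := fun h => hi (e.injective (h.trans he0.symm))
    have h4 : 1 ≤ e i := by
      rcases Nat.eq_zero_or_pos (e i) with h | h
      · rw [h] at h2
        exact absurd h0 h2
      · exact h
    have h5 : par (e i) ∉ range n \ Z := fun h => hne (by
      rw [topv_stop h] at h3
      exact h3)
    have h6 : par (e i) < e i := hpar _ h4 h1
    rw [topv_step h6 h5] at h3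
    obtain ⟨j, hj⟩ := he2 (par (e i)) ((hmem _).2 ⟨by omega, h5, h3⟩)
    refine ⟨h4, h5, j, hj, ?_⟩
    rw [← e.lt_iff_lt, hj]
    exact h6
  have hex : ∀ i, ∃ j, (i ≠ 0 → e j = par (e i) ∧ j < i) ∧ (i = 0 → j = 0) := by
    intro i
    by_cases hi : i = 0
    · exact ⟨0, fun h => absurd hi h, fun _ => rfl⟩
    · obtain ⟨-, -, j, hj⟩ := hstep i hi
      exact ⟨j, fun _ => hj, fun h => absurd h hi⟩
  choose pr hpr1 hpr2 using hex
  refine ⟨⟨k, pr, fun i => e i⟩, ⟨hpr2 0 rfl, fun i hi => (hpr1 i hi).2, e.injective,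
    fun i => (hSZ _ ((hmem _).1 (he1 i)).1).1 ((hmem _).1 (he1 i)).2.1,
    fun i hi => (hpr1 i hi).1.symm, ?_⟩, hk.symm, he1, he2⟩
  show par (e 0) ∉ Z
  rw [he0]
  exact hrp

theorem vps_exist {n : ℕ} {par : ℕ → ℕ} (hpar : IsPar n par) {Z : Finset ℕ} (hZ : Z ⊆ range n)
    (hZ0 : 0 ∉ Z) {K : ℕ} (hK : ∀ r, (comp n par (range n \ Z) r).card ≤ K) :
    ∃ (np : ℕ) (pc : Fin np → VP), (∀ p, (pc p).OK par Z) ∧ (∀ p, (pc p).k + 1 ≤ K) ∧
      Function.Injective (fun x : (Σ p : Fin np, Fin ((pc p).k + 1)) => (pc x.1).emb x.2) ∧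
      (∀ v ∈ Z, ∃ p i, (pc p).emb i = v) := by
  have hmem : ∀ r v, v ∈ comp n par (range n \ Z) r ↔
      v < n ∧ v ∉ range n \ Z ∧ topv par (range n \ Z) v = r := fun r v => by
    unfold comp
    rw [mem_filter, mem_range]
  have hSZ : ∀ v, v < n → (v ∉ range n \ Z ↔ v ∈ Z) := fun v hv => by
    rw [mem_sdiff, mem_range]
    constructor
    · intro h
      by_contra h2
      exact h ⟨hv, h2⟩
    · intro h h2
      exact h2.2 h
  obtain ⟨Rt, hRt⟩ : ∃ Rt : Finset ℕ, Rt = Z.filter (fun r => par r ∉ Z) := ⟨_, rfl⟩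
  have hRm : ∀ r, r ∈ Rt ↔ r ∈ Z ∧ par r ∉ Z := fun r => by rw [hRt, mem_filter]
  obtain ⟨en⟩ : Nonempty (Fin Rt.card ≃ Rt) := ⟨Rt.equivFin.symm⟩
  choose pc hOK hcard hcomp hsurj using fun p : Fin Rt.card =>
    vp_one_exists hpar hZ hZ0 ((hRm _).1 (en p).2).1 ((hRm _).1 (en p).2).2
  refine ⟨Rt.card, pc, hOK, fun p => ?_, ?_, ?_⟩
  · rw [hcard]
    exact hK _
  · rintro ⟨p, i⟩ ⟨q, j⟩ h
    change (pc p).emb i = (pc q).emb j at h
    have h1 := ((hmem _ _).1 (hcomp p i)).2.2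
    have h2 := ((hmem _ _).1 (hcomp q j)).2.2
    rw [h] at h1
    have h3 : p = q := en.injective (Subtype.ext (h1.symm.trans h2))
    subst h3
    rw [(hOK p).emb_inj h]
  · intro v hv
    have hvn : v < n := mem_range.1 (hZ hv)
    have h0 : 0 ∈ range n \ Z := mem_sdiff.2 ⟨mem_range.2 (by omega), hZ0⟩
    have hvS : v ∉ range n \ Z := (hSZ v hvn).2 hv
    obtain ⟨h1, h2⟩ := par_topv hpar h0 hvn hvS
    have h4 := topv_le par (range n \ Z) v
    have h3 : topv par (range n \ Z) v ∈ Rt := (hRm _).2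
      ⟨(hSZ _ (lt_of_le_of_lt h4 hvn)).1 (topv_notMem hvS), (mem_sdiff.1 h2).2⟩
    have h5 : ((en (en.symm ⟨_, h3⟩) : Rt) : ℕ) = topv par (range n \ Z) v := by
      rw [Equiv.apply_symm_apply]
    refine ⟨en.symm ⟨_, h3⟩, hsurj _ v ?_⟩
    rw [hmem, h5]
    exact ⟨hvn, hvS, rfl⟩

/-- owner and label of a new item -/
private theorem new_item {n : ℕ} {par : ℕ → ℕ} (hpar : IsPar n par) {B Z Cv : Finset ℕ}
    {f₀ f : ℕ → ℕ} (hBn : B ⊆ range n) (hZn : Z ⊆ range n) (hZ0 : 0 ∉ Z) (hBZ : Disjoint B Z)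
    (hCv : Cv ⊆ Z) (hf : ∀ b ∈ B, f b = f₀ b)
    {x : ℕ ⊕ ℕ} (hx : x ∈ items par (B ∪ Cv)) (hxB : x ∉ items par B) :
    ∃ v ∈ Cv, (x = Sum.inl v ∧ val par f x = f v) ∨
      (∃ b ∈ bnb n par B v, val par f x = dd (f₀ b) (f v) ∧
        ((x = Sum.inr v ∧ par v = b) ∨ (x = Sum.inr b ∧ 1 ≤ b ∧ par b = v))) ∨
      (par v ∈ Z ∧ x = Sum.inr v ∧ val par f x = dd (f (par v)) (f v)) := by
  rcases x with i | i
  · rw [mem_items_inl] at hx hxB
    rcases mem_union.1 hx with h | h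
    · exact absurd h hxB
    · exact ⟨i, h, Or.inl ⟨rfl, rfl⟩⟩
  · rw [mem_items_inr] at hx hxB
    obtain ⟨h1, h2, h3⟩ := hx
    rcases mem_union.1 h1 with h1 | h1 <;> rcases mem_union.1 h3 with h3 | h3
    · exact absurd ⟨h1, h2, h3⟩ hxB
    · refine ⟨par i, h3, Or.inr (Or.inl ⟨i, ?_, ?_, Or.inr ⟨rfl, h2, rfl⟩⟩)⟩
      · exact mem_bnb.2 ⟨h1, Or.inr ⟨h2, mem_range.1 (hBn h1), rfl⟩⟩
      · rw [val_inr, hf i h1]
    · refine ⟨i, h1, Or.inr (Or.inl ⟨par i, ?_, ?_, Or.inl ⟨rfl, rfl⟩⟩)⟩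
      · exact mem_bnb.2 ⟨h3, Or.inl ⟨h2, mem_range.1 (hZn (hCv h1)), rfl⟩⟩
      · rw [val_inr, hf _ h3, dd_comm]
    · refine ⟨i, h1, Or.inr (Or.inr ⟨hCv h3, rfl, ?_⟩)⟩
      rw [val_inr, dd_comm]

theorem asm {n N : ℕ} {par : ℕ → ℕ} {B Z Q : Finset ℕ} {f₀ : ℕ → ℕ} {C : ℝ} {mu : ℕ → ℕ → ℝ}
    {kr : ℕ → ℕ → ℕ → ℝ} (h : EnvV n N par B Z Q f₀ C mu kr) {np : ℕ} {pc : Fin np → VP}
    (hOK : ∀ p, (pc p).OK par Z)
    (hinj : Function.Injective (fun x : (Σ p : Fin np, Fin ((pc p).k + 1)) => (pc x.1).emb x.2))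
    (hsurj : ∀ v ∈ Z, ∃ p i, (pc p).emb i = v) (M : Finset (Fin np))
    (φ : (p : Fin np) → Fin ((pc p).k + 1) → ℕ)
    (hval : ∀ p ∈ M, (pc p).Valid n par B Z Q f₀ (φ p))
    (hdis : ∀ p ∈ M, ∀ q ∈ M, p ≠ q →
      Disjoint ((pc p).used n par B Z f₀ (φ p)) ((pc q).used n par B Z f₀ (φ q)))
    (hInj : Set.InjOn (val par f₀) (items par B))
    (hlab : ∀ x ∈ items par B, 1 ≤ val par f₀ x ∧ val par f₀ x ∉ Q) :
    ∃ (Cv : Finset ℕ) (f : ℕ → ℕ), Cv ⊆ Z ∧ (∀ v ∈ Z, par v ∈ Z → (v ∈ Cv ↔ par v ∈ Cv)) ∧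
      (∀ b ∈ B, f b = f₀ b) ∧ Set.InjOn (val par f) (items par (B ∪ Cv)) ∧
      (∀ x ∈ items par (B ∪ Cv), x ∉ items par B → val par f x ∈ Q) ∧
      Z \ Cv ⊆ (univ \ M).biUnion (fun p => univ.image (pc p).emb) := by
  classical
  have hu : ∀ p i q j, (pc p).emb i = (pc q).emb j → (⟨p, i⟩ : Σ p : Fin np, Fin ((pc p).k + 1)) =
      ⟨q, j⟩ := fun p i q j hh => hinj hh
  choose cp ci hci using hsurj
  -- the numbering
  obtain ⟨f, hf⟩ : ∃ f : ℕ → ℕ, ∀ v, f v = if v ∈ Z then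
      (if hh : ∃ x : (Σ p : Fin np, Fin ((pc p).k + 1)), (pc x.1).emb x.2 = v then
        φ hh.choose.1 hh.choose.2 else 0) else f₀ v := ⟨_, fun _ => rfl⟩
  have hfe : ∀ p i, f ((pc p).emb i) = φ p i := by
    intro p i
    have hh : ∃ x : (Σ p : Fin np, Fin ((pc p).k + 1)), (pc x.1).emb x.2 = (pc p).emb i :=
      ⟨⟨p, i⟩, rfl⟩
    rw [hf, if_pos ((hOK p).emb_mem i), dif_pos hh]
    have h1 : hh.choose = ⟨p, i⟩ := hinj hh.choose_spec
    rw [h1]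
  have hfB : ∀ b ∈ B, f b = f₀ b := fun b hb => by
    rw [hf, if_neg (fun h1 => disjoint_left.1 h.BZ hb h1)]
  obtain ⟨Cv, hCv⟩ : ∃ Cv : Finset ℕ, Cv = M.biUnion (fun p => univ.image (pc p).emb) := ⟨_, rfl⟩
  have hCm : ∀ v, v ∈ Cv ↔ ∃ p ∈ M, ∃ i, (pc p).emb i = v := by
    intro v
    rw [hCv, mem_biUnion]
    constructor
    · rintro ⟨p, hp, hv⟩
      obtain ⟨i, -, hi⟩ := mem_image.1 hv
      exact ⟨p, hp, i, hi⟩
    · rintro ⟨p, hp, i, hi⟩
      exact ⟨p, hp, mem_image.2 ⟨i, mem_univ i, hi⟩⟩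
  have hCZ : Cv ⊆ Z := by
    intro v hv
    obtain ⟨p, hp, i, rfl⟩ := (hCm v).1 hv
    exact (hOK p).emb_mem i
  -- the used labels of a vertex
  have hus : ∀ p i, (pc p).us n par B Z f₀ (φ p) i =
      usv n par B Z f₀ ((pc p).emb i) (f (par ((pc p).emb i))) (f ((pc p).emb i)) := by
    intro p i
    unfold VP.us
    rw [hfe]
    by_cases hi : i = 0
    · subst hi
      exact usv_root (hOK p).emb_root _ _ _
    · rw [(hOK p).emb_par i hi, hfe]
  have hvQ : ∀ v ∈ Cv, usv n par B Z f₀ v (f (par v)) (f v) ⊆ Q := by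
    intro v hv
    obtain ⟨p, hp, i, rfl⟩ := (hCm v).1 hv
    rw [← hus]
    exact (hval p hp).subQ i
  have hvc : ∀ v ∈ Cv, ¬ Coi n par B Z f₀ v (f (par v)) (f v) := by
    intro v hv
    obtain ⟨p, hp, i, rfl⟩ := (hCm v).1 hv
    have h1 := (hval p hp).noCoi i
    rw [hfe]
    by_cases hi : i = 0
    · subst hi
      exact fun h2 => h1 (coi_root (hOK p).emb_root _ _ _ h2)
    · rw [(hOK p).emb_par i hi, hfe]
      exact h1
  have hvd : ∀ v ∈ Cv, ∀ v' ∈ Cv, ∀ z, z ∈ usv n par B Z f₀ v (f (par v)) (f v) →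
      z ∈ usv n par B Z f₀ v' (f (par v')) (f v') → v = v' := by
    intro v hv v' hv' z hz hz'
    obtain ⟨p, hp, i, rfl⟩ := (hCm v).1 hv
    obtain ⟨q, hq, j, rfl⟩ := (hCm v').1 hv'
    rw [← hus] at hz hz'
    by_cases hpq : p = q
    · subst hpq
      by_cases hij : i = j
      · rw [hij]
      · exact absurd hz' (disjoint_left.1 ((hval p hp).disj i j hij) hz)
    · exact absurd (mem_used.2 ⟨j, hz'⟩)
        (disjoint_left.1 (hdis p hp q hq hpq) (mem_used.2 ⟨i, hz⟩))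
  have hvalB : ∀ x ∈ items par B, val par f x = val par f₀ x := by
    intro x hx
    rcases x with i | i
    · rw [val_inl, val_inl]
      exact hfB i (mem_items_inl.1 hx)
    · obtain ⟨h1, h2, h3⟩ := mem_items_inr.1 hx
      rw [val_inr, val_inr, hfB i h1, hfB _ h3]
  -- new items
  have hnew : ∀ x ∈ items par (B ∪ Cv), x ∉ items par B → ∃ v ∈ Cv,
      val par f x ∈ usv n par B Z f₀ v (f (par v)) (f v) ∧
      ((x = Sum.inl v ∧ val par f x = f v) ∨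
      (∃ b ∈ bnb n par B v, val par f x = dd (f₀ b) (f v) ∧
        ((x = Sum.inr v ∧ par v = b) ∨ (x = Sum.inr b ∧ 1 ≤ b ∧ par b = v))) ∨
      (par v ∈ Z ∧ x = Sum.inr v ∧ val par f x = dd (f (par v)) (f v))) := by
    intro x hx hxB
    obtain ⟨v, hv, hh⟩ := new_item h.isPar h.B_sub h.Z_sub h.Z0 h.BZ hCZ hfB hx hxB
    refine ⟨v, hv, ?_, hh⟩
    rw [mem_usv]
    rcases hh with h1 | ⟨b, hb, h1, -⟩ | ⟨h1, -, h2⟩
    · exact Or.inl h1.2
    · exact Or.inr (Or.inl ⟨b, hb, h1⟩)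
    · exact Or.inr (Or.inr ⟨h1, h2⟩)
  have hnewQ : ∀ x ∈ items par (B ∪ Cv), x ∉ items par B → val par f x ∈ Q := by
    intro x hx hxB
    obtain ⟨v, hv, h1, -⟩ := hnew x hx hxB
    exact hvQ v hv h1
  refine ⟨Cv, f, hCZ, ?_, hfB, ?_, hnewQ, ?_⟩
  · intro v hv hvp
    obtain ⟨p, i, rfl⟩ : ∃ p i, (pc p).emb i = v := ⟨cp v hv, ci v hv, hci v hv⟩
    have hi : i ≠ 0 := fun hi => (hOK p).emb_root (by
      rw [← hi]
      exact hvp)
    rw [(hOK p).emb_par i hi, hCm, hCm]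
    constructor
    · rintro ⟨q, hq, j, hj⟩
      have h1 : q = p := (Sigma.mk.inj (hu q j p i hj)).1
      subst h1
      exact ⟨q, hq, _, rfl⟩
    · rintro ⟨q, hq, j, hj⟩
      have h1 : q = p := (Sigma.mk.inj (hu q j p _ hj)).1
      subst h1
      exact ⟨q, hq, _, rfl⟩
  · intro x hx x' hx' hxx
    by_cases hB : x ∈ items par B <;> by_cases hB' : x' ∈ items par B
    · rw [hvalB x hB, hvalB x' hB'] at hxx
      exact hInj hB hB' hxx
    · have h1 := hnewQ x' hx' hB'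
      rw [← hxx, hvalB x hB] at h1
      exact absurd h1 (hlab x hB).2
    · have h1 := hnewQ x hx hB
      rw [hxx, hvalB x' hB'] at h1
      exact absurd h1 (hlab x' hB').2
    · obtain ⟨v, hv, hz, hk⟩ := hnew x hx hB
      obtain ⟨v', hv', hz', hk'⟩ := hnew x' hx' hB'
      have hvv : v = v' := hvd v hv v' hv' _ hz (by rw [hxx]; exact hz')
      subst hvv
      have hco := hvc v hv
      have hvn : v < n := mem_range.1 (h.Z_sub (hCZ hv))
      have hv1 : 1 ≤ v := by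
        rcases Nat.eq_zero_or_pos v with h1 | h1
        · exact absurd (h1 ▸ hCZ hv) h.Z0
        · exact h1
      rcases hk with ⟨h1, h2⟩ | ⟨b, hb, h1, h2⟩ | ⟨h1, h2, h3⟩ <;>
        rcases hk' with ⟨h1', h2'⟩ | ⟨b', hb', h1', h2'⟩ | ⟨h1', h2', h3'⟩
      · rw [h1, h1']
      · exact absurd (Or.inl ⟨b', hb', by rw [← h1', ← hxx, h2]⟩) hco
      · exact absurd (Or.inr (Or.inl ⟨h1', by rw [← h3', ← hxx, h2]⟩)) hco
      · exact absurd (Or.inl ⟨b, hb, by rw [← h1, hxx, h2']⟩) hco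
      · have hbb : b = b' := card_le_one.1 (h.bnb_le v (hCZ hv)) b hb b' hb'
        subst hbb
        have hcon : ¬ (par v = b ∧ 1 ≤ b ∧ par b = v) := by
          rintro ⟨e1, e6, e2⟩
          have e3 : par v < v := h.isPar v hv1 hvn
          have e5 : b < n := by omega
          have e7 := h.isPar b e6 e5
          omega
        rcases h2 with ⟨h2, h3⟩ | ⟨h2, h3⟩ <;> rcases h2' with ⟨h2', h3'⟩ | ⟨h2', h3'⟩
        · rw [h2, h2']
        · exact absurd ⟨h3, h3'⟩ hcon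
        · exact absurd ⟨h3', h3⟩ hcon
        · rw [h2, h2']
      · exact absurd (Or.inr (Or.inr ⟨h1', b, hb, by rw [← h3', ← hxx, h1]⟩)) hco
      · exact absurd (Or.inr (Or.inl ⟨h1, by rw [← h3, hxx, h2']⟩)) hco
      · exact absurd (Or.inr (Or.inr ⟨h1, b', hb', by rw [← h3, hxx, h1']⟩)) hco
      · rw [h2, h2']
  · intro v hv
    obtain ⟨hv1, hv2⟩ := mem_sdiff.1 hv
    refine mem_biUnion.2 ⟨cp v hv1, mem_sdiff.2 ⟨mem_univ _, fun h1 => hv2 ((hCm v).2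
      ⟨cp v hv1, h1, ci v hv1, hci v hv1⟩)⟩, mem_image.2 ⟨ci v hv1, mem_univ _, hci v hv1⟩⟩

end SSB
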