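import Pool.Agent.Lib.MP_8a819d_co.AT.PackV4
import Pool.Agent.Lib.MP_8a819d_co.BD.Nib

/-!
# MP_8a819d_co, trees with many non-leaves: packing of components, 5. The nibble
-/

set_option autoImplicit false
set_option linter.unusedSectionVars false
set_option linter.unusedVariables false

namespace SSB

open Finset

theorem sum_emb {par : ℕ → ℕ} {Z : Finset ℕ} {np : ℕ} {pc : Fin np → VP}
    (hOK : ∀ p, (pc p).OK par Z)
    (hinj : Function.Injective (fun x : (Σ p : Fin np, Fin ((pc p).k + 1)) => (pc x.1).emb x.2))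
    (hsurj : ∀ v ∈ Z, ∃ p i, (pc p).emb i = v) (g : ℕ → ℝ) :
    ∑ p, ∑ i, g ((pc p).emb i) = ∑ v ∈ Z, g v := by
  classical
  have h1 : Z = (univ : Finset (Σ p : Fin np, Fin ((pc p).k + 1))).image
      (fun x => (pc x.1).emb x.2) := by
    ext v
    rw [mem_image]
    constructor
    · intro hv
      obtain ⟨p, i, hi⟩ := hsurj v hv
      exact ⟨⟨p, i⟩, mem_univ _, hi⟩
    · rintro ⟨x, -, rfl⟩
      exact (hOK x.1).emb_mem x.2
  have h2 : ∑ v ∈ Z, g v = ∑ x : (Σ p : Fin np, Fin ((pc p).k + 1)), g ((pc x.1).emb x.2) := by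
    conv_lhs => rw [h1]
    exact sum_image fun x _ y _ hxy => hinj hxy
  rw [h2, Fintype.sum_sigma]

section main

variable {n N : ℕ} {par : ℕ → ℕ} {B Z Q : Finset ℕ} {f₀ : ℕ → ℕ} {C : ℝ} {mu : ℕ → ℕ → ℝ}
  {kr : ℕ → ℕ → ℕ → ℝ}

/-- few vertices of `Z` have a neighbour with one of two given labels -/
theorem few_nb (h : EnvV n N par B Z Q f₀ C mu kr) {γ : ℝ} (hγ0 : 0 ≤ γ)
    (hγ : ∀ b ∈ B, ((Z.filter (fun v => b ∈ bnb n par B v)).card : ℝ) ≤ γ * N) (a a' : ℕ) :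
    ((Z.filter (fun v => ∃ b ∈ bnb n par B v, f₀ b = a ∨ f₀ b = a')).card : ℝ) ≤
      2 * (γ * N) := by
  classical
  have h1 : ∀ c : ℕ, ((Z.filter (fun v => ∃ b ∈ bnb n par B v, f₀ b = c)).card : ℝ) ≤ γ * N := by
    intro c
    by_cases hc : ∃ b ∈ B, f₀ b = c
    · obtain ⟨b, hb, hbc⟩ := hc
      refine le_trans ?_ (hγ b hb)
      have h2 : (Z.filter (fun v => ∃ b ∈ bnb n par B v, f₀ b = c)).card ≤
          (Z.filter (fun v => b ∈ bnb n par B v)).card := by
        refine card_le_card fun v hv => ?_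
        obtain ⟨h3, b', h4, h5⟩ := mem_filter.1 hv
        have h6 : b' = b := h.f0_inj (mem_bnb.1 h4).1 hb (h5.trans hbc.symm)
        exact mem_filter.2 ⟨h3, h6 ▸ h4⟩
      exact_mod_cast h2
    · have h2 : Z.filter (fun v => ∃ b ∈ bnb n par B v, f₀ b = c) = ∅ := by
        rw [filter_eq_empty_iff]
        rintro v hv ⟨b, h4, h5⟩
        exact hc ⟨b, (mem_bnb.1 h4).1, h5⟩
      rw [h2, card_empty, Nat.cast_zero]
      positivity
  have h2 : (Z.filter (fun v => ∃ b ∈ bnb n par B v, f₀ b = a ∨ f₀ b = a')).card ≤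
      (Z.filter (fun v => ∃ b ∈ bnb n par B v, f₀ b = a)).card +
      (Z.filter (fun v => ∃ b ∈ bnb n par B v, f₀ b = a')).card := by
    refine le_trans (card_le_card fun v hv => ?_) (card_union_le _ _)
    obtain ⟨h3, b, h4, h5⟩ := mem_filter.1 hv
    rw [mem_union, mem_filter, mem_filter]
    rcases h5 with h5 | h5
    · exact Or.inl ⟨h3, b, h4, h5⟩
    · exact Or.inr ⟨h3, b, h4, h5⟩
  have h3 : ((Z.filter (fun v => ∃ b ∈ bnb n par B v, f₀ b = a ∨ f₀ b = a')).card : ℝ) ≤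
      ((Z.filter (fun v => ∃ b ∈ bnb n par B v, f₀ b = a)).card : ℝ) +
      ((Z.filter (fun v => ∃ b ∈ bnb n par B v, f₀ b = a')).card : ℝ) := by exact_mod_cast h2
  have h4 := h1 a
  have h5 := h1 a'
  linarith

theorem pkv_main (h : EnvV n N par B Z Q f₀ C mu kr) {np : ℕ} {pc : Fin np → VP}
    (hOK : ∀ p, (pc p).OK par Z)
    (hinj : Function.Injective (fun x : (Σ p : Fin np, Fin ((pc p).k + 1)) => (pc x.1).emb x.2))
    (hsurj : ∀ v ∈ Z, ∃ p i, (pc p).emb i = v) {K : ℕ} (hK : ∀ p, (pc p).k + 1 ≤ K)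
    {κ μ γ : ℝ} (hκ : 0 < κ) (hμ : 0 < μ)
    (hnib : ∀ (V E : Type) [Fintype V] [Fintype E] [DecidableEq V] [DecidableEq E]
      (S : E → Finset V) (w : E → ℝ) (V0 : Finset V),
      (∀ e, (S e).card ≤ 3 * K + 1) → (∀ e, (S e).Nonempty) → (∀ e, 0 ≤ w e) →
      (∀ v, ∑ e with v ∈ S e, w e ≤ 1) →
      (∀ v ∈ V0, 1 - κ ≤ ∑ e with v ∈ S e, w e) →
      (∀ u v, u ≠ v → ∑ e with (u ∈ S e ∧ v ∈ S e), w e ≤ κ) →
      ∃ M : Finset E, (∀ e ∈ M, 0 < w e) ∧ (∀ e ∈ M, ∀ f ∈ M, e ≠ f → Disjoint (S e) (S f)) ∧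
        ((V0.filter (fun v => ∀ e ∈ M, v ∉ S e)).card : ℝ) ≤ μ * Fintype.card V)
    (hγ0 : 0 ≤ γ)
    (hγ : ∀ b ∈ B, ((Z.filter (fun v => b ∈ bnb n par B v)).card : ℝ) ≤ γ * N)
    (hload : ∀ z ∈ Q, ∑ v ∈ Z, loadv n N par B Z f₀ mu kr v z ≤ 1)
    (b1 : (K : ℝ) * (3 * ((C + 1) / N)) +
        (K : ℝ) ^ 2 * (N * ((5 * ((C + 1) / N)) * (5 * ((C + 1) / N)))) ≤ κ)
    (b2 : (N : ℝ) * (((25 * (K : ℝ) + 12)) * ((C + 1) / N * ((C + 1) / N))) +
        2 * (γ * N) * (2 * ((C + 1) / N)) ≤ κ)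
    (b3 : (K : ℝ) * (5 * ((C + 1) / N)) ≤ κ) :
      ∃ (M : Finset (Fin np)) (φ : (p : Fin np) → Fin ((pc p).k + 1) → ℕ),
        (∀ p ∈ M, (pc p).Valid n par B Z Q f₀ (φ p)) ∧
        (∀ p ∈ M, ∀ q ∈ M, p ≠ q →
          Disjoint ((pc p).used n par B Z f₀ (φ p)) ((pc q).used n par B Z f₀ (φ q))) ∧
        ((univ \ M).card : ℝ) ≤ μ * (2 * N + 1) := by
  classical
  have hC := h.C0
  have hN' : (0 : ℝ) < N := by exact_mod_cast h.N1
  have hc : (0 : ℝ) ≤ (C + 1) / N := by positivity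
  have hKr : ∀ p, ((pc p).k : ℝ) + 1 ≤ K := fun p => by exact_mod_cast hK p
  have hZN : (Z.card : ℝ) ≤ N := by
    have h1 := card_le_card h.Z_sub
    rw [card_range] at h1
    exact_mod_cast h1.trans h.nN
  have hkr : ∑ p, (((pc p).k : ℝ) + 1) ≤ N := by
    have h1 := sum_emb hOK hinj hsurj (fun _ => 1)
    simp only [sum_const, card_univ, Fintype.card_fin, nsmul_eq_mul, mul_one] at h1
    refine le_trans (le_of_eq ?_) hZN
    rw [← h1]
    refine sum_congr rfl fun p _ => ?_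
    push_cast
    ring
  let E : Type := Σ p : Fin np, (Fin ((pc p).k + 1) → Fin (N + 1))
  let S : E → Finset (Fin (N + 1) ⊕ Fin np) := fun e =>
    (univ.filter (fun z : Fin (N + 1) =>
      (z : ℕ) ∈ (pc e.1).used n par B Z f₀ ((pc e.1).lab e.2))).disjSum {e.1}
  let w : E → ℝ := fun e => (pc e.1).wv n N par B Z Q f₀ mu kr e.2
  have hSl : ∀ (e : E) (z : Fin (N + 1)), Sum.inl z ∈ S e ↔
      (z : ℕ) ∈ (pc e.1).used n par B Z f₀ ((pc e.1).lab e.2) := by
    intro e z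
    change Sum.inl z ∈ disjSum _ _ ↔ _
    rw [inl_mem_disjSum, mem_filter]
    exact ⟨fun hh => hh.2, fun hh => ⟨mem_univ z, hh⟩⟩
  have hSr : ∀ (e : E) (q : Fin np), Sum.inr q ∈ S e ↔ q = e.1 := by
    intro e q
    change Sum.inr q ∈ disjSum _ _ ↔ _
    rw [inr_mem_disjSum, mem_singleton]
  have hw0 : ∀ e, 0 ≤ w e := fun e => (wv_le h (hOK e.1) e.2).1
  have hsum : ∀ (P : E → Prop) [DecidablePred P], ∑ e with P e, w e =
      ∑ p, ∑ φ : Fin ((pc p).k + 1) → Fin (N + 1),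
        if P ⟨p, φ⟩ then (pc p).wv n N par B Z Q f₀ mu kr φ else 0 := by
    intro P _
    rw [sum_filter, Fintype.sum_sigma]
  have hr : ∀ (q : Fin np) (F : (p : Fin np) → (Fin ((pc p).k + 1) → Fin (N + 1)) → ℝ),
      ∑ p, ∑ φ, (if q = p then F p φ else 0) = ∑ φ, F q φ := by
    intro q F
    rw [sum_eq_single q]
    · exact sum_congr rfl fun φ _ => if_pos rfl
    · intro p _ hpq
      exact sum_eq_zero fun φ _ => if_neg (fun hh => hpq hh.symm)
    · intro hq
      exact absurd (mem_univ q) hq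
  have hdl : ∀ z : Fin (N + 1), ∑ e with Sum.inl z ∈ S e, w e =
      ∑ p, ∑ φ : Fin ((pc p).k + 1) → Fin (N + 1),
        if (z : ℕ) ∈ (pc p).used n par B Z f₀ ((pc p).lab φ) then
          (pc p).wv n N par B Z Q f₀ mu kr φ else 0 := by
    intro z
    rw [hsum]
    refine sum_congr rfl fun p _ => sum_congr rfl fun φ _ => ?_
    exact if_congr (hSl ⟨p, φ⟩ z) rfl rfl
  have hdr : ∀ q : Fin np, ∑ e with Sum.inr q ∈ S e, w e =
      ∑ φ : Fin ((pc q).k + 1) → Fin (N + 1), (pc q).wv n N par B Z Q f₀ mu kr φ := by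
    intro q
    rw [hsum]
    refine Eq.trans ?_ (hr q fun p φ => (pc p).wv n N par B Z Q f₀ mu kr φ)
    refine sum_congr rfl fun p _ => sum_congr rfl fun φ _ => ?_
    exact if_congr (hSr ⟨p, φ⟩ q) rfl rfl
  have hwc : ∀ q : Fin np, ∑ φ : Fin ((pc q).k + 1) → Fin (N + 1),
      (pc q).wv n N par B Z Q f₀ mu kr φ ≤ 1 := by
    intro q
    rw [← cwv_sum h (hOK q)]
    exact sum_le_sum fun φ _ => (wv_le h (hOK q) φ).2
  have hlr : ∀ (z : Fin (N + 1)) (q : Fin np),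
      ∑ p, ∑ φ : Fin ((pc p).k + 1) → Fin (N + 1),
        (if Sum.inl z ∈ S ⟨p, φ⟩ ∧ Sum.inr q ∈ S ⟨p, φ⟩ then
          (pc p).wv n N par B Z Q f₀ mu kr φ else 0) ≤ κ := by
    intro z q
    have h1 : ∑ p, ∑ φ : Fin ((pc p).k + 1) → Fin (N + 1),
        (if Sum.inl z ∈ S ⟨p, φ⟩ ∧ Sum.inr q ∈ S ⟨p, φ⟩ then
          (pc p).wv n N par B Z Q f₀ mu kr φ else 0) =
        ∑ p, ∑ φ : Fin ((pc p).k + 1) → Fin (N + 1), (if q = p then
          (if (z : ℕ) ∈ (pc p).used n par B Z f₀ ((pc p).lab φ) then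
            (pc p).wv n N par B Z Q f₀ mu kr φ else 0) else 0) := by
      refine sum_congr rfl fun p _ => sum_congr rfl fun φ _ => ?_
      rw [← ite_and]
      refine if_congr ?_ rfl rfl
      rw [hSl, hSr]
      exact and_comm
    rw [h1, hr q]
    refine (vp_one h (hOK q) z).trans (le_trans ?_ b3)
    exact mul_le_mul_of_nonneg_right (hKr q) (by positivity)
  let V0 : Finset (Fin (N + 1) ⊕ Fin np) := (∅ : Finset (Fin (N + 1))).disjSum univ
  obtain ⟨M₀, H1, H2, H3⟩ := hnib (Fin (N + 1) ⊕ Fin np) E S w V0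
    (fun e => by
      change (disjSum _ _).card ≤ _
      rw [card_disjSum, card_singleton]
      have h1 : (univ.filter (fun z : Fin (N + 1) =>
          (z : ℕ) ∈ (pc e.1).used n par B Z f₀ ((pc e.1).lab e.2))).card ≤
          ((pc e.1).used n par B Z f₀ ((pc e.1).lab e.2)).card := by
        refine card_le_card_of_injOn (fun z : Fin (N + 1) => (z : ℕ)) ?_ ?_
        · intro z hz
          exact (mem_filter.1 hz).2
        · intro a _ b _ hab
          exact Fin.ext hab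
      have h2 := used_card h (hOK e.1) ((pc e.1).lab e.2)
      have h3 := hK e.1
      omega)
    (fun e => ⟨Sum.inr e.1, (hSr e e.1).2 rfl⟩) hw0
    (fun v => by
      rcases v with z | q
      · rw [hdl]
        by_cases hz : (z : ℕ) ∈ Q
        · refine le_trans ?_ (hload z hz)
          rw [← sum_emb hOK hinj hsurj (fun v => loadv n N par B Z f₀ mu kr v z)]
          exact sum_le_sum fun p _ => vp_load h (hOK p) z
        · rw [sum_congr rfl fun p _ => vp_zero h (hOK p) hz, sum_const_zero]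
          exact zero_le_one
      · rw [hdr]
        exact hwc q)
    (fun v hv => by
      rcases v with z | q
      · have hv' : Sum.inl z ∈ disjSum _ _ := hv
        rw [inl_mem_disjSum] at hv'
        exact absurd hv' (notMem_empty z)
      · rw [hdr]
        have h1 := vp_inv h (hOK q)
        rw [sum_sub_distrib, cwv_sum h (hOK q)] at h1
        have h2 : (((pc q).k : ℝ) + 1) * (3 * ((C + 1) / N)) ≤ (K : ℝ) * (3 * ((C + 1) / N)) :=
          mul_le_mul_of_nonneg_right (hKr q) (by positivity)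
        have h3 : (((pc q).k : ℝ) + 1) ^ 2 *
            (N * ((5 * ((C + 1) / N)) * (5 * ((C + 1) / N)))) ≤ (K : ℝ) ^ 2 *
            (N * ((5 * ((C + 1) / N)) * (5 * ((C + 1) / N)))) :=
          mul_le_mul_of_nonneg_right (pow_le_pow_left₀ (by positivity) (hKr q) 2) (by positivity)
        linarith)
    (fun u v huv => by
      rw [hsum]
      rcases u with z | q <;> rcases v with z' | q'
      · have hzz : (z : ℕ) ≠ (z' : ℕ) := fun hh => huv (congrArg Sum.inl (Fin.ext hh))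
        have h1 : ∑ p, ∑ φ : Fin ((pc p).k + 1) → Fin (N + 1),
            (if Sum.inl z ∈ S ⟨p, φ⟩ ∧ Sum.inl z' ∈ S ⟨p, φ⟩ then
              (pc p).wv n N par B Z Q f₀ mu kr φ else 0) ≤
            ∑ p, (((((pc p).k : ℝ) + 1) ^ 2 * ((5 * ((C + 1) / N)) * (5 * ((C + 1) / N)))) +
              ∑ i, (12 * ((C + 1) / N * ((C + 1) / N)) +
                if (∃ b ∈ bnb n par B ((pc p).emb i), f₀ b = (z : ℕ) + z' ∨ f₀ b = dd z z') then
                  2 * ((C + 1) / N) else 0)) := by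
          refine sum_le_sum fun p _ => le_trans (le_of_eq ?_) (vp_cod h (hOK p) hzz)
          refine sum_congr rfl fun φ _ => if_congr ?_ rfl rfl
          rw [hSl, hSl]
        refine h1.trans (le_trans ?_ b2)
        rw [sum_add_distrib, sum_emb hOK hinj hsurj
          (fun v => (12 * ((C + 1) / (N : ℝ) * ((C + 1) / N)) +
                if (∃ b ∈ bnb n par B v, f₀ b = (z : ℕ) + z' ∨ f₀ b = dd z z') then
                  2 * ((C + 1) / (N : ℝ)) else 0)), sum_add_distrib, sum_const, nsmul_eq_mul,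
          ← sum_filter, sum_const, nsmul_eq_mul]
        have h3 : ∑ p, ((((pc p).k : ℝ) + 1) ^ 2 *
            ((5 * ((C + 1) / (N : ℝ))) * (5 * ((C + 1) / N)))) ≤
            N * (25 * (K : ℝ) * ((C + 1) / N * ((C + 1) / N))) := by
          have h4 : ∀ p, (((pc p).k : ℝ) + 1) ^ 2 *
              ((5 * ((C + 1) / (N : ℝ))) * (5 * ((C + 1) / N))) ≤
              (((pc p).k : ℝ) + 1) * (25 * (K : ℝ) * ((C + 1) / N * ((C + 1) / N))) := by
            intro p
            have h5 := mul_le_mul_of_nonneg_left (hKr p)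
              (show (0 : ℝ) ≤ (((pc p).k : ℝ) + 1) * (25 * ((C + 1) / N * ((C + 1) / N))) by
                positivity)
            linarith
          refine (sum_le_sum fun p _ => h4 p).trans ?_
          rw [← sum_mul]
          exact mul_le_mul_of_nonneg_right hkr (by positivity)
        have h4 := few_nb h hγ0 hγ ((z : ℕ) + z') (dd z z')
        have h5 : (Z.card : ℝ) * (12 * ((C + 1) / N * ((C + 1) / N))) ≤
            N * (12 * ((C + 1) / N * ((C + 1) / N))) :=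
          mul_le_mul_of_nonneg_right hZN (by positivity)
        have h6 := mul_le_mul_of_nonneg_right h4
          (show (0 : ℝ) ≤ 2 * ((C + 1) / N) by positivity)
        linarith
      · exact hlr z q'
      · have h1 : ∑ p, ∑ φ : Fin ((pc p).k + 1) → Fin (N + 1),
            (if Sum.inr q ∈ S ⟨p, φ⟩ ∧ Sum.inl z' ∈ S ⟨p, φ⟩ then
              (pc p).wv n N par B Z Q f₀ mu kr φ else 0) =
            ∑ p, ∑ φ : Fin ((pc p).k + 1) → Fin (N + 1),
            (if Sum.inl z' ∈ S ⟨p, φ⟩ ∧ Sum.inr q ∈ S ⟨p, φ⟩ then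
              (pc p).wv n N par B Z Q f₀ mu kr φ else 0) :=
          sum_congr rfl fun p _ => sum_congr rfl fun φ _ => if_congr and_comm rfl rfl
        rw [h1]
        exact hlr z' q
      · have h1 : ∑ p, ∑ φ : Fin ((pc p).k + 1) → Fin (N + 1),
            (if Sum.inr q ∈ S ⟨p, φ⟩ ∧ Sum.inr q' ∈ S ⟨p, φ⟩ then
              (pc p).wv n N par B Z Q f₀ mu kr φ else 0) = 0 := by
          refine sum_eq_zero fun p _ => sum_eq_zero fun φ _ => if_neg ?_
          rw [hSr, hSr]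
          rintro ⟨hh, hh'⟩
          exact huv (congrArg Sum.inr (hh.trans hh'.symm))
        rw [h1]
        exact hκ.le)
  have hval : ∀ (p : Fin np) (φ : Fin ((pc p).k + 1) → Fin (N + 1)), (⟨p, φ⟩ : E) ∈ M₀ →
      (pc p).Valid n par B Z Q f₀ ((pc p).lab φ) := by
    intro p φ hpφ
    have h1 : 0 < (pc p).wv n N par B Z Q f₀ mu kr φ := H1 _ hpφ
    by_contra hv
    have h2 : (pc p).wv n N par B Z Q f₀ mu kr φ = 0 := by
      unfold VP.wv
      rw [if_neg hv]
    rw [h2] at h1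
    exact absurd h1 (lt_irrefl 0)
  let Mf : Finset (Fin np) := M₀.image Sigma.fst
  let φf : (p : Fin np) → Fin ((pc p).k + 1) → ℕ := fun p =>
    if hh : ∃ φ : Fin ((pc p).k + 1) → Fin (N + 1), (⟨p, φ⟩ : E) ∈ M₀ then
      (pc p).lab hh.choose else fun _ => 0
  have hφ : ∀ p ∈ Mf, ∃ φ : Fin ((pc p).k + 1) → Fin (N + 1), (⟨p, φ⟩ : E) ∈ M₀ ∧
      φf p = (pc p).lab φ := by
    intro p hpM
    obtain ⟨e, he', rfl⟩ := mem_image.1 hpM
    have hh : ∃ φ : Fin ((pc e.1).k + 1) → Fin (N + 1), (⟨e.1, φ⟩ : E) ∈ M₀ := ⟨e.2, he'⟩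
    exact ⟨hh.choose, hh.choose_spec, dif_pos hh⟩
  have hnp : np ≤ N := by
    have h2 : ∑ _p : Fin np, (1 : ℝ) ≤ ∑ p, (((pc p).k : ℝ) + 1) := sum_le_sum fun p _ => by
      have : (0 : ℝ) ≤ ((pc p).k : ℝ) := Nat.cast_nonneg _
      linarith
    rw [sum_const, card_univ, Fintype.card_fin, nsmul_eq_mul, mul_one] at h2
    exact_mod_cast h2.trans hkr
  have hcard : (Fintype.card (Fin (N + 1) ⊕ Fin np) : ℝ) ≤ 2 * N + 1 := by
    have h3 : (np : ℝ) ≤ N := by exact_mod_cast hnp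
    rw [Fintype.card_sum, Fintype.card_fin, Fintype.card_fin]
    push_cast
    linarith
  refine ⟨Mf, φf, ?_, ?_, ?_⟩
  · intro p hpM
    obtain ⟨φ, h1, h2⟩ := hφ p hpM
    rw [h2]
    exact hval p φ h1
  · intro p hpM q hqM hpq
    obtain ⟨φ, h1, h2⟩ := hφ p hpM
    obtain ⟨φ', h1', h2'⟩ := hφ q hqM
    rw [h2, h2', disjoint_left]
    intro z hz hz'
    obtain ⟨i, hi⟩ := mem_used.1 hz
    have h3 : z ≤ N := (mem_Icc.1 (h.Q_sub ((hval p φ h1).subQ i hi))).2
    have h4 : (⟨p, φ⟩ : E) ≠ ⟨q, φ'⟩ := fun hh => hpq (Sigma.mk.inj hh).1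
    exact disjoint_left.1 (H2 _ h1 _ h1' h4)
      ((hSl ⟨p, φ⟩ ⟨z, Nat.lt_succ_of_le h3⟩).2 hz) ((hSl ⟨q, φ'⟩ ⟨z, Nat.lt_succ_of_le h3⟩).2 hz')
  · have h1 : (univ \ Mf).card ≤ (V0.filter (fun v => ∀ e ∈ M₀, v ∉ S e)).card := by
      refine card_le_card_of_injOn Sum.inr ?_ ?_
      · intro q hq
        have hq' : q ∉ Mf := (mem_sdiff.1 (mem_coe.1 hq)).2
        refine mem_coe.2 (mem_filter.2 ⟨?_, fun e he' hqe => hq' ?_⟩)
        · change Sum.inr q ∈ disjSum _ _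
          rw [inr_mem_disjSum]
          exact mem_univ q
        · rw [hSr] at hqe
          exact mem_image.2 ⟨e, he', hqe.symm⟩
      · intro a _ b _ hab
        exact Sum.inr_injective hab
    have h3 : ((univ \ Mf).card : ℝ) ≤ ((V0.filter (fun v => ∀ e ∈ M₀, v ∉ S e)).card : ℝ) := by
      exact_mod_cast h1
    exact h3.trans (H3.trans (mul_le_mul_of_nonneg_left hcard hμ.le))

end main

end SSB
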