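import Pool.Agent.Lib.MP_8a819d_co.AT.SelA1

/-!
# MP_8a819d_co, trees with many non-leaves: case A, 2. Cutting the bare paths

JOB SelA (all of this file; split as you like).

`H` closed, `0 ∈ H`, all degrees outside `H` are `≤ 2`; so outside `H` the tree consists of vertical paths: every `v ∉ H` has at most one child. `ρ` bounds the
number of tops of long runs (`v ∉ H`, `par v ∈ H`, `chs v ≠ ∅`); `q` = number of vertices of degree two outside `H`. `K = 5 k`, `k ≥ 1`.

CONSTRUCTION. `S = {v < n : v ∉ H, (K+1) ∣ posH v}` (cut vertices; `posH v ≥ 1`). Different cut vertices have disjoint sets of `K+1` elements `v, par v, ..., par^K v`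
(all outside `H`; every vertex outside `H` has at most one child), so `(K+1) |S| ≤ n`. `Bt = {s ∈ S : 2 (K+1) ≤ posH s}`; for `s ∈ Bt` the SEGMENT
`Seg s = {par^[j] s : 1 ≤ j ≤ K}`: these vertices are outside `H`, not in `S`, of degree two, `par (par^[K] s) = par^[K+1] s ∈ S` (position `≥ K + 1`), and the only child of
`par s` is `s ∈ S`. Segments are disjoint; `(s, j) ↦ par^[j] s` is injective on `Bt × [1, K]`.
Number of segments: in a long run with top `v` and `ℓ` vertices outside `H` below and including `v` there are `⌊ℓ/(K+1)⌋` cuts, at least `ℓ/(K+1) - 2` of which are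
in `Bt`; every vertex of degree two outside `H` is in a long run, so `(K+1) |Bt| ≥ q - 2 (K+1) ρ`. [In Lean: map every vertex `v` of degree two outside `H` (or: every
vertex of a long run) which is not in `⋃ Seg s ∪ Bt` to ... : these vertices are at most `2 K + 2` in each run: positions `1..K+1` and the positions after the
last cut, at most `K + 1` including this cut.]
`m = ⌈d/k⌉ ≤ |Bt|` (hypothesis `hd`): choose `Bu ⊆ Bt` with `|Bu| = m` and `U ⊆ {par^[5 i + 3] s : s ∈ Bu, i < k}` with `|U| = d`. `P = U.image par ∪ U.biUnion chs`: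
the positions `j = 5i+2` (child of `u`) and `j = 5i+4` (parent of `u`) in the segments. `B = H ∪ P`, `Z = range n \ (B ∪ U ∪ S)`. `Zc` = union of the segments `Seg s`, `s ∈ Bt \ Bu`.
PROPERTIES.
(U) for `u ∈ U`: degree two, `par u ∉ H`, the only child `c` of `u` is not in `H`; `P` has `2 d` elements (parents and children all different); `P` is disjoint from `H`,
    `U`, `S`; no two elements of `P` are adjacent, none is adjacent to `H`: so `items par (H ∪ P) = items par H ∪ P.image inl`.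
(1) `v ∈ Z` has at most one neighbour in `B`: if `v` is in a segment (of `Bu`) at `j = 5 i + 1` or `5 i + 5` its neighbours are at `j ± 1` (or `s`, or the next cut): the
    only possible one in `P` is `5 i + 2` resp. `5 i + 4`; no neighbour in `H`. For `j = 5i+3` (not in `U`): its neighbours are not in `P` (they could be only because of
    this vertex). For `j = 5i + 2, 5i + 4` not in `P`: the neighbours `5i+1, 5i+3, 5i+5` are not in `P`. If `v` is not in a segment, its neighbours are not in `P`, and `|bnb H v| ≤ 1`.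
(2) components of `Z` have at most `K` elements: every vertex of `Z` is on a vertical path between cuts.
(3) `Zc`: no neighbours in `B`; `par v ∈ Zc` or `par v ∈ S`; a child of `v ∈ Zc` is in `Zc` or in `S`; the roots (`par v ∉ Z`) are the `par^[K] s`, so `(K+1) *` their number `≤ n`;
    `|Zc| = K (|Bt| - m)`, so `(K + 1) |Zc| ≥ K (q - 2 (K+1) ρ) - K (K+1) m`; with `m ≤ d/k + 1`, `K m ≤ 5 d + K`: `(K+1) |Zc| + 2 K (K+1) ρ + (K+1)(5 d + K) ≥ K q`.
(4) the vertices `v ∈ Z \ Zc` with `par v ∉ H` are in segments of `Bu` (at most `K m ≤ 5 d + K`) or in a long run outside all the segments and cuts (at most `2 K` for each run).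
-/

set_option autoImplicit false

namespace SSB

open Finset

/-! ### positions -/

private structure SaH (n : ℕ) (par : ℕ → ℕ) (H : Finset ℕ) : Prop where
  hpar : IsPar n par
  h0 : 0 ∈ H
  hH : H ⊆ range n
  hdeg : ∀ v < n, v ∉ H → pdeg n par v ≤ 2

section

variable {n K : ℕ} {par : ℕ → ℕ} {H : Finset ℕ}

private theorem sa_one (h : SaH n par H) {v : ℕ} (hv : v < n) (hvH : v ∉ H) :
    1 ≤ v ∧ par v < v := by
  have h1 : 1 ≤ v := by
    rcases Nat.eq_zero_or_pos v with rfl | h'
    · exact absurd h.h0 hvH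
    · exact h'
  exact ⟨h1, h.hpar v h1 hv⟩

private theorem sa_pos (h : SaH n par H) {v : ℕ} (hv : v < n) : 1 ≤ posH par H v ↔ v ∉ H := by
  constructor
  · intro h1 h2
    rw [posH_mem h2] at h1
    omega
  · intro h1
    rw [posH_succ h.hpar h.h0 hv h1]
    omega

private theorem sa_child (h : SaH n par H) {v c c' : ℕ} (hv : v ∉ H) (hc : c ∈ chs n par v)
    (hc' : c' ∈ chs n par v) : c = c' := by
  obtain ⟨h1, h2, h3⟩ := mem_chs.1 hc
  have h4 := h.hpar c h2 h1
  have hvn : v < n := by omega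
  have h5 := h.hdeg v hvn hv
  have h6 := (sa_one h hvn hv).1
  unfold pdeg at h5
  rw [if_neg (by omega)] at h5
  exact Finset.card_le_one.1 (by omega) c hc c' hc'

private theorem sa_iter (h : SaH n par H) (j : ℕ) {v : ℕ} (hv : v < n) (hj : j ≤ posH par H v) :
    par^[j] v < n ∧ posH par H (par^[j] v) = posH par H v - j := by
  induction j with
  | zero => exact ⟨hv, rfl⟩
  | succ j ih =>
    obtain ⟨h1, h2⟩ := ih (by omega)
    have h3 : par^[j] v ∉ H := (sa_pos h h1).1 (by omega)
    have h4 := sa_one h h1 h3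
    rw [Function.iterate_succ_apply']
    have h5 := posH_succ h.hpar h.h0 h1 h3
    exact ⟨by omega, by omega⟩

private theorem sa_inj (h : SaH n par H) (t : ℕ) : ∀ {v w : ℕ}, v < n → w < n →
    t < posH par H v → t < posH par H w → par^[t] v = par^[t] w → v = w := by
  induction t with
  | zero => intro v w _ _ _ _ h5; exact h5
  | succ t ih =>
    intro v w h1 h2 h3 h4 h5
    rw [Function.iterate_succ_apply, Function.iterate_succ_apply] at h5
    have hv : v ∉ H := (sa_pos h h1).1 (by omega)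
    have hw : w ∉ H := (sa_pos h h2).1 (by omega)
    have hv1 := sa_one h h1 hv
    have hw1 := sa_one h h2 hw
    have hv2 := posH_succ h.hpar h.h0 h1 hv
    have hw2 := posH_succ h.hpar h.h0 h2 hw
    have h6 : par v = par w := ih (by omega) (by omega) (by omega) (by omega) h5
    have h7 : par v ∉ H := (sa_pos h (by omega)).1 (by omega)
    exact sa_child h h7 (mem_chs.2 ⟨h1, hv1.1, rfl⟩) (mem_chs.2 ⟨h2, hw1.1, h6.symm⟩)

private theorem sa_top (h : SaH n par H) : ∀ {v : ℕ}, v < n → v ∉ H →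
    par^[posH par H v - 1] v = topv par H v := by
  intro v
  induction v using Nat.strong_induction_on with
  | _ v ih =>
    intro hv hvH
    have h1 := sa_one h hv hvH
    have h2 := posH_succ h.hpar h.h0 hv hvH
    by_cases hp : par v ∈ H
    · rw [topv_stop hp, h2, posH_mem hp]
      rfl
    · rw [topv_step h1.2 hp, ← ih (par v) h1.2 (by omega) hp, h2]
      have h3 : 1 ≤ posH par H (par v) := (sa_pos h (by omega)).2 hp
      have h4 : posH par H (par v) + 1 - 1 = (posH par H (par v) - 1) + 1 := by omega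
      rw [h4, Function.iterate_succ_apply]

/-- two vertices of the same run -/
private theorem sa_same (h : SaH n par H) {v w : ℕ} (hv : v < n) (hw : w < n) (hvH : v ∉ H)
    (hwH : w ∉ H) (htop : topv par H v = topv par H w) (hle : posH par H v ≤ posH par H w) :
    par^[posH par H w - posH par H v] w = v := by
  have h1 : 1 ≤ posH par H v := (sa_pos h hv).2 hvH
  obtain ⟨h2, h3⟩ := sa_iter h (posH par H w - posH par H v) hw (by omega)
  refine sa_inj h (posH par H v - 1) h2 hv (by omega) (by omega) ?_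
  rw [← Function.iterate_add_apply, sa_top h hv hvH, htop, ← sa_top h hw hwH]
  rw [show posH par H v - 1 + (posH par H w - posH par H v) = posH par H w - 1 by omega]

/-! ### cuts -/

/-- the cut vertices -/
private def saS (n K : ℕ) (par : ℕ → ℕ) (H : Finset ℕ) : Finset ℕ :=
  (range n).filter (fun v => v ∉ H ∧ (K + 1) ∣ posH par H v)

/-- the lower ends of segments -/
private def saB (n K : ℕ) (par : ℕ → ℕ) (H : Finset ℕ) : Finset ℕ :=
  (saS n K par H).filter (fun s => 2 * (K + 1) ≤ posH par H s)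

private theorem sa_memS {v : ℕ} : v ∈ saS n K par H ↔ v < n ∧ v ∉ H ∧ (K + 1) ∣ posH par H v := by
  unfold saS
  rw [mem_filter, mem_range]

private theorem sa_memB {v : ℕ} : v ∈ saB n K par H ↔
    v ∈ saS n K par H ∧ 2 * (K + 1) ≤ posH par H v := by
  unfold saB
  rw [mem_filter]

private theorem sa_S (h : SaH n par H) {s : ℕ} (hs : s ∈ saS n K par H) :
    s < n ∧ s ∉ H ∧ K + 1 ≤ posH par H s := by
  obtain ⟨h1, h2, h3⟩ := sa_memS.1 hs
  have h4 : 1 ≤ posH par H s := (sa_pos h h1).2 h2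
  exact ⟨h1, h2, Nat.le_of_dvd h4 h3⟩

/-- the vertices `par^[j] s`, `j ≤ K`, above a cut vertex -/
private theorem sa_xS (h : SaH n par H) {s j : ℕ} (hs : s ∈ saS n K par H) (hj : j ≤ K) :
    par^[j] s < n ∧ par^[j] s ∉ H ∧ posH par H (par^[j] s) = posH par H s - j ∧
      (par^[j] s ∈ saS n K par H → j = 0) := by
  obtain ⟨h1, h2, h3⟩ := sa_S h hs
  obtain ⟨h4, h5⟩ := sa_iter h j h1 (by omega)
  refine ⟨h4, (sa_pos h h4).1 (by omega), h5, fun h6 => ?_⟩
  obtain ⟨a, ha⟩ := (sa_memS.1 hs).2.2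
  obtain ⟨b, hb⟩ := (sa_memS.1 h6).2.2
  rw [h5, ha] at hb
  have hb' : (K + 1) * a = (K + 1) * b + j := by omega
  have h7 : j % (K + 1) = 0 := by
    have h8 : ((K + 1) * b + j) % (K + 1) = 0 := by
      rw [← hb']
      exact Nat.mul_mod_right _ _
    rwa [Nat.mul_add_mod] at h8
  rwa [Nat.mod_eq_of_lt (by omega)] at h7

private theorem sa_xinj (h : SaH n par H) {s s' j j' : ℕ} (hs : s ∈ saS n K par H)
    (hs' : s' ∈ saS n K par H) (hj : j ≤ K) (hj' : j' ≤ K) (he : par^[j] s = par^[j'] s') :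
    s = s' ∧ j = j' := by
  have h1 := sa_S h hs
  have h1' := sa_S h hs'
  have h2 := sa_xS h hs hj
  have h2' := sa_xS h hs' hj'
  obtain ⟨a, ha⟩ := (sa_memS.1 hs).2.2
  obtain ⟨b, hb⟩ := (sa_memS.1 hs').2.2
  have h3 : posH par H s - j = posH par H s' - j' := by rw [← h2.2.2.1, ← h2'.2.2.1, he]
  have h4 : (K + 1) * a + j' = (K + 1) * b + j := by omega
  have h5 : j = j' := by
    have h6 : ((K + 1) * a + j') % (K + 1) = ((K + 1) * b + j) % (K + 1) := by rw [h4]
    rw [Nat.mul_add_mod, Nat.mul_add_mod, Nat.mod_eq_of_lt (by omega),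
      Nat.mod_eq_of_lt (by omega)] at h6
    exact h6.symm
  subst h5
  exact ⟨sa_inj h j h1.1 h1'.1 (by omega) (by omega) he, rfl⟩

/-- the vertices `par^[j] s`, `j ≤ K + 1`, of a segment and its two cuts -/
private theorem sa_xB (h : SaH n par H) {s j : ℕ} (hs : s ∈ saB n K par H) (hj : j ≤ K + 1) :
    par^[j] s < n ∧ par^[j] s ∉ H ∧ posH par H (par^[j] s) = posH par H s - j ∧
      (par^[j] s ∈ saS n K par H ↔ j = 0 ∨ j = K + 1) := by
  obtain ⟨h0, h3⟩ := sa_memB.1 hs
  obtain ⟨h1, h2, -⟩ := sa_S h h0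
  obtain ⟨h4, h5⟩ := sa_iter h j h1 (by omega)
  refine ⟨h4, (sa_pos h h4).1 (by omega), h5, fun h6 => ?_, fun h6 => ?_⟩
  · by_cases hjK : j ≤ K
    · exact Or.inl ((sa_xS h h0 hjK).2.2.2 h6)
    · exact Or.inr (by omega)
  · rcases h6 with h6 | h6
    · subst h6
      exact h0
    · rw [sa_memS]
      refine ⟨h4, (sa_pos h h4).1 (by omega), ?_⟩
      rw [h5, h6]
      exact Nat.dvd_sub (sa_memS.1 h0).2.2 (dvd_refl _)

private theorem sa_chs (h : SaH n par H) {s j : ℕ} (hs : s ∈ saB n K par H) (hj : j ≤ K) :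
    chs n par (par^[j + 1] s) = {par^[j] s} := by
  have h1 := sa_xB h hs (show j ≤ K + 1 by omega)
  have h2 := sa_xB h hs (show j + 1 ≤ K + 1 by omega)
  have h3 : par^[j] s ∈ chs n par (par^[j + 1] s) := by
    rw [Function.iterate_succ_apply']
    exact mem_chs.2 ⟨h1.1, (sa_one h h1.1 h1.2.1).1, rfl⟩
  ext c
  rw [mem_singleton]
  constructor
  · intro hc
    exact sa_child h h2.2.1 hc h3
  · rintro rfl
    exact h3

/-- the neighbours of a vertex of a segment -/
private theorem sa_nb (h : SaH n par H) {s j : ℕ} (hs : s ∈ saB n K par H) (hj : j ≤ K)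
    {B : Finset ℕ} {b : ℕ} (hb : b ∈ bnb n par B (par^[j + 1] s)) :
    b ∈ B ∧ (b = par^[j + 2] s ∨ b = par^[j] s) := by
  rw [mem_bnb] at hb
  obtain ⟨h1, h2⟩ := hb
  refine ⟨h1, ?_⟩
  rcases h2 with ⟨-, -, h2⟩ | ⟨h2, h3, h4⟩
  · left
    rw [← h2, ← Function.iterate_succ_apply' par]
  · right
    have h5 : b ∈ chs n par (par^[j + 1] s) := mem_chs.2 ⟨h3, h2, h4⟩
    rw [sa_chs h hs hj, mem_singleton] at h5
    exact h5

/-- a vertex at least `K + 1` positions above another vertex of the same run, below the first cut -/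
private theorem sa_seg (h : SaH n par H) {v w : ℕ} (hv : v < n) (hw : w < n) (hvH : v ∉ H)
    (hwH : w ∉ H) (htop : topv par H v = topv par H w)
    (hle : posH par H v + (K + 1) ≤ posH par H w) (hgt : K + 1 < posH par H v) :
    ∃ s ∈ saB n K par H, ∃ j ≤ K, par^[j] s = v := by
  obtain ⟨a, ha⟩ : ∃ a, a = (posH par H v + K) / (K + 1) := ⟨_, rfl⟩
  have h1 := Nat.div_add_mod (posH par H v + K) (K + 1)
  have h2 := Nat.mod_lt (posH par H v + K) (show K + 1 > 0 by omega)
  rw [← ha] at h1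
  have h3 : 2 ≤ a := by
    rw [ha, Nat.le_div_iff_mul_le (by omega)]
    omega
  have h4 : 2 * (K + 1) ≤ (K + 1) * a := by
    rw [mul_comm 2]
    exact Nat.mul_le_mul_left _ h3
  obtain ⟨A, hA⟩ : ∃ A, A = (K + 1) * a := ⟨_, rfl⟩
  rw [← hA] at h1 h4
  obtain ⟨h5, h6⟩ := sa_iter h (posH par H w - A) hw (by omega)
  refine ⟨par^[posH par H w - A] w, ?_, A - posH par H v, by omega, ?_⟩
  · rw [sa_memB, sa_memS]
    have h7 : posH par H (par^[posH par H w - A] w) = A := by omega
    refine ⟨⟨h5, (sa_pos h h5).1 (by omega), ?_⟩, by omega⟩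
    rw [h7, hA]
    exact dvd_mul_right _ _
  · rw [← Function.iterate_add_apply,
      show A - posH par H v + (posH par H w - A) = posH par H w - posH par H v by omega]
    exact sa_same h hv hw hvH hwH htop (by omega)

/-- the number of cuts -/
private theorem sa_Scard (h : SaH n par H) : (K + 1) * (saS n K par H).card ≤ n := by
  have h1 : (saS n K par H ×ˢ range (K + 1)).card ≤ (range n).card := by
    refine card_le_card_of_injOn (fun p => par^[p.2] p.1) ?_ ?_
    · rintro ⟨s, j⟩ hp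
      rw [mem_coe, mem_product, mem_range] at hp
      rw [mem_coe, mem_range]
      exact (sa_xS h hp.1 (by have := hp.2; simp only at this; omega)).1
    · rintro ⟨s, j⟩ hp ⟨s', j'⟩ hp' he
      rw [mem_coe, mem_product, mem_range] at hp hp'
      have h2 := sa_xinj h hp.1 hp'.1 (by have := hp.2; simp only at this; omega)
        (by have := hp'.2; simp only at this; omega) he
      exact Prod.ext h2.1 h2.2
  rw [card_product, card_range, card_range, mul_comm] at h1
  exact h1

/-- the tops of the long runs -/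
private def saT (n : ℕ) (par : ℕ → ℕ) (H : Finset ℕ) : Finset ℕ :=
  (range n).filter (fun v => v ∉ H ∧ par v ∈ H ∧ (chs n par v).Nonempty)

private theorem sa_topT (h : SaH n par H) {v : ℕ} (hv : v < n) (hvH : v ∉ H)
    (hc : (chs n par v).Nonempty ∨ par v ∉ H) : topv par H v ∈ saT n par H := by
  obtain ⟨h1, h2⟩ := par_topv h.hpar h.h0 hv hvH
  have h3 := topv_notMem (par := par) hvH
  have h4 := topv_le par H v
  unfold saT
  rw [mem_filter, mem_range]
  refine ⟨by omega, h3, h2, ?_⟩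
  by_cases hp : par v ∈ H
  · rw [topv_stop hp]
    rcases hc with hc | hc
    · exact hc
    · exact absurd hp hc
  · have h5 : 2 ≤ posH par H v := by
      rw [posH_succ h.hpar h.h0 hv hvH]
      have := sa_one h hv hvH
      have := (sa_pos h (show par v < n by omega)).2 hp
      omega
    obtain ⟨h6, h7⟩ := sa_iter h (posH par H v - 2) hv (by omega)
    refine ⟨par^[posH par H v - 2] v, mem_chs.2 ⟨h6, ?_, ?_⟩⟩
    · exact (sa_one h h6 ((sa_pos h h6).1 (by omega))).1
    · rw [← Function.iterate_succ_apply' par, ← sa_top h hv hvH]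
      rw [show (posH par H v - 2).succ = posH par H v - 1 by omega]

/-- the general counting lemma: vertices outside `H` in long runs which are in no segment. -/
private theorem sa_cnt (h : SaH n par H) {ρ M : ℕ} (hρ : (saT n par H).card ≤ ρ) (R E : Finset ℕ)
    (hE : E.card = M) (hR : ∀ v ∈ R, v < n ∧ v ∉ H ∧ ((chs n par v).Nonempty ∨ par v ∉ H) ∧
      posH par H v % (K + 1) ∈ E ∧ ¬ ∃ s ∈ saB n K par H, ∃ j ≤ K, par^[j] s = v) :
    R.card ≤ 2 * M * ρ := by
  have h1 : R.card ≤ (saT n par H ×ˢ (E ×ˢ (range 2))).card := by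
    refine card_le_card_of_injOn (fun v => (topv par H v, (posH par H v % (K + 1),
      if posH par H v ≤ K + 1 then 0 else 1))) ?_ ?_
    · intro v hv
      rw [mem_coe] at hv
      obtain ⟨h2, h3, h4, h5, -⟩ := hR v hv
      rw [mem_coe, mem_product, mem_product, mem_range]
      refine ⟨sa_topT h h2 h3 h4, h5, ?_⟩
      dsimp only
      split_ifs <;> omega
    · intro v hv w hw he
      rw [mem_coe] at hv hw
      obtain ⟨h2, h3, -, -, h4⟩ := hR v hv
      obtain ⟨h2', h3', -, -, h4'⟩ := hR w hw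
      simp only [Prod.mk.injEq] at he
      obtain ⟨h5, h6, h7⟩ := he
      have hp1 : 1 ≤ posH par H v := (sa_pos h h2).2 h3
      have hp2 : 1 ≤ posH par H w := (sa_pos h h2').2 h3'
      have hmod : ∀ a b : ℕ, a % (K + 1) = b % (K + 1) → a < b → a + (K + 1) ≤ b := by
        intro a b hab hlt
        have e1 := Nat.div_add_mod a (K + 1)
        have e2 := Nat.div_add_mod b (K + 1)
        have e3 : a / (K + 1) < b / (K + 1) := by
          by_contra hc
          have := Nat.mul_le_mul_left (K + 1) (not_lt.1 hc)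
          omega
        have e4 := Nat.mul_le_mul_left (K + 1) (Nat.succ_le_of_lt e3)
        rw [Nat.succ_eq_add_one, mul_add, mul_one] at e4
        omega
      have hpos : posH par H v = posH par H w := by
        rcases lt_trichotomy (posH par H v) (posH par H w) with hlt | heq | hlt
        · exfalso
          have e1 := hmod _ _ h6 hlt
          have e2 : K + 1 < posH par H v := by
            by_contra hc
            rw [if_pos (not_lt.1 hc), if_neg (by omega)] at h7
            exact absurd h7 (by norm_num)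
          exact h4 (sa_seg h h2 h2' h3 h3' h5 e1 e2)
        · exact heq
        · exfalso
          have e1 := hmod _ _ h6.symm hlt
          have e2 : K + 1 < posH par H w := by
            by_contra hc
            rw [if_pos (not_lt.1 hc), if_neg (by omega)] at h7
            exact absurd h7 (by norm_num)
          exact h4' (sa_seg h h2' h2 h3' h3 h5.symm e1 e2)
      have := sa_same h h2 h2' h3 h3' h5 hpos.le
      rw [hpos, Nat.sub_self] at this
      exact this.symm
  rw [card_product, card_product, card_range, hE] at h1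
  calc R.card ≤ (saT n par H).card * (M * 2) := h1
    _ ≤ ρ * (M * 2) := Nat.mul_le_mul_right _ hρ
    _ = 2 * M * ρ := by ring

/-- the number of segments -/
private theorem sa_Bcard (h : SaH n par H) {ρ : ℕ} (hρ : (saT n par H).card ≤ ρ) :
    ((range n).filter (fun v => v ∉ H ∧ pdeg n par v = 2)).card ≤
      (K + 1) * (saB n K par H).card + 2 * (K + 1) * ρ := by
  obtain ⟨I, hI⟩ : ∃ I : Finset ℕ, I = (saB n K par H ×ˢ range (K + 1)).image
    (fun p => par^[p.2] p.1) := ⟨_, rfl⟩
  have h1 : I.card ≤ (K + 1) * (saB n K par H).card := by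
    rw [hI]
    refine card_image_le.trans ?_
    rw [card_product, card_range, mul_comm]
  obtain ⟨R, hR⟩ : ∃ R : Finset ℕ, R = ((range n).filter (fun v => v ∉ H ∧ pdeg n par v = 2)) \ I :=
    ⟨_, rfl⟩
  have h2 : R.card ≤ 2 * (K + 1) * ρ := by
    refine sa_cnt (K := K) h hρ R (range (K + 1)) (card_range _) ?_
    intro v hv
    rw [hR, mem_sdiff, mem_filter, mem_range] at hv
    obtain ⟨⟨h3, h4, h5⟩, h6⟩ := hv
    refine ⟨h3, h4, Or.inl ?_, mem_range.2 (Nat.mod_lt _ (by omega)), ?_⟩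
    · unfold pdeg at h5
      rw [if_neg (by have := (sa_one h h3 h4).1; omega)] at h5
      rw [← card_pos]
      omega
    · rintro ⟨s, hs, j, hj, he⟩
      apply h6
      rw [hI, mem_image]
      exact ⟨(s, j), mem_product.2 ⟨hs, mem_range.2 (by simp only; omega)⟩, he⟩
  have h3 : ((range n).filter (fun v => v ∉ H ∧ pdeg n par v = 2)).card ≤ R.card + I.card := by
    rw [hR]
    exact card_le_card_sdiff_add_card
  omega

/-- components -/
private theorem sa_comp (h : SaH n par H) {W : Finset ℕ} (hHW : H ⊆ W) (hSW : saS n K par H ⊆ W) (r : ℕ) :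
    (comp n par W r).card ≤ K := by
  have key : ∀ i, i < n → i ∉ W → posH par H i / (K + 1) = posH par H (topv par W i) / (K + 1) ∧
      posH par H (topv par W i) ≤ posH par H i ∧
      par^[posH par H i - posH par H (topv par W i)] i = topv par W i := by
    intro i
    induction i using Nat.strong_induction_on with
    | _ i ih =>
      intro hi hiW
      have hiH : i ∉ H := fun hc => hiW (hHW hc)
      have h1 := sa_one h hi hiH
      by_cases hp : par i ∈ W
      · rw [topv_stop hp]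
        refine ⟨rfl, le_rfl, ?_⟩
        rw [Nat.sub_self]
        rfl
      · rw [topv_step h1.2 hp]
        obtain ⟨h2, h3, h4⟩ := ih (par i) h1.2 (by omega) hp
        have h5 := posH_succ h.hpar h.h0 hi hiH
        have h6 : ¬ (K + 1) ∣ posH par H i := fun hc => hiW (hSW (sa_memS.2 ⟨hi, hiH, hc⟩))
        refine ⟨?_, by omega, ?_⟩
        · rw [← h2, h5]
          rw [h5] at h6
          exact (Nat.succ_div_of_not_dvd h6)
        · rw [show posH par H i - posH par H (topv par W (par i)) =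
            (posH par H (par i) - posH par H (topv par W (par i))) + 1 by omega,
            Function.iterate_succ_apply]
          exact h4
  obtain ⟨a, ha⟩ : ∃ a, a = posH par H r / (K + 1) := ⟨_, rfl⟩
  have h1 : (comp n par W r).card ≤ (Ioo ((K + 1) * a) ((K + 1) * a + (K + 1))).card := by
    refine card_le_card_of_injOn (posH par H) ?_ ?_
    · intro i hi
      rw [mem_coe] at hi
      unfold comp at hi
      rw [mem_filter, mem_range] at hi
      obtain ⟨h2, h3, h4⟩ := hi
      have hiH : i ∉ H := fun hc => h3 (hHW hc)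
      obtain ⟨h5, -, -⟩ := key i h2 h3
      rw [h4, ← ha] at h5
      rw [mem_coe, mem_Ioo]
      have e1 := Nat.div_add_mod (posH par H i) (K + 1)
      have e2 := Nat.mod_lt (posH par H i) (show K + 1 > 0 by omega)
      rw [h5] at e1
      have e3 : posH par H i % (K + 1) ≠ 0 := by
        intro hc
        exact h3 (hSW (sa_memS.2 ⟨h2, hiH, Nat.dvd_of_mod_eq_zero hc⟩))
      omega
    · intro i hi j hj hij
      rw [mem_coe] at hi hj
      unfold comp at hi hj
      rw [mem_filter, mem_range] at hi hj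
      obtain ⟨h2, h3, h4⟩ := hi
      obtain ⟨h2', h3', h4'⟩ := hj
      have hiH : i ∉ H := fun hc => h3 (hHW hc)
      obtain ⟨-, h5, h6⟩ := key i h2 h3
      obtain ⟨-, h5', h6'⟩ := key j h2' h3'
      rw [h4] at h5 h6
      rw [h4', ← hij] at h6'
      have hr1 : r ∉ W := by
        rw [← h4]
        exact topv_notMem h3
      have hr2 : r ≤ i := by
        rw [← h4]
        exact topv_le par W i
      have hr3 : 1 ≤ posH par H r := (sa_pos h (by omega)).2 (fun hc => hr1 (hHW hc))
      refine sa_inj h (posH par H i - posH par H r) h2 h2' (by omega) (by omega) ?_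
      rw [h6, h6']
  rw [Nat.card_Ioo] at h1
  omega

end

structure SelAP (n K d ρ q : ℕ) (par : ℕ → ℕ) (H S U Zc : Finset ℕ) : Prop where
  S_sub : S ⊆ range n
  S_H : Disjoint S H
  S_card : (K + 1) * S.card ≤ n
  U_sub : U ⊆ range n
  U_card : U.card = d
  U_deg : ∀ u ∈ U, 1 ≤ u ∧ pdeg n par u = 2 ∧ u ∉ H ∧ u ∉ S
  par_inj : Set.InjOn par U
  P_card : (U.image par ∪ U.biUnion (chs n par)).card = 2 * d
  P_sub : U.image par ∪ U.biUnion (chs n par) ⊆ range n
  P_H : Disjoint (U.image par ∪ U.biUnion (chs n par)) H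
  P_U : Disjoint (U.image par ∪ U.biUnion (chs n par)) U
  P_S : Disjoint (U.image par ∪ U.biUnion (chs n par)) S
  P_items : items par (H ∪ (U.image par ∪ U.biUnion (chs n par))) =
    items par H ∪ (U.image par ∪ U.biUnion (chs n par)).image Sum.inl
  one : ∀ v < n, v ∉ H ∪ (U.image par ∪ U.biUnion (chs n par)) → v ∉ U → v ∉ S →
    (bnb n par (H ∪ (U.image par ∪ U.biUnion (chs n par))) v).card ≤ 1
  comps : ∀ r, (comp n par (H ∪ (U.image par ∪ U.biUnion (chs n par)) ∪ U ∪ S) r).card ≤ K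
  Zc_sub : Zc ⊆ range n \ (H ∪ (U.image par ∪ U.biUnion (chs n par)) ∪ U ∪ S)
  Zc_b : ∀ v ∈ Zc, bnb n par (H ∪ (U.image par ∪ U.biUnion (chs n par))) v = ∅ ∧
    (par v ∈ Zc ∨ par v ∈ S)
  Zc_c : ∀ v < n, 1 ≤ v → par v ∈ Zc → v ∈ Zc ∨ v ∈ S
  Zc_r : (K + 1) * (Zc.filter (fun v => par v ∈ S)).card ≤ n
  Zc_card : K * q ≤ (K + 1) * Zc.card + 2 * K * (K + 1) * ρ + (K + 1) * (5 * d + K)
  rest : (((range n \ (H ∪ (U.image par ∪ U.biUnion (chs n par)) ∪ U ∪ S)) \ Zc).filter
    (fun v => par v ∉ H)).card ≤ 5 * d + K + 2 * K * ρ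

theorem selA {n K k d ρ q : ℕ} {par : ℕ → ℕ} (hpar : IsPar n par) (hK : K = 5 * k) (hk : 1 ≤ k)
    {H : Finset ℕ} (h0 : 0 ∈ H) (hH : H ⊆ range n) (hclo : Clo n par H)
    (hdeg : ∀ v < n, v ∉ H → pdeg n par v ≤ 2)
    (hρ : ((range n).filter (fun v => v ∉ H ∧ par v ∈ H ∧ (chs n par v).Nonempty)).card ≤ ρ)
    (hq : q ≤ ((range n).filter (fun v => v ∉ H ∧ pdeg n par v = 2)).card)
    (hd : (K + 1) * (d + k) + 2 * k * (K + 1) * ρ ≤ k * q) :
    ∃ S U Zc : Finset ℕ, SelAP n K d ρ q par H S U Zc := by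
  have h : SaH n par H := ⟨hpar, h0, hH, hdeg⟩
  have hT : (saT n par H).card ≤ ρ := hρ
  have hB := sa_Bcard (K := K) h hT
  obtain ⟨b, hb⟩ : ∃ b, b = (saB n K par H).card := ⟨_, rfl⟩
  rw [← hb] at hB
  obtain ⟨m, hm⟩ : ∃ m, m = (d + k - 1) / k := ⟨_, rfl⟩
  have hm0 := Nat.div_add_mod (d + k - 1) k
  rw [← hm] at hm0
  have hm0' := Nat.mod_lt (d + k - 1) (show k > 0 by omega)
  have hm2 : k * m + 1 ≤ d + k := by omega
  have hm3 : d ≤ m * k := by
    rw [mul_comm]
    omega
  have hKm : K * m ≤ 5 * d + K := by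
    have e1 : K * m = 5 * (k * m) := by rw [hK]; ring
    omega
  have hm1 : m ≤ b := by
    have e1 : k * q ≤ k * ((K + 1) * b + 2 * (K + 1) * ρ) := Nat.mul_le_mul_left _ (hq.trans hB)
    have e2 : k * ((K + 1) * b + 2 * (K + 1) * ρ) = (K + 1) * (k * b) + 2 * k * (K + 1) * ρ := by
      ring
    have e3 : (K + 1) * (d + k) ≤ (K + 1) * (k * b) := by omega
    have e4 : d + k ≤ k * b := Nat.le_of_mul_le_mul_left e3 (by omega)
    have e5 : k * m < k * b := by omega
    exact (lt_of_mul_lt_mul_left e5 (Nat.zero_le _)).le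
  obtain ⟨Bu, hBu, hBuc⟩ := Finset.exists_subset_card_eq (s := saB n K par H) (n := m) (by omega)
  obtain ⟨UU, hUU, hUUc⟩ : ∃ UU ⊆ Bu ×ˢ range k, UU.card = d :=
    Finset.exists_subset_card_eq (by rw [card_product, card_range, hBuc]; exact hm3)
  obtain ⟨S, hS⟩ : ∃ S, S = saS n K par H := ⟨_, rfl⟩
  obtain ⟨U, hU⟩ : ∃ U : Finset ℕ, U = UU.image (fun p => par^[5 * p.2 + 3] p.1) := ⟨_, rfl⟩
  obtain ⟨P, hP⟩ : ∃ P : Finset ℕ, P = U.image par ∪ U.biUnion (chs n par) := ⟨_, rfl⟩
  obtain ⟨Zc, hZc⟩ : ∃ Zc : Finset ℕ, Zc = ((saB n K par H \ Bu) ×ˢ Icc 1 K).image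
    (fun p => par^[p.2] p.1) := ⟨_, rfl⟩
  have hUUp : ∀ s i, (s, i) ∈ UU → s ∈ saB n K par H ∧ s ∈ Bu ∧ 5 * i + 5 ≤ K := by
    intro s i hp
    have h1 := mem_product.1 (hUU hp)
    have h2 : s ∈ Bu := h1.1
    have h3 : i < k := mem_range.1 h1.2
    exact ⟨hBu h2, h2, by omega⟩
  have hUmem : ∀ u, u ∈ U ↔ ∃ s i, (s, i) ∈ UU ∧ par^[5 * i + 3] s = u := by
    intro u
    rw [hU, mem_image]
    constructor
    · rintro ⟨⟨s, i⟩, h1, h2⟩
      exact ⟨s, i, h1, h2⟩
    · rintro ⟨s, i, h1, h2⟩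
      exact ⟨(s, i), h1, h2⟩
  have hPmem : ∀ p, p ∈ P ↔ ∃ s i, (s, i) ∈ UU ∧ (p = par^[5 * i + 4] s ∨ p = par^[5 * i + 2] s) := by
    intro p
    rw [hP, mem_union, mem_image, mem_biUnion]
    constructor
    · rintro (⟨u, hu, h1⟩ | ⟨u, hu, h1⟩)
      · obtain ⟨s, i, h2, h3⟩ := (hUmem u).1 hu
        refine ⟨s, i, h2, Or.inl ?_⟩
        rw [← h1, ← h3, ← Function.iterate_succ_apply' par]
      · obtain ⟨s, i, h2, h3⟩ := (hUmem u).1 hu
        obtain ⟨h4, h5, h6⟩ := hUUp s i h2
        refine ⟨s, i, h2, Or.inr ?_⟩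
        rw [← h3, sa_chs h h4 (show 5 * i + 2 ≤ K by omega), mem_singleton] at h1
        exact h1
    · rintro ⟨s, i, h2, h3 | h3⟩
      · left
        refine ⟨par^[5 * i + 3] s, (hUmem _).2 ⟨s, i, h2, rfl⟩, ?_⟩
        rw [h3, ← Function.iterate_succ_apply' par]
      · right
        obtain ⟨h4, h5, h6⟩ := hUUp s i h2
        refine ⟨par^[5 * i + 3] s, (hUmem _).2 ⟨s, i, h2, rfl⟩, ?_⟩
        rw [h3, sa_chs h h4 (show 5 * i + 2 ≤ K by omega), mem_singleton]
  have hZmem : ∀ v, v ∈ Zc ↔ ∃ s j, s ∈ saB n K par H ∧ s ∉ Bu ∧ 1 ≤ j ∧ j ≤ K ∧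
      par^[j] s = v := by
    intro v
    rw [hZc, mem_image]
    constructor
    · rintro ⟨⟨s, j⟩, h1, h2⟩
      rw [mem_product, mem_sdiff, mem_Icc] at h1
      exact ⟨s, j, h1.1.1, h1.1.2, h1.2.1, h1.2.2, h2⟩
    · rintro ⟨s, j, h1, h2, h3, h4, h5⟩
      exact ⟨(s, j), mem_product.2 ⟨mem_sdiff.2 ⟨h1, h2⟩, mem_Icc.2 ⟨h3, h4⟩⟩, h5⟩
  have hinj : ∀ {s s' j j' : ℕ}, s ∈ saB n K par H → s' ∈ saB n K par H → j ≤ K → j' ≤ K →
      par^[j] s = par^[j'] s' → s = s' ∧ j = j' := fun h1 h2 h3 h4 h5 =>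
    sa_xinj h (sa_memB.1 h1).1 (sa_memB.1 h2).1 h3 h4 h5
  -- an element `par^[j] s` with `j ≤ K` is in `P` only if `j` is `2` or `4` mod `5`
  have hPj : ∀ {s j : ℕ}, s ∈ saB n K par H → j ≤ K → par^[j] s ∈ P →
      s ∈ Bu ∧ ∃ i, (s, i) ∈ UU ∧ (j = 5 * i + 4 ∨ j = 5 * i + 2) := by
    intro s j hs hj hp
    obtain ⟨s', i, h1, h2⟩ := (hPmem _).1 hp
    obtain ⟨h3, h4, h5⟩ := hUUp s' i h1
    rcases h2 with h2 | h2
    · obtain ⟨rfl, h6⟩ := hinj hs h3 hj (by omega) h2
      exact ⟨h4, i, h1, Or.inl h6⟩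
    · obtain ⟨rfl, h6⟩ := hinj hs h3 hj (by omega) h2
      exact ⟨h4, i, h1, Or.inr h6⟩
  have hPS : ∀ p ∈ P, p < n ∧ p ∉ H ∧ p ∉ S := by
    intro p hp
    obtain ⟨s, i, h1, h2⟩ := (hPmem _).1 hp
    obtain ⟨h3, h4, h5⟩ := hUUp s i h1
    rw [hS]
    rcases h2 with h2 | h2
    · rw [h2]
      obtain ⟨h6, h7, -, h8⟩ := sa_xB h h3 (show 5 * i + 4 ≤ K + 1 by omega)
      refine ⟨h6, h7, fun hc => ?_⟩
      have := h8.1 hc
      omega
    · rw [h2]
      obtain ⟨h6, h7, -, h8⟩ := sa_xB h h3 (show 5 * i + 2 ≤ K + 1 by omega)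
      refine ⟨h6, h7, fun hc => ?_⟩
      have := h8.1 hc
      omega
  have hUS : ∀ u ∈ U, u < n ∧ u ∉ H ∧ u ∉ S ∧ u ∉ P := by
    intro u hu
    obtain ⟨s, i, h1, h2⟩ := (hUmem _).1 hu
    obtain ⟨h3, h4, h5⟩ := hUUp s i h1
    obtain ⟨h6, h7, -, h8⟩ := sa_xB h h3 (show 5 * i + 3 ≤ K + 1 by omega)
    rw [hS, ← h2]
    refine ⟨h6, h7, fun hc => ?_, fun hc => ?_⟩
    · have := h8.1 hc
      omega
    · obtain ⟨-, i', -, h9⟩ := hPj h3 (by omega) hc
      omega
  have hZS : ∀ v ∈ Zc, v < n ∧ v ∉ H ∧ v ∉ P ∧ v ∉ U ∧ v ∉ S := by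
    intro v hv
    obtain ⟨s, j, h1, h2, h3, h4, h5⟩ := (hZmem _).1 hv
    obtain ⟨h6, h7, -, h8⟩ := sa_xB h h1 (show j ≤ K + 1 by omega)
    rw [← h5]
    refine ⟨h6, h7, fun hc => h2 (hPj h1 h4 hc).1, fun hc => ?_, fun hc => ?_⟩
    · obtain ⟨s', i, h9, h10⟩ := (hUmem _).1 hc
      obtain ⟨h11, h12, h13⟩ := hUUp s' i h9
      obtain ⟨rfl, -⟩ := hinj h11 h1 (by omega) h4 h10
      exact h2 h12
    · rw [hS] at hc
      have := h8.1 hc
      omega
  have hPc : P.card = 2 * d := by
    have e1 : P = UU.image (fun p => par^[5 * p.2 + 4] p.1) ∪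
        UU.image (fun p => par^[5 * p.2 + 2] p.1) := by
      ext p
      rw [hPmem, mem_union, mem_image, mem_image]
      constructor
      · rintro ⟨s, i, h1, h2 | h2⟩
        · exact Or.inl ⟨(s, i), h1, h2.symm⟩
        · exact Or.inr ⟨(s, i), h1, h2.symm⟩
      · rintro (⟨⟨s, i⟩, h1, h2⟩ | ⟨⟨s, i⟩, h1, h2⟩)
        · exact ⟨s, i, h1, Or.inl h2.symm⟩
        · exact ⟨s, i, h1, Or.inr h2.symm⟩
    rw [e1, card_union_of_disjoint, card_image_of_injOn, card_image_of_injOn, hUUc]
    · ring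
    · rintro ⟨s, i⟩ h1 ⟨s', i'⟩ h1' he
      obtain ⟨h2, -, h3⟩ := hUUp s i h1
      obtain ⟨h2', -, h3'⟩ := hUUp s' i' h1'
      obtain ⟨e2, e3⟩ := hinj h2 h2' (by omega) (by omega) he
      exact Prod.ext e2 (by simp only; omega)
    · rintro ⟨s, i⟩ h1 ⟨s', i'⟩ h1' he
      obtain ⟨h2, -, h3⟩ := hUUp s i h1
      obtain ⟨h2', -, h3'⟩ := hUUp s' i' h1'
      obtain ⟨e2, e3⟩ := hinj h2 h2' (by omega) (by omega) he
      exact Prod.ext e2 (by simp only; omega)
    · rw [disjoint_left]
      intro p h1 h2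
      rw [mem_image] at h1 h2
      obtain ⟨⟨s, i⟩, h3, rfl⟩ := h1
      obtain ⟨⟨s', i'⟩, h3', h4⟩ := h2
      obtain ⟨h5, -, h6⟩ := hUUp s i h3
      obtain ⟨h5', -, h6'⟩ := hUUp s' i' h3'
      obtain ⟨-, e3⟩ := hinj h5' h5 (by omega) (by omega) h4
      omega
  refine ⟨S, U, Zc, ?_⟩
  constructor
  · -- S_sub
    rw [hS]
    exact filter_subset _ _
  · -- S_H
    rw [disjoint_left]
    intro v hv
    rw [hS] at hv
    exact (sa_memS.1 hv).2.1
  · -- S_card
    rw [hS]
    exact sa_Scard h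
  · -- U_sub
    intro u hu
    exact mem_range.2 (hUS u hu).1
  · -- U_card
    rw [hU, card_image_of_injOn, hUUc]
    rintro ⟨s, i⟩ h1 ⟨s', i'⟩ h1' he
    obtain ⟨h2, -, h3⟩ := hUUp s i h1
    obtain ⟨h2', -, h3'⟩ := hUUp s' i' h1'
    obtain ⟨e2, e3⟩ := hinj h2 h2' (by omega) (by omega) he
    exact Prod.ext e2 (by simp only; omega)
  · -- U_deg
    intro u hu
    obtain ⟨h1, h2, h3, -⟩ := hUS u hu
    have h4 := (sa_one h h1 h2).1
    obtain ⟨s, i, h5, h6⟩ := (hUmem _).1 hu
    obtain ⟨h7, -, h8⟩ := hUUp s i h5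
    refine ⟨h4, ?_, h2, h3⟩
    unfold pdeg
    rw [if_neg (by omega), ← h6, sa_chs h h7 (show 5 * i + 2 ≤ K by omega), card_singleton]
  · -- par_inj
    intro u hu v hv he
    obtain ⟨s, i, h5, h6⟩ := (hUmem _).1 hu
    obtain ⟨s', i', h5', h6'⟩ := (hUmem _).1 hv
    obtain ⟨h7, -, h8⟩ := hUUp s i h5
    obtain ⟨h7', -, h8'⟩ := hUUp s' i' h5'
    rw [← h6, ← h6', ← Function.iterate_succ_apply' par, ← Function.iterate_succ_apply' par] at he
    obtain ⟨e1, e2⟩ := hinj h7 h7' (by omega) (by omega) he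
    rw [← h6, ← h6', e1, show i = i' by omega]
  · -- P_card
    rw [← hP]
    exact hPc
  · -- P_sub
    rw [← hP]
    intro p hp
    exact mem_range.2 (hPS p hp).1
  · -- P_H
    rw [← hP, disjoint_left]
    intro p hp
    exact (hPS p hp).2.1
  · -- P_U
    rw [← hP, disjoint_right]
    intro u hu
    exact (hUS u hu).2.2.2
  · -- P_S
    rw [← hP, disjoint_left]
    intro p hp
    exact (hPS p hp).2.2
  · -- P_items
    rw [← hP]
    ext x
    cases x with
    | inl i =>
      rw [mem_items_inl, mem_union, mem_union, mem_items_inl, mem_image]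
      simp
    | inr i =>
      rw [mem_items_inr, mem_union, mem_union, mem_union, mem_items_inr, mem_image]
      constructor
      · rintro ⟨h1, h2, h3⟩
        left
        rcases h1 with h1 | h1
        · refine ⟨h1, h2, ?_⟩
          rcases h3 with h3 | h3
          · exact h3
          · exfalso
            have h4 : i ∈ chs n par (par i) := mem_chs.2 ⟨mem_range.1 (hH h1), h2, rfl⟩
            obtain ⟨s, i', h5, h6⟩ := (hPmem _).1 h3
            obtain ⟨h7, -, h8⟩ := hUUp s i' h5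
            rcases h6 with h6 | h6
            · rw [h6, sa_chs h h7 (show 5 * i' + 3 ≤ K by omega), mem_singleton] at h4
              rw [h4] at h1
              exact (sa_xB h h7 (show 5 * i' + 3 ≤ K + 1 by omega)).2.1 h1
            · rw [h6, sa_chs h h7 (show 5 * i' + 1 ≤ K by omega), mem_singleton] at h4
              rw [h4] at h1
              exact (sa_xB h h7 (show 5 * i' + 1 ≤ K + 1 by omega)).2.1 h1
        · exfalso
          obtain ⟨s, i', h5, h6⟩ := (hPmem _).1 h1
          obtain ⟨h7, -, h8⟩ := hUUp s i' h5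
          rcases h6 with h6 | h6
          · rw [h6, ← Function.iterate_succ_apply' par] at h3
            rcases h3 with h3 | h3
            · exact (sa_xB h h7 (show (5 * i' + 4).succ ≤ K + 1 by omega)).2.1 h3
            · obtain ⟨-, i'', -, h9⟩ := hPj h7 (by omega) h3
              omega
          · rw [h6, ← Function.iterate_succ_apply' par] at h3
            rcases h3 with h3 | h3
            · exact (sa_xB h h7 (show (5 * i' + 2).succ ≤ K + 1 by omega)).2.1 h3
            · obtain ⟨-, i'', -, h9⟩ := hPj h7 (by omega) h3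
              omega
      · rintro (⟨h1, h2, h3⟩ | ⟨a, -, h1⟩)
        · exact ⟨Or.inl h1, h2, Or.inl h3⟩
        · exact absurd h1 (by simp)
  · -- one
    rw [← hP]
    intro v hvn hv hvU hvS
    rw [mem_union, not_or] at hv
    obtain ⟨hvH, hvP⟩ := hv
    -- if one neighbour is in `P` then it is the only neighbour in `H ∪ P`
    have key : ∀ b₁ ∈ bnb n par (H ∪ P) v, b₁ ∈ P → ∀ b₂ ∈ bnb n par (H ∪ P) v, b₂ = b₁ := by
      intro b₁ hb₁ hb₁P b₂ hb₂
      obtain ⟨s, i, h1, h2⟩ := (hPmem _).1 hb₁P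
      obtain ⟨h3, h4, h5⟩ := hUUp s i h1
      have h6 := (mem_bnb.1 hb₁).2
      -- `v` is a neighbour of `b₁`
      have hadj : v = par b₁ ∨ v ∈ chs n par b₁ := by
        rcases h6 with ⟨h6, h7, h8⟩ | ⟨h6, h7, h8⟩
        · exact Or.inr (mem_chs.2 ⟨h7, h6, h8⟩)
        · exact Or.inl h8.symm
      rcases h2 with h2 | h2
      · -- `b₁ = par^[5 i + 4] s`
        have hv2 : v = par^[5 * i + 4 + 1] s := by
          rcases hadj with hadj | hadj
          · rw [hadj, h2, ← Function.iterate_succ_apply' par]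
          · rw [h2, sa_chs h h3 (show 5 * i + 3 ≤ K by omega), mem_singleton] at hadj
            exact absurd ((hUmem _).2 ⟨s, i, h1, hadj.symm⟩) hvU
        rw [hv2] at hb₂
        obtain ⟨h7, h8⟩ := sa_nb h h3 (show 5 * i + 4 ≤ K by omega) hb₂
        rcases h8 with h8 | h8
        · exfalso
          have h9 := sa_xB h h3 (show 5 * i + 4 + 2 ≤ K + 1 by omega)
          rw [mem_union, h8] at h7
          rcases h7 with h7 | h7
          · exact h9.2.1 h7
          · by_cases h10 : 5 * i + 4 + 2 ≤ K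
            · obtain ⟨-, i'', -, h11⟩ := hPj h3 h10 h7
              omega
            · refine (hPS _ h7).2.2 ?_
              rw [hS]
              exact h9.2.2.2.2 (Or.inr (by omega))
        · rw [h8, h2]
      · -- `b₁ = par^[5 i + 2] s`
        have hv2 : v = par^[5 * i + 1] s := by
          rcases hadj with hadj | hadj
          · exfalso
            rw [h2, ← Function.iterate_succ_apply' par] at hadj
            exact hvU ((hUmem _).2 ⟨s, i, h1, hadj.symm⟩)
          · rw [h2, sa_chs h h3 (show 5 * i + 1 ≤ K by omega), mem_singleton] at hadj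
            exact hadj
        rw [hv2] at hb₂
        obtain ⟨h7, h8⟩ := sa_nb h h3 (show 5 * i ≤ K by omega) hb₂
        rcases h8 with h8 | h8
        · rw [h8, h2]
        · exfalso
          have h9 := sa_xB h h3 (show 5 * i ≤ K + 1 by omega)
          rw [mem_union, h8] at h7
          rcases h7 with h7 | h7
          · exact h9.2.1 h7
          · obtain ⟨-, i'', -, h11⟩ := hPj h3 (by omega) h7
            omega
    rw [Finset.card_le_one]
    intro b₁ hb₁ b₂ hb₂
    by_cases h1 : b₁ ∈ P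
    · exact (key b₁ hb₁ h1 b₂ hb₂).symm
    by_cases h2 : b₂ ∈ P
    · exact key b₂ hb₂ h2 b₁ hb₁
    have h3 : ∀ b' ∈ bnb n par (H ∪ P) v, b' ∉ P → b' ∈ bnb n par H v := by
      intro b' hb' hb'P
      rw [mem_bnb] at hb' ⊢
      refine ⟨?_, hb'.2⟩
      rcases mem_union.1 hb'.1 with h4 | h4
      · exact h4
      · exact absurd h4 hb'P
    exact Finset.card_le_one.1 (hclo v hvn hvH) b₁ (h3 _ hb₁ h1) b₂ (h3 _ hb₂ h2)
  · -- comps
    rw [← hP]
    intro r
    refine sa_comp h ?_ ?_ r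
    · intro x hx
      exact mem_union_left _ (mem_union_left _ (mem_union_left _ hx))
    · rw [hS]
      exact subset_union_right
  · -- Zc_sub
    rw [← hP]
    intro v hv
    obtain ⟨h1, h2, h3, h4, h5⟩ := hZS v hv
    rw [mem_sdiff, mem_range, mem_union, mem_union, mem_union]
    refine ⟨h1, ?_⟩
    rintro (((h6 | h6) | h6) | h6)
    · exact h2 h6
    · exact h3 h6
    · exact h4 h6
    · exact h5 h6
  · -- Zc_b
    rw [← hP]
    intro v hv
    obtain ⟨s, j, h1, h2, h3, h4, h5⟩ := (hZmem _).1 hv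
    obtain ⟨j, rfl⟩ : ∃ j', j = j' + 1 := ⟨j - 1, by omega⟩
    have hnotP : ∀ j' ≤ K + 1, par^[j'] s ∉ P := by
      intro j' hj' hc
      by_cases h6 : j' ≤ K
      · exact h2 (hPj h1 h6 hc).1
      · refine (hPS _ hc).2.2 ?_
        rw [hS]
        exact (sa_xB h h1 hj').2.2.2.2 (Or.inr (by omega))
    constructor
    · rw [eq_empty_iff_forall_notMem]
      intro b' hb'
      rw [← h5] at hb'
      obtain ⟨h6, h7⟩ := sa_nb h h1 (show j ≤ K by omega) hb'
      rw [mem_union] at h6
      rcases h7 with h7 | h7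
      · rw [h7] at h6
        rcases h6 with h6 | h6
        · exact (sa_xB h h1 (show j + 2 ≤ K + 1 by omega)).2.1 h6
        · exact hnotP _ (by omega) h6
      · rw [h7] at h6
        rcases h6 with h6 | h6
        · exact (sa_xB h h1 (show j ≤ K + 1 by omega)).2.1 h6
        · exact hnotP _ (by omega) h6
    · have h6 : par v = par^[j + 2] s := by
        rw [← h5, ← Function.iterate_succ_apply' par]
      by_cases h7 : j + 2 ≤ K
      · left
        exact (hZmem _).2 ⟨s, j + 2, h1, h2, by omega, h7, h6.symm⟩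
      · right
        rw [h6, hS]
        exact (sa_xB h h1 (show j + 2 ≤ K + 1 by omega)).2.2.2.2 (Or.inr (by omega))
  · -- Zc_c
    intro v hvn hv1 hv
    obtain ⟨s, j, h1, h2, h3, h4, h5⟩ := (hZmem _).1 hv
    obtain ⟨j, rfl⟩ : ∃ j', j = j' + 1 := ⟨j - 1, by omega⟩
    have h6 : v ∈ chs n par (par^[j + 1] s) := mem_chs.2 ⟨hvn, hv1, h5.symm⟩
    rw [sa_chs h h1 (show j ≤ K by omega), mem_singleton] at h6
    by_cases h7 : 1 ≤ j
    · left
      exact (hZmem _).2 ⟨s, j, h1, h2, h7, by omega, h6.symm⟩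
    · right
      rw [h6, hS]
      exact (sa_xB h h1 (show j ≤ K + 1 by omega)).2.2.2.2 (Or.inl (by omega))
  · -- Zc_r
    have h1 : (Zc.filter (fun v => par v ∈ S)).card ≤ (saS n K par H).card := by
      have h2 : Zc.filter (fun v => par v ∈ S) ⊆ (saS n K par H).image (fun s => par^[K] s) := by
        intro v hv
        rw [mem_filter] at hv
        obtain ⟨s, j, h1, h2, h3, h4, h5⟩ := (hZmem _).1 hv.1
        have h6 := hv.2
        rw [← h5, ← Function.iterate_succ_apply' par, hS] at h6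
        have h7 := (sa_xB h h1 (show j.succ ≤ K + 1 by omega)).2.2.2.1 h6
        have h8 : j = K := by omega
        rw [mem_image]
        refine ⟨s, (sa_memB.1 h1).1, ?_⟩
        rw [← h8]
        exact h5
      exact (card_le_card h2).trans card_image_le
    exact (Nat.mul_le_mul_left _ h1).trans (sa_Scard h)
  · -- Zc_card
    have h1 : Zc.card = K * (b - m) := by
      rw [hZc, card_image_of_injOn, card_product, Nat.card_Icc, card_sdiff_of_subset hBu, hBuc, ← hb]
      · rw [mul_comm]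
        congr 1
      · rintro ⟨s, j⟩ h1 ⟨s', j'⟩ h1' he
        rw [mem_coe, mem_product, mem_sdiff, mem_Icc] at h1 h1'
        obtain ⟨e1, e2⟩ := hinj h1.1.1 h1'.1.1 h1.2.2 h1'.2.2 he
        exact Prod.ext e1 e2
    have h2 : K * (b - m) + K * m = K * b := by
      rw [← mul_add, Nat.sub_add_cancel hm1]
    have h3 : K * q ≤ K * ((K + 1) * b + 2 * (K + 1) * ρ) := Nat.mul_le_mul_left _ (hq.trans hB)
    have h4 : K * ((K + 1) * b + 2 * (K + 1) * ρ) = (K + 1) * (K * b) + 2 * K * (K + 1) * ρ := by ring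
    have h5 : (K + 1) * (K * b) = (K + 1) * (K * (b - m)) + (K + 1) * (K * m) := by
      rw [← mul_add, h2]
    have h6 : (K + 1) * (K * m) ≤ (K + 1) * (5 * d + K) := Nat.mul_le_mul_left _ hKm
    rw [h1]
    omega
  · -- rest
    rw [← hP]
    obtain ⟨R, hR⟩ : ∃ R : Finset ℕ, R = ((range n \ (H ∪ P ∪ U ∪ S)) \ Zc).filter
      (fun v => par v ∉ H) := ⟨_, rfl⟩
    obtain ⟨I, hI⟩ : ∃ I : Finset ℕ, I = (Bu ×ˢ Icc 1 K).image (fun p => par^[p.2] p.1) := ⟨_, rfl⟩
    rw [← hR]
    have h1 : I.card ≤ 5 * d + K := by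
      rw [hI]
      refine card_image_le.trans ?_
      rw [card_product, Nat.card_Icc, hBuc, Nat.add_sub_cancel, mul_comm]
      exact hKm
    have h2 : (R \ I).card ≤ 2 * K * ρ := by
      refine sa_cnt (K := K) h hT (R \ I) (Icc 1 K) (by rw [Nat.card_Icc]; omega) ?_
      intro v hv
      rw [mem_sdiff, hR, mem_filter, mem_sdiff, mem_sdiff, mem_range, mem_union, mem_union,
        mem_union, not_or, not_or, not_or] at hv
      obtain ⟨⟨⟨⟨h3, ⟨⟨h4, -⟩, -⟩, h5⟩, h6⟩, h7⟩, h8⟩ := hv
      refine ⟨h3, h4, Or.inr h7, ?_, ?_⟩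
      · rw [mem_Icc]
        have e1 := Nat.mod_lt (posH par H v) (show K + 1 > 0 by omega)
        have e2 : posH par H v % (K + 1) ≠ 0 := by
          intro hc
          apply h5
          rw [hS]
          exact sa_memS.2 ⟨h3, h4, Nat.dvd_of_mod_eq_zero hc⟩
        omega
      · rintro ⟨s, hs, j, hj, he⟩
        have h9 : 1 ≤ j := by
          rcases Nat.eq_zero_or_pos j with h9 | h9
          · exfalso
            apply h5
            rw [← he, h9, hS]
            exact (sa_memB.1 hs).1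
          · exact h9
        by_cases h10 : s ∈ Bu
        · apply h8
          rw [hI, mem_image]
          exact ⟨(s, j), mem_product.2 ⟨h10, mem_Icc.2 ⟨h9, hj⟩⟩, he⟩
        · exact h6 ((hZmem _).2 ⟨s, j, hs, h10, h9, hj, he⟩)
    have h3 : R.card ≤ (R \ I).card + I.card := card_le_card_sdiff_add_card
    omega

end SSB
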