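import Pool.Agent.Lib.MP_8a819d_co.AT.Thin
import Pool.Agent.Lib.MP_8a819d_co.AT.Cnt

/-!
# MP_8a819d_co, trees with many non-leaves: selection of `H` and of the unit hosts (case B)

hosts `Ho = {u < n : some child of u is childless}`. `SelBP` : closed set `H ∋ 0` outside which the degrees are `≤ D`; closed subset
`M ⊆ H`; a list `hs i`, `i < L`, of different hosts outside `H` such that no child or grandchild of `hs i` is in `H`, and either (β) all their
parents are in `M`, or (α) no parent `par (hs i)`, no child and no grandchild of `par (hs i)` is in `H`, and the hosts have pairwise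
distance `> 3` outside `H`. `G₁` is a given small closed set that has to be contained in `M`.

PROOF of `selB`. `κ₁ = min (1/(16 D)) (θ ε/64)`. `X₀ = {v < n : D < pdeg v} ∪ {0} ∪ G₁`, `|X₀| ≤ 2 n/D + 1 + |G₁|` (`high_card`), `H₀` its closure
(`clo_exists`), `|H₀| ≤ 4 n/D + 2 + 2 |G₁| ≤ 5 n/D`. `Y = ⋃ j ≤ 3, H₀.image (par^[j])` (`Y ⊆ range n` as `par 0 = 0`), `|Y| ≤ 20 n/D`, `H₀ ⊆ Y`, `0 ∈ Y`.
Case β: at least `δ₂ n/2` hosts have their parent in `Y`. `H` = closure of `Y`, `|H| ≤ 40 n/D`. Candidates: these hosts, without those in `H`,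
those with a child in `H` (they are `par h`), those with a grandchild in `H` (`par (par h)`): at least `δ₂ n/2 - 3 |H| ≥ δ₂ n/4` if `D ≥ 480/δ₂`.
If some vertex outside `H` has even degree, let `v₀` be one and remove it from the candidates (`par u = v₀` is impossible, `par u ∈ Y ⊆ H`).
So `|Cand| ≥ δ₂ n/5`. For `y ∈ Y` let `w y` be the number of candidates with parent `y`. There is `J ⊆ Y` with `∑ y ∈ J, w y ≥ L` and
`|J| ≤ L |Y|/|Cand| + 1` (take the `j` elements with the largest `w`: their average is at least the average `|Cand|/|Y|`; `top_sum` below).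
`M` = closure of `J ∪ G₁`, `M ⊆ H` (`H` is closed and contains `J ∪ G₁`), `|M| ≤ 2 |J| + 2 |G₁| ≤ 200 L/(δ₂ D) + 2 + 2 κ₁ n ≤ θ ε N` for
`D ≥ D₁(δ₂, θ)` and large `n` (`L ≤ ε N + 1`). `hs` enumerates `L` of the candidates with parent in `J`.
Case α: at least `δ₂ n/2` hosts `u` have `par u ∉ Y`. `H = H₀`, `M = G₁`. For such `u`: `u ∉ H₀` (else `par u ∈ Y`), `par u ∉ H₀`; a child `c` or grandchild
`c'` of `u` in `H₀` would give `par (par c) = par u ∈ Y` resp. `par (par (par c')) ∈ Y`; a child `c` of `par u` in `H₀`: `par c = par u ∈ Y`; a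
grandchild: likewise. If some vertex outside `H` has even degree, let `v₀` be one and remove `v₀` and its at most `D` children. `thinO`: a
subset with pairwise distances `> 3` of size `≥ (δ₂ n/2 - D - 1)/(D+1)^3 ≥ L` if `ε ≤ δ₂/(16 (D+1)^3)` and `n` is large.
-/

set_option autoImplicit false

namespace SSB

open Finset

/-- the vertices with a childless child -/
def hosts (n : ℕ) (par : ℕ → ℕ) : Finset ℕ :=
  (range n).filter (fun u => ∃ c ∈ chs n par u, chs n par c = ∅)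

structure SelBP (n D L : ℕ) (par : ℕ → ℕ) (H M : Finset ℕ) (hs : ℕ → ℕ) : Prop where
  H0 : 0 ∈ H
  Hsub : H ⊆ range n
  Hclo : Clo n par H
  Hdeg : ∀ v < n, v ∉ H → pdeg n par v ≤ D
  Msub : M ⊆ H
  Mclo : Clo n par M
  inj : ∀ i < L, ∀ j < L, hs i = hs j → i = j
  lt : ∀ i < L, hs i < n
  nH : ∀ i < L, hs i ∉ H
  leaf : ∀ i < L, ∃ c ∈ chs n par (hs i), chs n par c = ∅
  noc : ∀ i < L, ∀ c ∈ chs n par (hs i), c ∉ H ∧ ∀ c' ∈ chs n par c, c' ∉ H
  alt : (∀ i < L, par (hs i) ∈ M) ∨ (∀ i < L, par (hs i) ∉ H ∧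
    (∀ c ∈ chs n par (par (hs i)), c ∉ H ∧ ∀ c' ∈ chs n par c, c' ∉ H) ∧
    ∀ j < L, j ≠ i → hs j ∉ nbO n par H (nbO n par H (nbO n par H {hs i})))

/-- a few elements with large weights -/
theorem top_sum (Y : Finset ℕ) (w : ℕ → ℕ) (j : ℕ) (hj : j ≤ Y.card) :
    ∃ J ⊆ Y, J.card = j ∧ j * ∑ y ∈ Y, w y ≤ Y.card * ∑ y ∈ J, w y := by
  have key : ∀ (m : ℕ) (Y : Finset ℕ), Y.card = j + m →
      ∃ J ⊆ Y, J.card = j ∧ j * ∑ y ∈ Y, w y ≤ Y.card * ∑ y ∈ J, w y := by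
    intro m
    induction m with
    | zero =>
      intro Y hY
      exact ⟨Y, Subset.refl _, hY, by rw [hY]; exact le_of_eq (by rw [add_zero])⟩
    | succ m ih =>
      intro Y hY
      have hne : Y.Nonempty := card_pos.1 (by omega)
      obtain ⟨y, hy, hmin⟩ := exists_min_image Y w hne
      have hc : (Y.erase y).card = j + m := by
        rw [card_erase_of_mem hy]
        omega
      obtain ⟨J, hJ, hJc, hJs⟩ := ih (Y.erase y) hc
      refine ⟨J, hJ.trans (erase_subset _ _), hJc, ?_⟩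
      have h1 : j * w y ≤ ∑ x ∈ J, w x := by
        have h2 : J.card • w y ≤ ∑ x ∈ J, w x :=
          card_nsmul_le_sum J w (w y) fun x hx => hmin x (erase_subset _ _ (hJ hx))
        rw [hJc, smul_eq_mul] at h2
        exact h2
      have h3 : ∑ x ∈ Y, w x = w y + ∑ x ∈ Y.erase y, w x := (add_sum_erase Y w hy).symm
      have h4 : Y.card = (Y.erase y).card + 1 := by omega
      rw [h3, h4, mul_add, add_mul, one_mul]
      omega
  exact key (Y.card - j) Y (by omega)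

private theorem selb_parlt {n : ℕ} {par : ℕ → ℕ} (hpar : IsPar n par) (hp0 : par 0 = 0) {v : ℕ}
    (hv : v < n) : par v < n := by
  rcases Nat.eq_zero_or_pos v with h | h
  · rw [h, hp0]
    omega
  · have := hpar v h hv
    omega

private theorem selb_img {n : ℕ} {par : ℕ → ℕ} (hpar : IsPar n par) (hp0 : par 0 = 0) {X : Finset ℕ}
    (hX : X ⊆ range n) : X.image par ⊆ range n := by
  intro v hv
  obtain ⟨u, hu, rfl⟩ := mem_image.1 hv
  exact mem_range.2 (selb_parlt hpar hp0 (mem_range.1 (hX hu)))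

private theorem selb_enum (C : Finset ℕ) (L : ℕ) (hL : L ≤ C.card) :
    ∃ hs : ℕ → ℕ, (∀ i < L, hs i ∈ C) ∧ ∀ i < L, ∀ j < L, hs i = hs j → i = j := by
  refine ⟨fun i => if h : i < C.card then C.orderEmbOfFin rfl ⟨i, h⟩ else 0, fun i hi => ?_,
    fun i hi j hj h => ?_⟩
  · have h1 : i < C.card := by omega
    show (if h : i < C.card then C.orderEmbOfFin rfl ⟨i, h⟩ else 0) ∈ C
    rw [dif_pos h1]
    exact orderEmbOfFin_mem C rfl _
  · have h1 : i < C.card := by omega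
    have h2 : j < C.card := by omega
    have h3 : (if h : i < C.card then C.orderEmbOfFin rfl ⟨i, h⟩ else 0) =
      if h : j < C.card then C.orderEmbOfFin rfl ⟨j, h⟩ else 0 := h
    rw [dif_pos h1, dif_pos h2] at h3
    have h4 := (C.orderEmbOfFin rfl).injective h3
    exact congrArg Fin.val h4

private theorem selb_par {n D : ℕ} {par : ℕ → ℕ} {H : Finset ℕ}
    (hdeg : ∀ v < n, v ∉ H → pdeg n par v ≤ D) (C : Finset ℕ) (hC : ∀ u ∈ C, u < n ∧ 1 ≤ u) :
    ∃ C' ⊆ C, C.card ≤ C'.card + (D + 1) ∧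
      ((∀ v < n, v ∉ H → pdeg n par v % 2 = 1) ∨
        ∃ v₀ < n, v₀ ∉ H ∧ pdeg n par v₀ % 2 = 0 ∧ ∀ u ∈ C', u ≠ v₀ ∧ par u ≠ v₀) := by
  by_cases h : ∃ v₀ < n, v₀ ∉ H ∧ pdeg n par v₀ % 2 = 0
  · obtain ⟨v₀, h1, h2, h3⟩ := h
    refine ⟨C \ insert v₀ (chs n par v₀), sdiff_subset, ?_, Or.inr ⟨v₀, h1, h2, h3, ?_⟩⟩
    · have e1 : C.card ≤ (C \ insert v₀ (chs n par v₀)).card + (insert v₀ (chs n par v₀)).card := by
        have := card_le_card (show C ⊆ (C \ insert v₀ (chs n par v₀)) ∪ insert v₀ (chs n par v₀) from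
          fun x hx => by
            by_cases hx' : x ∈ insert v₀ (chs n par v₀)
            · exact mem_union_right _ hx'
            · exact mem_union_left _ (mem_sdiff.2 ⟨hx, hx'⟩))
        exact this.trans (card_union_le _ _)
      have e2 : (insert v₀ (chs n par v₀)).card ≤ D + 1 := by
        have e3 := card_insert_le v₀ (chs n par v₀)
        have e4 := hdeg v₀ h1 h2
        unfold pdeg at e4
        omega
      omega
    · intro u hu
      rw [mem_sdiff, mem_insert, not_or] at hu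
      exact ⟨hu.2.1, fun e => hu.2.2 (mem_chs.2 ⟨(hC u hu.1).1, (hC u hu.1).2, e⟩)⟩
  · refine ⟨C, Subset.refl _, by omega, Or.inl fun v h1 h2 => ?_⟩
    have h3 : pdeg n par v % 2 ≠ 0 := fun h4 => h ⟨v, h1, h2, h4⟩
    omega

private theorem selb_alpha {n D L : ℕ} {par : ℕ → ℕ} (hpar : IsPar n par)
    {H G₁ : Finset ℕ} (h0 : 0 ∈ H) (hsub : H ⊆ range n) (hclo : Clo n par H)
    (hdeg : ∀ v < n, v ∉ H → pdeg n par v ≤ D) (hG : G₁ ⊆ H) (hGc : Clo n par G₁) (Y : Finset ℕ)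
    (hY : ∀ v ∈ H, v ∈ Y ∧ par v ∈ Y ∧ par (par v) ∈ Y ∧ par (par (par v)) ∈ Y)
    (hL : (D + 1) ^ 3 * L + (D + 1) ≤ ((hosts n par).filter (fun u => par u ∉ Y)).card) :
    ∃ hs : ℕ → ℕ, SelBP n D L par H G₁ hs ∧ ((∀ v < n, v ∉ H → pdeg n par v % 2 = 1) ∨
      ∃ v₀ < n, v₀ ∉ H ∧ pdeg n par v₀ % 2 = 0 ∧ ∀ i < L, hs i ≠ v₀ ∧ par (hs i) ≠ v₀) := by
  have hC : ∀ u ∈ (hosts n par).filter (fun u => par u ∉ Y), u < n ∧ 1 ≤ u ∧ u ∉ H ∧ par u ∉ Y ∧
      ∃ c ∈ chs n par u, chs n par c = ∅ := by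
    intro u hu
    rw [mem_filter, hosts, mem_filter, mem_range] at hu
    have h1 : u ∉ H := fun h => hu.2 (hY u h).2.1
    refine ⟨hu.1.1, ?_, h1, hu.2, hu.1.2⟩
    rcases Nat.eq_zero_or_pos u with h | h
    · rw [h] at h1
      exact absurd h0 h1
    · exact h
  obtain ⟨C', hC', hcard, hpr⟩ := selb_par hdeg _ fun u hu => ⟨(hC u hu).1, (hC u hu).2.1⟩
  obtain ⟨V, hV, hVc, hVd⟩ := thinO hpar hdeg C' (fun u hu => mem_range.2 (hC u (hC' hu)).1)
    (disjoint_left.2 fun u hu hu' => (hC u (hC' hu)).2.2.1 hu')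
  have hLV : L ≤ V.card := by
    have h1 : (D + 1) ^ 3 * L ≤ (D + 1) ^ 3 * V.card := by omega
    exact Nat.le_of_mul_le_mul_left h1 (by positivity)
  obtain ⟨hs, hs1, hs2⟩ := selb_enum V L hLV
  have hs3 : ∀ i < L, hs i < n ∧ 1 ≤ hs i ∧ hs i ∉ H ∧ par (hs i) ∉ Y ∧
      ∃ c ∈ chs n par (hs i), chs n par c = ∅ := fun i hi => hC _ (hC' (hV (hs1 i hi)))
  refine ⟨hs, ⟨h0, hsub, hclo, hdeg, hG, hGc, hs2, fun i hi => (hs3 i hi).1,
    fun i hi => (hs3 i hi).2.2.1, fun i hi => (hs3 i hi).2.2.2.2, fun i hi c hc => ?_, Or.inr fun i hi => ?_⟩, ?_⟩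
  · have hY' := (hs3 i hi).2.2.2.1
    have hc' := (mem_chs.1 hc).2.2
    refine ⟨fun h => hY' ?_, fun c' hc1 h => hY' ?_⟩
    · rw [← hc']
      exact (hY c h).2.2.1
    · rw [← hc', ← (mem_chs.1 hc1).2.2]
      exact (hY c' h).2.2.2
  · have hY' := (hs3 i hi).2.2.2.1
    refine ⟨fun h => hY' (hY _ h).1, fun c hc => ⟨fun h => hY' ?_, fun c' hc1 h => hY' ?_⟩, fun j hj hji => ?_⟩
    · rw [← (mem_chs.1 hc).2.2]
      exact (hY c h).2.1
    · rw [← (mem_chs.1 hc).2.2, ← (mem_chs.1 hc1).2.2]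
      exact (hY c' h).2.2.1
    · exact hVd _ (hs1 i hi) _ (hs1 j hj) fun h => hji (hs2 j hj i hi h.symm)
  · rcases hpr with h | ⟨v₀, h1, h2, h3, h4⟩
    · exact Or.inl h
    · exact Or.inr ⟨v₀, h1, h2, h3, fun i hi => h4 _ (hV (hs1 i hi))⟩

private theorem selb_beta {n D L : ℕ} {par : ℕ → ℕ} (hpar : IsPar n par)
    {H Y G₁ : Finset ℕ} (h0 : 0 ∈ H) (hsub : H ⊆ range n) (hclo : Clo n par H)
    (hdeg : ∀ v < n, v ∉ H → pdeg n par v ≤ D) (hG : G₁ ⊆ H) (hY : Y ⊆ H) (hY0 : 0 ∈ Y) (C : ℕ)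
    (hC : C + 3 * H.card + (D + 1) ≤ ((hosts n par).filter (fun u => par u ∈ Y)).card) (hLC : L < C) :
    ∃ (M : Finset ℕ) (hs : ℕ → ℕ), SelBP n D L par H M hs ∧ G₁ ⊆ M ∧
      M.card ≤ 2 * (L * Y.card / C + 1) + 2 * G₁.card ∧ ((∀ v < n, v ∉ H → pdeg n par v % 2 = 1) ∨
      ∃ v₀ < n, v₀ ∉ H ∧ pdeg n par v₀ % 2 = 0 ∧ ∀ i < L, hs i ≠ v₀ ∧ par (hs i) ≠ v₀) := by
  -- the candidates
  set C₁ := (hosts n par).filter (fun u => par u ∈ Y) with hC₁
  set R := H ∪ (H.image par ∪ (H.image par).image par) with hR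
  have hRc : R.card ≤ 3 * H.card := by
    have e1 := card_union_le H (H.image par ∪ (H.image par).image par)
    have e2 := card_union_le (H.image par) ((H.image par).image par)
    have e3 : (H.image par).card ≤ H.card := card_image_le
    have e4 : ((H.image par).image par).card ≤ (H.image par).card := card_image_le
    rw [← hR] at e1
    omega
  have hC₂c : C₁.card ≤ (C₁ \ R).card + R.card := by
    have := card_le_card (show C₁ ⊆ (C₁ \ R) ∪ R from fun x hx => by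
      by_cases hx' : x ∈ R
      · exact mem_union_right _ hx'
      · exact mem_union_left _ (mem_sdiff.2 ⟨hx, hx'⟩))
    exact this.trans (card_union_le _ _)
  have hC₂ : ∀ u ∈ C₁ \ R, u < n ∧ 1 ≤ u ∧ u ∉ H ∧ par u ∈ Y ∧
      (∃ c ∈ chs n par u, chs n par c = ∅) ∧ u ∉ R := by
    intro u hu
    rw [mem_sdiff, hC₁, mem_filter, hosts, mem_filter, mem_range] at hu
    have h1 : u ∉ H := fun h => hu.2 (mem_union_left _ h)
    refine ⟨hu.1.1.1, ?_, h1, hu.1.2, hu.1.1.2, hu.2⟩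
    rcases Nat.eq_zero_or_pos u with h | h
    · rw [h] at h1
      exact absurd h0 h1
    · exact h
  obtain ⟨C₃, hC₃, hC₃c, hpr⟩ := selb_par hdeg _ fun u hu => ⟨(hC₂ u hu).1, (hC₂ u hu).2.1⟩
  have hCC : C ≤ C₃.card := by omega
  -- the weights
  have hsum : ∀ J : Finset ℕ, ∑ y ∈ J, (C₃.filter (fun u => par u = y)).card =
      (C₃.filter (fun u => par u ∈ J)).card := by
    intro J
    rw [card_eq_sum_card_fiberwise (f := par) (t := J) (s := C₃.filter (fun u => par u ∈ J))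
      (fun u hu => (mem_filter.1 hu).2)]
    refine sum_congr rfl fun y hy => ?_
    rw [filter_filter]
    refine congrArg card (filter_congr fun u _ => ?_)
    exact ⟨fun h => ⟨by rw [h]; exact hy, h⟩, fun h => h.2⟩
  have hsumY : ∑ y ∈ Y, (C₃.filter (fun u => par u = y)).card = C₃.card := by
    rw [hsum, filter_true_of_mem fun u hu => (hC₂ u (hC₃ hu)).2.2.2.1]
  have hYp : 0 < Y.card := card_pos.2 ⟨0, hY0⟩
  have hCp : 0 < C := by omega
  have hj : L * Y.card / C + 1 ≤ Y.card := by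
    have : L * Y.card / C < Y.card := Nat.div_lt_of_lt_mul (Nat.mul_lt_mul_of_pos_right hLC hYp)
    omega
  obtain ⟨J, hJY, hJc, hJs⟩ := top_sum Y (fun y => (C₃.filter (fun u => par u = y)).card) _ hj
  rw [hsumY, hsum] at hJs
  have hLJ : L ≤ (C₃.filter (fun u => par u ∈ J)).card := by
    have h1 : L * Y.card < C * (L * Y.card / C + 1) := Nat.lt_mul_div_succ _ hCp
    have h2 : C * (L * Y.card / C + 1) ≤ C₃.card * (L * Y.card / C + 1) := Nat.mul_le_mul_right _ hCC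
    have h3 : L * Y.card < (C₃.filter (fun u => par u ∈ J)).card * Y.card := by
      rw [mul_comm (C₃.filter (fun u => par u ∈ J)).card]
      refine lt_of_lt_of_le h1 (h2.trans ?_)
      rw [mul_comm C₃.card]
      exact hJs
    exact (Nat.lt_of_mul_lt_mul_right h3).le
  obtain ⟨hs, hs1, hs2⟩ := selb_enum _ L hLJ
  obtain ⟨M, hM1, hM2, hM3, hM4, hM5⟩ := clo_exists hpar (J ∪ G₁)
    (union_subset (hJY.trans (hY.trans hsub)) (hG.trans hsub))
  have hs3 : ∀ i < L, hs i ∈ C₃ ∧ par (hs i) ∈ J := fun i hi => mem_filter.1 (hs1 i hi)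
  have hs4 := fun i (hi : i < L) => hC₂ _ (hC₃ (hs3 i hi).1)
  refine ⟨M, hs, ⟨h0, hsub, hclo, hdeg, hM5 H (union_subset (hJY.trans hY) hG) hclo, hM3, hs2,
    fun i hi => (hs4 i hi).1, fun i hi => (hs4 i hi).2.2.1, fun i hi => (hs4 i hi).2.2.2.2.1,
    fun i hi c hc => ?_, Or.inl fun i hi => hM1 (mem_union_left _ (hs3 i hi).2)⟩,
    subset_union_right.trans hM1, ?_, ?_⟩
  · have hR' := (hs4 i hi).2.2.2.2.2
    have hc' := (mem_chs.1 hc).2.2
    refine ⟨fun h => hR' ?_, fun c' hc1 h => hR' ?_⟩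
    · refine mem_union_right _ (mem_union_left _ ?_)
      rw [← hc']
      exact mem_image_of_mem par h
    · refine mem_union_right _ (mem_union_right _ ?_)
      rw [← hc', ← (mem_chs.1 hc1).2.2]
      exact mem_image_of_mem par (mem_image_of_mem par h)
  · have h1 := card_union_le J G₁
    omega
  · rcases hpr with h | ⟨v₀, h1, h2, h3, h4⟩
    · exact Or.inl h
    · refine Or.inr ⟨v₀, h1, h2, h3, fun i hi => ⟨(h4 _ (hs3 i hi).1).1, (h4 _ (hs3 i hi).1).2⟩⟩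

theorem selB (δ₂ θ : ℝ) (hδ : 0 < δ₂) (hθ : 0 < θ) : ∃ D₁ : ℕ, ∀ D : ℕ, D₁ ≤ D →
    ∃ ε₁ : ℝ, 0 < ε₁ ∧ ∀ ε : ℝ, 0 < ε → ε ≤ ε₁ → ∃ κ₁ : ℝ, 0 < κ₁ ∧ ∃ n₀ : ℕ, ∀ n : ℕ, n₀ ≤ n →
      ∀ (N L : ℕ), N = 2 * n - 1 → L = ⌈ε * N⌉₊ → ∀ par : ℕ → ℕ, IsPar n par → par 0 = 0 →
      δ₂ * n ≤ ((hosts n par).card : ℝ) →
      ∀ G₁ : Finset ℕ, G₁ ⊆ range n → Clo n par G₁ → (G₁.card : ℝ) ≤ κ₁ * n →
      ∃ (H M : Finset ℕ) (hs : ℕ → ℕ), SelBP n D L par H M hs ∧ G₁ ⊆ M ∧
        (H.card : ℝ) ≤ 50 * n / D ∧ (M.card : ℝ) ≤ θ * ε * N ∧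
        ((∀ v < n, v ∉ H → pdeg n par v % 2 = 1) ∨
          ∃ v₀ < n, v₀ ∉ H ∧ pdeg n par v₀ % 2 = 0 ∧ ∀ i < L, hs i ≠ v₀ ∧ par (hs i) ≠ v₀) := by
  refine ⟨⌈480 / δ₂⌉₊ + ⌈800 / (δ₂ * θ)⌉₊ + 1, fun D hD => ?_⟩
  have hD1 : 1 ≤ D := by omega
  have hDp : (1 : ℝ) ≤ D := by exact_mod_cast hD1
  have hDa : 480 ≤ δ₂ * D := by
    have h1 : 480 / δ₂ ≤ (D : ℝ) := (Nat.le_ceil _).trans (by exact_mod_cast (by omega : ⌈480 / δ₂⌉₊ ≤ D))
    rw [div_le_iff₀ hδ] at h1
    linarith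
  have hDb : 800 ≤ δ₂ * θ * D := by
    have h1 : 800 / (δ₂ * θ) ≤ (D : ℝ) :=
      (Nat.le_ceil _).trans (by exact_mod_cast (by omega : ⌈800 / (δ₂ * θ)⌉₊ ≤ D))
    rw [div_le_iff₀ (by positivity)] at h1
    linarith
  refine ⟨δ₂ / (16 * (D + 1) ^ 3), by positivity, fun ε hε hε1 => ?_⟩
  refine ⟨min (1 / (16 * D)) (θ * ε / 64), lt_min (by positivity) (by positivity), ?_⟩
  refine ⟨3 * D + ⌈20 * ((D : ℝ) + 2) / δ₂⌉₊ + ⌈8 * (((D : ℝ) + 1) ^ 3 + (D + 1)) / δ₂⌉₊ +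
    ⌈(θ + 8) / (θ * ε)⌉₊ + 1, fun n hn N L hN hL par hpar hp0 hho G₁ hG hGc hGk => ?_⟩
  have hn1 : 1 ≤ n := by omega
  have hnr : (1 : ℝ) ≤ n := by exact_mod_cast hn1
  have hn3 : 3 * (D : ℝ) ≤ n := by exact_mod_cast (by omega : 3 * D ≤ n)
  have hn4 : 20 * ((D : ℝ) + 2) ≤ δ₂ * n := by
    have h1 : 20 * ((D : ℝ) + 2) / δ₂ ≤ (n : ℝ) :=
      (Nat.le_ceil _).trans (by exact_mod_cast (by omega : ⌈20 * ((D : ℝ) + 2) / δ₂⌉₊ ≤ n))
    rw [div_le_iff₀ hδ] at h1
    linarith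
  have hn5 : 8 * (((D : ℝ) + 1) ^ 3 + (D + 1)) ≤ δ₂ * n := by
    have h1 : 8 * (((D : ℝ) + 1) ^ 3 + (D + 1)) / δ₂ ≤ (n : ℝ) :=
      (Nat.le_ceil _).trans (by exact_mod_cast (by omega : ⌈8 * (((D : ℝ) + 1) ^ 3 + (D + 1)) / δ₂⌉₊ ≤ n))
    rw [div_le_iff₀ hδ] at h1
    linarith
  have hn6 : θ + 8 ≤ θ * ε * n := by
    have h1 : (θ + 8) / (θ * ε) ≤ (n : ℝ) :=
      (Nat.le_ceil _).trans (by exact_mod_cast (by omega : ⌈(θ + 8) / (θ * ε)⌉₊ ≤ n))
    rw [div_le_iff₀ (by positivity)] at h1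
    linarith
  have hNr : (N : ℝ) = 2 * n - 1 := by
    have h1 : N + 1 = 2 * n := by omega
    have h2 : (N : ℝ) + 1 = 2 * n := by exact_mod_cast h1
    linarith
  have hLr : (L : ℝ) ≤ ε * N + 1 := by
    rw [hL]
    exact (Nat.ceil_lt_add_one (by positivity)).le
  have hG1 : (G₁.card : ℝ) ≤ n / (16 * D) := by
    refine hGk.trans ((mul_le_mul_of_nonneg_right (min_le_left _ _) (by positivity)).trans (le_of_eq ?_))
    ring
  have hG2 : (G₁.card : ℝ) ≤ θ * ε * n / 64 := by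
    refine hGk.trans ((mul_le_mul_of_nonneg_right (min_le_right _ _) (by positivity)).trans (le_of_eq ?_))
    ring
  have hNn : (n : ℝ) ≤ N := by linarith
  have hθN : θ * ε * n ≤ θ * ε * N := mul_le_mul_of_nonneg_left hNn (by positivity)
  have hεn : 0 < ε * n := by positivity
  -- the closed set `H₀`
  set hi := (range n).filter (fun v => D ≤ pdeg n par v) with hhi
  have hX₀ : insert 0 (hi ∪ G₁) ⊆ range n :=
    insert_subset (mem_range.2 hn1) (union_subset (filter_subset _ _) hG)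
  obtain ⟨H₀, hH1, hH2, hH3, hH4, -⟩ := clo_exists hpar (insert 0 (hi ∪ G₁)) hX₀
  have hH0 : 0 ∈ H₀ := hH1 (mem_insert_self _ _)
  have hHG : G₁ ⊆ H₀ := fun x hx => hH1 (mem_insert_of_mem (mem_union_right _ hx))
  have hHd : ∀ v < n, v ∉ H₀ → pdeg n par v ≤ D := by
    intro v hv hvH
    by_contra hlt
    exact hvH (hH1 (mem_insert_of_mem (mem_union_left _
      (mem_filter.2 ⟨mem_range.2 hv, by omega⟩))))
  have hHc : (H₀.card : ℝ) ≤ 5 * (n / D) := by
    have e1 := high_card (D := D) hpar hn1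
    rw [← hhi] at e1
    have e2 := card_insert_le 0 (hi ∪ G₁)
    have e3 := card_union_le hi G₁
    have e4 : H₀.card ≤ 2 * hi.card + 2 + 2 * G₁.card := by omega
    have e5 : (H₀.card : ℝ) ≤ 2 * hi.card + 2 + 2 * G₁.card := by exact_mod_cast e4
    have e6 : (D : ℝ) * hi.card ≤ 2 * n := by exact_mod_cast e1
    have e7 : (hi.card : ℝ) ≤ 2 * (n / D) := by
      rw [← mul_div_assoc, le_div_iff₀ (by linarith)]
      linarith
    have e8 : (n : ℝ) / (16 * D) = (n / D) / 16 := by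
      rw [mul_comm, div_mul_eq_div_div]
    have e9 : (3 : ℝ) ≤ n / D := by
      rw [le_div_iff₀ (by linarith)]
      exact hn3
    rw [e8] at hG1
    linarith
  have hnD : (0 : ℝ) ≤ n / D := by positivity
  -- the set `Y`
  set Y := H₀ ∪ (H₀.image par ∪ ((H₀.image par).image par ∪ ((H₀.image par).image par).image par)) with hY
  have hYm : ∀ v ∈ H₀, v ∈ Y ∧ par v ∈ Y ∧ par (par v) ∈ Y ∧ par (par (par v)) ∈ Y := by
    intro v hv
    have h1 : par v ∈ H₀.image par := mem_image_of_mem par hv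
    have h2 : par (par v) ∈ (H₀.image par).image par := mem_image_of_mem par h1
    have h3 : par (par (par v)) ∈ ((H₀.image par).image par).image par := mem_image_of_mem par h2
    exact ⟨mem_union_left _ hv, mem_union_right _ (mem_union_left _ h1),
      mem_union_right _ (mem_union_right _ (mem_union_left _ h2)),
      mem_union_right _ (mem_union_right _ (mem_union_right _ h3))⟩
  have hYr : Y ⊆ range n := by
    have h1 := selb_img hpar hp0 hH2
    have h2 := selb_img hpar hp0 h1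
    have h3 := selb_img hpar hp0 h2
    exact union_subset hH2 (union_subset h1 (union_subset h2 h3))
  have hYc : Y.card ≤ 4 * H₀.card := by
    have e1 : (H₀.image par).card ≤ H₀.card := card_image_le
    have e2 : ((H₀.image par).image par).card ≤ (H₀.image par).card := card_image_le
    have e3 : (((H₀.image par).image par).image par).card ≤ ((H₀.image par).image par).card :=
      card_image_le
    have e4 := card_union_le H₀
      (H₀.image par ∪ ((H₀.image par).image par ∪ ((H₀.image par).image par).image par))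
    have e5 := card_union_le (H₀.image par) ((H₀.image par).image par ∪ ((H₀.image par).image par).image par)
    have e6 := card_union_le ((H₀.image par).image par) (((H₀.image par).image par).image par)
    rw [← hY] at e4
    omega
  have hYcr : (Y.card : ℝ) ≤ 20 * (n / D) := by
    have : (Y.card : ℝ) ≤ 4 * H₀.card := by exact_mod_cast hYc
    linarith
  have hY0 : 0 ∈ Y := (hYm 0 hH0).1
  have hsplit := card_filter_add_card_filter_not (s := hosts n par) (fun u => par u ∈ Y)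
  have hsplit' : ((((hosts n par).filter (fun u => par u ∈ Y)).card : ℕ) : ℝ) +
      ((((hosts n par).filter (fun u => par u ∉ Y)).card : ℕ) : ℝ) = ((hosts n par).card : ℝ) := by
    exact_mod_cast hsplit
  by_cases hcase : δ₂ * n / 2 ≤ (((hosts n par).filter (fun u => par u ∈ Y)).card : ℝ)
  · -- case β
    obtain ⟨H, hK1, hK2, hK3, hK4, -⟩ := clo_exists hpar Y hYr
    have hKc : (H.card : ℝ) ≤ 40 * (n / D) := by
      have : (H.card : ℝ) ≤ 2 * Y.card := by exact_mod_cast hK4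
      linarith
    have hH₀H : H₀ ⊆ H := fun v hv => hK1 (hYm v hv).1
    have hδn : 120 * ((n : ℝ) / D) ≤ δ₂ * n / 4 := by
      have h1 : 480 * ((n : ℝ) / D) ≤ δ₂ * n := by
        rw [← mul_div_assoc, div_le_iff₀ (by linarith)]
        have := mul_le_mul_of_nonneg_right hDa (by linarith : (0 : ℝ) ≤ n)
        linarith
      linarith
    have hCr : ((⌈δ₂ * n / 5⌉₊ : ℕ) : ℝ) < δ₂ * n / 5 + 1 := Nat.ceil_lt_add_one (by positivity)
    have hCl : δ₂ * n / 5 ≤ ((⌈δ₂ * n / 5⌉₊ : ℕ) : ℝ) := Nat.le_ceil _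
    have hε2 : ε * 16 ≤ δ₂ := by
      have h1 : δ₂ / (16 * ((D : ℝ) + 1) ^ 3) ≤ δ₂ / 16 := by
        refine div_le_div_of_nonneg_left hδ.le (by norm_num) ?_
        have : (1 : ℝ) ≤ ((D : ℝ) + 1) ^ 3 := one_le_pow₀ (by linarith)
        linarith
      linarith
    have hεn2 : ε * n * 16 ≤ δ₂ * n := by
      have := mul_le_mul_of_nonneg_right hε2 (by linarith : (0 : ℝ) ≤ n)
      linarith
    have hεN : ε * N = 2 * (ε * n) - ε := by
      rw [hNr]
      ring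
    obtain ⟨M, hs, hS, hGM, hMc, hpr⟩ := selb_beta (L := L) (D := D) hpar (hH₀H hH0) hK2 hK3
      (fun v hv hvH => hHd v hv fun h => hvH (hH₀H h)) (hHG.trans hH₀H) hK1 hY0 ⌈δ₂ * n / 5⌉₊ (by
        have h1 : ((⌈δ₂ * n / 5⌉₊ : ℕ) : ℝ) + 3 * H.card + ((D : ℝ) + 1) ≤
            (((hosts n par).filter (fun u => par u ∈ Y)).card : ℝ) := by
          linarith
        exact_mod_cast h1) (by
        have h1 : (L : ℝ) < ((⌈δ₂ * n / 5⌉₊ : ℕ) : ℝ) := by
          linarith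
        exact_mod_cast h1)
    refine ⟨H, M, hs, hS, hGM, ?_, ?_, hpr⟩
    · rw [mul_div_assoc]
      linarith
    · have hMr : (M.card : ℝ) ≤ 2 * (((L * Y.card / ⌈δ₂ * n / 5⌉₊ : ℕ) : ℝ) + 1) + 2 * G₁.card := by
        exact_mod_cast hMc
      have hdiv : ((L * Y.card / ⌈δ₂ * n / 5⌉₊ : ℕ) : ℝ) ≤ (L : ℝ) * (θ / 8) := by
        refine Nat.cast_div_le.trans ?_
        rw [Nat.cast_mul, div_le_iff₀ (lt_of_lt_of_le (by positivity) hCl), mul_assoc]
        refine mul_le_mul_of_nonneg_left ?_ (Nat.cast_nonneg _)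
        have h1 : 800 * ((n : ℝ) / D) ≤ δ₂ * θ * n := by
          rw [← mul_div_assoc, div_le_iff₀ (by linarith)]
          have := mul_le_mul_of_nonneg_right hDb (by linarith : (0 : ℝ) ≤ n)
          linarith
        have h2 : θ / 8 * (δ₂ * n / 5) ≤ θ / 8 * ((⌈δ₂ * n / 5⌉₊ : ℕ) : ℝ) :=
          mul_le_mul_of_nonneg_left hCl (by positivity)
        have h3 : θ / 8 * (δ₂ * n / 5) = δ₂ * θ * n / 40 := by ring
        linarith
      have h4 : (L : ℝ) * (θ / 8) ≤ (ε * N + 1) * (θ / 8) :=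
        mul_le_mul_of_nonneg_right hLr (by positivity)
      have h5 : (ε * N + 1) * (θ / 8) = θ * ε * N / 8 + θ / 8 := by ring
      linarith
  · -- case α
    have hcase' : δ₂ * n / 2 ≤ (((hosts n par).filter (fun u => par u ∉ Y)).card : ℝ) := by
      linarith [not_le.1 hcase]
    have hε3 : ((D : ℝ) + 1) ^ 3 * (ε * n) ≤ δ₂ * n / 16 := by
      have h1 : ε * (16 * ((D : ℝ) + 1) ^ 3) ≤ δ₂ := (le_div_iff₀ (by positivity)).1 hε1
      have h2 := mul_le_mul_of_nonneg_right h1 (by linarith : (0 : ℝ) ≤ n)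
      linarith
    obtain ⟨hs, hS, hpr⟩ := selb_alpha (L := L) (D := D) hpar hH0 hH2 hH3 hHd hHG hGc Y hYm (by
      have h1 : ((D : ℝ) + 1) ^ 3 * L + ((D : ℝ) + 1) ≤
          (((hosts n par).filter (fun u => par u ∉ Y)).card : ℝ) := by
        have h2 : ((D : ℝ) + 1) ^ 3 * L ≤ ((D : ℝ) + 1) ^ 3 * (2 * (ε * n) + 1) := by
          refine mul_le_mul_of_nonneg_left ?_ (by positivity)
          have h3 : ε * N = 2 * (ε * n) - ε := by
            rw [hNr]
            ring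
          linarith
        have h4 : ((D : ℝ) + 1) ^ 3 * (2 * (ε * n) + 1) =
          2 * (((D : ℝ) + 1) ^ 3 * (ε * n)) + ((D : ℝ) + 1) ^ 3 := by ring
        linarith
      exact_mod_cast h1)
    refine ⟨H₀, G₁, hs, hS, Subset.refl _, ?_, ?_, hpr⟩
    · rw [mul_div_assoc]
      linarith
    · have : 0 ≤ θ * ε * n := by positivity
      linarith

end SSB
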