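import Pool.Agent.Lib.MP_8a819d_co.AT.CloE
import Pool.Agent.Lib.MP_8a819d_co.AT.SelB

/-!
# MP_8a819d_co, trees with many non-leaves: case A, 1. Few hosts means few branchings

JOB SelA1 (all of this file).

* `branch_card`: the root is internal (`2 ≤ pdeg 0`). `T₂ = {v < n : 2 ≤ pdeg v}` is closed under parents. For `v ∈ T₂` let `c₂ v` be the number of children of `v`
  in `T₂`: `∑ v ∈ T₂, c₂ v = |T₂| - 1`. If `c₂ v = 0` then `v` has a child (degree `≥ 2`), and its children have degree `1`, so they are childless: `v` is a host.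
  So `#{v ∈ T₂ : c₂ v ≥ 2} ≤ ∑ (c₂ v ≥ 2) (c₂ v - 1) = #{c₂ v = 0} - 1 ≤ |hosts|`. A vertex of degree `≥ 3` which is not a host has at least two children, all
  of them in `T₂`. So `#{v < n : 3 ≤ pdeg v} ≤ 2 |hosts|`.
* `posH par H v`: number of steps from `v` up to `H` (`0` on `H`).
* `run_card`: all degrees outside `H` are `≤ 2` and `0 ∈ H`. The tops of the long runs, `v ∉ H`, `par v ∈ H`, `chs v ≠ ∅`: their number is at most
  `|hosts| + |H|`. For such a `v` consider the component of `v` outside `H` (`comp n par H v`, a path) and let `w` be its largest element with `chs w ≠ ∅`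
  (`v` is one). `w` has exactly one child `c`. If `c ∈ H`: `w = par c` is determined by `c ∈ H`, if `c ∉ H`: `c` is in the component, `c > w`, so `chs c = ∅` and `w`
  is a host. `v = topv par H w` is determined by `w`. So the number is at most `|hosts| + |H|`.
-/

set_option autoImplicit false

namespace SSB

open Finset

/-- a vertex `≥ 1` with a child has degree at least `2` -/
private theorem sela1_deg_of_child {n : ℕ} {par : ℕ → ℕ} {v c : ℕ} (hc1 : 1 ≤ c) (hcn : c < n)
    (hcv : par c = v) (hv : 1 ≤ v) : 2 ≤ pdeg n par v := by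
  have hc : c ∈ chs n par v := by
    unfold chs
    rw [mem_filter, mem_range]
    exact ⟨hcn, hc1, hcv⟩
  have h1 : 0 < (chs n par v).card := card_pos.2 ⟨c, hc⟩
  unfold pdeg
  rw [if_neg (by omega)]
  omega

private theorem sela1_count (T : Finset ℕ) (c : ℕ → ℕ) :
    (T.filter (fun v => 2 ≤ c v)).card + T.card ≤
      ∑ v ∈ T, c v + (T.filter (fun v => c v = 0)).card := by
  rw [card_filter, card_filter, card_eq_sum_ones T, ← sum_add_distrib, ← sum_add_distrib]
  refine sum_le_sum fun v _ => ?_
  split_ifs <;> omega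

theorem branch_card {n : ℕ} {par : ℕ → ℕ} (hpar : IsPar n par) (hn : 1 ≤ n)
    (h0 : 2 ≤ pdeg n par 0) :
    ((range n).filter (fun v => 3 ≤ pdeg n par v)).card ≤ 2 * (hosts n par).card := by
  classical
  set T : Finset ℕ := (range n).filter (fun v => 2 ≤ pdeg n par v) with hT
  have hT0 : 0 ∈ T := by rw [hT, mem_filter, mem_range]; exact ⟨by omega, h0⟩
  have hTlt : ∀ v ∈ T, v < n := fun v hv => mem_range.1 (mem_filter.1 hv).1
  have hTdeg : ∀ v ∈ T, 2 ≤ pdeg n par v := fun v hv => (mem_filter.1 hv).2
  have hmaps : ∀ v ∈ T.erase 0, par v ∈ T := by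
    intro v hv
    have hv0 : v ≠ 0 := (mem_erase.1 hv).1
    have hvn : v < n := hTlt v (mem_erase.1 hv).2
    have hp : par v < v := hpar v (by omega) hvn
    rcases Nat.eq_zero_or_pos (par v) with h | h
    · rw [h]; exact hT0
    · rw [hT, mem_filter, mem_range]
      exact ⟨by omega, sela1_deg_of_child (by omega) hvn rfl (by omega)⟩
  have hsum : ∑ v ∈ T, ((T.erase 0).filter (fun c => par c = v)).card = (T.erase 0).card :=
    (card_eq_sum_card_fiberwise (s := T.erase 0) (t := T) (f := par) hmaps).symm
  have hcard : (T.erase 0).card + 1 = T.card := card_erase_add_one hT0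
  -- vertices with no child in `T` are hosts
  have hzero : T.filter (fun v => ((T.erase 0).filter (fun c => par c = v)).card = 0) ⊆
      hosts n par := by
    intro v hv
    rw [mem_filter] at hv
    obtain ⟨hvT, hv0⟩ := hv
    rw [card_eq_zero] at hv0
    have hd := hTdeg v hvT
    have hne : (chs n par v).Nonempty := by
      rw [← card_pos]
      unfold pdeg at hd
      split_ifs at hd <;> omega
    obtain ⟨c, hc⟩ := hne
    have hcm : c < n ∧ 1 ≤ c ∧ par c = v := by
      unfold chs at hc
      rw [mem_filter, mem_range] at hc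
      exact hc
    have hcT : c ∉ T := by
      intro hcT
      have h1 : c ∈ (T.erase 0).filter (fun c => par c = v) := by
        rw [mem_filter, mem_erase]
        exact ⟨⟨by omega, hcT⟩, hcm.2.2⟩
      rw [hv0] at h1
      exact absurd h1 (notMem_empty _)
    unfold hosts
    rw [mem_filter, mem_range]
    refine ⟨hTlt v hvT, c, hc, ?_⟩
    by_contra hne'
    obtain ⟨c', hc'⟩ := nonempty_iff_ne_empty.2 hne'
    have hcm' : c' < n ∧ 1 ≤ c' ∧ par c' = c := by
      unfold chs at hc'
      rw [mem_filter, mem_range] at hc'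
      exact hc'
    apply hcT
    rw [hT, mem_filter, mem_range]
    exact ⟨hcm.1, sela1_deg_of_child hcm'.2.1 hcm'.1 hcm'.2.2 hcm.2.1⟩
  -- vertices of degree `≥ 3` are hosts or have two children in `T`
  have hsub : (range n).filter (fun v => 3 ≤ pdeg n par v) ⊆ hosts n par ∪
      T.filter (fun v => 2 ≤ ((T.erase 0).filter (fun c => par c = v)).card) := by
    intro v hv
    rw [mem_filter, mem_range] at hv
    obtain ⟨hvn, hv3⟩ := hv
    rw [mem_union]
    by_cases hh : v ∈ hosts n par
    · exact Or.inl hh
    · right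
      have hvT : v ∈ T := by rw [hT, mem_filter, mem_range]; exact ⟨hvn, by omega⟩
      rw [mem_filter]
      refine ⟨hvT, ?_⟩
      have hch2 : 2 ≤ (chs n par v).card := by
        unfold pdeg at hv3
        split_ifs at hv3 <;> omega
      refine hch2.trans (card_le_card ?_)
      intro c hc
      have hcm : c < n ∧ 1 ≤ c ∧ par c = v := by
        unfold chs at hc
        rw [mem_filter, mem_range] at hc
        exact hc
      have hcne : (chs n par c).Nonempty := by
        rw [nonempty_iff_ne_empty]
        intro he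
        apply hh
        unfold hosts
        rw [mem_filter, mem_range]
        exact ⟨hvn, c, hc, he⟩
      obtain ⟨c', hc'⟩ := hcne
      have hcm' : c' < n ∧ 1 ≤ c' ∧ par c' = c := by
        unfold chs at hc'
        rw [mem_filter, mem_range] at hc'
        exact hc'
      rw [mem_filter, mem_erase]
      refine ⟨⟨by omega, ?_⟩, hcm.2.2⟩
      rw [hT, mem_filter, mem_range]
      exact ⟨hcm.1, sela1_deg_of_child hcm'.2.1 hcm'.1 hcm'.2.2 hcm.2.1⟩
  have hcmp : (T.filter (fun v => 2 ≤ ((T.erase 0).filter (fun c => par c = v)).card)).card +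
      T.card ≤ ∑ v ∈ T, ((T.erase 0).filter (fun c => par c = v)).card +
      (T.filter (fun v => ((T.erase 0).filter (fun c => par c = v)).card = 0)).card :=
    sela1_count T (fun v => ((T.erase 0).filter (fun c => par c = v)).card)
  have h1 := card_le_card hsub
  have h2 := card_union_le (hosts n par)
    (T.filter (fun v => 2 ≤ ((T.erase 0).filter (fun c => par c = v)).card))
  have h3 := card_le_card hzero
  rw [hsum] at hcmp
  omega

/-- number of steps from `v` up to `H` -/
def posH (par : ℕ → ℕ) (H : Finset ℕ) (v : ℕ) : ℕ :=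
  if h : par v < v ∧ v ∉ H then posH par H (par v) + 1 else 0
termination_by v
decreasing_by exact h.1

theorem posH_mem {par : ℕ → ℕ} {H : Finset ℕ} {v : ℕ} (h : v ∈ H) : posH par H v = 0 := by
  rw [posH]; simp [h]

theorem posH_succ {n : ℕ} {par : ℕ → ℕ} (hpar : IsPar n par) {H : Finset ℕ} (h0 : 0 ∈ H) {v : ℕ}
    (hv : v < n) (h : v ∉ H) : posH par H v = posH par H (par v) + 1 := by
  have h1 : 1 ≤ v := by
    rcases Nat.eq_zero_or_pos v with rfl | h'
    · exact absurd h0 h
    · exact h'
  rw [posH, dif_pos ⟨hpar v h1 hv, h⟩]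

theorem run_card {n : ℕ} {par : ℕ → ℕ} (hpar : IsPar n par) {H : Finset ℕ} (h0 : 0 ∈ H)
    (hH : H ⊆ range n) (hdeg : ∀ v < n, v ∉ H → pdeg n par v ≤ 2) :
    ((range n).filter (fun v => v ∉ H ∧ par v ∈ H ∧ (chs n par v).Nonempty)).card ≤
      (hosts n par).card + H.card := by
  classical
  set W : Finset ℕ := (range n).filter (fun w => ∃ c ∈ chs n par w, c ∈ H ∨ chs n par c = ∅)
    with hW
  have hsub : (range n).filter (fun v => v ∉ H ∧ par v ∈ H ∧ (chs n par v).Nonempty) ⊆
      W.image (topv par H) := by
    intro v hv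
    rw [mem_filter, mem_range] at hv
    obtain ⟨hvn, hvH, hpv, hvc⟩ := hv
    set Q : Finset ℕ := (comp n par H v).filter (fun w => (chs n par w).Nonempty) with hQ
    have hvQ : v ∈ Q := by
      rw [hQ, mem_filter]
      refine ⟨?_, hvc⟩
      unfold comp
      rw [mem_filter, mem_range]
      exact ⟨hvn, hvH, topv_stop hpv⟩
    have hQne : Q.Nonempty := ⟨v, hvQ⟩
    obtain ⟨w, hwQ, hwmax⟩ := Q.exists_max_image id hQne
    rw [hQ, mem_filter] at hwQ
    obtain ⟨hwc, c, hc⟩ := hwQ
    have hwm : w < n ∧ w ∉ H ∧ topv par H w = v := by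
      unfold comp at hwc
      rw [mem_filter, mem_range] at hwc
      exact hwc
    have hcm : c < n ∧ 1 ≤ c ∧ par c = w := by
      have hc' := hc
      unfold chs at hc'
      rw [mem_filter, mem_range] at hc'
      exact hc'
    rw [mem_image]
    refine ⟨w, ?_, hwm.2.2⟩
    rw [hW, mem_filter, mem_range]
    refine ⟨hwm.1, c, hc, ?_⟩
    by_cases hcH : c ∈ H
    · exact Or.inl hcH
    · right
      by_contra hne
      have hwlt : w < c := by
        have := hpar c hcm.2.1 hcm.1
        omega
      have hcQ : c ∈ Q := by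
        rw [hQ, mem_filter]
        refine ⟨?_, nonempty_iff_ne_empty.2 hne⟩
        unfold comp
        rw [mem_filter, mem_range]
        refine ⟨hcm.1, hcH, ?_⟩
        rw [topv_step (by rw [hcm.2.2]; exact hwlt) (by rw [hcm.2.2]; exact hwm.2.1), hcm.2.2]
        exact hwm.2.2
      have h1 : c ≤ w := hwmax c hcQ
      omega
  have hsub2 : W ⊆ hosts n par ∪ H.image par := by
    intro w hw
    rw [hW, mem_filter, mem_range] at hw
    obtain ⟨hwn, c, hc, hcc⟩ := hw
    rw [mem_union]
    rcases hcc with hcH | hce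
    · right
      rw [mem_image]
      refine ⟨c, hcH, ?_⟩
      unfold chs at hc
      rw [mem_filter] at hc
      exact hc.2.2
    · left
      unfold hosts
      rw [mem_filter, mem_range]
      exact ⟨hwn, c, hc, hce⟩
  calc _ ≤ (W.image (topv par H)).card := card_le_card hsub
    _ ≤ W.card := card_image_le
    _ ≤ (hosts n par ∪ H.image par).card := card_le_card hsub2
    _ ≤ (hosts n par).card + (H.image par).card := card_union_le _ _
    _ ≤ _ := Nat.add_le_add_left card_image_le _

end SSB
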