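import Pool.Agent.Lib.MP_8a819d_co.AT.SelB

/-!
# MP_8a819d_co, trees with many non-leaves: properties of the selection (case B)

`U` is a set of selected hosts and `OO` the set of their parents outside `H` with parent in `H`.
The file collects the combinatorial properties of `H`, `U`, `OO`: a vertex outside of `H`, `U`, `OO`
has at most one neighbour in it, the items of `M` and `U` and so on.
-/

set_option autoImplicit false

namespace SSB

open Finset

/-- the parents of the elements of `U` which are outside `H` and have their parent in `H` -/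
def OO (par : ℕ → ℕ) (H U : Finset ℕ) : Finset ℕ :=
  (U.image par).filter (fun p => p ∉ H ∧ par p ∈ H)

variable {n D L : ℕ} {par : ℕ → ℕ} {H M U : Finset ℕ} {hs : ℕ → ℕ}

private theorem selbf_mem (h : SelBP n D L par H M hs) (hU : U ⊆ (range L).image hs) {u : ℕ}
    (hu : u ∈ U) : u < n ∧ 1 ≤ u ∧ u ∉ H ∧
      ∀ c ∈ chs n par u, c ∉ H ∧ ∀ c' ∈ chs n par c, c' ∉ H := by
  obtain ⟨i, hi, rfl⟩ := mem_image.1 (hU hu)
  rw [mem_range] at hi
  refine ⟨h.lt i hi, ?_, h.nH i hi, h.noc i hi⟩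
  by_contra hc
  have h0 : hs i = 0 := by omega
  apply h.nH i hi
  rw [h0]
  exact h.H0

private theorem selbf_alt (h : SelBP n D L par H M hs) (hU : U ⊆ (range L).image hs) :
    (∀ u ∈ U, par u ∈ M) ∨ (∀ u ∈ U, par u ∉ H ∧
      (∀ c ∈ chs n par (par u), c ∉ H ∧ ∀ c' ∈ chs n par c, c' ∉ H) ∧
      ∀ w ∈ U, w ≠ u → w ∉ nbO n par H (nbO n par H (nbO n par H {u}))) := by
  rcases h.alt with ha | ha
  · left
    intro u hu
    obtain ⟨i, hi, rfl⟩ := mem_image.1 (hU hu)
    exact ha i (mem_range.1 hi)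
  · right
    intro u hu
    obtain ⟨i, hi, rfl⟩ := mem_image.1 (hU hu)
    rw [mem_range] at hi
    obtain ⟨h1, h2, h3⟩ := ha i hi
    refine ⟨h1, h2, fun w hw hwu => ?_⟩
    obtain ⟨j, hj, rfl⟩ := mem_image.1 (hU hw)
    rw [mem_range] at hj
    exact h3 j hj (fun e => hwu (by rw [e]))

private theorem selbf_self {X : Finset ℕ} {v : ℕ} (hv : v ∈ X) (hH : v ∉ H) :
    v ∈ nbO n par H X := mem_nbO.2 ⟨Or.inl hv, hH⟩

private theorem selbf_par {X : Finset ℕ} {v : ℕ} (hv : v ∈ X) (h1 : 1 ≤ v) (hn : v < n)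
    (hH : par v ∉ H) : par v ∈ nbO n par H X := mem_nbO.2 ⟨Or.inr (Or.inl ⟨v, hv, h1, hn, rfl⟩), hH⟩

private theorem selbf_chi {X : Finset ℕ} {v : ℕ} (hv : par v ∈ X) (h1 : 1 ≤ v) (hn : v < n)
    (hH : v ∉ H) : v ∈ nbO n par H X := mem_nbO.2 ⟨Or.inr (Or.inr ⟨hn, h1, hv⟩), hH⟩

private theorem selbf_O {o : ℕ} (ho : o ∈ OO par H U) :
    ∃ u ∈ U, par u = o ∧ o ∉ H ∧ par o ∈ H := by
  rw [OO, mem_filter, mem_image] at ho
  obtain ⟨⟨u, hu, rfl⟩, h1, h2⟩ := ho
  exact ⟨u, hu, rfl, h1, h2⟩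

theorem U_H (h : SelBP n D L par H M hs) (hU : U ⊆ (range L).image hs) : Disjoint U H := by
  rw [disjoint_left]
  intro u hu
  exact (selbf_mem h hU hu).2.2.1

theorem U_sub (h : SelBP n D L par H M hs) (hU : U ⊆ (range L).image hs) : U ⊆ range n := by
  intro u hu
  exact mem_range.2 (selbf_mem h hU hu).1

theorem O_sub (hpar : IsPar n par) (h : SelBP n D L par H M hs) (hU : U ⊆ (range L).image hs) :
    OO par H U ⊆ range n := by
  intro o ho
  obtain ⟨u, hu, hp, -, -⟩ := selbf_O ho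
  obtain ⟨h1, h2, -, -⟩ := selbf_mem h hU hu
  have h3 := hpar u h2 h1
  rw [mem_range]
  omega

theorem O_U (hpar : IsPar n par) (h : SelBP n D L par H M hs) (hU : U ⊆ (range L).image hs) :
    Disjoint (OO par H U) U := by
  rw [disjoint_left]
  intro o ho hoU
  obtain ⟨u, hu, hp, h1, -⟩ := selbf_O ho
  obtain ⟨h2, h3, h4, -⟩ := selbf_mem h hU hu
  have h5 := hpar u h3 h2
  subst hp
  rcases selbf_alt h hU with ha | ha
  · exact h1 (h.Msub (ha u hu))
  · refine (ha u hu).2.2 (par u) hoU (by omega) ?_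
    exact selbf_self (selbf_self (selbf_par (mem_singleton_self u) h3 h2 h1) h1) h1

/-- two different children of a vertex outside `H` are not both in `U`, and if one is in `U`
then none is in `H` -/
private theorem selbf_two (h : SelBP n D L par H M hs) (hU : U ⊆ (range L).image hs) {v a b : ℕ}
    (hv : v ∉ H) (ha : a ∈ U) (hav : par a = v) (hb : b ∈ chs n par v) (hab : a ≠ b) :
    b ∉ H ∧ b ∉ U := by
  obtain ⟨h1, h2, h3, -⟩ := selbf_mem h hU ha
  rcases selbf_alt h hU with hal | hal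
  · exact absurd (h.Msub (hal a ha)) (by rw [hav]; exact hv)
  · obtain ⟨h4, h5, h6⟩ := hal a ha
    rw [hav] at h5
    obtain ⟨h7, -⟩ := h5 b hb
    refine ⟨h7, fun hbU => ?_⟩
    rw [mem_chs] at hb
    obtain ⟨hb1, hb2, hb3⟩ := hb
    refine h6 b hbU (Ne.symm hab) ?_
    refine selbf_self (selbf_chi ?_ hb2 hb1 h7) h7
    rw [hb3, ← hav]
    exact selbf_par (mem_singleton_self a) h2 h1 h4

/-- the case of a child and the parent -/
private theorem selbf_pc (hpar : IsPar n par) (h : SelBP n D L par H M hs)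
    (hU : U ⊆ (range L).image hs) {v c : ℕ} (hv : v < n) (hv1 : 1 ≤ v)
    (hvB : v ∉ H ∪ U ∪ OO par H U) (hc : c ∈ chs n par v) (hcB : c ∈ H ∪ U ∪ OO par H U)
    (hpB : par v ∈ H ∪ U ∪ OO par H U) : par v = c := by
  have hvH : v ∉ H := fun e => hvB (mem_union_left _ (mem_union_left _ e))
  have hvO : v ∉ OO par H U := fun e => hvB (mem_union_right _ e)
  have hc' := mem_chs.1 hc
  have hvc : v ∈ chs n par (par v) := mem_chs.2 ⟨hv, hv1, rfl⟩
  have hlt := hpar v hv1 hv
  have hltc := hpar c hc'.2.1 hc'.1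
  rw [hc'.2.2] at hltc
  have hcHU : c ∈ H ∨ c ∈ U := by
    rcases mem_union.1 hcB with e | e
    · exact mem_union.1 e
    · exfalso
      obtain ⟨u, -, -, -, e2⟩ := selbf_O e
      rw [hc'.2.2] at e2
      exact hvH e2
  rcases mem_union.1 hpB with e | e
  · rcases mem_union.1 e with e | e
    · -- the parent is in `H`
      rcases hcHU with g | g
      · have hcl := h.Hclo v hv hvH
        rw [card_le_one] at hcl
        exact hcl _ (mem_bnb.2 ⟨e, Or.inl ⟨hv1, hv, rfl⟩⟩) _
          (mem_bnb.2 ⟨g, Or.inr ⟨hc'.2.1, hc'.1, hc'.2.2⟩⟩)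
      · exfalso
        apply hvO
        rw [OO, mem_filter, mem_image]
        exact ⟨⟨c, g, hc'.2.2⟩, hvH, e⟩
    · -- the parent is in `U`
      exfalso
      obtain ⟨p1, p2, p3, p4⟩ := selbf_mem h hU e
      have hcH : c ∉ H := (p4 v hvc).2 c hc
      rcases hcHU with g | g
      · exact hcH g
      · rcases selbf_alt h hU with hal | hal
        · have := h.Msub (hal c g)
          rw [hc'.2.2] at this
          exact hvH this
        · refine (hal (par v) e).2.2 c g (by omega) ?_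
          refine selbf_self (selbf_chi ?_ hc'.2.1 hc'.1 hcH) hcH
          rw [hc'.2.2]
          exact selbf_chi (mem_singleton_self _) hv1 hv hvH
  · -- the parent is in `OO`
    exfalso
    obtain ⟨u, hu, q1, q2, q3⟩ := selbf_O e
    obtain ⟨p1, p2, p3, p4⟩ := selbf_mem h hU hu
    rcases selbf_alt h hU with hal | hal
    · have := h.Msub (hal u hu)
      rw [q1] at this
      exact q2 this
    · obtain ⟨a1, a2, a3⟩ := hal u hu
      rw [q1] at a2
      have hcH : c ∉ H := (a2 v hvc).2 c hc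
      rcases hcHU with g | g
      · exact hcH g
      · refine a3 c g ?_ ?_
        · intro e1
          rw [e1] at hc'
          rw [hc'.2.2] at q1
          omega
        · refine selbf_chi ?_ hc'.2.1 hc'.1 hcH
          rw [hc'.2.2]
          refine selbf_chi ?_ hv1 hv hvH
          rw [← q1]
          exact selbf_par (mem_singleton_self u) p2 p1 a1

theorem bnb_B (hpar : IsPar n par) (h : SelBP n D L par H M hs) (hU : U ⊆ (range L).image hs) {v : ℕ}
    (hv : v < n) (hvB : v ∉ H ∪ U ∪ OO par H U) :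
    (bnb n par (H ∪ U ∪ OO par H U) v).card ≤ 1 := by
  have hvH : v ∉ H := fun e => hvB (mem_union_left _ (mem_union_left _ e))
  have hHU : ∀ c ∈ chs n par v, c ∈ H ∪ U ∪ OO par H U → c ∈ H ∨ c ∈ U := by
    intro c hc hcB
    rcases mem_union.1 hcB with e | e
    · exact mem_union.1 e
    · exfalso
      obtain ⟨u, -, -, -, e2⟩ := selbf_O e
      rw [(mem_chs.1 hc).2.2] at e2
      exact hvH e2
  rw [card_le_one]
  intro a ha b hb
  rw [mem_bnb] at ha hb
  obtain ⟨haB, ha⟩ := ha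
  obtain ⟨hbB, hb⟩ := hb
  rcases ha with ⟨ha1, ha2, ha3⟩ | ⟨ha1, ha2, ha3⟩ <;> rcases hb with ⟨hb1, hb2, hb3⟩ | ⟨hb1, hb2, hb3⟩
  · rw [← ha3, hb3]
  · rw [← ha3]
    rw [← ha3] at haB
    exact selbf_pc hpar h hU hv ha1 hvB (mem_chs.2 ⟨hb2, hb1, hb3⟩) hbB haB
  · rw [← hb3]
    rw [← hb3] at hbB
    exact (selbf_pc hpar h hU hv hb1 hvB (mem_chs.2 ⟨ha2, ha1, ha3⟩) haB hbB).symm
  · by_contra hab
    have hca : a ∈ chs n par v := mem_chs.2 ⟨ha2, ha1, ha3⟩
    have hcb : b ∈ chs n par v := mem_chs.2 ⟨hb2, hb1, hb3⟩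
    rcases hHU a hca haB with ea | ea
    · rcases hHU b hcb hbB with eb | eb
      · have hcl := h.Hclo v hv hvH
        rw [card_le_one] at hcl
        exact hab (hcl a (mem_bnb.2 ⟨ea, Or.inr ⟨ha1, ha2, ha3⟩⟩) b
          (mem_bnb.2 ⟨eb, Or.inr ⟨hb1, hb2, hb3⟩⟩))
      · exact (selbf_two h hU hvH eb hb3 hca (Ne.symm hab)).1 ea
    · obtain ⟨e1, e2⟩ := selbf_two h hU hvH ea ha3 hcb hab
      rcases hHU b hcb hbB with eb | eb
      · exact e1 eb
      · exact e2 eb

theorem chs_M (hpar : IsPar n par) (h : SelBP n D L par H M hs) (hU : U ⊆ (range L).image hs) {x : ℕ}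
    (hx : x ∈ H \ M) : ((chs n par x).filter (· ∈ M ∪ U)).card ≤ 1 := by
  rw [mem_sdiff] at hx
  have hxn : x < n := mem_range.1 (h.Hsub hx.1)
  have key : ∀ c ∈ chs n par x, c ∉ U := by
    intro c hc hcU
    rw [mem_chs] at hc
    rcases selbf_alt h hU with hal | hal
    · have := hal c hcU
      rw [hc.2.2] at this
      exact hx.2 this
    · have := (hal c hcU).1
      rw [hc.2.2] at this
      exact this hx.1
  have hcl := h.Mclo x hxn hx.2
  rw [card_le_one] at hcl ⊢
  intro a ha b hb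
  rw [mem_filter] at ha hb
  have ea : a ∈ M := (mem_union.1 ha.2).resolve_right (key a ha.1)
  have eb : b ∈ M := (mem_union.1 hb.2).resolve_right (key b hb.1)
  have ha' := mem_chs.1 ha.1
  have hb' := mem_chs.1 hb.1
  exact hcl a (mem_bnb.2 ⟨ea, Or.inr ⟨ha'.2.1, ha'.1, ha'.2.2⟩⟩) b
    (mem_bnb.2 ⟨eb, Or.inr ⟨hb'.2.1, hb'.1, hb'.2.2⟩⟩)

theorem chs_O (hpar : IsPar n par) (h : SelBP n D L par H M hs) (hU : U ⊆ (range L).image hs) {x : ℕ}
    (hx : x ∈ OO par H U) : ((chs n par x).filter (· ∈ H ∪ U)).card ≤ 1 := by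
  obtain ⟨u, hu, q1, q2, q3⟩ := selbf_O hx
  rcases selbf_alt h hU with hal | hal
  · have := h.Msub (hal u hu)
    rw [q1] at this
    exact absurd this q2
  have hcH : ∀ c ∈ chs n par x, c ∉ H := by
    intro c hc
    rw [← q1] at hc
    exact ((hal u hu).2.1 c hc).1
  rw [card_le_one]
  intro a ha b hb
  rw [mem_filter] at ha hb
  have ea : a ∈ U := (mem_union.1 ha.2).resolve_left (hcH a ha.1)
  have eb : b ∈ U := (mem_union.1 hb.2).resolve_left (hcH b hb.1)
  by_contra hab
  exact (selbf_two h hU q2 ea (mem_chs.1 ha.1).2.2 hb.1 hab).2 eb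

theorem items_MU (hpar : IsPar n par) (h : SelBP n D L par H M hs) (hU : U ⊆ (range L).image hs) :
    items par (M ∪ U) = items par M ∪ U.image Sum.inl ∪
      (U.filter (fun u => par u ∈ M)).image Sum.inr := by
  ext x
  rcases x with i | i
  · simp only [mem_items_inl, mem_union, mem_image, Sum.inl.injEq, reduceCtorEq, and_false,
      exists_false, or_false, exists_eq_right]
  · simp only [mem_items_inr, mem_union, mem_image, Sum.inr.injEq, reduceCtorEq, and_false,
      exists_false, or_false, exists_eq_right, mem_filter]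
    constructor
    · rintro ⟨h1, h2, h3⟩
      rcases h1 with h1 | h1
      · rcases h3 with h3 | h3
        · exact Or.inl ⟨h1, h2, h3⟩
        · exfalso
          have hi : i < n := mem_range.1 (h.Hsub (h.Msub h1))
          exact ((selbf_mem h hU h3).2.2.2 i (mem_chs.2 ⟨hi, h2, rfl⟩)).1 (h.Msub h1)
      · rcases h3 with h3 | h3
        · exact Or.inr ⟨h1, h3⟩
        · rcases selbf_alt h hU with hal | hal
          · exact Or.inr ⟨h1, hal i h1⟩
          · exfalso
            obtain ⟨p1, p2, p3, p4⟩ := selbf_mem h hU h1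
            have h5 := hpar i p2 p1
            obtain ⟨a1, a2, a3⟩ := hal i h1
            refine a3 (par i) h3 (by omega) ?_
            exact selbf_self (selbf_self (selbf_par (mem_singleton_self i) p2 p1 a1) a1) a1
    · rintro (⟨h1, h2, h3⟩ | ⟨h1, h2⟩)
      · exact ⟨Or.inl h1, h2, Or.inl h3⟩
      · exact ⟨Or.inr h1, (selbf_mem h hU h1).2.1, Or.inl h2⟩

theorem leaf_B (hpar : IsPar n par) (h : SelBP n D L par H M hs) (hU : U ⊆ (range L).image hs) {u c : ℕ}
    (hu : u ∈ U) (hc : c ∈ chs n par u) (hc' : chs n par c = ∅) : c ∉ H ∪ U ∪ OO par H U := by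
  obtain ⟨p1, p2, p3, p4⟩ := selbf_mem h hU hu
  have hcc := mem_chs.1 hc
  have hlt := hpar c hcc.2.1 hcc.1
  rw [hcc.2.2] at hlt
  intro hcB
  rcases mem_union.1 hcB with e | e
  · rcases mem_union.1 e with e | e
    · exact (p4 c hc).1 e
    · rcases selbf_alt h hU with hal | hal
      · have := h.Msub (hal c e)
        rw [hcc.2.2] at this
        exact p3 this
      · obtain ⟨a1, a2, a3⟩ := hal c e
        refine a3 u hu (by omega) ?_
        rw [← hcc.2.2]
        exact selbf_self (selbf_self (selbf_par (mem_singleton_self c) hcc.2.1 hcc.1 a1) a1) a1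
  · obtain ⟨w, -, -, -, e2⟩ := selbf_O e
    rw [hcc.2.2] at e2
    exact p3 e2

end SSB
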