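import Pool.Agent.Lib.MP_8a819d_co.AT.CloE
import Pool.Agent.Lib.MP_8a819d_co.BD.Dc2

/-!
# MP_8a819d_co, trees with many non-leaves: distances outside `H`

JOB Thin (all of this file).

`nbO n par H X`: the elements of `X` and their neighbours, outside `H`. All vertices outside `H` have degree at most `D`, so
`|nbO X| ≤ (D + 1) |X|` for `X ⊆ range n \ H` (`X` and its neighbours; as `nbh_card` in BD/Dc2.lean). `thinO`: take a maximal `V ⊆ cand`
with `v ∉ nbO (nbO (nbO {u}))` for different `u, v ∈ V`; every `c ∈ cand` is in `nbO³ {u}` for some `u ∈ V` (maximality; membership in `nbO³`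
is symmetric for vertices outside `H`), so `|cand| ≤ (D + 1)^3 |V|`. Compare `choose_units` in BD/Dc2.lean.
`mem_nbO`, `nbO_self`, `nbO_step`: membership rules to be used later: `v ∈ nbO X`, `w < n` adjacent to `v` (parent or child), `w ∉ H` imply
`w ∈ nbO (nbO X)`, etc.
-/

set_option autoImplicit false

namespace SSB

open Finset

/-- `X` and its neighbours, outside `H` -/
def nbO (n : ℕ) (par : ℕ → ℕ) (H X : Finset ℕ) : Finset ℕ := (nbh n par X).filter (fun v => v ∉ H)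

theorem mem_nbO {n : ℕ} {par : ℕ → ℕ} {H X : Finset ℕ} {v : ℕ} : v ∈ nbO n par H X ↔
    (v ∈ X ∨ (∃ i ∈ X, 1 ≤ i ∧ i < n ∧ par i = v) ∨ (v < n ∧ 1 ≤ v ∧ par v ∈ X)) ∧ v ∉ H := by
  rw [nbO, mem_filter, mem_nbh]

private theorem thin_mem {n : ℕ} {par : ℕ → ℕ} {X : Finset ℕ} {v : ℕ} :
    v ∈ nbh n par X ↔ ∃ u ∈ X, v ∈ nbh n par {u} := by
  constructor
  · intro h
    rcases mem_nbh.1 h with h | ⟨i, hi, h1, h2, h3⟩ | ⟨h1, h2, h3⟩
    · exact ⟨v, h, mem_nbh.2 (Or.inl (Finset.mem_singleton_self v))⟩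
    · exact ⟨i, hi, mem_nbh.2 (Or.inr (Or.inl ⟨i, Finset.mem_singleton_self i, h1, h2, h3⟩))⟩
    · exact ⟨par v, h3, mem_nbh.2 (Or.inr (Or.inr ⟨h1, h2, Finset.mem_singleton_self _⟩))⟩
  · rintro ⟨u, hu, h⟩
    rcases mem_nbh.1 h with h | ⟨i, hi, h1, h2, h3⟩ | ⟨h1, h2, h3⟩
    · rw [Finset.mem_singleton] at h
      rw [h]
      exact mem_nbh.2 (Or.inl hu)
    · rw [Finset.mem_singleton] at hi
      rw [hi] at h1 h2 h3
      exact mem_nbh.2 (Or.inr (Or.inl ⟨u, hu, h1, h2, h3⟩))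
    · rw [Finset.mem_singleton] at h3
      exact mem_nbh.2 (Or.inr (Or.inr ⟨h1, h2, by rw [h3]; exact hu⟩))

private theorem thin_symm {n : ℕ} {par : ℕ → ℕ} {u v : ℕ} (h : v ∈ nbh n par {u}) :
    u ∈ nbh n par {v} := by
  rcases mem_nbh.1 h with h | ⟨i, hi, h1, h2, h3⟩ | ⟨h1, h2, h3⟩
  · rw [Finset.mem_singleton] at h
    rw [h]
    exact mem_nbh.2 (Or.inl (Finset.mem_singleton_self u))
  · rw [Finset.mem_singleton] at hi
    rw [hi] at h1 h2 h3
    exact mem_nbh.2 (Or.inr (Or.inr ⟨h2, h1, Finset.mem_singleton.2 h3⟩))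
  · rw [Finset.mem_singleton] at h3
    exact mem_nbh.2 (Or.inr (Or.inl ⟨v, Finset.mem_singleton_self v, h2, h1, h3⟩))

private theorem thin_memO {n : ℕ} {par : ℕ → ℕ} {H X : Finset ℕ} {v : ℕ} :
    v ∈ nbO n par H X ↔ (∃ u ∈ X, v ∈ nbh n par {u}) ∧ v ∉ H := by
  rw [nbO, mem_filter, ← thin_mem]

private theorem thin_symm3 {n : ℕ} {par : ℕ → ℕ} {H : Finset ℕ} {u v : ℕ} (hu : u ∉ H)
    (h : v ∈ nbO n par H (nbO n par H (nbO n par H {u}))) :
    u ∈ nbO n par H (nbO n par H (nbO n par H {v})) := by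
  obtain ⟨⟨y, hy, hv⟩, hvH⟩ := thin_memO.1 h
  obtain ⟨⟨x, hx, hy'⟩, hyH⟩ := thin_memO.1 hy
  obtain ⟨⟨w, hw, hx'⟩, hxH⟩ := thin_memO.1 hx
  rw [mem_singleton] at hw
  rw [hw] at hx'
  exact thin_memO.2 ⟨⟨x, thin_memO.2 ⟨⟨y, thin_memO.2 ⟨⟨v, mem_singleton_self v, thin_symm hv⟩, hyH⟩,
    thin_symm hy'⟩, hxH⟩, thin_symm hx'⟩, hu⟩

private theorem thin_self {n : ℕ} {par : ℕ → ℕ} {H X : Finset ℕ} {v : ℕ} (h : v ∈ X) (hv : v ∉ H) :
    v ∈ nbO n par H X := mem_nbO.2 ⟨Or.inl h, hv⟩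

private theorem thin_card {n D : ℕ} {par : ℕ → ℕ} {H : Finset ℕ}
    (hdeg : ∀ v < n, v ∉ H → pdeg n par v ≤ D) {X : Finset ℕ}
    (hX : X ⊆ range n) (hXH : ∀ x ∈ X, x ∉ H) : (nbO n par H X).card ≤ (D + 1) * X.card := by
  have hsub : nbO n par H X ⊆ X.biUnion fun i =>
      insert i ((if i = 0 then ∅ else {par i}) ∪ chs n par i) := by
    intro v hv
    rw [Finset.mem_biUnion]
    rcases (mem_nbO.1 hv).1 with h | ⟨i, hi, h1, h2, h3⟩ | ⟨h1, h2, h3⟩
    · exact ⟨v, h, Finset.mem_insert_self _ _⟩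
    · refine ⟨i, hi, Finset.mem_insert_of_mem (Finset.mem_union_left _ ?_)⟩
      rw [if_neg (by omega), Finset.mem_singleton]
      exact h3.symm
    · refine ⟨par v, h3, Finset.mem_insert_of_mem (Finset.mem_union_right _ ?_)⟩
      rw [chs, Finset.mem_filter, Finset.mem_range]
      exact ⟨h1, h2, rfl⟩
  refine (Finset.card_le_card hsub).trans ?_
  rw [mul_comm]
  refine Finset.card_biUnion_le_card_mul _ _ _ fun i hi => ?_
  have hin : i < n := Finset.mem_range.1 (hX hi)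
  have h1 := hdeg i hin (hXH i hi)
  unfold pdeg at h1
  have h2 := Finset.card_insert_le i ((if i = 0 then (∅ : Finset ℕ) else {par i}) ∪ chs n par i)
  have h3 := Finset.card_union_le (if i = 0 then (∅ : Finset ℕ) else {par i}) (chs n par i)
  have h4 : (if i = 0 then (∅ : Finset ℕ) else {par i}).card = if i = 0 then 0 else 1 := by
    split_ifs
    · exact Finset.card_empty
    · exact Finset.card_singleton _
  rw [h4] at h3
  omega

private theorem thin_sub {n : ℕ} {par : ℕ → ℕ} (hpar : IsPar n par) {H X : Finset ℕ}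
    (hX : X ⊆ range n) : nbO n par H X ⊆ range n :=
  (filter_subset _ _).trans (nbh_sub hpar hX)

private theorem thin_out {n : ℕ} {par : ℕ → ℕ} {H X : Finset ℕ} : ∀ x ∈ nbO n par H X, x ∉ H :=
  fun _ hx => (mem_nbO.1 hx).2

theorem thinO {n D : ℕ} {par : ℕ → ℕ} (hpar : IsPar n par) {H : Finset ℕ}
    (hdeg : ∀ v < n, v ∉ H → pdeg n par v ≤ D) (cand : Finset ℕ) (hc : cand ⊆ range n)
    (hH : Disjoint cand H) :
    ∃ V ⊆ cand, cand.card ≤ (D + 1) ^ 3 * V.card ∧
      ∀ u ∈ V, ∀ v ∈ V, u ≠ v → v ∉ nbO n par H (nbO n par H (nbO n par H {u})) := by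
  classical
  have hcH : ∀ c ∈ cand, c ∉ H := fun c hcc hcH => (Finset.disjoint_left.mp hH) hcc hcH
  let R : Finset (Finset ℕ) := cand.powerset.filter fun V =>
    ∀ u ∈ V, ∀ v ∈ V, u ≠ v → v ∉ nbO n par H (nbO n par H (nbO n par H {u}))
  have hR : R.Nonempty := by
    refine ⟨∅, Finset.mem_filter.2 ⟨Finset.empty_mem_powerset _, fun u hu => ?_⟩⟩
    exact absurd hu (Finset.notMem_empty u)
  obtain ⟨V, hV, hmax⟩ := Finset.exists_max_image R Finset.card hR
  rw [Finset.mem_filter, Finset.mem_powerset] at hV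
  obtain ⟨hVc, hVP⟩ := hV
  refine ⟨V, hVc, ?_, hVP⟩
  have hcov : cand ⊆ V.biUnion fun u => nbO n par H (nbO n par H (nbO n par H {u})) := by
    intro c hcc
    have hc0 := hcH c hcc
    rw [Finset.mem_biUnion]
    by_cases hcV : c ∈ V
    · exact ⟨c, hcV, thin_self (thin_self (thin_self (Finset.mem_singleton_self c) hc0) hc0) hc0⟩
    · by_contra hno
      have hins : insert c V ∈ R := by
        refine Finset.mem_filter.2 ⟨Finset.mem_powerset.2
          (Finset.insert_subset hcc hVc), fun u hu v hv huv hmem => ?_⟩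
        rw [Finset.mem_insert] at hu hv
        rcases hu with rfl | hu
        · rcases hv with rfl | hv
          · exact huv rfl
          · exact hno ⟨v, hv, thin_symm3 hc0 hmem⟩
        · rcases hv with rfl | hv
          · exact hno ⟨u, hu, hmem⟩
          · exact hVP u hu v hv huv hmem
      have h1 := hmax _ hins
      rw [Finset.card_insert_of_notMem hcV] at h1
      omega
  refine (Finset.card_le_card hcov).trans ?_
  rw [mul_comm]
  refine Finset.card_biUnion_le_card_mul _ _ _ fun u hu => ?_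
  have h0 : ({u} : Finset ℕ) ⊆ range n := Finset.singleton_subset_iff.2 (hc (hVc hu))
  have h0' : ∀ x ∈ ({u} : Finset ℕ), x ∉ H := fun x hx => by
    rw [Finset.mem_singleton] at hx
    rw [hx]
    exact hcH u (hVc hu)
  have s1 := thin_sub (H := H) hpar h0
  have s2 := thin_sub (H := H) hpar s1
  have c1 := thin_card hdeg h0 h0'
  have c2 := thin_card hdeg s1 thin_out
  have c3 := thin_card hdeg s2 thin_out
  rw [Finset.card_singleton, mul_one] at c1
  calc (nbO n par H (nbO n par H (nbO n par H {u}))).card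
      ≤ (D + 1) * (nbO n par H (nbO n par H {u})).card := c3
    _ ≤ (D + 1) * ((D + 1) * (nbO n par H {u}).card) := Nat.mul_le_mul_left _ c2
    _ ≤ (D + 1) * ((D + 1) * (D + 1)) :=
        Nat.mul_le_mul_left _ (Nat.mul_le_mul_left _ c1)
    _ = (D + 1) ^ 3 := by ring

end SSB
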